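import Pool.Agent.U761.SZ.LDF

set_option autoImplicit false

/-!
U761.SZ: the classical definition of the argument of zeta by continuous variation.
-/

namespace Pool.Agent.U761.SZ

open Filter Topology MeasureTheory Complex Set
open Pool.Agent.Q97.UM Pool.Agent.Q257.UM

noncomputable section

/-- `π S(t)`: the argument of zeta by continuous variation from `2` over `2 + it` to `1/2 + it` -/
def piS (t : ℝ) : ℝ := (∫ u in (0 : ℝ)..t, (logDeriv riemannZeta ((2 : ℂ) + u * I)).re) -
  ∫ x in (1 / 2 : ℝ)..2, (logDeriv riemannZeta ((x : ℂ) + t * I)).im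

theorem lc_norm (n : ℕ) : ‖lc n‖ ≤ 1 := by
  unfold lc
  rw [norm_real, Real.norm_eq_abs, abs_of_nonneg (div_nonneg ArithmeticFunction.vonMangoldt_nonneg (Real.log_natCast_nonneg n))]
  exact div_le_one_of_le₀ ArithmeticFunction.vonMangoldt_le_log (Real.log_natCast_nonneg n)

theorem lc_absc {s : ℂ} (hs : 1 < s.re) : LSeries.abscissaOfAbsConv lc < s.re := by
  have h1 : LSeries.abscissaOfAbsConv lc ≤ 1 :=
    LSeries.abscissaOfAbsConv_le_of_le_const ⟨1, fun n _ => lc_norm n⟩
  refine h1.trans_lt ?_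
  exact_mod_cast hs

theorem logMul_lc : LSeries.logMul lc = fun n => (ArithmeticFunction.vonMangoldt n : ℂ) := by
  funext n
  unfold LSeries.logMul lc
  by_cases h : n ≤ 1
  · interval_cases n <;> simp
  · have h1 : Real.log n ≠ 0 := by
      have : (1 : ℝ) < n := by exact_mod_cast (by omega : 1 < n)
      exact (Real.log_pos this).ne'
    have h2 : (Real.log n : ℂ) ≠ 0 := by exact_mod_cast h1
    rw [← natCast_log, ofReal_div]
    field_simp

theorem ell_deriv {s : ℂ} (hs : 1 < s.re) : HasDerivAt ell (logDeriv riemannZeta s) s := by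
  have h := LSeries_hasDerivAt (lc_absc hs)
  rw [logMul_lc, ArithmeticFunction.LSeries_vonMangoldt_eq_deriv_riemannZeta_div hs] at h
  rw [neg_div, neg_neg] at h
  rw [logDeriv_apply]
  exact h

theorem ell_two : (ell 2).im = 0 := by
  have h : ell 2 = ((∑' n : ℕ, (LSeries.term lc 2 n).re : ℝ) : ℂ) := by
    unfold ell LSeries
    rw [ofReal_tsum]
    refine tsum_congr fun n => ?_
    by_cases hn : n = 0
    · subst hn
      simp
    · rw [LSeries.term_of_ne_zero hn]
      have e : lc n / (n : ℂ) ^ (2 : ℂ) = ((ArithmeticFunction.vonMangoldt n / Real.log n / (n : ℝ) ^ 2 : ℝ) : ℂ) := by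
        unfold lc
        have : ((n : ℂ) ^ (2 : ℂ)) = (n : ℂ) ^ (2 : ℕ) := by
          rw [← cpow_natCast]
          norm_num
        rw [this]
        push_cast
        ring
      rw [e, ofReal_re]
  rw [h, ofReal_im]

theorem vert (t : ℝ) : ∫ u in (0 : ℝ)..t, (logDeriv riemannZeta ((2 : ℂ) + u * I)).re = (ell ⟨2, t⟩).im := by
  have e0 : ∀ u : ℝ, ((2 : ℂ) + u * I) = ⟨2, u⟩ := fun u => by apply Complex.ext <;> simp
  have hd : ∀ u : ℝ, HasDerivAt (fun u : ℝ => (ell ((2 : ℂ) + u * I)).im) ((logDeriv riemannZeta ((2 : ℂ) + u * I)).re) u := by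
    intro u
    have h1 := ell_deriv (s := (2 : ℂ) + u * I) (by simp)
    have h2 : HasDerivAt (fun u : ℝ => (2 : ℂ) + u * I) I u := by
      have h3 := ((hasDerivAt_id (u : ℝ)).ofReal_comp.mul_const I).const_add (2 : ℂ)
      simpa using h3
    have h3 := h1.comp u h2
    have h4 := (Complex.imCLM.hasFDerivAt.comp_hasDerivAt u h3)
    have e : (logDeriv riemannZeta ((2 : ℂ) + u * I)).re = Complex.imCLM (logDeriv riemannZeta ((2 : ℂ) + u * I) * I) := by
      simp
    rw [e]
    exact h4
  have hc : Continuous fun u : ℝ => (logDeriv riemannZeta ((2 : ℂ) + u * I)).re := by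
    refine continuous_re.comp ?_
    rw [continuous_iff_continuousAt]
    intro u
    have hne : ((2 : ℂ) + u * I) ≠ 1 := fun h => by
      have := congrArg Complex.re h
      norm_num at this
    have hz : riemannZeta ((2 : ℂ) + u * I) ≠ 0 := riemannZeta_ne_zero_of_one_le_re (by simp)
    have hl : Continuous fun u : ℝ => (2 : ℂ) + u * I := by fun_prop
    have h1 : ContinuousAt (logDeriv riemannZeta) ((2 : ℂ) + u * I) := by
      unfold logDeriv
      have ha : AnalyticAt ℂ riemannZeta ((2 : ℂ) + u * I) := by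
        refine DifferentiableOn.analyticAt (s := {1}ᶜ) (fun z hz => (differentiableAt_riemannZeta hz).differentiableWithinAt) ?_
        exact isOpen_compl_singleton.mem_nhds hne
      exact (ha.deriv.continuousAt).div ha.continuousAt hz
    exact ContinuousAt.comp (f := fun u : ℝ => (2 : ℂ) + u * I) h1 hl.continuousAt
  rw [intervalIntegral.integral_eq_sub_of_hasDerivAt (fun u _ => hd u) (hc.intervalIntegrable _ _)]
  simp only [e0]
  have : (⟨2, ((0 : ℝ))⟩ : ℂ) = 2 := by apply Complex.ext <;> simp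
  rw [this, ell_two, sub_zero]

theorem ld_cont {t x : ℝ} (ht : t ≠ 0) (hz : riemannZeta ((x : ℂ) + t * I) ≠ 0) :
    ContinuousAt (fun x : ℝ => (logDeriv riemannZeta ((x : ℂ) + t * I)).im) x := by
  refine continuous_im.continuousAt.comp ?_
  have hne : ((x : ℂ) + t * I) ≠ 1 := fun h => by
    have := congrArg Complex.im h
    simp at this
    exact ht this
  have hl : Continuous fun x : ℝ => (x : ℂ) + t * I := by fun_prop
  have h1 : ContinuousAt (logDeriv riemannZeta) ((x : ℂ) + t * I) := by
    unfold logDeriv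
    have ha : AnalyticAt ℂ riemannZeta ((x : ℂ) + t * I) := by
      refine DifferentiableOn.analyticAt (s := {1}ᶜ) (fun z hz => (differentiableAt_riemannZeta hz).differentiableWithinAt) ?_
      exact isOpen_compl_singleton.mem_nhds hne
    exact (ha.deriv.continuousAt).div ha.continuousAt hz
  exact ContinuousAt.comp (f := fun x : ℝ => (x : ℂ) + t * I) h1 hl.continuousAt

/-- the classical argument and the one used in the analysis agree -/
theorem piS_eq {t : ℝ} (ht : t ≠ 0) (h : ∀ x : ℝ, 1 / 2 ≤ x → x < 1 → riemannZeta ((x : ℂ) + t * I) ≠ 0) : piS t = aS t := by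
  have hne : ∀ x : ℝ, 1 / 2 ≤ x → riemannZeta ((x : ℂ) + t * I) ≠ 0 := by
    intro x hx
    by_cases h1 : x < 1
    · exact h x hx h1
    · exact riemannZeta_ne_zero_of_one_le_re (by simpa using not_lt.1 h1)
  have e0 : ∀ x : ℝ, ((x : ℂ) + t * I) = ⟨x, t⟩ := fun u => by apply Complex.ext <;> simp
  have hi1 : IntervalIntegrable (fun x : ℝ => (logDeriv riemannZeta ((x : ℂ) + t * I)).im) volume (1 / 2) (3 / 2) := by
    refine ContinuousOn.intervalIntegrable fun x hx => ?_
    rw [uIcc_of_le (by norm_num)] at hx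
    exact (ld_cont ht (hne x hx.1)).continuousWithinAt
  have hi2 : IntervalIntegrable (fun x : ℝ => (logDeriv riemannZeta ((x : ℂ) + t * I)).im) volume (3 / 2) 2 := by
    refine ContinuousOn.intervalIntegrable fun x hx => ?_
    rw [uIcc_of_le (by norm_num)] at hx
    exact (ld_cont ht (hne x (by linarith [hx.1]))).continuousWithinAt
  have hsec : ∫ x in (3 / 2 : ℝ)..2, (logDeriv riemannZeta ((x : ℂ) + t * I)).im = (ell ⟨2, t⟩).im - (ell ⟨3 / 2, t⟩).im := by
    have hd : ∀ x ∈ uIcc (3 / 2 : ℝ) 2, HasDerivAt (fun x : ℝ => (ell ((x : ℂ) + t * I)).im) ((logDeriv riemannZeta ((x : ℂ) + t * I)).im) x := by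
      intro x hx
      rw [uIcc_of_le (by norm_num)] at hx
      have h1 := ell_deriv (s := (x : ℂ) + t * I) (by simp; linarith [hx.1])
      have h2 : HasDerivAt (fun x : ℝ => (x : ℂ) + t * I) 1 x := by
        have h3 := ((hasDerivAt_id (x : ℝ)).ofReal_comp.add_const (t * I))
        simpa using h3
      have h3 := h1.comp x h2
      have h4 := (Complex.imCLM.hasFDerivAt.comp_hasDerivAt x h3)
      have e : (logDeriv riemannZeta ((x : ℂ) + t * I)).im = Complex.imCLM (logDeriv riemannZeta ((x : ℂ) + t * I) * 1) := by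
        simp
      rw [e]
      exact h4
    rw [intervalIntegral.integral_eq_sub_of_hasDerivAt hd hi2]
    simp only [e0]
  have hsp := intervalIntegral.integral_add_adjacent_intervals hi1 hi2
  unfold piS aS
  rw [vert, ← hsp, hsec]
  have e1 : ∫ x in (1 / 2 : ℝ)..(3 / 2), (logDeriv riemannZeta ((x : ℂ) + t * I)).im =
      ∫ x in (1 / 2 : ℝ)..(3 / 2), (deriv riemannZeta ⟨x, t⟩ / riemannZeta ⟨x, t⟩).im := by
    refine intervalIntegral.integral_congr fun x _ => ?_
    simp only [e0, logDeriv_apply]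
  rw [e1]
  ring

/-- almost every `t` is not the ordinate of a zero -/
theorem ae_not_ord : ∀ᵐ t : ℝ, t ≠ 0 ∧ ∀ x : ℝ, riemannZeta ((x : ℂ) + t * I) ≠ 0 := by
  have h1 : {z : ℂ | riemannZeta z = 0}.Countable := by
    have h2 : {z : ℂ | riemannZeta z = 0} ⊆ ⋃ n : ℕ, (Metric.closedBall (0 : ℂ) n ∩ riemannZetaZeros) := by
      intro z hz
      obtain ⟨n, hn⟩ := exists_nat_ge ‖z‖
      exact mem_iUnion.2 ⟨n, by simpa using hn, hz⟩
    refine Countable.mono h2 (countable_iUnion fun n => ?_)
    exact ((isCompact_closedBall (0 : ℂ) n).inter_riemannZetaZeros_finite).countable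
  have h2 : (Complex.im '' {z : ℂ | riemannZeta z = 0} ∪ {0}).Countable := (h1.image _).union (countable_singleton 0)
  filter_upwards [h2.ae_notMem (volume : Measure ℝ)] with t ht
  refine ⟨fun h => ht (Or.inr h), fun x hx => ht (Or.inl ⟨(x : ℂ) + t * I, hx, by simp⟩)⟩

theorem ae_piS : ∀ᵐ t : ℝ, piS t = aS t := by
  filter_upwards [ae_not_ord] with t ht
  exact piS_eq ht.1 fun x _ _ => ht.2 x

end

end Pool.Agent.U761.SZ
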