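import Pool.Agent.U761.SZ.ZC

set_option autoImplicit false

/-!
U761.SZ: the number of zeros between two heights and the argument, part 2.
-/

namespace Pool.Agent.U761.SZ

open Filter Topology MeasureTheory Complex Set

noncomputable section

theorem ldX_split {s : ℂ} (hs : 0 < s.re) (hi : s.im ≠ 0) (hz : riemannZeta s ≠ 0) :
    logDeriv XL s = logDeriv Gammaℝ s + logDeriv riemannZeta s := by
  have h1 : XL =ᶠ[𝓝 s] Gammaℝ * riemannZeta := by
    have : {z : ℂ | 0 < z.re} ∈ 𝓝 s := (isOpen_lt continuous_const continuous_re).mem_nhds hs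
    filter_upwards [this] with z hz
    exact XL_eq hz
  have h2 : logDeriv XL s = logDeriv (Gammaℝ * riemannZeta) s := by
    rw [logDeriv_apply, logDeriv_apply, h1.deriv_eq, h1.eq_of_nhds]
  rw [h2]
  exact logDeriv_mul s (Gammaℝ_ne_zero_of_re_pos hs) hz (GR_an hs).differentiableAt (zeta_an hi).differentiableAt

/-- the rectangle for the gamma factor -/
theorem gamma_rect {t u : ℝ} (htu : t < u) :
    (∫ y in t..u, (logDeriv Gammaℝ ⟨2, y⟩).re) + (∫ x in (1 / 2 : ℝ)..2, (logDeriv Gammaℝ ⟨x, t⟩).im) -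
      (∫ x in (1 / 2 : ℝ)..2, (logDeriv Gammaℝ ⟨x, u⟩).im) = ∫ y in t..u, (logDeriv Gammaℝ ⟨1 / 2, y⟩).re := by
  have hne : ∀ s ∈ Icc (1 / 2 : ℝ) 2 ×ℂ Icc t u, 0 < s.re := fun s hs => by
    have : (1 / 2 : ℝ) ≤ s.re := hs.1.1
    linarith
  obtain ⟨-, hr⟩ := H370.rect_residue Gammaℝ (fun _ => 1) (1 / 2) 2 t u (by norm_num) htu
    (fun s hs => GR_an (hne s hs)) (by fun_prop) (fun s hs h0 => absurd h0 (Gammaℝ_ne_zero_of_re_pos (hne s hs)))
  have hsum : (∑ᶠ s ∈ {s | s ∈ Ioo (1 / 2 : ℝ) 2 ×ℂ Ioo t u ∧ Gammaℝ s = 0}, (H370.mult Gammaℝ s : ℂ) * 1) = 0 := by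
    have e1 : {s | s ∈ Ioo (1 / 2 : ℝ) 2 ×ℂ Ioo t u ∧ Gammaℝ s = 0} = ∅ := by
      ext s
      constructor
      · rintro ⟨⟨hs1, hs2⟩, h0⟩
        rw [mem_preimage] at hs1
        exact absurd h0 (Gammaℝ_ne_zero_of_re_pos (by linarith [hs1.1]))
      · intro h
        exact absurd h (notMem_empty s)
    rw [e1, finsum_mem_empty]
  rw [hsum, mul_zero] at hr
  simp only [mul_one] at hr
  have e0 : ∀ x y : ℝ, deriv Gammaℝ ⟨x, y⟩ / Gammaℝ ⟨x, y⟩ = logDeriv Gammaℝ ⟨x, y⟩ := fun x y => rfl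
  simp only [e0] at hr
  have iH : ∀ y : ℝ, IntervalIntegrable (fun x : ℝ => logDeriv Gammaℝ ⟨x, y⟩) volume (1 / 2) 2 := by
    intro y
    refine ContinuousOn.intervalIntegrable fun x hx => ?_
    rw [uIcc_of_le (by norm_num)] at hx
    refine ContinuousAt.continuousWithinAt ?_
    exact ContinuousAt.comp (f := fun x : ℝ => (⟨x, y⟩ : ℂ)) (ldG_cont (by show 0 < x; linarith [hx.1])) (hline_cont y).continuousAt
  have iV : ∀ x : ℝ, 0 < x → IntervalIntegrable (fun y : ℝ => logDeriv Gammaℝ ⟨x, y⟩) volume t u := by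
    intro x hx
    refine Continuous.intervalIntegrable ?_ _ _
    rw [continuous_iff_continuousAt]
    intro y
    exact ContinuousAt.comp (f := fun y : ℝ => (⟨x, y⟩ : ℂ)) (ldG_cont hx) (vline_cont x).continuousAt
  have him : ∀ (f : ℝ → ℂ) (a b : ℝ), IntervalIntegrable f volume a b → (∫ x in a..b, f x).im = ∫ x in a..b, (f x).im := by
    intro f a b hf
    exact (Complex.imCLM.intervalIntegral_comp_comm hf).symm
  have hre : ∀ (f : ℝ → ℂ) (a b : ℝ), IntervalIntegrable f volume a b → (∫ x in a..b, f x).re = ∫ x in a..b, (f x).re := by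
    intro f a b hf
    exact (Complex.reCLM.intervalIntegral_comp_comm hf).symm
  have hI := congrArg Complex.im hr
  rw [sub_im, add_im, sub_im, Complex.I_mul_im, Complex.I_mul_im, him _ _ _ (iH t), him _ _ _ (iH u),
    hre _ _ _ (iV 2 (by norm_num)), hre _ _ _ (iV (1 / 2) (by norm_num)), zero_im] at hI
  linarith

/-- the exact formula for the number of zeros -/
theorem count2 {t u : ℝ} (ht : 0 < t) (htu : t < u) (h1 : NoOrd t) (h2 : NoOrd u) :
    Real.pi * (Nz t u : ℝ) = piS u - piS t + ∫ y in t..u, (logDeriv Gammaℝ ⟨1 / 2, y⟩).re := by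
  have hu : 0 < u := ht.trans htu
  rw [count1 ht htu h1 h2, ← gamma_rect htu]
  -- the vertical line
  have e1 : ∫ y in t..u, (logDeriv XL ⟨2, y⟩).re = (∫ y in t..u, (logDeriv Gammaℝ ⟨2, y⟩).re) +
      ∫ y in t..u, (logDeriv riemannZeta ⟨2, y⟩).re := by
    rw [← intervalIntegral.integral_add]
    · refine intervalIntegral.integral_congr fun y hy => ?_
      rw [uIcc_of_le htu.le] at hy
      have h3 := ldX_split (s := ⟨2, y⟩) (by show (0 : ℝ) < 2; norm_num) (ht.trans_le hy.1).ne' (riemannZeta_ne_zero_of_one_le_re (by show (1 : ℝ) ≤ 2; norm_num))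
      show (logDeriv XL ⟨2, y⟩).re = _
      rw [h3, add_re]
    · refine Continuous.intervalIntegrable ?_ _ _
      refine continuous_re.comp ?_
      rw [continuous_iff_continuousAt]
      intro y
      exact ContinuousAt.comp (f := fun y : ℝ => (⟨2, y⟩ : ℂ)) (ldG_cont (by show (0 : ℝ) < 2; norm_num)) (vline_cont 2).continuousAt
    · refine ContinuousOn.intervalIntegrable fun y hy => ?_
      rw [uIcc_of_le htu.le] at hy
      refine ContinuousAt.continuousWithinAt (continuous_re.continuousAt.comp ?_)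
      have h3 : ContinuousAt (logDeriv riemannZeta) ⟨2, y⟩ := by
        unfold logDeriv
        have ha := zeta_an (s := ⟨2, y⟩) (ht.trans_le hy.1).ne'
        exact (ha.deriv.continuousAt).div ha.continuousAt (riemannZeta_ne_zero_of_one_le_re (by show (1 : ℝ) ≤ 2; norm_num))
      exact ContinuousAt.comp (f := fun y : ℝ => (⟨2, y⟩ : ℂ)) h3 (vline_cont 2).continuousAt
  -- the horizontal lines
  have e2 : ∀ y : ℝ, 0 < y → NoOrd y → ∫ x in (1 / 2 : ℝ)..2, (logDeriv XL ⟨x, y⟩).im =
      (∫ x in (1 / 2 : ℝ)..2, (logDeriv Gammaℝ ⟨x, y⟩).im) + ∫ x in (1 / 2 : ℝ)..2, (logDeriv riemannZeta ⟨x, y⟩).im := by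
    intro y hy hN
    have hz : ∀ x : ℝ, riemannZeta ⟨x, y⟩ ≠ 0 := fun x => by rw [mk_eq']; exact hN x
    rw [← intervalIntegral.integral_add]
    · refine intervalIntegral.integral_congr fun x hx => ?_
      rw [uIcc_of_le (by norm_num)] at hx
      have h3 := ldX_split (s := ⟨x, y⟩) (by show 0 < x; linarith [hx.1]) hy.ne' (hz x)
      show (logDeriv XL ⟨x, y⟩).im = _
      rw [h3, add_im]
    · refine ContinuousOn.intervalIntegrable fun x hx => ?_
      rw [uIcc_of_le (by norm_num)] at hx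
      refine ContinuousAt.continuousWithinAt (continuous_im.continuousAt.comp ?_)
      exact ContinuousAt.comp (f := fun x : ℝ => (⟨x, y⟩ : ℂ)) (ldG_cont (by show 0 < x; linarith [hx.1])) (hline_cont y).continuousAt
    · refine ContinuousOn.intervalIntegrable fun x hx => ?_
      refine ContinuousAt.continuousWithinAt (continuous_im.continuousAt.comp ?_)
      have h3 : ContinuousAt (logDeriv riemannZeta) ⟨x, y⟩ := by
        unfold logDeriv
        have ha := zeta_an (s := ⟨x, y⟩) hy.ne'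
        exact (ha.deriv.continuousAt).div ha.continuousAt (hz x)
      exact ContinuousAt.comp (f := fun x : ℝ => (⟨x, y⟩ : ℂ)) h3 (hline_cont y).continuousAt
  have e3 : piS u - piS t = (∫ y in t..u, (logDeriv riemannZeta ⟨2, y⟩).re) + (∫ x in (1 / 2 : ℝ)..2, (logDeriv riemannZeta ⟨x, t⟩).im) -
      ∫ x in (1 / 2 : ℝ)..2, (logDeriv riemannZeta ⟨x, u⟩).im := by
    unfold piS
    simp only [mk_eq']
    have hc : Continuous fun v : ℝ => (logDeriv riemannZeta ((2 : ℂ) + v * I)).re := by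
      refine continuous_re.comp ?_
      rw [continuous_iff_continuousAt]
      intro v
      have hne : ((2 : ℂ) + v * I) ≠ 1 := fun h => by
        have := congrArg Complex.re h
        norm_num at this
      have hz : riemannZeta ((2 : ℂ) + v * I) ≠ 0 := riemannZeta_ne_zero_of_one_le_re (by simp)
      have hl : Continuous fun v : ℝ => (2 : ℂ) + v * I := by fun_prop
      have h1 : ContinuousAt (logDeriv riemannZeta) ((2 : ℂ) + v * I) := by
        unfold logDeriv
        have ha : AnalyticAt ℂ riemannZeta ((2 : ℂ) + v * I) := by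
          refine DifferentiableOn.analyticAt (s := {1}ᶜ) (fun z hz => (differentiableAt_riemannZeta hz).differentiableWithinAt) ?_
          exact isOpen_compl_singleton.mem_nhds hne
        exact (ha.deriv.continuousAt).div ha.continuousAt hz
      exact ContinuousAt.comp (f := fun v : ℝ => (2 : ℂ) + v * I) h1 hl.continuousAt
    have h3 := intervalIntegral.integral_add_adjacent_intervals (hc.intervalIntegrable (μ := volume) 0 t) (hc.intervalIntegrable (μ := volume) t u)
    have h4 : ((2 : ℝ) : ℂ) = 2 := by norm_num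
    rw [h4, ← h3]
    ring
  rw [e1, e2 t ht h1, e2 u hu h2, e3]
  ring

/-- the logarithmic derivative of the gamma factor -/
theorem ldG_eq {s : ℂ} (hs : 0 < s.re) : logDeriv Gammaℝ s = -(Real.log Real.pi : ℂ) / 2 + logDeriv Gamma (s / 2) / 2 := by
  have hs2 : 0 < (s / 2).re := by
    have : (s / 2).re = s.re / 2 := by simp
    rw [this]
    linarith
  have hd : DifferentiableAt ℂ Gamma (s / 2) := by
    refine Complex.differentiableAt_Gamma _ fun m h => ?_
    have := congrArg Complex.re h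
    simp at this
    have h0 : (0 : ℝ) ≤ m := Nat.cast_nonneg m
    linarith
  have h1 : HasDerivAt (fun z : ℂ => Gamma (z / 2)) (deriv Gamma (s / 2) * (1 / 2)) s := by
    have h2 : HasDerivAt (fun z : ℂ => z / 2) (1 / 2) s := (hasDerivAt_id s).div_const 2
    exact hd.hasDerivAt.comp s h2
  have hpi : (Real.pi : ℂ) ≠ 0 := by exact_mod_cast Real.pi_ne_zero
  have h3 : HasDerivAt (fun z : ℂ => (Real.pi : ℂ) ^ (-z / 2)) ((Real.pi : ℂ) ^ (-s / 2) * Complex.log Real.pi * (-1 / 2)) s := by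
    have h4 : HasDerivAt (fun z : ℂ => -z / 2) (-1 / 2) s := ((hasDerivAt_id s).neg).div_const 2
    exact h4.const_cpow (Or.inl hpi)
  have h5 := h3.mul h1
  have e1 : deriv Gammaℝ s = (Real.pi : ℂ) ^ (-s / 2) * Complex.log Real.pi * (-1 / 2) * Gamma (s / 2) +
      (Real.pi : ℂ) ^ (-s / 2) * (deriv Gamma (s / 2) * (1 / 2)) := h5.deriv
  have hG : Gamma (s / 2) ≠ 0 := Complex.Gamma_ne_zero_of_re_pos hs2
  have hp : (Real.pi : ℂ) ^ (-s / 2) ≠ 0 := by
    rw [Ne, cpow_eq_zero_iff]
    exact fun h => hpi h.1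
  rw [logDeriv_apply, logDeriv_apply, e1, Gammaℝ_def, ← Complex.ofReal_log Real.pi_pos.le]
  field_simp

/-- **the number of zeros between two heights** -/
theorem zcount : ∃ C : ℝ, 0 < C ∧ ∀ t u : ℝ, 10 ≤ t → t < u → u ≤ t + 1 → NoOrd t → NoOrd u →
    |Real.pi * (Nz t u : ℝ) - (u - t) / 2 * Real.log t - (piS u - piS t)| ≤ C * (u - t) := by
  obtain ⟨C, hC⟩ := H370.digamma_bound
  refine ⟨|Real.log Real.pi| / 2 + (|C| + Real.log 2 + 1) / 2, by
    have := Real.log_pos one_lt_two
    positivity, fun t u ht htu hu h1 h2 => ?_⟩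
  have ht0 : 0 < t := by linarith
  rw [count2 ht0 htu h1 h2]
  have hc : Continuous fun y : ℝ => (logDeriv Gammaℝ ⟨1 / 2, y⟩).re := by
    refine continuous_re.comp ?_
    rw [continuous_iff_continuousAt]
    intro y
    exact ContinuousAt.comp (f := fun y : ℝ => (⟨1 / 2, y⟩ : ℂ)) (ldG_cont (by show (0 : ℝ) < 1 / 2; norm_num)) (vline_cont (1 / 2)).continuousAt
  have hconst : ∫ _ in t..u, Real.log t / 2 = (u - t) / 2 * Real.log t := by
    rw [intervalIntegral.integral_const, smul_eq_mul]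
    ring
  have e : piS u - piS t + (∫ y in t..u, (logDeriv Gammaℝ ⟨1 / 2, y⟩).re) - (u - t) / 2 * Real.log t - (piS u - piS t) =
      ∫ y in t..u, ((logDeriv Gammaℝ ⟨1 / 2, y⟩).re - Real.log t / 2) := by
    rw [intervalIntegral.integral_sub (hc.intervalIntegrable _ _) intervalIntegrable_const, hconst]
    ring
  rw [e]
  have hb : ∀ y ∈ Set.uIoc t u, ‖(logDeriv Gammaℝ ⟨1 / 2, y⟩).re - Real.log t / 2‖ ≤ |Real.log Real.pi| / 2 + (|C| + Real.log 2 + 1) / 2 := by
    intro y hy
    rw [Set.uIoc_of_le htu.le] at hy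
    have hy0 : 0 < y := by linarith [hy.1]
    rw [ldG_eq (by show (0 : ℝ) < 1 / 2; norm_num)]
    have hre : ((⟨1 / 2, y⟩ : ℂ) / 2).re = 1 / 4 := by
      have : ((⟨1 / 2, y⟩ : ℂ) / 2).re = (1 / 2 : ℝ) / 2 := by simp
      rw [this]
      norm_num
    have him : ((⟨1 / 2, y⟩ : ℂ) / 2).im = y / 2 := by simp
    have h3 := hC ((⟨1 / 2, y⟩ : ℂ) / 2) (by rw [hre]) (by rw [hre]; norm_num) (by
      rw [him, abs_of_pos (by linarith)]
      linarith [hy.1])
    rw [him, abs_of_pos (by linarith : 0 < y / 2)] at h3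
    have h4 := (Complex.abs_re_le_norm _).trans h3
    rw [sub_re, ofReal_re] at h4
    set g := (logDeriv Gamma ((⟨1 / 2, y⟩ : ℂ) / 2)) with hg
    have h5 : (-(Real.log Real.pi : ℂ) / 2 + g / 2).re = -Real.log Real.pi / 2 + g.re / 2 := by
      have e1 : (-(Real.log Real.pi : ℂ) / 2 + g / 2) = ((-Real.log Real.pi / 2 : ℝ) : ℂ) + g / 2 := by
        push_cast
        ring
      rw [e1, add_re, ofReal_re]
      congr 1
      simp
    rw [h5, Real.norm_eq_abs]
    have h6 : Real.log (y / 2) = Real.log y - Real.log 2 := Real.log_div hy0.ne' two_ne_zero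
    have h7 : |Real.log y - Real.log t| ≤ 1 := by
      rw [abs_of_nonneg (by linarith [Real.log_le_log ht0 hy.1.le]), ← Real.log_div hy0.ne' ht0.ne']
      refine (Real.log_le_sub_one_of_pos (by positivity)).trans ?_
      rw [div_sub_one ht0.ne', div_le_one ht0]
      linarith [hy.2]
    have h8 : -Real.log Real.pi / 2 + g.re / 2 - Real.log t / 2 = -Real.log Real.pi / 2 +
        ((g.re - Real.log (y / 2)) + (-Real.log 2) + (Real.log y - Real.log t)) / 2 := by
      rw [h6]
      ring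
    rw [h8]
    have hl2 := Real.log_pos one_lt_two
    have a1 : |-Real.log Real.pi / 2| = |Real.log Real.pi| / 2 := by
      rw [abs_div, abs_neg, abs_two]
    have a2 : |((g.re - Real.log (y / 2)) + (-Real.log 2) + (Real.log y - Real.log t)) / 2| ≤ (|C| + Real.log 2 + 1) / 2 := by
      rw [abs_div, abs_two]
      refine div_le_div_of_nonneg_right ?_ (by norm_num)
      refine (abs_add_le _ _).trans (add_le_add ((abs_add_le _ _).trans (add_le_add (h4.trans (le_abs_self C)) ?_)) h7)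
      rw [abs_neg, abs_of_pos hl2]
    refine (abs_add_le _ _).trans ?_
    rw [a1]
    linarith
  have h3 := intervalIntegral.norm_integral_le_of_norm_le_const hb
  rw [Real.norm_eq_abs, abs_of_pos (by linarith : 0 < u - t)] at h3
  exact h3

end

end Pool.Agent.U761.SZ
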