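import Mathlib
import Pool.Agent.Erdos456.Mertens

/-!
U761.SZ: the choice of the primes of the resonator.
-/

set_option autoImplicit false

namespace Pool.Agent.U761.SZ

open Finset Filter Topology

/-- the primes in `(y, X]` -/
def Pr (y X : ℕ) : Finset ℕ := (Icc 1 X).filter (fun p => p.Prime ∧ y < p)

theorem Pr_sum_ge (y X : ℕ) : ∑ p ∈ (Icc 1 X).filter Nat.Prime, (1 : ℝ) / p - ∑ p ∈ (Icc 1 y).filter Nat.Prime, (1 : ℝ) / p ≤
    ∑ p ∈ Pr y X, (1 : ℝ) / p := by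
  have h1 : (Icc 1 X).filter Nat.Prime ⊆ Pr y X ∪ (Icc 1 y).filter Nat.Prime := by
    intro p hp
    simp only [Pr, mem_filter, mem_union, mem_Icc] at hp ⊢
    obtain ⟨⟨h2, h3⟩, h4⟩ := hp
    rcases lt_or_ge y p with h | h
    · exact Or.inl ⟨⟨h2, h3⟩, h4, h⟩
    · exact Or.inr ⟨⟨h2, h⟩, h4⟩
  have h2 := Finset.sum_le_sum_of_subset_of_nonneg h1 (f := fun p : ℕ => (1 : ℝ) / p) fun p _ _ => by positivity
  have h3 := Finset.sum_union_inter (s₁ := Pr y X) (s₂ := (Icc 1 y).filter Nat.Prime) (f := fun p : ℕ => (1 : ℝ) / p)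
  have h4 : 0 ≤ ∑ p ∈ Pr y X ∩ (Icc 1 y).filter Nat.Prime, (1 : ℝ) / p := Finset.sum_nonneg fun p _ => by positivity
  linarith

theorem tail_sq (y M : ℕ) (hy : 1 ≤ y) : ∑ n ∈ Icc (y + 1) M, (1 : ℝ) / (n : ℝ) ^ 2 ≤ 1 / y := by
  have key : ∀ M : ℕ, y ≤ M → ∑ n ∈ Icc (y + 1) M, (1 : ℝ) / (n : ℝ) ^ 2 ≤ 1 / y - 1 / M := by
    intro M hM
    induction M, hM using Nat.le_induction with
    | base => simp
    | succ M hM ih =>
      rw [Finset.sum_Icc_succ_top (by omega)]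
      have h0 : (0 : ℝ) < M := by exact_mod_cast (by omega : 0 < M)
      have h1 : (1 : ℝ) / ((M + 1 : ℕ) : ℝ) ^ 2 ≤ 1 / M - 1 / ((M + 1 : ℕ) : ℝ) := by
        push_cast
        rw [div_sub_div _ _ h0.ne' (by positivity), div_le_div_iff₀ (by positivity) (by positivity)]
        nlinarith
      linarith
  rcases le_or_gt y M with h | h
  · have := key M h
    have h2 : (0 : ℝ) ≤ 1 / M := by positivity
    linarith
  · rw [Finset.Icc_eq_empty (by omega), Finset.sum_empty]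
    positivity

theorem Pr_sq (y X : ℕ) (hy : 1 ≤ y) : ∑ p ∈ Pr y X, (1 : ℝ) / (p : ℝ) ^ 2 ≤ 1 / y := by
  refine le_trans (Finset.sum_le_sum_of_subset_of_nonneg ?_ fun p _ _ => by positivity) (tail_sq y X hy)
  intro p hp
  simp only [Pr, mem_filter, mem_Icc] at hp ⊢
  omega

theorem nl1 {W l q : ℝ} (hW : 1 ≤ W) (hl : 3 ≤ l) (hq : 3 ≤ q) : W ≤ W * l * q := by
  have h1 : 1 ≤ l * q := by nlinarith
  rw [mul_assoc]
  exact le_mul_of_one_le_right (by linarith) h1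

theorem pset (θ : ℝ) (hθ : 0 < θ) (hθ1 : θ ≤ 1) : ∃ c₀ : ℝ, 0 < c₀ ∧ ∀ᶠ L : ℝ in atTop, ∀ V : ℝ, 1 ≤ V →
    V ≤ c₀ * Real.sqrt (L / Real.log L) → ∃ (P : Finset ℕ) (K N : ℕ) (μ : ℝ), (∀ p ∈ P, p.Prime) ∧ 0 < μ ∧
      V = μ * ∑ p ∈ P, (1 : ℝ) / p ∧ 10 * (μ * V) ≤ K ∧ 1 ≤ K ∧ (∀ p ∈ P, μ ^ 2 ≤ (p : ℝ)) ∧
      ∑ p ∈ P, (μ ^ 2 / (p : ℝ)) ^ 2 ≤ μ ∧ (∀ S ∈ P.powerset, S.card ≤ K → ∏ p ∈ S, p ≤ N) ∧ 1 ≤ N ∧
      (N : ℝ) ≤ Real.exp (θ * L) ∧ (∀ p ∈ P, (p : ℝ) ≤ Real.exp (θ * L)) ∧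
      4 * μ ^ 2 * ∑ p ∈ P, (1 : ℝ) / p ≤ 16 * (V ^ 2 / Real.log (2 + L / ((1 + V ^ 2) * Real.log L))) := by
  obtain ⟨C₀, hC₀⟩ := Pool.Agent.Erdos456.Mert.mertens_inv
  obtain ⟨C₃, hC₃, hM⟩ : ∃ C₃ : ℝ, 0 ≤ C₃ ∧ ∀ N : ℕ, 3 ≤ N →
      |∑ p ∈ (Icc 1 N).filter Nat.Prime, (1 : ℝ) / p - Real.log (Real.log N)| ≤ C₃ :=
    ⟨|C₀|, abs_nonneg _, fun N hN => (hC₀ N hN).trans (le_abs_self _)⟩
  obtain ⟨B, hB⟩ : ∃ B : ℝ, B = Real.log (120 / θ) := ⟨_, rfl⟩
  have hB0 : 0 ≤ B := by rw [hB]; exact Real.log_nonneg (by rw [le_div_iff₀ hθ]; linarith)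
  obtain ⟨q₀, hq₀⟩ : ∃ q₀ : ℝ, q₀ = Real.exp (2 * (B + 2 * C₃) + 2) := ⟨_, rfl⟩
  have hq₀0 : 0 < q₀ := by rw [hq₀]; exact Real.exp_pos _
  have hq₀3 : 3 ≤ q₀ := by
    have := Real.add_one_le_exp (2 * (B + 2 * C₃) + 2)
    rw [hq₀]
    linarith
  have hq₀θ : 120 / θ ≤ q₀ := by
    have h1 : Real.exp B = 120 / θ := by rw [hB]; exact Real.exp_log (by positivity)
    rw [← h1, hq₀]
    exact Real.exp_le_exp.2 (by linarith)
  obtain ⟨c₀, hc₀⟩ : ∃ c₀ : ℝ, c₀ = 1 / Real.sqrt (2 * q₀) := ⟨_, rfl⟩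
  have hc₀0 : 0 < c₀ := by rw [hc₀]; positivity
  have hc₀2 : c₀ ^ 2 = 1 / (2 * q₀) := by
    rw [hc₀, div_pow, Real.sq_sqrt (by positivity), one_pow]
  refine ⟨c₀, hc₀0, ?_⟩
  have hT : Tendsto (fun L : ℝ => L / Real.log L) atTop atTop := by
    have h1 : Tendsto (fun L : ℝ => Real.log L / L) atTop (𝓝[>] 0) := by
      refine tendsto_nhdsWithin_iff.2 ⟨?_, ?_⟩
      · have := Real.isLittleO_log_id_atTop
        exact this.tendsto_div_nhds_zero
      · filter_upwards [eventually_gt_atTop 1] with L hL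
        exact div_pos (Real.log_pos hL) (by linarith)
    refine (tendsto_inv_nhdsGT_zero.comp h1).congr fun L => ?_
    simp
  filter_upwards [hT.eventually_ge_atTop (1 / c₀ ^ 2), Real.tendsto_log_atTop.eventually_ge_atTop 3,
    eventually_ge_atTop 17] with L hL1 hl3 hL17 V hV1 hV
  obtain ⟨l, hl⟩ : ∃ l : ℝ, l = Real.log L := ⟨_, rfl⟩
  rw [← hl] at hL1 hl3 hV ⊢
  have hL0 : 0 < L := by linarith
  have hl0 : 0 < l := by linarith
  have hlog17 : Real.log 17 ≤ l := by rw [hl]; exact Real.log_le_log (by norm_num) hL17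
  obtain ⟨W, hW⟩ : ∃ W : ℝ, W = 1 + V ^ 2 := ⟨_, rfl⟩
  have hW1 : 1 ≤ W := by rw [hW]; have := sq_nonneg V; linarith
  have hVW : V ^ 2 ≤ W := by rw [hW]; linarith
  have hV2 : V ^ 2 ≤ c₀ ^ 2 * (L / l) := by
    have := pow_le_pow_left₀ (by linarith) hV 2
    rwa [mul_pow, Real.sq_sqrt (by positivity)] at this
  have h1c : 1 ≤ c₀ ^ 2 * (L / l) := by
    rw [div_le_iff₀ (by positivity)] at hL1
    linarith
  have hWc : W ≤ 2 * (c₀ ^ 2 * (L / l)) := by rw [hW]; linarith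
  have hWq : W * l * q₀ ≤ L := by
    have h1 : 2 * (c₀ ^ 2 * (L / l)) = L / (l * q₀) := by
      rw [hc₀2]
      field_simp
    rw [h1, le_div_iff₀ (by positivity)] at hWc
    linarith
  have hWL : W ≤ L := by
    have h1 : W ≤ W * l * q₀ := nl1 hW1 hl3 hq₀3
    linarith
  obtain ⟨q, hq⟩ : ∃ q : ℝ, q = L / (W * l) := ⟨_, rfl⟩
  have hqq : q₀ ≤ q := by
    rw [hq, le_div_iff₀ (by positivity)]
    linarith
  have hq3 : 3 ≤ q := hq₀3.trans hqq
  have hq0 : 0 < q := by linarith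
  have hlogq : 2 * (B + 2 * C₃) + 2 ≤ Real.log q := by
    have := Real.log_le_log hq₀0 hqq
    rwa [hq₀, Real.log_exp] at this
  -- the parameters
  obtain ⟨y, hy⟩ : ∃ y : ℕ, y = ⌈16 * W ^ 2⌉₊ := ⟨_, rfl⟩
  have hy1 : 16 * W ^ 2 ≤ y := by rw [hy]; exact Nat.le_ceil _
  have hy2 : (y : ℝ) ≤ 17 * W ^ 2 := by
    rw [hy]
    have h1 := (Nat.ceil_lt_add_one (by positivity : (0 : ℝ) ≤ 16 * W ^ 2)).le
    have h2 : 1 ≤ W ^ 2 := one_le_pow₀ hW1
    linarith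
  have hy16 : (16 : ℝ) ≤ y := by
    have h2 : 1 ≤ W ^ 2 := one_le_pow₀ hW1
    linarith
  have hy3 : 3 ≤ y := by
    have : (3 : ℝ) ≤ y := by linarith
    exact_mod_cast this
  obtain ⟨E, hE⟩ : ∃ E : ℝ, E = Real.exp (θ * L / (20 * W)) := ⟨_, rfl⟩
  have hE0 : 0 < E := by rw [hE]; exact Real.exp_pos _
  obtain ⟨X, hX⟩ : ∃ X : ℕ, X = ⌊E⌋₊ := ⟨_, rfl⟩
  have hXE : (X : ℝ) ≤ E := by rw [hX]; exact Nat.floor_le hE0.le
  have hθq : 120 ≤ θ * q := by
    have : 120 / θ ≤ q := hq₀θ.trans hqq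
    rw [div_le_iff₀ hθ] at this
    linarith
  have he1 : θ * L / (20 * W) = θ * q * l / 20 := by
    rw [hq]
    field_simp
  have he2 : 6 * l ≤ θ * L / (20 * W) := by
    rw [he1]
    have h1 : 120 * l ≤ θ * q * l := mul_le_mul_of_nonneg_right hθq hl0.le
    linarith
  have hE4 : 4 ≤ E := by
    have := Real.add_one_le_exp (θ * L / (20 * W))
    rw [← hE] at this
    linarith
  have hEs : Real.exp (θ * L / (40 * W)) ≤ X := by
    have h1 : E = Real.exp (θ * L / (40 * W)) ^ 2 := by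
      rw [hE, sq, ← Real.exp_add]
      congr 1
      field_simp
      ring
    have h2 := Nat.lt_floor_add_one E
    rw [← hX] at h2
    have h3 : 2 ≤ Real.exp (θ * L / (40 * W)) := by
      have h4 := Real.add_one_le_exp (θ * L / (40 * W))
      have h5 : θ * L / (40 * W) = θ * L / (20 * W) / 2 := by field_simp; ring
      rw [h5] at h4 ⊢
      linarith
    rw [h1] at h2
    have h4 : 2 * Real.exp (θ * L / (40 * W)) ≤ Real.exp (θ * L / (40 * W)) ^ 2 := by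
      rw [sq]
      exact mul_le_mul_of_nonneg_right h3 (Real.exp_pos _).le
    linarith
  have hX3 : 3 ≤ X := by
    have h4 := Real.add_one_le_exp (θ * L / (40 * W))
    have h5 : θ * L / (40 * W) = θ * L / (20 * W) / 2 := by field_simp; ring
    have : (3 : ℝ) ≤ X := by
      refine le_trans ?_ hEs
      rw [h5] at h4 ⊢
      linarith
    exact_mod_cast this
  have hX0 : (0 : ℝ) < X := by exact_mod_cast (by omega : 0 < X)
  have hlX : θ * L / (40 * W) ≤ Real.log X := by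
    rw [Real.le_log_iff_exp_le hX0]
    exact hEs
  have hly : Real.log y ≤ 3 * l := by
    have h1 : Real.log y ≤ Real.log (17 * W ^ 2) := Real.log_le_log (by linarith) hy2
    rw [Real.log_mul (by norm_num) (by positivity), Real.log_pow] at h1
    have h2 : Real.log W ≤ l := by rw [hl]; exact Real.log_le_log (by linarith) hWL
    push_cast at h1
    linarith
  have hly0 : 0 < Real.log y := Real.log_pos (by linarith)
  obtain ⟨P, hPd⟩ : ∃ P : Finset ℕ, P = Pr y X := ⟨_, rfl⟩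
  obtain ⟨S, hS⟩ : ∃ S : ℝ, S = ∑ p ∈ P, (1 : ℝ) / p := ⟨_, rfl⟩
  have hSge : Real.log q / 2 ≤ S := by
    have h1 := Pr_sum_ge y X
    rw [← hPd, ← hS] at h1
    have h2 := (abs_le.1 (hM X hX3)).1
    have h3 := (abs_le.1 (hM y hy3)).2
    have h4 : Real.log (θ * L / (40 * W)) ≤ Real.log (Real.log X) := Real.log_le_log (by positivity) hlX
    have h5 : Real.log (Real.log y) ≤ Real.log (3 * l) := Real.log_le_log hly0 hly
    have h6 : Real.log (θ * L / (40 * W)) - Real.log (3 * l) = Real.log q - B := by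
      rw [hB, ← Real.log_div (by positivity) (by positivity), ← Real.log_div (by positivity) (by positivity), hq]
      congr 1
      field_simp
      norm_num
    linarith
  have hS1 : 1 ≤ S := by linarith
  have hS0 : 0 < S := by linarith
  have hS4 : Real.log (2 + q) / 4 ≤ S := by
    have h0 : 3 * q ≤ q ^ 2 := by
      rw [sq]
      exact mul_le_mul_of_nonneg_right hq3 hq0.le
    have h1 : Real.log (2 + q) ≤ Real.log (q ^ 2) := Real.log_le_log (by linarith) (by linarith)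
    rw [Real.log_pow] at h1
    push_cast at h1
    linarith
  obtain ⟨μ, hμ⟩ : ∃ μ : ℝ, μ = V / S := ⟨_, rfl⟩
  have hμ0 : 0 < μ := by rw [hμ]; positivity
  have hμS : μ * S = V := by rw [hμ]; field_simp
  have hμV : μ ≤ V := by
    rw [hμ, div_le_iff₀ hS0]
    exact le_mul_of_one_le_right (by linarith) hS1
  have hPp : ∀ p ∈ P, p.Prime ∧ y < p ∧ p ≤ X := by
    intro p hp
    simp only [hPd, Pr, mem_filter, mem_Icc] at hp
    exact ⟨hp.2.1, hp.2.2, hp.1.2⟩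
  have hPy : ∀ p ∈ P, 16 * W ^ 2 ≤ (p : ℝ) := by
    intro p hp
    have : (y : ℝ) < p := by exact_mod_cast (hPp p hp).2.1
    linarith
  have hμV2 : μ * V ≤ V ^ 2 := by
    rw [sq]
    exact mul_le_mul_of_nonneg_right hμV (by linarith)
  obtain ⟨K, hK⟩ : ∃ K : ℕ, K = ⌈10 * (μ * V)⌉₊ + 1 := ⟨_, rfl⟩
  have hK1 : 10 * (μ * V) ≤ (K : ℝ) := by
    have := Nat.le_ceil (10 * (μ * V))
    rw [hK]
    push_cast
    linarith
  have hK2 : (K : ℝ) ≤ 20 * W := by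
    have h1 : 0 ≤ 10 * (μ * V) := by positivity
    have := (Nat.ceil_lt_add_one h1).le
    rw [hK, hW]
    push_cast
    have h2 := sq_nonneg V
    linarith
  have hXL : (X : ℝ) ≤ Real.exp (θ * L) := by
    refine hXE.trans ?_
    rw [hE]
    refine Real.exp_le_exp.2 ?_
    rw [div_le_iff₀ (by positivity)]
    have : θ * L * 1 ≤ θ * L * (20 * W) := mul_le_mul_of_nonneg_left (by linarith) (by positivity)
    linarith
  refine ⟨P, K, X ^ K, μ, fun p hp => (hPp p hp).1, hμ0, ?_, hK1, by omega, ?_, ?_, ?_, ?_, ?_, ?_, ?_⟩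
  · rw [← hS, hμS]
  · intro p hp
    have h1 := hPy p hp
    have h2 : μ ^ 2 ≤ V ^ 2 := pow_le_pow_left₀ hμ0.le hμV 2
    have h3 : W * 1 ≤ W * W := mul_le_mul_of_nonneg_left hW1 (by linarith)
    have h4 : W ^ 2 = W * W := sq W
    have h5 : 0 ≤ W ^ 2 := sq_nonneg W
    linarith
  · have h1 : ∑ p ∈ P, (μ ^ 2 / (p : ℝ)) ^ 2 = μ ^ 4 * ∑ p ∈ P, (1 : ℝ) / (p : ℝ) ^ 2 := by
      rw [mul_sum]
      exact sum_congr rfl fun p _ => by ring
    rw [h1]
    have h2 := Pr_sq y X (by omega)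
    rw [← hPd] at h2
    have h3 : (1 : ℝ) / y ≤ 1 / (16 * W ^ 2) := one_div_le_one_div_of_le (by positivity) hy1
    have h4 : μ ^ 3 ≤ V ^ 3 := pow_le_pow_left₀ hμ0.le hμV 3
    have h5 : V ^ 3 ≤ V ^ 4 := pow_le_pow_right₀ hV1 (by norm_num)
    have h6 : V ^ 4 ≤ W ^ 2 := by
      have h7 := pow_le_pow_left₀ (sq_nonneg V) hVW 2
      rw [← pow_mul] at h7
      exact h7
    calc μ ^ 4 * ∑ p ∈ P, (1 : ℝ) / (p : ℝ) ^ 2 ≤ μ ^ 4 * (1 / (16 * W ^ 2)) :=
          mul_le_mul_of_nonneg_left (h2.trans h3) (by positivity)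
      _ = μ * (μ ^ 3 / (16 * W ^ 2)) := by ring
      _ ≤ μ * 1 := by
          refine mul_le_mul_of_nonneg_left ?_ hμ0.le
          rw [div_le_one (by positivity)]
          have h8 := sq_nonneg W
          linarith
      _ = μ := mul_one _
  · intro T hT hc
    have hTP := mem_powerset.1 hT
    calc ∏ p ∈ T, p ≤ X ^ T.card := Finset.prod_le_pow_card _ _ _ fun p hp => (hPp p (hTP hp)).2.2
      _ ≤ X ^ K := Nat.pow_le_pow_right (by omega) hc
  · exact Nat.one_le_pow _ _ (by omega)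
  · push_cast
    calc (X : ℝ) ^ K ≤ E ^ K := pow_le_pow_left₀ hX0.le hXE K
      _ = Real.exp (K * (θ * L / (20 * W))) := by rw [hE, ← Real.exp_nat_mul]
      _ ≤ Real.exp (θ * L) := by
          refine Real.exp_le_exp.2 ?_
          rw [mul_div_assoc', div_le_iff₀ (by positivity)]
          have h8 : 0 ≤ θ * L := by positivity
          have h9 := mul_le_mul_of_nonneg_right hK2 h8
          linarith
  · intro p hp
    refine le_trans ?_ hXL
    exact_mod_cast (hPp p hp).2.2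
  · rw [← hS]
    have h1 : 4 * μ ^ 2 * S = 4 * V ^ 2 / S := by
      rw [hμ]
      field_simp
    rw [h1, ← hW, ← hq, mul_div_assoc']
    have h2 : 0 < Real.log (2 + q) := Real.log_pos (by linarith)
    rw [div_le_div_iff₀ hS0 h2]
    have h3 : 0 ≤ V ^ 2 := sq_nonneg V
    have h4 : V ^ 2 * Real.log (2 + q) ≤ V ^ 2 * (4 * S) := mul_le_mul_of_nonneg_left (by linarith) h3
    linarith

end Pool.Agent.U761.SZ
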