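import Pool.Agent.Q241.UM.RESd

/-!
U761.SZ: resonators of arbitrary strength and arbitrary phase (extends Q241/UM/RESd.lean).
-/

set_option autoImplicit false

namespace Pool.Agent.U761.SZ

open Finset
open Pool.Agent.Q241.UM
open Pool.Agent.Q97.UM (N2 cv prc)

/-- the pointwise bound for the main part, any positive strength -/
theorem main_pt2 {P : Finset ℕ} (hP : ∀ p ∈ P, p.Prime) {K X : ℕ} {μ a : ℝ}
    (hμ0 : 0 < μ) (ha0 : 0 ≤ a) (ha : 10 * (μ * a) ≤ K) (hX : ∀ p ∈ P, p ≤ X) (n : ℕ) :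
    ‖f1 P X (rs P K μ) n - a * rs P K μ n‖ ^ 2 / n ≤ gg P μ a n := by
  unfold gg
  by_cases hn : Sq P n
  · rw [if_pos hn, f1_sq hP hX hn]
    have key : ‖(om n : ℂ) * (if om n ≤ K + 1 then ((μ ^ (om n - 1) : ℝ) : ℂ) else 0) -
        a * rs P K μ n‖ ^ 2 ≤ 2 * (μ ^ (2 * om n) * ((om n : ℝ) / μ - a) ^ 2) := by
      rcases lt_trichotomy (om n) (K + 1) with h | h | h
      · -- at most `K` prime factors
        rw [if_pos h.le]
        unfold rs
        rw [if_pos ⟨hn, by omega⟩]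
        have e1 : (om n : ℂ) * ((μ ^ (om n - 1) : ℝ) : ℂ) - a * ((μ ^ om n : ℝ) : ℂ) =
            (((om n : ℝ) * μ ^ (om n - 1) - a * μ ^ om n : ℝ) : ℂ) := by
          push_cast
          ring
        rw [e1, Complex.norm_real, Real.norm_eq_abs, sq_abs]
        have e2 : ((om n : ℝ) * μ ^ (om n - 1) - a * μ ^ om n) ^ 2 =
            μ ^ (2 * om n) * ((om n : ℝ) / μ - a) ^ 2 := by
          rcases Nat.eq_zero_or_pos (om n) with h0 | h0
          · rw [h0]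
            simp only [Nat.cast_zero, zero_mul, zero_sub, mul_zero, pow_zero, zero_div, mul_one, one_mul,
              neg_sq]
          · obtain ⟨k, hk⟩ := Nat.exists_eq_add_of_le' h0
            rw [hk, Nat.add_sub_cancel]
            have e3 : ((k + 1 : ℕ) : ℝ) * μ ^ k - a * μ ^ (k + 1) =
                μ ^ k * (((k + 1 : ℕ) : ℝ) - μ * a) := by ring
            rw [e3, mul_pow]
            have e4 : μ ^ (2 * (k + 1)) = (μ ^ k) ^ 2 * μ ^ 2 := by ring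
            rw [e4, mul_assoc]
            congr 1
            rw [← mul_pow]
            congr 1
            field_simp
        rw [e2]
        have : 0 ≤ μ ^ (2 * om n) * ((om n : ℝ) / μ - a) ^ 2 := by positivity
        linarith
      · -- exactly `K + 1` prime factors
        rw [if_pos h.le]
        unfold rs
        rw [if_neg fun h' => by omega, mul_zero, sub_zero, h, Nat.add_sub_cancel, norm_mul, mul_pow,
          Complex.norm_real, Real.norm_eq_abs, sq_abs]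
        have e0 : ‖((K + 1 : ℕ) : ℂ)‖ = ((K + 1 : ℕ) : ℝ) := Complex.norm_natCast _
        rw [e0]
        have e5 : μ ^ (2 * (K + 1)) * (((K + 1 : ℕ) : ℝ) / μ - a) ^ 2 =
            (μ ^ K) ^ 2 * (((K + 1 : ℕ) : ℝ) - μ * a) ^ 2 := by
          have e4 : μ ^ (2 * (K + 1)) = (μ ^ K) ^ 2 * μ ^ 2 := by ring
          rw [e4, mul_assoc]
          congr 1
          rw [← mul_pow]
          congr 1
          field_simp
        rw [e5]
        have hK1 : 10 * (μ * a) ≤ ((K + 1 : ℕ) : ℝ) := by push_cast; linarith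
        have hma : 0 ≤ μ * a := mul_nonneg hμ0.le ha0
        have e6 : ((K + 1 : ℕ) : ℝ) ^ 2 ≤ 2 * (((K + 1 : ℕ) : ℝ) - μ * a) ^ 2 := by
          generalize ((K + 1 : ℕ) : ℝ) = y at hK1
          generalize μ * a = z at hK1 hma
          nlinarith
        have e7 : 0 ≤ (μ ^ K) ^ 2 := by positivity
        calc ((K + 1 : ℕ) : ℝ) ^ 2 * (μ ^ K) ^ 2 = (μ ^ K) ^ 2 * ((K + 1 : ℕ) : ℝ) ^ 2 := by ring
          _ ≤ (μ ^ K) ^ 2 * (2 * (((K + 1 : ℕ) : ℝ) - μ * a) ^ 2) := mul_le_mul_of_nonneg_left e6 e7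
          _ = _ := by ring
      · rw [if_neg (by omega)]
        unfold rs
        rw [if_neg fun h' => by omega]
        simp only [mul_zero, sub_zero, norm_zero]
        have : 0 ≤ μ ^ (2 * om n) * ((om n : ℝ) / μ - a) ^ 2 := by positivity
        have h2 : (0 : ℝ) ^ 2 = 0 := by norm_num
        rw [h2]
        linarith
    calc _ ≤ 2 * (μ ^ (2 * om n) * ((om n : ℝ) / μ - a) ^ 2) / n :=
          div_le_div_of_nonneg_right key (Nat.cast_nonneg _)
      _ = _ := by ring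
  · rw [if_neg hn, f1_zero hP hn]
    have : rs P K μ n = 0 := by
      unfold rs
      rw [if_neg fun h => hn h.1]
    rw [this]
    simp

theorem sum_gg2 {P : Finset ℕ} (hP : ∀ p ∈ P, p.Prime) {μ a : ℝ} (hμ0 : 0 < μ)
    (ha : a = μ * ∑ p ∈ P, (1 : ℝ) / p) (M : ℕ) :
    ∑ n ∈ Icc 1 M, gg P μ a n ≤ 2 / μ ^ 2 * E2 (fun p => μ ^ 2 / p) P := by
  refine (transfer_le hP M (gg P μ a) (fun n h => ?_) (gg_nonneg P μ a)).trans (le_of_eq ?_)
  · by_contra h1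
    exact h (if_neg h1)
  · unfold E2
    rw [mul_sum]
    refine sum_congr rfl fun S hS => ?_
    unfold gg
    rw [if_pos (Sq_prod hP hS), om_prod hP hS, wt_eq]
    have h1 : ∑ p ∈ P, μ ^ 2 / (p : ℝ) = μ * a := by
      rw [ha, ← mul_assoc, mul_sum]
      exact sum_congr rfl fun p _ => by ring
    rw [h1]
    have h2 : ((∏ p ∈ S, p : ℕ) : ℝ) ≠ 0 := by
      rw [Nat.cast_ne_zero]
      exact Finset.prod_ne_zero_iff.2 fun p hp => (hP p (Finset.mem_powerset.1 hS hp)).ne_zero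
    field_simp

/-- the finite inequality, any positive strength and any set of primes -/
theorem res2 {P : Finset ℕ} (hP : ∀ p ∈ P, p.Prime) {K N X : ℕ} {μ a : ℝ}
    (hμ0 : 0 < μ) (ha : a = μ * ∑ p ∈ P, (1 : ℝ) / p)
    (hK : 10 * (μ * a) ≤ K) (hK1 : 1 ≤ K) (hx : ∀ p ∈ P, μ ^ 2 ≤ (p : ℝ))
    (hQ : ∑ p ∈ P, (μ ^ 2 / (p : ℝ)) ^ 2 ≤ μ)
    (hN : ∀ S ∈ P.powerset, S.card ≤ K → ∏ p ∈ S, p ≤ N) (hX : ∀ p ∈ P, p ≤ X) :
    N2 (X * N) (fun n => cv (prc X) (rs P K μ) n - a * rs P K μ n) ≤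
      (6 + 8 * ∑ p ∈ (Icc 1 X).filter Nat.Prime, (1 : ℝ) / p) * N2 N (rs P K μ) := by
  obtain ⟨S, hSd⟩ : ∃ S : ℝ, S = ∑ p ∈ P, (1 : ℝ) / p := ⟨_, rfl⟩
  have hS0 : 0 ≤ S := by rw [hSd]; exact Finset.sum_nonneg fun p _ => by positivity
  have ha0 : 0 ≤ a := by rw [ha, ← hSd]; positivity
  have hm : ∑ p ∈ P, μ ^ 2 / (p : ℝ) = μ * a := by
    rw [ha, ← mul_assoc, mul_sum]
    exact sum_congr rfl fun p _ => by ring
  have hma : μ * a = μ ^ 2 * S := by rw [ha, ← hSd]; ring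
  obtain ⟨x, hxdef⟩ : ∃ x : ℕ → ℝ, x = fun p : ℕ => μ ^ 2 / (p : ℝ) := ⟨_, rfl⟩
  have hx0 : ∀ p, 0 ≤ x p := fun p => by rw [hxdef]; positivity
  have hpp : ∀ p ∈ P, (0 : ℝ) < p := fun p hp => by exact_mod_cast (hP p hp).pos
  have hx1 : ∀ p ∈ P, x p ≤ 1 := by
    intro p hp
    rw [hxdef]
    show μ ^ 2 / (p : ℝ) ≤ 1
    rw [div_le_one (hpp p hp)]
    exact hx p hp
  have hmx : ∑ p ∈ P, x p = μ * a := by rw [hxdef]; exact hm
  have hQ' : ∑ p ∈ P, x p ^ 2 ≤ μ := by rw [hxdef]; exact hQ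
  have hQ0 : 0 ≤ ∑ p ∈ P, x p ^ 2 := Finset.sum_nonneg fun p _ => sq_nonneg _
  have hE0 := E0_pos hx0 P
  -- the mean square
  have hW : N2 N (rs P K μ) = ∑ S ∈ P.powerset.filter (fun S => S.card ≤ K), wt x S := by
    rw [N2_rs hP K N μ hN, hxdef]
  have htr := trunc hx0 P K (by rw [hmx]; exact hK) hK1
  rw [← hW] at htr
  have hE2 : E2 x P ≤ (μ ^ 2 * S + μ ^ 2) * E0 x P := by
    refine (E2_le hx0 P hx1).trans (mul_le_mul_of_nonneg_right ?_ hE0.le)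
    rw [hmx, hma]
    have := pow_le_pow_left₀ hQ0 hQ' 2
    linarith
  -- the main part
  have hmain : N2 (X * N) (fun n => f1 P X (rs P K μ) n - a * rs P K μ n) ≤
      3 * (S + 1) * N2 N (rs P K μ) := by
    unfold N2
    refine (Finset.sum_le_sum fun n _ => main_pt2 hP hμ0 ha0 hK hX n).trans ?_
    refine (sum_gg2 hP hμ0 ha _).trans ?_
    rw [← hxdef]
    have h1 : 2 / μ ^ 2 * E2 x P ≤ 2 / μ ^ 2 * ((μ ^ 2 * S + μ ^ 2) * E0 x P) :=
      mul_le_mul_of_nonneg_left hE2 (by positivity)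
    have h2 : 2 / μ ^ 2 * ((μ ^ 2 * S + μ ^ 2) * E0 x P) = 2 * (S + 1) * E0 x P := by
      field_simp
    have h5 : N2 N (rs P K μ) = ∑ n ∈ Icc 1 N, ‖rs P K μ n‖ ^ 2 / (n : ℝ) := rfl
    rw [← h5]
    rw [h2] at h1
    refine h1.trans ?_
    have h6 : (S + 1) * (9 * E0 x P) ≤ (S + 1) * (10 * N2 N (rs P K μ)) := mul_le_mul_of_nonneg_left htr (by linarith)
    have h7 : 0 ≤ (S + 1) * N2 N (rs P K μ) := by
      have : 0 ≤ N2 N (rs P K μ) := by linarith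
      positivity
    nlinarith
  have hoth : N2 (X * N) (f2 P X (rs P K μ)) ≤
      (∑ p ∈ (Icc 1 X).filter Nat.Prime, (1 : ℝ) / p) * N2 N (rs P K μ) := by
    refine N2_f2 fun n h => ?_
    obtain ⟨⟨h3, h4⟩, h5⟩ := rs_ne h
    have h6 := hN n.primeFactors (Finset.mem_powerset.2 h4) h5
    rwa [Nat.prod_primeFactors_of_squarefree h3] at h6
  have hsplit : N2 (X * N) (fun n => cv (prc X) (rs P K μ) n - a * rs P K μ n) ≤
      2 * N2 (X * N) (fun n => f1 P X (rs P K μ) n - a * rs P K μ n) +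
        2 * N2 (X * N) (f2 P X (rs P K μ)) := by
    unfold N2
    rw [mul_sum, mul_sum, ← sum_add_distrib]
    refine Finset.sum_le_sum fun n _ => ?_
    show ‖cv (prc X) (rs P K μ) n - a * rs P K μ n‖ ^ 2 / (n : ℝ) ≤ _
    rw [cv_split P]
    have h1 : ‖f1 P X (rs P K μ) n + f2 P X (rs P K μ) n - a * rs P K μ n‖ ^ 2 ≤
        2 * ‖f1 P X (rs P K μ) n - a * rs P K μ n‖ ^ 2 +
          2 * ‖f2 P X (rs P K μ) n‖ ^ 2 := by
      have h2 : f1 P X (rs P K μ) n + f2 P X (rs P K μ) n - a * rs P K μ n =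
          (f1 P X (rs P K μ) n - a * rs P K μ n) + f2 P X (rs P K μ) n := by ring
      rw [h2]
      have h3 := norm_add_le (f1 P X (rs P K μ) n - a * rs P K μ n)
        (f2 P X (rs P K μ) n)
      have h4 := norm_nonneg ((f1 P X (rs P K μ) n - a * rs P K μ n) +
        f2 P X (rs P K μ) n)
      generalize ‖(f1 P X (rs P K μ) n - a * rs P K μ n) +
        f2 P X (rs P K μ) n‖ = u at *
      generalize ‖f1 P X (rs P K μ) n - a * rs P K μ n‖ = v at *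
      generalize ‖f2 P X (rs P K μ) n‖ = w at *
      nlinarith [sq_nonneg (v - w)]
    calc _ ≤ (2 * ‖f1 P X (rs P K μ) n - a * rs P K μ n‖ ^ 2 +
          2 * ‖f2 P X (rs P K μ) n‖ ^ 2) / (n : ℝ) := div_le_div_of_nonneg_right h1 (Nat.cast_nonneg _)
      _ = _ := by ring
  have hSX : S ≤ ∑ p ∈ (Icc 1 X).filter Nat.Prime, (1 : ℝ) / p := by
    rw [hSd]
    refine Finset.sum_le_sum_of_subset_of_nonneg (fun p hp => ?_) fun p _ _ => by positivity
    rw [mem_filter, mem_Icc]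
    exact ⟨⟨(hP p hp).one_lt.le, hX p hp⟩, hP p hp⟩
  have hW0 : 0 ≤ N2 N (rs P K μ) := by linarith
  refine hsplit.trans ?_
  have h8 := mul_le_mul_of_nonneg_right hSX hW0
  nlinarith

/-! ### squares of primes -/

/-- the squares of the primes up to `X` -/
noncomputable def sqc (X n : ℕ) : ℂ := open Classical in if ∃ p : ℕ, p.Prime ∧ p ≤ X ∧ n = p ^ 2 then 1 else 0

theorem sqc_ne {X n : ℕ} (h : sqc X n ≠ 0) : ∃ p : ℕ, p.Prime ∧ p ≤ X ∧ n = p ^ 2 := by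
  unfold sqc at h
  by_contra h1
  exact h (if_neg h1)

theorem uniq_sq {p q m m' : ℕ} (hp : p.Prime) (hq : q.Prime) (hm : Squarefree m) (hm' : Squarefree m')
    (he : p ^ 2 * m = q ^ 2 * m') : p = q := by
  by_contra hne
  have hco : Nat.Coprime (q ^ 2) (p ^ 2) := Nat.Coprime.pow 2 2 ((Nat.coprime_primes hq hp).2 (Ne.symm hne))
  have h1 : q ^ 2 ∣ p ^ 2 * m := ⟨m', he⟩
  have h2 : q ^ 2 ∣ m := hco.dvd_of_dvd_mul_left h1
  rw [sq] at h2
  exact hq.not_isUnit (hm q h2)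

theorem sqc_cv {P : Finset ℕ} {K X : ℕ} {s : ℝ} (n : ℕ) :
    ‖cv (sqc X) (rs P K s) n‖ ^ 2 ≤ ∑ x ∈ n.divisorsAntidiagonal, ‖sqc X x.1‖ ^ 2 * ‖rs P K s x.2‖ ^ 2 := by
  classical
  unfold cv
  set A := n.divisorsAntidiagonal with hA
  have h0 : ∑ x ∈ A, sqc X x.1 * rs P K s x.2 =
      ∑ x ∈ A.filter (fun x => sqc X x.1 * rs P K s x.2 ≠ 0), sqc X x.1 * rs P K s x.2 :=
    (Finset.sum_filter_ne_zero _).symm
  have hcard : (A.filter (fun x => sqc X x.1 * rs P K s x.2 ≠ 0)).card ≤ 1 := by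
    rw [Finset.card_le_one]
    intro x hx y hy
    rw [Finset.mem_filter, hA, Nat.mem_divisorsAntidiagonal] at hx hy
    obtain ⟨⟨hx1, hn0⟩, hx3⟩ := hx
    obtain ⟨⟨hy1, -⟩, hy3⟩ := hy
    obtain ⟨p, hp, -, hxp⟩ := sqc_ne (left_ne_zero_of_mul hx3)
    obtain ⟨q, hq, -, hyq⟩ := sqc_ne (left_ne_zero_of_mul hy3)
    have hrx := (rs_ne (right_ne_zero_of_mul hx3)).1.1
    have hry := (rs_ne (right_ne_zero_of_mul hy3)).1.1
    have h3 := hx1.trans hy1.symm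
    have h4 : p = q := by
      rw [hxp, hyq] at h3
      exact uniq_sq hp hq hrx hry h3
    have h1 : x.1 = y.1 := by rw [hxp, hyq, h4]
    have h2 : x.2 = y.2 := by
      rw [h1] at h3
      refine Nat.eq_of_mul_eq_mul_left ?_ h3
      rw [hyq]
      have := hq.pos
      positivity
    exact Prod.ext h1 h2
  rw [h0]
  have h1 : ‖∑ x ∈ A.filter (fun x => sqc X x.1 * rs P K s x.2 ≠ 0), sqc X x.1 * rs P K s x.2‖ ^ 2 ≤
      ∑ x ∈ A.filter (fun x => sqc X x.1 * rs P K s x.2 ≠ 0), ‖sqc X x.1 * rs P K s x.2‖ ^ 2 := by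
    rcases Finset.card_le_one_iff_subset_singleton.1 hcard with ⟨x, hx⟩
    rcases Finset.subset_singleton_iff.1 hx with h | h
    · rw [h]; simp
    · rw [h]; simp
  refine h1.trans ?_
  refine (Finset.sum_le_sum_of_subset_of_nonneg (Finset.filter_subset _ _) fun x _ _ => sq_nonneg _).trans ?_
  refine Finset.sum_le_sum fun x _ => ?_
  rw [norm_mul, mul_pow]

theorem sum_inv_sq (N : ℕ) : ∑ n ∈ Icc 2 N, (1 : ℝ) / (n : ℝ) ^ 2 ≤ 1 := by
  have key : ∀ N : ℕ, 1 ≤ N → ∑ n ∈ Icc 2 N, (1 : ℝ) / (n : ℝ) ^ 2 ≤ 1 - 1 / N := by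
    intro N hN
    induction N, hN using Nat.le_induction with
    | base => simp
    | succ N hN ih =>
      rw [Finset.sum_Icc_succ_top (by omega)]
      have h0 : (0 : ℝ) < N := by exact_mod_cast hN
      have h1 : (1 : ℝ) / ((N + 1 : ℕ) : ℝ) ^ 2 ≤ 1 / N - 1 / ((N + 1 : ℕ) : ℝ) := by
        push_cast
        rw [div_sub_div _ _ h0.ne' (by positivity), div_le_div_iff₀ (by positivity) (by positivity)]
        nlinarith
      linarith
  rcases Nat.eq_zero_or_pos N with h | h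
  · subst h
    simp
  · have := key N h
    have h2 : (0 : ℝ) ≤ 1 / N := by positivity
    linarith

/-- the mean square of the convolution with the squares of the primes -/
theorem N2_sqc {P : Finset ℕ} {K N X M : ℕ} {s : ℝ} (hN : ∀ n, rs P K s n ≠ 0 → n ≤ N) :
    N2 M (cv (sqc X) (rs P K s)) ≤ N2 N (rs P K s) := by
  classical
  have h1 := conv_sum M (X ^ 2) N (fun n => ‖sqc X n‖ ^ 2) (fun n => ‖rs P K s n‖ ^ 2) (fun n => sq_nonneg _)
    (fun n => sq_nonneg _) (by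
      intro n h
      have h2 : sqc X n ≠ 0 := fun h' => h (by rw [h']; simp)
      obtain ⟨p, hp, hpX, rfl⟩ := sqc_ne h2
      exact ⟨Nat.one_le_iff_ne_zero.2 (by have := hp.pos; positivity), Nat.pow_le_pow_left hpX 2⟩) (by
      intro n h
      have h2 : rs P K s n ≠ 0 := fun h' => h (by rw [h']; simp)
      exact ⟨Nat.one_le_iff_ne_zero.2 (rs_ne h2).1.1.ne_zero, hN n h2⟩)
  have h3 : ∑ d ∈ Icc 1 (X ^ 2), ‖sqc X d‖ ^ 2 / (d : ℝ) ≤ 1 := by
    have e1 : ∑ d ∈ Icc 1 (X ^ 2), ‖sqc X d‖ ^ 2 / (d : ℝ) ≤ ∑ p ∈ (Icc 2 X).filter Nat.Prime, (1 : ℝ) / (p : ℝ) ^ 2 := by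
      have e2 : ∑ p ∈ (Icc 2 X).filter Nat.Prime, (1 : ℝ) / (p : ℝ) ^ 2 =
          ∑ d ∈ ((Icc 2 X).filter Nat.Prime).image (fun p : ℕ => (p ^ 2 : ℕ)), (1 : ℝ) / (d : ℝ) := by
        rw [Finset.sum_image]
        · exact sum_congr rfl fun p _ => by push_cast; rfl
        · intro p _ q _ h
          exact Nat.pow_left_injective (n := 2) (by norm_num) h
      rw [e2]
      have e3 : ∑ d ∈ Icc 1 (X ^ 2), ‖sqc X d‖ ^ 2 / (d : ℝ) = ∑ d ∈ (Icc 1 (X ^ 2)).filter (fun d => sqc X d ≠ 0),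
          ‖sqc X d‖ ^ 2 / (d : ℝ) := by
        rw [Finset.sum_filter]
        refine sum_congr rfl fun d _ => ?_
        by_cases h : sqc X d = 0
        · rw [if_neg (by simpa using h), h]
          simp
        · rw [if_pos h]
      rw [e3]
      refine le_trans (Finset.sum_le_sum (g := fun d : ℕ => (1 : ℝ) / (d : ℝ)) fun d hd => ?_)
        (Finset.sum_le_sum_of_subset_of_nonneg ?_ fun d _ _ => by positivity)
      · have h4 := (mem_filter.1 hd).2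
        have h5 : sqc X d = 1 := by
          unfold sqc
          rw [if_pos (sqc_ne h4)]
        rw [h5]
        simp
      · intro d hd
        obtain ⟨p, hp, hpX, rfl⟩ := sqc_ne (mem_filter.1 hd).2
        rw [mem_image]
        exact ⟨p, mem_filter.2 ⟨mem_Icc.2 ⟨hp.two_le, hpX⟩, hp⟩, rfl⟩
    refine e1.trans (le_trans ?_ (sum_inv_sq X))
    exact Finset.sum_le_sum_of_subset_of_nonneg (Finset.filter_subset _ _) fun p _ _ => by positivity
  have h4 : 0 ≤ N2 N (rs P K s) := by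
    unfold N2
    exact Finset.sum_nonneg fun n _ => by positivity
  calc N2 M (cv (sqc X) (rs P K s)) ≤
        ∑ n ∈ Icc 1 M, (∑ x ∈ n.divisorsAntidiagonal, ‖sqc X x.1‖ ^ 2 * ‖rs P K s x.2‖ ^ 2) / (n : ℝ) := by
        unfold N2
        refine Finset.sum_le_sum fun n _ => ?_
        exact div_le_div_of_nonneg_right (sqc_cv n) (Nat.cast_nonneg _)
    _ ≤ (∑ d ∈ Icc 1 (X ^ 2), ‖sqc X d‖ ^ 2 / (d : ℝ)) * N2 N (rs P K s) := h1
    _ ≤ 1 * N2 N (rs P K s) := mul_le_mul_of_nonneg_right h3 h4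
    _ = _ := one_mul _

/-! ### the fourth moment -/

theorem four_pt {P : Finset ℕ} {K : ℕ} {s : ℝ} (n : ℕ) :
    ‖cv (rs P K s) (rs P K s) n‖ ^ 2 ≤ ∑ x ∈ n.divisorsAntidiagonal,
      ((2 : ℝ) ^ om x.1 * ‖rs P K s x.1‖ ^ 2) * ((2 : ℝ) ^ om x.2 * ‖rs P K s x.2‖ ^ 2) := by
  classical
  unfold cv
  set A := n.divisorsAntidiagonal with hA
  set B := A.filter (fun x => rs P K s x.1 * rs P K s x.2 ≠ 0) with hB
  have h0 : ∑ x ∈ A, rs P K s x.1 * rs P K s x.2 = ∑ x ∈ B, rs P K s x.1 * rs P K s x.2 :=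
    (Finset.sum_filter_ne_zero _).symm
  rw [h0]
  -- the number of terms
  have hcard : (B.card : ℝ) ≤ (2 : ℝ) ^ om n := by
    have hinj : Set.InjOn (fun x : ℕ × ℕ => x.1.primeFactors) (B : Set (ℕ × ℕ)) := by
      intro x hx y hy he
      rw [Finset.mem_coe, hB, mem_filter, hA, Nat.mem_divisorsAntidiagonal] at hx hy
      have hsx := (rs_ne (left_ne_zero_of_mul hx.2)).1.1
      have hsy := (rs_ne (left_ne_zero_of_mul hy.2)).1.1
      have h1 : x.1 = y.1 := by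
        rw [← Nat.prod_primeFactors_of_squarefree hsx, ← Nat.prod_primeFactors_of_squarefree hsy]
        simp only at he
        rw [he]
      have h2 : x.2 = y.2 := by
        have h3 := hx.1.1.trans hy.1.1.symm
        rw [h1] at h3
        exact Nat.eq_of_mul_eq_mul_left (Nat.pos_of_ne_zero hsy.ne_zero) h3
      exact Prod.ext h1 h2
    have h1 : (B.image (fun x : ℕ × ℕ => x.1.primeFactors)).card = B.card := Finset.card_image_of_injOn hinj
    have h2 : B.image (fun x : ℕ × ℕ => x.1.primeFactors) ⊆ n.primeFactors.powerset := by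
      intro S hS
      rw [mem_image] at hS
      obtain ⟨x, hx, rfl⟩ := hS
      rw [hB, mem_filter, hA, Nat.mem_divisorsAntidiagonal] at hx
      rw [mem_powerset]
      exact Nat.primeFactors_mono ⟨x.2, hx.1.1.symm⟩ hx.1.2
    have h3 := Finset.card_le_card h2
    rw [h1, Finset.card_powerset] at h3
    unfold om
    exact_mod_cast h3
  have hcs : ‖∑ x ∈ B, rs P K s x.1 * rs P K s x.2‖ ^ 2 ≤ (B.card : ℝ) * ∑ x ∈ B, ‖rs P K s x.1 * rs P K s x.2‖ ^ 2 := by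
    have h1 : ‖∑ x ∈ B, rs P K s x.1 * rs P K s x.2‖ ≤ ∑ x ∈ B, ‖rs P K s x.1 * rs P K s x.2‖ := norm_sum_le _ _
    have h2 := sq_sum_le_card_mul_sum_sq (s := B) (f := fun x => ‖rs P K s x.1 * rs P K s x.2‖)
    exact (pow_le_pow_left₀ (norm_nonneg _) h1 2).trans h2
  refine hcs.trans ?_
  have hS0 : 0 ≤ ∑ x ∈ B, ‖rs P K s x.1 * rs P K s x.2‖ ^ 2 := Finset.sum_nonneg fun x _ => sq_nonneg _
  refine (mul_le_mul_of_nonneg_right hcard hS0).trans ?_
  rw [mul_sum]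
  refine le_trans (Finset.sum_le_sum (g := fun x : ℕ × ℕ => ((2 : ℝ) ^ om x.1 * ‖rs P K s x.1‖ ^ 2) *
    ((2 : ℝ) ^ om x.2 * ‖rs P K s x.2‖ ^ 2)) fun x hx => ?_)
    (Finset.sum_le_sum_of_subset_of_nonneg (Finset.filter_subset _ _) fun x _ _ => by positivity)
  rw [hB, mem_filter, hA, Nat.mem_divisorsAntidiagonal] at hx
  have h1 : om n ≤ om x.1 + om x.2 := by
    unfold om
    have hx1 : x.1 ≠ 0 := fun h => by rw [h, zero_mul] at hx; exact hx.1.2 hx.1.1.symm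
    have hx2 : x.2 ≠ 0 := fun h => by rw [h, mul_zero] at hx; exact hx.1.2 hx.1.1.symm
    rw [← hx.1.1, Nat.primeFactors_mul hx1 hx2]
    exact Finset.card_union_le _ _
  have h2 : (2 : ℝ) ^ om n ≤ 2 ^ om x.1 * 2 ^ om x.2 := by
    rw [← pow_add]
    exact pow_le_pow_right₀ (by norm_num) h1
  rw [norm_mul, mul_pow]
  calc (2 : ℝ) ^ om n * (‖rs P K s x.1‖ ^ 2 * ‖rs P K s x.2‖ ^ 2) ≤
        (2 ^ om x.1 * 2 ^ om x.2) * (‖rs P K s x.1‖ ^ 2 * ‖rs P K s x.2‖ ^ 2) :=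
        mul_le_mul_of_nonneg_right h2 (by positivity)
    _ = _ := by ring

theorem wt_sum_exp {P : Finset ℕ} (hP : ∀ p ∈ P, p.Prime) {K M : ℕ} {s : ℝ} :
    ∑ n ∈ Icc 1 M, ((2 : ℝ) ^ om n * ‖rs P K s n‖ ^ 2) / (n : ℝ) ≤ Real.exp (2 * s ^ 2 * ∑ p ∈ P, (1 : ℝ) / p) := by
  refine (transfer_le hP M (fun n => ((2 : ℝ) ^ om n * ‖rs P K s n‖ ^ 2) / (n : ℝ)) (fun n h => ?_) fun n => by positivity).trans ?_
  · have h1 : rs P K s n ≠ 0 := fun h' => h (by rw [h', norm_zero]; simp)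
    exact (rs_ne h1).1
  · have h1 : ∀ S ∈ P.powerset, ((2 : ℝ) ^ om (∏ p ∈ S, p) * ‖rs P K s (∏ p ∈ S, p)‖ ^ 2) / ((∏ p ∈ S, p : ℕ) : ℝ) ≤
        ∏ p ∈ S, (2 * s ^ 2 / (p : ℝ)) := by
      intro S hS
      rw [om_prod hP hS]
      have e1 : ∏ p ∈ S, (2 * s ^ 2 / (p : ℝ)) = (2 : ℝ) ^ S.card * (s ^ S.card) ^ 2 / ((∏ p ∈ S, p : ℕ) : ℝ) := by
        rw [Finset.prod_div_distrib, Finset.prod_const]
        push_cast
        rw [mul_pow]
        congr 1
        ring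
      rw [e1]
      refine div_le_div_of_nonneg_right ?_ (Nat.cast_nonneg _)
      refine mul_le_mul_of_nonneg_left ?_ (by positivity)
      unfold rs
      split
      · rw [Complex.norm_real, Real.norm_eq_abs, sq_abs, om_prod hP hS]
      · rw [norm_zero]
        have : 0 ≤ (s ^ S.card) ^ 2 := sq_nonneg _
        simpa using this
    refine (Finset.sum_le_sum h1).trans ?_
    have h2 := Finset.prod_one_add (s := P) (f := fun p : ℕ => 2 * s ^ 2 / (p : ℝ))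
    rw [← h2]
    have h3 : ∏ p ∈ P, (1 + 2 * s ^ 2 / (p : ℝ)) ≤ ∏ p ∈ P, Real.exp (2 * s ^ 2 / (p : ℝ)) := by
      refine Finset.prod_le_prod (fun p _ => by positivity) fun p _ => ?_
      have := Real.add_one_le_exp (2 * s ^ 2 / (p : ℝ))
      linarith
    refine h3.trans (le_of_eq ?_)
    rw [← Real.exp_sum, mul_sum]
    congr 1
    exact sum_congr rfl fun p _ => by ring

/-- the fourth moment of the resonator -/
theorem N2_four {P : Finset ℕ} (hP : ∀ p ∈ P, p.Prime) {K N M : ℕ} {s : ℝ} (hN : ∀ n, rs P K s n ≠ 0 → n ≤ N) :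
    N2 M (cv (rs P K s) (rs P K s)) ≤ Real.exp (4 * s ^ 2 * ∑ p ∈ P, (1 : ℝ) / p) := by
  have h1 := conv_sum M N N (fun n => (2 : ℝ) ^ om n * ‖rs P K s n‖ ^ 2) (fun n => (2 : ℝ) ^ om n * ‖rs P K s n‖ ^ 2)
    (fun n => by positivity) (fun n => by positivity) (by
      intro n h
      have h2 : rs P K s n ≠ 0 := fun h' => h (by rw [h', norm_zero]; simp)
      exact ⟨Nat.one_le_iff_ne_zero.2 (rs_ne h2).1.1.ne_zero, hN n h2⟩) (by
      intro n h
      have h2 : rs P K s n ≠ 0 := fun h' => h (by rw [h', norm_zero]; simp)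
      exact ⟨Nat.one_le_iff_ne_zero.2 (rs_ne h2).1.1.ne_zero, hN n h2⟩)
  have h2 := wt_sum_exp hP (K := K) (M := N) (s := s)
  have h3 : 0 ≤ ∑ n ∈ Icc 1 N, ((2 : ℝ) ^ om n * ‖rs P K s n‖ ^ 2) / (n : ℝ) := Finset.sum_nonneg fun n _ => by positivity
  calc N2 M (cv (rs P K s) (rs P K s)) ≤ ∑ n ∈ Icc 1 M, (∑ x ∈ n.divisorsAntidiagonal,
        ((2 : ℝ) ^ om x.1 * ‖rs P K s x.1‖ ^ 2) * ((2 : ℝ) ^ om x.2 * ‖rs P K s x.2‖ ^ 2)) / (n : ℝ) := by
        unfold N2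
        refine Finset.sum_le_sum fun n _ => ?_
        exact div_le_div_of_nonneg_right (four_pt n) (Nat.cast_nonneg _)
    _ ≤ _ := h1
    _ ≤ Real.exp (2 * s ^ 2 * ∑ p ∈ P, (1 : ℝ) / p) * Real.exp (2 * s ^ 2 * ∑ p ∈ P, (1 : ℝ) / p) :=
        mul_le_mul h2 h2 h3 (Real.exp_pos _).le
    _ = _ := by
        rw [← Real.exp_add]
        congr 1
        ring

/-! ### the twist by a unimodular number -/

/-- the twist of `r` by `σ^{Ω(n)}` -/
noncomputable def tw (σ : ℂ) (r : ℕ → ℂ) (n : ℕ) : ℂ := σ ^ (ArithmeticFunction.cardFactors n) * r n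

theorem tw_norm {σ : ℂ} (hσ : ‖σ‖ = 1) (r : ℕ → ℂ) (n : ℕ) : ‖tw σ r n‖ = ‖r n‖ := by
  unfold tw
  rw [norm_mul, norm_pow, hσ, one_pow, one_mul]

theorem tw_N2 {σ : ℂ} (hσ : ‖σ‖ = 1) (M : ℕ) (r : ℕ → ℂ) : N2 M (tw σ r) = N2 M r := by
  unfold N2
  exact sum_congr rfl fun n _ => by rw [tw_norm hσ]

theorem conj_mul_self' {σ : ℂ} (hσ : ‖σ‖ = 1) : (starRingEnd ℂ) σ * σ = 1 := by
  rw [mul_comm, Complex.mul_conj, Complex.normSq_eq_norm_sq, hσ]
  norm_num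

theorem tw_cv {σ : ℂ} (hσ : ‖σ‖ = 1) (q r : ℕ → ℂ) (k : ℕ) (hq : ∀ d, q d ≠ 0 → ArithmeticFunction.cardFactors d = k) (n : ℕ) :
    cv q (tw σ r) n = (starRingEnd ℂ) σ ^ k * σ ^ (ArithmeticFunction.cardFactors n) * cv q r n := by
  unfold cv
  rw [mul_sum]
  refine sum_congr rfl fun x hx => ?_
  by_cases h : q x.1 = 0
  · rw [h]
    simp
  · rw [Nat.mem_divisorsAntidiagonal] at hx
    have hx1 : x.1 ≠ 0 := fun h' => by rw [h', zero_mul] at hx; exact hx.2 hx.1.symm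
    have hx2 : x.2 ≠ 0 := fun h' => by rw [h', mul_zero] at hx; exact hx.2 hx.1.symm
    have h1 := ArithmeticFunction.cardFactors_mul hx1 hx2
    rw [hx.1, hq _ h] at h1
    unfold tw
    rw [h1, pow_add]
    have h2 : (starRingEnd ℂ) σ ^ k * σ ^ k = 1 := by
      rw [← mul_pow, conj_mul_self' hσ, one_pow]
    linear_combination (-(q x.1 * σ ^ (ArithmeticFunction.cardFactors x.2) * r x.2)) * h2

theorem tw_cv_self {σ : ℂ} (r : ℕ → ℂ) (n : ℕ) :
    cv (tw σ r) (tw σ r) n = σ ^ (ArithmeticFunction.cardFactors n) * cv r r n := by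
  unfold cv
  rw [mul_sum]
  refine sum_congr rfl fun x hx => ?_
  rw [Nat.mem_divisorsAntidiagonal] at hx
  have hx1 : x.1 ≠ 0 := fun h' => by rw [h', zero_mul] at hx; exact hx.2 hx.1.symm
  have hx2 : x.2 ≠ 0 := fun h' => by rw [h', mul_zero] at hx; exact hx.2 hx.1.symm
  have h1 := ArithmeticFunction.cardFactors_mul hx1 hx2
  rw [hx.1] at h1
  unfold tw
  rw [h1, pow_add]
  ring

theorem prc_omega {X d : ℕ} (h : prc X d ≠ 0) : ArithmeticFunction.cardFactors d = 1 :=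
  ArithmeticFunction.cardFactors_apply_prime (prc_ne h).1

theorem sqc_omega {X d : ℕ} (h : sqc X d ≠ 0) : ArithmeticFunction.cardFactors d = 2 := by
  obtain ⟨p, hp, -, rfl⟩ := sqc_ne h
  exact ArithmeticFunction.cardFactors_apply_prime_pow hp

theorem tw_res {σ : ℂ} (hσ : ‖σ‖ = 1) (M X : ℕ) (a : ℝ) (r : ℕ → ℂ) :
    N2 M (fun n => cv (prc X) (tw σ r) n - (starRingEnd ℂ) σ * a * tw σ r n) =
      N2 M (fun n => cv (prc X) r n - a * r n) := by
  unfold N2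
  refine sum_congr rfl fun n _ => ?_
  show ‖cv (prc X) (tw σ r) n - (starRingEnd ℂ) σ * a * tw σ r n‖ ^ 2 / (n : ℝ) = ‖cv (prc X) r n - a * r n‖ ^ 2 / (n : ℝ)
  rw [tw_cv hσ (prc X) r 1 (fun d => prc_omega) n]
  have e : (starRingEnd ℂ) σ ^ 1 * σ ^ (ArithmeticFunction.cardFactors n) * cv (prc X) r n -
      (starRingEnd ℂ) σ * a * tw σ r n = (starRingEnd ℂ) σ * σ ^ (ArithmeticFunction.cardFactors n) *
      (cv (prc X) r n - a * r n) := by
    unfold tw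
    ring
  rw [e, norm_mul, norm_mul, norm_pow, hσ, one_pow, mul_one, RCLike.norm_conj, hσ, one_mul]

theorem tw_sqc {σ : ℂ} (hσ : ‖σ‖ = 1) (M X : ℕ) (r : ℕ → ℂ) :
    N2 M (cv (sqc X) (tw σ r)) = N2 M (cv (sqc X) r) := by
  unfold N2
  refine sum_congr rfl fun n _ => ?_
  rw [tw_cv hσ (sqc X) r 2 (fun d => sqc_omega) n, norm_mul, norm_mul, norm_pow, norm_pow, hσ, RCLike.norm_conj, hσ,
    one_pow, one_pow, one_mul, one_mul]

theorem tw_four {σ : ℂ} (hσ : ‖σ‖ = 1) (M : ℕ) (r : ℕ → ℂ) :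
    N2 M (cv (tw σ r) (tw σ r)) = N2 M (cv r r) := by
  unfold N2
  refine sum_congr rfl fun n _ => ?_
  rw [tw_cv_self, norm_mul, norm_pow, hσ, one_pow, one_mul]

end Pool.Agent.U761.SZ
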