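import Pool.Agent.Q257.UM.VAV
import Pool.Agent.U761.SZ.ALIT

set_option autoImplicit false

/-!
U761.SZ: the vertical average of the argument of zeta (adapted from Q257/UM/VAV.lean).
-/

namespace Pool.Agent.U761.SZ

open Filter Topology MeasureTheory Complex
open Pool.Agent.Q97.UM Pool.Agent.Q257.UM Pool.Agent.Q257.UM.VA

noncomputable section

variable {ψ₁ k₀ : ℝ → ℝ}

/-- the coefficients of `log ζ` -/
def lc (n : ℕ) : ℂ := ((ArithmeticFunction.vonMangoldt n / Real.log n : ℝ) : ℂ)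

/-- the logarithm of zeta in the half plane of absolute convergence -/
def ell (s : ℂ) : ℂ := LSeries lc s

/-- the argument of zeta at `1/2 + iy` (for `y` not the ordinate of a zero) -/
def aS (y : ℝ) : ℝ := (ell ⟨3 / 2, y⟩).im - ∫ x in (1 / 2 : ℝ)..(3 / 2), (deriv riemannZeta ⟨x, y⟩ / riemannZeta ⟨x, y⟩).im

/-- the smoothed prime sum, complex -/
def PC (ψ₁ : ℝ → ℝ) (D t : ℝ) : ℂ := ∑ n ∈ Finset.Icc 2 ⌊Real.exp D⌋₊,
  ((ArithmeticFunction.vonMangoldt n / Real.log n * ψ₁ (Real.log n / D) : ℝ) : ℂ) * (n : ℂ) ^ (-(1 / 2 + t * I))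

theorem PC_re (ψ₁ : ℝ → ℝ) (D t : ℝ) : (PC ψ₁ D t).re = PP ψ₁ D t := rfl

theorem lc_term_le (y : ℝ) (n : ℕ) : ‖LSeries.term lc ⟨3 / 2, y⟩ n‖ ≤ ‖gt 0 n‖ / Real.log 2 := by
  unfold gt
  rw [LSeries.norm_term_eq, LSeries.norm_term_eq]
  have hl2 : 0 < Real.log 2 := Real.log_pos one_lt_two
  by_cases hn : n = 0
  · simp [hn]
  rw [if_neg hn, if_neg hn]
  have h1 : ‖lc n‖ ≤ ‖(ArithmeticFunction.vonMangoldt n : ℂ)‖ / Real.log 2 := by
    unfold lc
    rw [norm_real, norm_real, Real.norm_eq_abs, Real.norm_eq_abs, abs_div]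
    by_cases hn1 : n = 1
    · subst hn1
      simp
    · have h2 : (2 : ℝ) ≤ n := by
        have : 2 ≤ n := by omega
        exact_mod_cast this
      have h3 : Real.log 2 ≤ Real.log n := Real.log_le_log two_pos h2
      rw [abs_of_pos (by linarith : 0 < Real.log n)]
      gcongr
  simp only
  calc ‖lc n‖ / (n : ℝ) ^ (3 / 2 : ℝ) ≤ ‖(ArithmeticFunction.vonMangoldt n : ℂ)‖ / Real.log 2 / (n : ℝ) ^ (3 / 2 : ℝ) := by gcongr
    _ = _ := by ring

theorem lc_summable (y : ℝ) : LSeriesSummable lc ⟨3 / 2, y⟩ := by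
  refine Summable.of_norm_bounded (gt_sumn.div_const (Real.log 2)) fun n => lc_term_le y n

theorem ell_norm (y : ℝ) : ‖ell ⟨3 / 2, y⟩‖ ≤ B1 / Real.log 2 := by
  unfold ell LSeries
  have h : Summable fun n => ‖LSeries.term lc ⟨3 / 2, y⟩ n‖ := (lc_summable y).norm
  refine (norm_tsum_le_tsum_norm h).trans ?_
  unfold B1
  rw [← tsum_div_const]
  exact h.tsum_le_tsum (fun n => lc_term_le y n) (gt_sumn.div_const _)

theorem ell_cont : Continuous fun y : ℝ => ell ⟨3 / 2, y⟩ := by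
  unfold ell LSeries
  refine continuous_tsum (u := fun n => ‖gt 0 n‖ / Real.log 2) ?_ (gt_sumn.div_const _) fun n y => lc_term_le y n
  intro n
  by_cases hn : n = 0
  · subst hn
    simp only [LSeries.term_zero]
    exact continuous_const
  · have e : (fun y : ℝ => LSeries.term lc ⟨3 / 2, y⟩ n) = fun y : ℝ => lc n * (n : ℂ) ^ (-(3 / 2 + (y : ℂ) * I)) := by
      funext y
      rw [LSeries.term_of_ne_zero hn, div_eq_mul_inv, ← cpow_neg]
      congr 2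
      congr 1
      apply Complex.ext <;> simp
    rw [e]
    have hn' : (n : ℂ) ≠ 0 := by exact_mod_cast hn
    refine continuous_const.mul ?_
    refine Continuous.const_cpow (by fun_prop) (Or.inl hn')

theorem aedge (hKB : S_KB) (hK : Ker ψ₁ k₀) {B D t c d : ℝ} (hD : 0 < D) (hcd : c ≤ d) (hB : 0 ≤ B) {f : ℝ → ℝ}
    (h : ∀ y : ℝ, |f y| ≤ B) :
    |∫ y in c..d, (kap ψ₁ D (((y - t : ℝ) : ℂ) * I)).re * f y| ≤ B := by
  obtain ⟨-, hint, hone, -, -⟩ := hKB ψ₁ k₀ hK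
  have e0 : ∀ y : ℝ, (kap ψ₁ D (((y - t : ℝ) : ℂ) * I)).re = D * k₀ (D * (y - t)) := fun y => by
    rw [kap_im hK, ofReal_re]
  set g : ℝ → ℝ := fun x => D * k₀ (D * x) with hg
  have hgi : Integrable g := (hint.comp_mul_left' hD.ne').const_mul D
  have hgI : ∫ x : ℝ, g x = 1 := by
    rw [hg, integral_const_mul, Measure.integral_comp_mul_left k₀ D, smul_eq_mul, ← mul_assoc, abs_of_pos (inv_pos.2 hD),
      mul_inv_cancel₀ hD.ne', one_mul, hone]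
  have hg0 : ∀ x, 0 ≤ g x := fun x => mul_nonneg hD.le (hK.nonneg _)
  have h1 : Integrable fun y : ℝ => B * g (y - t) := (hgi.comp_sub_right t).const_mul B
  have h2 := intervalIntegral.norm_integral_le_of_norm_le (f := fun y => (kap ψ₁ D (((y - t : ℝ) : ℂ) * I)).re *
    f y) hcd (g := fun y => B * g (y - t)) (Eventually.of_forall fun y _ => by
      rw [e0, norm_mul, Real.norm_eq_abs, Real.norm_eq_abs, abs_of_nonneg (hg0 (y - t)), mul_comm]
      exact mul_le_mul_of_nonneg_right (h y) (hg0 (y - t))) h1.intervalIntegrable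
  rw [Real.norm_eq_abs] at h2
  refine h2.trans ?_
  rw [intervalIntegral.integral_of_le hcd]
  refine (setIntegral_le_integral h1 (Eventually.of_forall fun y => mul_nonneg hB (hg0 _))).trans ?_
  rw [integral_const_mul, integral_sub_right_eq_self (μ := volume) g t, hgI, mul_one]

/-- one zero, imaginary part -/
theorem aone_zero {C D δ L t : ℝ} (hC : 0 ≤ C) (hδ : 0 < δ) (hδ1 : δ ≤ 1) (hL : 0 < L) (hDe : D = δ * L)
    (h : ∀ D : ℝ, 0 < D → ∀ z : ℂ, 0 ≤ z.re → ‖kap ψ₁ D z‖ ≤ C * (D * Real.exp (D * z.re) / (1 + D * ‖z‖) ^ 2))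
    (s : ℂ) (hs : 1 / 2 < s.re) :
    |∫ σ in (1 / 2 : ℝ)..s.re, (kap ψ₁ D (s - (σ + t * I))).im| ≤
      C / δ ^ 2 * (Real.exp (2 * δ * (L * |s.re - 1 / 2|)) / (1 + L * |s.im - t|) ^ 2) := by
  have hD : 0 < D := by rw [hDe]; positivity
  have h1 : ∀ σ ∈ Set.uIoc (1 / 2 : ℝ) s.re, ‖(kap ψ₁ D (s - (σ + t * I))).im‖ ≤
      C * (D * Real.exp (D * (s.re - 1 / 2)) / (1 + D * |s.im - t|) ^ 2) := by
    intro σ hσ
    rw [Set.uIoc_of_le hs.le] at hσ
    have e1 : (s - (σ + t * I)).re = s.re - σ := by simp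
    have e2 : (s - (σ + t * I)).im = s.im - t := by simp
    refine (Complex.abs_im_le_norm _).trans ((h D hD _ (by rw [e1]; linarith [hσ.2])).trans ?_)
    refine mul_le_mul_of_nonneg_left ?_ hC
    have e3 : |s.im - t| ≤ ‖s - (σ + t * I)‖ := by rw [← e2]; exact Complex.abs_im_le_norm _
    rw [e1]
    have e4 : Real.exp (D * (s.re - σ)) ≤ Real.exp (D * (s.re - 1 / 2)) := by
      refine Real.exp_le_exp.2 ?_
      have := hσ.1
      gcongr
    gcongr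
  have h2 := intervalIntegral.norm_integral_le_of_norm_le_const h1
  rw [Real.norm_eq_abs, abs_of_pos (by linarith : 0 < s.re - 1 / 2)] at h2
  refine h2.trans ?_
  rw [abs_of_pos (by linarith : 0 < s.re - 1 / 2)]
  set v := D * (s.re - 1 / 2) with hv
  have hv0 : 0 < v := mul_pos hD (by linarith)
  have h3 : v * Real.exp v ≤ Real.exp (2 * v) := by
    have : v ≤ Real.exp v := by linarith [Real.add_one_le_exp v]
    calc v * Real.exp v ≤ Real.exp v * Real.exp v := mul_le_mul_of_nonneg_right this (Real.exp_pos _).le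
      _ = Real.exp (2 * v) := by rw [← Real.exp_add]; congr 1; ring
  have e5 : 2 * δ * (L * (s.re - 1 / 2)) = 2 * v := by rw [hv, hDe]; ring
  rw [e5]
  have h4 : δ * (1 + L * |s.im - t|) ≤ 1 + D * |s.im - t| := by
    rw [hDe]
    have : 0 ≤ L * |s.im - t| := by positivity
    nlinarith
  have h5 : 0 < 1 + L * |s.im - t| := by positivity
  calc C * (D * Real.exp v / (1 + D * |s.im - t|) ^ 2) * (s.re - 1 / 2) =
        C * ((v * Real.exp v) / (1 + D * |s.im - t|) ^ 2) := by rw [hv]; ring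
    _ ≤ C * (Real.exp (2 * v) / (δ * (1 + L * |s.im - t|)) ^ 2) := by gcongr
    _ = _ := by field_simp

theorem PC_cmp (hK : Ker ψ₁ k₀) (D t : ℝ) : ‖(∫ r in (0 : ℝ)..1, SP ψ₁ D t r) - PC ψ₁ D t‖ ≤ B1 / Real.log 2 := by
  unfold PC
  rw [SP_int, ← Finset.sum_sub_distrib]
  have hl2 : 0 < Real.log 2 := Real.log_pos one_lt_two
  refine (norm_sum_le _ _).trans ?_
  have h1 : ∀ n ∈ Finset.Icc 2 ⌊Real.exp D⌋₊,
      ‖((ArithmeticFunction.vonMangoldt n * ψ₁ (Real.log n / D) : ℝ) : ℂ) * (n : ℂ) ^ (-(3 / 2 + t * I)) *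
        ((((n : ℝ) - 1) / Real.log n : ℝ) : ℂ) -
        ((ArithmeticFunction.vonMangoldt n / Real.log n * ψ₁ (Real.log n / D) : ℝ) : ℂ) * (n : ℂ) ^ (-(1 / 2 + t * I))‖ ≤
      ‖gt 0 n‖ / Real.log 2 := by
    intro n hn
    rw [Finset.mem_Icc] at hn
    have hn0 : n ≠ 0 := by omega
    have h1 : (0 : ℝ) < n := by positivity
    have h2 : (2 : ℝ) ≤ n := by exact_mod_cast hn.1
    have h3 : Real.log 2 ≤ Real.log n := Real.log_le_log two_pos h2
    have h4 : 0 < Real.log n := by linarith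
    have h4c : (Real.log n : ℂ) ≠ 0 := by exact_mod_cast h4.ne'
    have e1 : (n : ℂ) ^ (-(1 / 2 + t * I)) = (n : ℂ) * (n : ℂ) ^ (-(3 / 2 + t * I)) := by
      have : (n : ℂ) * (n : ℂ) ^ (-(3 / 2 + t * I)) = (n : ℂ) ^ (1 : ℂ) * (n : ℂ) ^ (-(3 / 2 + t * I)) := by rw [cpow_one]
      rw [this, ← cpow_add _ _ (by exact_mod_cast hn0)]
      congr 1
      ring
    have e2 : ((ArithmeticFunction.vonMangoldt n * ψ₁ (Real.log n / D) : ℝ) : ℂ) * (n : ℂ) ^ (-(3 / 2 + t * I)) *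
        ((((n : ℝ) - 1) / Real.log n : ℝ) : ℂ) -
        ((ArithmeticFunction.vonMangoldt n / Real.log n * ψ₁ (Real.log n / D) : ℝ) : ℂ) * (n : ℂ) ^ (-(1 / 2 + t * I)) =
        -(((ψ₁ (Real.log n / D) / Real.log n : ℝ) : ℂ) * ((ArithmeticFunction.vonMangoldt n : ℂ) * (n : ℂ) ^ (-(3 / 2 + t * I)))) := by
      rw [e1]
      push_cast
      field_simp
      ring
    rw [e2, norm_neg, norm_mul]
    have e3 : ‖(ArithmeticFunction.vonMangoldt n : ℂ) * (n : ℂ) ^ (-(3 / 2 + t * I))‖ = ‖gt 0 n‖ := by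
      rw [← gt_norm t n, gt_eq t t hn0]
      simp
    rw [e3, norm_real, Real.norm_eq_abs, abs_div, abs_of_pos h4]
    have h5 := hK.bd (Real.log n / D)
    calc |ψ₁ (Real.log n / D)| / Real.log n * ‖gt 0 n‖ ≤ 1 / Real.log 2 * ‖gt 0 n‖ := by gcongr
      _ = _ := by ring
  refine (Finset.sum_le_sum h1).trans ?_
  rw [← Finset.sum_div]
  refine div_le_div_of_nonneg_right ?_ hl2.le
  exact gt_sumn.sum_le_tsum _ fun _ _ => norm_nonneg _

theorem aprime_part (hKB : S_KB) (hK : Ker ψ₁ k₀) : ∃ C : ℝ, 0 ≤ C ∧ ∀ D T t c d : ℝ, 1 ≤ D → Real.exp D ≤ T →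
    c ≤ t - T / 8 → t + T / 8 ≤ d →
    |-(∫ σ in (1 / 2 : ℝ)..(3 / 2), (∫ y in c..d, deriv riemannZeta ⟨3 / 2, y⟩ / riemannZeta ⟨3 / 2, y⟩ *
      kap ψ₁ D (((3 / 2 - σ : ℝ) : ℂ) + (y - t : ℝ) * I)).im) - (PC ψ₁ D t).im| ≤ C := by
  obtain ⟨C, hC, h⟩ := far hKB hK
  have hB := B1_nonneg
  have hl2 : 0 < Real.log 2 := Real.log_pos one_lt_two
  refine ⟨C + B1 / Real.log 2, by positivity, fun D T t c d hD hT hc hd => ?_⟩
  set V : ℝ → ℂ := fun r => ∫ y in c..d, Gz y * kap ψ₁ D ((r : ℂ) + ((y - t : ℝ) : ℂ) * I) with hV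
  have hVc : Continuous V := by
    refine intervalIntegral.continuous_parametric_intervalIntegral_of_continuous' (f := fun r y : ℝ =>
      Gz y * kap ψ₁ D ((r : ℂ) + ((y - t : ℝ) : ℂ) * I)) ?_ c d
    exact (Gz_cont.comp continuous_snd).mul (kap_cont hK D t)
  have e0 : (∫ σ in (1 / 2 : ℝ)..(3 / 2), (∫ y in c..d, deriv riemannZeta ⟨3 / 2, y⟩ / riemannZeta ⟨3 / 2, y⟩ *
      kap ψ₁ D (((3 / 2 - σ : ℝ) : ℂ) + (y - t : ℝ) * I)).im) = ∫ r in (0 : ℝ)..1, (V r).im := by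
    have h1 := intervalIntegral.integral_comp_sub_left (a := 1 / 2) (b := 3 / 2) (fun r => (V r).im) (3 / 2)
    rw [show (3 / 2 - 3 / 2 : ℝ) = 0 by norm_num, show (3 / 2 - 1 / 2 : ℝ) = 1 by norm_num] at h1
    exact h1
  rw [e0]
  have hSc := SP_cont ψ₁ D t
  have e1 : (∫ r in (0 : ℝ)..1, SP ψ₁ D t r).im = ∫ r in (0 : ℝ)..1, (SP ψ₁ D t r).im := by
    have := Complex.imCLM.intervalIntegral_comp_comm (hSc.intervalIntegrable (μ := volume) 0 1)
    simpa using this.symm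
  have h1 : |(∫ r in (0 : ℝ)..1, SP ψ₁ D t r).im - (PC ψ₁ D t).im| ≤ B1 / Real.log 2 := by
    rw [← Complex.sub_im]
    exact (Complex.abs_im_le_norm _).trans (PC_cmp hK D t)
  rw [e1] at h1
  have h2 : |(∫ r in (0 : ℝ)..1, (V r).im) + ∫ r in (0 : ℝ)..1, (SP ψ₁ D t r).im| ≤ C := by
    have i1 : IntervalIntegrable (fun r => (V r).im) volume 0 1 := (continuous_im.comp hVc).intervalIntegrable _ _
    have i2 : IntervalIntegrable (fun r => (SP ψ₁ D t r).im) volume 0 1 := (continuous_im.comp hSc).intervalIntegrable _ _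
    rw [← intervalIntegral.integral_add i1 i2]
    have h3 := intervalIntegral.norm_integral_le_of_norm_le_const (a := 0) (b := 1)
      (f := fun r => (V r).im + (SP ψ₁ D t r).im) (C := C) (fun r hr => ?_)
    · rw [sub_zero, abs_one, mul_one] at h3
      exact h3
    · rw [Set.uIoc_of_le zero_le_one] at hr
      have h4 := h D T t c d r hD hT hc hd hr.1.le hr.2
      rw [← Complex.add_im]
      exact (Complex.abs_im_le_norm _).trans h4
  have h5 : -(∫ r in (0 : ℝ)..1, (V r).im) - (PC ψ₁ D t).im = -((∫ r in (0 : ℝ)..1, (V r).im) +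
      ∫ r in (0 : ℝ)..1, (SP ψ₁ D t r).im) + ((∫ r in (0 : ℝ)..1, (SP ψ₁ D t r).im) - (PC ψ₁ D t).im) := by ring
  rw [h5]
  refine (abs_add_le _ _).trans ?_
  rw [abs_neg]
  exact add_le_add h2 h1

open Classical in
theorem avav (hKB : S_KB) : ∀ ψ₁ k₀ : ℝ → ℝ, Ker ψ₁ k₀ → ∀ δ : ℝ, 0 < δ → δ ≤ 1 / 8 → ∃ C : ℝ, 0 ≤ C ∧ ∀ᶠ T : ℝ in atTop, ∀ t : ℝ,
    T / 4 ≤ t → t ≤ 8 * T → ∃ U1 U2 : ℝ, t - T / 8 - 1 ≤ U1 ∧ U1 ≤ t - T / 8 ∧ t + T / 8 ≤ U2 ∧ U2 ≤ t + T / 8 + 1 ∧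
    IntervalIntegrable (fun u => δ * Real.log T * k₀ (δ * Real.log T * (u - t)) * aS u) volume U1 U2 ∧
    |(∫ u in U1..U2, δ * Real.log T * k₀ (δ * Real.log T * (u - t)) * aS u) - (PC ψ₁ (δ * Real.log T) t).im| ≤
      C * (1 + SS δ T t) := by
  intro ψ₁ k₀ hK δ hδ hδ1
  obtain ⟨Cp, hCp, hprime⟩ := aprime_part hKB hK
  obtain ⟨C2, hC2, hk2⟩ := kap_bd hKB hK 2
  obtain ⟨C3, hC3, hk3⟩ := kap_bd hKB hK 3
  obtain ⟨Cg, hCg, hgood⟩ := H370.good_height H370.good_zeta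
  have hpi := Real.pi_pos
  have hB1 := B1_nonneg
  have hl2 : 0 < Real.log 2 := Real.log_pos one_lt_two
  set B0 : ℝ := B1 / Real.log 2 with hB0d
  have hB0 : 0 ≤ B0 := by positivity
  have hlog : ∀ y : ℝ, |(ell ⟨3 / 2, y⟩).im| ≤ B0 := fun y => (Complex.abs_im_le_norm _).trans (ell_norm y)
  refine ⟨B0 + Cp + 2 * Real.pi * (C2 / δ ^ 2) + 4096 * Cg * C3, by positivity, ?_⟩
  filter_upwards [eventually_ge_atTop (Real.exp (1 / δ)), eventually_ge_atTop 64] with T hT1 hT2 t ht1 ht2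
  have hT0 : 0 < T := by linarith
  have hL : 1 / δ ≤ Real.log T := by rw [Real.le_log_iff_exp_le hT0]; exact hT1
  set L := Real.log T with hLdef
  have hL0 : 0 < L := lt_of_lt_of_le (by positivity) hL
  set D := δ * L with hD
  have hD1 : 1 ≤ D := by
    rw [div_le_iff₀ hδ] at hL
    rw [hD]; linarith
  have hD0 : 0 < D := by linarith
  have hDT : Real.exp D ≤ T := by
    rw [← Real.le_log_iff_exp_le hT0, hD, ← hLdef]
    nlinarith
  obtain ⟨U1, hU1, hg1⟩ := hgood (t - T / 8 - 1) (by linarith)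
  obtain ⟨U2, hU2, hg2⟩ := hgood (t + T / 8) (by linarith)
  obtain ⟨hU1a, hU1b⟩ := hU1
  obtain ⟨hU2a, hU2b⟩ := hU2
  have hU1b' : U1 ≤ t - T / 8 := by linarith
  refine ⟨U1, U2, hU1a, hU1b', hU2a, hU2b, ?_⟩
  have hU : U1 < U2 := by linarith
  set Z : Finset ℂ := (ZD T).filter (fun s => 1 / 2 < s.re ∧ U1 < s.im ∧ s.im < U2) with hZ
  obtain ⟨hliti, hlit⟩ := alit riemannZeta (kap ψ₁ D) (1 / 2) (3 / 2) U1 U2 t Z (by norm_num) hU
    (fun s hs => z_an (fun h => by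
      have h1 : U1 ≤ s.im := hs.2.1
      rw [h, one_im] at h1
      linarith))
    (kap_diff hK D)
    (fun y => by rw [kap_im hK, ofReal_im])
    (fun x hx => ⟨(hg1 x ⟨by linarith [hx.1], hx.2⟩).1, (hg2 x ⟨by linarith [hx.1], hx.2⟩).1⟩)
    (fun y _ => z_ne y)
    (fun s => by
      rw [hZ, Finset.mem_filter, mem_ZD (by linarith)]
      constructor
      · rintro ⟨⟨h1, h2, h3, h4, h5⟩, h6, h7, h8⟩
        exact ⟨h6, by linarith, h7, h8, h5⟩
      · rintro ⟨h1, h2, h3, h4, h5⟩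
        have h6 : s.re < 1 := by
          by_contra hcon
          push Not at hcon
          exact riemannZeta_ne_zero_of_one_le_re hcon h5
        exact ⟨⟨by linarith, h6, by linarith, by linarith, h5⟩, h1, h3, h4⟩)
  set A0 : ℝ → ℝ := fun y => ∫ x in (1 / 2 : ℝ)..(3 / 2), (deriv riemannZeta ⟨x, y⟩ / riemannZeta ⟨x, y⟩).im with hA0
  have e00 : (fun u => D * k₀ (D * (u - t)) * aS u) = fun y =>
      (kap ψ₁ D (((y - t : ℝ) : ℂ) * I)).re * (ell ⟨3 / 2, y⟩).im - (kap ψ₁ D (((y - t : ℝ) : ℂ) * I)).re * A0 y := by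
    funext y
    rw [kap_im hK, ofReal_re]
    unfold aS
    simp only [hA0]
    ring
  have hi1 : IntervalIntegrable (fun y : ℝ => (kap ψ₁ D (((y - t : ℝ) : ℂ) * I)).re * (ell ⟨3 / 2, y⟩).im) volume U1 U2 := by
    apply Continuous.intervalIntegrable
    refine Continuous.mul ?_ (continuous_im.comp ell_cont)
    exact Complex.continuous_re.comp ((kap_diff hK D).continuous.comp (by fun_prop))
  rw [e00]
  refine ⟨hi1.sub hliti, ?_⟩
  rw [intervalIntegral.integral_sub hi1 hliti, hlit]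
  have t1 := aedge (t := t) hKB hK hD0 hU.le hB0 hlog
  have t2 := hprime D T t U1 U2 hD1 hDT hU1b' hU2a
  have t3 : |∑ s ∈ Z, (H370.mult riemannZeta s : ℝ) * ∫ σ in (1 / 2 : ℝ)..s.re, (kap ψ₁ D (s - (σ + t * I))).im| ≤
      C2 / δ ^ 2 * SS δ T t := by
    refine (Finset.abs_sum_le_sum_abs _ _).trans ?_
    unfold SS
    rw [Finset.mul_sum]
    refine le_trans (Finset.sum_le_sum (g := fun s => C2 / δ ^ 2 * ((mz s : ℝ) * (Real.exp (2 * δ * (Real.log T * |s.re - 1 / 2|)) /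
      (1 + Real.log T * |s.im - t|) ^ 2))) fun s hs => ?_) (Finset.sum_le_sum_of_subset_of_nonneg (Finset.filter_subset _ _)
        fun s _ _ => ?_)
    · rw [abs_mul, Nat.abs_cast]
      have h1 := aone_zero (L := L) (t := t) hC2 hδ (by linarith) hL0 hD hk2 s (Finset.mem_filter.1 hs).2.1
      calc (H370.mult riemannZeta s : ℝ) * |∫ σ in (1 / 2 : ℝ)..s.re, (kap ψ₁ D (s - (σ + t * I))).im| ≤
            (mz s : ℝ) * (C2 / δ ^ 2 * (Real.exp (2 * δ * (L * |s.re - 1 / 2|)) / (1 + L * |s.im - t|) ^ 2)) :=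
            mul_le_mul_of_nonneg_left h1 (Nat.cast_nonneg _)
        _ = _ := by rw [hLdef]; ring
    · positivity
  have t4 : |∫ σ in (1 / 2 : ℝ)..(3 / 2), ((∫ x in σ..(3 / 2), deriv riemannZeta ⟨x, U1⟩ / riemannZeta ⟨x, U1⟩ *
      kap ψ₁ D (((x - σ : ℝ) : ℂ) + (U1 - t : ℝ) * I)) - (∫ x in σ..(3 / 2), deriv riemannZeta ⟨x, U2⟩ / riemannZeta ⟨x, U2⟩ *
      kap ψ₁ D (((x - σ : ℝ) : ℂ) + (U2 - t : ℝ) * I))).re| ≤ 4096 * Cg * C3 := by
    have h1 := intervalIntegral.norm_integral_le_of_norm_le_const (a := 1 / 2) (b := 3 / 2)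
      (f := fun σ => ((∫ x in σ..(3 / 2), deriv riemannZeta ⟨x, U1⟩ / riemannZeta ⟨x, U1⟩ *
        kap ψ₁ D (((x - σ : ℝ) : ℂ) + (U1 - t : ℝ) * I)) - (∫ x in σ..(3 / 2), deriv riemannZeta ⟨x, U2⟩ / riemannZeta ⟨x, U2⟩ *
        kap ψ₁ D (((x - σ : ℝ) : ℂ) + (U2 - t : ℝ) * I))).re) (C := 4096 * Cg * C3) (fun σ hσ => ?_)
    · rw [Real.norm_eq_abs] at h1
      refine h1.trans (le_of_eq ?_)
      norm_num
    · rw [Set.uIoc_of_le (by norm_num)] at hσ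
      have a1 := VA.horiz (ψ₁ := ψ₁) (t := t) hC3 hCg.le hD1 hDT (by linarith) hk3 (c := U1) (V := t - T / 8 - 1)
        (by rw [abs_sub_comm, abs_of_pos (by linarith)]; linarith) (by linarith) (by linarith) hg1 hσ.1.le hσ.2
      have a2 := VA.horiz (ψ₁ := ψ₁) (t := t) hC3 hCg.le hD1 hDT (by linarith) hk3 (c := U2) (V := t + T / 8)
        (by rw [abs_of_pos (by linarith)]; linarith) (by linarith) (by linarith) hg2 hσ.1.le hσ.2
      refine (Complex.abs_re_le_norm _).trans ((norm_sub_le _ _).trans ?_)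
      linarith
  have hSS := SS_nonneg δ T t
  set A1 := ∫ y in U1..U2, (kap ψ₁ D (((y - t : ℝ) : ℂ) * I)).re * (ell ⟨3 / 2, y⟩).im with hA1
  set A2 := ∫ σ in (1 / 2 : ℝ)..(3 / 2), (∫ y in U1..U2, deriv riemannZeta ⟨3 / 2, y⟩ / riemannZeta ⟨3 / 2, y⟩ *
      kap ψ₁ D (((3 / 2 - σ : ℝ) : ℂ) + (y - t : ℝ) * I)).im with hA2
  set A3 := ∑ s ∈ Z, (H370.mult riemannZeta s : ℝ) * ∫ σ in (1 / 2 : ℝ)..s.re, (kap ψ₁ D (s - (σ + t * I))).im with hA3
  set A4 := ∫ σ in (1 / 2 : ℝ)..(3 / 2), ((∫ x in σ..(3 / 2), deriv riemannZeta ⟨x, U1⟩ / riemannZeta ⟨x, U1⟩ *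
      kap ψ₁ D (((x - σ : ℝ) : ℂ) + (U1 - t : ℝ) * I)) - (∫ x in σ..(3 / 2), deriv riemannZeta ⟨x, U2⟩ / riemannZeta ⟨x, U2⟩ *
      kap ψ₁ D (((x - σ : ℝ) : ℂ) + (U2 - t : ℝ) * I))).re with hA4
  have e1 : A1 - (A2 - A4 - 2 * Real.pi * A3) - (PC ψ₁ D t).im = A1 + (-A2 - (PC ψ₁ D t).im) + 2 * Real.pi * A3 + A4 := by ring
  rw [e1]
  have h3 : |2 * Real.pi * A3| ≤ 2 * Real.pi * (C2 / δ ^ 2 * SS δ T t) := by
    rw [abs_mul, abs_of_pos (by positivity : 0 < 2 * Real.pi)]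
    exact mul_le_mul_of_nonneg_left t3 (by positivity)
  have h4 : |A1 + (-A2 - (PC ψ₁ D t).im) + 2 * Real.pi * A3 + A4| ≤ |A1| + |-A2 - (PC ψ₁ D t).im| + |2 * Real.pi * A3| + |A4| :=
    (abs_add_le _ _).trans (add_le_add ((abs_add_le _ _).trans (add_le_add (abs_add_le _ _) le_rfl)) le_rfl)
  refine h4.trans ?_
  have h5 : |A1| + |-A2 - (PC ψ₁ D t).im| + |2 * Real.pi * A3| + |A4| ≤
      B0 + Cp + 2 * Real.pi * (C2 / δ ^ 2 * SS δ T t) + 4096 * Cg * C3 := by linarith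
  refine h5.trans ?_
  have p1 : 0 ≤ 2 * Real.pi * (C2 / δ ^ 2) := by positivity
  have p2 : 0 ≤ 4096 * Cg * C3 * SS δ T t := by positivity
  have p3 : 0 ≤ (B0 + Cp) * SS δ T t := by positivity
  nlinarith

end

end Pool.Agent.U761.SZ
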