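import Pool.Agent.Q97.UM.Base7

set_option autoImplicit false

/-!
U761.SZ: an inequality for convolutions with sums of point masses at pairwise coprime numbers (concentration under a resonator).
-/

namespace Pool.Agent.U761.SZ

open Finset
open Pool.Agent.Q97.UM

noncomputable section

/-- expansion of a weighted mean square -/
theorem quad (s : Finset ℕ) (w : ℕ → ℝ) (D : Finset ℕ) (c : ℕ → ℂ) (E : ℕ → ℕ → ℂ) (e : ℕ → ℂ) (μ : ℂ) :
    ((∑ n ∈ s, ‖∑ d ∈ D, c d * E d n - μ * e n‖ ^ 2 * w n : ℝ) : ℂ) =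
      ∑ d ∈ D, ∑ d' ∈ D, c d * (starRingEnd ℂ) (c d') * (∑ n ∈ s, E d n * (starRingEnd ℂ) (E d' n) * w n) -
      (starRingEnd ℂ) μ * ∑ d ∈ D, c d * (∑ n ∈ s, E d n * (starRingEnd ℂ) (e n) * w n) -
      μ * ∑ d ∈ D, (starRingEnd ℂ) (c d) * (∑ n ∈ s, (starRingEnd ℂ) (E d n) * e n * w n) +
      μ * (starRingEnd ℂ) μ * ∑ n ∈ s, e n * (starRingEnd ℂ) (e n) * w n := by
  have h1 : ∀ n, ((‖∑ d ∈ D, c d * E d n - μ * e n‖ ^ 2 * w n : ℝ) : ℂ) =
      (∑ d ∈ D, ∑ d' ∈ D, c d * (starRingEnd ℂ) (c d') * (E d n * (starRingEnd ℂ) (E d' n) * w n)) -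
      (starRingEnd ℂ) μ * (∑ d ∈ D, c d * (E d n * (starRingEnd ℂ) (e n) * w n)) -
      μ * (∑ d ∈ D, (starRingEnd ℂ) (c d) * ((starRingEnd ℂ) (E d n) * e n * w n)) +
      μ * (starRingEnd ℂ) μ * (e n * (starRingEnd ℂ) (e n) * w n) := by
    intro n
    push_cast
    rw [← Complex.mul_conj', map_sub, map_sum, map_mul]
    have e1 : ∑ d ∈ D, ∑ d' ∈ D, c d * (starRingEnd ℂ) (c d') * (E d n * (starRingEnd ℂ) (E d' n) * w n) =
        (∑ d ∈ D, c d * E d n) * (∑ d ∈ D, (starRingEnd ℂ) (c d * E d n)) * w n := by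
      rw [Finset.sum_mul_sum, Finset.sum_mul]
      refine sum_congr rfl fun d _ => ?_
      rw [Finset.sum_mul]
      refine sum_congr rfl fun d' _ => ?_
      rw [map_mul]
      ring
    have e2 : ∑ d ∈ D, c d * (E d n * (starRingEnd ℂ) (e n) * w n) = (∑ d ∈ D, c d * E d n) * ((starRingEnd ℂ) (e n) * w n) := by
      rw [Finset.sum_mul]
      exact sum_congr rfl fun d _ => by ring
    have e3 : ∑ d ∈ D, (starRingEnd ℂ) (c d) * ((starRingEnd ℂ) (E d n) * e n * w n) =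
        (∑ d ∈ D, (starRingEnd ℂ) (c d * E d n)) * (e n * w n) := by
      rw [Finset.sum_mul]
      exact sum_congr rfl fun d _ => by rw [map_mul]; ring
    rw [e1, e2, e3]
    ring
  rw [Complex.ofReal_sum]
  simp only [h1]
  rw [sum_add_distrib, sum_sub_distrib, sum_sub_distrib, ← mul_sum, ← mul_sum, ← mul_sum]
  congr 1
  congr 1
  · congr 1
    · rw [sum_comm]
      refine sum_congr rfl fun d _ => ?_
      rw [sum_comm]
      refine sum_congr rfl fun d' _ => ?_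
      rw [mul_sum]
    · congr 1
      rw [sum_comm]
      refine sum_congr rfl fun d _ => ?_
      rw [mul_sum]
  · congr 1
    rw [sum_comm]
    refine sum_congr rfl fun d _ => ?_
    rw [mul_sum]

/-- sums over multiples -/
theorem sum_mult {M N d : ℕ} (hd : 1 ≤ d) (hM : d * N ≤ M) (f : ℕ → ℂ) (hf : ∀ n, f n ≠ 0 → ∃ m, n = d * m ∧ m ≤ N) :
    ∑ n ∈ Icc 1 M, f n = ∑ m ∈ Icc 1 N, f (d * m) := by
  classical
  have h1 : ∑ m ∈ Icc 1 N, f (d * m) = ∑ n ∈ (Icc 1 N).image (fun m => d * m), f n := by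
    rw [sum_image]
    intro a _ b _ hab
    exact Nat.eq_of_mul_eq_mul_left hd hab
  rw [h1]
  symm
  refine sum_subset ?_ ?_
  · intro n hn
    rw [mem_image] at hn
    obtain ⟨m, hm, rfl⟩ := hn
    rw [mem_Icc] at hm ⊢
    exact ⟨Nat.mul_pos hd hm.1, (Nat.mul_le_mul_left d hm.2).trans hM⟩
  · intro n hn hn'
    by_contra h0
    obtain ⟨m, rfl, hm⟩ := hf n h0
    rw [mem_Icc] at hn
    apply hn'
    rw [mem_image]
    refine ⟨m, mem_Icc.2 ⟨?_, hm⟩, rfl⟩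
    rcases Nat.eq_zero_or_pos m with h | h
    · rw [h] at hn
      omega
    · exact h

open Classical in
/-- the convolution with the point mass at `d` -/
def Ed (e : ℕ → ℂ) (d n : ℕ) : ℂ := if d ∣ n then e (n / d) else 0

theorem Ed_mul {e : ℕ → ℂ} {d : ℕ} (hd : 1 ≤ d) (m : ℕ) : Ed e d (d * m) = e m := by
  unfold Ed
  rw [if_pos (dvd_mul_right d m), Nat.mul_div_cancel_left m hd]

theorem Ed_ne {e : ℕ → ℂ} {d n N : ℕ} (he : ∀ n, e n ≠ 0 → 1 ≤ n ∧ n ≤ N) (h : Ed e d n ≠ 0) : ∃ m, n = d * m ∧ 1 ≤ m ∧ m ≤ N ∧ Ed e d n = e m := by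
  unfold Ed at h
  by_cases h1 : d ∣ n
  · rw [if_pos h1] at h
    obtain ⟨a, b⟩ := he _ h
    refine ⟨n / d, (Nat.mul_div_cancel' h1).symm, a, b, ?_⟩
    unfold Ed
    rw [if_pos h1]
  · rw [if_neg h1] at h
    exact absurd rfl h

/-- **the inequality** -/
theorem con_ineq {e c : ℕ → ℂ} {N M X : ℕ} {D : Finset ℕ} (he : ∀ n, e n ≠ 0 → 1 ≤ n ∧ n ≤ N) (hD1 : ∀ d ∈ D, 1 ≤ d)
    (hDX : ∀ d ∈ D, d ≤ X) (hX : 1 ≤ X) (hco : ∀ d ∈ D, ∀ d' ∈ D, d ≠ d' → Nat.Coprime d d') (hM : X * N ≤ M) (μ : ℂ) :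
    ∑ n ∈ Icc 1 M, ‖∑ d ∈ D, c d * Ed e d n - μ * e n‖ ^ 2 * (1 / (n : ℝ)) ≤
      (∑ d ∈ D, ‖c d‖ ^ 2 / d) * N2 N e +
        ∑ m ∈ Icc 1 N, ‖∑ d ∈ D, ((starRingEnd ℂ) (c d) / d) * e (d * m) - (starRingEnd ℂ) μ * e m‖ ^ 2 * (1 / (m : ℝ)) := by
  have h1 := quad (Icc 1 M) (fun n => 1 / (n : ℝ)) D c (Ed e) e μ
  have h2 := quad (Icc 1 N) (fun n => 1 / (n : ℝ)) D (fun d => (starRingEnd ℂ) (c d) / d) (fun d m => e (d * m)) e ((starRingEnd ℂ) μ)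
  -- the inner products
  have hNM : N ≤ M := le_trans (Nat.le_mul_of_pos_left N hX) hM
  obtain ⟨F, hF⟩ : ∃ F : ℕ → ℕ → ℂ, F = fun d d' => ∑ m ∈ Icc 1 N, e (d * m) * (starRingEnd ℂ) (e (d' * m)) * ((1 / (m : ℝ) : ℝ) : ℂ) := ⟨_, rfl⟩
  obtain ⟨F1, hF1⟩ : ∃ F1 : ℕ → ℂ, F1 = fun d => ∑ m ∈ Icc 1 N, e (d * m) * (starRingEnd ℂ) (e m) * ((1 / (m : ℝ) : ℝ) : ℂ) := ⟨_, rfl⟩
  obtain ⟨F2, hF2⟩ : ∃ F2 : ℕ → ℂ, F2 = fun d => ∑ m ∈ Icc 1 N, (starRingEnd ℂ) (e (d * m)) * e m * ((1 / (m : ℝ) : ℝ) : ℂ) := ⟨_, rfl⟩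
  obtain ⟨S, hS⟩ : ∃ S : ℂ, S = ∑ m ∈ Icc 1 N, e m * (starRingEnd ℂ) (e m) * ((1 / (m : ℝ) : ℝ) : ℂ) := ⟨_, rfl⟩
  have hSN : S = (N2 N e : ℂ) := by
    rw [hS]
    unfold N2
    push_cast
    refine sum_congr rfl fun m _ => ?_
    rw [Complex.mul_conj']
    ring
  have hSM : ∑ n ∈ Icc 1 M, e n * (starRingEnd ℂ) (e n) * ((1 / (n : ℝ) : ℝ) : ℂ) = S := by
    rw [hS]
    symm
    refine sum_subset (Icc_subset_Icc_right hNM) fun n hn hn' => ?_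
    have : e n = 0 := by
      by_contra h0
      exact hn' (mem_Icc.2 (he n h0))
    rw [this]
    simp
  have hdiag : ∀ d ∈ D, ∑ n ∈ Icc 1 M, Ed e d n * (starRingEnd ℂ) (Ed e d n) * ((1 / (n : ℝ) : ℝ) : ℂ) = S / d := by
    intro d hd
    have hd0 : (d : ℂ) ≠ 0 := by exact_mod_cast (by have := hD1 d hd; omega : d ≠ 0)
    rw [sum_mult (d := d) (N := N) (hD1 d hd) ((Nat.mul_le_mul_right N (hDX d hd)).trans hM) _ (fun n hn => ?_), hS, sum_div]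
    · refine sum_congr rfl fun m _ => ?_
      rw [Ed_mul (hD1 d hd)]
      push_cast
      by_cases hm : (m : ℂ) = 0
      · rw [hm]; simp
      · field_simp
    · obtain ⟨m, hm, _, hm2, _⟩ := Ed_ne he (left_ne_zero_of_mul (left_ne_zero_of_mul hn))
      exact ⟨m, hm, hm2⟩
  have hoff : ∀ d ∈ D, ∀ d' ∈ D, d ≠ d' → ∑ n ∈ Icc 1 M, Ed e d n * (starRingEnd ℂ) (Ed e d' n) * ((1 / (n : ℝ) : ℝ) : ℂ) =
      F d' d / (d * d') := by
    intro d hd d' hd' hne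
    have hd0 : (d : ℂ) ≠ 0 := by exact_mod_cast (by have := hD1 d hd; omega : d ≠ 0)
    have hd0' : (d' : ℂ) ≠ 0 := by exact_mod_cast (by have := hD1 d' hd'; omega : d' ≠ 0)
    have hcop := hco d hd d' hd' hne
    have hdd : 1 ≤ d * d' := Nat.mul_pos (hD1 d hd) (hD1 d' hd')
    -- first the multiples of `d`
    rw [sum_mult (d := d) (N := N) (hD1 d hd) ((Nat.mul_le_mul_right N (hDX d hd)).trans hM) _ (fun n hn => ?_)]
    · -- then the multiples of `d'`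
      have h3 : ∑ m ∈ Icc 1 N, Ed e d (d * m) * (starRingEnd ℂ) (Ed e d' (d * m)) * ((1 / ((d * m : ℕ) : ℝ) : ℝ) : ℂ) =
          ∑ m ∈ Icc 1 N, e (d' * m) * (starRingEnd ℂ) (e (d * m)) * ((1 / ((d * (d' * m) : ℕ) : ℝ) : ℝ) : ℂ) := by
        have h4 : ∑ m ∈ Icc 1 (d' * N), Ed e d (d * m) * (starRingEnd ℂ) (Ed e d' (d * m)) * ((1 / ((d * m : ℕ) : ℝ) : ℝ) : ℂ) =
            ∑ m ∈ Icc 1 N, Ed e d (d * m) * (starRingEnd ℂ) (Ed e d' (d * m)) * ((1 / ((d * m : ℕ) : ℝ) : ℝ) : ℂ) := by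
          symm
          refine sum_subset (Icc_subset_Icc_right (Nat.le_mul_of_pos_left N (hD1 d' hd'))) fun m hm hm' => ?_
          have : e m = 0 := by
            by_contra h0
            exact hm' (mem_Icc.2 (he m h0))
          rw [Ed_mul (hD1 d hd), this]
          simp
        rw [← h4, sum_mult (d := d') (N := N) (hD1 d' hd') le_rfl _ (fun m hm => ?_)]
        · refine sum_congr rfl fun m _ => ?_
          rw [Ed_mul (hD1 d hd)]
          have e1 : d * (d' * m) = d' * (d * m) := by ring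
          rw [e1, Ed_mul (hD1 d' hd')]
        · have h5 : Ed e d' (d * m) ≠ 0 := by
            intro h6
            apply hm
            rw [h6]
            simp
          obtain ⟨l, hl1, -, hl2, -⟩ := Ed_ne he h5
          have h6 : d' ∣ m := (Nat.Coprime.symm hcop).dvd_of_dvd_mul_left ⟨l, hl1⟩
          obtain ⟨k, hk⟩ := h6
          refine ⟨k, hk, ?_⟩
          have h7 : l = d * k := by
            rw [hk] at hl1
            have : d' * l = d' * (d * k) := by rw [← hl1]; ring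
            exact Nat.eq_of_mul_eq_mul_left (hD1 d' hd') this
          calc k ≤ d * k := Nat.le_mul_of_pos_left k (hD1 d hd)
            _ = l := h7.symm
            _ ≤ N := hl2
      rw [h3, hF]
      simp only
      rw [sum_div]
      refine sum_congr rfl fun m _ => ?_
      push_cast
      by_cases hm : (m : ℂ) = 0
      · rw [hm]; simp
      · field_simp
    · obtain ⟨m, hm, _, hm2, _⟩ := Ed_ne he (left_ne_zero_of_mul (left_ne_zero_of_mul hn))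
      exact ⟨m, hm, hm2⟩
  have hcr1 : ∀ d ∈ D, ∑ n ∈ Icc 1 M, Ed e d n * (starRingEnd ℂ) (e n) * ((1 / (n : ℝ) : ℝ) : ℂ) = F2 d / d := by
    intro d hd
    have hd0 : (d : ℂ) ≠ 0 := by exact_mod_cast (by have := hD1 d hd; omega : d ≠ 0)
    rw [sum_mult (d := d) (N := N) (hD1 d hd) ((Nat.mul_le_mul_right N (hDX d hd)).trans hM) _ (fun n hn => ?_), hF2]
    · simp only
      rw [sum_div]
      refine sum_congr rfl fun m _ => ?_
      rw [Ed_mul (hD1 d hd)]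
      push_cast
      by_cases hm : (m : ℂ) = 0
      · rw [hm]; simp
      · field_simp
    · obtain ⟨m, hm, _, hm2, _⟩ := Ed_ne he (left_ne_zero_of_mul (left_ne_zero_of_mul hn))
      exact ⟨m, hm, hm2⟩
  have hcr2 : ∀ d ∈ D, ∑ n ∈ Icc 1 M, (starRingEnd ℂ) (Ed e d n) * e n * ((1 / (n : ℝ) : ℝ) : ℂ) = F1 d / d := by
    intro d hd
    have hd0 : (d : ℂ) ≠ 0 := by exact_mod_cast (by have := hD1 d hd; omega : d ≠ 0)
    rw [sum_mult (d := d) (N := N) (hD1 d hd) ((Nat.mul_le_mul_right N (hDX d hd)).trans hM) _ (fun n hn => ?_), hF1]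
    · simp only
      rw [sum_div]
      refine sum_congr rfl fun m _ => ?_
      rw [Ed_mul (hD1 d hd)]
      push_cast
      by_cases hm : (m : ℂ) = 0
      · rw [hm]; simp
      · field_simp
    · have h5 : Ed e d n ≠ 0 := by
        intro h6
        apply hn
        rw [h6]
        simp
      obtain ⟨m, hm, _, hm2, _⟩ := Ed_ne he h5
      exact ⟨m, hm, hm2⟩
  -- the double sum
  have hdbl : ∑ d ∈ D, ∑ d' ∈ D, c d * (starRingEnd ℂ) (c d') * (∑ n ∈ Icc 1 M, Ed e d n * (starRingEnd ℂ) (Ed e d' n) * ((1 / (n : ℝ) : ℝ) : ℂ)) =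
      ∑ d ∈ D, ∑ d' ∈ D, ((starRingEnd ℂ) (c d) / d) * (starRingEnd ℂ) ((starRingEnd ℂ) (c d') / d') * F d d' +
      ∑ d ∈ D, (c d * (starRingEnd ℂ) (c d) * (S / d) - c d * (starRingEnd ℂ) (c d) * (F d d / (d * d))) := by
    have e1 : ∑ d ∈ D, ∑ d' ∈ D, ((starRingEnd ℂ) (c d) / d) * (starRingEnd ℂ) ((starRingEnd ℂ) (c d') / d') * F d d' =
        ∑ d ∈ D, ∑ d' ∈ D, c d * (starRingEnd ℂ) (c d') * (F d' d / (d * d')) := by
      rw [sum_comm]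
      refine sum_congr rfl fun d _ => sum_congr rfl fun d' _ => ?_
      rw [map_div₀, Complex.conj_conj, map_natCast]
      ring
    rw [e1, ← sum_add_distrib]
    refine sum_congr rfl fun d hd => ?_
    rw [← Finset.add_sum_erase D _ hd, ← Finset.add_sum_erase D (fun d' => c d * (starRingEnd ℂ) (c d') * (F d' d / (d * d'))) hd,
      hdiag d hd]
    have e2 : ∑ d' ∈ D.erase d, c d * (starRingEnd ℂ) (c d') * (∑ n ∈ Icc 1 M, Ed e d n * (starRingEnd ℂ) (Ed e d' n) * ((1 / (n : ℝ) : ℝ) : ℂ)) =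
        ∑ d' ∈ D.erase d, c d * (starRingEnd ℂ) (c d') * (F d' d / (d * d')) := by
      refine sum_congr rfl fun d' hd' => ?_
      rw [hoff d hd d' (mem_of_mem_erase hd') (ne_of_mem_erase hd').symm]
    rw [e2]
    ring
  -- the comparison
  have hFdd : ∀ d, F d d = ((∑ m ∈ Icc 1 N, ‖e (d * m)‖ ^ 2 * (1 / (m : ℝ)) : ℝ) : ℂ) := by
    intro d
    rw [hF]
    simp only
    push_cast
    refine sum_congr rfl fun m _ => ?_
    rw [Complex.mul_conj']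
  have hfin : ((∑ n ∈ Icc 1 M, ‖∑ d ∈ D, c d * Ed e d n - μ * e n‖ ^ 2 * (1 / (n : ℝ)) : ℝ) : ℂ) =
      (((∑ d ∈ D, ‖c d‖ ^ 2 / d) * N2 N e +
        ∑ m ∈ Icc 1 N, ‖∑ d ∈ D, ((starRingEnd ℂ) (c d) / d) * e (d * m) - (starRingEnd ℂ) μ * e m‖ ^ 2 * (1 / (m : ℝ)) -
        ∑ d ∈ D, ‖c d‖ ^ 2 * ((∑ m ∈ Icc 1 N, ‖e (d * m)‖ ^ 2 * (1 / (m : ℝ))) / (d * d)) : ℝ) : ℂ) := by
    rw [Complex.ofReal_sub, Complex.ofReal_add, h1, h2]
    rw [hdbl, hSM, sum_congr rfl (fun d hd => by rw [hcr1 d hd] : ∀ d ∈ D, c d * (∑ n ∈ Icc 1 M, Ed e d n * (starRingEnd ℂ) (e n) * ((1 / (n : ℝ) : ℝ) : ℂ)) = c d * (F2 d / d)),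
      sum_congr rfl (fun d hd => by rw [hcr2 d hd] : ∀ d ∈ D, (starRingEnd ℂ) (c d) * (∑ n ∈ Icc 1 M, (starRingEnd ℂ) (Ed e d n) * e n * ((1 / (n : ℝ) : ℝ) : ℂ)) = (starRingEnd ℂ) (c d) * (F1 d / d))]
    have g1 : ∑ d ∈ D, ∑ d' ∈ D, (starRingEnd ℂ) (c d) / d * (starRingEnd ℂ) ((starRingEnd ℂ) (c d') / d') *
        ∑ n ∈ Icc 1 N, e (d * n) * (starRingEnd ℂ) (e (d' * n)) * ((1 / (n : ℝ) : ℝ) : ℂ) =
        ∑ d ∈ D, ∑ d' ∈ D, (starRingEnd ℂ) (c d) / d * (starRingEnd ℂ) ((starRingEnd ℂ) (c d') / d') * F d d' := by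
      rw [hF]
    have g2 : ∑ d ∈ D, (starRingEnd ℂ) (c d) / d * ∑ n ∈ Icc 1 N, e (d * n) * (starRingEnd ℂ) (e n) * ((1 / (n : ℝ) : ℝ) : ℂ) =
        ∑ d ∈ D, (starRingEnd ℂ) (c d) * (F1 d / d) := by
      rw [hF1]
      refine sum_congr rfl fun d _ => ?_
      ring
    have g3 : ∑ d ∈ D, (starRingEnd ℂ) ((starRingEnd ℂ) (c d) / d) * ∑ n ∈ Icc 1 N, (starRingEnd ℂ) (e (d * n)) * e n * ((1 / (n : ℝ) : ℝ) : ℂ) =
        ∑ d ∈ D, c d * (F2 d / d) := by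
      rw [hF2]
      refine sum_congr rfl fun d _ => ?_
      rw [map_div₀, Complex.conj_conj, map_natCast]
      ring
    have g4 : ∑ n ∈ Icc 1 N, e n * (starRingEnd ℂ) (e n) * ((1 / (n : ℝ) : ℝ) : ℂ) = S := hS.symm
    rw [g1, g2, g3, g4]
    have g5 : (((∑ d ∈ D, ‖c d‖ ^ 2 / d) * N2 N e : ℝ) : ℂ) = ∑ d ∈ D, c d * (starRingEnd ℂ) (c d) * (S / d) := by
      rw [hSN]
      push_cast
      rw [sum_mul]
      refine sum_congr rfl fun d _ => ?_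
      rw [Complex.mul_conj']
      ring
    have g6 : ((∑ d ∈ D, ‖c d‖ ^ 2 * ((∑ m ∈ Icc 1 N, ‖e (d * m)‖ ^ 2 * (1 / (m : ℝ))) / (d * d)) : ℝ) : ℂ) =
        ∑ d ∈ D, c d * (starRingEnd ℂ) (c d) * (F d d / (d * d)) := by
      rw [Complex.ofReal_sum]
      refine sum_congr rfl fun d _ => ?_
      rw [hFdd, Complex.mul_conj']
      push_cast
      ring
    rw [g5, g6, sum_sub_distrib, Complex.conj_conj]
    ring
  have hreal := Complex.ofReal_injective hfin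
  rw [hreal]
  have hnn : 0 ≤ ∑ d ∈ D, ‖c d‖ ^ 2 * ((∑ m ∈ Icc 1 N, ‖e (d * m)‖ ^ 2 * (1 / (m : ℝ))) / (d * d)) :=
    sum_nonneg fun d _ => by positivity
  linarith

end

end Pool.Agent.U761.SZ
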