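import Mathlib

set_option autoImplicit false

/-! U761.SZ: the comparison of a function with its kernel average. -/

namespace Pool.Agent.U761.SZ

open MeasureTheory Set Filter

theorem core2 {κ W : ℝ → ℝ} {c M B E E0 a b K₃ Wt : ℝ} {A : Finset ℂ} {m : ℂ → ℝ} {φ : ℂ → ℝ → ℝ} {R : ℂ → ℝ}
    (h0 : ∀ y, 0 ≤ κ y) (hi : Integrable κ) (h1 : ∫ y, κ y = 1)
    (hc : ∀ y, 1 / 8 ≤ |y| → κ y ≤ c / (1 + |y|) ^ 4) (hc0 : 0 ≤ c)
    (hM : Integrable (fun y => κ y * |y|)) (hM' : ∫ y, κ y * |y| ≤ M)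
    (ha : a ≤ -(1 / 8)) (hb : 1 / 8 ≤ b)
    (hWi : IntervalIntegrable (fun y => κ y * W y) volume a b)
    (hW0 : |W 0| ≤ B) (hWb : ∀ᵐ y : ℝ, y ∈ Ioc a b → |W y| ≤ B)
    (hE : 0 ≤ E) (hE0 : 0 ≤ E0)
    (hm : ∀ s ∈ A, 0 ≤ m s) (hWt : ∑ s ∈ A, m s ≤ Wt)
    (hφm : ∀ s ∈ A, Measurable (φ s)) (hφ : ∀ s ∈ A, ∀ y, |φ s y| ≤ Real.pi)
    (hR : ∀ s ∈ A, |∫ y, κ y * (φ s 0 - φ s y)| ≤ R s)
    (hloc : ∀ᵐ y : ℝ, |y| ≤ 1 / 8 → |W 0 - W y - ∑ s ∈ A, m s * (φ s 0 - φ s y)| ≤ E * |y| + E0)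
    (h4i : Integrable fun y : ℝ => 1 / (1 + |y|) ^ 4) (hK₃ : ∫ y : ℝ, 1 / (1 + |y|) ^ 4 ≤ K₃) :
    |W 0 - ∫ y in a..b, κ y * W y| ≤ E * M + E0 + (2 * B + 2 * Real.pi * Wt) * c * K₃ + ∑ s ∈ A, m s * R s := by
  have hpi := Real.pi_pos
  have hB : 0 ≤ B := (abs_nonneg _).trans hW0
  have hWt0 : 0 ≤ Wt := (Finset.sum_nonneg hm).trans hWt
  have hab : a ≤ b := by linarith
  set G : ℝ → ℝ := (Ioc a b).indicator (fun y => κ y * W y) with hG
  have hGi : Integrable G := by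
    rw [hG, integrable_indicator_iff measurableSet_Ioc]
    exact (intervalIntegrable_iff_integrableOn_Ioc_of_le hab).1 hWi
  have eG : ∫ y in a..b, κ y * W y = ∫ y, G y := by
    rw [intervalIntegral.integral_of_le hab, hG, integral_indicator measurableSet_Ioc]
  have hφi : ∀ s ∈ A, Integrable fun y => κ y * (φ s 0 - φ s y) := by
    intro s hs
    refine (hi.norm.const_mul (2 * Real.pi)).mono' ?_ (Eventually.of_forall fun y => ?_)
    · exact hi.aestronglyMeasurable.mul ((measurable_const.sub (hφm s hs)).aestronglyMeasurable)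
    · rw [norm_mul, mul_comm]
      refine mul_le_mul_of_nonneg_right ?_ (norm_nonneg _)
      rw [Real.norm_eq_abs]
      refine (abs_sub _ _).trans ?_
      have q1 := hφ s hs 0
      have q2 := hφ s hs y
      linarith
  have hsi : Integrable fun y => ∑ s ∈ A, m s * (κ y * (φ s 0 - φ s y)) :=
    integrable_finsetSum _ fun s hs => (hφi s hs).const_mul _
  have hsI : ∫ y, ∑ s ∈ A, m s * (κ y * (φ s 0 - φ s y)) = ∑ s ∈ A, m s * ∫ y, κ y * (φ s 0 - φ s y) := by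
    rw [integral_finsetSum _ fun s hs => (hφi s hs).const_mul _]
    exact Finset.sum_congr rfl fun s _ => integral_const_mul _ _
  have hW0i : Integrable fun y => κ y * W 0 := hi.mul_const _
  set g : ℝ → ℝ := fun y => (E * (κ y * |y|) + E0 * κ y) + (2 * B + 2 * Real.pi * Wt) * c * (1 / (1 + |y|) ^ 4) with hg
  have hgi : Integrable g := ((hM.const_mul E).add (hi.const_mul E0)).add (h4i.const_mul _)
  have hpt : ∀ᵐ y : ℝ, ‖κ y * W 0 - G y - ∑ s ∈ A, m s * (κ y * (φ s 0 - φ s y))‖ ≤ g y := by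
    have hne : ∀ᵐ y : ℝ, y ≠ a := Measure.ae_ne volume a
    filter_upwards [hWb, hloc, hne] with y hy1 hy2 hy3
    have hk := h0 y
    have hsum : ∑ s ∈ A, m s * (κ y * (φ s 0 - φ s y)) = κ y * ∑ s ∈ A, m s * (φ s 0 - φ s y) := by
      rw [Finset.mul_sum]
      exact Finset.sum_congr rfl fun s _ => by ring
    rw [hsum, Real.norm_eq_abs]
    have hpos4 : 0 ≤ (2 * B + 2 * Real.pi * Wt) * c * (1 / (1 + |y|) ^ 4) := by positivity
    by_cases h8 : |y| ≤ 1 / 8
    · have hmem : y ∈ Ioc a b := by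
        rw [abs_le] at h8
        exact ⟨lt_of_le_of_ne (by linarith [h8.1]) (Ne.symm hy3), by linarith [h8.2]⟩
      have eg : G y = κ y * W y := by rw [hG, indicator_of_mem hmem]
      rw [eg]
      have e : κ y * W 0 - κ y * W y - κ y * ∑ s ∈ A, m s * (φ s 0 - φ s y) =
          κ y * (W 0 - W y - ∑ s ∈ A, m s * (φ s 0 - φ s y)) := by ring
      rw [e, abs_mul, abs_of_nonneg hk]
      have h2 := mul_le_mul_of_nonneg_left (hy2 h8) hk
      simp only [hg]
      calc _ ≤ κ y * (E * |y| + E0) := h2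
        _ = E * (κ y * |y|) + E0 * κ y := by ring
        _ ≤ _ := by linarith
    · push Not at h8
      have hGy : |G y| ≤ κ y * B := by
        by_cases hmem : y ∈ Ioc a b
        · rw [hG, indicator_of_mem hmem, abs_mul, abs_of_nonneg hk]
          exact mul_le_mul_of_nonneg_left (hy1 hmem) hk
        · rw [hG, indicator_of_notMem hmem, abs_zero]
          positivity
      have hsb : |∑ s ∈ A, m s * (φ s 0 - φ s y)| ≤ 2 * Real.pi * Wt := by
        calc |∑ s ∈ A, m s * (φ s 0 - φ s y)| ≤ ∑ s ∈ A, |m s * (φ s 0 - φ s y)| := Finset.abs_sum_le_sum_abs _ _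
          _ ≤ ∑ s ∈ A, m s * (2 * Real.pi) := by
              refine Finset.sum_le_sum fun s hs => ?_
              rw [abs_mul, abs_of_nonneg (hm s hs)]
              refine mul_le_mul_of_nonneg_left ?_ (hm s hs)
              refine (abs_sub _ _).trans ?_
              have q1 := hφ s hs 0
              have q2 := hφ s hs y
              linarith
          _ = 2 * Real.pi * ∑ s ∈ A, m s := by rw [← Finset.sum_mul]; ring
          _ ≤ _ := by gcongr
      have h3 : |κ y * W 0 - G y - κ y * ∑ s ∈ A, m s * (φ s 0 - φ s y)| ≤ κ y * (2 * B + 2 * Real.pi * Wt) := by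
        have a1 : |κ y * W 0| ≤ κ y * B := by
          rw [abs_mul, abs_of_nonneg hk]
          exact mul_le_mul_of_nonneg_left hW0 hk
        have a2 : |κ y * ∑ s ∈ A, m s * (φ s 0 - φ s y)| ≤ κ y * (2 * Real.pi * Wt) := by
          rw [abs_mul, abs_of_nonneg hk]
          exact mul_le_mul_of_nonneg_left hsb hk
        have a3 := abs_sub (κ y * W 0 - G y) (κ y * ∑ s ∈ A, m s * (φ s 0 - φ s y))
        have a4 := abs_sub (κ y * W 0) (G y)
        linarith
      have h4 := hc y h8.le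
      have h5 : 0 ≤ E * (κ y * |y|) + E0 * κ y := by positivity
      simp only [hg]
      calc _ ≤ κ y * (2 * B + 2 * Real.pi * Wt) := h3
        _ ≤ c / (1 + |y|) ^ 4 * (2 * B + 2 * Real.pi * Wt) := mul_le_mul_of_nonneg_right h4 (by positivity)
        _ = (2 * B + 2 * Real.pi * Wt) * c * (1 / (1 + |y|) ^ 4) := by ring
        _ ≤ _ := by linarith
  have hkey := norm_integral_le_of_norm_le hgi hpt
  have e1 : ∫ y, (κ y * W 0 - G y - ∑ s ∈ A, m s * (κ y * (φ s 0 - φ s y))) =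
      W 0 - (∫ y, G y) - ∑ s ∈ A, m s * ∫ y, κ y * (φ s 0 - φ s y) := by
    rw [integral_sub (f := fun y => κ y * W 0 - G y) (hW0i.sub hGi) hsi, integral_sub hW0i hGi, hsI, integral_mul_const, h1, one_mul]
  have e2 : ∫ y, g y = E * (∫ y, κ y * |y|) + E0 + (2 * B + 2 * Real.pi * Wt) * c * ∫ y : ℝ, 1 / (1 + |y|) ^ 4 := by
    have q1 : Integrable fun y => E * (κ y * |y|) + E0 * κ y := (hM.const_mul E).add (hi.const_mul E0)
    have q2 : Integrable fun y : ℝ => (2 * B + 2 * Real.pi * Wt) * c * (1 / (1 + |y|) ^ 4) := h4i.const_mul _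
    have q3 : ∫ y, g y = (∫ y, (E * (κ y * |y|) + E0 * κ y)) + ∫ y : ℝ, (2 * B + 2 * Real.pi * Wt) * c * (1 / (1 + |y|) ^ 4) :=
      integral_add q1 q2
    rw [q3, integral_add (hM.const_mul E) (hi.const_mul E0), integral_const_mul, integral_const_mul, integral_const_mul, h1,
      mul_one]
  rw [e1, e2, Real.norm_eq_abs] at hkey
  have hlast : |∑ s ∈ A, m s * ∫ y, κ y * (φ s 0 - φ s y)| ≤ ∑ s ∈ A, m s * R s := by
    refine (Finset.abs_sum_le_sum_abs _ _).trans (Finset.sum_le_sum fun s hs => ?_)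
    rw [abs_mul, abs_of_nonneg (hm s hs)]
    exact mul_le_mul_of_nonneg_left (hR s hs) (hm s hs)
  rw [eG]
  have k1 : E * (∫ y, κ y * |y|) ≤ E * M := mul_le_mul_of_nonneg_left hM' hE
  have k2 : (2 * B + 2 * Real.pi * Wt) * c * (∫ y : ℝ, 1 / (1 + |y|) ^ 4) ≤ (2 * B + 2 * Real.pi * Wt) * c * K₃ :=
    mul_le_mul_of_nonneg_left hK₃ (by positivity)
  have k3 : |W 0 - ∫ y, G y| ≤ |W 0 - (∫ y, G y) - ∑ s ∈ A, m s * ∫ y, κ y * (φ s 0 - φ s y)| +
      |∑ s ∈ A, m s * ∫ y, κ y * (φ s 0 - φ s y)| := by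
    have := abs_add_le (W 0 - (∫ y, G y) - ∑ s ∈ A, m s * ∫ y, κ y * (φ s 0 - φ s y)) (∑ s ∈ A, m s * ∫ y, κ y * (φ s 0 - φ s y))
    rwa [sub_add_cancel] at this
  linarith

end Pool.Agent.U761.SZ
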