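import Mathlib

set_option autoImplicit false

/-! U761.SZ: the kernel average of an arctangent (the contribution of one zero to the argument). -/

namespace Pool.Agent.U761.SZ

open MeasureTheory Set Filter

theorem hd_at {V x : ℝ} (hx : x ≠ 0) : HasDerivAt (fun x : ℝ => Real.arctan (V / x)) (-V / (x ^ 2 + V ^ 2)) x := by
  have h1 : HasDerivAt (fun x : ℝ => V / x) (V * (-(x ^ 2)⁻¹)) x := by
    simpa [div_eq_mul_inv] using (hasDerivAt_inv hx).const_mul V
  have h2 := h1.arctan
  convert h2 using 1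
  have h3 : 0 < x ^ 2 := by positivity
  have h4 : 0 < x ^ 2 + V ^ 2 := by positivity
  have h5 : 1 + (V / x) ^ 2 ≠ 0 := by positivity
  field_simp

/-- the second difference of `x ↦ arctan (V / x)` -/
theorem sd {V U z : ℝ} (hU : U ≠ 0) (hz : |z| ≤ |U| / 2) :
    |Real.arctan (V / (U + z)) + Real.arctan (V / (U - z)) - 2 * Real.arctan (V / U)| ≤ 16 * z ^ 2 / U ^ 2 := by
  have hU0 : 0 < |U| := abs_pos.2 hU
  have hU2 : 0 < U ^ 2 := by positivity
  set ψ : ℝ → ℝ := fun s => Real.arctan (V / (U + s)) + Real.arctan (V / (U - s)) - 2 * Real.arctan (V / U) with hψ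
  have hne : ∀ s ∈ Icc (-|z|) |z|, |U| / 2 ≤ |U + s| ∧ |U| / 2 ≤ |U - s| := by
    intro s hs
    have h1 : |s| ≤ |U| / 2 := (abs_le.2 ⟨hs.1, hs.2⟩).trans hz
    constructor
    · have := abs_sub_abs_le_abs_sub U (-s)
      rw [abs_neg, sub_neg_eq_add] at this
      linarith
    · have := abs_sub_abs_le_abs_sub U s
      linarith
  have hder : ∀ s ∈ Icc (-|z|) |z|, HasDerivWithinAt ψ (-V / ((U + s) ^ 2 + V ^ 2) + V / ((U - s) ^ 2 + V ^ 2))
      (Icc (-|z|) |z|) s := by
    intro s hs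
    obtain ⟨h1, h2⟩ := hne s hs
    have h1' : U + s ≠ 0 := fun h => by rw [h, abs_zero] at h1; linarith
    have h2' : U - s ≠ 0 := fun h => by rw [h, abs_zero] at h2; linarith
    have k1 : HasDerivAt (fun s : ℝ => Real.arctan (V / (U + s))) (-V / ((U + s) ^ 2 + V ^ 2)) s := by
      have := (hd_at (V := V) h1').comp_const_add U s
      exact this
    have k2 : HasDerivAt (fun s : ℝ => Real.arctan (V / (U - s))) (V / ((U - s) ^ 2 + V ^ 2)) s := by
      have := (hd_at (V := V) h2').comp_const_sub U s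
      rw [neg_div, neg_neg] at this
      exact this
    exact ((k1.add k2).sub_const _).hasDerivWithinAt
  have hbd : ∀ s ∈ Icc (-|z|) |z|, ‖-V / ((U + s) ^ 2 + V ^ 2) + V / ((U - s) ^ 2 + V ^ 2)‖ ≤ 16 * |z| / U ^ 2 := by
    intro s hs
    obtain ⟨h1, h2⟩ := hne s hs
    have hs1 : |s| ≤ |z| := abs_le.2 ⟨hs.1, hs.2⟩
    have q1 : U ^ 2 / 4 ≤ (U + s) ^ 2 := by
      have := pow_le_pow_left₀ (by positivity) h1 2
      rw [sq_abs, div_pow, sq_abs] at this
      linarith
    have q2 : U ^ 2 / 4 ≤ (U - s) ^ 2 := by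
      have := pow_le_pow_left₀ (by positivity) h2 2
      rw [sq_abs, div_pow, sq_abs] at this
      linarith
    have p1 : 0 < (U + s) ^ 2 + V ^ 2 := by nlinarith [sq_nonneg V]
    have p2 : 0 < (U - s) ^ 2 + V ^ 2 := by nlinarith [sq_nonneg V]
    have e : -V / ((U + s) ^ 2 + V ^ 2) + V / ((U - s) ^ 2 + V ^ 2) =
        (4 * (V * U) * s) / (((U + s) ^ 2 + V ^ 2) * ((U - s) ^ 2 + V ^ 2)) := by
      field_simp
      ring
    rw [e, Real.norm_eq_abs, abs_div, abs_of_pos (mul_pos p1 p2), div_le_div_iff₀ (mul_pos p1 p2) hU2]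
    have h3 : |V * U| ≤ (U + s) ^ 2 + V ^ 2 := by
      have a1 : |V| * |U| ≤ |V| * (2 * |U + s|) := mul_le_mul_of_nonneg_left (by linarith) (abs_nonneg V)
      have a2 : 2 * |V| * |U + s| ≤ |V| ^ 2 + |U + s| ^ 2 := two_mul_le_add_sq _ _
      rw [sq_abs, sq_abs] at a2
      rw [abs_mul]
      linarith
    have h4 : |4 * (V * U) * s| ≤ 4 * ((U + s) ^ 2 + V ^ 2) * |z| := by
      rw [abs_mul, abs_mul, abs_of_pos (by norm_num : (0 : ℝ) < 4)]
      have : |V * U| * |s| ≤ ((U + s) ^ 2 + V ^ 2) * |z| := mul_le_mul h3 hs1 (abs_nonneg s) p1.le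
      linarith
    have h5 : U ^ 2 ≤ 4 * ((U - s) ^ 2 + V ^ 2) := by nlinarith [sq_nonneg V]
    calc |4 * (V * U) * s| * U ^ 2 ≤ (4 * ((U + s) ^ 2 + V ^ 2) * |z|) * (4 * ((U - s) ^ 2 + V ^ 2)) :=
          mul_le_mul h4 h5 hU2.le (by positivity)
      _ = 16 * |z| * (((U + s) ^ 2 + V ^ 2) * ((U - s) ^ 2 + V ^ 2)) := by ring
  have hmem0 : (0 : ℝ) ∈ Icc (-|z|) |z| := ⟨by simp, abs_nonneg z⟩
  have hmemz : z ∈ Icc (-|z|) |z| := ⟨neg_abs_le z, le_abs_self z⟩
  have key := (convex_Icc (-|z|) |z|).norm_image_sub_le_of_norm_hasDerivWithin_le hder hbd hmem0 hmemz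
  have e0 : ψ 0 = 0 := by
    simp only [hψ, add_zero, sub_zero]
    ring
  rw [e0, sub_zero, sub_zero, Real.norm_eq_abs, Real.norm_eq_abs] at key
  calc |ψ z| ≤ 16 * |z| / U ^ 2 * |z| := key
    _ = 16 * z ^ 2 / U ^ 2 := by
        rw [← sq_abs z]
        ring

theorem at_bd (x : ℝ) : |Real.arctan x| ≤ Real.pi / 2 :=
  abs_le.2 ⟨(Real.neg_pi_div_two_lt_arctan x).le, (Real.arctan_lt_pi_div_two x).le⟩

theorem at_meas (c u : ℝ) : Measurable fun y : ℝ => Real.arctan (c / (u + y)) := by fun_prop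

/-- integrability of the kernel average -/
theorem kar_int {k : ℝ → ℝ} (hi : Integrable k) (A c u : ℝ) :
    Integrable fun y : ℝ => k y * (A - Real.arctan (c / (u + y))) := by
  refine (hi.norm.const_mul (|A| + Real.pi / 2)).mono' ?_ (Eventually.of_forall fun y => ?_)
  · exact hi.aestronglyMeasurable.mul ((measurable_const.sub (at_meas c u)).aestronglyMeasurable)
  · rw [norm_mul, mul_comm]
    refine mul_le_mul_of_nonneg_right ?_ (norm_nonneg _)
    rw [Real.norm_eq_abs]
    refine (abs_sub _ _).trans ?_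
    have := at_bd (c / (u + y))
    linarith

theorem sq_int : Integrable fun z : ℝ => 1 / (1 + |z|) ^ 2 := by
  have h := integrable_one_add_norm (E := ℝ) (μ := volume) (r := 2) (by simp)
  refine h.congr (Eventually.of_forall fun z => ?_)
  simp only [Real.norm_eq_abs]
  rw [Real.rpow_neg (by positivity)]
  norm_cast
  rw [one_div]

theorem mom2 {k₀ : ℝ → ℝ} (hc : Continuous k₀) (h0 : ∀ x, 0 ≤ k₀ x) {C : ℝ} (hC : 0 ≤ C)
    (hb : ∀ x, k₀ x ≤ C / (1 + |x|) ^ 4) : Integrable fun z => k₀ z * z ^ 2 := by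
  refine (sq_int.const_mul C).mono' (by fun_prop) (Eventually.of_forall fun z => ?_)
  have hz := abs_nonneg z
  rw [Real.norm_eq_abs, abs_of_nonneg (mul_nonneg (h0 z) (sq_nonneg z))]
  have h1 : z ^ 2 ≤ (1 + |z|) ^ 2 := by
    rw [← sq_abs]
    exact pow_le_pow_left₀ hz (by linarith) 2
  calc k₀ z * z ^ 2 ≤ C / (1 + |z|) ^ 4 * (1 + |z|) ^ 2 := mul_le_mul (hb z) h1 (sq_nonneg z) (by positivity)
    _ = C * (1 / (1 + |z|) ^ 2) := by field_simp

/-- the contribution of one zero to the argument, uniformly in the second parameter -/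
theorem kar {k₀ : ℝ → ℝ} (hc : Continuous k₀) (h0 : ∀ x, 0 ≤ k₀ x) (hi : Integrable k₀) (h1 : ∫ x, k₀ x = 1)
    (hev : ∀ x, k₀ (-x) = k₀ x) {C : ℝ} (hC : 0 ≤ C) (hb : ∀ x, k₀ x ≤ C / (1 + |x|) ^ 4) :
    ∃ C' : ℝ, 0 ≤ C' ∧ ∀ D u c : ℝ, 0 < D → u ≠ 0 →
      |∫ y, D * k₀ (D * y) * (Real.arctan (c / u) - Real.arctan (c / (u + y)))| ≤ C' / (1 + D * |u|) ^ 2 := by
  have hpi := Real.pi_pos
  set M : ℝ := ∫ z, k₀ z * z ^ 2 with hM
  have hM0 : 0 ≤ M := integral_nonneg fun z => mul_nonneg (h0 z) (sq_nonneg z)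
  have hMi := mom2 hc h0 hC hb
  refine ⟨4 * Real.pi + 4 * ((16 + 8 * Real.pi) * M), by positivity, fun D u c hD hu => ?_⟩
  set U := D * u with hUd
  set V := D * c with hVd
  have hU : U ≠ 0 := mul_ne_zero hD.ne' hu
  have hUa : D * |u| = |U| := by rw [hUd, abs_mul, abs_of_pos hD]
  rw [hUa]
  -- substitution
  have e1 : (∫ y, D * k₀ (D * y) * (Real.arctan (c / u) - Real.arctan (c / (u + y)))) =
      ∫ z, k₀ z * (Real.arctan (V / U) - Real.arctan (V / (U + z))) := by
    have h2 := Measure.integral_comp_mul_left (fun z => k₀ z * (Real.arctan (V / U) - Real.arctan (V / (U + z)))) D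
    have h3 : (fun y => D * k₀ (D * y) * (Real.arctan (c / u) - Real.arctan (c / (u + y)))) =
        fun y => D * (k₀ (D * y) * (Real.arctan (V / U) - Real.arctan (V / (U + D * y)))) := by
      funext y
      have a1 : c / u = V / U := by
        rw [hVd, hUd, mul_div_mul_left _ _ hD.ne']
      have a2 : c / (u + y) = V / (U + D * y) := by
        rw [hVd, hUd, ← mul_add, mul_div_mul_left _ _ hD.ne']
      rw [a1, a2]
      ring
    rw [h3, integral_const_mul, h2, smul_eq_mul, abs_of_pos (inv_pos.2 hD), ← mul_assoc, mul_inv_cancel₀ hD.ne', one_mul]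
  rw [e1]
  have hfi := kar_int hi (Real.arctan (V / U)) V U
  by_cases hU1 : |U| ≤ 1
  · have h2 : |∫ z, k₀ z * (Real.arctan (V / U) - Real.arctan (V / (U + z)))| ≤ Real.pi := by
      have h3 : ‖∫ z, k₀ z * (Real.arctan (V / U) - Real.arctan (V / (U + z)))‖ ≤ ∫ z, k₀ z * Real.pi := by
        refine norm_integral_le_of_norm_le (hi.mul_const _) (Eventually.of_forall fun z => ?_)
        rw [norm_mul, Real.norm_eq_abs, Real.norm_eq_abs, abs_of_nonneg (h0 z)]
        refine mul_le_mul_of_nonneg_left ?_ (h0 z)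
        refine (abs_sub _ _).trans ?_
        have q1 := at_bd (V / U)
        have q2 := at_bd (V / (U + z))
        linarith
      rw [integral_mul_const, h1, one_mul, Real.norm_eq_abs] at h3
      exact h3
    refine h2.trans ?_
    have h3 : (1 + |U|) ^ 2 ≤ 4 := by nlinarith [abs_nonneg U]
    have h4 : 0 < (1 + |U|) ^ 2 := by positivity
    rw [le_div_iff₀ h4]
    have h5 : 0 ≤ 4 * ((16 + 8 * Real.pi) * M) := by positivity
    nlinarith
  · push Not at hU1
    -- symmetrise
    set f : ℝ → ℝ := fun z => k₀ z * (Real.arctan (V / U) - Real.arctan (V / (U + z))) with hf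
    have e2 : ∫ z, f z = ∫ z, f (-z) := (integral_neg_eq_self f volume).symm
    have hfi2 : Integrable fun z => f (-z) := hfi.comp_neg
    have e3 : ∫ z, f z = (1 / 2) * ∫ z, (f z + f (-z)) := by
      rw [integral_add hfi hfi2, ← e2]
      ring
    have hU2 : 0 < U ^ 2 := by positivity
    have h2 : ‖∫ z, (f z + f (-z))‖ ≤ ∫ z, (16 + 8 * Real.pi) / U ^ 2 * (k₀ z * z ^ 2) := by
      refine norm_integral_le_of_norm_le (hMi.const_mul _) (Eventually.of_forall fun z => ?_)
      have e4 : f z + f (-z) = -(k₀ z * (Real.arctan (V / (U + z)) + Real.arctan (V / (U - z)) - 2 * Real.arctan (V / U))) := by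
        simp only [hf]
        rw [hev z, ← sub_eq_add_neg U z]
        ring
      rw [e4, norm_neg, norm_mul, Real.norm_eq_abs, abs_of_nonneg (h0 z), Real.norm_eq_abs]
      have h3 : |Real.arctan (V / (U + z)) + Real.arctan (V / (U - z)) - 2 * Real.arctan (V / U)| ≤
          (16 + 8 * Real.pi) / U ^ 2 * z ^ 2 := by
        by_cases hz : |z| ≤ |U| / 2
        · refine (sd hU hz).trans ?_
          rw [div_mul_eq_mul_div]
          refine div_le_div_of_nonneg_right ?_ hU2.le
          nlinarith [sq_nonneg z]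
        · push Not at hz
          have q1 := at_bd (V / U)
          have q2 := at_bd (V / (U + z))
          have q3 := at_bd (V / (U - z))
          have q4 : |Real.arctan (V / (U + z)) + Real.arctan (V / (U - z)) - 2 * Real.arctan (V / U)| ≤ 2 * Real.pi := by
            rw [abs_le] at q1 q2 q3 ⊢
            constructor <;> linarith
          refine q4.trans ?_
          have h5 : U ^ 2 ≤ 4 * z ^ 2 := by
            have := pow_le_pow_left₀ (by positivity) hz.le 2
            rw [div_pow, sq_abs, sq_abs] at this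
            linarith
          rw [div_mul_eq_mul_div, le_div_iff₀ hU2]
          nlinarith [sq_nonneg z]
      calc k₀ z * |Real.arctan (V / (U + z)) + Real.arctan (V / (U - z)) - 2 * Real.arctan (V / U)| ≤
            k₀ z * ((16 + 8 * Real.pi) / U ^ 2 * z ^ 2) := mul_le_mul_of_nonneg_left h3 (h0 z)
        _ = _ := by ring
    rw [integral_const_mul, Real.norm_eq_abs] at h2
    rw [e3, abs_mul, abs_of_pos (by norm_num : (0 : ℝ) < 1 / 2)]
    have h6 : 1 / U ^ 2 ≤ 4 / (1 + |U|) ^ 2 := by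
      rw [div_le_div_iff₀ hU2 (by positivity), ← sq_abs U]
      nlinarith [abs_nonneg U]
    calc 1 / 2 * |∫ z, (f z + f (-z))| ≤ 1 / 2 * ((16 + 8 * Real.pi) / U ^ 2 * M) := by
          exact mul_le_mul_of_nonneg_left h2 (by norm_num)
      _ ≤ (16 + 8 * Real.pi) * M * (1 / U ^ 2) := by
          have : 0 ≤ (16 + 8 * Real.pi) * M * (1 / U ^ 2) := by positivity
          calc _ = (1 / 2) * ((16 + 8 * Real.pi) * M * (1 / U ^ 2)) := by ring
            _ ≤ _ := by linarith
      _ ≤ (16 + 8 * Real.pi) * M * (4 / (1 + |U|) ^ 2) := mul_le_mul_of_nonneg_left h6 (by positivity)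
      _ ≤ _ := by
          rw [← mul_div_assoc]
          refine div_le_div_of_nonneg_right ?_ (by positivity)
          nlinarith

end Pool.Agent.U761.SZ
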