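import Pool.Agent.Q149.UM.LOC
import Pool.Agent.U761.SZ.KAR

set_option autoImplicit false

/-!
U761.SZ: local expansion of the argument of zeta, without RH.
-/

namespace Pool.Agent.U761.SZ

open Pool.Agent.Q97.UM Pool.Agent.Q149.UM
open Complex Filter Metric Set MeasureTheory

noncomputable section

/-- the horizontal integral of the imaginary part of the logarithmic derivative -/
def AI (v : ℝ) : ℝ := ∫ x in (1 / 2 : ℝ)..(3 / 2), (deriv riemannZeta ⟨x, v⟩ / riemannZeta ⟨x, v⟩).im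

/-- the contribution of the zero `ρ` to the argument at the height `v` -/
def ph (ρ : ℂ) (v : ℝ) : ℝ := Real.arctan ((3 / 2 - ρ.re) / (v - ρ.im)) - Real.arctan ((1 / 2 - ρ.re) / (v - ρ.im))

theorem ph_bd (ρ : ℂ) (v : ℝ) : |ph ρ v| ≤ Real.pi := by
  unfold ph
  refine (abs_sub _ _).trans ?_
  have h1 := at_bd ((3 / 2 - ρ.re) / (v - ρ.im))
  have h2 := at_bd ((1 / 2 - ρ.re) / (v - ρ.im))
  linarith

theorem inv_im (ρ : ℂ) (x v : ℝ) : ((((⟨x, v⟩ : ℂ) - ρ))⁻¹).im = -((v - ρ.im) / ((v - ρ.im) ^ 2 + (x - ρ.re) ^ 2)) := by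
  rw [Complex.inv_im, Complex.normSq_apply]
  simp only [sub_re, sub_im]
  rw [neg_div]
  congr 2
  ring

theorem ph_int (ρ : ℂ) {v : ℝ} (hv : v ≠ ρ.im) :
    IntervalIntegrable (fun x : ℝ => ((((⟨x, v⟩ : ℂ) - ρ))⁻¹).im) volume (1 / 2) (3 / 2) ∧
    ∫ x in (1 / 2 : ℝ)..(3 / 2), ((((⟨x, v⟩ : ℂ) - ρ))⁻¹).im = -ph ρ v := by
  have hv0 : v - ρ.im ≠ 0 := sub_ne_zero.2 hv
  have hpos : ∀ x : ℝ, 0 < (v - ρ.im) ^ 2 + (x - ρ.re) ^ 2 := fun x => by positivity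
  have hder : ∀ x : ℝ, HasDerivAt (fun x : ℝ => Real.arctan ((x - ρ.re) / (v - ρ.im)))
      ((v - ρ.im) / ((v - ρ.im) ^ 2 + (x - ρ.re) ^ 2)) x := by
    intro x
    have h1 : HasDerivAt (fun x : ℝ => (x - ρ.re) / (v - ρ.im)) (1 / (v - ρ.im)) x :=
      ((hasDerivAt_id x).sub_const _).div_const _
    have h2 := h1.arctan
    convert h2 using 1
    have h3 := hpos x
    have h4 : 0 < 1 + ((x - ρ.re) / (v - ρ.im)) ^ 2 := by positivity
    field_simp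
  have hc : Continuous fun x : ℝ => (v - ρ.im) / ((v - ρ.im) ^ 2 + (x - ρ.re) ^ 2) := by
    refine continuous_const.div (by fun_prop) fun x => (hpos x).ne'
  have e : (fun x : ℝ => ((((⟨x, v⟩ : ℂ) - ρ))⁻¹).im) = fun x : ℝ => -((v - ρ.im) / ((v - ρ.im) ^ 2 + (x - ρ.re) ^ 2)) :=
    funext fun x => inv_im ρ x v
  rw [e]
  refine ⟨(hc.intervalIntegrable _ _).neg, ?_⟩
  rw [intervalIntegral.integral_neg, intervalIntegral.integral_eq_sub_of_hasDerivAt (fun x _ => hder x) (hc.intervalIntegrable _ _)]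
  rfl

theorem pt_mem2 {t x v : ℝ} (hx : x ∈ Icc (1 / 2 : ℝ) (3 / 2)) (h : |v - t| ≤ 1 / 8) :
    (⟨x, v⟩ : ℂ) ∈ closedBall (⟨2, t⟩ : ℂ) 1.6 := by
  rw [mem_closedBall, dist_eq_norm]
  have h1 : ‖(⟨x, v⟩ : ℂ) - ⟨2, t⟩‖ ^ 2 = (x - 2) ^ 2 + (v - t) ^ 2 := by
    rw [← Complex.normSq_eq_norm_sq, Complex.normSq_apply]
    simp
    ring
  have h2 : (v - t) ^ 2 ≤ 1 / 64 := by
    rw [← sq_abs]
    nlinarith [abs_nonneg (v - t)]
  have h3 : (x - 2) ^ 2 ≤ 9 / 4 := by nlinarith [hx.1, hx.2]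
  have h4 : ‖(⟨x, v⟩ : ℂ) - ⟨2, t⟩‖ ^ 2 ≤ 1.6 ^ 2 := by
    rw [h1]
    norm_num
    linarith
  exact le_of_sq_le_sq h4 (by norm_num)

/-- the local factorisation, with the logarithmic derivative -/
theorem loc_data2 : ∃ D : ℝ, 0 < D ∧ ∀ T t : ℝ, 100 ≤ T → T / 10 ≤ t → t ≤ 11 * T →
    ∃ (g : ℂ → ℂ) (S : Finset ℂ),
      (∀ ρ ∈ S, ρ ∈ ZD T ∧ ‖ρ - ⟨2, t⟩‖ ≤ 1.8) ∧ (∀ ρ ∈ ZD T, ‖ρ - ⟨2, t⟩‖ ≤ 1.8 → ρ ∈ S) ∧
      (∀ z ∈ closedBall (⟨2, t⟩ : ℂ) 1.6, g z ≠ 0 ∧ AnalyticAt ℂ g z ∧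
        ‖logDeriv g z‖ ≤ D * Real.log T) ∧
      (∀ z ∈ closedBall (⟨2, t⟩ : ℂ) 1.6, riemannZeta z ≠ 0 → deriv riemannZeta z / riemannZeta z =
        logDeriv g z + ∑ ρ ∈ S, (mz ρ : ℂ) * (z - ρ)⁻¹) := by
  classical
  obtain ⟨K, hK, hdata⟩ := H370.Loc.ball_data H370.good_zeta
  set q : ℝ := Real.log (1.9 / 1.8) with hq
  have hq0 : 0 < q := Real.log_pos (by norm_num)
  set ℓ : ℝ := Real.log (1.8 / (1.9 - 1.8)) with hℓ
  have hℓ0 : 0 < ℓ := Real.log_pos (by norm_num)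
  set D1 : ℝ := 2 * (K + K / q * ℓ + 1) * 1.7 / (1.8 - 1.7) / (1.7 - 1.6) with hD1
  have hD10 : 0 < D1 := by
    have : (0 : ℝ) < 1.8 - 1.7 := by norm_num
    have : (0 : ℝ) < 1.7 - 1.6 := by norm_num
    positivity
  refine ⟨2 * D1, by positivity, fun T t hT ht1 ht2 => ?_⟩
  have ht3 : 10 ≤ t := by linarith
  have hlt : 1 ≤ Real.log t := H370.Loc.one_le_log (by linarith)
  have hltT : Real.log t ≤ 2 * Real.log T := by
    have h6 : Real.log t ≤ Real.log (T ^ 2) := Real.log_le_log (by linarith) (by nlinarith)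
    rw [Real.log_pow] at h6
    exact_mod_cast h6
  obtain ⟨M, hM1, han, hF0, hb, hMc, hL0, hLM⟩ := hdata t (by linarith)
  obtain ⟨s, g, hs, hg, hfg, hg0, hlg⟩ := SP.LocAux.extract_bound (f := riemannZeta)
    (c := ⟨2, t⟩) (r := 1.8) (r1 := 1.7) (r2 := 1.6) (R := 1.9) (M := M) (by norm_num)
    (by norm_num) (by norm_num) (by norm_num) (by norm_num) hM1 hMc han hF0 hb
  have hlg' : ∀ z ∈ closedBall (⟨2, t⟩ : ℂ) 1.6, ‖logDeriv g z‖ ≤ 2 * D1 * Real.log T := by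
    intro z hz
    have hD1t : ‖logDeriv g z‖ ≤ D1 * Real.log t := by
      refine (hlg z hz).trans ?_
      set X := Real.log (M / ‖riemannZeta ⟨2, t⟩‖) with hX
      have h1 : X / q * ℓ ≤ K * Real.log t / q * ℓ := by gcongr
      have h2 : X + X / q * ℓ + 1 ≤ (K + K / q * ℓ + 1) * Real.log t := by
        have h3 : K * Real.log t / q * ℓ = K / q * ℓ * Real.log t := by ring
        rw [h3] at h1
        nlinarith
      have h4 : (0 : ℝ) < 1.8 - 1.7 := by norm_num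
      have h5 : (0 : ℝ) < 1.7 - 1.6 := by norm_num
      calc _ ≤ 2 * ((K + K / q * ℓ + 1) * Real.log t) * 1.7 / (1.8 - 1.7) / (1.7 - 1.6) := by
            gcongr
        _ = D1 * Real.log t := by rw [hD1]; ring
    have := mul_le_mul_of_nonneg_left hltT hD10.le
    linarith
  have hsub1 : closedBall (⟨2, t⟩ : ℂ) 1.6 ⊆ closedBall (⟨2, t⟩ : ℂ) 1.8 :=
    closedBall_subset_closedBall (by norm_num)
  have hsub2 : closedBall (⟨2, t⟩ : ℂ) 1.8 ⊆ closedBall (⟨2, t⟩ : ℂ) 1.9 :=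
    closedBall_subset_closedBall (by norm_num)
  have hmem : ∀ ρ ∈ s, ρ ∈ ZD T ∧ ‖ρ - ⟨2, t⟩‖ ≤ 1.8 := by
    intro ρ hρ
    obtain ⟨h1, h2⟩ := hs ρ hρ
    rw [mem_closedBall, dist_eq_norm] at h1
    have h3 := (Complex.abs_re_le_norm (ρ - ⟨2, t⟩)).trans h1
    have h4 := (Complex.abs_im_le_norm (ρ - ⟨2, t⟩)).trans h1
    simp only [sub_re, sub_im] at h3 h4
    rw [abs_le] at h3 h4
    have hre0 : 0 < ρ.re := by norm_num at h3 ⊢; linarith [h3.1]
    have him0 : t - 2 ≤ ρ.im := by norm_num at h4 ⊢; linarith [h4.1]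
    have him1 : ρ.im ≤ t + 2 := by norm_num at h4 ⊢; linarith [h4.2]
    have hre1 : ρ.re < 1 := by
      by_contra hcon
      push Not at hcon
      exact H370.good_zeta.nzr ρ hcon (by linarith) h2
    refine ⟨(mem_ZD (by linarith)).2 ⟨hre0, hre1, by linarith, by linarith, h2⟩, h1⟩
  refine ⟨g, s.toFinset, fun ρ hρ => hmem ρ (Multiset.mem_toFinset.1 hρ), ?_, ?_, ?_⟩
  · intro ρ hρ hball
    rw [mem_ZD (by linarith)] at hρ
    have hb' : ρ ∈ closedBall (⟨2, t⟩ : ℂ) 1.8 := by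
      rw [mem_closedBall, dist_eq_norm]
      exact hball
    rw [Multiset.mem_toFinset]
    by_contra hns
    have h7 : H370.Loc.Pf s ρ ≠ 0 := H370.Loc.Pf_ne_zero fun x hx he => hns (he ▸ hx)
    have h8 := hfg ρ
    rw [hρ.2.2.2.2] at h8
    exact mul_ne_zero h7 (hg0 ρ hb') h8.symm
  · intro z hz
    exact ⟨hg0 z (hsub1 hz), (hg z (hsub2 (hsub1 hz))), hlg' z hz⟩
  · intro z hz hz0
    have hzρ : ∀ ρ ∈ s, z ≠ ρ := by
      intro ρ hρ he
      rw [he] at hz0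
      exact hz0 (hs ρ hρ).2
    have hfe : riemannZeta = fun z => H370.Loc.Pf s z * g z := funext hfg
    have hP0 : H370.Loc.Pf s z ≠ 0 := H370.Loc.Pf_ne_zero hzρ
    have hg0z := hg0 z (hsub1 hz)
    have e1 : deriv riemannZeta z / riemannZeta z = logDeriv riemannZeta z := (logDeriv_apply _ _).symm
    have e2 : logDeriv riemannZeta z = logDeriv (H370.Loc.Pf s) z + logDeriv g z := by
      conv_lhs => rw [hfe]
      exact logDeriv_mul z hP0 hg0z (H370.Loc.Pf_diff s z) (hg z (hsub2 (hsub1 hz))).differentiableAt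
    rw [e1, e2, SP.LocAux.logDeriv_Pf hzρ, add_comm]
    congr 1
    apply Finset.sum_congr rfl
    intro ρ hρ
    have hρ' := Multiset.mem_toFinset.1 hρ
    have hρb := (hs ρ hρ').1
    have h1 := hmem ρ hρ'
    have h2 := (mem_ZD (by linarith)).1 h1.1
    have h3 : H370.mult riemannZeta ρ = s.count ρ :=
      SP.LocAux.count_eq_mult (H370.good_zeta.an ρ (by linarith [h2.2.2.1])) (hg ρ (hsub2 hρb))
        (hg0 ρ hρb) hfg
    rw [← h3]
    rw [div_eq_mul_inv]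
    rfl

/-- the local expansion of the argument -/
theorem loca : ∃ C : ℝ, 0 < C ∧ ∀ T t : ℝ, 100 ≤ T → T / 10 ≤ t → t ≤ 11 * T →
    ∃ S : Finset ℂ, (∀ ρ ∈ S, ρ ∈ ZD T ∧ |ρ.im - t| ≤ 2) ∧ (∑ ρ ∈ S, (mz ρ : ℝ) ≤ C * Real.log T) ∧
      (∀ v : ℝ, |v - t| ≤ 1 / 8 → (∀ ρ ∈ ZD T, v ≠ ρ.im) → |AI v| ≤ C * Real.log T) ∧
      (∀ y : ℝ, |y| ≤ 1 / 8 → (∀ ρ ∈ ZD T, t ≠ ρ.im) → (∀ ρ ∈ ZD T, t + y ≠ ρ.im) →
        |(AI t - AI (t + y)) + ∑ ρ ∈ S, (mz ρ : ℝ) * (ph ρ t - ph ρ (t + y))| ≤ C * Real.log T * |y|) := by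
  obtain ⟨D, hD, hdat⟩ := loc_data2
  obtain ⟨C0, hC0, hcn⟩ := count_near
  refine ⟨2 * D + 2 * C0 + 2 * C0 * Real.pi, by positivity, fun T t hT ht1 ht2 => ?_⟩
  have hpi := Real.pi_pos
  have hL : 0 < Real.log T := Real.log_pos (by linarith)
  obtain ⟨g, S, hS1, hS2, hg, hdec⟩ := hdat T t hT ht1 ht2
  have hSim : ∀ ρ ∈ S, ρ ∈ ZD T ∧ |ρ.im - t| ≤ 2 := by
    intro ρ hρ
    obtain ⟨h1, h2⟩ := hS1 ρ hρ
    refine ⟨h1, ?_⟩
    have h3 := (Complex.abs_im_le_norm (ρ - ⟨2, t⟩)).trans h2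
    simp only [sub_im] at h3
    exact h3.trans (by norm_num)
  have hcnt := sum_S_le hcn hT ht1 ht2 S hSim
  -- the zero free part
  set G : ℝ → ℝ := fun v => ∫ x in (1 / 2 : ℝ)..(3 / 2), (logDeriv g ⟨x, v⟩).im with hG
  have hld : ∀ z ∈ closedBall (⟨2, t⟩ : ℂ) 1.6, DifferentiableAt ℂ (logDeriv g) z := by
    intro z hz
    obtain ⟨h1, h2, -⟩ := hg z hz
    have : logDeriv g = fun z => deriv g z / g z := by
      funext z
      exact logDeriv_apply _ _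
    rw [this]
    exact h2.deriv.differentiableAt.div h2.differentiableAt h1
  have hlc : ∀ v : ℝ, |v - t| ≤ 1 / 8 → IntervalIntegrable (fun x : ℝ => logDeriv g ⟨x, v⟩) volume (1 / 2) (3 / 2) := by
    intro v hv
    apply ContinuousOn.intervalIntegrable
    rw [uIcc_of_le (by norm_num)]
    intro x hx
    have h1 := (hld ⟨x, v⟩ (pt_mem2 hx hv)).continuousAt
    have h2 : ContinuousAt (fun x : ℝ => (⟨x, v⟩ : ℂ)) x := by
      have : (fun x : ℝ => (⟨x, v⟩ : ℂ)) = fun x : ℝ => (x : ℂ) + v * I := by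
        funext x
        apply Complex.ext <;> simp
      rw [this]
      fun_prop
    exact (ContinuousAt.comp (f := fun x : ℝ => (⟨x, v⟩ : ℂ)) h1 h2).continuousWithinAt
  have hAI : ∀ v : ℝ, |v - t| ≤ 1 / 8 → (∀ ρ ∈ ZD T, v ≠ ρ.im) → AI v = G v - ∑ ρ ∈ S, (mz ρ : ℝ) * ph ρ v := by
    intro v hv hne
    have hz0 : ∀ x ∈ Icc (1 / 2 : ℝ) (3 / 2), riemannZeta ⟨x, v⟩ ≠ 0 := by
      intro x hx h0
      have hvp : t - 1 / 8 ≤ v ∧ v ≤ t + 1 / 8 := by
        rw [abs_le] at hv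
        constructor <;> linarith [hv.1, hv.2]
      have hx1 : x < 1 := by
        by_contra hcon
        push Not at hcon
        exact riemannZeta_ne_zero_of_one_le_re (s := ⟨x, v⟩) hcon h0
      refine hne ⟨x, v⟩ ((mem_ZD (by linarith)).2 ⟨?_, hx1, ?_, ?_, h0⟩) rfl
      · show 0 < x
        linarith [hx.1]
      · show T / 16 < v
        linarith
      · show v ≤ 16 * T
        linarith
    unfold AI
    have e : ∀ x ∈ uIcc (1 / 2 : ℝ) (3 / 2), (deriv riemannZeta ⟨x, v⟩ / riemannZeta ⟨x, v⟩).im =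
        (logDeriv g ⟨x, v⟩).im + ∑ ρ ∈ S, (mz ρ : ℝ) * ((((⟨x, v⟩ : ℂ) - ρ))⁻¹).im := by
      intro x hx
      rw [uIcc_of_le (by norm_num)] at hx
      rw [hdec _ (pt_mem2 hx hv) (hz0 x hx), add_im, im_sum]
      congr 1
      refine Finset.sum_congr rfl fun ρ _ => ?_
      have : ((mz ρ : ℂ) * ((⟨x, v⟩ : ℂ) - ρ)⁻¹) = (((mz ρ : ℝ) : ℂ) * ((⟨x, v⟩ : ℂ) - ρ)⁻¹) := by push_cast; rfl
      rw [this, im_ofReal_mul]
    rw [intervalIntegral.integral_congr e]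
    have hii : ∀ ρ ∈ S, IntervalIntegrable (fun x : ℝ => (mz ρ : ℝ) * ((((⟨x, v⟩ : ℂ) - ρ))⁻¹).im) volume (1 / 2) (3 / 2) :=
      fun ρ hρ => (ph_int ρ (hne ρ (hS1 ρ hρ).1)).1.const_mul _
    have himi : IntervalIntegrable (fun x : ℝ => (logDeriv g ⟨x, v⟩).im) volume (1 / 2) (3 / 2) := by
      have h1 := hlc v hv
      rw [intervalIntegrable_iff_integrableOn_Ioc_of_le (by norm_num)] at h1 ⊢
      exact h1.im
    have hsumi : IntervalIntegrable (fun x : ℝ => ∑ ρ ∈ S, (mz ρ : ℝ) * ((((⟨x, v⟩ : ℂ) - ρ))⁻¹).im) volume (1 / 2) (3 / 2) := by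
      have := IntervalIntegrable.sum S (f := fun ρ (x : ℝ) => (mz ρ : ℝ) * ((((⟨x, v⟩ : ℂ) - ρ))⁻¹).im) hii
      refine this.congr fun x _ => ?_
      rw [Finset.sum_apply]
    rw [intervalIntegral.integral_add himi hsumi, intervalIntegral.integral_finsetSum hii, sub_eq_add_neg,
      ← Finset.sum_neg_distrib]
    congr 1
    refine Finset.sum_congr rfl fun ρ hρ => ?_
    rw [intervalIntegral.integral_const_mul, (ph_int ρ (hne ρ (hS1 ρ hρ).1)).2]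
    ring
  have hGb : ∀ v : ℝ, |v - t| ≤ 1 / 8 → |G v| ≤ D * Real.log T := by
    intro v hv
    have h1 := intervalIntegral.norm_integral_le_of_norm_le_const (a := 1 / 2) (b := 3 / 2)
      (f := fun x : ℝ => (logDeriv g ⟨x, v⟩).im) (C := D * Real.log T) (fun x hx => by
        rw [uIoc_of_le (by norm_num)] at hx
        exact (Complex.abs_im_le_norm _).trans (hg _ (pt_mem2 ⟨hx.1.le, hx.2⟩ hv)).2.2)
    rw [Real.norm_eq_abs] at h1
    refine h1.trans (le_of_eq ?_)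
    norm_num
  refine ⟨S, hSim, ?_, ?_, ?_⟩
  · refine hcnt.trans ?_
    have : 0 ≤ (2 * D + 2 * C0 * Real.pi) * Real.log T := by positivity
    linarith
  · intro v hv hne
    rw [hAI v hv hne]
    refine (abs_sub _ _).trans ?_
    have h1 := hGb v hv
    have h2 : |∑ ρ ∈ S, (mz ρ : ℝ) * ph ρ v| ≤ 2 * C0 * Real.log T * Real.pi := by
      refine (Finset.abs_sum_le_sum_abs _ _).trans ?_
      calc ∑ ρ ∈ S, |(mz ρ : ℝ) * ph ρ v| ≤ ∑ ρ ∈ S, (mz ρ : ℝ) * Real.pi := by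
            refine Finset.sum_le_sum fun ρ _ => ?_
            rw [abs_mul, Nat.abs_cast]
            exact mul_le_mul_of_nonneg_left (ph_bd ρ v) (Nat.cast_nonneg _)
        _ = (∑ ρ ∈ S, (mz ρ : ℝ)) * Real.pi := (Finset.sum_mul _ _ _).symm
        _ ≤ _ := mul_le_mul_of_nonneg_right hcnt hpi.le
    have : 0 ≤ D * Real.log T := by positivity
    have : 0 ≤ 2 * C0 * Real.log T := by positivity
    nlinarith
  · intro y hy hne0 hne1
    have hvt : |t - t| ≤ 1 / 8 := by simp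
    have hvy : |t + y - t| ≤ 1 / 8 := by rwa [add_sub_cancel_left]
    rw [hAI t hvt hne0, hAI (t + y) hvy hne1]
    have e1 : G t - ∑ ρ ∈ S, (mz ρ : ℝ) * ph ρ t - (G (t + y) - ∑ ρ ∈ S, (mz ρ : ℝ) * ph ρ (t + y)) +
        ∑ ρ ∈ S, (mz ρ : ℝ) * (ph ρ t - ph ρ (t + y)) = G t - G (t + y) := by
      have : ∑ ρ ∈ S, (mz ρ : ℝ) * (ph ρ t - ph ρ (t + y)) =
          ∑ ρ ∈ S, (mz ρ : ℝ) * ph ρ t - ∑ ρ ∈ S, (mz ρ : ℝ) * ph ρ (t + y) := by
        rw [← Finset.sum_sub_distrib]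
        exact Finset.sum_congr rfl fun ρ _ => by ring
      rw [this]
      ring
    rw [e1]
    -- Cauchy's theorem on the thin rectangle
    have hseg : ∀ u ∈ uIcc t (t + y), |u - t| ≤ 1 / 8 := by
      intro u hu
      have := abs_sub_left_of_mem_uIcc hu
      rw [add_sub_cancel_left] at this
      exact this.trans hy
    have hrect := Complex.integral_boundary_rect_eq_zero_of_differentiableOn (logDeriv g) (⟨1 / 2, t⟩ : ℂ) (⟨3 / 2, t + y⟩ : ℂ) (by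
      intro z hz
      have hz1 : z.re ∈ uIcc (1 / 2 : ℝ) (3 / 2) := hz.1
      have hz2 : z.im ∈ uIcc t (t + y) := hz.2
      rw [uIcc_of_le (by norm_num)] at hz1
      have := pt_mem2 hz1 (hseg z.im hz2)
      exact (hld z this).differentiableWithinAt)
    simp only at hrect
    have ec : ∀ x v : ℝ, (x : ℂ) + (v : ℂ) * I = ⟨x, v⟩ := by
      intro x v
      apply Complex.ext <;> simp
    set H : ℝ → ℂ := fun v => ∫ x in (1 / 2 : ℝ)..(3 / 2), logDeriv g ⟨x, v⟩ with hH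
    have hGH : ∀ v : ℝ, |v - t| ≤ 1 / 8 → G v = (H v).im := by
      intro v hv
      have h3 := Complex.imCLM.intervalIntegral_comp_comm (hlc v hv)
      simp only [Complex.imCLM_apply] at h3
      exact h3
    have hside : ∀ x : ℝ, x ∈ Icc (1 / 2 : ℝ) (3 / 2) → ‖∫ u in t..(t + y), logDeriv g ((x : ℂ) + (u : ℂ) * I)‖ ≤
        D * Real.log T * |y| := by
      intro x hx
      have h1 := intervalIntegral.norm_integral_le_of_norm_le_const (a := t) (b := t + y)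
        (f := fun u : ℝ => logDeriv g ((x : ℂ) + (u : ℂ) * I)) (C := D * Real.log T) (fun u hu => by
          rw [ec]
          exact (hg _ (pt_mem2 hx (hseg u (uIoc_subset_uIcc hu)))).2.2)
      rwa [add_sub_cancel_left] at h1
    have hdiff : ‖H t - H (t + y)‖ ≤ 2 * D * Real.log T * |y| := by
      have e2 : H t - H (t + y) = I • (∫ u in t..(t + y), logDeriv g (((1 / 2 : ℝ) : ℂ) + (u : ℂ) * I)) -
          I • (∫ u in t..(t + y), logDeriv g (((3 / 2 : ℝ) : ℂ) + (u : ℂ) * I)) := by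
        have h3 : (∫ x in (1 / 2 : ℝ)..(3 / 2), logDeriv g ((x : ℂ) + (t : ℂ) * I)) = H t := by
          simp only [hH, ec]
        have h4 : (∫ x in (1 / 2 : ℝ)..(3 / 2), logDeriv g ((x : ℂ) + ((t + y : ℝ) : ℂ) * I)) = H (t + y) := by
          simp only [hH, ec]
        rw [h3, h4] at hrect
        linear_combination hrect
      rw [e2]
      refine (norm_sub_le _ _).trans ?_
      rw [norm_smul, norm_smul, norm_I, one_mul, one_mul]
      have h5 := hside (1 / 2) (by constructor <;> norm_num)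
      have h6 := hside (3 / 2) (by constructor <;> norm_num)
      linarith
    rw [hGH t hvt, hGH (t + y) hvy, ← sub_im]
    refine (Complex.abs_im_le_norm _).trans (hdiff.trans ?_)
    have h7 : 0 ≤ Real.log T * |y| := by positivity
    have h8 : 0 ≤ 2 * C0 + 2 * C0 * Real.pi := by positivity
    nlinarith

end

end Pool.Agent.U761.SZ
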