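import Pool.Agent.Q149.UM.DETQ
import Pool.Agent.U761.SZ.AVAV
import Pool.Agent.U761.SZ.LOCA
import Pool.Agent.U761.SZ.Core2

set_option autoImplicit false

/-!
U761.SZ: the deterministic formula for the argument of zeta.
-/

namespace Pool.Agent.U761.SZ

open Pool.Agent.Q97.UM Pool.Agent.Q149.UM
open Complex Filter Metric Set MeasureTheory

noncomputable section

theorem aS_eq (y : ℝ) : aS y = (ell ⟨3 / 2, y⟩).im - AI y := rfl

theorem quart_int : Integrable fun y : ℝ => 1 / (1 + |y|) ^ 4 := by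
  have h := integrable_one_add_norm (E := ℝ) (μ := volume) (r := 4) (by simp)
  refine h.congr (Eventually.of_forall fun z => ?_)
  simp only [Real.norm_eq_abs]
  rw [Real.rpow_neg (by positivity)]
  norm_cast
  rw [one_div]

theorem ord_ae (T : ℝ) : ∀ᵐ v : ℝ, ∀ ρ ∈ ZD T, v ≠ ρ.im := by
  have h1 : ((ZD T).image im : Set ℝ).Finite := Finset.finite_toSet _
  have h3 := h1.countable.ae_notMem (volume : Measure ℝ)
  filter_upwards [h3] with v hv ρ hρ he
  apply hv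
  rw [Finset.mem_coe, Finset.mem_image]
  exact ⟨ρ, hρ, he.symm⟩

theorem ord_ae_shift (T t : ℝ) : ∀ᵐ y : ℝ, ∀ ρ ∈ ZD T, t + y ≠ ρ.im := by
  have h1 : ((ZD T).image (fun s => s.im - t) : Set ℝ).Finite := Finset.finite_toSet _
  have h3 := h1.countable.ae_notMem (volume : Measure ℝ)
  filter_upwards [h3] with y hy ρ hρ he
  apply hy
  rw [Finset.mem_coe, Finset.mem_image]
  exact ⟨ρ, hρ, by linarith⟩

/-- the deterministic formula for the argument -/
theorem dets (hKB : S_KB) : ∀ ψ₁ k₀ : ℝ → ℝ, Ker ψ₁ k₀ → ∀ δ : ℝ, 0 < δ → δ ≤ 1 / 8 → ∃ C : ℝ, 0 ≤ C ∧ ∀ᶠ T : ℝ in atTop,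
    ∀ t : ℝ, T / 3 ≤ t → t ≤ 7 * T → (∀ ρ ∈ ZD T, t ≠ ρ.im) →
      |aS t - (PC ψ₁ (δ * Real.log T) t).im| ≤ C * (1 + SS δ T t) := by
  intro ψ₁ k₀ hK δ hδ hδ8
  obtain ⟨hev, hki, hk1, -, hdec⟩ := hKB ψ₁ k₀ hK
  obtain ⟨C4, hC4, hb4, -⟩ := hdec 4
  obtain ⟨CV, hCV, hV⟩ := avav hKB ψ₁ k₀ hK δ hδ hδ8
  obtain ⟨CL, hCL, hL⟩ := loca
  obtain ⟨CG, hCG, hG⟩ := kar hK.cont hK.nonneg hki hk1 hev hC4 hb4
  have hpi := Real.pi_pos
  have hB1 := Pool.Agent.Q257.UM.VA.B1_nonneg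
  have hl2 : 0 < Real.log 2 := Real.log_pos one_lt_two
  obtain ⟨B0, hB0d⟩ : ∃ B0 : ℝ, B0 = Pool.Agent.Q257.UM.VA.B1 / Real.log 2 := ⟨_, rfl⟩
  have hB0 : 0 ≤ B0 := by rw [hB0d]; positivity
  have hell : ∀ y : ℝ, |(ell ⟨3 / 2, y⟩).im| ≤ B0 := fun y => by
    rw [hB0d]
    exact (Complex.abs_im_le_norm _).trans (ell_norm y)
  have hM0 : 0 ≤ ∫ z, k₀ z * |z| :=
    integral_nonneg fun z => mul_nonneg (hK.nonneg z) (abs_nonneg z)
  obtain ⟨M0, hM0d⟩ : ∃ M0 : ℝ, M0 = ∫ z, k₀ z * |z| := ⟨_, rfl⟩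
  obtain ⟨K₃, hK₃d⟩ : ∃ K₃ : ℝ, K₃ = ∫ y : ℝ, 1 / (1 + |y|) ^ 4 := ⟨_, rfl⟩
  have hK₃0 : 0 ≤ K₃ := by rw [hK₃d]; exact integral_nonneg fun y => by positivity
  rw [← hM0d] at hM0
  refine ⟨CV + (CL * M0 / δ + 2 * B0 + (2 * (B0 + CL) + 2 * Real.pi * CL) * (6561 * C4) * K₃ / δ) + 2 * CG / δ ^ 2,
    by positivity, ?_⟩
  have hlog : ∀ᶠ T : ℝ in atTop, 1 / δ ≤ Real.log T :=
    Real.tendsto_log_atTop.eventually_ge_atTop _
  filter_upwards [hV, hlog, eventually_ge_atTop (100 : ℝ)] with T hVT hlT hT t ht1 ht2 hne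
  have hTp : 0 < T := by linarith
  have hD1 : 1 ≤ δ * Real.log T := by
    rw [div_le_iff₀ hδ] at hlT
    linarith
  have hD0 : 0 < δ * Real.log T := by linarith
  have hL1 : 1 ≤ Real.log T := by
    have : (1 : ℝ) ≤ 1 / δ := by
      rw [le_div_iff₀ hδ]
      linarith
    linarith
  have hLp : 0 < Real.log T := by linarith
  obtain ⟨D, hD⟩ : ∃ D : ℝ, D = δ * Real.log T := ⟨_, rfl⟩
  rw [← hD] at hD1 hD0
  obtain ⟨U1, U2, hU1, hU1', hU2, hU2', hint, hPP⟩ := hVT t (by linarith) (by linarith)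
  obtain ⟨S, hS, hSc, -, hSl⟩ := hL T t (by linarith) (by linarith) (by linarith)
  obtain ⟨q1, q2, q3, q4, q5⟩ := kap_facts hK.cont hK.nonneg hki hk1 hC4 hb4 hD1
  rw [← hM0d] at q5
  have hAb : ∀ v : ℝ, T / 10 ≤ v → v ≤ 11 * T → (∀ ρ ∈ ZD T, v ≠ ρ.im) → |aS v| ≤ (B0 + CL) * Real.log T := by
    intro v hv1 hv2 hvne
    obtain ⟨-, -, -, h3, -⟩ := hL T v (by linarith) hv1 hv2
    have h4 := h3 v (by simp) hvne
    rw [aS_eq]
    refine (abs_sub _ _).trans ?_
    have h5 := hell v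
    nlinarith
  have hcore := core2 (κ := fun y => D * k₀ (D * y)) (W := fun y => aS (t + y))
    (c := 6561 * C4 / D) (M := M0 / D) (B := (B0 + CL) * Real.log T) (E := CL * Real.log T) (E0 := 2 * B0)
    (a := U1 - t) (b := U2 - t) (K₃ := K₃) (Wt := CL * Real.log T) (A := S) (m := fun s => (mz s : ℝ))
    (φ := fun s y => ph s (t + y)) (R := fun s => 2 * CG / (1 + D * |t - s.im|) ^ 2)
    (fun y => mul_nonneg hD0.le (hK.nonneg _)) q1 q2 q3 (by positivity) q4 q5.le (by linarith) (by linarith)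
    ?_ ?_ ?_ (by positivity) (by positivity) (fun s _ => Nat.cast_nonneg _) hSc ?_ (fun s _ y => ph_bd s (t + y)) ?_ ?_
    quart_int hK₃d.ge
  · -- conclusion
    have e1 : (∫ u in U1..U2, δ * Real.log T * k₀ (δ * Real.log T * (u - t)) *
        aS u) = ∫ y in (U1 - t)..(U2 - t), D * k₀ (D * y) * aS (t + y) := by
      rw [← intervalIntegral.integral_comp_sub_right
        (fun y => D * k₀ (D * y) * aS (t + y)) t, hD]
      refine intervalIntegral.integral_congr fun u _ => ?_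
      show _ = δ * Real.log T * k₀ (δ * Real.log T * (u - t)) * aS (t + (u - t))
      rw [add_sub_cancel]
    rw [e1] at hPP
    simp only [add_zero] at hcore
    have hSS : 0 ≤ SS δ T t := by
      unfold SS
      exact Finset.sum_nonneg fun s _ => by positivity
    have e3 : CL * Real.log T * (M0 / D) + 2 * B0 + (2 * ((B0 + CL) * Real.log T) + 2 * Real.pi * (CL * Real.log T)) *
        (6561 * C4 / D) * K₃ = CL * M0 / δ + 2 * B0 + (2 * (B0 + CL) + 2 * Real.pi * CL) * (6561 * C4) * K₃ / δ := by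
      rw [hD]
      field_simp
    rw [e3] at hcore
    obtain ⟨Q, hQ⟩ : ∃ Q : ℝ, Q = CL * M0 / δ + 2 * B0 + (2 * (B0 + CL) + 2 * Real.pi * CL) * (6561 * C4) * K₃ / δ := ⟨_, rfl⟩
    rw [← hQ] at hcore ⊢
    have hQ0 : 0 ≤ Q := by rw [hQ]; positivity
    have hsum : ∑ s ∈ S, (mz s : ℝ) * (2 * CG / (1 + D * |t - s.im|) ^ 2) ≤ 2 * CG / δ ^ 2 * SS δ T t := by
      unfold SS
      rw [Finset.mul_sum]
      refine le_trans (Finset.sum_le_sum (g := fun s => 2 * CG / δ ^ 2 * ((mz s : ℝ) *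
        (Real.exp (2 * δ * (Real.log T * |s.re - 1 / 2|)) / (1 + Real.log T * |s.im - t|) ^ 2))) fun s _ => ?_)
        (Finset.sum_le_sum_of_subset_of_nonneg (fun s hs => (hS s hs).1) fun s _ _ => by positivity)
      have hx : 0 ≤ Real.log T * |s.im - t| := by positivity
      have h5 : δ * (1 + Real.log T * |s.im - t|) ≤ 1 + D * |t - s.im| := by
        rw [hD, abs_sub_comm t]
        nlinarith
      have h6 : (1 : ℝ) ≤ Real.exp (2 * δ * (Real.log T * |s.re - 1 / 2|)) := Real.one_le_exp (by positivity)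
      have h7 : 2 * CG / (1 + D * |t - s.im|) ^ 2 ≤ 2 * CG / (δ * (1 + Real.log T * |s.im - t|)) ^ 2 := by
        gcongr
      calc (mz s : ℝ) * (2 * CG / (1 + D * |t - s.im|) ^ 2) ≤ (mz s : ℝ) * (2 * CG / (δ * (1 + Real.log T * |s.im - t|)) ^ 2) :=
            mul_le_mul_of_nonneg_left h7 (Nat.cast_nonneg _)
        _ = 2 * CG / δ ^ 2 * ((mz s : ℝ) * (1 / (1 + Real.log T * |s.im - t|) ^ 2)) := by
            field_simp
        _ ≤ _ := by gcongr
    have hG0 : 0 ≤ 2 * CG / δ ^ 2 := by positivity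
    have hQS : 0 ≤ Q * SS δ T t := mul_nonneg hQ0 hSS
    have hGS : 0 ≤ CV * SS δ T t := mul_nonneg hCV hSS
    have hcore2 := hcore.trans (add_le_add_right hsum Q)
    rw [abs_le] at hcore2 hPP ⊢
    constructor
    · linarith [hcore2.1, hPP.1]
    · linarith [hcore2.2, hPP.2]
  · -- integrability
    have h1 := hint.comp_add_left t
    have h2 : (fun y => δ * Real.log T * k₀ (δ * Real.log T * (t + y - t)) * aS (t + y)) =
        fun y => D * k₀ (D * y) * aS (t + y) := by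
      funext y
      rw [hD, add_sub_cancel_left]
    rw [h2] at h1
    exact h1
  · show |aS (t + 0)| ≤ _
    rw [add_zero]
    exact hAb t (by linarith) (by linarith) hne
  · filter_upwards [ord_ae_shift T t] with y hy hyI
    exact hAb (t + y) (by linarith [hyI.1]) (by linarith [hyI.2]) hy
  · intro s _
    have h1 := at_meas (3 / 2 - s.re) (t - s.im)
    have h2 := at_meas (1 / 2 - s.re) (t - s.im)
    have e : (fun y => ph s (t + y)) = fun y => Real.arctan ((3 / 2 - s.re) / (t - s.im + y)) -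
        Real.arctan ((1 / 2 - s.re) / (t - s.im + y)) := by
      funext y
      unfold ph
      rw [show t + y - s.im = t - s.im + y by ring]
    show Measurable fun y => ph s (t + y)
    rw [e]
    exact h1.sub h2
  · intro s hs
    have hu : t - s.im ≠ 0 := sub_ne_zero.2 (hne s (hS s hs).1)
    have g1 := hG D (t - s.im) (3 / 2 - s.re) hD0 hu
    have g2 := hG D (t - s.im) (1 / 2 - s.re) hD0 hu
    have i1 := kar_int q1 (Real.arctan ((3 / 2 - s.re) / (t - s.im))) (3 / 2 - s.re) (t - s.im)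
    have i2 := kar_int q1 (Real.arctan ((1 / 2 - s.re) / (t - s.im))) (1 / 2 - s.re) (t - s.im)
    have e : (∫ y, D * k₀ (D * y) * (ph s (t + 0) - ph s (t + y))) =
        (∫ y, D * k₀ (D * y) * (Real.arctan ((3 / 2 - s.re) / (t - s.im)) - Real.arctan ((3 / 2 - s.re) / (t - s.im + y)))) -
        ∫ y, D * k₀ (D * y) * (Real.arctan ((1 / 2 - s.re) / (t - s.im)) - Real.arctan ((1 / 2 - s.re) / (t - s.im + y))) := by
      rw [← integral_sub i1 i2]
      refine integral_congr_ae (Eventually.of_forall fun y => ?_)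
      simp only
      unfold ph
      rw [add_zero, show t + y - s.im = t - s.im + y by ring]
      ring
    show |∫ y, D * k₀ (D * y) * (ph s (t + 0) - ph s (t + y))| ≤ _
    rw [e]
    refine (abs_sub _ _).trans ?_
    calc _ ≤ CG / (1 + D * |t - s.im|) ^ 2 + CG / (1 + D * |t - s.im|) ^ 2 := add_le_add g1 g2
      _ = _ := by ring
  · -- the remainder
    filter_upwards [ord_ae_shift T t] with y hy hy8
    have h := hSl y hy8 hne hy
    show |aS (t + 0) - aS (t + y) - ∑ s ∈ S, (mz s : ℝ) * (ph s (t + 0) - ph s (t + y))| ≤ _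
    rw [add_zero, aS_eq, aS_eq]
    have e : (ell ⟨3 / 2, t⟩).im - AI t - ((ell ⟨3 / 2, t + y⟩).im - AI (t + y)) -
        ∑ s ∈ S, (mz s : ℝ) * (ph s t - ph s (t + y)) = ((ell ⟨3 / 2, t⟩).im - (ell ⟨3 / 2, t + y⟩).im) -
        ((AI t - AI (t + y)) + ∑ s ∈ S, (mz s : ℝ) * (ph s t - ph s (t + y))) := by ring
    rw [e]
    refine (abs_sub _ _).trans ?_
    have h1 := hell t
    have h2 := hell (t + y)
    have h3 := abs_sub (ell ⟨3 / 2, t⟩).im (ell ⟨3 / 2, t + y⟩).im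
    linarith

end

end Pool.Agent.U761.SZ
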