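import Pool.Agent.U761.SZ.GR2

/-!
U761.SZ: general resonators, part 3: squares of primes, the fourth moment, the choice of the resonator.
-/

set_option autoImplicit false

namespace Pool.Agent.U761.SZ

open Finset
open Pool.Agent.Q241.UM
open Pool.Agent.Q97.UM (N2 cv prc)

noncomputable section

/-- coefficients supported at the squares of the primes `≤ X` -/
def sv (X : ℕ) (v : ℕ → ℂ) (n : ℕ) : ℂ := sqc X n * v n

theorem sv_ne {X n : ℕ} {v : ℕ → ℂ} (h : sv X v n ≠ 0) : ∃ p : ℕ, p.Prime ∧ p ≤ X ∧ n = p ^ 2 := sqc_ne (left_ne_zero_of_mul h)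

theorem sv_le {X n : ℕ} {v : ℕ → ℂ} (hv : ∀ n, ‖v n‖ ≤ 1) : ‖sv X v n‖ ≤ ‖sqc X n‖ := by
  unfold sv
  rw [norm_mul]
  exact mul_le_of_le_one_right (norm_nonneg _) (hv n)

theorem sv_cv {P : Finset ℕ} {K X : ℕ} {ρ v : ℕ → ℂ} (n : ℕ) :
    ‖cv (sv X v) (rg P K ρ) n‖ ^ 2 ≤ ∑ x ∈ n.divisorsAntidiagonal, ‖sv X v x.1‖ ^ 2 * ‖rg P K ρ x.2‖ ^ 2 := by
  classical
  unfold cv
  set A := n.divisorsAntidiagonal with hA
  have h0 : ∑ x ∈ A, sv X v x.1 * rg P K ρ x.2 =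
      ∑ x ∈ A.filter (fun x => sv X v x.1 * rg P K ρ x.2 ≠ 0), sv X v x.1 * rg P K ρ x.2 :=
    (Finset.sum_filter_ne_zero _).symm
  have hcard : (A.filter (fun x => sv X v x.1 * rg P K ρ x.2 ≠ 0)).card ≤ 1 := by
    rw [Finset.card_le_one]
    intro x hx y hy
    rw [Finset.mem_filter, hA, Nat.mem_divisorsAntidiagonal] at hx hy
    obtain ⟨⟨hx1, hn0⟩, hx3⟩ := hx
    obtain ⟨⟨hy1, -⟩, hy3⟩ := hy
    obtain ⟨p, hp, -, hxp⟩ := sv_ne (left_ne_zero_of_mul hx3)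
    obtain ⟨q, hq, -, hyq⟩ := sv_ne (left_ne_zero_of_mul hy3)
    have hrx := (rg_ne (right_ne_zero_of_mul hx3)).1.1
    have hry := (rg_ne (right_ne_zero_of_mul hy3)).1.1
    have h3 := hx1.trans hy1.symm
    have h4 : p = q := by
      rw [hxp, hyq] at h3
      exact uniq_sq hp hq hrx hry h3
    have h1 : x.1 = y.1 := by rw [hxp, hyq, h4]
    have h2 : x.2 = y.2 := by
      rw [h1] at h3
      refine Nat.eq_of_mul_eq_mul_left ?_ h3
      rw [hyq]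
      have := hq.pos
      positivity
    exact Prod.ext h1 h2
  rw [h0]
  have h1 : ‖∑ x ∈ A.filter (fun x => sv X v x.1 * rg P K ρ x.2 ≠ 0), sv X v x.1 * rg P K ρ x.2‖ ^ 2 ≤
      ∑ x ∈ A.filter (fun x => sv X v x.1 * rg P K ρ x.2 ≠ 0), ‖sv X v x.1 * rg P K ρ x.2‖ ^ 2 := by
    rcases Finset.card_le_one_iff_subset_singleton.1 hcard with ⟨x, hx⟩
    rcases Finset.subset_singleton_iff.1 hx with h | h
    · rw [h]; simp
    · rw [h]; simp
  refine h1.trans ?_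
  refine (Finset.sum_le_sum_of_subset_of_nonneg (Finset.filter_subset _ _) fun x _ _ => sq_nonneg _).trans ?_
  refine Finset.sum_le_sum fun x _ => ?_
  rw [norm_mul, mul_pow]

/-- the mean square of the convolution with the squares of the primes -/
theorem N2_sv {P : Finset ℕ} {K N X M : ℕ} {ρ v : ℕ → ℂ} (hv : ∀ n, ‖v n‖ ≤ 1) (hN : ∀ n, rg P K ρ n ≠ 0 → n ≤ N) :
    N2 M (cv (sv X v) (rg P K ρ)) ≤ N2 N (rg P K ρ) := by
  classical
  have h1 := conv_sum M (X ^ 2) N (fun n => ‖sv X v n‖ ^ 2) (fun n => ‖rg P K ρ n‖ ^ 2) (fun n => sq_nonneg _)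
    (fun n => sq_nonneg _) (by
      intro n h
      have h2 : sv X v n ≠ 0 := fun h' => h (by rw [h']; simp)
      obtain ⟨p, hp, hpX, rfl⟩ := sv_ne h2
      exact ⟨Nat.one_le_iff_ne_zero.2 (by have := hp.pos; positivity), Nat.pow_le_pow_left hpX 2⟩) (by
      intro n h
      have h2 : rg P K ρ n ≠ 0 := fun h' => h (by rw [h']; simp)
      exact ⟨Nat.one_le_iff_ne_zero.2 (rg_ne h2).1.1.ne_zero, hN n h2⟩)
  have h3 : ∑ d ∈ Icc 1 (X ^ 2), ‖sv X v d‖ ^ 2 / (d : ℝ) ≤ 1 := by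
    have e0 : ∑ d ∈ Icc 1 (X ^ 2), ‖sv X v d‖ ^ 2 / (d : ℝ) ≤ ∑ d ∈ Icc 1 (X ^ 2), ‖sqc X d‖ ^ 2 / (d : ℝ) := by
      refine Finset.sum_le_sum fun d _ => ?_
      exact div_le_div_of_nonneg_right (pow_le_pow_left₀ (norm_nonneg _) (sv_le hv) 2) (Nat.cast_nonneg _)
    refine e0.trans ?_
    have e1 : ∑ d ∈ Icc 1 (X ^ 2), ‖sqc X d‖ ^ 2 / (d : ℝ) ≤ ∑ p ∈ (Icc 2 X).filter Nat.Prime, (1 : ℝ) / (p : ℝ) ^ 2 := by
      have e2 : ∑ p ∈ (Icc 2 X).filter Nat.Prime, (1 : ℝ) / (p : ℝ) ^ 2 =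
          ∑ d ∈ ((Icc 2 X).filter Nat.Prime).image (fun p : ℕ => (p ^ 2 : ℕ)), (1 : ℝ) / (d : ℝ) := by
        rw [Finset.sum_image]
        · exact sum_congr rfl fun p _ => by push_cast; rfl
        · intro p _ q _ h
          exact Nat.pow_left_injective (n := 2) (by norm_num) h
      rw [e2]
      have e3 : ∑ d ∈ Icc 1 (X ^ 2), ‖sqc X d‖ ^ 2 / (d : ℝ) = ∑ d ∈ (Icc 1 (X ^ 2)).filter (fun d => sqc X d ≠ 0),
          ‖sqc X d‖ ^ 2 / (d : ℝ) := by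
        rw [Finset.sum_filter]
        refine sum_congr rfl fun d _ => ?_
        by_cases h : sqc X d = 0
        · rw [if_neg (by simpa using h), h]
          simp
        · rw [if_pos h]
      rw [e3]
      refine le_trans (Finset.sum_le_sum (g := fun d : ℕ => (1 : ℝ) / (d : ℝ)) fun d hd => ?_)
        (Finset.sum_le_sum_of_subset_of_nonneg ?_ fun d _ _ => by positivity)
      · have h4 := (mem_filter.1 hd).2
        have h5 : sqc X d = 1 := by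
          unfold sqc
          rw [if_pos (sqc_ne h4)]
        rw [h5]
        simp
      · intro d hd
        obtain ⟨p, hp, hpX, rfl⟩ := sqc_ne (mem_filter.1 hd).2
        rw [mem_image]
        exact ⟨p, mem_filter.2 ⟨mem_Icc.2 ⟨hp.two_le, hpX⟩, hp⟩, rfl⟩
    refine e1.trans (le_trans ?_ (sum_inv_sq X))
    exact Finset.sum_le_sum_of_subset_of_nonneg (Finset.filter_subset _ _) fun p _ _ => by positivity
  have h4 : 0 ≤ N2 N (rg P K ρ) := by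
    unfold N2
    exact Finset.sum_nonneg fun n _ => by positivity
  calc N2 M (cv (sv X v) (rg P K ρ)) ≤
        ∑ n ∈ Icc 1 M, (∑ x ∈ n.divisorsAntidiagonal, ‖sv X v x.1‖ ^ 2 * ‖rg P K ρ x.2‖ ^ 2) / (n : ℝ) := by
        unfold N2
        refine Finset.sum_le_sum fun n _ => ?_
        exact div_le_div_of_nonneg_right (sv_cv n) (Nat.cast_nonneg _)
    _ ≤ (∑ d ∈ Icc 1 (X ^ 2), ‖sv X v d‖ ^ 2 / (d : ℝ)) * N2 N (rg P K ρ) := h1
    _ ≤ 1 * N2 N (rg P K ρ) := mul_le_mul_of_nonneg_right h3 h4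
    _ = _ := one_mul _

/-! ### the fourth moment -/

theorem fourg_pt {P : Finset ℕ} {K : ℕ} {ρ : ℕ → ℂ} (n : ℕ) :
    ‖cv (rg P K ρ) (rg P K ρ) n‖ ^ 2 ≤ ∑ x ∈ n.divisorsAntidiagonal,
      ((2 : ℝ) ^ om x.1 * ‖rg P K ρ x.1‖ ^ 2) * ((2 : ℝ) ^ om x.2 * ‖rg P K ρ x.2‖ ^ 2) := by
  classical
  unfold cv
  set A := n.divisorsAntidiagonal with hA
  set B := A.filter (fun x => rg P K ρ x.1 * rg P K ρ x.2 ≠ 0) with hB
  have h0 : ∑ x ∈ A, rg P K ρ x.1 * rg P K ρ x.2 = ∑ x ∈ B, rg P K ρ x.1 * rg P K ρ x.2 :=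
    (Finset.sum_filter_ne_zero _).symm
  rw [h0]
  -- the number of terms
  have hcard : (B.card : ℝ) ≤ (2 : ℝ) ^ om n := by
    have hinj : Set.InjOn (fun x : ℕ × ℕ => x.1.primeFactors) (B : Set (ℕ × ℕ)) := by
      intro x hx y hy he
      rw [Finset.mem_coe, hB, mem_filter, hA, Nat.mem_divisorsAntidiagonal] at hx hy
      have hsx := (rg_ne (left_ne_zero_of_mul hx.2)).1.1
      have hsy := (rg_ne (left_ne_zero_of_mul hy.2)).1.1
      have h1 : x.1 = y.1 := by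
        rw [← Nat.prod_primeFactors_of_squarefree hsx, ← Nat.prod_primeFactors_of_squarefree hsy]
        simp only at he
        rw [he]
      have h2 : x.2 = y.2 := by
        have h3 := hx.1.1.trans hy.1.1.symm
        rw [h1] at h3
        exact Nat.eq_of_mul_eq_mul_left (Nat.pos_of_ne_zero hsy.ne_zero) h3
      exact Prod.ext h1 h2
    have h1 : (B.image (fun x : ℕ × ℕ => x.1.primeFactors)).card = B.card := Finset.card_image_of_injOn hinj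
    have h2 : B.image (fun x : ℕ × ℕ => x.1.primeFactors) ⊆ n.primeFactors.powerset := by
      intro S hS
      rw [mem_image] at hS
      obtain ⟨x, hx, rfl⟩ := hS
      rw [hB, mem_filter, hA, Nat.mem_divisorsAntidiagonal] at hx
      rw [mem_powerset]
      exact Nat.primeFactors_mono ⟨x.2, hx.1.1.symm⟩ hx.1.2
    have h3 := Finset.card_le_card h2
    rw [h1, Finset.card_powerset] at h3
    unfold om
    exact_mod_cast h3
  have hcs : ‖∑ x ∈ B, rg P K ρ x.1 * rg P K ρ x.2‖ ^ 2 ≤ (B.card : ℝ) * ∑ x ∈ B, ‖rg P K ρ x.1 * rg P K ρ x.2‖ ^ 2 := by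
    have h1 : ‖∑ x ∈ B, rg P K ρ x.1 * rg P K ρ x.2‖ ≤ ∑ x ∈ B, ‖rg P K ρ x.1 * rg P K ρ x.2‖ := norm_sum_le _ _
    have h2 := sq_sum_le_card_mul_sum_sq (s := B) (f := fun x => ‖rg P K ρ x.1 * rg P K ρ x.2‖)
    exact (pow_le_pow_left₀ (norm_nonneg _) h1 2).trans h2
  refine hcs.trans ?_
  have hS0 : 0 ≤ ∑ x ∈ B, ‖rg P K ρ x.1 * rg P K ρ x.2‖ ^ 2 := Finset.sum_nonneg fun x _ => sq_nonneg _
  refine (mul_le_mul_of_nonneg_right hcard hS0).trans ?_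
  rw [mul_sum]
  refine le_trans (Finset.sum_le_sum (g := fun x : ℕ × ℕ => ((2 : ℝ) ^ om x.1 * ‖rg P K ρ x.1‖ ^ 2) *
    ((2 : ℝ) ^ om x.2 * ‖rg P K ρ x.2‖ ^ 2)) fun x hx => ?_)
    (Finset.sum_le_sum_of_subset_of_nonneg (Finset.filter_subset _ _) fun x _ _ => by positivity)
  rw [hB, mem_filter, hA, Nat.mem_divisorsAntidiagonal] at hx
  have h1 : om n ≤ om x.1 + om x.2 := by
    unfold om
    have hx1 : x.1 ≠ 0 := fun h => by rw [h, zero_mul] at hx; exact hx.1.2 hx.1.1.symm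
    have hx2 : x.2 ≠ 0 := fun h => by rw [h, mul_zero] at hx; exact hx.1.2 hx.1.1.symm
    rw [← hx.1.1, Nat.primeFactors_mul hx1 hx2]
    exact Finset.card_union_le _ _
  have h2 : (2 : ℝ) ^ om n ≤ 2 ^ om x.1 * 2 ^ om x.2 := by
    rw [← pow_add]
    exact pow_le_pow_right₀ (by norm_num) h1
  rw [norm_mul, mul_pow]
  calc (2 : ℝ) ^ om n * (‖rg P K ρ x.1‖ ^ 2 * ‖rg P K ρ x.2‖ ^ 2) ≤
        (2 ^ om x.1 * 2 ^ om x.2) * (‖rg P K ρ x.1‖ ^ 2 * ‖rg P K ρ x.2‖ ^ 2) :=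
        mul_le_mul_of_nonneg_right h2 (by positivity)
    _ = _ := by ring

theorem wtg_sum_exp {P : Finset ℕ} (hP : ∀ p ∈ P, p.Prime) {K M : ℕ} {ρ : ℕ → ℂ} :
    ∑ n ∈ Icc 1 M, ((2 : ℝ) ^ om n * ‖rg P K ρ n‖ ^ 2) / (n : ℝ) ≤ Real.exp (2 * ∑ p ∈ P, xw ρ p) := by
  refine (transfer_le hP M (fun n => ((2 : ℝ) ^ om n * ‖rg P K ρ n‖ ^ 2) / (n : ℝ)) (fun n h => ?_) fun n => by positivity).trans ?_
  · have h1 : rg P K ρ n ≠ 0 := fun h' => h (by rw [h', norm_zero]; simp)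
    exact (rg_ne h1).1
  · have h1 : ∀ S ∈ P.powerset, ((2 : ℝ) ^ om (∏ p ∈ S, p) * ‖rg P K ρ (∏ p ∈ S, p)‖ ^ 2) / ((∏ p ∈ S, p : ℕ) : ℝ) ≤
        ∏ p ∈ S, (2 * xw ρ p) := by
      intro S hS
      rw [om_prod hP hS, rg_prod hP hS]
      have e1 : ∏ p ∈ S, (2 * xw ρ p) = (2 : ℝ) ^ S.card * (‖Rr ρ S‖ ^ 2 / nn S) := by
        rw [Finset.prod_mul_distrib, Finset.prod_const, Rr_wt]
        rfl
      rw [e1, mul_div_assoc]
      refine mul_le_mul_of_nonneg_left ?_ (by positivity)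
      unfold nn
      refine div_le_div_of_nonneg_right ?_ (Nat.cast_nonneg _)
      split
      · exact le_rfl
      · rw [norm_zero]
        have : 0 ≤ ‖Rr ρ S‖ ^ 2 := sq_nonneg _
        simpa using this
    refine (Finset.sum_le_sum h1).trans ?_
    have h2 := Finset.prod_one_add (s := P) (f := fun p : ℕ => 2 * xw ρ p)
    rw [← h2]
    have h3 : ∏ p ∈ P, (1 + 2 * xw ρ p) ≤ ∏ p ∈ P, Real.exp (2 * xw ρ p) := by
      refine Finset.prod_le_prod (fun p _ => by have := xw_nonneg ρ p; positivity) fun p _ => ?_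
      have := Real.add_one_le_exp (2 * xw ρ p)
      linarith
    refine h3.trans (le_of_eq ?_)
    rw [← Real.exp_sum, mul_sum]

/-- the fourth moment of the resonator -/
theorem N2_fourg {P : Finset ℕ} (hP : ∀ p ∈ P, p.Prime) {K N M : ℕ} {ρ : ℕ → ℂ} (hN : ∀ n, rg P K ρ n ≠ 0 → n ≤ N) :
    N2 M (cv (rg P K ρ) (rg P K ρ)) ≤ Real.exp (4 * ∑ p ∈ P, xw ρ p) := by
  have h1 := conv_sum M N N (fun n => (2 : ℝ) ^ om n * ‖rg P K ρ n‖ ^ 2) (fun n => (2 : ℝ) ^ om n * ‖rg P K ρ n‖ ^ 2)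
    (fun n => by positivity) (fun n => by positivity) (by
      intro n h
      have h2 : rg P K ρ n ≠ 0 := fun h' => h (by rw [h', norm_zero]; simp)
      exact ⟨Nat.one_le_iff_ne_zero.2 (rg_ne h2).1.1.ne_zero, hN n h2⟩) (by
      intro n h
      have h2 : rg P K ρ n ≠ 0 := fun h' => h (by rw [h', norm_zero]; simp)
      exact ⟨Nat.one_le_iff_ne_zero.2 (rg_ne h2).1.1.ne_zero, hN n h2⟩)
  have h2 := wtg_sum_exp hP (K := K) (M := N) (ρ := ρ)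
  have h3 : 0 ≤ ∑ n ∈ Icc 1 N, ((2 : ℝ) ^ om n * ‖rg P K ρ n‖ ^ 2) / (n : ℝ) := Finset.sum_nonneg fun n _ => by positivity
  calc N2 M (cv (rg P K ρ) (rg P K ρ)) ≤ ∑ n ∈ Icc 1 M, (∑ x ∈ n.divisorsAntidiagonal,
        ((2 : ℝ) ^ om x.1 * ‖rg P K ρ x.1‖ ^ 2) * ((2 : ℝ) ^ om x.2 * ‖rg P K ρ x.2‖ ^ 2)) / (n : ℝ) := by
        unfold N2
        refine Finset.sum_le_sum fun n _ => ?_
        exact div_le_div_of_nonneg_right (fourg_pt n) (Nat.cast_nonneg _)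
    _ ≤ _ := h1
    _ ≤ Real.exp (2 * ∑ p ∈ P, xw ρ p) * Real.exp (2 * ∑ p ∈ P, xw ρ p) :=
        mul_le_mul h2 h2 h3 (Real.exp_pos _).le
    _ = _ := by
        rw [← Real.exp_add]
        congr 1
        ring

/-! ### the choice of the resonator -/

/-- the value of the resonator at a prime with prescribed `conj ρ / (1 + |ρ|² / p) = s` -/
def rho (s : ℕ → ℂ) (p : ℕ) : ℂ := 2 * (starRingEnd ℂ) (s p) / ((1 + Real.sqrt (1 - 4 * ‖s p‖ ^ 2 / p) : ℝ) : ℂ)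

theorem rho_le (s : ℕ → ℂ) (p : ℕ) : ‖rho s p‖ ≤ 2 * ‖s p‖ := by
  unfold rho
  have h0 := Real.sqrt_nonneg (1 - 4 * ‖s p‖ ^ 2 / p)
  rw [norm_div, norm_mul, RCLike.norm_conj, Complex.norm_real, Real.norm_eq_abs, abs_of_nonneg (by linarith)]
  simp only [Complex.norm_ofNat]
  exact div_le_self (by positivity) (by linarith)

theorem rho_eq {s : ℕ → ℂ} {p : ℕ} (hp : 0 < p) (h : 4 * ‖s p‖ ^ 2 ≤ p) :
    (starRingEnd ℂ) (rho s p) / ((1 + xw (rho s) p : ℝ) : ℂ) = s p := by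
  have hp0 : (0 : ℝ) < p := by exact_mod_cast hp
  obtain ⟨r, hr⟩ : ∃ r : ℝ, r = Real.sqrt (1 - 4 * ‖s p‖ ^ 2 / p) := ⟨_, rfl⟩
  have hr0 : 0 ≤ r := by rw [hr]; exact Real.sqrt_nonneg _
  have hr2 : r ^ 2 = 1 - 4 * ‖s p‖ ^ 2 / p := by
    rw [hr, Real.sq_sqrt]
    have : 4 * ‖s p‖ ^ 2 / p ≤ 1 := by rw [div_le_one hp0]; exact h
    linarith
  have h1 : rho s p = 2 * (starRingEnd ℂ) (s p) / ((1 + r : ℝ) : ℂ) := by
    unfold rho
    rw [hr]
  have h1r : (1 + r) ≠ 0 := by linarith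
  have hx : 1 + xw (rho s) p = 2 / (1 + r) := by
    unfold xw
    rw [h1, norm_div, norm_mul, RCLike.norm_conj, Complex.norm_real, Real.norm_eq_abs, abs_of_nonneg (by linarith : 0 ≤ 1 + r)]
    simp only [Complex.norm_ofNat]
    have h2 : 4 * ‖s p‖ ^ 2 = p * (1 - r ^ 2) := by
      rw [hr2]
      field_simp
      ring
    have h3 : (2 * ‖s p‖ / (1 + r)) ^ 2 / p = (1 - r ^ 2) / (1 + r) ^ 2 := by
      rw [div_pow, mul_pow, show (2 : ℝ) ^ 2 = 4 by norm_num, h2]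
      field_simp
    rw [h3]
    field_simp
    ring
  rw [hx, h1, map_div₀, map_mul, Complex.conj_conj, Complex.conj_ofReal, Complex.conj_ofNat]
  have h1c : ((1 + r : ℝ) : ℂ) ≠ 0 := by exact_mod_cast h1r
  push_cast at h1c ⊢
  field_simp

/-- the mean with the chosen resonator -/
theorem AA_rho {s v : ℕ → ℂ} {P : Finset ℕ} (hP : ∀ p ∈ P, 0 < p) (h : ∀ p ∈ P, 4 * ‖s p‖ ^ 2 ≤ p) :
    AA (rho s) v P = ∑ p ∈ P, v p * s p / p := by
  unfold AA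
  refine sum_congr rfl fun p hp => ?_
  have h1 := rho_eq (hP p hp) (h p hp)
  calc v p * (starRingEnd ℂ) (rho s p) / p / ((1 + xw (rho s) p : ℝ) : ℂ) =
        v p * ((starRingEnd ℂ) (rho s p) / ((1 + xw (rho s) p : ℝ) : ℂ)) / p := by ring
    _ = _ := by rw [h1]

theorem xw_rho (s : ℕ → ℂ) (p : ℕ) : xw (rho s) p ≤ 4 * ‖s p‖ ^ 2 / p := by
  unfold xw
  refine div_le_div_of_nonneg_right ?_ (Nat.cast_nonneg _)
  calc ‖rho s p‖ ^ 2 ≤ (2 * ‖s p‖) ^ 2 := pow_le_pow_left₀ (norm_nonneg _) (rho_le s p) 2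
    _ = _ := by ring

end

end Pool.Agent.U761.SZ
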