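import Pool.Agent.U761.SZ.LDF
import Pool.Agent.U761.SZ.GR3

set_option autoImplicit false

/-!
U761.SZ: measure lower bounds from a resonator; shifts.
-/

namespace Pool.Agent.U761.SZ

open Filter Topology MeasureTheory Complex
open Pool.Agent.Q97.UM Pool.Agent.Q247.UM Pool.Agent.Q241.UM
open Pool.Agent.Q98.UM (dp_prc supp_zero)

noncomputable section

/-- the measure of the set where a nonnegative function with small relative mean is small -/
theorem gm {T : ℝ} (hT16 : 16 ≤ T) {N : ℕ} (hN : (N : ℝ) ≤ T ^ (1 / 8 : ℝ)) {r : ℕ → ℂ}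
    (hrN : ∀ n, r n ≠ 0 → 1 ≤ n ∧ n ≤ N) (hn1 : 1 ≤ N2 N r) {Q : ℝ} (hfour : N2 (N * N) (cv r r) ≤ Real.exp Q)
    {g : ℝ → ℝ} (hg : Measurable g) (hg0 : ∀ t, 0 ≤ g t) {B : ℝ} (hB : 0 < B)
    (hI : IntervalIntegrable (fun t => g t * ‖dp N r t‖ ^ 2) volume T (2 * T))
    (hb : ∫ t in T..(2 * T), g t * ‖dp N r t‖ ^ 2 ≤ B * (T * N2 N r)) :
    T / 32 * Real.exp (-Q) ≤ (volume {t : ℝ | T < t ∧ t ≤ 2 * T ∧ g t ≤ 4 * B}).toReal := by
  have hMV : S_MVL := Pool.Agent.Q84.UM.t_MVL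
  have hD : S_DPM := Pool.Agent.Q84.UM.t_DPM
  have hT0 : 0 < T := by linarith
  have hT1 : 1 ≤ T := by linarith
  obtain ⟨n2, hn2⟩ : ∃ n2 : ℝ, n2 = N2 N r := ⟨_, rfl⟩
  rw [← hn2] at hb hn1
  have hn20 : 0 < n2 := by linarith
  have hNT4 : (N : ℝ) ≤ T ^ (1 / 4 : ℝ) := hN.trans (Real.rpow_le_rpow_of_exponent_le hT1 (by norm_num))
  have hNN : ((N * N : ℕ) : ℝ) ≤ T ^ (1 / 4 : ℝ) := by
    push_cast
    calc (N : ℝ) * N ≤ T ^ (1 / 8 : ℝ) * T ^ (1 / 8 : ℝ) := mul_le_mul hN hN (Nat.cast_nonneg _) (by positivity)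
      _ = T ^ (1 / 4 : ℝ) := by
          rw [← Real.rpow_add hT0]
          norm_num
  have hlow := (hMV T hT16 N hNT4 r).1
  rw [← hn2] at hlow
  have hup := (hMV T hT16 (N * N) hNN (cv r r)).2
  set E : Set ℝ := {t : ℝ | T < t ∧ t ≤ 2 * T ∧ g t ≤ 4 * B} with hE
  have hEm : MeasurableSet E := by
    have h1 : MeasurableSet {t : ℝ | g t ≤ 4 * B} := measurableSet_le hg measurable_const
    have h2 : E = Set.Ioc T (2 * T) ∩ {t : ℝ | g t ≤ 4 * B} := by
      ext t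
      simp only [hE, Set.mem_setOf_eq, Set.mem_inter_iff, Set.mem_Ioc]
      tauto
    rw [h2]
    exact measurableSet_Ioc.inter h1
  have hEs : E ⊆ Set.Ioc T (2 * T) := fun t ht => ⟨ht.1, ht.2.1⟩
  set F : ℝ → ℝ := fun t => ‖dp N r t‖ ^ 2 with hF
  have hFc : Continuous F := (dp_cont N r).norm.pow 2
  have hF0 : ∀ t, 0 ≤ F t := fun t => by positivity
  have hTT : T ≤ 2 * T := by linarith
  have hFi : IntegrableOn F (Set.Ioc T (2 * T)) :=
    (hFc.integrableOn_Icc (a := T) (b := 2 * T)).mono_set Set.Ioc_subset_Icc_self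
  -- the mass outside `E`
  have hout : ∫ t in Set.Ioc T (2 * T) \ E, F t ≤ T * n2 / 4 := by
    have hGi : IntegrableOn (fun t => g t * F t) (Set.Ioc T (2 * T)) :=
      (intervalIntegrable_iff_integrableOn_Ioc_of_le hTT).1 hI
    have h1 : ∫ t in Set.Ioc T (2 * T) \ E, F t ≤ ∫ t in Set.Ioc T (2 * T) \ E, (1 / (4 * B)) * (g t * F t) := by
      refine setIntegral_mono_on (hFi.mono_set Set.diff_subset) ((hGi.mono_set Set.diff_subset).const_mul _)
        (measurableSet_Ioc.diff hEm) fun t ht => ?_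
      have h2 : 4 * B < g t := by
        by_contra hcon
        push Not at hcon
        exact ht.2 ⟨ht.1.1, ht.1.2, hcon⟩
      have h6 : F t = 1 / (4 * B) * (4 * B * F t) := by field_simp
      calc F t = 1 / (4 * B) * (4 * B * F t) := h6
        _ ≤ 1 / (4 * B) * (g t * F t) := by
            refine mul_le_mul_of_nonneg_left ?_ (by positivity)
            exact mul_le_mul_of_nonneg_right h2.le (hF0 t)
    refine h1.trans ?_
    rw [integral_const_mul]
    have h2 : ∫ t in Set.Ioc T (2 * T) \ E, g t * F t ≤ B * (T * n2) := by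
      refine le_trans ?_ hb
      rw [intervalIntegral.integral_of_le hTT]
      exact setIntegral_mono_set hGi (Eventually.of_forall fun t => mul_nonneg (hg0 t) (hF0 t))
        (Eventually.of_forall Set.diff_subset)
    calc 1 / (4 * B) * ∫ t in Set.Ioc T (2 * T) \ E, g t * F t ≤ 1 / (4 * B) * (B * (T * n2)) :=
          mul_le_mul_of_nonneg_left h2 (by positivity)
      _ = T * n2 / 4 := by
          field_simp
  have hin : T * n2 / 4 ≤ ∫ t in E, F t := by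
    have h1 : ∫ t in Set.Ioc T (2 * T), F t = (∫ t in E, F t) + ∫ t in Set.Ioc T (2 * T) \ E, F t := by
      have h2 := integral_inter_add_diff hEm hFi
      rw [Set.inter_eq_self_of_subset_right hEs] at h2
      exact h2.symm
    rw [intervalIntegral.integral_of_le hTT] at hlow
    have h3 : T / 2 * n2 ≤ ∫ t in Set.Ioc T (2 * T), F t := hlow
    rw [h1] at h3
    linarith
  have hcs := cs_set hFc hF0 hTT hEm hEs
  have h4 : ∫ t in T..(2 * T), F t ^ 2 ≤ 2 * T * Real.exp Q := by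
    have e1 : (fun t => F t ^ 2) = fun t => ‖dp (N * N) (cv r r) t‖ ^ 2 := by
      funext t
      simp only [hF]
      rw [← hD.1 N N r r t (supp_zero hrN) (supp_zero hrN), norm_mul]
      ring
    rw [e1]
    exact hup.trans (mul_le_mul_of_nonneg_left hfour (by positivity))
  have hm0 : 0 ≤ (volume E).toReal := ENNReal.toReal_nonneg
  have h5 : (T * n2 / 4) ^ 2 ≤ (volume E).toReal * (2 * T * Real.exp Q) :=
    (pow_le_pow_left₀ (by positivity) hin 2).trans (hcs.trans (mul_le_mul_of_nonneg_left h4 hm0))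
  have h6 : (T / 4) ^ 2 ≤ (T * n2 / 4) ^ 2 := by
    refine pow_le_pow_left₀ (by positivity) ?_ 2
    have : T * 1 ≤ T * n2 := mul_le_mul_of_nonneg_left hn1 hT0.le
    linarith
  have h7 : T ^ 2 / 16 ≤ (volume E).toReal * (2 * T * Real.exp Q) := by
    refine le_trans (le_of_eq ?_) (h6.trans h5)
    ring
  have h8 : T / 32 ≤ (volume E).toReal * Real.exp Q := by
    have h9 : T * (T / 32) ≤ T * ((volume E).toReal * Real.exp Q) := by
      calc T * (T / 32) = (T ^ 2 / 16) / 2 := by ring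
        _ ≤ ((volume E).toReal * (2 * T * Real.exp Q)) / 2 := by linarith
        _ = _ := by ring
    exact le_of_mul_le_mul_left h9 hT0
  have h9 : T / 32 * Real.exp (-Q) ≤ (volume E).toReal * Real.exp Q * Real.exp (-Q) :=
    mul_le_mul_of_nonneg_right h8 (Real.exp_pos _).le
  rw [mul_assoc, ← Real.exp_add, add_neg_cancel, Real.exp_zero, mul_one] at h9
  exact h9

/-- the shift of a Dirichlet polynomial -/
def shc (h : ℝ) (b : ℕ → ℂ) (n : ℕ) : ℂ := b n * (n : ℂ) ^ ((h : ℂ) * I)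

theorem shc_dp (N : ℕ) (b : ℕ → ℂ) (h t : ℝ) : dp N (shc h b) (t + h) = dp N b t := by
  unfold dp shc
  refine Finset.sum_congr rfl fun n hn => ?_
  have hn0 : (n : ℂ) ≠ 0 := by
    have := (Finset.mem_Icc.1 hn).1
    exact_mod_cast (by omega : n ≠ 0)
  rw [mul_assoc, ← cpow_add _ _ hn0]
  congr 2
  push_cast
  ring

theorem shc_norm (h : ℝ) (b : ℕ → ℂ) {n : ℕ} (hn : 1 ≤ n) : ‖shc h b n‖ = ‖b n‖ := by
  unfold shc
  rw [norm_mul, Complex.norm_natCast_cpow_of_pos (by omega)]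
  simp

theorem shc_N2 (h : ℝ) (N : ℕ) (b : ℕ → ℂ) : N2 N (shc h b) = N2 N b := by
  unfold N2
  refine Finset.sum_congr rfl fun n hn => ?_
  rw [shc_norm h b (Finset.mem_Icc.1 hn).1]

/-- the approximation of `log ζ` at a shifted point, relative to every Dirichlet polynomial -/
theorem THH : ∀ m : ℕ, ∃ θ δ₀ : ℝ, 0 < θ ∧ 0 < δ₀ ∧ ∀ δ : ℝ, 0 < δ → δ ≤ δ₀ → ∃ C : ℝ, 0 ≤ C ∧ ∀ᶠ T : ℝ in atTop,
    ∀ h : ℝ, |h| ≤ T / 2 → ∀ N : ℕ, (N : ℝ) ≤ T ^ θ → ∀ b : ℕ → ℂ,
    IntervalIntegrable (fun t => ‖Lz (t + h) - LE ⌊T ^ δ⌋₊ (t + h)‖ ^ m * ‖dp N b t‖ ^ 2) volume T (2 * T) ∧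
    ∫ t in T..(2 * T), ‖Lz (t + h) - LE ⌊T ^ δ⌋₊ (t + h)‖ ^ m * ‖dp N b t‖ ^ 2 ≤ C * T * N2 N b := by
  intro m
  obtain ⟨θ, δ₀, hθ, hδ₀, h1⟩ := THS m
  refine ⟨θ, δ₀, hθ, hδ₀, fun δ hδ hδ' => ?_⟩
  obtain ⟨C, hC, h2⟩ := h1 δ hδ hδ'
  refine ⟨C, hC, ?_⟩
  filter_upwards [h2, eventually_ge_atTop 1] with T h3 hT h hh N hN b
  obtain ⟨h4, h5⟩ := h3 N hN (shc h b)
  obtain ⟨h6, h7⟩ := abs_le.1 hh
  set f : ℝ → ℝ := fun u => ‖Lz u - LE ⌊T ^ δ⌋₊ u‖ ^ m * ‖dp N (shc h b) u‖ ^ 2 with hf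
  have e : (fun t => ‖Lz (t + h) - LE ⌊T ^ δ⌋₊ (t + h)‖ ^ m * ‖dp N b t‖ ^ 2) = fun t => f (t + h) := by
    funext t
    simp only [hf]
    rw [shc_dp]
  have hi : IntervalIntegrable f volume (T + h) (2 * T + h) := by
    refine h4.mono_set ?_
    rw [Set.uIcc_of_le (by linarith), Set.uIcc_of_le (by linarith)]
    exact Set.Icc_subset_Icc (by linarith) (by linarith)
  rw [e]
  refine ⟨?_, ?_⟩
  · have := hi.comp_add_right h
    simpa using this
  · rw [intervalIntegral.integral_comp_add_right]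
    refine (intervalIntegral.integral_mono_interval (by linarith) (by linarith) (by linarith) ?_ h4).trans ?_
    · exact Eventually.of_forall fun t => by simp only [hf, Pi.zero_apply]; positivity
    · rw [← shc_N2 h N b]
      exact h5

end

end Pool.Agent.U761.SZ
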