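import Pool.Agent.U761.SZ.R2

/-!
U761.SZ: general resonators: arbitrary complex values at the primes.
-/

set_option autoImplicit false

namespace Pool.Agent.U761.SZ

open Finset
open Pool.Agent.Q241.UM
open Pool.Agent.Q97.UM (N2 cv prc)

noncomputable section

/-- the product over a set -/
def Rr (ρ : ℕ → ℂ) (S : Finset ℕ) : ℂ := ∏ p ∈ S, ρ p

/-- the convolution with `v` -/
def Ff (ρ v : ℕ → ℂ) (S : Finset ℕ) : ℂ := ∑ p ∈ S, v p * Rr ρ (S.erase p)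

/-- the product of the primes, a real number -/
def nn (S : Finset ℕ) : ℝ := ((∏ p ∈ S, p : ℕ) : ℝ)

/-- the weights -/
def xw (ρ : ℕ → ℂ) (p : ℕ) : ℝ := ‖ρ p‖ ^ 2 / p

/-- the mean -/
def AA (ρ v : ℕ → ℂ) (P : Finset ℕ) : ℂ := ∑ p ∈ P, v p * (starRingEnd ℂ) (ρ p) / p / ((1 + xw ρ p : ℝ) : ℂ)

theorem xw_nonneg (ρ : ℕ → ℂ) (p : ℕ) : 0 ≤ xw ρ p := by unfold xw; positivity

theorem Rr_ins {ρ : ℕ → ℂ} {a : ℕ} {S : Finset ℕ} (h : a ∉ S) : Rr ρ (insert a S) = ρ a * Rr ρ S := Finset.prod_insert h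

theorem Ff_ins {ρ v : ℕ → ℂ} {a : ℕ} {S : Finset ℕ} (h : a ∉ S) : Ff ρ v (insert a S) = v a * Rr ρ S + ρ a * Ff ρ v S := by
  unfold Ff
  rw [Finset.sum_insert h, Finset.erase_insert h, Finset.mul_sum]
  congr 1
  refine sum_congr rfl fun p hp => ?_
  have hpa : a ≠ p := fun e => h (e ▸ hp)
  rw [Finset.erase_insert_of_ne hpa, Rr_ins (fun h' => h (Finset.mem_of_mem_erase h'))]
  ring

theorem nn_ins {a : ℕ} {S : Finset ℕ} (h : a ∉ S) : nn (insert a S) = a * nn S := by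
  unfold nn
  rw [Finset.prod_insert h]
  push_cast
  ring

theorem nn_pos {P S : Finset ℕ} (hP : ∀ p ∈ P, 0 < p) (hS : S ⊆ P) : 0 < nn S := by
  unfold nn
  have : 0 < ∏ p ∈ S, p := Finset.prod_pos fun p hp => hP p (hS hp)
  exact_mod_cast this

theorem Rr_wt (ρ : ℕ → ℂ) (S : Finset ℕ) : ‖Rr ρ S‖ ^ 2 / nn S = wt (xw ρ) S := by
  unfold Rr nn wt xw
  rw [Finset.prod_div_distrib, norm_prod, Finset.prod_pow]
  push_cast
  rfl

theorem Rr_conj (ρ : ℕ → ℂ) (S : Finset ℕ) : Rr ρ S * (starRingEnd ℂ) (Rr ρ S) / (nn S : ℂ) = (wt (xw ρ) S : ℂ) := by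
  rw [Complex.mul_conj, Complex.normSq_eq_norm_sq, ← Rr_wt]
  push_cast
  rfl

/-- the first moment -/
theorem gmom1 (ρ v : ℕ → ℂ) (P : Finset ℕ) (hP : ∀ p ∈ P, 0 < p) :
    ∑ S ∈ P.powerset, Ff ρ v S * (starRingEnd ℂ) (Rr ρ S) / (nn S : ℂ) = AA ρ v P * (E0 (xw ρ) P : ℂ) := by
  induction P using Finset.induction_on with
  | empty => simp [Ff, AA]
  | insert a P h ih =>
    have ha : 0 < a := hP a (Finset.mem_insert_self a P)
    have haC : (a : ℂ) ≠ 0 := by exact_mod_cast ha.ne'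
    have ih := ih fun p hp => hP p (Finset.mem_insert_of_mem hp)
    rw [sum_ins h, E0_ins h]
    have h1 : AA ρ v (insert a P) = v a * (starRingEnd ℂ) (ρ a) / a / ((1 + xw ρ a : ℝ) : ℂ) + AA ρ v P := by
      unfold AA
      rw [Finset.sum_insert h]
    rw [h1]
    have hx1 : ((1 + xw ρ a : ℝ) : ℂ) ≠ 0 := by
      have := xw_nonneg ρ a
      exact_mod_cast (by linarith : (1 + xw ρ a : ℝ) ≠ 0)
    have hxa : ρ a * (starRingEnd ℂ) (ρ a) / (a : ℂ) = (xw ρ a : ℂ) := by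
      rw [Complex.mul_conj, Complex.normSq_eq_norm_sq]
      unfold xw
      push_cast
      rfl
    have h2 : ∀ S ∈ P.powerset, Ff ρ v S * (starRingEnd ℂ) (Rr ρ S) / (nn S : ℂ) +
        Ff ρ v (insert a S) * (starRingEnd ℂ) (Rr ρ (insert a S)) / (nn (insert a S) : ℂ) =
        (1 + (xw ρ a : ℂ)) * (Ff ρ v S * (starRingEnd ℂ) (Rr ρ S) / (nn S : ℂ)) +
          v a * (starRingEnd ℂ) (ρ a) / a * (wt (xw ρ) S : ℂ) := by
      intro S hS
      have haS := not_mem_of_powerset h hS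
      have hn : (nn S : ℂ) ≠ 0 := by
        have := nn_pos (fun p hp => hP p (Finset.mem_insert_of_mem hp)) (Finset.mem_powerset.1 hS)
        exact_mod_cast this.ne'
      rw [Ff_ins haS, Rr_ins haS, nn_ins haS, ← Rr_conj, ← hxa, map_mul]
      push_cast
      field_simp
      ring
    rw [← sum_add_distrib, sum_congr rfl h2, sum_add_distrib, ← mul_sum, ← mul_sum, ih]
    have h3 : ∑ S ∈ P.powerset, (wt (xw ρ) S : ℂ) = (E0 (xw ρ) P : ℂ) := by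
      unfold E0
      push_cast
      rfl
    rw [h3]
    push_cast at hx1 ⊢
    field_simp
    ring

/-- the second moment -/
theorem gmom2 (ρ v : ℕ → ℂ) (P : Finset ℕ) (hP : ∀ p ∈ P, 0 < p) : ∀ B : ℂ,
    ∑ S ∈ P.powerset, ‖Ff ρ v S - B * Rr ρ S‖ ^ 2 / nn S ≤
      (∑ p ∈ P, ‖v p‖ ^ 2 / p + ‖AA ρ v P - B‖ ^ 2) * E0 (xw ρ) P := by
  induction P using Finset.induction_on with
  | empty =>
    intro B
    simp [Ff, AA, E0, wt, Rr, nn]
  | insert a P h ih =>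
    intro B
    have ha : 0 < a := hP a (Finset.mem_insert_self a P)
    have haR : (0 : ℝ) < a := by exact_mod_cast ha
    have haC : (a : ℂ) ≠ 0 := by exact_mod_cast ha.ne'
    have hP' : ∀ p ∈ P, 0 < p := fun p hp => hP p (Finset.mem_insert_of_mem hp)
    have ih := ih hP' B
    have hE := E0_pos (xw_nonneg ρ) P
    rw [sum_ins h, E0_ins h, Finset.sum_insert h]
    have h1 : AA ρ v (insert a P) = v a * (starRingEnd ℂ) (ρ a) / a / ((1 + xw ρ a : ℝ) : ℂ) + AA ρ v P := by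
      unfold AA
      rw [Finset.sum_insert h]
    rw [h1]
    have hx0 := xw_nonneg ρ a
    have h2 : ∀ S ∈ P.powerset, ‖Ff ρ v S - B * Rr ρ S‖ ^ 2 / nn S +
        ‖Ff ρ v (insert a S) - B * Rr ρ (insert a S)‖ ^ 2 / nn (insert a S) =
        (1 + xw ρ a) * (‖Ff ρ v S - B * Rr ρ S‖ ^ 2 / nn S) + ‖v a‖ ^ 2 / a * wt (xw ρ) S +
          2 * (ρ a * (starRingEnd ℂ) (v a) / a * ((Ff ρ v S - B * Rr ρ S) * (starRingEnd ℂ) (Rr ρ S) / (nn S : ℂ))).re := by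
      intro S hS
      have haS := not_mem_of_powerset h hS
      have hn := nn_pos hP' (Finset.mem_powerset.1 hS)
      have hnC : (nn S : ℂ) ≠ 0 := by exact_mod_cast hn.ne'
      rw [Ff_ins haS, Rr_ins haS, nn_ins haS, ← Rr_wt]
      have e1 : v a * Rr ρ S + ρ a * Ff ρ v S - B * (ρ a * Rr ρ S) = ρ a * (Ff ρ v S - B * Rr ρ S) + v a * Rr ρ S := by ring
      rw [e1]
      set F := Ff ρ v S - B * Rr ρ S with hF
      have e2 : ‖ρ a * F + v a * Rr ρ S‖ ^ 2 = ‖ρ a‖ ^ 2 * ‖F‖ ^ 2 + ‖v a‖ ^ 2 * ‖Rr ρ S‖ ^ 2 +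
          2 * (ρ a * F * (starRingEnd ℂ) (v a * Rr ρ S)).re := by
        rw [← Complex.normSq_eq_norm_sq, Complex.normSq_add, Complex.normSq_mul, Complex.normSq_mul,
          Complex.normSq_eq_norm_sq, Complex.normSq_eq_norm_sq, Complex.normSq_eq_norm_sq, Complex.normSq_eq_norm_sq]
      have e3 : (ρ a * (starRingEnd ℂ) (v a) / a * (F * (starRingEnd ℂ) (Rr ρ S) / (nn S : ℂ))).re =
          (ρ a * F * (starRingEnd ℂ) (v a * Rr ρ S)).re / (a * nn S) := by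
        have : ρ a * (starRingEnd ℂ) (v a) / a * (F * (starRingEnd ℂ) (Rr ρ S) / (nn S : ℂ)) =
            ρ a * F * (starRingEnd ℂ) (v a * Rr ρ S) / ((a * nn S : ℝ) : ℂ) := by
          rw [map_mul]
          push_cast
          field_simp
        rw [this, Complex.div_ofReal_re]
      rw [e2, e3]
      unfold xw
      field_simp
      ring
    rw [← sum_add_distrib, sum_congr rfl h2, sum_add_distrib, sum_add_distrib, ← mul_sum, ← mul_sum, ← mul_sum]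
    have h3 : ∑ S ∈ P.powerset, wt (xw ρ) S = E0 (xw ρ) P := rfl
    rw [h3]
    have h4 : ∑ S ∈ P.powerset, (ρ a * (starRingEnd ℂ) (v a) / a * ((Ff ρ v S - B * Rr ρ S) * (starRingEnd ℂ) (Rr ρ S) / (nn S : ℂ))).re =
        (ρ a * (starRingEnd ℂ) (v a) / a * (AA ρ v P - B)).re * E0 (xw ρ) P := by
      rw [← Complex.re_sum, ← mul_sum]
      have h5 : ∑ S ∈ P.powerset, (Ff ρ v S - B * Rr ρ S) * (starRingEnd ℂ) (Rr ρ S) / (nn S : ℂ) = (AA ρ v P - B) * (E0 (xw ρ) P : ℂ) := by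
        have h6 : ∀ S ∈ P.powerset, (Ff ρ v S - B * Rr ρ S) * (starRingEnd ℂ) (Rr ρ S) / (nn S : ℂ) =
            Ff ρ v S * (starRingEnd ℂ) (Rr ρ S) / (nn S : ℂ) - B * (wt (xw ρ) S : ℂ) := by
          intro S _
          rw [← Rr_conj]
          ring
        rw [sum_congr rfl h6, sum_sub_distrib, ← mul_sum, gmom1 ρ v P hP', sub_mul]
        congr 2
        unfold E0
        push_cast
        rfl
      rw [h5, ← mul_assoc, Complex.re_mul_ofReal]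
    rw [h4]
    set D := AA ρ v P - B with hD
    set α := v a * (starRingEnd ℂ) (ρ a) / (a : ℂ) with hα
    have h5 : (ρ a * (starRingEnd ℂ) (v a) / a * D).re = (D * (starRingEnd ℂ) α).re := by
      rw [hα, map_div₀, map_mul, Complex.conj_conj, Complex.conj_natCast]
      congr 1
      ring
    rw [h5]
    have h6 : ‖α / ((1 + xw ρ a : ℝ) : ℂ) + AA ρ v P - B‖ ^ 2 = ‖D‖ ^ 2 + ‖α‖ ^ 2 / (1 + xw ρ a) ^ 2 +
        2 * (D * (starRingEnd ℂ) α).re / (1 + xw ρ a) := by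
      have e1 : α / ((1 + xw ρ a : ℝ) : ℂ) + AA ρ v P - B = D + α / ((1 + xw ρ a : ℝ) : ℂ) := by rw [hD]; ring
      rw [e1, ← Complex.normSq_eq_norm_sq, Complex.normSq_add, Complex.normSq_eq_norm_sq, Complex.normSq_eq_norm_sq, norm_div,
        Complex.norm_real, Real.norm_eq_abs, div_pow, sq_abs, map_div₀, Complex.conj_ofReal, ← mul_div_assoc, Complex.div_ofReal_re]
      ring
    rw [h6]
    set E := E0 (xw ρ) P with hEd
    set V := ∑ p ∈ P, ‖v p‖ ^ 2 / (p : ℝ) with hV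
    set y := xw ρ a with hy
    set Φ := ∑ S ∈ P.powerset, ‖Ff ρ v S - B * Rr ρ S‖ ^ 2 / nn S with hΦ
    set c := (D * (starRingEnd ℂ) α).re with hc
    have e1 : (1 + y) * Φ ≤ (1 + y) * ((V + ‖D‖ ^ 2) * E) := mul_le_mul_of_nonneg_left ih (by linarith)
    have e2 : (‖v a‖ ^ 2 / a + V + (‖D‖ ^ 2 + ‖α‖ ^ 2 / (1 + y) ^ 2 + 2 * c / (1 + y))) * ((1 + y) * E) =
        (1 + y) * ((V + ‖D‖ ^ 2) * E) + ‖v a‖ ^ 2 / a * E + 2 * (c * E) +
          (y * (‖v a‖ ^ 2 / a) * E + ‖α‖ ^ 2 / (1 + y) * E) := by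
      have : 1 + y ≠ 0 := by linarith
      field_simp
      ring
    rw [e2]
    have e3 : 0 ≤ y * (‖v a‖ ^ 2 / a) * E + ‖α‖ ^ 2 / (1 + y) * E := by positivity
    linarith

/-- the mean is bounded by Cauchy's inequality -/
theorem AA_sq (ρ v : ℕ → ℂ) (P : Finset ℕ) : ‖AA ρ v P‖ ^ 2 ≤ (∑ p ∈ P, ‖v p‖ ^ 2 / p) * ∑ p ∈ P, xw ρ p := by
  have h1 : ‖AA ρ v P‖ ≤ ∑ p ∈ P, (‖v p‖ / Real.sqrt p) * (‖ρ p‖ / Real.sqrt p) := by
    unfold AA
    refine (norm_sum_le _ _).trans (Finset.sum_le_sum fun p _ => ?_)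
    rw [norm_div, norm_div, norm_mul, RCLike.norm_conj, Complex.norm_natCast, Complex.norm_real, Real.norm_eq_abs]
    have h0 := xw_nonneg ρ p
    rw [abs_of_nonneg (by linarith)]
    have h2 : ‖v p‖ * ‖ρ p‖ / p / (1 + xw ρ p) ≤ ‖v p‖ * ‖ρ p‖ / p := div_le_self (by positivity) (by linarith)
    refine h2.trans (le_of_eq ?_)
    rw [div_mul_div_comm, Real.mul_self_sqrt (Nat.cast_nonneg _)]
  have h2 := Finset.sum_mul_sq_le_sq_mul_sq P (fun p => ‖v p‖ / Real.sqrt p) (fun p => ‖ρ p‖ / Real.sqrt p)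
  refine (pow_le_pow_left₀ (norm_nonneg _) h1 2).trans (h2.trans (le_of_eq ?_))
  congr 1
  · refine sum_congr rfl fun p _ => ?_
    rw [div_pow, Real.sq_sqrt (Nat.cast_nonneg _)]
  · refine sum_congr rfl fun p _ => ?_
    rw [div_pow, Real.sq_sqrt (Nat.cast_nonneg _)]
    rfl

/-- the case `v = ρ`: the number of elements -/
theorem Ff_self (ρ : ℕ → ℂ) (S : Finset ℕ) : Ff ρ ρ S = S.card * Rr ρ S := by
  unfold Ff
  have h : ∀ p ∈ S, ρ p * Rr ρ (S.erase p) = Rr ρ S := fun p hp => by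
    unfold Rr
    exact Finset.mul_prod_erase S ρ hp
  rw [sum_congr rfl h, Finset.sum_const, nsmul_eq_mul]

/-- the variance of the number of elements: the mass of one layer far from the mean -/
theorem layer (ρ : ℕ → ℂ) (P : Finset ℕ) (hP : ∀ p ∈ P, 0 < p) {K : ℕ} (hK1 : 1 ≤ K) (hK : 10 * ∑ p ∈ P, xw ρ p ≤ K) :
    (∑ p ∈ P, xw ρ p) * ∑ S ∈ P.powerset.filter (fun S => S.card = K + 1), ‖Rr ρ S‖ ^ 2 / nn S ≤ 1 / 8 * E0 (xw ρ) P := by
  set m := ∑ p ∈ P, xw ρ p with hm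
  have hm0 : 0 ≤ m := Finset.sum_nonneg fun p _ => xw_nonneg ρ p
  have hE := E0_pos (xw_nonneg ρ) P
  have hKr : (1 : ℝ) ≤ K := by exact_mod_cast hK1
  -- the mean
  have hA : AA ρ ρ P = ((∑ p ∈ P, xw ρ p / (1 + xw ρ p) : ℝ) : ℂ) := by
    unfold AA
    push_cast
    refine sum_congr rfl fun p _ => ?_
    rw [Complex.mul_conj, Complex.normSq_eq_norm_sq]
    unfold xw
    push_cast
    rfl
  set m1 := ∑ p ∈ P, xw ρ p / (1 + xw ρ p) with hm1
  have hm10 : 0 ≤ m1 := Finset.sum_nonneg fun p _ => by have := xw_nonneg ρ p; positivity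
  have hm1m : m1 ≤ m := Finset.sum_le_sum fun p _ => div_le_self (xw_nonneg ρ p) (by linarith [xw_nonneg ρ p])
  have h1 := gmom2 ρ ρ P hP (AA ρ ρ P)
  rw [sub_self, norm_zero] at h1
  have h2 : ∑ p ∈ P, ‖ρ p‖ ^ 2 / (p : ℝ) = m := rfl
  rw [h2] at h1
  have h3 : (K : ℝ) ^ 2 * (81 / 100) * ∑ S ∈ P.powerset.filter (fun S => S.card = K + 1), ‖Rr ρ S‖ ^ 2 / nn S ≤
      ∑ S ∈ P.powerset, ‖Ff ρ ρ S - AA ρ ρ P * Rr ρ S‖ ^ 2 / nn S := by
    rw [mul_sum]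
    refine (Finset.sum_le_sum (g := fun S : Finset ℕ => ‖Ff ρ ρ S - AA ρ ρ P * Rr ρ S‖ ^ 2 / nn S) fun S hS => ?_).trans
      (Finset.sum_le_sum_of_subset_of_nonneg (Finset.filter_subset _ _) fun S hS _ => ?_)
    · obtain ⟨hS1, hS2⟩ := Finset.mem_filter.1 hS
      have hn := nn_pos hP (Finset.mem_powerset.1 hS1)
      rw [Ff_self, hA, ← sub_mul, norm_mul, mul_pow, mul_div_assoc]
      refine mul_le_mul_of_nonneg_right ?_ (by positivity)
      have h4 : ((S.card : ℂ) - (m1 : ℂ)) = ((((K : ℝ) + 1 - m1 : ℝ)) : ℂ) := by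
        rw [hS2]
        push_cast
        ring
      rw [h4, Complex.norm_real, Real.norm_eq_abs, sq_abs]
      have h5 : (9 / 10 : ℝ) * K ≤ (K : ℝ) + 1 - m1 := by linarith
      calc (K : ℝ) ^ 2 * (81 / 100) = (9 / 10 * K) ^ 2 := by ring
        _ ≤ _ := pow_le_pow_left₀ (by positivity) h5 2
    · have hn := nn_pos hP (Finset.mem_powerset.1 hS)
      positivity
  set Λ := ∑ S ∈ P.powerset.filter (fun S => S.card = K + 1), ‖Rr ρ S‖ ^ 2 / nn S with hΛ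
  have h4 : (K : ℝ) ^ 2 * (81 / 100) * Λ ≤ m * E0 (xw ρ) P := by
    refine h3.trans (h1.trans (le_of_eq ?_))
    ring
  have hK2 : 0 < (K : ℝ) ^ 2 := by positivity
  have h5 : m * ((K : ℝ) ^ 2 * (81 / 100) * Λ) ≤ m * (m * E0 (xw ρ) P) := mul_le_mul_of_nonneg_left h4 hm0
  have h6 : m * m ≤ (K : ℝ) ^ 2 / 100 := by
    have : m ≤ K / 10 := by linarith
    calc m * m ≤ (K / 10) * (K / 10) := mul_le_mul this this hm0 (by positivity)
      _ = _ := by ring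
  have h7 : m * (m * E0 (xw ρ) P) ≤ (K : ℝ) ^ 2 / 100 * E0 (xw ρ) P := by
    rw [← mul_assoc]
    exact mul_le_mul_of_nonneg_right h6 hE.le
  have h8 : (K : ℝ) ^ 2 * (81 / 100 * (m * Λ)) ≤ (K : ℝ) ^ 2 * (1 / 100 * E0 (xw ρ) P) := by
    calc (K : ℝ) ^ 2 * (81 / 100 * (m * Λ)) = m * ((K : ℝ) ^ 2 * (81 / 100) * Λ) := by ring
      _ ≤ _ := h5
      _ ≤ _ := h7
      _ = _ := by ring
  have h9 := le_of_mul_le_mul_left h8 hK2
  linarith

end

end Pool.Agent.U761.SZ
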