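import Pool.Agent.U761.SZ.GR

/-!
U761.SZ: general resonators, part 2: sums over integers.
-/

set_option autoImplicit false

namespace Pool.Agent.U761.SZ

open Finset
open Pool.Agent.Q241.UM
open Pool.Agent.Q97.UM (N2 cv prc)

noncomputable section

open Classical in
/-- the general resonator -/
def rg (P : Finset ℕ) (K : ℕ) (ρ : ℕ → ℂ) (n : ℕ) : ℂ := if Sq P n ∧ om n ≤ K then Rr ρ n.primeFactors else 0

theorem rg_ne {P : Finset ℕ} {K : ℕ} {ρ : ℕ → ℂ} {n : ℕ} (h : rg P K ρ n ≠ 0) : Sq P n ∧ om n ≤ K := by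
  by_contra h1
  exact h (if_neg h1)

/-- coefficients supported at the primes `≤ X` -/
def pv (X : ℕ) (v : ℕ → ℂ) (n : ℕ) : ℂ := prc X n * v n

theorem pv_ne {X n : ℕ} {v : ℕ → ℂ} (h : pv X v n ≠ 0) : n.Prime ∧ n ≤ X := prc_ne (left_ne_zero_of_mul h)

open Classical in
/-- the main part of the convolution -/
def g1 (P : Finset ℕ) (X : ℕ) (v r : ℕ → ℂ) (n : ℕ) : ℂ :=
  ∑ x ∈ n.divisorsAntidiagonal.filter (fun x => x.1 ∈ P ∧ ¬ x.1 ∣ x.2), pv X v x.1 * r x.2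

open Classical in
/-- the other part -/
def g2 (P : Finset ℕ) (X : ℕ) (v r : ℕ → ℂ) (n : ℕ) : ℂ :=
  ∑ x ∈ n.divisorsAntidiagonal.filter (fun x => ¬ (x.1 ∈ P ∧ ¬ x.1 ∣ x.2)), pv X v x.1 * r x.2

theorem cvg_split (P : Finset ℕ) (X : ℕ) (v r : ℕ → ℂ) (n : ℕ) :
    cv (pv X v) r n = g1 P X v r n + g2 P X v r n := by
  classical
  unfold cv g1 g2
  exact (Finset.sum_filter_add_sum_filter_not _ _ _).symm

theorem g2_sq {P : Finset ℕ} {K X : ℕ} {v ρ : ℕ → ℂ} (n : ℕ) :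
    ‖g2 P X v (rg P K ρ) n‖ ^ 2 ≤ ∑ x ∈ n.divisorsAntidiagonal, ‖pv X v x.1‖ ^ 2 * ‖rg P K ρ x.2‖ ^ 2 := by
  classical
  unfold g2
  set A := n.divisorsAntidiagonal.filter (fun x => ¬ (x.1 ∈ P ∧ ¬ x.1 ∣ x.2)) with hA
  have h0 : ∑ x ∈ A, pv X v x.1 * rg P K ρ x.2 =
      ∑ x ∈ A.filter (fun x => pv X v x.1 * rg P K ρ x.2 ≠ 0), pv X v x.1 * rg P K ρ x.2 :=
    (Finset.sum_filter_ne_zero _).symm
  have hcard : (A.filter (fun x => pv X v x.1 * rg P K ρ x.2 ≠ 0)).card ≤ 1 := by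
    rw [Finset.card_le_one]
    intro x hx y hy
    rw [Finset.mem_filter, hA, Finset.mem_filter, Nat.mem_divisorsAntidiagonal] at hx hy
    obtain ⟨⟨⟨hx1, hn0⟩, hx2⟩, hx3⟩ := hx
    obtain ⟨⟨⟨hy1, -⟩, hy2⟩, hy3⟩ := hy
    have hpx := (pv_ne (left_ne_zero_of_mul hx3)).1
    have hpy := (pv_ne (left_ne_zero_of_mul hy3)).1
    have hrx := (rg_ne (right_ne_zero_of_mul hx3)).1
    have hry := (rg_ne (right_ne_zero_of_mul hy3)).1
    have h1 : x.1 = y.1 := uniq2 hpx hpy hrx hry (hx1.trans hy1.symm) hx2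
    have h2 : x.2 = y.2 := by
      have h3 := hx1.trans hy1.symm
      rw [h1] at h3
      exact Nat.eq_of_mul_eq_mul_left hpy.pos h3
    exact Prod.ext h1 h2
  rw [h0]
  have h1 : ‖∑ x ∈ A.filter (fun x => pv X v x.1 * rg P K ρ x.2 ≠ 0), pv X v x.1 * rg P K ρ x.2‖ ^ 2 ≤
      ∑ x ∈ A.filter (fun x => pv X v x.1 * rg P K ρ x.2 ≠ 0), ‖pv X v x.1 * rg P K ρ x.2‖ ^ 2 := by
    rcases Finset.card_le_one_iff_subset_singleton.1 hcard with ⟨x, hx⟩
    rcases Finset.subset_singleton_iff.1 hx with h | h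
    · rw [h]; simp
    · rw [h]; simp
  refine h1.trans ?_
  refine (Finset.sum_le_sum_of_subset_of_nonneg ((Finset.filter_subset _ _).trans
    (Finset.filter_subset _ _)) fun x _ _ => sq_nonneg _).trans ?_
  refine Finset.sum_le_sum fun x _ => ?_
  rw [norm_mul, mul_pow]

/-- the mean square of the other part -/
theorem N2_g2 {P : Finset ℕ} {K N X M : ℕ} {v ρ : ℕ → ℂ} (hN : ∀ n, rg P K ρ n ≠ 0 → n ≤ N) :
    N2 M (g2 P X v (rg P K ρ)) ≤ (∑ p ∈ (Icc 1 X).filter Nat.Prime, ‖v p‖ ^ 2 / p) * N2 N (rg P K ρ) := by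
  have h1 := conv_sum M X N (fun n => ‖pv X v n‖ ^ 2) (fun n => ‖rg P K ρ n‖ ^ 2) (fun n => sq_nonneg _)
    (fun n => sq_nonneg _) (by
      intro n h
      have h2 : pv X v n ≠ 0 := fun h' => h (by rw [h']; simp)
      exact ⟨(pv_ne h2).1.one_lt.le, (pv_ne h2).2⟩) (by
      intro n h
      have h2 : rg P K ρ n ≠ 0 := fun h' => h (by rw [h']; simp)
      exact ⟨Nat.one_le_iff_ne_zero.2 (rg_ne h2).1.1.ne_zero, hN n h2⟩)
  have h3 : ∑ d ∈ Icc 1 X, ‖pv X v d‖ ^ 2 / (d : ℝ) = ∑ p ∈ (Icc 1 X).filter Nat.Prime, ‖v p‖ ^ 2 / p := by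
    rw [Finset.sum_filter]
    refine sum_congr rfl fun d hd => ?_
    rw [Finset.mem_Icc] at hd
    unfold pv
    rw [norm_mul, mul_pow, prc_norm]
    by_cases h : d.Prime
    · rw [if_pos h, if_pos ⟨h, hd.2⟩, one_mul]
    · rw [if_neg h, if_neg fun h' => h h'.1, zero_mul, zero_div]
  rw [h3] at h1
  refine le_trans ?_ h1
  unfold N2
  refine Finset.sum_le_sum fun n _ => ?_
  exact div_le_div_of_nonneg_right (g2_sq n) (Nat.cast_nonneg _)

/-- the main part on squarefree numbers composed of the primes of `P` -/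
theorem g1_sq {P : Finset ℕ} {K X : ℕ} {v ρ : ℕ → ℂ} (hP : ∀ p ∈ P, p.Prime) (hX : ∀ p ∈ P, p ≤ X) {n : ℕ}
    (hn : Sq P n) :
    g1 P X v (rg P K ρ) n = if om n ≤ K + 1 then Ff ρ v n.primeFactors else 0 := by
  classical
  have hn0 := hn.1.ne_zero
  -- the term of a prime divisor
  have hterm : ∀ p ∈ n.primeFactors, v p * rg P K ρ (n / p) = if om n ≤ K + 1 then v p * Rr ρ (n.primeFactors.erase p) else 0 := by
    intro p hp
    have hpp := Nat.prime_of_mem_primeFactors hp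
    have hpd := Nat.dvd_of_mem_primeFactors hp
    have hpn : p * (n / p) = n := Nat.mul_div_cancel' hpd
    have hsq : Squarefree (n / p) := hn.1.squarefree_of_dvd (Nat.div_dvd_of_dvd hpd)
    have hco : Nat.Coprime p (n / p) := by
      have h1 := hn.1
      rw [← hpn] at h1
      exact Nat.coprime_of_squarefree_mul h1
    have hnd : ¬ p ∣ n / p := fun h => by
      have := Nat.Coprime.eq_one_of_dvd hco h
      exact hpp.one_lt.ne' this
    have hpf : n.primeFactors = insert p (n / p).primeFactors := by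
      conv_lhs => rw [← hpn]
      rw [Nat.primeFactors_mul hpp.ne_zero hsq.ne_zero, hpp.primeFactors]
      rfl
    have hpnot : p ∉ (n / p).primeFactors := fun h => hnd (Nat.dvd_of_mem_primeFactors h)
    have hom : om n = om (n / p) + 1 := by
      unfold om
      rw [hpf, Finset.card_insert_of_notMem hpnot]
    have hSq : Sq P (n / p) := ⟨hsq, fun q hq => hn.2 (hpf ▸ Finset.mem_insert_of_mem hq)⟩
    have her : n.primeFactors.erase p = (n / p).primeFactors := by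
      rw [hpf, Finset.erase_insert hpnot]
    rw [her]
    unfold rg
    by_cases h : om n ≤ K + 1
    · rw [if_pos h, if_pos ⟨hSq, by omega⟩]
    · rw [if_neg h, if_neg fun h' => h (by omega), mul_zero]
  have h2 : g1 P X v (rg P K ρ) n = ∑ p ∈ n.primeFactors, v p * rg P K ρ (n / p) := by
    unfold g1
    rw [Finset.sum_filter]
    rw [Nat.sum_divisorsAntidiagonal (f := fun d m => if d ∈ P ∧ ¬ d ∣ m then pv X v d * rg P K ρ m else 0)]
    symm
    have h3 : n.primeFactors ⊆ n.divisors := fun p hp =>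
      Nat.mem_divisors.2 ⟨Nat.dvd_of_mem_primeFactors hp, hn0⟩
    refine (Finset.sum_subset_zero_on_sdiff h3 ?_ ?_)
    · intro d hd
      rw [Finset.mem_sdiff, Nat.mem_divisors, Nat.mem_primeFactors] at hd
      rw [if_neg]
      rintro ⟨h4, -⟩
      exact hd.2 ⟨hP d h4, hd.1.1, hn0⟩
    · intro p hp
      have hpp := Nat.prime_of_mem_primeFactors hp
      have hpd := Nat.dvd_of_mem_primeFactors hp
      have hpn : p * (n / p) = n := Nat.mul_div_cancel' hpd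
      have hco : Nat.Coprime p (n / p) := by
        have h1 := hn.1
        rw [← hpn] at h1
        exact Nat.coprime_of_squarefree_mul h1
      have hnd : ¬ p ∣ n / p := fun h => by
        have := Nat.Coprime.eq_one_of_dvd hco h
        exact hpp.one_lt.ne' this
      rw [if_pos ⟨hn.2 hp, hnd⟩]
      unfold pv prc
      rw [if_pos ⟨hpp, hX p (hn.2 hp)⟩, one_mul]
  rw [h2, sum_congr rfl hterm]
  unfold Ff
  by_cases h : om n ≤ K + 1
  · simp only [if_pos h]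
  · simp only [if_neg h, Finset.sum_const_zero]

/-- the main part vanishes elsewhere -/
theorem g1_zero {P : Finset ℕ} {K X : ℕ} {v ρ : ℕ → ℂ} (hP : ∀ p ∈ P, p.Prime) {n : ℕ} (hn : ¬ Sq P n) :
    g1 P X v (rg P K ρ) n = 0 := by
  classical
  unfold g1
  refine Finset.sum_eq_zero fun x hx => ?_
  rw [Finset.mem_filter, Nat.mem_divisorsAntidiagonal] at hx
  obtain ⟨⟨h1, h2⟩, h3, h4⟩ := hx
  by_contra h5
  have h6 := (rg_ne (right_ne_zero_of_mul h5)).1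
  apply hn
  have hp := hP _ h3
  have hco : Nat.Coprime x.1 x.2 := (Nat.Prime.coprime_iff_not_dvd hp).2 h4
  rw [← h1]
  refine ⟨(Nat.squarefree_mul hco).2 ⟨hp.squarefree, h6.1⟩, ?_⟩
  rw [Nat.primeFactors_mul hp.ne_zero h6.1.ne_zero, hp.primeFactors]
  exact Finset.union_subset (Finset.singleton_subset_iff.2 h3) h6.2

theorem rg_prod {P S : Finset ℕ} (hP : ∀ p ∈ P, p.Prime) (hS : S ∈ P.powerset) {K : ℕ} (ρ : ℕ → ℂ) :
    rg P K ρ (∏ p ∈ S, p) = if S.card ≤ K then Rr ρ S else 0 := by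
  unfold rg
  rw [om_prod hP hS, Nat.primeFactors_prod fun p hp => hP p (Finset.mem_powerset.1 hS hp)]
  by_cases h : S.card ≤ K
  · rw [if_pos h, if_pos ⟨Sq_prod hP hS, h⟩]
  · rw [if_neg h, if_neg fun h' => h h'.2]

/-- the mean square of the resonator -/
theorem N2_rg {P : Finset ℕ} (hP : ∀ p ∈ P, p.Prime) (K N : ℕ) (ρ : ℕ → ℂ)
    (hN : ∀ S ∈ P.powerset, S.card ≤ K → ∏ p ∈ S, p ≤ N) :
    N2 N (rg P K ρ) = ∑ S ∈ P.powerset.filter (fun S => S.card ≤ K), wt (xw ρ) S := by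
  classical
  have h0 : ∀ n, 0 ≤ ‖rg P K ρ n‖ ^ 2 / (n : ℝ) := fun n => by positivity
  have h1 : ∀ n, ‖rg P K ρ n‖ ^ 2 / (n : ℝ) ≠ 0 → rg P K ρ n ≠ 0 := by
    intro n h h'
    apply h
    rw [h', norm_zero]
    simp
  have h2 : ∑ S ∈ P.powerset, ‖rg P K ρ (∏ p ∈ S, p)‖ ^ 2 / ((∏ p ∈ S, p : ℕ) : ℝ) =
      ∑ S ∈ P.powerset.filter (fun S => S.card ≤ K), wt (xw ρ) S := by
    rw [Finset.sum_filter]
    refine sum_congr rfl fun S hS => ?_
    rw [rg_prod hP hS]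
    by_cases hc : S.card ≤ K
    · rw [if_pos hc, if_pos hc, ← Rr_wt]
      rfl
    · rw [if_neg hc, if_neg hc, norm_zero]
      simp
  unfold N2
  refine le_antisymm ?_ ?_
  · rw [← h2]
    exact transfer_le hP N _ (fun n h => (rg_ne (h1 n h)).1) h0
  · rw [← h2]
    refine transfer_ge hP N (fun n => ‖rg P K ρ n‖ ^ 2 / (n : ℝ)) (fun n h => ?_) h0
    obtain ⟨⟨h3, h4⟩, h5⟩ := rg_ne (h1 n h)
    have h6 := hN n.primeFactors (Finset.mem_powerset.2 h4) h5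
    rwa [Nat.prod_primeFactors_of_squarefree h3] at h6

theorem one_le_N2g {P : Finset ℕ} {K N : ℕ} {ρ : ℕ → ℂ} (hN : 1 ≤ N) : 1 ≤ N2 N (rg P K ρ) := by
  unfold N2
  have h1 : ‖rg P K ρ 1‖ ^ 2 / ((1 : ℕ) : ℝ) = 1 := by
    unfold rg
    rw [if_pos ⟨⟨squarefree_one, by simp⟩, by simp [om]⟩]
    simp [Rr]
  rw [← h1]
  exact Finset.single_le_sum (f := fun n : ℕ => ‖rg P K ρ n‖ ^ 2 / (n : ℝ)) (fun n _ => by positivity) (Finset.mem_Icc.2 ⟨le_rfl, hN⟩)

/-- **the general resonator inequality** -/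
theorem gres {P : Finset ℕ} (hP : ∀ p ∈ P, p.Prime) {K N X : ℕ} {v ρ : ℕ → ℂ} (hK1 : 1 ≤ K)
    (hK : 10 * ∑ p ∈ P, xw ρ p ≤ K) (hN : ∀ S ∈ P.powerset, S.card ≤ K → ∏ p ∈ S, p ≤ N) (hX : ∀ p ∈ P, p ≤ X) :
    N2 (X * N) (fun n => cv (pv X v) (rg P K ρ) n - AA ρ v P * rg P K ρ n) ≤
      10 * (∑ p ∈ (Icc 1 X).filter Nat.Prime, ‖v p‖ ^ 2 / p) * N2 N (rg P K ρ) := by
  classical
  have hP0 : ∀ p ∈ P, 0 < p := fun p hp => (hP p hp).pos
  have hE := E0_pos (xw_nonneg ρ) P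
  obtain ⟨A, hA⟩ : ∃ A : ℂ, A = AA ρ v P := ⟨_, rfl⟩
  obtain ⟨V, hV⟩ : ∃ V : ℝ, V = ∑ p ∈ P, ‖v p‖ ^ 2 / (p : ℝ) := ⟨_, rfl⟩
  obtain ⟨V', hV'⟩ : ∃ V' : ℝ, V' = ∑ p ∈ (Icc 1 X).filter Nat.Prime, ‖v p‖ ^ 2 / (p : ℝ) := ⟨_, rfl⟩
  have hV0 : 0 ≤ V := by rw [hV]; exact Finset.sum_nonneg fun p _ => by positivity
  have hVV : V ≤ V' := by
    rw [hV, hV']
    refine Finset.sum_le_sum_of_subset_of_nonneg (fun p hp => ?_) fun p _ _ => by positivity
    rw [mem_filter, mem_Icc]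
    exact ⟨⟨(hP p hp).one_lt.le, hX p hp⟩, hP p hp⟩
  -- the size of the resonator
  have hW := N2_rg hP K N ρ hN
  have htr := trunc (xw_nonneg ρ) P K hK hK1
  rw [← hW] at htr
  -- the main part
  set G : ℕ → ℝ := fun n => if Sq P n then (2 * ‖Ff ρ v n.primeFactors - A * Rr ρ n.primeFactors‖ ^ 2 / n +
    if om n = K + 1 then 2 * ‖A‖ ^ 2 * (‖Rr ρ n.primeFactors‖ ^ 2 / n) else 0) else 0 with hG
  have hG0 : ∀ n, 0 ≤ G n := by
    intro n
    simp only [hG]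
    split_ifs <;> positivity
  have hpt : ∀ n, ‖g1 P X v (rg P K ρ) n - A * rg P K ρ n‖ ^ 2 / (n : ℝ) ≤ G n := by
    intro n
    simp only [hG]
    by_cases hn : Sq P n
    · rw [if_pos hn, g1_sq hP hX hn]
      unfold rg
      rcases lt_trichotomy (om n) (K + 1) with h | h | h
      · rw [if_pos h.le, if_pos ⟨hn, by omega⟩, if_neg (by omega), add_zero]
        have : 0 ≤ ‖Ff ρ v n.primeFactors - A * Rr ρ n.primeFactors‖ ^ 2 / (n : ℝ) := by positivity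
        rw [mul_div_assoc]
        linarith
      · rw [if_pos h.le, if_neg (fun h' => by omega), if_pos h, mul_zero, sub_zero]
        have h1 : ‖Ff ρ v n.primeFactors‖ ^ 2 ≤ 2 * ‖Ff ρ v n.primeFactors - A * Rr ρ n.primeFactors‖ ^ 2 +
            2 * ‖A‖ ^ 2 * ‖Rr ρ n.primeFactors‖ ^ 2 := by
          have e : Ff ρ v n.primeFactors = (Ff ρ v n.primeFactors - A * Rr ρ n.primeFactors) + A * Rr ρ n.primeFactors := by ring
          have h2 := norm_add_le (Ff ρ v n.primeFactors - A * Rr ρ n.primeFactors) (A * Rr ρ n.primeFactors)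
          rw [← e, norm_mul] at h2
          have h3 := norm_nonneg (Ff ρ v n.primeFactors)
          have h4 := pow_le_pow_left₀ h3 h2 2
          refine h4.trans ?_
          have h5 := sq_nonneg (‖Ff ρ v n.primeFactors - A * Rr ρ n.primeFactors‖ - ‖A‖ * ‖Rr ρ n.primeFactors‖)
          have h6 : 2 * ‖A‖ ^ 2 * ‖Rr ρ n.primeFactors‖ ^ 2 = 2 * (‖A‖ * ‖Rr ρ n.primeFactors‖) ^ 2 := by ring
          rw [h6]
          generalize ‖Ff ρ v n.primeFactors - A * Rr ρ n.primeFactors‖ = u at h5 ⊢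
          generalize ‖A‖ * ‖Rr ρ n.primeFactors‖ = w at h5 ⊢
          linarith [add_sq u w, sub_sq u w]
        calc ‖Ff ρ v n.primeFactors‖ ^ 2 / (n : ℝ) ≤ (2 * ‖Ff ρ v n.primeFactors - A * Rr ρ n.primeFactors‖ ^ 2 +
            2 * ‖A‖ ^ 2 * ‖Rr ρ n.primeFactors‖ ^ 2) / (n : ℝ) := div_le_div_of_nonneg_right h1 (Nat.cast_nonneg _)
          _ = _ := by ring
      · rw [if_neg (by omega), if_neg (fun h' => by omega), mul_zero, sub_zero, norm_zero]
        have : 0 ≤ 2 * ‖Ff ρ v n.primeFactors - A * Rr ρ n.primeFactors‖ ^ 2 / (n : ℝ) := by positivity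
        rw [if_neg (by omega)]
        simpa using this
    · rw [if_neg hn, g1_zero hP hn]
      have : rg P K ρ n = 0 := by
        unfold rg
        rw [if_neg fun h => hn h.1]
      rw [this]
      simp
  have hmain : N2 (X * N) (fun n => g1 P X v (rg P K ρ) n - A * rg P K ρ n) ≤ (9 / 4) * V * E0 (xw ρ) P := by
    unfold N2
    refine (Finset.sum_le_sum fun n _ => hpt n).trans ?_
    refine (transfer_le hP (X * N) G (fun n h => ?_) hG0).trans ?_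
    · by_contra h1
      exact h (if_neg h1)
    have h1 : ∀ S ∈ P.powerset, G (∏ p ∈ S, p) = 2 * (‖Ff ρ v S - A * Rr ρ S‖ ^ 2 / nn S) +
        if S.card = K + 1 then 2 * ‖A‖ ^ 2 * (‖Rr ρ S‖ ^ 2 / nn S) else 0 := by
      intro S hS
      simp only [hG]
      rw [if_pos (Sq_prod hP hS), om_prod hP hS, Nat.primeFactors_prod fun p hp => hP p (Finset.mem_powerset.1 hS hp)]
      unfold nn
      rw [mul_div_assoc]
    rw [sum_congr rfl h1, sum_add_distrib, ← mul_sum, ← Finset.sum_filter, ← mul_sum]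
    have h2 := gmom2 ρ v P hP0 A
    rw [← hA, sub_self, norm_zero, ← hV] at h2
    have h3 := layer ρ P hP0 hK1 hK
    have h4 := AA_sq ρ v P
    rw [← hA, ← hV] at h4
    set Λ := ∑ S ∈ P.powerset.filter (fun S => S.card = K + 1), ‖Rr ρ S‖ ^ 2 / nn S with hΛ
    have hΛ0 : 0 ≤ Λ := Finset.sum_nonneg fun S hS => by
      have hn := nn_pos hP0 (Finset.mem_powerset.1 (Finset.mem_filter.1 hS).1)
      positivity
    have h5 : 2 * ‖A‖ ^ 2 * Λ ≤ V * E0 (xw ρ) P / 4 := by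
      have h6 : ‖A‖ ^ 2 * Λ ≤ V * (∑ p ∈ P, xw ρ p) * Λ := mul_le_mul_of_nonneg_right h4 hΛ0
      have h7 : V * ((∑ p ∈ P, xw ρ p) * Λ) ≤ V * (1 / 8 * E0 (xw ρ) P) := mul_le_mul_of_nonneg_left h3 hV0
      have h8 : V * (∑ p ∈ P, xw ρ p) * Λ = V * ((∑ p ∈ P, xw ρ p) * Λ) := by ring
      rw [h8] at h6
      have h9 : V * (1 / 8 * E0 (xw ρ) P) = V * E0 (xw ρ) P / 8 := by ring
      rw [h9] at h7
      have h10 : 2 * ‖A‖ ^ 2 * Λ = 2 * (‖A‖ ^ 2 * Λ) := by ring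
      rw [h10]
      linarith
    have h6 : (V + (0 : ℝ) ^ 2) * E0 (xw ρ) P = V * E0 (xw ρ) P := by ring
    rw [h6] at h2
    have h7 : 9 / 4 * V * E0 (xw ρ) P = 2 * (V * E0 (xw ρ) P) + V * E0 (xw ρ) P / 4 := by ring
    rw [h7]
    linarith
  have hoth : N2 (X * N) (g2 P X v (rg P K ρ)) ≤ V' * N2 N (rg P K ρ) := by
    rw [hV']
    refine N2_g2 fun n h => ?_
    obtain ⟨⟨h3, h4⟩, h5⟩ := rg_ne h
    have h6 := hN n.primeFactors (Finset.mem_powerset.2 h4) h5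
    rwa [Nat.prod_primeFactors_of_squarefree h3] at h6
  have hsplit : N2 (X * N) (fun n => cv (pv X v) (rg P K ρ) n - A * rg P K ρ n) ≤
      2 * N2 (X * N) (fun n => g1 P X v (rg P K ρ) n - A * rg P K ρ n) +
        2 * N2 (X * N) (g2 P X v (rg P K ρ)) := by
    unfold N2
    rw [mul_sum, mul_sum, ← sum_add_distrib]
    refine Finset.sum_le_sum fun n _ => ?_
    show ‖cv (pv X v) (rg P K ρ) n - A * rg P K ρ n‖ ^ 2 / (n : ℝ) ≤ _
    rw [cvg_split P]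
    have h1 : ‖g1 P X v (rg P K ρ) n + g2 P X v (rg P K ρ) n - A * rg P K ρ n‖ ^ 2 ≤
        2 * ‖g1 P X v (rg P K ρ) n - A * rg P K ρ n‖ ^ 2 +
          2 * ‖g2 P X v (rg P K ρ) n‖ ^ 2 := by
      have h2 : g1 P X v (rg P K ρ) n + g2 P X v (rg P K ρ) n - A * rg P K ρ n =
          (g1 P X v (rg P K ρ) n - A * rg P K ρ n) + g2 P X v (rg P K ρ) n := by ring
      rw [h2]
      have h3 := norm_add_le (g1 P X v (rg P K ρ) n - A * rg P K ρ n)
        (g2 P X v (rg P K ρ) n)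
      have h4 := norm_nonneg ((g1 P X v (rg P K ρ) n - A * rg P K ρ n) +
        g2 P X v (rg P K ρ) n)
      have h5 := pow_le_pow_left₀ h4 h3 2
      refine h5.trans ?_
      generalize ‖g1 P X v (rg P K ρ) n - A * rg P K ρ n‖ = a
      generalize ‖g2 P X v (rg P K ρ) n‖ = b
      nlinarith [sq_nonneg (a - b)]
    calc _ ≤ (2 * ‖g1 P X v (rg P K ρ) n - A * rg P K ρ n‖ ^ 2 +
          2 * ‖g2 P X v (rg P K ρ) n‖ ^ 2) / (n : ℝ) := div_le_div_of_nonneg_right h1 (Nat.cast_nonneg _)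
      _ = _ := by ring
  rw [← hA, ← hV']
  have hW0 : 0 ≤ N2 N (rg P K ρ) := by
    unfold N2
    exact Finset.sum_nonneg fun n _ => by positivity
  refine hsplit.trans ?_
  have e1 : V * E0 (xw ρ) P ≤ V' * (10 / 9 * N2 N (rg P K ρ)) :=
    mul_le_mul hVV (by linarith) hE.le (hV0.trans hVV)
  have e2 : V' * (10 / 9 * N2 N (rg P K ρ)) = 10 / 9 * (V' * N2 N (rg P K ρ)) := by ring
  have e3 : 9 / 4 * V * E0 (xw ρ) P = 9 / 4 * (V * E0 (xw ρ) P) := by ring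
  have e4 : 0 ≤ V' * N2 N (rg P K ρ) := mul_nonneg (hV0.trans hVV) hW0
  rw [e2] at e1
  rw [e3] at hmain
  have e5 : 10 * V' * N2 N (rg P K ρ) = 10 * (V' * N2 N (rg P K ρ)) := by ring
  rw [e5]
  linarith

end

end Pool.Agent.U761.SZ
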