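import Pool.Agent.U761.SZ.GM

set_option autoImplicit false

/-!
U761.SZ: lower bounds for the joint exponential moments of `log |ζ|` and `arg ζ` at shifted points, relative to every Dirichlet
polynomial. Adapted from the theorem LBM of the library (Q98.UM.LBM, helper98), with the complex logarithm in place of `log |ζ|`.
-/

namespace Pool.Agent.U761.SZ

open Filter Topology MeasureTheory Complex
open Pool.Agent.Q97.UM
open Pool.Agent.Q98.UM (supp_zero cv_supp dp_cube exp_tangent lint_lower norm_cpow_I_le)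
open Pool.Agent.Q149.UM (zp norm_zp_le norm_zp_cube sum_le_Z3 Z3 Z3_nonneg)

noncomputable section

/-- coefficients of `exp (∑ conj(z_j) log ζ(s + iα_j))` at the primes -/
def apc {n : ℕ} (z : Fin n → ℂ) (α : Fin n → ℝ) (p : ℕ) : ℂ := ∑ j, (starRingEnd ℂ) (z j) * (p : ℂ) ^ (-(α j * I))

theorem norm_apc_le {n : ℕ} (z : Fin n → ℂ) (α : Fin n → ℝ) {A : ℝ} (h : ∑ j, ‖z j‖ ≤ A) (p : ℕ) : ‖apc z α p‖ ≤ A := by
  unfold apc
  refine (norm_sum_le _ _).trans (le_trans (Finset.sum_le_sum fun j _ => ?_) h)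
  rw [norm_mul, RCLike.norm_conj]
  exact mul_le_of_le_one_right (norm_nonneg _) (norm_cpow_I_le p (α j))

theorem PA_cx {n : ℕ} (z : Fin n → ℂ) (α : Fin n → ℝ) (X : ℕ) (t : ℝ) :
    PA X (apc z α) (apc z fun j => 2 * α j) t = ∑ j, (starRingEnd ℂ) (z j) *
      ∑ p ∈ (Finset.Icc 1 X).filter Nat.Prime, (zp p (t + α j) + zp p (t + α j) ^ 2 / 2) := by
  unfold PA
  simp_rw [Finset.mul_sum]
  rw [Finset.sum_comm]
  refine Finset.sum_congr rfl fun p hp => ?_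
  have hp0 : (p : ℂ) ≠ 0 := by
    have := (Finset.mem_filter.mp hp).2.pos
    exact_mod_cast this.ne'
  unfold apc zp
  have h1 : ∀ j, (starRingEnd ℂ) (z j) * ((p : ℂ) ^ (-(1 / 2 + (t + α j : ℝ) * I)) +
      ((p : ℂ) ^ (-(1 / 2 + (t + α j : ℝ) * I))) ^ 2 / 2) =
      (starRingEnd ℂ) (z j) * (p : ℂ) ^ (-(α j * I)) * (p : ℂ) ^ (-(1 / 2 + t * I)) +
      (starRingEnd ℂ) (z j) * (p : ℂ) ^ (-((2 * α j : ℝ) * I)) / 2 * (p : ℂ) ^ (-(1 + 2 * t * I)) := by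
    intro j
    have e1 : (p : ℂ) ^ (-(1 / 2 + (t + α j : ℝ) * I)) =
        (p : ℂ) ^ (-(α j * I)) * (p : ℂ) ^ (-(1 / 2 + t * I)) := by
      rw [← Complex.cpow_add _ _ hp0]
      congr 1
      push_cast
      ring
    have e2 : ((p : ℂ) ^ (-(1 / 2 + (t + α j : ℝ) * I))) ^ 2 =
        (p : ℂ) ^ (-((2 * α j : ℝ) * I)) * (p : ℂ) ^ (-(1 + 2 * t * I)) := by
      rw [← Complex.cpow_nat_mul, ← Complex.cpow_add _ _ hp0]
      congr 1
      push_cast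
      ring
    rw [e2, e1]
    ring
  rw [Finset.sum_congr rfl fun j _ => h1 j, Finset.sum_add_distrib, Finset.sum_mul, Finset.sum_div, Finset.sum_mul]

theorem LE_sqs (X : ℕ) (t : ℝ) : ‖LE X t - ∑ p ∈ (Finset.Icc 1 X).filter Nat.Prime, (zp p t + zp p t ^ 2 / 2)‖ ≤ 4 / 3 * Z3 := by
  set Q : Finset ℕ := (Finset.Icc 1 X).filter Nat.Prime with hQ
  have h1 : LE X t = ∑ p ∈ Q, (-Complex.log (1 - zp p t)) := by
    unfold LE zp
    rw [Finset.sum_neg_distrib]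
  rw [h1, ← Finset.sum_sub_distrib]
  refine (norm_sum_le _ _).trans ?_
  refine le_trans ?_ (mul_le_mul_of_nonneg_left (sum_le_Z3 Q) (by norm_num))
  rw [Finset.mul_sum]
  apply Finset.sum_le_sum
  intro p hp
  have hp' := (Finset.mem_filter.1 hp).2
  have h5 := loc_factor_c (zp p t) (norm_zp_le p t hp'.two_le)
  rw [norm_zp_cube p t hp'.pos] at h5
  rw [← sub_sub]
  exact h5

theorem LE_PA {n : ℕ} (z : Fin n → ℂ) (α : Fin n → ℝ) {A : ℝ} (h : ∑ j, ‖z j‖ ≤ A) (X : ℕ) (t : ℝ) :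
    ‖∑ j, (starRingEnd ℂ) (z j) * LE X (t + α j) - PA X (apc z α) (apc z fun j => 2 * α j) t‖ ≤ A * (4 / 3 * Z3) := by
  rw [PA_cx, ← Finset.sum_sub_distrib]
  refine (norm_sum_le _ _).trans ?_
  have h1 : ∀ j ∈ (Finset.univ : Finset (Fin n)), ‖(starRingEnd ℂ) (z j) * LE X (t + α j) - (starRingEnd ℂ) (z j) *
      ∑ p ∈ (Finset.Icc 1 X).filter Nat.Prime, (zp p (t + α j) + zp p (t + α j) ^ 2 / 2)‖ ≤ ‖z j‖ * (4 / 3 * Z3) := by
    intro j _
    rw [← mul_sub, norm_mul, RCLike.norm_conj]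
    exact mul_le_mul_of_nonneg_left (LE_sqs X (t + α j)) (norm_nonneg _)
  refine (Finset.sum_le_sum h1).trans ?_
  rw [← Finset.sum_mul]
  exact mul_le_mul_of_nonneg_right h (by have := Z3_nonneg; linarith)

/-- **Lower bounds, all complex orders, relative to every Dirichlet polynomial** -/
theorem lbc (A : ℝ) (hA : 1 ≤ A) : ∃ δ θ c : ℝ, 0 < δ ∧ δ ≤ 1 / 40 ∧ 0 < θ ∧ 0 < c ∧ ∀ᶠ T : ℝ in atTop,
    ∀ (n : ℕ) (z : Fin n → ℂ) (α : Fin n → ℝ), ∑ j, ‖z j‖ ≤ A → (∀ j, |α j| ≤ T / 2) →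
    ∃ (M : ℕ) (e : ℕ → ℂ), (M : ℝ) ≤ T ^ (1 / 8 : ℝ) ∧ (∀ m, e m ≠ 0 → 1 ≤ m ∧ m ≤ M) ∧
      c * Real.exp (∑ p ∈ (Finset.Icc 1 ⌊T ^ δ⌋₊).filter Nat.Prime, ‖apc z α p‖ ^ 2 / p) ≤ N2 M e ∧
      ∀ N : ℕ, (N : ℝ) ≤ T ^ θ → ∀ b : ℕ → ℂ, (∀ m, b m ≠ 0 → 1 ≤ m ∧ m ≤ N) →
        ENNReal.ofReal (c * T * N2 (M * N) (cv e b)) ≤
          ∫⁻ t in Set.Icc T (2 * T), ENNReal.ofReal (Real.exp (2 * (∑ j, (starRingEnd ℂ) (z j) * Lz (t + α j)).re) * ‖dp N b t‖ ^ 2) := by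
  have hD := Pool.Agent.Q84.UM.t_DPM
  have hM := Pool.Agent.Q84.UM.t_MVL
  have hE := b_EK
  have hT := THH
  obtain ⟨κ, hκ, hE⟩ := hE A hA
  obtain ⟨θ₀, δ₀, hθ₀, hδ₀, hT⟩ := hT 1
  have hκ1 : 0 < 1 + 20 * κ := by linarith
  obtain ⟨δ, hδ, hδ1, hδ2, hδ3⟩ : ∃ δ : ℝ, 0 < δ ∧ (1 + 20 * κ) * δ ≤ 1 / 40 ∧ δ ≤ δ₀ ∧
      (1 + 20 * κ) * δ ≤ θ₀ := by
    refine ⟨min (1 / 40 / (1 + 20 * κ)) (min δ₀ (θ₀ / (1 + 20 * κ))), by positivity, ?_, ?_, ?_⟩
    · calc (1 + 20 * κ) * min (1 / 40 / (1 + 20 * κ)) (min δ₀ (θ₀ / (1 + 20 * κ)))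
          ≤ (1 + 20 * κ) * (1 / 40 / (1 + 20 * κ)) := mul_le_mul_of_nonneg_left (min_le_left _ _) hκ1.le
        _ = _ := by field_simp
    · exact (min_le_right _ _).trans (min_le_left _ _)
    · calc (1 + 20 * κ) * min (1 / 40 / (1 + 20 * κ)) (min δ₀ (θ₀ / (1 + 20 * κ)))
          ≤ (1 + 20 * κ) * (θ₀ / (1 + 20 * κ)) :=
            mul_le_mul_of_nonneg_left ((min_le_right _ _).trans (min_le_right _ _)) hκ1.le
        _ = _ := by field_simp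
  have hδ40 : δ ≤ 1 / 40 := by nlinarith
  obtain ⟨C₁, hC₁, hT⟩ := hT δ hδ hδ2
  obtain ⟨C₂, c₂, hC₂, hc₂, hE⟩ := hE δ hδ
  have hZ3 := Z3_nonneg
  set K₁ : ℝ := 2 * A * C₁ + 16 * A * Z3 + 8 * C₂ with hK₁
  have hK₁0 : 0 ≤ K₁ := by positivity
  refine ⟨δ, δ, min c₂ (Real.exp (-(2 * K₁)) / 2), hδ, hδ40, hδ, by positivity, ?_⟩
  filter_upwards [hT, hE, eventually_ge_atTop 16] with T hT hE hT16 n z α hk hα
  have hT0 : 0 < T := by linarith
  have hT1 : 1 ≤ T := by linarith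
  obtain ⟨M, e, J, M₀, q, w, hd⟩ := hE (apc z α) (apc z fun j => 2 * α j) (norm_apc_le z α hk)
    (norm_apc_le z _ hk)
  have hML : (M : ℝ) ≤ T ^ (20 * κ * δ) := hd.len
  refine ⟨M, e, hML.trans (Real.rpow_le_rpow_of_exponent_le hT1 (by nlinarith)), hd.supp, ?_, ?_⟩
  · refine le_trans ?_ hd.low
    exact mul_le_mul_of_nonneg_right (min_le_left _ _) (Real.exp_pos _).le
  intro N hN b hb
  set f : ℕ → ℂ := cv e b with hf
  have hfs : ∀ m, f m ≠ 0 → 1 ≤ m ∧ m ≤ M * N := cv_supp hd.supp hb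
  have hFeq : ∀ t, dp M e t * dp N b t = dp (M * N) f t := fun t =>
    hD.1 M N e b t (supp_zero hd.supp) (supp_zero hb)
  by_cases h0 : M * N = 0
  · have h1 : N2 (M * N) f = 0 := by
      rw [h0]
      unfold N2
      simp
    rw [h1]
    simp
  have hMN1 : 1 ≤ M * N := Nat.one_le_iff_ne_zero.mpr h0
  have hMN : ((M * N : ℕ) : ℝ) ≤ T ^ ((1 + 20 * κ) * δ) := by
    have e1 : (1 + 20 * κ) * δ = 20 * κ * δ + δ := by ring
    rw [e1, Real.rpow_add hT0]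
    push_cast
    exact mul_le_mul hML hN (Nat.cast_nonneg _) (by positivity)
  have hMNq : ((M * N : ℕ) : ℝ) ≤ T ^ (1 / 4 : ℝ) :=
    hMN.trans (Real.rpow_le_rpow_of_exponent_le hT1 (by linarith))
  obtain ⟨m1, m2⟩ := hM T hT16 (M * N) hMNq f
  set X := ⌊T ^ δ⌋₊ with hX
  set F : ℝ → ℂ := dp (M * N) f with hF
  set n2 := N2 (M * N) f with hn2
  have hn20 : 0 ≤ n2 := Pool.Agent.Q97.UM.N2_nonneg _ _
  have hFc : Continuous F := (hD.2.2 (M * N) f 0).2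
  -- the shifted values
  have hsh : ∀ j, IntervalIntegrable (fun t => ‖Lz (t + α j) - LE X (t + α j)‖ * ‖F t‖ ^ 2)
      volume T (2 * T) ∧ ∫ t in T..(2 * T), ‖Lz (t + α j) - LE X (t + α j)‖ * ‖F t‖ ^ 2 ≤
        C₁ * T * n2 := by
    intro j
    have h1 := hT (α j) (hα j) (M * N) (hMN.trans (Real.rpow_le_rpow_of_exponent_le hT1 hδ3)) f
    simp only [pow_one] at h1
    exact h1
  -- the block errors
  have hq6 : ∀ j t, ‖dp M₀ (q j) t‖ ^ 6 * ‖F t‖ ^ 2 =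
      ‖dp (M₀ ^ 3 * (M * N)) (cv (q j) (cv (q j) (cv (q j) f))) t‖ ^ 2 := fun j t =>
    dp_cube hD (hd.qs j) hfs t
  have hlen3 : ((M₀ ^ 3 * (M * N) : ℕ) : ℝ) ≤ T ^ (1 / 4 : ℝ) := by
    have e1 : ((M₀ ^ 3 * (M * N) : ℕ) : ℝ) ≤ (T ^ (2 * δ)) ^ 3 * T ^ ((1 + 20 * κ) * δ) := by
      push_cast at hMN ⊢
      exact mul_le_mul (pow_le_pow_left₀ (Nat.cast_nonneg _) hd.M0 3) hMN (by positivity) (by positivity)
    refine e1.trans ?_
    rw [← Real.rpow_natCast, ← Real.rpow_mul hT0.le, ← Real.rpow_add hT0]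
    refine Real.rpow_le_rpow_of_exponent_le hT1 ?_
    push_cast
    nlinarith
  have hblk : ∀ j, Continuous (fun t => ‖dp M₀ (q j) t‖ ^ 6 * ‖F t‖ ^ 2) ∧
      ∫ t in T..(2 * T), ‖dp M₀ (q j) t‖ ^ 6 * ‖F t‖ ^ 2 ≤
        2 * T * N2 (M₀ ^ 3 * (M * N)) (cv (q j) (cv (q j) (cv (q j) f))) := by
    intro j
    have e1 : (fun t => ‖dp M₀ (q j) t‖ ^ 6 * ‖F t‖ ^ 2) = fun t =>
        ‖dp (M₀ ^ 3 * (M * N)) (cv (q j) (cv (q j) (cv (q j) f))) t‖ ^ 2 := funext (hq6 j)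
    rw [e1]
    exact ⟨((hD.2.2 _ _ 0).2.norm.pow 2), (hM T hT16 _ hlen3 _).2⟩
  have hmean := hd.mean (M * N) f hMN1 hMN (supp_zero hfs)
  -- the error function
  set g : ℝ → ℝ := fun t => (∑ j, 2 * ‖z j‖ * ‖Lz (t + α j) - LE X (t + α j)‖) +
    (8 * A * Z3 + 2 * C₂) + ∑ j ∈ Finset.range J, 2 * w j * ‖dp M₀ (q j) t‖ ^ 6 with hg
  have hgF : ∀ t, g t * ‖F t‖ ^ 2 =
      (∑ j, 2 * ‖z j‖ * (‖Lz (t + α j) - LE X (t + α j)‖ * ‖F t‖ ^ 2)) +
      (8 * A * Z3 + 2 * C₂) * ‖F t‖ ^ 2 +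
      ∑ j ∈ Finset.range J, 2 * w j * (‖dp M₀ (q j) t‖ ^ 6 * ‖F t‖ ^ 2) := by
    intro t
    simp only [hg]
    rw [add_mul, add_mul, Finset.sum_mul, Finset.sum_mul]
    congr 1
    · congr 1
      exact Finset.sum_congr rfl fun j _ => by ring
    · exact Finset.sum_congr rfl fun j _ => by ring
  have i1 : IntervalIntegrable (fun t => ∑ j, 2 * ‖z j‖ *
      (‖Lz (t + α j) - LE X (t + α j)‖ * ‖F t‖ ^ 2)) volume T (2 * T) := by
    have := IntervalIntegrable.sum Finset.univ (f := fun j t => 2 * ‖z j‖ *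
      (‖Lz (t + α j) - LE X (t + α j)‖ * ‖F t‖ ^ 2)) (μ := volume) (a := T) (b := 2 * T)
      fun j _ => (hsh j).1.const_mul _
    have e1 : (fun t => ∑ j, 2 * ‖z j‖ *
        (‖Lz (t + α j) - LE X (t + α j)‖ * ‖F t‖ ^ 2)) = ∑ j, fun t => 2 * ‖z j‖ *
        (‖Lz (t + α j) - LE X (t + α j)‖ * ‖F t‖ ^ 2) := by
      funext t
      rw [Finset.sum_apply]
    rw [e1]
    exact this
  have i2 : IntervalIntegrable (fun t => ‖F t‖ ^ 2) volume T (2 * T) :=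
    (hFc.norm.pow 2).intervalIntegrable _ _
  have i3 : IntervalIntegrable (fun t => ∑ j ∈ Finset.range J, 2 * w j *
      (‖dp M₀ (q j) t‖ ^ 6 * ‖F t‖ ^ 2)) volume T (2 * T) :=
    (continuous_finsetSum _ fun j _ => continuous_const.mul (hblk j).1).intervalIntegrable _ _
  have i3' : ∀ j ∈ Finset.range J, IntervalIntegrable (fun t => 2 * w j *
      (‖dp M₀ (q j) t‖ ^ 6 * ‖F t‖ ^ 2)) volume T (2 * T) := fun j _ =>
    (continuous_const.mul (hblk j).1).intervalIntegrable _ _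
  have igF : IntervalIntegrable (fun t => g t * ‖F t‖ ^ 2) volume T (2 * T) := by
    simp only [hgF]
    exact (i1.add (i2.const_mul _)).add i3
  have hTn : 0 ≤ T * n2 := mul_nonneg hT0.le hn20
  have hint : ∫ t in T..(2 * T), g t * ‖F t‖ ^ 2 ≤ K₁ * (T * n2) := by
    simp only [hgF]
    rw [intervalIntegral.integral_add (i1.add (i2.const_mul _)) i3,
      intervalIntegral.integral_add i1 (i2.const_mul _), intervalIntegral.integral_const_mul]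
    rw [intervalIntegral.integral_finsetSum fun j _ => (hsh j).1.const_mul _,
      intervalIntegral.integral_finsetSum i3']
    have b1 : ∑ j, ∫ t in T..(2 * T), 2 * ‖z j‖ *
        (‖Lz (t + α j) - LE X (t + α j)‖ * ‖F t‖ ^ 2) ≤ 2 * A * (C₁ * T * n2) := by
      calc ∑ j, ∫ t in T..(2 * T), 2 * ‖z j‖ *
          (‖Lz (t + α j) - LE X (t + α j)‖ * ‖F t‖ ^ 2)
          ≤ ∑ j, 2 * ‖z j‖ * (C₁ * T * n2) := by
            refine Finset.sum_le_sum fun j _ => ?_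
            rw [intervalIntegral.integral_const_mul]
            exact mul_le_mul_of_nonneg_left (hsh j).2 (by positivity)
        _ = 2 * (∑ j, ‖z j‖) * (C₁ * T * n2) := by rw [← Finset.sum_mul, ← Finset.mul_sum]
        _ ≤ 2 * A * (C₁ * T * n2) := by
            refine mul_le_mul_of_nonneg_right (by linarith) (by positivity)
    have b3 : ∑ j ∈ Finset.range J, ∫ t in T..(2 * T), 2 * w j *
        (‖dp M₀ (q j) t‖ ^ 6 * ‖F t‖ ^ 2) ≤ 4 * T * (C₂ * n2) := by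
      calc ∑ j ∈ Finset.range J, ∫ t in T..(2 * T), 2 * w j * (‖dp M₀ (q j) t‖ ^ 6 * ‖F t‖ ^ 2)
          ≤ ∑ j ∈ Finset.range J, 4 * T * (w j *
              N2 (M₀ ^ 3 * (M * N)) (cv (q j) (cv (q j) (cv (q j) f)))) := by
            refine Finset.sum_le_sum fun j _ => ?_
            rw [intervalIntegral.integral_const_mul]
            have := mul_le_mul_of_nonneg_left (hblk j).2 (by have := hd.wn j; linarith : 0 ≤ 2 * w j)
            refine this.trans (le_of_eq ?_)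
            ring
        _ = 4 * T * ∑ j ∈ Finset.range J, w j *
              N2 (M₀ ^ 3 * (M * N)) (cv (q j) (cv (q j) (cv (q j) f))) := by rw [Finset.mul_sum]
        _ ≤ 4 * T * (C₂ * n2) := mul_le_mul_of_nonneg_left hmean (by positivity)
    have b2 : (8 * A * Z3 + 2 * C₂) * ∫ t in T..(2 * T), ‖F t‖ ^ 2 ≤
        (8 * A * Z3 + 2 * C₂) * (2 * T * n2) := mul_le_mul_of_nonneg_left m2 (by positivity)
    rw [hK₁]
    linarith [(by ring : 2 * A * (C₁ * T * n2) + (8 * A * Z3 + 2 * C₂) * (2 * T * n2) +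
      4 * T * (C₂ * n2) = (2 * A * C₁ + 16 * A * Z3 + 8 * C₂) * (T * n2))]
  -- the pointwise inequality
  set K : ℝ := 2 * K₁ with hK
  have hpt : ∀ᵐ t : ℝ, Real.exp (-K) * ((1 + K) * ‖F t‖ ^ 2 - g t * ‖F t‖ ^ 2) ≤
      Real.exp (2 * (∑ j, (starRingEnd ℂ) (z j) * Lz (t + α j)).re) * ‖dp N b t‖ ^ 2 := by
    refine Eventually.of_forall fun t => ?_
    have hnn : 0 ≤ Real.exp (2 * (∑ j, (starRingEnd ℂ) (z j) * Lz (t + α j)).re) * ‖dp N b t‖ ^ 2 := by positivity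
    by_cases hF0 : F t = 0
    · rw [hF0]
      simpa using hnn
    have hEB := hFeq t
    have hE0 : dp M e t ≠ 0 := fun h => hF0 (by rw [← hEB, h, zero_mul])
    have hEsq : ‖dp M e t‖ ^ 2 = Real.exp (2 * Real.log ‖dp M e t‖) := by
      rw [two_mul, Real.exp_add, Real.exp_log (norm_pos_iff.mpr hE0), sq]
    set h : ℝ := 2 * (∑ j, (starRingEnd ℂ) (z j) * Lz (t + α j)).re - 2 * Real.log ‖dp M e t‖ with hh
    have hrhs : Real.exp (2 * (∑ j, (starRingEnd ℂ) (z j) * Lz (t + α j)).re) * ‖dp N b t‖ ^ 2 = Real.exp h * ‖F t‖ ^ 2 := by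
      rw [← hEB, norm_mul, mul_pow, hh, Real.exp_sub, ← hEsq]
      have h8 : ‖dp M e t‖ ^ 2 ≠ 0 := pow_ne_zero 2 (norm_ne_zero_iff.mpr hE0)
      rw [← mul_assoc, div_mul_cancel₀ _ h8]
    have hgh : -g t ≤ h := by
      have u1 := hd.up t hE0
      have u2 := LE_PA z α hk X t
      have u2' := (abs_le.1 ((Complex.abs_re_le_norm _).trans u2)).1
      rw [sub_re] at u2'
      have u3 : (∑ j, (starRingEnd ℂ) (z j) * LE X (t + α j)).re - (∑ j, ‖z j‖ * ‖Lz (t + α j) - LE X (t + α j)‖) ≤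
          (∑ j, (starRingEnd ℂ) (z j) * Lz (t + α j)).re := by
        have v1 : ‖∑ j, (starRingEnd ℂ) (z j) * LE X (t + α j) - ∑ j, (starRingEnd ℂ) (z j) * Lz (t + α j)‖ ≤
            ∑ j, ‖z j‖ * ‖Lz (t + α j) - LE X (t + α j)‖ := by
          rw [← Finset.sum_sub_distrib]
          refine (norm_sum_le _ _).trans (Finset.sum_le_sum fun j _ => ?_)
          rw [← mul_sub, norm_mul, RCLike.norm_conj, norm_sub_rev]
        have v2 := (abs_le.1 ((Complex.abs_re_le_norm _).trans v1)).2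
        rw [sub_re] at v2
        linarith
      have u4 : ∑ j ∈ Finset.range J, 2 * w j * ‖dp M₀ (q j) t‖ ^ 6 =
          2 * ∑ j ∈ Finset.range J, w j * ‖dp M₀ (q j) t‖ ^ 6 := by
        rw [Finset.mul_sum]
        exact Finset.sum_congr rfl fun j _ => by ring
      have u5 : ∑ j, 2 * ‖z j‖ * ‖Lz (t + α j) - LE X (t + α j)‖ = 2 * ∑ j, ‖z j‖ * ‖Lz (t + α j) - LE X (t + α j)‖ := by
        rw [Finset.mul_sum]
        exact Finset.sum_congr rfl fun j _ => by ring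
      have hAZ : 0 ≤ A * Z3 := by positivity
      simp only [hg, hh]
      rw [u4, u5]
      linarith
    have h4 := exp_tangent (K := K) hgh
    rw [hrhs]
    calc Real.exp (-K) * ((1 + K) * ‖F t‖ ^ 2 - g t * ‖F t‖ ^ 2)
        = Real.exp (-K) * (1 + K - g t) * ‖F t‖ ^ 2 := by ring
      _ ≤ Real.exp h * ‖F t‖ ^ 2 := mul_le_mul_of_nonneg_right h4 (by positivity)
  have iφ : IntervalIntegrable (fun t => Real.exp (-K) * ((1 + K) * ‖F t‖ ^ 2 - g t * ‖F t‖ ^ 2))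
      volume T (2 * T) := ((i2.const_mul _).sub igF).const_mul _
  refine le_trans (ENNReal.ofReal_le_ofReal ?_) (lint_lower hT0.le iφ hpt)
  rw [intervalIntegral.integral_const_mul,
    intervalIntegral.integral_sub (i2.const_mul _) igF, intervalIntegral.integral_const_mul]
  set I₀ := ∫ t in T..(2 * T), ‖F t‖ ^ 2 with hI₀
  have h5 : K₁ * (T * n2) ≤ K * I₀ := by
    rw [hK]
    have : T * n2 ≤ 2 * I₀ := by linarith
    nlinarith
  have h6 : I₀ ≤ (1 + K) * I₀ - ∫ t in T..(2 * T), g t * ‖F t‖ ^ 2 := by linarith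
  calc min c₂ (Real.exp (-(2 * K₁)) / 2) * T * n2 ≤ Real.exp (-K) / 2 * T * n2 := by
        have := mul_le_mul_of_nonneg_right (min_le_right c₂ (Real.exp (-(2 * K₁)) / 2)) hTn
        linarith
    _ = Real.exp (-K) * (T / 2 * n2) := by ring
    _ ≤ Real.exp (-K) * I₀ := mul_le_mul_of_nonneg_left m1 (Real.exp_pos _).le
    _ ≤ _ := mul_le_mul_of_nonneg_left h6 (Real.exp_pos _).le

end

end Pool.Agent.U761.SZ
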