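import Pool.Agent.U761.SZ.LBC
import Pool.Agent.U761.SZ.SARG
import Pool.Agent.Q149.UM.MZ

set_option autoImplicit false

/-!
U761.SZ: the final form of the lower bounds for complex orders.
-/

namespace Pool.Agent.U761.SZ

open Filter Topology MeasureTheory Complex
open Pool.Agent.Q97.UM

noncomputable section

/-- the sum over the primes between `T^δ` and `T` -/
theorem prime_T {δ : ℝ} (hδ : 0 < δ) (hδ1 : δ ≤ 1) : ∃ C : ℝ, 0 ≤ C ∧ ∀ᶠ T : ℝ in atTop, ∀ (D : ℝ) (f : ℕ → ℝ), 0 ≤ D →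
    (∀ p, f p ≤ D) → ∑ p ∈ (Finset.Icc 1 ⌊T⌋₊).filter Nat.Prime, f p / p ≤
      ∑ p ∈ (Finset.Icc 1 ⌊T ^ δ⌋₊).filter Nat.Prime, f p / p + C * D := by
  obtain ⟨C₁, h1⟩ := Pool.Agent.Q149.UM.t_MZ δ hδ hδ1
  obtain ⟨C₂, h2⟩ := Pool.Agent.Q149.UM.t_MZ 1 one_pos le_rfl
  refine ⟨|C₁| + |C₂|, by positivity, ?_⟩
  filter_upwards [h1, h2, eventually_ge_atTop 1] with T h1 h2 hT D f hD hf
  have a1 := (abs_le.1 (h1 0)).1
  have a2 := (abs_le.1 (h2 0)).2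
  rw [Real.rpow_one] at a2
  simp only [zero_mul, Real.cos_zero] at a1 a2
  have hTδ : T ^ δ ≤ T := by
    calc T ^ δ ≤ T ^ (1 : ℝ) := Real.rpow_le_rpow_of_exponent_le hT hδ1
      _ = T := Real.rpow_one T
  have hsub : (Finset.Icc 1 ⌊T ^ δ⌋₊).filter Nat.Prime ⊆ (Finset.Icc 1 ⌊T⌋₊).filter Nat.Prime :=
    Finset.filter_subset_filter _ (Finset.Icc_subset_Icc_right (Nat.floor_le_floor hTδ))
  rw [← Finset.sum_sdiff hsub] at a2 ⊢
  have h3 : ∑ p ∈ (Finset.Icc 1 ⌊T⌋₊).filter Nat.Prime \ (Finset.Icc 1 ⌊T ^ δ⌋₊).filter Nat.Prime, f p / p ≤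
      D * ∑ p ∈ (Finset.Icc 1 ⌊T⌋₊).filter Nat.Prime \ (Finset.Icc 1 ⌊T ^ δ⌋₊).filter Nat.Prime, (1 : ℝ) / p := by
    rw [Finset.mul_sum]
    refine Finset.sum_le_sum fun p _ => ?_
    rw [mul_one_div]
    exact div_le_div_of_nonneg_right (hf p) (Nat.cast_nonneg p)
  have h4 : ∑ p ∈ (Finset.Icc 1 ⌊T⌋₊).filter Nat.Prime \ (Finset.Icc 1 ⌊T ^ δ⌋₊).filter Nat.Prime, (1 : ℝ) / p ≤ |C₁| + |C₂| := by
    have b1 := le_abs_self C₁
    have b2 := le_abs_self C₂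
    linarith
  have h5 := mul_le_mul_of_nonneg_left h4 hD
  linarith

theorem apc_conj {n : ℕ} (z : Fin n → ℂ) (α : Fin n → ℝ) (p : ℕ) (hp : p.Prime) :
    ‖apc z α p‖ = ‖∑ j, z j * (p : ℂ) ^ (α j * I)‖ := by
  have h1 : apc z α p = (starRingEnd ℂ) (∑ j, z j * (p : ℂ) ^ (α j * I)) := by
    unfold apc
    rw [map_sum]
    refine Finset.sum_congr rfl fun j _ => ?_
    rw [map_mul]
    congr 1
    have hp0 : (p : ℂ) ≠ 0 := by exact_mod_cast hp.ne_zero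
    rw [cpow_def_of_ne_zero hp0, cpow_def_of_ne_zero hp0, ← exp_conj]
    congr 1
    rw [map_mul, map_mul, conj_I, conj_ofReal, ← natCast_log, conj_ofReal]
    ring
  rw [h1, RCLike.norm_conj]

/-- the lower bound, final form -/
theorem lowerC {A : ℝ} (hA : 1 ≤ A) : ∃ θ c : ℝ, 0 < θ ∧ 0 < c ∧ ∀ᶠ T : ℝ in atTop, ∀ (n : ℕ) (z : Fin n → ℂ) (α : Fin n → ℝ),
    ∑ j, ‖z j‖ ≤ A → (∀ j, |α j| ≤ T / 2) → ∃ (M : ℕ) (e : ℕ → ℂ), (M : ℝ) ≤ T ^ (1 / 8 : ℝ) ∧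
      c * (T * Real.exp (∑ p ∈ (Finset.Icc 1 ⌊T⌋₊).filter Nat.Prime, ‖∑ j, z j * (p : ℂ) ^ (α j * I)‖ ^ 2 / p)) ≤
        ∫ t in T..(2 * T), ‖dp M e t‖ ^ 2 ∧
      ∀ N : ℕ, (N : ℝ) ≤ T ^ θ → ∀ b : ℕ → ℂ,
        ENNReal.ofReal (c * ∫ t in T..(2 * T), ‖dp M e t * dp N b t‖ ^ 2) ≤
          ∫⁻ t in Set.Icc T (2 * T), ENNReal.ofReal (Real.exp (2 * (∑ j, (starRingEnd ℂ) (z j) * Lz (t + α j)).re) * ‖dp N b t‖ ^ 2) := by
  obtain ⟨δ, θ, c, hδ, hδ1, hθ, hc, h⟩ := lbc A hA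
  obtain ⟨C, hC0, hC⟩ := prime_T hδ (by linarith)
  refine ⟨min θ (1 / 8), min (c / 2) (c / 2 * Real.exp (-(C * A ^ 2))), by positivity, by positivity, ?_⟩
  filter_upwards [h, hC, eventually_ge_atTop 16] with T h1 h2 hT16 n z α hk hα
  obtain ⟨M, e, hM, he, hlow, h3⟩ := h1 n z α hk hα
  have hT0 : 0 < T := by linarith
  have hM4 : (M : ℝ) ≤ T ^ (1 / 4 : ℝ) := hM.trans (Real.rpow_le_rpow_of_exponent_le (by linarith) (by norm_num))
  refine ⟨M, e, hM, ?_, ?_⟩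
  · have h4 := (Pool.Agent.Q84.UM.t_MVL T hT16 M hM4 e).1
    have h5 := h2 (A ^ 2) (fun p => ‖apc z α p‖ ^ 2) (by positivity)
      (fun p => pow_le_pow_left₀ (norm_nonneg _) (norm_apc_le z α hk p) 2)
    have e1 : ∑ p ∈ (Finset.Icc 1 ⌊T⌋₊).filter Nat.Prime, ‖∑ j, z j * (p : ℂ) ^ (α j * I)‖ ^ 2 / p =
        ∑ p ∈ (Finset.Icc 1 ⌊T⌋₊).filter Nat.Prime, ‖apc z α p‖ ^ 2 / p := by
      refine Finset.sum_congr rfl fun p hp => ?_
      rw [apc_conj z α p (Finset.mem_filter.1 hp).2]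
    rw [e1]
    set s₁ := ∑ p ∈ (Finset.Icc 1 ⌊T⌋₊).filter Nat.Prime, ‖apc z α p‖ ^ 2 / p
    set s₂ := ∑ p ∈ (Finset.Icc 1 ⌊T ^ δ⌋₊).filter Nat.Prime, ‖apc z α p‖ ^ 2 / p
    have h6 : Real.exp (-(C * A ^ 2)) * Real.exp s₁ ≤ Real.exp s₂ := by
      rw [← Real.exp_add]
      apply Real.exp_le_exp.mpr
      linarith
    calc min (c / 2) (c / 2 * Real.exp (-(C * A ^ 2))) * (T * Real.exp s₁) ≤ c / 2 * Real.exp (-(C * A ^ 2)) * (T * Real.exp s₁) :=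
          mul_le_mul_of_nonneg_right (min_le_right _ _) (by positivity)
      _ = T / 2 * (c * (Real.exp (-(C * A ^ 2)) * Real.exp s₁)) := by ring
      _ ≤ T / 2 * N2 M e := by
          refine mul_le_mul_of_nonneg_left ?_ (by linarith)
          exact (mul_le_mul_of_nonneg_left h6 hc.le).trans hlow
      _ ≤ _ := h4
  · intro N hN b
    have hN1 : (N : ℝ) ≤ T ^ θ := hN.trans (Real.rpow_le_rpow_of_exponent_le (by linarith) (min_le_left _ _))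
    have hN8 : (N : ℝ) ≤ T ^ (1 / 8 : ℝ) := hN.trans (Real.rpow_le_rpow_of_exponent_le (by linarith) (min_le_right _ _))
    -- truncation of the coefficients
    set b' : ℕ → ℂ := fun n => if 1 ≤ n ∧ n ≤ N then b n else 0 with hb'
    have hb's : ∀ m, b' m ≠ 0 → 1 ≤ m ∧ m ≤ N := by
      intro m hm
      by_contra hcon
      apply hm
      rw [hb']
      simp only
      rw [if_neg hcon]
    have hdp : ∀ t, dp N b' t = dp N b t := by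
      intro t
      unfold dp
      refine Finset.sum_congr rfl fun m hm => ?_
      rw [hb']
      simp only
      rw [if_pos (Finset.mem_Icc.mp hm)]
    have h4 := h3 N hN1 b' hb's
    have h5 : ∀ t, dp M e t * dp N b t = dp (M * N) (cv e b') t := by
      intro t
      rw [← hdp t]
      exact Pool.Agent.Q84.UM.t_DPM.1 M N e b' t (Pool.Agent.Q98.UM.supp_zero he) (Pool.Agent.Q98.UM.supp_zero hb's)
    have hMN : ((M * N : ℕ) : ℝ) ≤ T ^ (1 / 4 : ℝ) := by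
      push_cast
      calc (M : ℝ) * N ≤ T ^ (1 / 8 : ℝ) * T ^ (1 / 8 : ℝ) := mul_le_mul hM hN8 (by positivity) (by positivity)
        _ = T ^ (1 / 4 : ℝ) := by rw [← Real.rpow_add hT0]; norm_num
    have h6 := (Pool.Agent.Q84.UM.t_MVL T hT16 (M * N) hMN (cv e b')).2
    simp_rw [h5]
    simp_rw [hdp] at h4
    refine le_trans (ENNReal.ofReal_le_ofReal ?_) h4
    have h7 : 0 ≤ ∫ t in T..(2 * T), ‖dp (M * N) (cv e b') t‖ ^ 2 :=
      intervalIntegral.integral_nonneg (by linarith) fun t _ => by positivity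
    calc min (c / 2) (c / 2 * Real.exp (-(C * A ^ 2))) * ∫ t in T..(2 * T), ‖dp (M * N) (cv e b') t‖ ^ 2
        ≤ c / 2 * ∫ t in T..(2 * T), ‖dp (M * N) (cv e b') t‖ ^ 2 := mul_le_mul_of_nonneg_right (min_le_left _ _) h7
      _ ≤ c / 2 * (2 * T * N2 (M * N) (cv e b')) := mul_le_mul_of_nonneg_left h6 (by positivity)
      _ = c * T * N2 (M * N) (cv e b') := by ring

end

end Pool.Agent.U761.SZ
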