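import Pool.Agent.U761.SZ.LD

set_option autoImplicit false

/-!
U761.SZ: the measure of the set where the complex logarithm of zeta is near a given complex number.
-/

namespace Pool.Agent.U761.SZ

open Filter Topology MeasureTheory Complex
open Pool.Agent.Q97.UM Pool.Agent.Q247.UM Pool.Agent.Q241.UM
open Pool.Agent.Q98.UM (supp_zero)

noncomputable section

/-- Cauchy's inequality on a subset -/
theorem cs_set {f : ℝ → ℝ} (hf : Continuous f) (h0 : ∀ t, 0 ≤ f t) {a b : ℝ} (hab : a ≤ b) {E : Set ℝ} (hE : MeasurableSet E)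
    (hEs : E ⊆ Set.Ioc a b) : (∫ t in E, f t) ^ 2 ≤ (volume E).toReal * ∫ t in a..b, f t ^ 2 := by
  have hEf : volume E ≠ ⊤ := ((measure_mono hEs).trans_lt (by rw [Real.volume_Ioc]; exact ENNReal.ofReal_lt_top)).ne
  have hi : IntegrableOn f E := ((hf.integrableOn_Icc (a := a) (b := b)).mono_set Set.Ioc_subset_Icc_self).mono_set hEs
  have hi2 : IntegrableOn (fun t => f t ^ 2) E :=
    (((hf.pow 2).integrableOn_Icc (a := a) (b := b)).mono_set Set.Ioc_subset_Icc_self).mono_set hEs
  have hi2' : IntegrableOn (fun t => f t ^ 2) (Set.Ioc a b) :=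
    ((hf.pow 2).integrableOn_Icc (a := a) (b := b)).mono_set Set.Ioc_subset_Icc_self
  have h1 : ∫ t in E, f t ^ 2 ≤ ∫ t in a..b, f t ^ 2 := by
    rw [intervalIntegral.integral_of_le hab]
    exact setIntegral_mono_set hi2' (Eventually.of_forall fun t => sq_nonneg _) (Eventually.of_forall hEs)
  have hm0 : 0 ≤ (volume E).toReal := ENNReal.toReal_nonneg
  refine le_trans ?_ (mul_le_mul_of_nonneg_left h1 hm0)
  -- the quadratic trick
  set m := (volume E).toReal with hm
  set A := ∫ t in E, f t with hA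
  set B := ∫ t in E, f t ^ 2 with hB
  have key : ∀ x : ℝ, 0 ≤ B - 2 * x * A + x ^ 2 * m := by
    intro x
    have h2 : 0 ≤ ∫ t in E, (f t - x) ^ 2 := integral_nonneg fun t => sq_nonneg _
    have h3 : ∫ t in E, (f t - x) ^ 2 = B - 2 * x * A + x ^ 2 * m := by
      have e : (fun t => (f t - x) ^ 2) = fun t => f t ^ 2 - 2 * x * f t + x ^ 2 := by
        funext t
        ring
      have hc : IntegrableOn (fun _ : ℝ => x ^ 2) E := integrableOn_const hEf
      have i1 : IntegrableOn (fun t => f t ^ 2 - 2 * x * f t) E := hi2.sub (hi.const_mul _)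
      rw [e, integral_add i1 hc, integral_sub hi2 (hi.const_mul _), integral_const_mul, setIntegral_const]
      simp only [smul_eq_mul]
      rw [hm, Measure.real]
      ring
    linarith
  rcases hm0.lt_or_eq with h | h
  · have h2 := key (A / m)
    have h3 : B - 2 * (A / m) * A + (A / m) ^ 2 * m = B - A ^ 2 / m := by
      field_simp
      ring
    rw [h3] at h2
    have h4 : A ^ 2 / m ≤ B := by linarith
    rwa [div_le_iff₀ h, mul_comm] at h4
  · have hA0 : A = 0 := by
      have h5 : volume E = 0 := by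
        have h6 : (volume E).toReal = 0 := by rw [← hm]; exact h.symm
        rcases (ENNReal.toReal_eq_zero_iff _).1 h6 with h7 | h7
        · exact h7
        · exact absurd h7 hEf
      rw [hA, Measure.restrict_eq_zero.2 h5, integral_zero_measure]
    rw [hA0, ← h]
    norm_num

/-- large deviations of the complex logarithm of zeta, in every direction -/
theorem ld_main : ∃ c K C : ℝ, 0 < c ∧ 0 < K ∧ 0 < C ∧ ∀ᶠ T : ℝ in atTop, ∀ z : ℂ,
    ‖z‖ ≤ c * Real.sqrt (Real.log T / Real.log (Real.log T)) →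
      T * Real.exp (-(C * (1 + ‖z‖ ^ 2 / Real.log (2 + Real.log T / ((1 + ‖z‖ ^ 2) * Real.log (Real.log T)))))) ≤
        (volume {t : ℝ | T < t ∧ t ≤ 2 * T ∧ ‖Lz t - z‖ ≤ K * Real.sqrt (Real.log (Real.log T))}).toReal := by
  have hMV : S_MVL := Pool.Agent.Q84.UM.t_MVL
  have hD : S_DPM := Pool.Agent.Q84.UM.t_DPM
  obtain ⟨θ, c₀, hθ, hc₀, C₀, hC₀, htilt⟩ := tilt
  obtain ⟨K, hKd⟩ : ∃ K : ℝ, K = 2 * Real.sqrt C₀ := ⟨_, rfl⟩
  have hK : 0 < K := by rw [hKd]; positivity
  have hK2 : K ^ 2 = 4 * C₀ := by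
    rw [hKd, mul_pow, Real.sq_sqrt hC₀.le]
    norm_num
  -- the case of `‖z‖ ≥ 1`
  have main1 : ∀ᶠ T : ℝ in atTop, ∀ z : ℂ, 1 ≤ ‖z‖ → ‖z‖ ≤ c₀ * Real.sqrt (Real.log T / Real.log (Real.log T)) →
      T / 32 * Real.exp (-(16 * (‖z‖ ^ 2 / Real.log (2 + Real.log T / ((1 + ‖z‖ ^ 2) * Real.log (Real.log T)))))) ≤
        (volume {t : ℝ | T < t ∧ t ≤ 2 * T ∧ ‖Lz t - z‖ ≤ K * Real.sqrt (Real.log (Real.log T))}).toReal := by
    filter_upwards [htilt, growth2 1 one_pos] with T htl hgr z hz1 hz2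
    obtain ⟨hT16, -, hll, hL3⟩ := hgr
    have hT0 : 0 < T := by linarith
    have hT1 : 1 ≤ T := by linarith
    obtain ⟨N, r, hN, hθ8, hrN, hn1, hI, hb, hfour⟩ := htl z hz1 hz2
    obtain ⟨ll, hlld⟩ : ∃ ll : ℝ, ll = Real.log (Real.log T) := ⟨_, rfl⟩
    rw [← hlld] at hb hfour hll ⊢
    obtain ⟨Q, hQ⟩ : ∃ Q : ℝ, Q = 16 * (‖z‖ ^ 2 / Real.log (2 + Real.log T / ((1 + ‖z‖ ^ 2) * ll))) := ⟨_, rfl⟩
    rw [← hQ] at hfour ⊢
    obtain ⟨n2, hn2⟩ : ∃ n2 : ℝ, n2 = N2 N r := ⟨_, rfl⟩
    rw [← hn2] at hb hn1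
    have hn20 : 0 < n2 := by linarith
    have hll0 : 0 < ll := by linarith
    have hNT4 : (N : ℝ) ≤ T ^ (1 / 4 : ℝ) := hN.trans (Real.rpow_le_rpow_of_exponent_le hT1 (by linarith))
    have hNN : ((N * N : ℕ) : ℝ) ≤ T ^ (1 / 4 : ℝ) := by
      push_cast
      have h1 : (N : ℝ) ≤ T ^ (1 / 8 : ℝ) := hN.trans (Real.rpow_le_rpow_of_exponent_le hT1 hθ8)
      calc (N : ℝ) * N ≤ T ^ (1 / 8 : ℝ) * T ^ (1 / 8 : ℝ) := mul_le_mul h1 h1 (Nat.cast_nonneg _) (by positivity)
        _ = T ^ (1 / 4 : ℝ) := by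
            rw [← Real.rpow_add hT0]
            norm_num
    have hlow := (hMV T hT16 N hNT4 r).1
    rw [← hn2] at hlow
    have hup := (hMV T hT16 (N * N) hNN (cv r r)).2
    set E : Set ℝ := {t : ℝ | T < t ∧ t ≤ 2 * T ∧ ‖Lz t - z‖ ≤ K * Real.sqrt ll} with hE
    have hEm : MeasurableSet E := by
      have h1 : MeasurableSet {t : ℝ | ‖Lz t - z‖ ≤ K * Real.sqrt ll} :=
        measurableSet_le (Lz_meas.sub measurable_const).norm measurable_const
      have h2 : E = Set.Ioc T (2 * T) ∩ {t : ℝ | ‖Lz t - z‖ ≤ K * Real.sqrt ll} := by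
        ext t
        simp only [hE, Set.mem_setOf_eq, Set.mem_inter_iff, Set.mem_Ioc]
        tauto
      rw [h2]
      exact measurableSet_Ioc.inter h1
    have hEs : E ⊆ Set.Ioc T (2 * T) := fun t ht => ⟨ht.1, ht.2.1⟩
    set F : ℝ → ℝ := fun t => ‖dp N r t‖ ^ 2 with hF
    have hFc : Continuous F := (dp_cont N r).norm.pow 2
    have hF0 : ∀ t, 0 ≤ F t := fun t => by positivity
    have hTT : T ≤ 2 * T := by linarith
    have hFi : IntegrableOn F (Set.Ioc T (2 * T)) :=
      (hFc.integrableOn_Icc (a := T) (b := 2 * T)).mono_set Set.Ioc_subset_Icc_self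
    -- the mass outside `E`
    have hout : ∫ t in Set.Ioc T (2 * T) \ E, F t ≤ T * n2 / 4 := by
      have hGi : IntegrableOn (fun t => ‖Lz t - z‖ ^ 2 * F t) (Set.Ioc T (2 * T)) :=
        (intervalIntegrable_iff_integrableOn_Ioc_of_le hTT).1 hI
      have hks : 0 < K ^ 2 * ll := by positivity
      have h1 : ∫ t in Set.Ioc T (2 * T) \ E, F t ≤ ∫ t in Set.Ioc T (2 * T) \ E, (1 / (K ^ 2 * ll)) * (‖Lz t - z‖ ^ 2 * F t) := by
        refine setIntegral_mono_on (hFi.mono_set Set.diff_subset) ((hGi.mono_set Set.diff_subset).const_mul _)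
          (measurableSet_Ioc.diff hEm) fun t ht => ?_
        have h2 : K * Real.sqrt ll < ‖Lz t - z‖ := by
          by_contra hcon
          push Not at hcon
          exact ht.2 ⟨ht.1.1, ht.1.2, hcon⟩
        have h3 : K ^ 2 * ll ≤ ‖Lz t - z‖ ^ 2 := by
          have h4 := pow_le_pow_left₀ (by positivity) h2.le 2
          rwa [mul_pow, Real.sq_sqrt hll0.le] at h4
        have h5 : F t = 1 / (K ^ 2 * ll) * (K ^ 2 * ll * F t) := by field_simp
        rw [h5]
        refine mul_le_mul_of_nonneg_left ?_ (by positivity)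
        have h6 : 1 / (K ^ 2 * ll) * (K ^ 2 * ll * F t) = F t := by field_simp
        rw [h6]
        exact mul_le_mul_of_nonneg_right h3 (hF0 t)
      refine h1.trans ?_
      rw [integral_const_mul]
      have h2 : ∫ t in Set.Ioc T (2 * T) \ E, ‖Lz t - z‖ ^ 2 * F t ≤ C₀ * ll * (T * n2) := by
        refine le_trans ?_ hb
        rw [intervalIntegral.integral_of_le hTT]
        exact setIntegral_mono_set hGi (Eventually.of_forall fun t => mul_nonneg (sq_nonneg _) (hF0 t))
          (Eventually.of_forall Set.diff_subset)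
      calc 1 / (K ^ 2 * ll) * ∫ t in Set.Ioc T (2 * T) \ E, ‖Lz t - z‖ ^ 2 * F t ≤ 1 / (K ^ 2 * ll) * (C₀ * ll * (T * n2)) :=
            mul_le_mul_of_nonneg_left h2 (by positivity)
        _ = T * n2 / 4 := by
            rw [hK2]
            field_simp
    have hin : T * n2 / 4 ≤ ∫ t in E, F t := by
      have h1 : ∫ t in Set.Ioc T (2 * T), F t = (∫ t in E, F t) + ∫ t in Set.Ioc T (2 * T) \ E, F t := by
        have h2 := integral_inter_add_diff hEm hFi
        rw [Set.inter_eq_self_of_subset_right hEs] at h2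
        exact h2.symm
      rw [intervalIntegral.integral_of_le hTT] at hlow
      have h3 : T / 2 * n2 ≤ ∫ t in Set.Ioc T (2 * T), F t := hlow
      rw [h1] at h3
      linarith
    have hcs := cs_set hFc hF0 hTT hEm hEs
    have h4 : ∫ t in T..(2 * T), F t ^ 2 ≤ 2 * T * Real.exp Q := by
      have e1 : (fun t => F t ^ 2) = fun t => ‖dp (N * N) (cv r r) t‖ ^ 2 := by
        funext t
        simp only [hF]
        rw [← hD.1 N N r r t (supp_zero hrN) (supp_zero hrN), norm_mul]
        ring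
      rw [e1]
      exact hup.trans (mul_le_mul_of_nonneg_left hfour (by positivity))
    have hm0 : 0 ≤ (volume E).toReal := ENNReal.toReal_nonneg
    have h5 : (T * n2 / 4) ^ 2 ≤ (volume E).toReal * (2 * T * Real.exp Q) :=
      (pow_le_pow_left₀ (by positivity) hin 2).trans (hcs.trans (mul_le_mul_of_nonneg_left h4 hm0))
    have h6 : (T / 4) ^ 2 ≤ (T * n2 / 4) ^ 2 := by
      refine pow_le_pow_left₀ (by positivity) ?_ 2
      have : T * 1 ≤ T * n2 := mul_le_mul_of_nonneg_left hn1 hT0.le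
      linarith
    have h7 : T ^ 2 / 16 ≤ (volume E).toReal * (2 * T * Real.exp Q) := by
      refine le_trans (le_of_eq ?_) (h6.trans h5)
      ring
    have h8 : T / 32 ≤ (volume E).toReal * Real.exp Q := by
      have h9 : T * (T / 32) ≤ T * ((volume E).toReal * Real.exp Q) := by
        calc T * (T / 32) = (T ^ 2 / 16) / 2 := by ring
          _ ≤ ((volume E).toReal * (2 * T * Real.exp Q)) / 2 := by linarith
          _ = _ := by ring
      exact le_of_mul_le_mul_left h9 hT0
    have h9 : T / 32 * Real.exp (-Q) ≤ (volume E).toReal * Real.exp Q * Real.exp (-Q) :=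
      mul_le_mul_of_nonneg_right h8 (Real.exp_pos _).le
    rw [mul_assoc, ← Real.exp_add, add_neg_cancel, Real.exp_zero, mul_one] at h9
    exact h9
  refine ⟨c₀, K + 2, 16 / Real.log 2 + 4, hc₀, by linarith, by
    have := Real.log_pos one_lt_two
    positivity, ?_⟩
  have hl2 : 0 < Real.log 2 := Real.log_pos one_lt_two
  have hTend : ∀ᶠ T : ℝ in atTop, 1 ≤ c₀ * Real.sqrt (Real.log T / Real.log (Real.log T)) := by
    have h1 : Tendsto (fun L : ℝ => L / Real.log L) atTop atTop := by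
      have h1 : Tendsto (fun L : ℝ => Real.log L / L) atTop (𝓝[>] 0) := by
        refine tendsto_nhdsWithin_iff.2 ⟨?_, ?_⟩
        · exact Real.isLittleO_log_id_atTop.tendsto_div_nhds_zero
        · filter_upwards [eventually_gt_atTop 1] with L hL
          exact div_pos (Real.log_pos hL) (by linarith)
      refine (tendsto_inv_nhdsGT_zero.comp h1).congr fun L => ?_
      simp
    have h2 : Tendsto (fun T : ℝ => c₀ * Real.sqrt (Real.log T / Real.log (Real.log T))) atTop atTop :=
      (Real.tendsto_sqrt_atTop.comp (h1.comp Real.tendsto_log_atTop)).const_mul_atTop hc₀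
    exact h2.eventually_ge_atTop 1
  filter_upwards [main1, growth2 1 one_pos, hTend] with T hm1 hgr hone z hz
  obtain ⟨hT16, -, hll, hL3⟩ := hgr
  have hT0 : 0 < T := by linarith
  obtain ⟨ll, hlld⟩ : ∃ ll : ℝ, ll = Real.log (Real.log T) := ⟨_, rfl⟩
  rw [← hlld] at hm1 hll hone hz ⊢
  have hll0 : 0 < ll := by linarith
  have hsq : 1 ≤ Real.sqrt ll := Real.one_le_sqrt.2 hll
  have hfin : ∀ S : Set ℝ, S ⊆ Set.Ioc T (2 * T) → volume S ≠ ⊤ := fun S hS =>
    ((measure_mono hS).trans_lt (by rw [Real.volume_Ioc]; exact ENNReal.ofReal_lt_top)).ne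
  have hexp32 : Real.exp (-(4 : ℝ)) ≤ 1 / 32 := by
    rw [Real.exp_neg, ← one_div]
    refine one_div_le_one_div_of_le (by norm_num) ?_
    have h1 := Real.exp_one_gt_d9
    have h2 : Real.exp 4 = Real.exp 1 ^ 4 := by rw [← Real.exp_nat_mul]; norm_num
    rw [h2]
    calc (32 : ℝ) ≤ 2.7 ^ 4 := by norm_num
      _ ≤ Real.exp 1 ^ 4 := pow_le_pow_left₀ (by norm_num) (by linarith) 4
  have hLpos : 0 < Real.log T := by linarith
  have hden : ∀ x : ℝ, 0 ≤ x → Real.log 2 ≤ Real.log (2 + Real.log T / ((1 + x) * ll)) := by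
    intro x hx
    refine Real.log_le_log (by norm_num) ?_
    have : 0 ≤ Real.log T / ((1 + x) * ll) := by positivity
    linarith
  by_cases h1 : 1 ≤ ‖z‖
  · have h2 := hm1 z h1 hz
    set w := ‖z‖ ^ 2 / Real.log (2 + Real.log T / ((1 + ‖z‖ ^ 2) * ll)) with hw
    have hw0 : 0 ≤ w := by
      have := hden (‖z‖ ^ 2) (sq_nonneg _)
      rw [hw]
      exact div_nonneg (sq_nonneg _) (by linarith)
    refine le_trans ?_ (h2.trans ?_)
    · have h3 : Real.exp (-((16 / Real.log 2 + 4) * (1 + w))) ≤ 1 / 32 * Real.exp (-(16 * w)) := by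
        have h16 : (16 : ℝ) ≤ 16 / Real.log 2 := by
          rw [le_div_iff₀ hl2]
          have := Real.log_two_lt_d9
          linarith
        calc Real.exp (-((16 / Real.log 2 + 4) * (1 + w))) ≤ Real.exp (-(4 : ℝ) + -(16 * w)) := by
              refine Real.exp_le_exp.2 ?_
              have : 16 * w ≤ 16 / Real.log 2 * w := mul_le_mul_of_nonneg_right h16 hw0
              have h7 : 0 ≤ 4 * w := by positivity
              have h8 : 0 ≤ 16 / Real.log 2 := by positivity
              linarith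
          _ = Real.exp (-(4 : ℝ)) * Real.exp (-(16 * w)) := Real.exp_add _ _
          _ ≤ _ := mul_le_mul_of_nonneg_right hexp32 (Real.exp_pos _).le
      calc T * Real.exp (-((16 / Real.log 2 + 4) * (1 + w))) ≤ T * (1 / 32 * Real.exp (-(16 * w))) :=
            mul_le_mul_of_nonneg_left h3 hT0.le
        _ = _ := by ring
    · refine ENNReal.toReal_mono (hfin _ fun t ht => ⟨ht.1, ht.2.1⟩) (measure_mono fun t ht => ⟨ht.1, ht.2.1, ht.2.2.trans ?_⟩)
      have : 0 ≤ 2 * Real.sqrt ll := by positivity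
      linarith
  · push Not at h1
    have h2 := hm1 1 (by simp) (by simpa using hone)
    rw [norm_one] at h2
    refine le_trans ?_ (h2.trans ?_)
    · have h3 := hden 1 zero_le_one
      have h3' : (1 : ℝ) ^ 2 = 1 := one_pow 2
      rw [h3']
      have h4 : 1 / Real.log (2 + Real.log T / ((1 + 1) * ll)) ≤ 1 / Real.log 2 := one_div_le_one_div_of_le hl2 h3
      set w := ‖z‖ ^ 2 / Real.log (2 + Real.log T / ((1 + ‖z‖ ^ 2) * ll)) with hw
      have hw0 : 0 ≤ w := by
        have := hden (‖z‖ ^ 2) (sq_nonneg _)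
        rw [hw]
        exact div_nonneg (sq_nonneg _) (by linarith)
      set w1 := 1 / Real.log (2 + Real.log T / ((1 + 1) * ll)) with hw1
      have h5 : Real.exp (-((16 / Real.log 2 + 4) * (1 + w))) ≤ 1 / 32 * Real.exp (-(16 * w1)) := by
        calc Real.exp (-((16 / Real.log 2 + 4) * (1 + w))) ≤ Real.exp (-(4 : ℝ) + -(16 * w1)) := by
              refine Real.exp_le_exp.2 ?_
              have h6 : 16 * w1 ≤ 16 / Real.log 2 := by
                calc 16 * w1 ≤ 16 * (1 / Real.log 2) := by linarith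
                  _ = _ := by ring
              have h7 : 0 ≤ (16 / Real.log 2 + 4) * w := by positivity
              linarith
          _ = Real.exp (-(4 : ℝ)) * Real.exp (-(16 * w1)) := Real.exp_add _ _
          _ ≤ _ := mul_le_mul_of_nonneg_right hexp32 (Real.exp_pos _).le
      calc T * Real.exp (-((16 / Real.log 2 + 4) * (1 + w))) ≤ T * (1 / 32 * Real.exp (-(16 * w1))) :=
            mul_le_mul_of_nonneg_left h5 hT0.le
        _ = _ := by ring
    · refine ENNReal.toReal_mono (hfin _ fun t ht => ⟨ht.1, ht.2.1⟩) (measure_mono fun t ht => ⟨ht.1, ht.2.1, ?_⟩)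
      have e : Lz t - z = (Lz t - 1) + (1 - z) := by ring
      rw [e]
      refine (norm_add_le _ _).trans ?_
      have h3 : ‖(1 : ℂ) - z‖ ≤ 2 := by
        refine (norm_sub_le _ _).trans ?_
        rw [norm_one]
        linarith
      have h4 := ht.2.2
      linarith

end

end Pool.Agent.U761.SZ
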