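import Pool.Agent.U761.SZ.TEN
import Pool.Agent.U761.SZ.LD
import Pool.Agent.U761.SZ.LBC

set_option autoImplicit false

/-!
U761.SZ: second moments of prime sums and of the logarithm of zeta relative to a truncated exponential.
-/

namespace Pool.Agent.U761.SZ

open Filter Topology MeasureTheory Complex
open Pool.Agent.Q97.UM Pool.Agent.Q247.UM Pool.Agent.Q241.UM
open Pool.Agent.Q149.UM (zp norm_zp_le norm_zp_cube sum_le_Z3 Z3 Z3_nonneg)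

noncomputable section

/-- sums over primes -/
def PS (X : ℕ) (c : ℕ → ℂ) (t : ℝ) : ℂ := ∑ p ∈ (Finset.Icc 1 X).filter Nat.Prime, c p * zp p t

/-- sums over squares of primes -/
def SS (X : ℕ) (c : ℕ → ℂ) (t : ℝ) : ℂ := ∑ p ∈ (Finset.Icc 1 X).filter Nat.Prime, c p * zp p t ^ 2

theorem dp_Ed {e : ℕ → ℂ} {d M N : ℕ} (hd : 1 ≤ d) (he : ∀ n, e n ≠ 0 → 1 ≤ n ∧ n ≤ N) (hM : d * N ≤ M) (t : ℝ) :
    dp M (Ed e d) t = zp d t * dp N e t := by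
  unfold dp zp
  rw [sum_mult (d := d) (N := N) hd hM _ (fun n hn => ?_), Finset.mul_sum]
  · refine Finset.sum_congr rfl fun m _ => ?_
    rw [Ed_mul hd, Nat.cast_mul, natCast_mul_natCast_cpow]
    ring
  · obtain ⟨m, hm, _, hm2, _⟩ := Ed_ne he (left_ne_zero_of_mul hn)
    exact ⟨m, hm, hm2⟩

theorem dp_ext {M N : ℕ} {e : ℕ → ℂ} (hM : N ≤ M) (he : ∀ n, e n ≠ 0 → 1 ≤ n ∧ n ≤ N) (t : ℝ) : dp M e t = dp N e t := by
  unfold dp
  symm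
  refine Finset.sum_subset (Finset.Icc_subset_Icc_right hM) fun n _ hn' => ?_
  have : e n = 0 := by
    by_contra h0
    exact hn' (Finset.mem_Icc.2 (he n h0))
  rw [this, zero_mul]

theorem PS_mul {e c : ℕ → ℂ} {X M N : ℕ} (hX : 1 ≤ X) (he : ∀ n, e n ≠ 0 → 1 ≤ n ∧ n ≤ N) (hM : X * N ≤ M) (μ : ℂ) (t : ℝ) :
    (PS X c t - μ) * dp N e t = dp M (fun n => ∑ p ∈ (Finset.Icc 1 X).filter Nat.Prime, c p * Ed e p n - μ * e n) t := by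
  have h1 : dp M (fun n => ∑ p ∈ (Finset.Icc 1 X).filter Nat.Prime, c p * Ed e p n - μ * e n) t =
      ∑ p ∈ (Finset.Icc 1 X).filter Nat.Prime, c p * dp M (Ed e p) t - μ * dp M e t := by
    unfold dp
    rw [Finset.mul_sum]
    simp only [sub_mul, Finset.sum_mul, Finset.mul_sum]
    rw [Finset.sum_sub_distrib, Finset.sum_comm]
    congr 1
    · refine Finset.sum_congr rfl fun p _ => Finset.sum_congr rfl fun n _ => by ring
    · exact Finset.sum_congr rfl fun n _ => by ring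
  have hNM : N ≤ M := le_trans (Nat.le_mul_of_pos_left N hX) hM
  rw [h1, dp_ext hNM he, sub_mul]
  unfold PS
  rw [Finset.sum_mul]
  congr 1
  refine Finset.sum_congr rfl fun p hp => ?_
  rw [Finset.mem_filter, Finset.mem_Icc] at hp
  rw [dp_Ed hp.1.1 he ((Nat.mul_le_mul_right N hp.1.2).trans hM)]
  ring

theorem zp_sq (p : ℕ) (t : ℝ) : zp (p ^ 2) t = zp p t ^ 2 := by
  unfold zp
  rw [sq, Nat.cast_mul, natCast_mul_natCast_cpow, sq]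

theorem SS_mul {e c : ℕ → ℂ} {X M N : ℕ} (he : ∀ n, e n ≠ 0 → 1 ≤ n ∧ n ≤ N) (hM : X ^ 2 * N ≤ M) (t : ℝ) :
    SS X c t * dp N e t = dp M (fun n => ∑ p ∈ (Finset.Icc 1 X).filter Nat.Prime, c p * Ed e (p ^ 2) n) t := by
  have h1 : dp M (fun n => ∑ p ∈ (Finset.Icc 1 X).filter Nat.Prime, c p * Ed e (p ^ 2) n) t =
      ∑ p ∈ (Finset.Icc 1 X).filter Nat.Prime, c p * dp M (Ed e (p ^ 2)) t := by
    unfold dp
    simp only [Finset.sum_mul, Finset.mul_sum]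
    rw [Finset.sum_comm]
    refine Finset.sum_congr rfl fun p _ => Finset.sum_congr rfl fun n _ => by ring
  rw [h1]
  unfold SS
  rw [Finset.sum_mul]
  refine Finset.sum_congr rfl fun p hp => ?_
  rw [Finset.mem_filter, Finset.mem_Icc] at hp
  rw [dp_Ed (Nat.pos_of_ne_zero (pow_ne_zero 2 (by omega))) he
    ((Nat.mul_le_mul_right N (Nat.pow_le_pow_left hp.1.2 2)).trans hM), zp_sq]
  ring

/-- the second moment of a sum over primes -/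
theorem PS_mom {T A V : ℝ} (hT : 16 ≤ T) {q c : ℕ → ℂ} {P : Finset ℕ} (hA : 1 ≤ A) (hq : ∀ n, q n ≠ 0 → n.Prime ∧ n ∈ P)
    (hP : ∀ p ∈ P, p.Prime) (hqA : ∀ n, ‖q n‖ ≤ A) (hc : ∀ n, ‖c n‖ ≤ 1) {K N X : ℕ} (hK : 1 ≤ K) (hX : 1 ≤ X)
    (hPX : ∀ p ∈ P, p ≤ X) (hN : ∀ n, te q K n ≠ 0 → 1 ≤ n ∧ n ≤ N) (hlen : ((X * N : ℕ) : ℝ) ≤ T ^ (1 / 4 : ℝ))
    (hV : ∑ p ∈ (Finset.Icc 1 X).filter Nat.Prime, (1 : ℝ) / p ≤ V) (hV1 : 1 ≤ V) (hKV : V ^ 2 ≤ K) :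
    ∫ t in T..(2 * T), ‖(PS X c t - ∑ p ∈ (Finset.Icc 1 X).filter Nat.Prime, c p * (starRingEnd ℂ) (q p) / p) * dp N (te q K) t‖ ^ 2 ≤
      2 * T * ((1 + 3 * A ^ 4) * V * N2 N (te q K)) := by
  simp only [PS_mul hX hN le_rfl]
  refine ((Pool.Agent.Q84.UM.t_MVL T hT (X * N) hlen _).2).trans (mul_le_mul_of_nonneg_left ?_ (by linarith))
  have h1 := te_conc hA hq hP hqA hc hK hX hPX hN (le_refl (X * N)) hV hV1 hKV
  unfold N2 at h1 ⊢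
  refine le_trans (le_of_eq ?_) h1
  exact Finset.sum_congr rfl fun n _ => by rw [mul_one_div]

/-- the second moment of a sum over squares of primes -/
theorem SS_mom {T A : ℝ} (hT : 16 ≤ T) {q c : ℕ → ℂ} {P : Finset ℕ} (hA : 1 ≤ A) (hq : ∀ n, q n ≠ 0 → n.Prime ∧ n ∈ P)
    (hqA : ∀ n, ‖q n‖ ≤ A) (hc : ∀ n, ‖c n‖ ≤ 1) {K N X : ℕ} (hX : 1 ≤ X)
    (hN : ∀ n, te q K n ≠ 0 → 1 ≤ n ∧ n ≤ N) (hlen : ((X ^ 2 * N : ℕ) : ℝ) ≤ T ^ (1 / 4 : ℝ)) :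
    ∫ t in T..(2 * T), ‖SS X c t * dp N (te q K) t‖ ^ 2 ≤ 2 * T * ((2 + 4 * A ^ 4) * N2 N (te q K)) := by
  simp only [SS_mul hN le_rfl]
  refine ((Pool.Agent.Q84.UM.t_MVL T hT (X ^ 2 * N) hlen _).2).trans (mul_le_mul_of_nonneg_left ?_ (by linarith))
  have h1 := te_sqs hA hq hqA hc hX hN (le_refl (X ^ 2 * N))
  unfold N2 at h1 ⊢
  refine le_trans (le_of_eq ?_) h1
  exact Finset.sum_congr rfl fun n _ => by rw [mul_one_div]

/-- the shifted powers -/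
theorem zp_shift {p : ℕ} (hp : 0 < p) (t h : ℝ) : zp p (t + h) = (p : ℂ) ^ (-(h * I)) * zp p t := by
  unfold zp
  have hp0 : (p : ℂ) ≠ 0 := by exact_mod_cast hp.ne'
  rw [← cpow_add _ _ hp0]
  congr 1
  push_cast
  ring

theorem LE_shift (X : ℕ) (t h : ℝ) : ‖LE X (t + h) - PS X (fun p => (p : ℂ) ^ (-(h * I))) t -
    SS X (fun p => ((p : ℂ) ^ (-(h * I))) ^ 2) t / 2‖ ≤ 4 / 3 * Z3 := by
  have h1 := LE_sqs X (t + h)
  have h2 : ∑ p ∈ (Finset.Icc 1 X).filter Nat.Prime, (zp p (t + h) + zp p (t + h) ^ 2 / 2) =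
      PS X (fun p => (p : ℂ) ^ (-(h * I))) t + SS X (fun p => ((p : ℂ) ^ (-(h * I))) ^ 2) t / 2 := by
    unfold PS SS
    rw [Finset.sum_div, ← Finset.sum_add_distrib]
    refine Finset.sum_congr rfl fun p hp => ?_
    rw [zp_shift (Finset.mem_filter.1 hp).2.pos]
    ring
  rw [h2, ← sub_sub] at h1
  exact h1

theorem zp_cont (p : ℕ) (hp : 0 < p) : Continuous (zp p) := by
  have hp0 : (p : ℂ) ≠ 0 := by exact_mod_cast hp.ne'
  unfold zp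
  refine Continuous.const_cpow (by fun_prop) (Or.inl hp0)

theorem PS_cont (X : ℕ) (c : ℕ → ℂ) : Continuous (PS X c) := by
  unfold PS
  exact continuous_finsetSum _ fun p hp => continuous_const.mul (zp_cont p (Finset.mem_filter.1 hp).2.pos)

theorem SS_cont (X : ℕ) (c : ℕ → ℂ) : Continuous (SS X c) := by
  unfold SS
  exact continuous_finsetSum _ fun p hp => continuous_const.mul ((zp_cont p (Finset.mem_filter.1 hp).2.pos).pow 2)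

theorem cpow_norm_one {p : ℕ} (hp : 0 < p) (h : ℝ) : ‖(p : ℂ) ^ (-(h * I))‖ ≤ 1 := by
  have h1 : ‖(p : ℂ) ^ (-(h * I))‖ = (p : ℝ) ^ (-(h * I : ℂ)).re := Complex.norm_natCast_cpow_of_pos hp _
  rw [h1]
  simp

/-- the second moment of `log ζ` at a shifted point -/
theorem L_mom {T A V C₁ : ℝ} (hT : 16 ≤ T) {q : ℕ → ℂ} {P : Finset ℕ} (hA : 1 ≤ A) (hq : ∀ n, q n ≠ 0 → n.Prime ∧ n ∈ P)
    (hP : ∀ p ∈ P, p.Prime) (hqA : ∀ n, ‖q n‖ ≤ A) {K N X : ℕ} (hK : 1 ≤ K) (hX : 1 ≤ X)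
    (hPX : ∀ p ∈ P, p ≤ X) (hN : ∀ n, te q K n ≠ 0 → 1 ≤ n ∧ n ≤ N) (hlen1 : ((X * N : ℕ) : ℝ) ≤ T ^ (1 / 4 : ℝ))
    (hlen2 : ((X ^ 2 * N : ℕ) : ℝ) ≤ T ^ (1 / 4 : ℝ)) (hlen0 : (N : ℝ) ≤ T ^ (1 / 4 : ℝ))
    (hV : ∑ p ∈ (Finset.Icc 1 X).filter Nat.Prime, (1 : ℝ) / p ≤ V) (hV1 : 1 ≤ V) (hKV : V ^ 2 ≤ K) (hC₁ : 0 ≤ C₁) (h : ℝ)
    (hI : IntervalIntegrable (fun t => ‖Lz (t + h) - LE X (t + h)‖ ^ 2 * ‖dp N (te q K) t‖ ^ 2) volume T (2 * T))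
    (hB : ∫ t in T..(2 * T), ‖Lz (t + h) - LE X (t + h)‖ ^ 2 * ‖dp N (te q K) t‖ ^ 2 ≤ C₁ * T * N2 N (te q K)) :
    IntervalIntegrable (fun t => ‖Lz (t + h) - ∑ p ∈ (Finset.Icc 1 X).filter Nat.Prime, (p : ℂ) ^ (-(h * I)) * (starRingEnd ℂ) (q p) / p‖ ^ 2 *
      ‖dp N (te q K) t‖ ^ 2) volume T (2 * T) ∧
    ∫ t in T..(2 * T), ‖Lz (t + h) - ∑ p ∈ (Finset.Icc 1 X).filter Nat.Prime, (p : ℂ) ^ (-(h * I)) * (starRingEnd ℂ) (q p) / p‖ ^ 2 *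
      ‖dp N (te q K) t‖ ^ 2 ≤ (4 * C₁ + 80 * A ^ 4 + 8 * (4 / 3 * Z3) ^ 2) * V * (T * N2 N (te q K)) := by
  obtain ⟨μ, hμ⟩ : ∃ μ : ℂ, μ = ∑ p ∈ (Finset.Icc 1 X).filter Nat.Prime, (p : ℂ) ^ (-(h * I)) * (starRingEnd ℂ) (q p) / p := ⟨_, rfl⟩
  obtain ⟨S, hS⟩ : ∃ S : ℝ, S = N2 N (te q K) := ⟨_, rfl⟩
  have hS0 : 0 ≤ S := by rw [hS]; exact Pool.Agent.Q97.UM.N2_nonneg _ _
  have hc1 : ∀ p : ℕ, ‖(fun p : ℕ => if 0 < p then (p : ℂ) ^ (-(h * I)) else 0) p‖ ≤ 1 := by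
    intro p
    simp only
    by_cases hp : 0 < p
    · rw [if_pos hp]
      exact cpow_norm_one hp h
    · rw [if_neg hp]
      simp
  have hc2 : ∀ p : ℕ, ‖(fun p : ℕ => if 0 < p then ((p : ℂ) ^ (-(h * I))) ^ 2 else 0) p‖ ≤ 1 := by
    intro p
    simp only
    by_cases hp : 0 < p
    · rw [if_pos hp, norm_pow]
      exact pow_le_one₀ (norm_nonneg _) (cpow_norm_one hp h)
    · rw [if_neg hp]
      simp
  have hPS : ∀ t, PS X (fun p : ℕ => if 0 < p then (p : ℂ) ^ (-(h * I)) else 0) t = PS X (fun p => (p : ℂ) ^ (-(h * I))) t := by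
    intro t
    unfold PS
    exact Finset.sum_congr rfl fun p hp => by simp only [if_pos (Finset.mem_filter.1 hp).2.pos]
  have hSS : ∀ t, SS X (fun p : ℕ => if 0 < p then ((p : ℂ) ^ (-(h * I))) ^ 2 else 0) t = SS X (fun p => ((p : ℂ) ^ (-(h * I))) ^ 2) t := by
    intro t
    unfold SS
    exact Finset.sum_congr rfl fun p hp => by simp only [if_pos (Finset.mem_filter.1 hp).2.pos]
  have I1 := PS_mom hT hA hq hP hqA hc1 hK hX hPX hN hlen1 hV hV1 hKV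
  have I2 := SS_mom hT hA hq hqA hc2 hX hN hlen2
  have I3 := (Pool.Agent.Q84.UM.t_MVL T hT N hlen0 (te q K)).2
  have hμ' : ∑ p ∈ (Finset.Icc 1 X).filter Nat.Prime, (if 0 < p then (p : ℂ) ^ (-(h * I)) else 0) * (starRingEnd ℂ) (q p) / p = μ := by
    rw [hμ]
    exact Finset.sum_congr rfl fun p hp => by rw [if_pos (Finset.mem_filter.1 hp).2.pos]
  simp only [hPS, hμ'] at I1
  simp only [hSS] at I2
  rw [← hS] at I1 I2 I3 hB ⊢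
  rw [← hμ]
  obtain ⟨c1, hc1d⟩ : ∃ c1 : ℕ → ℂ, c1 = fun p : ℕ => (p : ℂ) ^ (-(h * I)) := ⟨_, rfl⟩
  obtain ⟨c2, hc2d⟩ : ∃ c2 : ℕ → ℂ, c2 = fun p : ℕ => ((p : ℂ) ^ (-(h * I))) ^ 2 := ⟨_, rfl⟩
  have hLE := fun t => LE_shift X t h
  rw [← hc1d] at I1 hLE
  rw [← hc2d] at I2 hLE
  obtain ⟨E, hE⟩ : ∃ E : ℝ → ℂ, E = dp N (te q K) := ⟨_, rfl⟩
  have hEc : Continuous E := by rw [hE]; exact (Pool.Agent.Q84.UM.t_DPM.2.2 _ _ 0).2
  rw [← hE] at I1 I2 I3 hI hB ⊢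
  have cB : Continuous fun t => ‖E t‖ ^ 2 := hEc.norm.pow 2
  have cG : Continuous fun t => ‖(PS X c1 t - μ) * E t‖ ^ 2 := (((PS_cont X c1).sub continuous_const).mul hEc).norm.pow 2
  have cH : Continuous fun t => ‖SS X c2 t * E t‖ ^ 2 := ((SS_cont X c2).mul hEc).norm.pow 2
  have hpt : ∀ t, ‖Lz (t + h) - μ‖ ^ 2 * ‖E t‖ ^ 2 ≤ 4 * (‖Lz (t + h) - LE X (t + h)‖ ^ 2 * ‖E t‖ ^ 2 + ‖(PS X c1 t - μ) * E t‖ ^ 2 +
      ‖SS X c2 t * E t‖ ^ 2 + (4 / 3 * Z3) ^ 2 * ‖E t‖ ^ 2) := by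
    intro t
    have h1 := hLE t
    have h2 : ‖Lz (t + h) - μ‖ ≤ ‖Lz (t + h) - LE X (t + h)‖ + ‖PS X c1 t - μ‖ + ‖SS X c2 t‖ + 4 / 3 * Z3 := by
      have e : Lz (t + h) - μ = (Lz (t + h) - LE X (t + h)) + (PS X c1 t - μ) + SS X c2 t / 2 +
          (LE X (t + h) - PS X c1 t - SS X c2 t / 2) := by ring
      rw [e]
      refine (norm_add_le _ _).trans (add_le_add ((norm_add_le _ _).trans (add_le_add (norm_add_le _ _) ?_)) h1)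
      rw [norm_div, Complex.norm_ofNat]
      have := norm_nonneg (SS X c2 t)
      linarith
    have h3 : ‖Lz (t + h) - μ‖ ^ 2 ≤ 4 * (‖Lz (t + h) - LE X (t + h)‖ ^ 2 + ‖PS X c1 t - μ‖ ^ 2 + ‖SS X c2 t‖ ^ 2 +
        (4 / 3 * Z3) ^ 2) := (pow_le_pow_left₀ (norm_nonneg _) h2 2).trans (four_sq _ _ _ _)
    have h4 := mul_le_mul_of_nonneg_right h3 (sq_nonneg ‖E t‖)
    refine h4.trans (le_of_eq ?_)
    rw [norm_mul, norm_mul]
    ring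
  have hint : IntervalIntegrable (fun t => 4 * (‖Lz (t + h) - LE X (t + h)‖ ^ 2 * ‖E t‖ ^ 2 + ‖(PS X c1 t - μ) * E t‖ ^ 2 +
      ‖SS X c2 t * E t‖ ^ 2 + (4 / 3 * Z3) ^ 2 * ‖E t‖ ^ 2)) volume T (2 * T) :=
    (((hI.add (cG.intervalIntegrable _ _)).add (cH.intervalIntegrable _ _)).add
      ((cB.const_mul _).intervalIntegrable _ _)).const_mul 4
  have hmeas : Measurable fun t => ‖Lz (t + h) - μ‖ ^ 2 * ‖E t‖ ^ 2 :=
    ((((Lz_meas.comp (measurable_id.add_const h)).sub measurable_const).norm).pow_const 2).mul cB.measurable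
  have hInt : IntervalIntegrable (fun t => ‖Lz (t + h) - μ‖ ^ 2 * ‖E t‖ ^ 2) volume T (2 * T) := by
    refine hint.mono_fun' hmeas.aestronglyMeasurable (Eventually.of_forall fun t => ?_)
    show ‖‖Lz (t + h) - μ‖ ^ 2 * ‖E t‖ ^ 2‖ ≤ _
    rw [Real.norm_of_nonneg (by positivity)]
    exact hpt t
  refine ⟨hInt, ?_⟩
  have h1 := intervalIntegral.integral_mono_on (by linarith) hInt hint fun t _ => hpt t
  refine h1.trans ?_
  rw [intervalIntegral.integral_const_mul,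
    intervalIntegral.integral_add ((hI.add (cG.intervalIntegrable _ _)).add (cH.intervalIntegrable _ _))
      ((cB.const_mul _).intervalIntegrable _ _),
    intervalIntegral.integral_add (hI.add (cG.intervalIntegrable _ _)) (cH.intervalIntegrable _ _),
    intervalIntegral.integral_add hI (cG.intervalIntegrable _ _), intervalIntegral.integral_const_mul]
  have h2 : (4 / 3 * Z3) ^ 2 * (∫ t in T..(2 * T), ‖E t‖ ^ 2) ≤ (4 / 3 * Z3) ^ 2 * (2 * T * S) :=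
    mul_le_mul_of_nonneg_left I3 (by positivity)
  have hTS : 0 ≤ T * S := mul_nonneg (by linarith) hS0
  have hVTS : T * S ≤ V * (T * S) := le_mul_of_one_le_left hTS hV1
  have hA4 : 1 ≤ A ^ 4 := one_le_pow₀ hA
  have k1 : C₁ * (T * S) ≤ C₁ * (V * (T * S)) := mul_le_mul_of_nonneg_left hVTS hC₁
  have k2 : (4 / 3 * Z3) ^ 2 * (2 * T * S) ≤ 2 * (4 / 3 * Z3) ^ 2 * (V * (T * S)) := by
    have := mul_le_mul_of_nonneg_left hVTS (by positivity : (0 : ℝ) ≤ 2 * (4 / 3 * Z3) ^ 2)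
    linarith
  have hA5 : V * (T * S) ≤ A ^ 4 * (V * (T * S)) := le_mul_of_one_le_left (by positivity) hA4
  have k3 : 2 * T * ((1 + 3 * A ^ 4) * V * S) ≤ 8 * A ^ 4 * (V * (T * S)) := by
    linarith [show 2 * T * ((1 + 3 * A ^ 4) * V * S) = 2 * (V * (T * S)) + 6 * (A ^ 4 * (V * (T * S))) by ring]
  have k4 : 2 * T * ((2 + 4 * A ^ 4) * S) ≤ 12 * A ^ 4 * (V * (T * S)) := by
    have g1 : A ^ 4 * (T * S) ≤ A ^ 4 * (V * (T * S)) := mul_le_mul_of_nonneg_left hVTS (by positivity)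
    linarith [show 2 * T * ((2 + 4 * A ^ 4) * S) = 4 * (T * S) + 8 * (A ^ 4 * (T * S)) by ring]
  linarith

end

end Pool.Agent.U761.SZ
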