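import Pool.Agent.U761.SZ.LSP
import Pool.Agent.U761.SZ.LBF

set_option autoImplicit false

/-!
U761.SZ: joint large deviations of `log ζ` at shifted points, at the scale `log log T`, with the sharp exponent.
-/

namespace Pool.Agent.U761.SZ

open Filter Topology MeasureTheory Complex
open Pool.Agent.Q97.UM Pool.Agent.Q247.UM Pool.Agent.Q241.UM
open Pool.Agent.Q149.UM (zp norm_zp_le norm_zp_cube sum_le_Z3 Z3 Z3_nonneg)

noncomputable section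

/-- the measure of the set where a nonnegative function with small relative mean is small, by a pointwise bound -/
theorem gm2 {T : ℝ} (hT16 : 16 ≤ T) {N : ℕ} (hN : (N : ℝ) ≤ T ^ (1 / 4 : ℝ)) {r : ℕ → ℂ}
    {g : ℝ → ℝ} (hg : Measurable g) (hg0 : ∀ t, 0 ≤ g t) {B : ℝ} (hB : 0 < B)
    (hI : IntervalIntegrable (fun t => g t * ‖dp N r t‖ ^ 2) volume T (2 * T))
    (hb : ∫ t in T..(2 * T), g t * ‖dp N r t‖ ^ 2 ≤ B * (T * N2 N r)) {M : ℝ} (hM : ∀ t, g t ≤ 4 * B → ‖dp N r t‖ ^ 2 ≤ M) :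
    T / 4 * N2 N r ≤ M * (volume {t : ℝ | T < t ∧ t ≤ 2 * T ∧ g t ≤ 4 * B}).toReal := by
  have hMV : S_MVL := Pool.Agent.Q84.UM.t_MVL
  have hT0 : 0 < T := by linarith
  have hT1 : 1 ≤ T := by linarith
  obtain ⟨n2, hn2⟩ : ∃ n2 : ℝ, n2 = N2 N r := ⟨_, rfl⟩
  have hn20 : 0 ≤ n2 := by rw [hn2]; exact Pool.Agent.Q97.UM.N2_nonneg _ _
  have hlow := (hMV T hT16 N hN r).1
  rw [← hn2] at hlow hb ⊢
  set E : Set ℝ := {t : ℝ | T < t ∧ t ≤ 2 * T ∧ g t ≤ 4 * B} with hE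
  have hEm : MeasurableSet E := by
    have h1 : MeasurableSet {t : ℝ | g t ≤ 4 * B} := measurableSet_le hg measurable_const
    have h2 : E = Set.Ioc T (2 * T) ∩ {t : ℝ | g t ≤ 4 * B} := by
      ext t
      simp only [hE, Set.mem_setOf_eq, Set.mem_inter_iff, Set.mem_Ioc]
      tauto
    rw [h2]
    exact measurableSet_Ioc.inter h1
  have hEs : E ⊆ Set.Ioc T (2 * T) := fun t ht => ⟨ht.1, ht.2.1⟩
  have hEf : volume E < ⊤ := (measure_mono hEs).trans_lt (by rw [Real.volume_Ioc]; exact ENNReal.ofReal_lt_top)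
  set F : ℝ → ℝ := fun t => ‖dp N r t‖ ^ 2 with hF
  have hFc : Continuous F := (dp_cont N r).norm.pow 2
  have hF0 : ∀ t, 0 ≤ F t := fun t => by positivity
  have hTT : T ≤ 2 * T := by linarith
  have hFi : IntegrableOn F (Set.Ioc T (2 * T)) :=
    (hFc.integrableOn_Icc (a := T) (b := 2 * T)).mono_set Set.Ioc_subset_Icc_self
  -- the mass outside `E`
  have hout : ∫ t in Set.Ioc T (2 * T) \ E, F t ≤ T * n2 / 4 := by
    have hGi : IntegrableOn (fun t => g t * F t) (Set.Ioc T (2 * T)) :=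
      (intervalIntegrable_iff_integrableOn_Ioc_of_le hTT).1 hI
    have h1 : ∫ t in Set.Ioc T (2 * T) \ E, F t ≤ ∫ t in Set.Ioc T (2 * T) \ E, (1 / (4 * B)) * (g t * F t) := by
      refine setIntegral_mono_on (hFi.mono_set Set.diff_subset) ((hGi.mono_set Set.diff_subset).const_mul _)
        (measurableSet_Ioc.diff hEm) fun t ht => ?_
      have h2 : 4 * B < g t := by
        by_contra hcon
        push Not at hcon
        exact ht.2 ⟨ht.1.1, ht.1.2, hcon⟩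
      have h6 : F t = 1 / (4 * B) * (4 * B * F t) := by field_simp
      calc F t = 1 / (4 * B) * (4 * B * F t) := h6
        _ ≤ 1 / (4 * B) * (g t * F t) := by
            refine mul_le_mul_of_nonneg_left ?_ (by positivity)
            exact mul_le_mul_of_nonneg_right h2.le (hF0 t)
    refine h1.trans ?_
    rw [integral_const_mul]
    have h2 : ∫ t in Set.Ioc T (2 * T) \ E, g t * F t ≤ B * (T * n2) := by
      refine le_trans ?_ hb
      rw [intervalIntegral.integral_of_le hTT]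
      exact setIntegral_mono_set hGi (Eventually.of_forall fun t => mul_nonneg (hg0 t) (hF0 t))
        (Eventually.of_forall Set.diff_subset)
    calc 1 / (4 * B) * ∫ t in Set.Ioc T (2 * T) \ E, g t * F t ≤ 1 / (4 * B) * (B * (T * n2)) :=
          mul_le_mul_of_nonneg_left h2 (by positivity)
      _ = T * n2 / 4 := by
          field_simp
  have hin : T * n2 / 4 ≤ ∫ t in E, F t := by
    have h1 : ∫ t in Set.Ioc T (2 * T), F t = (∫ t in E, F t) + ∫ t in Set.Ioc T (2 * T) \ E, F t := by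
      have h2 := integral_inter_add_diff hEm hFi
      rw [Set.inter_eq_self_of_subset_right hEs] at h2
      exact h2.symm
    rw [intervalIntegral.integral_of_le hTT] at hlow
    have h3 : T / 2 * n2 ≤ ∫ t in Set.Ioc T (2 * T), F t := hlow
    rw [h1] at h3
    linarith
  have h5 := norm_setIntegral_le_of_norm_le_const (μ := volume) (f := F) (C := M) hEf (fun t ht => by
    rw [Real.norm_of_nonneg (hF0 t)]
    exact hM t ht.2.2)
  rw [Real.norm_of_nonneg (integral_nonneg hF0), Measure.real] at h5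
  calc T / 4 * n2 = T * n2 / 4 := by ring
    _ ≤ _ := hin.trans h5

/-- **Joint large deviations of `log ζ` at shifted points, at the scale `log log T`.** -/
theorem lsd {A : ℝ} (hA : 1 ≤ A) (n : ℕ) : ∃ K₀ C : ℝ, 0 < K₀ ∧ 0 < C ∧ ∀ᶠ T : ℝ in atTop,
    1 ≤ Real.log (Real.log T) ∧ ∀ (z : Fin n → ℂ) (α : Fin n → ℝ), ∑ j, ‖z j‖ ≤ A → (∀ j, |α j| ≤ T / 2) →
      T * Real.exp (-(∑ p ∈ (Finset.Icc 1 ⌊T⌋₊).filter Nat.Prime, ‖apc z α p‖ ^ 2 / p) - C * Real.sqrt (Real.log (Real.log T))) ≤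
        (volume {t : ℝ | T < t ∧ t ≤ 2 * T ∧ ∀ j, ‖Lz (t + α j) - ∑ p ∈ (Finset.Icc 1 ⌊T⌋₊).filter Nat.Prime,
          (p : ℂ) ^ (-(α j * I)) * (starRingEnd ℂ) (apc z α p) / p‖ ≤ K₀ * Real.sqrt (Real.log (Real.log T))}).toReal := by
  obtain ⟨θ, δ₀, hθ, hδ₀, hTH⟩ := THH 2
  obtain ⟨δ, hδ, hδa, hδb⟩ : ∃ δ : ℝ, 0 < δ ∧ δ ≤ δ₀ ∧ δ ≤ 1 / 16 :=
    ⟨min δ₀ (1 / 16), by positivity, min_le_left _ _, min_le_right _ _⟩
  obtain ⟨δ', hδ', hδ'a, hδ'b⟩ : ∃ δ' : ℝ, 0 < δ' ∧ δ' ≤ θ ∧ δ' ≤ 1 / 16 :=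
    ⟨min θ (1 / 16), by positivity, min_le_left _ _, min_le_right _ _⟩
  obtain ⟨C₁, hC₁, hT⟩ := hTH δ hδ hδa
  obtain ⟨C₂, hC₂⟩ : ∃ C₂ : ℝ, C₂ = 4 * C₁ + 80 * A ^ 4 + 8 * (4 / 3 * Z3) ^ 2 := ⟨_, rfl⟩
  have hC₂0 : 0 ≤ C₂ := by rw [hC₂]; positivity
  obtain ⟨C₃, hC₃⟩ : ∃ C₃ : ℝ, C₃ = n * C₂ + 8 * A ^ 6 := ⟨_, rfl⟩
  have hC₃0 : 0 < C₃ := by rw [hC₃]; positivity
  obtain ⟨K₁, hK₁⟩ : ∃ K₁ : ℝ, K₁ = Real.sqrt (8 * C₃) := ⟨_, rfl⟩
  have hK₁0 : 0 < K₁ := by rw [hK₁]; positivity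
  refine ⟨K₁ + 1, 2 * K₁ + 2 * A ^ 4 + 4 + Real.log 8, by linarith, by
    have := Real.log_pos (show (1 : ℝ) < 8 by norm_num)
    positivity, ?_⟩
  filter_upwards [hT, params (K₁ := K₁) hδ (by linarith) hδ' hA, eventually_ge_atTop 16] with T hTT hpar hT16
  obtain ⟨K, Y, v1, hK1, hKV2, hKV, hKA, hK6, hY1, hYK, hYX, hYT, hV, htail⟩ := hpar
  refine ⟨v1, fun z α hz hα => ?_⟩
  have hT0 : 0 < T := by linarith
  have hT1 : 1 ≤ T := by linarith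
  obtain ⟨v, hv⟩ : ∃ v : ℝ, v = Real.log (Real.log T) := ⟨_, rfl⟩
  rw [← hv] at v1 hKV2 hKV hKA hK6 hV htail ⊢
  have hv0 : 0 < v := by linarith
  have hsv : 1 ≤ Real.sqrt v := Real.one_le_sqrt.2 v1
  obtain ⟨X, hX⟩ : ∃ X : ℕ, X = ⌊T ^ δ⌋₊ := ⟨_, rfl⟩
  rw [← hX] at hYX hV
  have hX1 : 1 ≤ X := hY1.trans hYX
  obtain ⟨P, hP⟩ : ∃ P : Finset ℕ, P = (Finset.Icc 1 Y).filter Nat.Prime := ⟨_, rfl⟩
  obtain ⟨q, hqd⟩ : ∃ q : ℕ → ℂ, q = fun m => if m ∈ P then apc z α m else 0 := ⟨_, rfl⟩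
  have hPp : ∀ p ∈ P, p.Prime := fun p hp => by rw [hP] at hp; exact (Finset.mem_filter.1 hp).2
  have hPY : ∀ p ∈ P, p ≤ Y := fun p hp => by rw [hP] at hp; exact (Finset.mem_Icc.1 (Finset.mem_filter.1 hp).1).2
  have hPX : ∀ p ∈ P, p ≤ X := fun p hp => (hPY p hp).trans hYX
  have hqP : ∀ p ∈ P, q p = apc z α p := fun p hp => by rw [hqd]; simp only [if_pos hp]
  have hq0 : ∀ p, p ∉ P → q p = 0 := fun p hp => by rw [hqd]; simp only [if_neg hp]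
  have hq : ∀ m, q m ≠ 0 → m.Prime ∧ m ∈ P := by
    intro m hm
    by_cases h : m ∈ P
    · exact ⟨hPp m h, h⟩
    · exact absurd (hq0 m h) hm
  have hqA : ∀ m, ‖q m‖ ≤ A := by
    intro m
    by_cases h : m ∈ P
    · rw [hqP m h]
      exact norm_apc_le z α hz m
    · rw [hq0 m h, norm_zero]
      linarith
  have hqY : ∀ m, Y < m → q m = 0 := by
    intro m hm
    refine hq0 m fun h => ?_
    exact absurd (hPY m h) (not_le.2 hm)
  have hN : ∀ m, te q K m ≠ 0 → 1 ≤ m ∧ m ≤ Y ^ K := te_supp hY1 hqY fun m hm => (hq m hm).1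
  obtain ⟨N, hNd⟩ : ∃ N : ℕ, N = Y ^ K := ⟨_, rfl⟩
  rw [← hNd] at hN hYK
  have hXr : (X : ℝ) ≤ T ^ (1 / 16 : ℝ) := by
    rw [hX]
    exact (Nat.floor_le (by positivity)).trans (Real.rpow_le_rpow_of_exponent_le hT1 hδb)
  have hNr : (N : ℝ) ≤ T ^ (1 / 16 : ℝ) := hYK.trans (Real.rpow_le_rpow_of_exponent_le hT1 hδ'b)
  have hNθ : (N : ℝ) ≤ T ^ θ := hYK.trans (Real.rpow_le_rpow_of_exponent_le hT1 hδ'a)
  have hX1r : (1 : ℝ) ≤ X := by exact_mod_cast hX1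
  have hlen2 : ((X ^ 2 * N : ℕ) : ℝ) ≤ T ^ (1 / 4 : ℝ) := by
    push_cast
    calc (X : ℝ) ^ 2 * N ≤ (T ^ (1 / 16 : ℝ)) ^ 2 * T ^ (1 / 16 : ℝ) :=
          mul_le_mul (pow_le_pow_left₀ (by positivity) hXr 2) hNr (Nat.cast_nonneg _) (by positivity)
      _ = T ^ (3 / 16 : ℝ) := by
          rw [← Real.rpow_natCast, ← Real.rpow_mul hT0.le, ← Real.rpow_add hT0]
          norm_num
      _ ≤ _ := Real.rpow_le_rpow_of_exponent_le hT1 (by norm_num)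
  have hlen1 : ((X * N : ℕ) : ℝ) ≤ T ^ (1 / 4 : ℝ) := by
    refine le_trans ?_ hlen2
    exact_mod_cast Nat.mul_le_mul_right N (Nat.le_self_pow (by norm_num) X)
  have hlen0 : (N : ℝ) ≤ T ^ (1 / 4 : ℝ) := hNr.trans (Real.rpow_le_rpow_of_exponent_le hT1 (by norm_num))
  have hV1 : 1 ≤ 2 * v := by linarith
  obtain ⟨S, hS⟩ : ∃ S : ℝ, S = N2 N (te q K) := ⟨_, rfl⟩
  have hS0 : 0 ≤ S := by rw [hS]; exact Pool.Agent.Q97.UM.N2_nonneg _ _
  obtain ⟨E, hE⟩ : ∃ E : ℝ → ℂ, E = dp N (te q K) := ⟨_, rfl⟩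
  have hEc : Continuous E := by rw [hE]; exact (Pool.Agent.Q84.UM.t_DPM.2.2 _ _ 0).2
  obtain ⟨μ, hμ⟩ : ∃ μ : Fin n → ℂ, μ = fun j => ∑ p ∈ (Finset.Icc 1 X).filter Nat.Prime,
    (p : ℂ) ^ (-(α j * I)) * (starRingEnd ℂ) (q p) / p := ⟨_, rfl⟩
  obtain ⟨ρ, hρ⟩ : ∃ ρ : ℝ, ρ = ∑ p ∈ P, ‖q p‖ ^ 2 / p := ⟨_, rfl⟩
  have hPsub : P ⊆ (Finset.Icc 1 X).filter Nat.Prime := fun p hp =>
    Finset.mem_filter.2 ⟨Finset.mem_Icc.2 ⟨(hPp p hp).one_lt.le, hPX p hp⟩, hPp p hp⟩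
  -- the moments at the shifted points
  have hLm : ∀ j, IntervalIntegrable (fun t => ‖Lz (t + α j) - μ j‖ ^ 2 * ‖E t‖ ^ 2) volume T (2 * T) ∧
      ∫ t in T..(2 * T), ‖Lz (t + α j) - μ j‖ ^ 2 * ‖E t‖ ^ 2 ≤ C₂ * (2 * v) * (T * S) := by
    intro j
    obtain ⟨i1, i2⟩ := hTT (α j) (hα j) N hNθ (te q K)
    rw [← hX] at i1 i2
    have h1 := L_mom hT16 hA hq hPp hqA hK1 hX1 hPX hN hlen1 hlen2 hlen0 hV hV1 hKV2 hC₁ (α j) i1 i2
    rw [hC₂, hE, hS, hμ]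
    exact h1
  -- the moment of the sum over primes
  have hA0 : 0 < A := by linarith
  have hPm : ∫ t in T..(2 * T), ‖PS X q t - ρ‖ ^ 2 * ‖E t‖ ^ 2 ≤ 8 * A ^ 6 * (2 * v) * (T * S) := by
    have hc : ∀ m, ‖(fun m => q m / (A : ℂ)) m‖ ≤ 1 := by
      intro m
      simp only
      rw [norm_div, norm_real, Real.norm_of_nonneg hA0.le, div_le_one hA0]
      exact hqA m
    have h1 := PS_mom hT16 hA hq hPp hqA hc hK1 hX1 hPX hN hlen1 hV hV1 hKV2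
    have hAc : (A : ℂ) ≠ 0 := by exact_mod_cast hA0.ne'
    have h2 : ∀ t, ‖(PS X (fun m => q m / (A : ℂ)) t - ∑ p ∈ (Finset.Icc 1 X).filter Nat.Prime,
        q p / (A : ℂ) * (starRingEnd ℂ) (q p) / p) * dp N (te q K) t‖ ^ 2 = 1 / A ^ 2 * (‖PS X q t - ρ‖ ^ 2 * ‖E t‖ ^ 2) := by
      intro t
      have e1 : PS X (fun m => q m / (A : ℂ)) t = PS X q t / A := by
        unfold PS
        rw [Finset.sum_div]
        exact Finset.sum_congr rfl fun p _ => by ring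
      have e2 : ∑ p ∈ (Finset.Icc 1 X).filter Nat.Prime, q p / (A : ℂ) * (starRingEnd ℂ) (q p) / p = (ρ : ℂ) / A := by
        have e3 : (ρ : ℂ) = ∑ p ∈ (Finset.Icc 1 X).filter Nat.Prime, q p * (starRingEnd ℂ) (q p) / p := by
          rw [hρ, ← Finset.sum_subset hPsub]
          · push_cast
            refine Finset.sum_congr rfl fun p _ => ?_
            rw [mul_conj, Complex.normSq_eq_norm_sq]
            push_cast
            ring
          · intro p _ hp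
            rw [hq0 p hp]
            simp
        rw [e3, Finset.sum_div]
        exact Finset.sum_congr rfl fun p _ => by ring
      rw [e1, e2, ← sub_div, norm_mul, norm_div, norm_real, Real.norm_of_nonneg hA0.le, hE]
      ring
    simp only [h2] at h1
    rw [intervalIntegral.integral_const_mul, ← hS] at h1
    have h3 : ∫ t in T..(2 * T), ‖PS X q t - ρ‖ ^ 2 * ‖E t‖ ^ 2 ≤ A ^ 2 * (2 * T * ((1 + 3 * A ^ 4) * (2 * v) * S)) := by
      have h4 := mul_le_mul_of_nonneg_left h1 (by positivity : 0 ≤ A ^ 2)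
      rw [← mul_assoc, mul_one_div_cancel (by positivity), one_mul] at h4
      exact h4
    refine h3.trans ?_
    have hA4 : 1 ≤ A ^ 4 := one_le_pow₀ hA
    have hTS : 0 ≤ A ^ 2 * (2 * v) * (T * S) := by positivity
    have h5 := mul_le_mul_of_nonneg_right hA4 hTS
    linarith [show A ^ 2 * (2 * T * ((1 + 3 * A ^ 4) * (2 * v) * S)) = 2 * (1 * (A ^ 2 * (2 * v) * (T * S))) +
      6 * (A ^ 4 * (A ^ 2 * (2 * v) * (T * S))) by ring, show 8 * A ^ 6 * (2 * v) * (T * S) = 8 * (A ^ 4 * (A ^ 2 * (2 * v) * (T * S))) by ring]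
  -- the total
  obtain ⟨g, hg⟩ : ∃ g : ℝ → ℝ, g = fun t => (∑ j, ‖Lz (t + α j) - μ j‖ ^ 2) + ‖PS X q t - ρ‖ ^ 2 := ⟨_, rfl⟩
  have hgm : Measurable g := by
    rw [hg]
    refine Measurable.add (Finset.measurable_sum _ fun j _ => ?_) ?_
    · exact (((Lz_meas.comp (measurable_id.add_const (α j))).sub measurable_const).norm).pow_const 2
    · exact (((PS_cont X q).sub continuous_const).norm.pow 2).measurable
  have hg0 : ∀ t, 0 ≤ g t := by
    intro t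
    rw [hg]
    exact add_nonneg (Finset.sum_nonneg fun j _ => sq_nonneg _) (sq_nonneg _)
  have hgE : (fun t => g t * ‖E t‖ ^ 2) = fun t => (∑ j, ‖Lz (t + α j) - μ j‖ ^ 2 * ‖E t‖ ^ 2) + ‖PS X q t - ρ‖ ^ 2 * ‖E t‖ ^ 2 := by
    funext t
    rw [hg]
    simp only
    rw [add_mul, Finset.sum_mul]
  have iP : IntervalIntegrable (fun t => ‖PS X q t - ρ‖ ^ 2 * ‖E t‖ ^ 2) volume T (2 * T) :=
    ((((PS_cont X q).sub continuous_const).norm.pow 2).mul (hEc.norm.pow 2)).intervalIntegrable _ _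
  have iL : IntervalIntegrable (fun t => ∑ j, ‖Lz (t + α j) - μ j‖ ^ 2 * ‖E t‖ ^ 2) volume T (2 * T) := by
    have := IntervalIntegrable.sum Finset.univ (f := fun j t => ‖Lz (t + α j) - μ j‖ ^ 2 * ‖E t‖ ^ 2) (μ := volume) (a := T) (b := 2 * T)
      fun j _ => (hLm j).1
    have e1 : (fun t => ∑ j, ‖Lz (t + α j) - μ j‖ ^ 2 * ‖E t‖ ^ 2) = ∑ j, fun t => ‖Lz (t + α j) - μ j‖ ^ 2 * ‖E t‖ ^ 2 := by
      funext t
      rw [Finset.sum_apply]
    rw [e1]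
    exact this
  have hgi : IntervalIntegrable (fun t => g t * ‖E t‖ ^ 2) volume T (2 * T) := by
    rw [hgE]
    exact iL.add iP
  have hgint : ∫ t in T..(2 * T), g t * ‖E t‖ ^ 2 ≤ C₃ * (2 * v) * (T * S) := by
    rw [hgE, intervalIntegral.integral_add iL iP, intervalIntegral.integral_finsetSum fun j _ => (hLm j).1]
    have h1 : ∑ j, ∫ t in T..(2 * T), ‖Lz (t + α j) - μ j‖ ^ 2 * ‖E t‖ ^ 2 ≤ n * (C₂ * (2 * v) * (T * S)) := by
      refine (Finset.sum_le_sum fun j _ => (hLm j).2).trans (le_of_eq ?_)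
      rw [Finset.sum_const, Finset.card_univ, Fintype.card_fin, nsmul_eq_mul]
    rw [hC₃]
    linarith [show (n * C₂ + 8 * A ^ 6) * (2 * v) * (T * S) = n * (C₂ * (2 * v) * (T * S)) + 8 * A ^ 6 * (2 * v) * (T * S) by ring]
  have hB0 : 0 < C₃ * (2 * v) := by positivity
  -- consequences of `g ≤ 4 B`
  have hK₁v : ∀ x : ℝ, 0 ≤ x → x ^ 2 ≤ 4 * (C₃ * (2 * v)) → x ≤ K₁ * Real.sqrt v := by
    intro x hx hx2
    rw [hK₁, ← Real.sqrt_mul (by positivity)]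
    refine Real.le_sqrt_of_sq_le ?_
    linarith
  have hgP : ∀ t, g t ≤ 4 * (C₃ * (2 * v)) → ‖PS X q t - ρ‖ ≤ K₁ * Real.sqrt v := by
    intro t ht
    refine hK₁v _ (norm_nonneg _) (le_trans ?_ ht)
    rw [hg]
    exact le_add_of_nonneg_left (Finset.sum_nonneg fun j _ => sq_nonneg _)
  have hgL : ∀ t, g t ≤ 4 * (C₃ * (2 * v)) → ∀ j, ‖Lz (t + α j) - μ j‖ ≤ K₁ * Real.sqrt v := by
    intro t ht j
    refine hK₁v _ (norm_nonneg _) (le_trans ?_ ht)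
    rw [hg]
    refine le_trans ?_ (le_add_of_nonneg_right (sq_nonneg _))
    exact Finset.single_le_sum (f := fun j => ‖Lz (t + α j) - μ j‖ ^ 2) (fun j _ => sq_nonneg _) (Finset.mem_univ j)
  have hρ0 : 0 ≤ ρ := by rw [hρ]; exact Finset.sum_nonneg fun p _ => by positivity
  have hρV : ρ ≤ A ^ 2 * (2 * v) := by
    rw [hρ]
    calc ∑ p ∈ P, ‖q p‖ ^ 2 / (p : ℝ) ≤ ∑ p ∈ P, A ^ 2 * (1 / (p : ℝ)) := by
          refine Finset.sum_le_sum fun p _ => ?_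
          rw [mul_one_div]
          exact div_le_div_of_nonneg_right (pow_le_pow_left₀ (norm_nonneg _) (hqA p) 2) (Nat.cast_nonneg p)
      _ = A ^ 2 * ∑ p ∈ P, (1 / (p : ℝ)) := by rw [Finset.mul_sum]
      _ ≤ A ^ 2 * (2 * v) := mul_le_mul_of_nonneg_left
        ((Finset.sum_le_sum_of_subset_of_nonneg hPsub fun p _ _ => by positivity).trans hV) (by positivity)
  have hdpPS : ∀ t, dp Y q t = PS X q t := by
    intro t
    unfold dp PS
    have h1 : ∑ p ∈ (Finset.Icc 1 X).filter Nat.Prime, q p * zp p t = ∑ p ∈ P, q p * zp p t := by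
      symm
      refine Finset.sum_subset hPsub fun p _ hp => ?_
      rw [hq0 p hp, zero_mul]
    rw [h1]
    symm
    refine Finset.sum_subset ?_ fun p _ hp => ?_
    · rw [hP]
      exact Finset.filter_subset _ _
    · rw [hq0 p hp, zero_mul]
  have hM : ∀ t, g t ≤ 4 * (C₃ * (2 * v)) → ‖dp N (te q K) t‖ ^ 2 ≤ Real.exp (2 * ρ + 2 * (K₁ * Real.sqrt v) + 4) := by
    intro t ht
    have h1 := hgP t ht
    have h2 : ‖dp Y q t‖ ≤ 2 * (A ^ 2 * (2 * v)) := by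
      rw [hdpPS]
      have h3 : ‖PS X q t‖ ≤ ‖PS X q t - ρ‖ + ‖(ρ : ℂ)‖ := by
        calc ‖PS X q t‖ = ‖(PS X q t - ρ) + ρ‖ := by rw [sub_add_cancel]
          _ ≤ _ := norm_add_le _ _
      rw [norm_real, Real.norm_of_nonneg hρ0] at h3
      linarith
    have h3 := te_pt hY1 hK1 hqY t h2 hK6
    rw [hNd]
    refine h3.trans (Real.exp_le_exp.2 ?_)
    have h4 : (PS X q t - ρ).re ≤ K₁ * Real.sqrt v := (Complex.re_le_norm _).trans h1
    rw [sub_re, ofReal_re] at h4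
    rw [hdpPS]
    linarith
  have hmain := gm2 hT16 hlen0 hgm hg0 hB0 (by rw [← hE]; exact hgi) (by rw [← hE, ← hS]; exact hgint) hM
  rw [← hS] at hmain
  have hlow := te_low hq hPp hqA hPX hN hV hKV
  rw [← hS, ← hρ] at hlow
  -- comparison of the exponents
  have hqT : (Finset.Icc 1 Y).filter Nat.Prime ⊆ (Finset.Icc 1 ⌊T⌋₊).filter Nat.Prime :=
    Finset.filter_subset_filter _ (Finset.Icc_subset_Icc_right hYT)
  have hρT : ρ ≤ ∑ p ∈ (Finset.Icc 1 ⌊T⌋₊).filter Nat.Prime, ‖apc z α p‖ ^ 2 / p := by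
    rw [hρ]
    have e1 : ∑ p ∈ P, ‖q p‖ ^ 2 / (p : ℝ) = ∑ p ∈ P, ‖apc z α p‖ ^ 2 / (p : ℝ) :=
      Finset.sum_congr rfl fun p hp => by rw [hqP p hp]
    rw [e1, hP]
    exact Finset.sum_le_sum_of_subset_of_nonneg hqT fun p _ _ => by positivity
  obtain ⟨W, hW⟩ : ∃ W : ℝ, W = ∑ p ∈ (Finset.Icc 1 ⌊T⌋₊).filter Nat.Prime, ‖apc z α p‖ ^ 2 / p := ⟨_, rfl⟩
  rw [← hW] at hρT ⊢
  have hvol : T * Real.exp (-W - (2 * K₁ + 2 * A ^ 4 + 4 + Real.log 8) * Real.sqrt v) ≤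
      (volume {t : ℝ | T < t ∧ t ≤ 2 * T ∧ g t ≤ 4 * (C₃ * (2 * v))}).toReal := by
    obtain ⟨m, hm⟩ : ∃ m : ℝ, m = (volume {t : ℝ | T < t ∧ t ≤ 2 * T ∧ g t ≤ 4 * (C₃ * (2 * v))}).toReal := ⟨_, rfl⟩
    rw [← hm] at hmain ⊢
    have h1 : T / 4 * (1 / 2 * Real.exp (ρ - 2 * A ^ 4)) ≤ Real.exp (2 * ρ + 2 * (K₁ * Real.sqrt v) + 4) * m :=
      (mul_le_mul_of_nonneg_left hlow (by positivity)).trans hmain
    have h2 := mul_le_mul_of_nonneg_left h1 (Real.exp_pos (-(2 * ρ + 2 * (K₁ * Real.sqrt v) + 4))).le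
    rw [← mul_assoc (Real.exp (-(2 * ρ + 2 * (K₁ * Real.sqrt v) + 4))) (Real.exp (2 * ρ + 2 * (K₁ * Real.sqrt v) + 4)) m,
      ← Real.exp_add, neg_add_cancel, Real.exp_zero, one_mul] at h2
    refine le_trans ?_ h2
    have h3 : Real.exp (-(2 * ρ + 2 * (K₁ * Real.sqrt v) + 4)) * (T / 4 * (1 / 2 * Real.exp (ρ - 2 * A ^ 4))) =
        T * Real.exp (-ρ - 2 * (K₁ * Real.sqrt v) - 4 - 2 * A ^ 4 - Real.log 8) := by
      have e : -ρ - 2 * (K₁ * Real.sqrt v) - 4 - 2 * A ^ 4 - Real.log 8 =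
        -(2 * ρ + 2 * (K₁ * Real.sqrt v) + 4) + (ρ - 2 * A ^ 4) - Real.log 8 := by ring
      rw [e, Real.exp_sub _ (Real.log 8), Real.exp_log (by norm_num), Real.exp_add (-(2 * ρ + 2 * (K₁ * Real.sqrt v) + 4)) (ρ - 2 * A ^ 4)]
      ring
    rw [h3]
    refine mul_le_mul_of_nonneg_left (Real.exp_le_exp.2 ?_) hT0.le
    have h4 : 0 < Real.log 8 := Real.log_pos (by norm_num)
    have h5 : (2 * A ^ 4 + 4 + Real.log 8) * 1 ≤ (2 * A ^ 4 + 4 + Real.log 8) * Real.sqrt v :=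
      mul_le_mul_of_nonneg_left hsv (by positivity)
    linarith [show (2 * K₁ + 2 * A ^ 4 + 4 + Real.log 8) * Real.sqrt v = 2 * (K₁ * Real.sqrt v) + (2 * A ^ 4 + 4 + Real.log 8) * Real.sqrt v by ring]
  refine hvol.trans ?_
  refine ENNReal.toReal_mono ?_ (measure_mono fun t ht => ⟨ht.1, ht.2.1, fun j => ?_⟩)
  · exact ((measure_mono (t := Set.Ioc T (2 * T)) (fun t ht => ⟨ht.1, ht.2.1⟩)).trans_lt (by
      rw [Real.volume_Ioc]; exact ENNReal.ofReal_lt_top)).ne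
  · have h1 := hgL t ht.2.2 j
    have h2 : ‖μ j - ∑ p ∈ (Finset.Icc 1 ⌊T⌋₊).filter Nat.Prime, (p : ℂ) ^ (-(α j * I)) * (starRingEnd ℂ) (apc z α p) / p‖ ≤
        Real.sqrt v := by
      have e1 : μ j = ∑ p ∈ (Finset.Icc 1 Y).filter Nat.Prime, (p : ℂ) ^ (-(α j * I)) * (starRingEnd ℂ) (apc z α p) / p := by
        rw [hμ]
        simp only
        rw [← Finset.sum_subset hPsub]
        · rw [← hP]
          exact Finset.sum_congr rfl fun p hp => by rw [hqP p hp]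
        · intro p _ hp
          rw [hq0 p hp]
          simp
      rw [e1, ← Finset.sum_sdiff hqT, sub_add_cancel_right, norm_neg]
      refine (norm_sum_le _ _).trans (le_trans ?_ htail)
      rw [Finset.mul_sum]
      refine Finset.sum_le_sum fun p hp => ?_
      have hp' : p.Prime := (Finset.mem_filter.1 (Finset.mem_sdiff.1 hp).1).2
      rw [norm_div, norm_mul, RCLike.norm_conj, Complex.norm_natCast, mul_one_div]
      refine div_le_div_of_nonneg_right ?_ (Nat.cast_nonneg p)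
      calc ‖(p : ℂ) ^ (-(α j * I))‖ * ‖apc z α p‖ ≤ 1 * A :=
            mul_le_mul (cpow_norm_one hp'.pos (α j)) (norm_apc_le z α hz p) (norm_nonneg _) zero_le_one
        _ = A := one_mul A
    calc ‖Lz (t + α j) - ∑ p ∈ (Finset.Icc 1 ⌊T⌋₊).filter Nat.Prime, (p : ℂ) ^ (-(α j * I)) * (starRingEnd ℂ) (apc z α p) / p‖
        = ‖(Lz (t + α j) - μ j) + (μ j - ∑ p ∈ (Finset.Icc 1 ⌊T⌋₊).filter Nat.Prime, (p : ℂ) ^ (-(α j * I)) * (starRingEnd ℂ) (apc z α p) / p)‖ := by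
          rw [sub_add_sub_cancel]
      _ ≤ K₁ * Real.sqrt v + Real.sqrt v := (norm_add_le _ _).trans (add_le_add h1 h2)
      _ = (K₁ + 1) * Real.sqrt v := by ring

end

end Pool.Agent.U761.SZ
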