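import Pool.Agent.U761.SZ.LSB

set_option autoImplicit false

/-!
U761.SZ: sums over primes with small shifts.
-/

namespace Pool.Agent.U761.SZ

open Filter Topology MeasureTheory Complex

noncomputable section

theorem cpow_near {p : ℕ} (hp : 0 < p) (h : ℝ) : ‖(p : ℂ) ^ (-((1 : ℂ) + h * I)) - ((1 / p : ℝ) : ℂ)‖ ≤ |h| * (Real.log p / p) := by
  have hp0 : (p : ℂ) ≠ 0 := by exact_mod_cast hp.ne'
  have hpr : (0 : ℝ) < p := by exact_mod_cast hp
  have e : (p : ℂ) ^ (-((1 : ℂ) + h * I)) = ((1 / p : ℝ) : ℂ) * Complex.exp (((-(h * Real.log p) : ℝ) : ℂ) * I) := by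
    rw [neg_add, cpow_add _ _ hp0, cpow_neg_one, cpow_def_of_ne_zero hp0, ← natCast_log]
    push_cast
    rw [one_div]
    congr 2
    ring
  rw [e]
  have e2 : ((1 / p : ℝ) : ℂ) * Complex.exp (((-(h * Real.log p) : ℝ) : ℂ) * I) - ((1 / p : ℝ) : ℂ) =
      ((1 / p : ℝ) : ℂ) * (Complex.exp (((-(h * Real.log p) : ℝ) : ℂ) * I) - 1) := by ring
  rw [e2, norm_mul, norm_real, Real.norm_of_nonneg (by positivity)]
  have h1 : ‖Complex.exp (((-(h * Real.log p) : ℝ) : ℂ) * I) - 1‖ ≤ |h| * Real.log p := by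
    have h2 := Real.norm_exp_I_mul_ofReal_sub_one_le (x := -(h * Real.log p))
    rw [mul_comm] at h2
    refine h2.trans (le_of_eq ?_)
    rw [norm_neg, Real.norm_eq_abs, abs_mul, abs_of_nonneg (Real.log_natCast_nonneg p)]
  calc 1 / (p : ℝ) * ‖Complex.exp (((-(h * Real.log p) : ℝ) : ℂ) * I) - 1‖ ≤ 1 / (p : ℝ) * (|h| * Real.log p) :=
        mul_le_mul_of_nonneg_left h1 (by positivity)
    _ = _ := by ring

/-- sums over primes with a small shift -/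
theorem near : ∃ C : ℝ, 0 ≤ C ∧ ∀ T : ℝ, 3 ≤ T →
    |∑ p ∈ (Finset.Icc 1 ⌊T⌋₊).filter Nat.Prime, (1 : ℝ) / p - Real.log (Real.log T)| ≤ C ∧
    ∀ h : ℝ, ‖∑ p ∈ (Finset.Icc 1 ⌊T⌋₊).filter Nat.Prime, (p : ℂ) ^ (-((1 : ℂ) + h * I)) - (Real.log (Real.log T) : ℂ)‖ ≤
      C + |h| * (Real.log T + C) := by
  obtain ⟨C₁, h1⟩ := Pool.Agent.Erdos456.Mert.mertens_inv
  obtain ⟨C₂, h2⟩ := Pool.Agent.Erdos456.Mert.mertens_log
  have hC₁ : 0 ≤ C₁ := (abs_nonneg _).trans (h1 3 le_rfl)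
  have hC₂ : 0 ≤ C₂ := (abs_nonneg _).trans (h2 3 (by norm_num))
  refine ⟨C₁ + C₂ + 1, by linarith, fun T hT => ?_⟩
  have hT0 : 0 < T := by linarith
  have hN3 : 3 ≤ ⌊T⌋₊ := Nat.le_floor (by exact_mod_cast hT)
  obtain ⟨N, hN⟩ : ∃ N : ℕ, N = ⌊T⌋₊ := ⟨_, rfl⟩
  rw [← hN] at hN3 ⊢
  have hN3r : (3 : ℝ) ≤ N := by exact_mod_cast hN3
  have hNT : (N : ℝ) ≤ T := by rw [hN]; exact Nat.floor_le hT0.le
  have hTN : T < N + 1 := by rw [hN]; exact Nat.lt_floor_add_one T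
  have hlogN : 1 ≤ Real.log N := by
    rw [Real.le_log_iff_exp_le (by linarith)]
    linarith [Real.exp_one_lt_d9]
  have hlog1 : Real.log N ≤ Real.log T := Real.log_le_log (by linarith) hNT
  have hlog2 : Real.log T ≤ Real.log N + 1 / 3 := by
    have h3 : T ≤ N * (4 / 3) := by linarith
    have h4 : Real.log T ≤ Real.log (N * (4 / 3)) := Real.log_le_log hT0 h3
    rw [Real.log_mul (by linarith) (by norm_num)] at h4
    have h5 : Real.log (4 / 3) ≤ 4 / 3 - 1 := Real.log_le_sub_one_of_pos (by norm_num)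
    linarith
  have hll1 : Real.log (Real.log N) ≤ Real.log (Real.log T) := Real.log_le_log (by linarith) hlog1
  have hll2 : Real.log (Real.log T) ≤ Real.log (Real.log N) + 1 := by
    have h3 : Real.log T ≤ Real.log N * (4 / 3) := by linarith
    have h4 : Real.log (Real.log T) ≤ Real.log (Real.log N * (4 / 3)) := Real.log_le_log (by linarith) h3
    rw [Real.log_mul (by linarith) (by norm_num)] at h4
    have h5 : Real.log (4 / 3) ≤ 4 / 3 - 1 := Real.log_le_sub_one_of_pos (by norm_num)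
    linarith
  have k1 : |∑ p ∈ (Finset.Icc 1 N).filter Nat.Prime, (1 : ℝ) / p - Real.log (Real.log T)| ≤ C₁ + 1 := by
    have h3 := abs_le.1 (h1 N hN3)
    refine abs_le.2 ⟨by linarith, by linarith⟩
  refine ⟨by linarith, fun h => ?_⟩
  have k2 : ‖∑ p ∈ (Finset.Icc 1 N).filter Nat.Prime, ((p : ℂ) ^ (-((1 : ℂ) + h * I)) - ((1 / p : ℝ) : ℂ))‖ ≤
      |h| * (Real.log T + C₂) := by
    refine (norm_sum_le _ _).trans ?_
    have h3 : ∑ p ∈ (Finset.Icc 1 N).filter Nat.Prime, ‖(p : ℂ) ^ (-((1 : ℂ) + h * I)) - ((1 / p : ℝ) : ℂ)‖ ≤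
        |h| * ∑ p ∈ (Finset.Icc 1 N).filter Nat.Prime, Real.log p / p := by
      rw [Finset.mul_sum]
      exact Finset.sum_le_sum fun p hp => cpow_near (Finset.mem_filter.1 hp).2.pos h
    refine h3.trans (mul_le_mul_of_nonneg_left ?_ (abs_nonneg h))
    have h4 := (abs_le.1 (h2 N (by omega))).2
    linarith
  have e : ∑ p ∈ (Finset.Icc 1 N).filter Nat.Prime, (p : ℂ) ^ (-((1 : ℂ) + h * I)) - (Real.log (Real.log T) : ℂ) =
      ∑ p ∈ (Finset.Icc 1 N).filter Nat.Prime, ((p : ℂ) ^ (-((1 : ℂ) + h * I)) - ((1 / p : ℝ) : ℂ)) +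
      ((∑ p ∈ (Finset.Icc 1 N).filter Nat.Prime, (1 : ℝ) / p - Real.log (Real.log T) : ℝ) : ℂ) := by
    rw [Finset.sum_sub_distrib]
    push_cast
    ring
  rw [e]
  refine (norm_add_le _ _).trans ?_
  rw [norm_real, Real.norm_eq_abs]
  have h5 : |h| * (Real.log T + C₂) ≤ |h| * (Real.log T + (C₁ + C₂ + 1)) := mul_le_mul_of_nonneg_left (by linarith) (abs_nonneg h)
  linarith

end

end Pool.Agent.U761.SZ
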