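import Pool.Agent.U761.SZ.LSA

set_option autoImplicit false

/-!
U761.SZ: the parameters for the large deviations at the scale `log log T`.
-/

namespace Pool.Agent.U761.SZ

open Filter Topology MeasureTheory Complex
open Pool.Agent.Q97.UM Pool.Agent.Q247.UM Pool.Agent.Q241.UM
open Pool.Agent.Q149.UM (zp norm_zp_le norm_zp_cube sum_le_Z3 Z3 Z3_nonneg)

noncomputable section

/-- lower bound for the mean square of the truncated exponential -/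
theorem te_low {A V : ℝ} {q : ℕ → ℂ} {P : Finset ℕ} (hq : ∀ n, q n ≠ 0 → n.Prime ∧ n ∈ P) (hP : ∀ p ∈ P, p.Prime)
    (hqA : ∀ n, ‖q n‖ ≤ A) {K N X : ℕ} (hPX : ∀ p ∈ P, p ≤ X) (hN : ∀ n, te q K n ≠ 0 → 1 ≤ n ∧ n ≤ N)
    (hV : ∑ p ∈ (Finset.Icc 1 X).filter Nat.Prime, (1 : ℝ) / p ≤ V) (hKV : 3 * (A ^ 2 * V) + 1 ≤ K) :
    1 / 2 * Real.exp (∑ p ∈ P, ‖q p‖ ^ 2 / p - 2 * A ^ 4) ≤ N2 N (te q K) := by
  have hPsub : P ⊆ (Finset.Icc 1 X).filter Nat.Prime := fun p hp =>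
    Finset.mem_filter.2 ⟨Finset.mem_Icc.2 ⟨(hP p hp).one_lt.le, hPX p hp⟩, hP p hp⟩
  have hA0 : 0 ≤ A := (norm_nonneg _).trans (hqA 0)
  have hx2 : ∀ p : ℕ, ‖q p‖ ^ 2 ≤ A ^ 2 := fun p => pow_le_pow_left₀ (norm_nonneg _) (hqA p) 2
  have h1 := Pool.Agent.Q14.UM.N2_te_ge q q P hP (fun _ _ => rfl) (fun d _ hd => (hq d hd).2) K
  have hS : ∑ p ∈ P, ‖q p‖ ^ 2 / (p : ℝ) ≤ A ^ 2 * V := by
    calc ∑ p ∈ P, ‖q p‖ ^ 2 / (p : ℝ) ≤ ∑ p ∈ P, A ^ 2 * (1 / (p : ℝ)) := by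
          refine Finset.sum_le_sum fun p _ => ?_
          rw [mul_one_div]
          exact div_le_div_of_nonneg_right (hx2 p) (Nat.cast_nonneg p)
      _ = A ^ 2 * ∑ p ∈ P, (1 / (p : ℝ)) := by rw [Finset.mul_sum]
      _ ≤ A ^ 2 * V := mul_le_mul_of_nonneg_left
        ((Finset.sum_le_sum_of_subset_of_nonneg hPsub fun p _ _ => by positivity).trans hV) (by positivity)
  have h2 := Pool.Agent.Q14.UM.sum_trunc P (fun p => ‖q p‖ ^ 2 / (p : ℝ)) (fun p _ => by positivity) K (A ^ 2 * V) hS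
  have h3 : N2 (∏ p ∈ P, p) (te q K) ≤ N2 N (te q K) := by
    refine Pool.Agent.Q14.UM.N2_le_of_supp _ _ _ fun n hn => ?_
    by_contra h
    exact absurd (hN n h).2 (not_le.2 hn)
  have hAV : 0 ≤ A ^ 2 * V := le_trans (Finset.sum_nonneg fun p _ => by positivity) hS
  have h4 : 1 / 2 ≤ 1 - Real.exp (Real.exp 1 * (A ^ 2 * V) - K) := by
    have h5 : Real.exp (Real.exp 1 * (A ^ 2 * V) - K) ≤ Real.exp (-1) := by
      refine Real.exp_le_exp.2 ?_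
      have h6 : Real.exp 1 * (A ^ 2 * V) ≤ 3 * (A ^ 2 * V) := mul_le_mul_of_nonneg_right (by linarith [Real.exp_one_lt_d9]) hAV
      linarith
    have h6 : Real.exp (-1) ≤ 1 / 2 := by
      rw [Real.exp_neg, one_div]
      exact inv_anti₀ (by norm_num) (by linarith [Real.add_one_le_exp (1 : ℝ)])
    linarith
  have h5 : ∑ p ∈ P, ‖q p‖ ^ 2 / (p : ℝ) - 2 * A ^ 4 ≤ ∑ p ∈ P, ‖q p‖ ^ 2 / (p : ℝ) - ∑ p ∈ P, (‖q p‖ ^ 2 / (p : ℝ)) ^ 2 := by
    have h6 : ∑ p ∈ P, (‖q p‖ ^ 2 / (p : ℝ)) ^ 2 ≤ ∑ p ∈ P, A ^ 4 * (1 / (p : ℝ) ^ 2) := by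
      refine Finset.sum_le_sum fun p _ => ?_
      rw [div_pow, mul_one_div]
      refine div_le_div_of_nonneg_right ?_ (by positivity)
      calc (‖q p‖ ^ 2) ^ 2 ≤ (A ^ 2) ^ 2 := pow_le_pow_left₀ (by positivity) (hx2 p) 2
        _ = A ^ 4 := by ring
    have h7 : ∑ p ∈ P, (1 : ℝ) / (p : ℝ) ^ 2 ≤ 2 :=
      (Finset.sum_le_sum_of_subset_of_nonneg hPsub fun p _ _ => by positivity).trans (sum_inv_sq_primes X)
    rw [← Finset.mul_sum] at h6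
    have h8 : A ^ 4 * ∑ p ∈ P, (1 : ℝ) / (p : ℝ) ^ 2 ≤ A ^ 4 * 2 := mul_le_mul_of_nonneg_left h7 (by positivity)
    linarith
  calc 1 / 2 * Real.exp (∑ p ∈ P, ‖q p‖ ^ 2 / p - 2 * A ^ 4) ≤
        (1 - Real.exp (Real.exp 1 * (A ^ 2 * V) - K)) * Real.exp (∑ p ∈ P, ‖q p‖ ^ 2 / (p : ℝ) - ∑ p ∈ P, (‖q p‖ ^ 2 / (p : ℝ)) ^ 2) :=
        mul_le_mul h4 (Real.exp_le_exp.2 h5) (Real.exp_pos _).le (by linarith)
    _ ≤ _ := h2.trans (h1.trans h3)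

/-- pointwise upper bound -/
theorem te_pt {q : ℕ → ℂ} {Y K : ℕ} (hY : 1 ≤ Y) (hK : 1 ≤ K) (hqY : ∀ n, Y < n → q n = 0) {B : ℝ} (t : ℝ) (hB : ‖dp Y q t‖ ≤ B)
    (hB2 : 2 * (10 / (K : ℝ)) ^ 5 * B ^ 6 ≤ 1) : ‖dp (Y ^ K) (te q K) t‖ ^ 2 ≤ Real.exp (2 * (dp Y q t).re + 4) := by
  by_cases h0 : dp (Y ^ K) (te q K) t = 0
  · rw [h0]
    simp only [norm_zero, ne_eq, OfNat.ofNat_ne_zero, not_false_eq_true, zero_pow]
    exact (Real.exp_pos _).le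
  have h1 := Pool.Agent.Q14.UM.dp_te Pool.Agent.Q84.UM.t_DPM q Y K hY hqY t
  have h2 := Pool.Agent.Q14.UM.t_TE K (dp Y q t) hK (by rw [← h1]; exact h0)
  rw [← h1] at h2
  have h3 : Real.exp (-(K : ℝ)) ≤ 1 := Real.exp_le_one_iff.2 (by linarith [Nat.cast_nonneg (α := ℝ) K])
  have h4 : 2 * (10 / (K : ℝ)) ^ 5 * ‖dp Y q t‖ ^ 6 ≤ 1 :=
    (mul_le_mul_of_nonneg_left (pow_le_pow_left₀ (norm_nonneg _) hB 6) (by positivity)).trans hB2
  have h5 : Real.log ‖dp (Y ^ K) (te q K) t‖ ≤ (dp Y q t).re + 2 := by linarith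
  have h6 : ‖dp (Y ^ K) (te q K) t‖ ^ 2 = Real.exp (2 * Real.log ‖dp (Y ^ K) (te q K) t‖) := by
    rw [two_mul, Real.exp_add, Real.exp_log (norm_pos_iff.mpr h0), sq]
  rw [h6]
  refine Real.exp_le_exp.2 ?_
  linarith

/-- growth facts in `v = log log T` -/
theorem growth_v {δ δ' A K₁ C : ℝ} (hδ : 0 < δ) (hδ' : 0 < δ') (hA : 1 ≤ A) : ∀ᶠ v : ℝ in atTop,
    1 ≤ v ∧ C ≤ v ∧ 3 * A ^ 2 + 1 ≤ 2 * v ∧ K₁ * Real.sqrt v ≤ A ^ 2 * (2 * v) ∧ 60 * A ^ 3 ≤ 2 * v ∧ δ' / δ ≤ 4 * v ^ 2 ∧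
    4 * (5 * v ^ 2) ≤ δ' * Real.exp v ∧ A * (Real.log (10 * v ^ 2 / δ') + 2 * C) ≤ Real.sqrt v := by
  have h1 : ∀ᶠ v : ℝ in atTop, 4 * (5 * v ^ 2) ≤ δ' * Real.exp v := by
    have h2 := (Real.tendsto_exp_div_pow_atTop 2).eventually_ge_atTop (20 / δ')
    filter_upwards [h2, eventually_gt_atTop 0] with v hv hv0
    rw [div_le_div_iff₀ hδ' (by positivity)] at hv
    linarith
  have h2 : ∀ᶠ v : ℝ in atTop, K₁ * Real.sqrt v ≤ A ^ 2 * (2 * v) := by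
    filter_upwards [eventually_ge_atTop (max 1 (K₁ ^ 2))] with v hv
    have hv1 : 1 ≤ v := (le_max_left _ _).trans hv
    have hv2 : K₁ ≤ Real.sqrt v := (le_abs_self _).trans (Real.abs_le_sqrt ((le_max_right _ _).trans hv))
    have h3 : K₁ * Real.sqrt v ≤ Real.sqrt v * Real.sqrt v := mul_le_mul_of_nonneg_right hv2 (Real.sqrt_nonneg _)
    rw [Real.mul_self_sqrt (by linarith)] at h3
    have h4 : 1 * v ≤ A ^ 2 * v := mul_le_mul_of_nonneg_right (one_le_pow₀ hA) (by linarith)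
    nlinarith
  have h3 : ∀ᶠ v : ℝ in atTop, A * (Real.log (10 * v ^ 2 / δ') + 2 * C) ≤ Real.sqrt v := by
    have h4 := (isLittleO_log_rpow_atTop (show (0 : ℝ) < 1 / 2 by norm_num)).bound (show (0 : ℝ) < 1 / (8 * A) by positivity)
    have h5 : Tendsto (fun v : ℝ => Real.sqrt v) atTop atTop := Real.tendsto_sqrt_atTop
    filter_upwards [h4, h5.eventually_ge_atTop (2 * (A * (Real.log (10 / δ') + 2 * C))), eventually_ge_atTop 1] with v h6 h7 hv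
    have hv0 : 0 < v := by linarith
    rw [Real.norm_of_nonneg (Real.log_nonneg hv), Real.norm_of_nonneg (by positivity), ← Real.sqrt_eq_rpow] at h6
    have h8 : Real.log (10 * v ^ 2 / δ') = Real.log (10 / δ') + 2 * Real.log v := by
      have e : 10 * v ^ 2 / δ' = 10 / δ' * v ^ 2 := by ring
      rw [e, Real.log_mul (by positivity) (by positivity), Real.log_pow]
      push_cast
      ring
    rw [h8]
    have h9 : A * (2 * Real.log v) ≤ Real.sqrt v / 4 := by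
      calc A * (2 * Real.log v) ≤ A * (2 * (1 / (8 * A) * Real.sqrt v)) := by
            refine mul_le_mul_of_nonneg_left ?_ (by linarith)
            linarith
        _ = Real.sqrt v / 4 := by field_simp; norm_num
    have h10 := Real.sqrt_nonneg v
    linarith
  filter_upwards [h1, h2, h3, eventually_ge_atTop 1, eventually_ge_atTop C, eventually_ge_atTop ((3 * A ^ 2 + 1) / 2),
    eventually_ge_atTop (30 * A ^ 3), eventually_ge_atTop (δ' / δ)] with v a1 a2 a3 a4 a5 a6 a7 a8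
  refine ⟨a4, a5, by linarith, a2, by linarith, ?_, a1, a3⟩
  nlinarith

/-- the parameters -/
theorem params {δ δ' A K₁ : ℝ} (hδ : 0 < δ) (hδ1 : δ ≤ 1) (hδ' : 0 < δ') (hA : 1 ≤ A) : ∀ᶠ T : ℝ in atTop, ∃ K Y : ℕ,
    1 ≤ Real.log (Real.log T) ∧ 1 ≤ K ∧ (2 * Real.log (Real.log T)) ^ 2 ≤ K ∧ 3 * (A ^ 2 * (2 * Real.log (Real.log T))) + 1 ≤ K ∧
    K₁ * Real.sqrt (Real.log (Real.log T)) ≤ A ^ 2 * (2 * Real.log (Real.log T)) ∧
    2 * (10 / (K : ℝ)) ^ 5 * (2 * (A ^ 2 * (2 * Real.log (Real.log T)))) ^ 6 ≤ 1 ∧ 1 ≤ Y ∧ ((Y ^ K : ℕ) : ℝ) ≤ T ^ δ' ∧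
    Y ≤ ⌊T ^ δ⌋₊ ∧ Y ≤ ⌊T⌋₊ ∧
    ∑ p ∈ (Finset.Icc 1 ⌊T ^ δ⌋₊).filter Nat.Prime, (1 : ℝ) / p ≤ 2 * Real.log (Real.log T) ∧
    A * ∑ p ∈ (Finset.Icc 1 ⌊T⌋₊).filter Nat.Prime \ (Finset.Icc 1 Y).filter Nat.Prime, (1 : ℝ) / p ≤ Real.sqrt (Real.log (Real.log T)) := by
  obtain ⟨C₀, hM⟩ := Pool.Agent.Erdos456.Mert.mertens_inv
  have hg := growth_v (δ := δ) (δ' := δ') (A := A) (K₁ := K₁) (C := C₀) hδ hδ' hA
  have hll : Tendsto (fun T : ℝ => Real.log (Real.log T)) atTop atTop := Real.tendsto_log_atTop.comp Real.tendsto_log_atTop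
  filter_upwards [hll.eventually hg, eventually_ge_atTop 16, growth2 δ hδ] with T hv hT16 hgr
  obtain ⟨v, hvd⟩ : ∃ v : ℝ, v = Real.log (Real.log T) := ⟨_, rfl⟩
  rw [← hvd] at hv ⊢
  obtain ⟨v1, v2, v3, v4, v5, v6, v7, v8⟩ := hv
  obtain ⟨-, hX3, -, hL3⟩ := hgr
  have hT0 : 0 < T := by linarith
  have hT1 : 1 ≤ T := by linarith
  have hL0 : 0 < Real.log T := by linarith
  have hLv : Real.exp v = Real.log T := by rw [hvd, Real.exp_log hL0]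
  rw [hLv] at v7
  obtain ⟨K, hKd⟩ : ∃ K : ℕ, K = ⌈(2 * v) ^ 2⌉₊ := ⟨_, rfl⟩
  have hK2 : (2 * v) ^ 2 ≤ K := by rw [hKd]; exact Nat.le_ceil _
  have hv2 : 1 ≤ v ^ 2 := one_le_pow₀ v1
  have hK5 : (K : ℝ) ≤ 5 * v ^ 2 := by
    have h1 := (Nat.ceil_lt_add_one (show (0 : ℝ) ≤ (2 * v) ^ 2 by positivity)).le
    rw [← hKd] at h1
    linarith [show (2 * v) ^ 2 = 4 * v ^ 2 by ring]
  have hK0 : (1 : ℝ) ≤ K := by
    have : (2 * v) ^ 2 = 4 * v ^ 2 := by ring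
    linarith
  have hK1 : 1 ≤ K := by exact_mod_cast hK0
  have hKpos : (0 : ℝ) < K := by linarith
  obtain ⟨x, hx⟩ : ∃ x : ℝ, x = δ' * Real.log T / K := ⟨_, rfl⟩
  have hx4 : 4 ≤ x := by
    rw [hx, le_div_iff₀ hKpos]
    calc 4 * (K : ℝ) ≤ 4 * (5 * v ^ 2) := by linarith
      _ ≤ _ := v7
  obtain ⟨Y, hYd⟩ : ∃ Y : ℕ, Y = ⌊Real.exp x⌋₊ := ⟨_, rfl⟩
  have hYle : (Y : ℝ) ≤ Real.exp x := by rw [hYd]; exact Nat.floor_le (Real.exp_pos _).le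
  have hYge : Real.exp (x / 2) ≤ Y := by
    have h1 : Real.exp x - 1 ≤ Y := by
      have := Nat.lt_floor_add_one (Real.exp x)
      rw [← hYd] at this
      linarith
    have h2 : Real.exp x = Real.exp (x / 2) * Real.exp (x / 2) := by rw [← Real.exp_add]; congr 1; ring
    have h3 : 3 ≤ Real.exp (x / 2) := by
      have := Real.add_one_le_exp (x / 2)
      linarith
    nlinarith
  have hY3 : 3 ≤ Y := by
    have h3 : 3 ≤ Real.exp (x / 2) := by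
      have := Real.add_one_le_exp (x / 2)
      linarith
    exact_mod_cast h3.trans hYge
  have hYr : (0 : ℝ) < Y := by exact_mod_cast (by omega : 0 < Y)
  have hxδ : x ≤ δ * Real.log T := by
    rw [hx, div_le_iff₀ hKpos]
    have h1 : δ' ≤ δ * K := by
      rw [div_le_iff₀ hδ] at v6
      have : δ * (4 * v ^ 2) ≤ δ * K := mul_le_mul_of_nonneg_left (by linarith [show (2 * v) ^ 2 = 4 * v ^ 2 by ring]) hδ.le
      linarith
    calc δ' * Real.log T ≤ (δ * K) * Real.log T := mul_le_mul_of_nonneg_right h1 hL0.le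
      _ = _ := by ring
  have hYT : Y ≤ ⌊T ^ δ⌋₊ := by
    refine Nat.le_floor (hYle.trans ?_)
    rw [Real.rpow_def_of_pos hT0, mul_comm]
    exact Real.exp_le_exp.2 hxδ
  have hXT : ⌊T ^ δ⌋₊ ≤ ⌊T⌋₊ := Nat.floor_le_floor (by
    calc T ^ δ ≤ T ^ (1 : ℝ) := Real.rpow_le_rpow_of_exponent_le hT1 hδ1
      _ = T := Real.rpow_one T)
  have hTfl : (⌊T⌋₊ : ℝ) ≤ T := Nat.floor_le hT0.le
  have hmono : ∀ M : ℕ, 3 ≤ M → (M : ℝ) ≤ T → Real.log (Real.log M) ≤ v := by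
    intro M hM3 hMT
    rw [hvd]
    have h2 : (0 : ℝ) < Real.log M := Real.log_pos (by
      have : (3 : ℝ) ≤ M := by exact_mod_cast hM3
      linarith)
    exact Real.log_le_log h2 (Real.log_le_log (by exact_mod_cast (by omega : 0 < M)) hMT)
  have hC0 : 0 ≤ C₀ := (abs_nonneg _).trans (hM 3 le_rfl)
  refine ⟨K, Y, v1, hK1, hK2, ?_, v4, ?_, by omega, ?_, hYT, hYT.trans hXT, ?_, ?_⟩
  · have h1 : (3 * A ^ 2 + 1) * (2 * v) ≤ (2 * v) * (2 * v) := mul_le_mul_of_nonneg_right v3 (by linarith)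
    nlinarith
  · -- the sixth power
    have h1 : (10 / (K : ℝ)) ^ 5 ≤ (10 / (2 * v) ^ 2) ^ 5 :=
      pow_le_pow_left₀ (by positivity) (div_le_div_of_nonneg_left (by norm_num) (by positivity) hK2) 5
    have h2 : 2 * (10 / (2 * v) ^ 2) ^ 5 * (2 * (A ^ 2 * (2 * v))) ^ 6 = 12800000 * A ^ 12 / (2 * v) ^ 4 := by
      field_simp
      ring
    have h3 : 12800000 * A ^ 12 ≤ (2 * v) ^ 4 := by
      calc 12800000 * A ^ 12 ≤ (60 * A ^ 3) ^ 4 := by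
            have : 0 ≤ A ^ 12 := by positivity
            nlinarith [show (60 * A ^ 3) ^ 4 = 12960000 * A ^ 12 by ring]
        _ ≤ _ := pow_le_pow_left₀ (by positivity) v5 4
    calc 2 * (10 / (K : ℝ)) ^ 5 * (2 * (A ^ 2 * (2 * v))) ^ 6 ≤ 2 * (10 / (2 * v) ^ 2) ^ 5 * (2 * (A ^ 2 * (2 * v))) ^ 6 :=
          mul_le_mul_of_nonneg_right (by linarith) (by positivity)
      _ = 12800000 * A ^ 12 / (2 * v) ^ 4 := h2
      _ ≤ 1 := by
        rw [div_le_one (by positivity)]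
        exact h3
  · push_cast
    calc (Y : ℝ) ^ K ≤ (Real.exp x) ^ K := pow_le_pow_left₀ hYr.le hYle K
      _ = Real.exp (K * x) := by rw [← Real.exp_nat_mul]
      _ = T ^ δ' := by
        rw [Real.rpow_def_of_pos hT0, hx]
        congr 1
        field_simp
  · have h1 := (abs_le.1 (hM _ hX3)).2
    have h2 := hmono _ hX3 (((Nat.cast_le (α := ℝ)).2 hXT).trans hTfl)
    linarith
  · have hsub : (Finset.Icc 1 Y).filter Nat.Prime ⊆ (Finset.Icc 1 ⌊T⌋₊).filter Nat.Prime :=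
      Finset.filter_subset_filter _ (Finset.Icc_subset_Icc_right (hYT.trans hXT))
    have h0 := Finset.sum_sdiff (f := fun p : ℕ => (1 : ℝ) / p) hsub
    have hT3 : 3 ≤ ⌊T⌋₊ := hX3.trans hXT
    have h1 := (abs_le.1 (hM _ hT3)).2
    have h2 := (abs_le.1 (hM _ hY3)).1
    have h3 := hmono _ hT3 hTfl
    have h4 : v - Real.log (10 * v ^ 2 / δ') ≤ Real.log (Real.log Y) := by
      have h5 : x / 2 ≤ Real.log Y := by
        rw [Real.le_log_iff_exp_le hYr]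
        exact hYge
      have h6 : Real.log (x / 2) ≤ Real.log (Real.log Y) := Real.log_le_log (by linarith) h5
      refine le_trans ?_ h6
      have h7 : δ' * Real.log T / (10 * v ^ 2) ≤ x / 2 := by
        rw [hx, div_div]
        refine div_le_div_of_nonneg_left (by positivity) (by positivity) ?_
        linarith
      refine le_trans (le_of_eq ?_) (Real.log_le_log (by positivity) h7)
      have h8 : δ' * Real.log T / (10 * v ^ 2) = Real.log T / (10 * v ^ 2 / δ') := by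
        field_simp
      rw [h8, Real.log_div hL0.ne' (by positivity), ← hvd]
    have h5 : ∑ p ∈ (Finset.Icc 1 ⌊T⌋₊).filter Nat.Prime \ (Finset.Icc 1 Y).filter Nat.Prime, (1 : ℝ) / p ≤ Real.log (10 * v ^ 2 / δ') + 2 * C₀ := by
      linarith
    exact (mul_le_mul_of_nonneg_left h5 (by linarith)).trans v8

end

end Pool.Agent.U761.SZ
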