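import Pool.Agent.U761.SZ.GM

set_option autoImplicit false

/-!
U761.SZ: functions close to a Dirichlet polynomial over primes (and squares of primes), relative to a resonator.
-/

namespace Pool.Agent.U761.SZ

open Filter Topology MeasureTheory Complex
open Pool.Agent.Q97.UM Pool.Agent.Q247.UM Pool.Agent.Q241.UM
open Pool.Agent.Q98.UM (dp_prc supp_zero)
open Pool.Agent.Q149.UM (Z3 Z3_nonneg)

noncomputable section

/-- the phase `n^{-ih}` -/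
def ph' (h : ℝ) (n : ℕ) : ℂ := (n : ℂ) ^ (-((h : ℂ) * I))

theorem ph'_norm (h : ℝ) {n : ℕ} (hn : 1 ≤ n) : ‖ph' h n‖ = 1 := by
  unfold ph'
  rw [Complex.norm_natCast_cpow_of_pos (by omega)]
  simp

theorem ph'_le (h : ℝ) (n : ℕ) : ‖ph' h n‖ ≤ 1 := by
  rcases Nat.eq_zero_or_pos n with h0 | h0
  · unfold ph'
    rw [h0, Nat.cast_zero]
    by_cases h1 : (-((h : ℂ) * I)) = 0
    · rw [h1, cpow_zero, norm_one]
    · rw [zero_cpow h1, norm_zero]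
      exact zero_le_one
  · exact (ph'_norm h h0).le

theorem ph'_zero (n : ℕ) : ph' 0 n = 1 := by
  unfold ph'
  simp

theorem dp_sh (M : ℕ) (α : ℕ → ℂ) (h t : ℝ) : dp M α (t + h) = dp M (fun n => α n * ph' h n) t := by
  unfold dp ph'
  refine Finset.sum_congr rfl fun n hn => ?_
  have hn0 : (n : ℂ) ≠ 0 := by
    have := (Finset.mem_Icc.1 hn).1
    exact_mod_cast (by omega : n ≠ 0)
  rw [mul_assoc, ← cpow_add _ _ hn0]
  congr 2
  push_cast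
  ring

/-- the logarithm of the Euler product at a shifted point -/
theorem LE_sh (X : ℕ) (h t : ℝ) :
    ‖LE X (t + h) - dp X (pv X (ph' h)) t - dp (X ^ 2) (sv X (fun n => ph' h n / 2)) t‖ ≤ 4 / 3 * Z3 := by
  have h1 := LE_prc X (t + h)
  have e1 : dp X (prc X) (t + h) = dp X (pv X (ph' h)) t := dp_sh X (prc X) h t
  have e2 : dp (X ^ 2) (sqc X) (t + h) / 2 = dp (X ^ 2) (sv X (fun n => ph' h n / 2)) t := by
    rw [dp_sh]
    unfold dp sv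
    rw [Finset.sum_div]
    exact Finset.sum_congr rfl fun n _ => by ring
  rwa [e1, e2] at h1

/-- a function close to a Dirichlet polynomial over primes, relative to a general resonator -/
theorem resG {T : ℝ} (hT16 : 16 ≤ T) {P : Finset ℕ} {K N X : ℕ} {ρ v u : ℕ → ℂ} (hX1 : 1 ≤ X)
    (hXN : ((X * N : ℕ) : ℝ) ≤ T ^ (1 / 4 : ℝ)) (hX2N : ((X ^ 2 * N : ℕ) : ℝ) ≤ T ^ (1 / 4 : ℝ))
    (hP : ∀ p ∈ P, p.Prime) (hPX : ∀ p ∈ P, p ≤ X) (hK1 : 1 ≤ K) (hK : 10 * ∑ p ∈ P, xw ρ p ≤ K)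
    (hN : ∀ S ∈ P.powerset, S.card ≤ K → ∏ p ∈ S, p ≤ N) (hu : ∀ n, ‖u n‖ ≤ 1) {F : ℝ → ℂ} (hF : Measurable F)
    {C₁ : ℝ}
    (hI : IntervalIntegrable (fun t => ‖F t - dp X (pv X v) t - dp (X ^ 2) (sv X u) t‖ ^ 2 * ‖dp N (rg P K ρ) t‖ ^ 2)
      volume T (2 * T))
    (hb : ∫ t in T..(2 * T), ‖F t - dp X (pv X v) t - dp (X ^ 2) (sv X u) t‖ ^ 2 * ‖dp N (rg P K ρ) t‖ ^ 2 ≤
      C₁ * (T * N2 N (rg P K ρ))) :
    IntervalIntegrable (fun t => ‖F t - AA ρ v P‖ ^ 2 * ‖dp N (rg P K ρ) t‖ ^ 2) volume T (2 * T) ∧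
    ∫ t in T..(2 * T), ‖F t - AA ρ v P‖ ^ 2 * ‖dp N (rg P K ρ) t‖ ^ 2 ≤
      3 * (C₁ + 20 * (∑ p ∈ (Finset.Icc 1 X).filter Nat.Prime, ‖v p‖ ^ 2 / p) + 2) * (T * N2 N (rg P K ρ)) := by
  classical
  have hMV : S_MVL := Pool.Agent.Q84.UM.t_MVL
  have hD : S_DPM := Pool.Agent.Q84.UM.t_DPM
  have hT0 : 0 < T := by linarith
  obtain ⟨A, hA⟩ : ∃ A : ℂ, A = AA ρ v P := ⟨_, rfl⟩
  obtain ⟨r, hr⟩ : ∃ r : ℕ → ℂ, r = rg P K ρ := ⟨_, rfl⟩
  obtain ⟨n2, hn2⟩ : ∃ n2 : ℝ, n2 = N2 N r := ⟨_, rfl⟩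
  obtain ⟨V, hV⟩ : ∃ V : ℝ, V = ∑ p ∈ (Finset.Icc 1 X).filter Nat.Prime, ‖v p‖ ^ 2 / (p : ℝ) := ⟨_, rfl⟩
  have hrN : ∀ n, r n ≠ 0 → 1 ≤ n ∧ n ≤ N := by
    intro n hn
    rw [hr] at hn
    obtain ⟨⟨h3, h4⟩, h5⟩ := rg_ne hn
    have h6 := hN n.primeFactors (Finset.mem_powerset.2 h4) h5
    rw [Nat.prod_primeFactors_of_squarefree h3] at h6
    exact ⟨Nat.one_le_iff_ne_zero.2 h3.ne_zero, h6⟩
  rw [← hr] at hI hb ⊢
  rw [← hn2] at hb ⊢
  rw [← hA, ← hV]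
  obtain ⟨G, hG⟩ : ∃ G : ℕ → ℂ, G = fun n => cv (pv X v) r n - A * r n := ⟨_, rfl⟩
  have hprs : ∀ n, pv X v n ≠ 0 → 1 ≤ n ∧ n ≤ X := by
    intro n hn
    have := pv_ne hn
    exact ⟨this.1.one_lt.le, this.2⟩
  have hsqs : ∀ n, sv X u n ≠ 0 → 1 ≤ n ∧ n ≤ X ^ 2 := by
    intro n hn
    obtain ⟨p, hp, hpX, rfl⟩ := sv_ne hn
    exact ⟨Nat.one_le_pow _ _ hp.pos, Nat.pow_le_pow_left hpX 2⟩
  have hGeq : ∀ t, dp (X * N) G t = (dp X (pv X v) t - A) * dp N r t := by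
    intro t
    have e1 := hD.1 X N (pv X v) r t (supp_zero hprs) (supp_zero hrN)
    have e2 : dp (X * N) r t = dp N r t := dp_len (Nat.le_mul_of_pos_left N (by omega)) hrN t
    have e3 : dp (X * N) G t = dp (X * N) (cv (pv X v) r) t - A * dp (X * N) r t := by
      unfold dp
      rw [Finset.mul_sum, ← Finset.sum_sub_distrib]
      refine Finset.sum_congr rfl fun n _ => ?_
      rw [hG]
      ring
    rw [e3, e2, ← e1]
    ring
  have hHeq : ∀ t, dp (X ^ 2 * N) (cv (sv X u) r) t = dp (X ^ 2) (sv X u) t * dp N r t := fun t =>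
    (hD.1 (X ^ 2) N (sv X u) r t (supp_zero hsqs) (supp_zero hrN)).symm
  have I1 : ∫ t in T..(2 * T), ‖dp (X * N) G t‖ ^ 2 ≤ 2 * T * (10 * V * n2) := by
    refine ((hMV T hT16 (X * N) hXN G).2).trans (mul_le_mul_of_nonneg_left ?_ (by positivity))
    rw [hG, hn2, hr, hA, hV]
    exact gres hP hK1 hK hN hPX
  have I2 : ∫ t in T..(2 * T), ‖dp (X ^ 2 * N) (cv (sv X u) r) t‖ ^ 2 ≤ 2 * T * n2 := by
    refine ((hMV T hT16 (X ^ 2 * N) hX2N _).2).trans (mul_le_mul_of_nonneg_left ?_ (by positivity))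
    rw [hn2, hr]
    refine N2_sv hu fun n hn => ?_
    rw [← hr] at hn
    exact (hrN n hn).2
  -- assembly
  set D : ℝ → ℂ := fun t => F t - dp X (pv X v) t - dp (X ^ 2) (sv X u) t with hDd
  have cB : Continuous fun t => ‖dp N r t‖ ^ 2 := (dp_cont N r).norm.pow 2
  have cG : Continuous fun t => ‖dp (X * N) G t‖ ^ 2 := (dp_cont _ G).norm.pow 2
  have cH : Continuous fun t => ‖dp (X ^ 2 * N) (cv (sv X u) r) t‖ ^ 2 := (dp_cont _ _).norm.pow 2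
  have hpt : ∀ t, ‖F t - A‖ ^ 2 * ‖dp N r t‖ ^ 2 ≤ 3 * (‖D t‖ ^ 2 * ‖dp N r t‖ ^ 2 + ‖dp (X * N) G t‖ ^ 2 +
      ‖dp (X ^ 2 * N) (cv (sv X u) r) t‖ ^ 2) := by
    intro t
    have h2 : ‖F t - A‖ ≤ ‖D t‖ + ‖dp X (pv X v) t - A‖ + ‖dp (X ^ 2) (sv X u) t‖ := by
      have e : F t - A = D t + (dp X (pv X v) t - A) + dp (X ^ 2) (sv X u) t := by
        simp only [hDd]
        ring
      rw [e]
      exact (norm_add_le _ _).trans (add_le_add (norm_add_le _ _) le_rfl)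
    have h3 : ‖F t - A‖ ^ 2 ≤ 3 * (‖D t‖ ^ 2 + ‖dp X (pv X v) t - A‖ ^ 2 + ‖dp (X ^ 2) (sv X u) t‖ ^ 2) := by
      refine (pow_le_pow_left₀ (norm_nonneg _) h2 2).trans ?_
      generalize ‖D t‖ = a
      generalize ‖dp X (pv X v) t - A‖ = b
      generalize ‖dp (X ^ 2) (sv X u) t‖ = c
      nlinarith [sq_nonneg (a - b), sq_nonneg (a - c), sq_nonneg (b - c)]
    have h4 := mul_le_mul_of_nonneg_right h3 (sq_nonneg ‖dp N r t‖)
    refine h4.trans (le_of_eq ?_)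
    rw [hGeq, hHeq, norm_mul, norm_mul]
    ring
  have hint : IntervalIntegrable (fun t => 3 * (‖D t‖ ^ 2 * ‖dp N r t‖ ^ 2 + ‖dp (X * N) G t‖ ^ 2 +
      ‖dp (X ^ 2 * N) (cv (sv X u) r) t‖ ^ 2)) volume T (2 * T) :=
    ((hI.add (cG.intervalIntegrable _ _)).add (cH.intervalIntegrable _ _)).const_mul 3
  have hmeas : Measurable fun t => ‖F t - A‖ ^ 2 * ‖dp N r t‖ ^ 2 :=
    (((hF.sub measurable_const).norm).pow_const 2).mul cB.measurable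
  have hI' : IntervalIntegrable (fun t => ‖F t - A‖ ^ 2 * ‖dp N r t‖ ^ 2) volume T (2 * T) := by
    refine hint.mono_fun' hmeas.aestronglyMeasurable (Eventually.of_forall fun t => ?_)
    show ‖‖F t - A‖ ^ 2 * ‖dp N r t‖ ^ 2‖ ≤ _
    rw [Real.norm_of_nonneg (by positivity)]
    exact hpt t
  refine ⟨hI', ?_⟩
  have h1 := intervalIntegral.integral_mono_on (by linarith) hI' hint fun t _ => hpt t
  refine h1.trans ?_
  rw [intervalIntegral.integral_const_mul,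
    intervalIntegral.integral_add (hI.add (cG.intervalIntegrable _ _)) (cH.intervalIntegrable _ _),
    intervalIntegral.integral_add hI (cG.intervalIntegrable _ _)]
  have e1 : 3 * (C₁ + 20 * V + 2) * (T * n2) = 3 * (C₁ * (T * n2) + 2 * T * (10 * V * n2) + 2 * T * n2) := by ring
  rw [e1]
  linarith

end

end Pool.Agent.U761.SZ
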