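import Pool.Agent.U761.SZ.WPR
import Pool.Agent.U761.SZ.ZC2

set_option autoImplicit false

/-!
U761.SZ: zero-free windows. Pointwise bound for the argument, gaps between the ordinates are bounded, and the measure of the starting points
of zero-free windows.
-/

namespace Pool.Agent.U761.SZ

open Filter Topology MeasureTheory Complex
open Pool.Agent.Q97.UM Pool.Agent.Q247.UM Pool.Agent.Q241.UM Pool.Agent.Q257.UM
open Pool.Agent.Q98.UM (dp_prc supp_zero)
open Pool.Agent.Q149.UM (Z3 Z3_nonneg)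
open Pool.Agent.Q257.UM.VA (B1)

noncomputable section

/-- the counting formula for longer intervals -/
theorem zcount2 : ∃ C : ℝ, 0 < C ∧ ∀ t u : ℝ, 10 ≤ t → t < u → u ≤ 2 * t → NoOrd t → NoOrd u →
    |Real.pi * (Nz t u : ℝ) - (u - t) / 2 * Real.log t - (piS u - piS t)| ≤ C * (u - t) := by
  obtain ⟨C, hC⟩ := H370.digamma_bound
  refine ⟨|Real.log Real.pi| / 2 + (|C| + Real.log 2 + 1) / 2, by
    have := Real.log_pos one_lt_two
    positivity, fun t u ht htu hu h1 h2 => ?_⟩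
  have ht0 : 0 < t := by linarith
  rw [count2 ht0 htu h1 h2]
  have hc : Continuous fun y : ℝ => (logDeriv Gammaℝ ⟨1 / 2, y⟩).re := by
    refine continuous_re.comp ?_
    rw [continuous_iff_continuousAt]
    intro y
    exact ContinuousAt.comp (f := fun y : ℝ => (⟨1 / 2, y⟩ : ℂ)) (ldG_cont (by show (0 : ℝ) < 1 / 2; norm_num)) (vline_cont (1 / 2)).continuousAt
  have hconst : ∫ _ in t..u, Real.log t / 2 = (u - t) / 2 * Real.log t := by
    rw [intervalIntegral.integral_const, smul_eq_mul]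
    ring
  have e : piS u - piS t + (∫ y in t..u, (logDeriv Gammaℝ ⟨1 / 2, y⟩).re) - (u - t) / 2 * Real.log t - (piS u - piS t) =
      ∫ y in t..u, ((logDeriv Gammaℝ ⟨1 / 2, y⟩).re - Real.log t / 2) := by
    rw [intervalIntegral.integral_sub (hc.intervalIntegrable _ _) intervalIntegrable_const, hconst]
    ring
  rw [e]
  have hb : ∀ y ∈ Set.uIoc t u, ‖(logDeriv Gammaℝ ⟨1 / 2, y⟩).re - Real.log t / 2‖ ≤ |Real.log Real.pi| / 2 + (|C| + Real.log 2 + 1) / 2 := by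
    intro y hy
    rw [Set.uIoc_of_le htu.le] at hy
    have hy0 : 0 < y := by linarith [hy.1]
    rw [ldG_eq (by show (0 : ℝ) < 1 / 2; norm_num)]
    have hre : ((⟨1 / 2, y⟩ : ℂ) / 2).re = 1 / 4 := by
      have : ((⟨1 / 2, y⟩ : ℂ) / 2).re = (1 / 2 : ℝ) / 2 := by simp
      rw [this]
      norm_num
    have him : ((⟨1 / 2, y⟩ : ℂ) / 2).im = y / 2 := by simp
    have h3 := hC ((⟨1 / 2, y⟩ : ℂ) / 2) (by rw [hre]) (by rw [hre]; norm_num) (by
      rw [him, abs_of_pos (by linarith)]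
      linarith [hy.1])
    rw [him, abs_of_pos (by linarith : 0 < y / 2)] at h3
    have h4 := (Complex.abs_re_le_norm _).trans h3
    rw [sub_re, ofReal_re] at h4
    set g := (logDeriv Gamma ((⟨1 / 2, y⟩ : ℂ) / 2)) with hg
    have h5 : (-(Real.log Real.pi : ℂ) / 2 + g / 2).re = -Real.log Real.pi / 2 + g.re / 2 := by
      have e1 : (-(Real.log Real.pi : ℂ) / 2 + g / 2) = ((-Real.log Real.pi / 2 : ℝ) : ℂ) + g / 2 := by
        push_cast
        ring
      rw [e1, add_re, ofReal_re]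
      congr 1
      simp
    rw [h5, Real.norm_eq_abs]
    have h6 : Real.log (y / 2) = Real.log y - Real.log 2 := Real.log_div hy0.ne' two_ne_zero
    have h7 : |Real.log y - Real.log t| ≤ 1 := by
      rw [abs_of_nonneg (by linarith [Real.log_le_log ht0 hy.1.le]), ← Real.log_div hy0.ne' ht0.ne']
      refine (Real.log_le_sub_one_of_pos (by positivity)).trans ?_
      rw [div_sub_one ht0.ne', div_le_one ht0]
      linarith [hy.2]
    have h8 : -Real.log Real.pi / 2 + g.re / 2 - Real.log t / 2 = -Real.log Real.pi / 2 +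
        ((g.re - Real.log (y / 2)) + (-Real.log 2) + (Real.log y - Real.log t)) / 2 := by
      rw [h6]
      ring
    rw [h8]
    have hl2 := Real.log_pos one_lt_two
    have a1 : |-Real.log Real.pi / 2| = |Real.log Real.pi| / 2 := by
      rw [abs_div, abs_neg, abs_two]
    have a2 : |((g.re - Real.log (y / 2)) + (-Real.log 2) + (Real.log y - Real.log t)) / 2| ≤ (|C| + Real.log 2 + 1) / 2 := by
      rw [abs_div, abs_two]
      refine div_le_div_of_nonneg_right ?_ (by norm_num)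
      refine (abs_add_le _ _).trans (add_le_add ((abs_add_le _ _).trans (add_le_add (h4.trans (le_abs_self C)) ?_)) h7)
      rw [abs_neg, abs_of_pos hl2]
    refine (abs_add_le _ _).trans ?_
    rw [a1]
    linarith
  have h3 := intervalIntegral.norm_integral_le_of_norm_le_const hb
  rw [Real.norm_eq_abs, abs_of_pos (by linarith : 0 < u - t)] at h3
  exact h3

/-- the bound `O(log t)` for the argument -/
theorem aS_bd : ∃ C : ℝ, 0 < C ∧ ∀ v : ℝ, 100 ≤ v → NoOrd v → |aS v| ≤ C * Real.log v := by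
  obtain ⟨C, hC, h⟩ := loca
  have hB : 0 ≤ B1 / Real.log 2 := (norm_nonneg _).trans (ell_norm 0)
  refine ⟨B1 / Real.log 2 + C, by linarith, fun v hv hno => ?_⟩
  obtain ⟨S, -, -, h3, -⟩ := h v v hv (by linarith) (by linarith)
  have h4 := h3 v (by simp) (fun ρ hρ => by
    intro h5
    have h6 := ((mem_ZD (by linarith) ρ).1 hρ).2.2.2.2
    have e : ρ = ((ρ.re : ℂ) + v * I) := by
      rw [h5]
      exact (Complex.re_add_im ρ).symm
    rw [e] at h6
    exact hno _ h6)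
  have hl : 1 ≤ Real.log v := by
    rw [Real.le_log_iff_exp_le (by linarith)]
    have := Real.exp_one_lt_d9
    linarith
  rw [aS_eq]
  have h5 : |(ell ⟨3 / 2, v⟩).im| ≤ B1 / Real.log 2 := (Complex.abs_im_le_norm _).trans (ell_norm v)
  refine (abs_sub _ _).trans ?_
  have h6 : B1 / Real.log 2 ≤ B1 / Real.log 2 * Real.log v := le_mul_of_one_le_right hB hl
  linarith [add_mul (B1 / Real.log 2) C (Real.log v)]

theorem Nz_fin (t u : ℝ) : {s : ℂ | riemannZeta s = 0 ∧ 0 < s.re ∧ s.re < 1 ∧ t < s.im ∧ s.im ≤ u}.Finite := by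
  have hcomp : IsCompact (Set.Icc (0 : ℝ) 1 ×ℂ Set.Icc t u) := isCompact_Icc.reProdIm isCompact_Icc
  refine hcomp.inter_riemannZetaZeros_finite.subset ?_
  rintro s ⟨h0, h1, h2, h3, h4⟩
  exact ⟨⟨⟨h1.le, h2.le⟩, ⟨h3.le, h4⟩⟩, h0⟩

theorem Nz_sum (t u : ℝ) : Nz t u = ∑ s ∈ (Nz_fin t u).toFinset, analyticOrderNatAt riemannZeta s :=
  finsum_mem_eq_finite_toFinset_sum _ (Nz_fin t u)

theorem Nz_add {a b c : ℝ} (hab : a ≤ b) (hbc : b ≤ c) : Nz a c = Nz a b + Nz b c := by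
  classical
  rw [Nz_sum, Nz_sum, Nz_sum, ← Finset.sum_union]
  · refine Finset.sum_congr ?_ fun _ _ => rfl
    ext s
    simp only [Set.Finite.mem_toFinset, Finset.mem_union, Set.mem_ofPred_eq]
    constructor
    · rintro ⟨h1, h2, h3, h4, h5⟩
      rcases le_or_gt s.im b with h | h
      · exact Or.inl ⟨h1, h2, h3, h4, h⟩
      · exact Or.inr ⟨h1, h2, h3, h, h5⟩
    · rintro (⟨h1, h2, h3, h4, h5⟩ | ⟨h1, h2, h3, h4, h5⟩)
      · exact ⟨h1, h2, h3, h4, h5.trans hbc⟩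
      · exact ⟨h1, h2, h3, lt_of_le_of_lt hab h4, h5⟩
  · rw [Finset.disjoint_left]
    intro s h1 h2
    rw [Set.Finite.mem_toFinset] at h1 h2
    exact absurd h1.2.2.2.2 (not_le.2 h2.2.2.2.1)

theorem Nz_mono {a b c d : ℝ} (h1 : a ≤ b) (h2 : b ≤ c) (h3 : c ≤ d) : Nz b c ≤ Nz a d := by
  rw [Nz_add h1 (h2.trans h3), Nz_add h2 h3]
  omega

theorem ex_good {a b : ℝ} (h : a < b) : ∃ u : ℝ, a < u ∧ u < b ∧ NoOrd u ∧ piS u = aS u := by
  have h1 : ∀ᵐ u : ℝ, NoOrd u ∧ piS u = aS u := by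
    filter_upwards [ae_piS, ae_not_ord] with u h1 h2
    exact ⟨h2.2, h1⟩
  by_contra hcon
  push Not at hcon
  have h2 : Set.Ioo a b ⊆ {u : ℝ | ¬ (NoOrd u ∧ piS u = aS u)} := by
    intro u hu hP
    exact hcon u hu.1 hu.2 hP.1 hP.2
  have h3 := measure_mono_null h2 h1
  rw [Real.volume_Ioo, ENNReal.ofReal_eq_zero] at h3
  linarith

/-- the gaps between ordinates are bounded -/
theorem maxgap : ∃ H₁ T₀ : ℝ, 2 ≤ H₁ ∧ 10 ≤ T₀ ∧ ∀ t : ℝ, T₀ ≤ t → 1 ≤ Nz t (t + H₁) := by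
  obtain ⟨C, hC, hz⟩ := zcount2
  obtain ⟨C', hC', ha⟩ := aS_bd
  refine ⟨16 * C' + 6, max (max 100 (16 * C' + 6)) (Real.exp (4 * C + 1)), by linarith,
    le_trans (by norm_num) ((le_max_left _ _).trans (le_max_left _ _)), fun t ht => ?_⟩
  have ht1 : 100 ≤ t := ((le_max_left _ _).trans (le_max_left _ _)).trans ht
  have ht2 : 16 * C' + 6 ≤ t := ((le_max_right _ _).trans (le_max_left _ _)).trans ht
  have ht3 : Real.exp (4 * C + 1) ≤ t := (le_max_right _ _).trans ht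
  have hL : 4 * C + 1 ≤ Real.log t := (Real.le_log_iff_exp_le (by linarith)).2 ht3
  obtain ⟨u₁, a1, a2, a3, a4⟩ := ex_good (show t < t + 1 by linarith)
  obtain ⟨u₂, b1, b2, b3, b4⟩ := ex_good (show t + (16 * C' + 6) - 1 < t + (16 * C' + 6) by linarith)
  have hu : u₁ < u₂ := by linarith
  have h1 := hz u₁ u₂ (by linarith) hu (by linarith) a3 b3
  rw [a4, b4] at h1
  have h2 := ha u₁ (by linarith) a3
  have h3 := ha u₂ (by linarith) b3
  have l1 : Real.log t ≤ Real.log u₁ := Real.log_le_log (by linarith) a1.le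
  have l2 : Real.log u₁ ≤ 2 * Real.log t := by
    rw [← Real.log_rpow (by linarith)]
    refine Real.log_le_log (by linarith) ?_
    rw [Real.rpow_two]
    nlinarith
  have l3 : Real.log u₂ ≤ 2 * Real.log t := by
    rw [← Real.log_rpow (by linarith)]
    refine Real.log_le_log (by linarith) ?_
    rw [Real.rpow_two]
    nlinarith
  have h4 := (abs_le.1 h1).1
  have h5 := (abs_le.1 h2).2
  have h6 := (abs_le.1 h3).1
  have h7 : C' * Real.log u₁ ≤ C' * (2 * Real.log t) := mul_le_mul_of_nonneg_left l2 hC'.le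
  have h8 : C' * Real.log u₂ ≤ C' * (2 * Real.log t) := mul_le_mul_of_nonneg_left l3 hC'.le
  have h9 : (u₂ - u₁) / 2 * Real.log t ≤ (u₂ - u₁) / 2 * Real.log u₁ := mul_le_mul_of_nonneg_left l1 (by linarith)
  have h10 : 16 * C' + 4 ≤ u₂ - u₁ := by linarith
  have h11 : (16 * C' + 4) * (Real.log t / 4) ≤ (u₂ - u₁) * (Real.log t / 2 - C) :=
    mul_le_mul h10 (by linarith) (by linarith) (by linarith)
  have h12 : 0 < Real.pi * (Nz u₁ u₂ : ℝ) := by nlinarith
  have h13 : 0 < (Nz u₁ u₂ : ℝ) := by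
    by_contra hcon
    push Not at hcon
    nlinarith [Real.pi_pos]
  have h14 : 0 < Nz u₁ u₂ := by exact_mod_cast h13
  have h15 := Nz_mono a1.le hu.le b2.le
  omega

/-- the mean square of the increments of the complex logarithm -/
theorem mom2w : ∃ C : ℝ, 0 < C ∧ ∀ᶠ T : ℝ in atTop, ∀ h : ℝ, 0 < h → h ≤ 1 →
    IntervalIntegrable (fun t => ‖Lz (t + h) - Lz t‖ ^ 2) volume T (2 * T) ∧
    ∫ t in T..(2 * T), ‖Lz (t + h) - Lz t‖ ^ 2 ≤ C * (T * Real.log (2 + h * Real.log T)) := by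
  classical
  obtain ⟨θ₁, δ₀, hθ₁, hδ₀, hTHH⟩ := THH 2
  obtain ⟨δ, hδd⟩ : ∃ δ : ℝ, δ = min δ₀ (1 / 16) := ⟨_, rfl⟩
  have hδ : 0 < δ := by rw [hδd]; positivity
  have hδ1 : δ ≤ δ₀ := by rw [hδd]; exact min_le_left _ _
  have hδ2 : δ ≤ 1 / 16 := by rw [hδd]; exact min_le_right _ _
  obtain ⟨C₁, hC₁, hTHH⟩ := hTHH δ hδ hδ1
  obtain ⟨Cv, hCv, hsv⟩ := sum_vh
  have hZ := Z3_nonneg
  refine ⟨3 * (3 * (2 * C₁ + 2 * (8 / 3 * Z3) ^ 2) * 2 + 20 * Cv + 4), by positivity, ?_⟩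
  filter_upwards [hTHH, growth2 δ hδ] with T hTHH hgr h hh0 hh1
  obtain ⟨hT16, hX3, hll, hL3⟩ := hgr
  have hT0 : 0 < T := by linarith
  have hT1 : 1 ≤ T := by linarith
  obtain ⟨X, hX⟩ : ∃ X : ℕ, X = ⌊T ^ δ⌋₊ := ⟨_, rfl⟩
  rw [← hX] at hX3
  have hXle : (X : ℝ) ≤ T ^ δ := by rw [hX]; exact Nat.floor_le (by positivity)
  have hX1 : 1 ≤ X := by omega
  have hXT : (X : ℝ) ≤ T := hXle.trans (by
    calc T ^ δ ≤ T ^ (1 : ℝ) := Real.rpow_le_rpow_of_exponent_le hT1 (by linarith)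
      _ = T := Real.rpow_one T)
  obtain ⟨r, hr⟩ : ∃ r : ℕ → ℂ, r = rg ∅ 1 (fun _ => 0) := ⟨_, rfl⟩
  have hr1 : r 1 = 1 := by
    rw [hr]
    unfold rg
    rw [if_pos ⟨⟨squarefree_one, by simp⟩, by simp [Pool.Agent.Q241.UM.om]⟩]
    simp [Rr]
  have hdp1 : ∀ t, dp 1 r t = 1 := by
    intro t
    unfold dp
    simp [hr1]
  have hN21 : N2 1 r = 1 := by
    unfold N2
    simp [hr1]
  have hNθ : ((1 : ℕ) : ℝ) ≤ T ^ θ₁ := by
    rw [Nat.cast_one]
    exact Real.one_le_rpow hT1 hθ₁.le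
  obtain ⟨a1, a2⟩ := hTHH h (by rw [abs_of_pos hh0]; linarith) 1 hNθ r
  obtain ⟨b1, b2⟩ := hTHH 0 (by rw [abs_zero]; linarith) 1 hNθ r
  rw [← hX] at a1 a2 b1 b2
  simp only [add_zero] at b1 b2
  set F : ℝ → ℂ := fun t => Lz (t + h) - Lz t with hF
  have hFm : Measurable F := (Lz_meas.comp (measurable_id.add_const h)).sub Lz_meas
  set u : ℕ → ℂ := fun n => vh h n / 2 with hu
  have hu1 : ∀ n, ‖u n‖ ≤ 1 := by
    intro n
    simp only [hu]
    rw [norm_div, Complex.norm_ofNat, div_le_one (by norm_num)]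
    unfold vh
    refine (norm_sub_le _ _).trans ?_
    rw [norm_one]
    linarith [ph'_le h n]
  have hpt : ∀ t, ‖F t - dp X (pv X (vh h)) t - dp (X ^ 2) (sv X u) t‖ ^ 2 * ‖dp 1 r t‖ ^ 2 ≤
      3 * (‖Lz (t + h) - LE X (t + h)‖ ^ 2 * ‖dp 1 r t‖ ^ 2 + ‖Lz t - LE X t‖ ^ 2 * ‖dp 1 r t‖ ^ 2 + (8 / 3 * Z3) ^ 2 * ‖dp 1 r t‖ ^ 2) := by
    intro t
    have h1 := LE_sh X h t
    have h2 := LE_sh X 0 t
    rw [add_zero] at h2
    have e1 : dp X (pv X (vh h)) t = dp X (pv X (ph' h)) t - dp X (pv X (ph' 0)) t := by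
      unfold dp pv vh
      rw [← Finset.sum_sub_distrib]
      refine Finset.sum_congr rfl fun n _ => ?_
      rw [ph'_zero]
      ring
    have e2 : dp (X ^ 2) (sv X u) t = dp (X ^ 2) (sv X (fun n => ph' h n / 2)) t - dp (X ^ 2) (sv X (fun n => ph' 0 n / 2)) t := by
      unfold dp sv
      rw [← Finset.sum_sub_distrib]
      refine Finset.sum_congr rfl fun n _ => ?_
      show sqc X n * ((ph' h n - 1) / 2) * (n : ℂ) ^ (-(1 / 2 + t * I)) =
        sqc X n * (ph' h n / 2) * (n : ℂ) ^ (-(1 / 2 + t * I)) - sqc X n * (ph' 0 n / 2) * (n : ℂ) ^ (-(1 / 2 + t * I))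
      rw [ph'_zero]
      ring
    have h3 : ‖F t - dp X (pv X (vh h)) t - dp (X ^ 2) (sv X u) t‖ ≤ ‖Lz (t + h) - LE X (t + h)‖ + ‖Lz t - LE X t‖ + 8 / 3 * Z3 := by
      have e : F t - dp X (pv X (vh h)) t - dp (X ^ 2) (sv X u) t = (Lz (t + h) - LE X (t + h)) - (Lz t - LE X t) +
          ((LE X (t + h) - dp X (pv X (ph' h)) t - dp (X ^ 2) (sv X (fun n => ph' h n / 2)) t) -
          (LE X t - dp X (pv X (ph' 0)) t - dp (X ^ 2) (sv X (fun n => ph' 0 n / 2)) t)) := by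
        rw [e1, e2]
        simp only [hF]
        ring
      rw [e]
      refine (norm_add_le _ _).trans (add_le_add (norm_sub_le _ _) ((norm_sub_le _ _).trans ?_))
      linarith
    have h4 : ‖F t - dp X (pv X (vh h)) t - dp (X ^ 2) (sv X u) t‖ ^ 2 ≤
        3 * (‖Lz (t + h) - LE X (t + h)‖ ^ 2 + ‖Lz t - LE X t‖ ^ 2 + (8 / 3 * Z3) ^ 2) := by
      refine (pow_le_pow_left₀ (norm_nonneg _) h3 2).trans ?_
      generalize ‖Lz (t + h) - LE X (t + h)‖ = a
      generalize ‖Lz t - LE X t‖ = b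
      generalize 8 / 3 * Z3 = c
      nlinarith [sq_nonneg (a - b), sq_nonneg (a - c), sq_nonneg (b - c)]
    have h5 := mul_le_mul_of_nonneg_right h4 (sq_nonneg ‖dp 1 r t‖)
    refine h5.trans (le_of_eq ?_)
    ring
  have cB : Continuous fun t => ‖dp 1 r t‖ ^ 2 := (dp_cont 1 r).norm.pow 2
  have hint : IntervalIntegrable (fun t => 3 * (‖Lz (t + h) - LE X (t + h)‖ ^ 2 * ‖dp 1 r t‖ ^ 2 + ‖Lz t - LE X t‖ ^ 2 * ‖dp 1 r t‖ ^ 2 +
      (8 / 3 * Z3) ^ 2 * ‖dp 1 r t‖ ^ 2)) volume T (2 * T) :=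
    ((a1.add b1).add ((cB.const_mul _).intervalIntegrable _ _)).const_mul 3
  have hmeas : Measurable fun t => ‖F t - dp X (pv X (vh h)) t - dp (X ^ 2) (sv X u) t‖ ^ 2 * ‖dp 1 r t‖ ^ 2 :=
    (((((hFm.sub (dp_cont X _).measurable).sub (dp_cont _ _).measurable)).norm).pow_const 2).mul cB.measurable
  have hI : IntervalIntegrable (fun t => ‖F t - dp X (pv X (vh h)) t - dp (X ^ 2) (sv X u) t‖ ^ 2 * ‖dp 1 r t‖ ^ 2) volume T (2 * T) := by
    refine hint.mono_fun' hmeas.aestronglyMeasurable (Eventually.of_forall fun t => ?_)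
    show ‖‖F t - dp X (pv X (vh h)) t - dp (X ^ 2) (sv X u) t‖ ^ 2 * ‖dp 1 r t‖ ^ 2‖ ≤ _
    rw [Real.norm_of_nonneg (by positivity)]
    exact hpt t
  have I3 : ∫ t in T..(2 * T), ‖dp 1 r t‖ ^ 2 ≤ 2 * T * N2 1 r := by
    simp only [hdp1, hN21, norm_one, one_pow, intervalIntegral.integral_const, smul_eq_mul, mul_one]
    linarith
  have hb : ∫ t in T..(2 * T), ‖F t - dp X (pv X (vh h)) t - dp (X ^ 2) (sv X u) t‖ ^ 2 * ‖dp 1 r t‖ ^ 2 ≤
      3 * (2 * C₁ + 2 * (8 / 3 * Z3) ^ 2) * (T * N2 1 r) := by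
    have h1 := intervalIntegral.integral_mono_on (by linarith) hI hint fun t _ => hpt t
    refine h1.trans ?_
    rw [intervalIntegral.integral_const_mul, intervalIntegral.integral_add (a1.add b1) ((cB.const_mul _).intervalIntegrable _ _),
      intervalIntegral.integral_add a1 b1, intervalIntegral.integral_const_mul]
    have h2 : (8 / 3 * Z3) ^ 2 * ∫ t in T..(2 * T), ‖dp 1 r t‖ ^ 2 ≤ (8 / 3 * Z3) ^ 2 * (2 * T * N2 1 r) :=
      mul_le_mul_of_nonneg_left I3 (by positivity)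
    have e1 : 3 * (2 * C₁ + 2 * (8 / 3 * Z3) ^ 2) * (T * N2 1 r) = 3 * (C₁ * T * N2 1 r + C₁ * T * N2 1 r + (8 / 3 * Z3) ^ 2 * (2 * T * N2 1 r)) := by ring
    rw [e1]
    linarith
  have hXN : ((X * 1 : ℕ) : ℝ) ≤ T ^ (1 / 4 : ℝ) := by
    rw [mul_one]
    exact hXle.trans (Real.rpow_le_rpow_of_exponent_le hT1 (by linarith))
  have hX2N : ((X ^ 2 * 1 : ℕ) : ℝ) ≤ T ^ (1 / 4 : ℝ) := by
    rw [mul_one]
    push_cast
    calc (X : ℝ) ^ 2 ≤ (T ^ δ) ^ 2 := pow_le_pow_left₀ (Nat.cast_nonneg _) hXle 2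
      _ = T ^ (δ + δ) := by rw [Real.rpow_add hT0, sq]
      _ ≤ _ := Real.rpow_le_rpow_of_exponent_le hT1 (by linarith)
  rw [hr] at hI hb
  obtain ⟨c1, c2⟩ := resG (P := ∅) (K := 1) (N := 1) (ρ := fun _ => 0) hT16 hX1 hXN hX2N (by simp) (by simp) le_rfl (by simp)
    (by
      intro S hS _
      rw [Finset.powerset_empty, Finset.mem_singleton] at hS
      subst hS
      simp) hu1 hFm hI hb
  have hAA : AA (fun _ => 0) (vh h) ∅ = 0 := by
    unfold AA
    simp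
  rw [hAA, ← hr] at c1 c2
  simp only [hdp1, hN21, sub_zero, norm_one, one_pow, mul_one] at c1 c2
  refine ⟨c1, c2.trans ?_⟩
  have hlogX : Real.log X ≤ Real.log T := Real.log_le_log (by exact_mod_cast hX1) hXT
  have hlX0 : 0 ≤ Real.log X := Real.log_nonneg (by exact_mod_cast hX1)
  have h1 := hsv h hh0 hh1 X hX3
  have h2 : Real.log (2 + h * Real.log X) ≤ Real.log (2 + h * Real.log T) := by
    refine Real.log_le_log (by positivity) ?_
    have := mul_le_mul_of_nonneg_left hlogX hh0.le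
    linarith
  have h3 : 1 / 2 ≤ Real.log (2 + h * Real.log T) := by
    have h4 := Real.log_two_gt_d9
    have h5 : Real.log 2 ≤ Real.log (2 + h * Real.log T) := Real.log_le_log (by norm_num) (by
      have := mul_nonneg hh0.le (by linarith : 0 ≤ Real.log T)
      linarith)
    linarith
  set Y := Real.log (2 + h * Real.log T) with hY
  have h4 : ∑ p ∈ (Finset.Icc 1 X).filter Nat.Prime, ‖vh h p‖ ^ 2 / (p : ℝ) ≤ Cv * Y := h1.trans (mul_le_mul_of_nonneg_left h2 hCv.le)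
  have h5 : 0 ≤ 3 * (2 * C₁ + 2 * (8 / 3 * Z3) ^ 2) := by positivity
  have h6 : 3 * (2 * C₁ + 2 * (8 / 3 * Z3) ^ 2) ≤ 3 * (2 * C₁ + 2 * (8 / 3 * Z3) ^ 2) * 2 * Y := by nlinarith
  have h7 : 3 * (2 * C₁ + 2 * (8 / 3 * Z3) ^ 2) + 20 * (∑ p ∈ (Finset.Icc 1 X).filter Nat.Prime, ‖vh h p‖ ^ 2 / (p : ℝ)) + 2 ≤
      (3 * (2 * C₁ + 2 * (8 / 3 * Z3) ^ 2) * 2 + 20 * Cv + 4) * Y := by nlinarith
  calc 3 * (3 * (2 * C₁ + 2 * (8 / 3 * Z3) ^ 2) + 20 * (∑ p ∈ (Finset.Icc 1 X).filter Nat.Prime, ‖vh h p‖ ^ 2 / (p : ℝ)) + 2) * T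
      ≤ 3 * ((3 * (2 * C₁ + 2 * (8 / 3 * Z3) ^ 2) * 2 + 20 * Cv + 4) * Y) * T := by
        refine mul_le_mul_of_nonneg_right (mul_le_mul_of_nonneg_left h7 (by norm_num)) hT0.le
    _ = _ := by ring

/-- the measure of the starting points of zero-free windows -/
theorem zfree : ∃ C : ℝ, 0 < C ∧ ∀ᶠ T : ℝ in atTop, ∀ h : ℝ, 0 < h → h ≤ 1 →
    volume.real {t : ℝ | T < t ∧ t ≤ 2 * T ∧ Nz t (t + h) = 0} ≤ C * (T * (Real.log (2 + h * Real.log T) / (h * Real.log T) ^ 2)) := by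
  obtain ⟨C, hC, hm⟩ := mom2w
  obtain ⟨C', hC', hz⟩ := zcount
  refine ⟨16 * C, by positivity, ?_⟩
  filter_upwards [hm, eventually_ge_atTop 16, Real.tendsto_log_atTop.eventually_ge_atTop (4 * C')] with T hm hT16 hL h hh0 hh1
  obtain ⟨m1, m2⟩ := hm h hh0 hh1
  have hT0 : 0 < T := by linarith
  have hL0 : 0 < Real.log T := Real.log_pos (by linarith)
  have hH0 : 0 < h * Real.log T := mul_pos hh0 hL0
  set f : ℝ → ℝ := fun t => ‖Lz (t + h) - Lz t‖ ^ 2 with hf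
  have i1 : Integrable f (volume.restrict (Set.Ioc T (2 * T))) := (intervalIntegrable_iff_integrableOn_Ioc_of_le (by linarith)).1 m1
  have h1 := mul_meas_ge_le_integral_of_nonneg (μ := volume.restrict (Set.Ioc T (2 * T))) (f := f)
    (Eventually.of_forall fun t => by positivity) i1 ((h * Real.log T / 4) ^ 2)
  rw [intervalIntegral.integral_of_le (by linarith)] at m2
  have h2 : volume.real {t : ℝ | T < t ∧ t ≤ 2 * T ∧ Nz t (t + h) = 0} ≤
      (volume.restrict (Set.Ioc T (2 * T))).real {t | (h * Real.log T / 4) ^ 2 ≤ f t} := by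
    have hae : ∀ᵐ t : ℝ, t ∈ {t : ℝ | T < t ∧ t ≤ 2 * T ∧ Nz t (t + h) = 0} → t ∈ {t | (h * Real.log T / 4) ^ 2 ≤ f t} ∩ Set.Ioc T (2 * T) := by
      have g1 : ∀ᵐ t : ℝ, NoOrd t ∧ piS t = aS t := by
        filter_upwards [ae_piS, ae_not_ord] with t h1 h2
        exact ⟨h2.2, h1⟩
      have g2 := (measurePreserving_add_right (volume : Measure ℝ) h).quasiMeasurePreserving.ae g1
      filter_upwards [g1, g2] with t g1 g2 ht
      obtain ⟨t1, t2, t3⟩ := ht
      refine ⟨?_, t1, t2⟩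
      have e1 := hz t (t + h) (by linarith) (by linarith) (by linarith) g1.1 g2.1
      rw [t3, g1.2, g2.2] at e1
      have e2 : t + h - t = h := by ring
      rw [e2] at e1
      have e3 := (abs_le.1 e1).1
      have hl : Real.log T ≤ Real.log t := Real.log_le_log hT0 t1.le
      have e4 : |aS (t + h) - aS t| ≤ ‖Lz (t + h) - Lz t‖ := by
        have : aS (t + h) - aS t = (Lz (t + h) - Lz t).im := by
          rw [sub_im]
          rfl
        rw [this]
        exact Complex.abs_im_le_norm _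
      have e5 := (abs_le.1 e4).1
      have e6 : h * Real.log T / 4 ≤ ‖Lz (t + h) - Lz t‖ := by
        rw [Nat.cast_zero, mul_zero, zero_sub] at e3
        have e7 : h / 2 * Real.log T ≤ h / 2 * Real.log t := mul_le_mul_of_nonneg_left hl (by linarith)
        have e8 : C' * h ≤ h * Real.log T / 4 := by nlinarith
        linarith
      show (h * Real.log T / 4) ^ 2 ≤ ‖Lz (t + h) - Lz t‖ ^ 2
      exact pow_le_pow_left₀ (by positivity) e6 2
    have hm2 : Measurable f := (((Lz_meas.comp (measurable_id.add_const h)).sub Lz_meas).norm).pow_const 2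
    have hms : MeasurableSet {t | (h * Real.log T / 4) ^ 2 ≤ f t} := measurableSet_le measurable_const hm2
    rw [measureReal_def, measureReal_def, Measure.restrict_apply hms]
    refine ENNReal.toReal_mono ?_ (measure_mono_ae hae)
    refine ne_of_lt (lt_of_le_of_lt (measure_mono Set.inter_subset_right) (by simp))
  rw [← mul_div_assoc, ← mul_div_assoc, le_div_iff₀ (by positivity)]
  have h3 := h1.trans m2
  have h4 : volume.real {t : ℝ | T < t ∧ t ≤ 2 * T ∧ Nz t (t + h) = 0} * ((h * Real.log T) ^ 2 / 16) ≤ C * (T * Real.log (2 + h * Real.log T)) := by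
    calc volume.real {t : ℝ | T < t ∧ t ≤ 2 * T ∧ Nz t (t + h) = 0} * ((h * Real.log T) ^ 2 / 16)
        ≤ (volume.restrict (Set.Ioc T (2 * T))).real {t | (h * Real.log T / 4) ^ 2 ≤ f t} * ((h * Real.log T) ^ 2 / 16) :=
          mul_le_mul_of_nonneg_right h2 (by positivity)
      _ = (h * Real.log T / 4) ^ 2 * (volume.restrict (Set.Ioc T (2 * T))).real {t | (h * Real.log T / 4) ^ 2 ≤ f t} := by ring
      _ ≤ _ := h3
  linarith

end

end Pool.Agent.U761.SZ
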