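import Pool.Agent.U761.SZ.RGA

set_option autoImplicit false

/-!
U761.SZ: the sequence of the ordinates and the sum of the squares of the gaps.
-/

namespace Pool.Agent.U761.SZ

open Filter Topology MeasureTheory

noncomputable section

/-- the number of nontrivial zeros with ordinate in `(0, t]`, with multiplicity -/
def NZ (t : ℝ) : ℕ := Nz 0 t

/-- the `n`-th ordinate -/
def gam (n : ℕ) : ℝ := sInf {t : ℝ | n ≤ NZ t}

theorem NZ_nonpos {t : ℝ} (ht : t ≤ 0) : NZ t = 0 := by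
  unfold NZ
  rw [Nz_sum]
  apply Finset.sum_eq_zero
  intro s hs
  rw [Set.Finite.mem_toFinset] at hs
  have := hs.2.2.2.1.trans_le (hs.2.2.2.2.trans ht)
  exact absurd this (lt_irrefl 0)

theorem NZ_add {t u : ℝ} (ht : 0 ≤ t) (hu : t ≤ u) : NZ u = NZ t + Nz t u := Nz_add ht hu

theorem NZ_mono : Monotone NZ := by
  intro a b h
  rcases le_or_gt 0 a with ha | ha
  · rw [NZ_add ha h]
    omega
  · rw [NZ_nonpos ha.le]
    omega

/-- right continuity -/
theorem NZ_right (t : ℝ) : ∃ t' : ℝ, t < t' ∧ NZ t' = NZ t := by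
  classical
  rcases lt_or_ge t 0 with ht0 | ht0
  · exact ⟨t / 2, by linarith, by rw [NZ_nonpos (by linarith), NZ_nonpos ht0.le]⟩
  have hfin := Nz_fin t (t + 1)
  set F := hfin.toFinset with hF
  by_cases hne : F.Nonempty
  · obtain ⟨s0, hs0, hmin⟩ := F.exists_min_image (fun s => s.im) hne
    have h1 : t < s0.im := by
      rw [hF, Set.Finite.mem_toFinset] at hs0
      exact hs0.2.2.2.1
    have h1' : s0.im ≤ t + 1 := by
      rw [hF, Set.Finite.mem_toFinset] at hs0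
      exact hs0.2.2.2.2
    refine ⟨(t + s0.im) / 2, by linarith, ?_⟩
    rw [NZ_add ht0 (by linarith : t ≤ (t + s0.im) / 2)]
    have h2 : Nz t ((t + s0.im) / 2) = 0 := by
      rw [Nz_sum]
      apply Finset.sum_eq_zero
      intro s hs
      exfalso
      rw [Set.Finite.mem_toFinset] at hs
      have hsF : s ∈ F := by
        rw [hF, Set.Finite.mem_toFinset]
        exact ⟨hs.1, hs.2.1, hs.2.2.1, hs.2.2.2.1, hs.2.2.2.2.trans (by linarith)⟩
      have h3 := hmin s hsF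
      have h4 := hs.2.2.2.2
      linarith
    omega
  · refine ⟨t + 1, by linarith, ?_⟩
    rw [NZ_add ht0 (by linarith : t ≤ t + 1)]
    have h2 : Nz t (t + 1) = 0 := by
      rw [Nz_sum]
      apply Finset.sum_eq_zero
      intro s hs
      exact absurd ⟨s, hs⟩ hne
    omega

theorem NZ_unb (n : ℕ) : ∃ t : ℝ, n ≤ NZ t := by
  obtain ⟨H₁, T₀, hH₁, hT₀, h⟩ := maxgap
  have key : ∀ n : ℕ, ∃ t : ℝ, T₀ ≤ t ∧ n ≤ NZ t := by
    intro n
    induction n with
    | zero => exact ⟨T₀, le_rfl, Nat.zero_le _⟩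
    | succ n ih =>
      obtain ⟨t, ht, hn⟩ := ih
      refine ⟨t + H₁, by linarith, ?_⟩
      have h1 := h t ht
      rw [NZ_add (by linarith : 0 ≤ t) (by linarith : t ≤ t + H₁)]
      omega
  obtain ⟨t, -, ht⟩ := key n
  exact ⟨t, ht⟩

theorem gam_le_iff {n : ℕ} (hn : 1 ≤ n) (t : ℝ) : gam n ≤ t ↔ n ≤ NZ t := by
  have hbdd : BddBelow {t : ℝ | n ≤ NZ t} := by
    refine ⟨0, ?_⟩
    intro u hu
    by_contra hlt
    push Not at hlt
    have h1 : n ≤ NZ u := hu
    rw [NZ_nonpos hlt.le] at h1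
    omega
  constructor
  · intro h
    obtain ⟨t', ht', he⟩ := NZ_right t
    have h1 : sInf {t : ℝ | n ≤ NZ t} < t' := lt_of_le_of_lt h ht'
    obtain ⟨u, hu, hut⟩ := exists_lt_of_csInf_lt (NZ_unb n) h1
    have h2 : n ≤ NZ u := hu
    rw [← he]
    exact h2.trans (NZ_mono hut.le)
  · intro h
    exact csInf_le hbdd h

theorem lt_gam_iff {n : ℕ} (hn : 1 ≤ n) (t : ℝ) : t < gam n ↔ NZ t < n := by
  rw [← not_le, ← not_le, gam_le_iff hn]

theorem gam_mono {n m : ℕ} (hn : 1 ≤ n) (h : n ≤ m) : gam n ≤ gam m :=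
  (gam_le_iff hn _).2 (h.trans ((gam_le_iff (hn.trans h) _).1 le_rfl))

/-- the point `t` lies between the ordinates with the numbers `NZ t` and `NZ t + 1` -/
theorem mem_gap {t : ℝ} (h : 1 ≤ NZ t) : gam (NZ t) ≤ t ∧ t < gam (NZ t + 1) :=
  ⟨(gam_le_iff h t).2 le_rfl, (lt_gam_iff (by omega) t).2 (by omega)⟩

/-- localisation of the gap around `t` -/
theorem gap_loc {H₁ T₀ : ℝ} (hH₁ : 2 ≤ H₁) (hT₀ : 10 ≤ T₀) (hg : ∀ t : ℝ, T₀ ≤ t → 1 ≤ Nz t (t + H₁)) {t : ℝ} (ht : T₀ + H₁ ≤ t) :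
    1 ≤ NZ t ∧ t - H₁ < gam (NZ t) ∧ gam (NZ t + 1) ≤ t + H₁ := by
  have h1 := hg (t - H₁) (by linarith)
  rw [sub_add_cancel] at h1
  have h2 : NZ t = NZ (t - H₁) + Nz (t - H₁) t := NZ_add (by linarith) (by linarith)
  have h3 : 1 ≤ NZ t := by omega
  refine ⟨h3, (lt_gam_iff h3 _).2 (by omega), ?_⟩
  rw [gam_le_iff (by omega)]
  have h4 := hg t (by linarith)
  rw [NZ_add (by linarith : 0 ≤ t) (by linarith : t ≤ t + H₁)]
  omega

/-- an elementary sum -/
theorem sum_k2 (n : ℕ) : ∑ k ∈ Finset.range n, ((k : ℝ) + 2) / 2 ^ k = 6 - (2 * n + 6) / 2 ^ n := by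
  induction n with
  | zero => simp
  | succ n ih =>
    rw [Finset.sum_range_succ, ih]
    push_cast
    field_simp
    ring

/-- a gap function by dyadic layers -/
theorem layers {g h₀ H₁ : ℝ} {K : ℕ} (hg : 0 ≤ g) (hh : 0 < h₀) (hK1 : 1 / 2 ≤ h₀ * 2 ^ K) (hH : 1 ≤ H₁) (hgH : g ≤ 2 * H₁) :
    g ^ 2 ≤ 2 * h₀ * g + ∑ k ∈ Finset.range (K + 1), 4 * H₁ * (h₀ * 2 ^ k) * (if 2 * (h₀ * 2 ^ k) < g then g else 0) := by
  have hnn : ∀ k ∈ Finset.range (K + 1), 0 ≤ 4 * H₁ * (h₀ * 2 ^ k) * (if 2 * (h₀ * 2 ^ k) < g then g else 0) := by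
    intro k _
    split_ifs <;> positivity
  by_cases h0 : g ≤ 2 * h₀
  · have h1 : g ^ 2 ≤ 2 * h₀ * g := by nlinarith
    have h2 := Finset.sum_nonneg hnn
    linarith
  push Not at h0
  -- the largest layer
  set S := (Finset.range (K + 1)).filter (fun k => 2 * (h₀ * 2 ^ k) < g) with hS
  have hSne : S.Nonempty := ⟨0, by
    rw [hS, Finset.mem_filter, Finset.mem_range]
    refine ⟨by omega, ?_⟩
    simpa using h0⟩
  set k := S.max' hSne with hk
  have hkS : k ∈ S := S.max'_mem hSne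
  rw [hS, Finset.mem_filter, Finset.mem_range] at hkS
  have h1 : g ^ 2 ≤ 4 * H₁ * (h₀ * 2 ^ k) * (if 2 * (h₀ * 2 ^ k) < g then g else 0) := by
    rw [if_pos hkS.2]
    have hgk : g ≤ 4 * H₁ * (h₀ * 2 ^ k) := by
      rcases Nat.lt_or_ge k K with hkK | hkK
      · have h2 : ¬ (2 * (h₀ * 2 ^ (k + 1)) < g) := by
          intro h3
          have h4 : k + 1 ∈ S := by
            rw [hS, Finset.mem_filter, Finset.mem_range]
            exact ⟨by omega, h3⟩
          have h5 := S.le_max' _ h4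
          omega
        push Not at h2
        have h3 : 2 * (h₀ * 2 ^ (k + 1)) = 4 * (h₀ * 2 ^ k) := by ring
        rw [h3] at h2
        have h4 : 0 ≤ h₀ * 2 ^ k := by positivity
        nlinarith
      · have h2 : k = K := by omega
        rw [h2]
        nlinarith
    calc g ^ 2 = g * g := sq g
      _ ≤ 4 * H₁ * (h₀ * 2 ^ k) * g := mul_le_mul_of_nonneg_right hgk hg
  have h2 := Finset.single_le_sum hnn (Finset.mem_range.2 hkS.1)
  have h3 : 0 ≤ 2 * h₀ * g := by positivity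
  linarith

/-- the total length of the long gaps -/
theorem long_gaps {h a b : ℝ} (hh : 0 < h) (S : Finset ℕ) (hS1 : ∀ m ∈ S, 1 ≤ m) (hSa : ∀ m ∈ S, a < gam m)
    (hSb : ∀ m ∈ S, gam (m + 1) ≤ b) (ha : 0 ≤ a) :
    ∑ m ∈ S, (if 2 * h < gam (m + 1) - gam m then gam (m + 1) - gam m else 0) ≤
      2 * volume.real {t : ℝ | a < t ∧ t ≤ b ∧ Nz t (t + h) = 0} := by
  classical
  set S' := S.filter (fun m => 2 * h < gam (m + 1) - gam m) with hS'
  rw [← Finset.sum_filter]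
  have h1 : ∀ m ∈ S', gam (m + 1) - gam m ≤ 2 * (volume (Set.Ico (gam m) (gam (m + 1) - h))).toReal := by
    intro m hm
    have hm2 := (Finset.mem_filter.1 hm).2
    rw [Real.volume_Ico, ENNReal.toReal_ofReal (by linarith)]
    linarith
  refine (Finset.sum_le_sum h1).trans ?_
  rw [← Finset.mul_sum]
  refine mul_le_mul_of_nonneg_left ?_ (by norm_num)
  rw [← ENNReal.toReal_sum (fun m _ => by rw [Real.volume_Ico]; exact ENNReal.ofReal_ne_top)]
  rw [← measure_biUnion_finset (f := fun m => Set.Ico (gam m) (gam (m + 1) - h)) ?_ (fun m _ => measurableSet_Ico)]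
  · rw [measureReal_def]
    refine ENNReal.toReal_mono ?_ (measure_mono ?_)
    · refine ne_of_lt (lt_of_le_of_lt (measure_mono (t := Set.Icc a b) ?_) (by simp))
      rintro t ⟨h1, h2, -⟩
      exact ⟨h1.le, h2⟩
    · intro t ht
      rw [Set.mem_iUnion₂] at ht
      obtain ⟨m, hm, ht1, ht2⟩ := ht
      have hmS := (Finset.mem_filter.1 hm).1
      have h2 := hSa m hmS
      have h3 := hSb m hmS
      refine ⟨lt_of_lt_of_le h2 ht1, by linarith, ?_⟩
      have h4 : m ≤ NZ t := (gam_le_iff (hS1 m hmS) t).1 ht1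
      have h5 : NZ (t + h) < m + 1 := (lt_gam_iff (by omega) _).1 (by linarith)
      have h6 : NZ (t + h) = NZ t + Nz t (t + h) := NZ_add (by linarith) (by linarith)
      omega
  · intro m hm m' hm' hne
    rw [Function.onFun, Set.disjoint_left]
    rintro t ⟨h1, h2⟩ ⟨h3, h4⟩
    have hmS := (Finset.mem_filter.1 hm).1
    have hmS' := (Finset.mem_filter.1 hm').1
    have a1 : m ≤ NZ t := (gam_le_iff (hS1 m hmS) t).1 h1
    have a2 : NZ t < m + 1 := (lt_gam_iff (by omega) _).1 (by linarith)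
    have a3 : m' ≤ NZ t := (gam_le_iff (hS1 m' hmS') t).1 h3
    have a4 : NZ t < m' + 1 := (lt_gam_iff (by omega) _).1 (by linarith)
    omega

end

end Pool.Agent.U761.SZ
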