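import Pool.Agent.U761.SZ.RGB

set_option autoImplicit false

/-!
U761.SZ: the second moment of the gaps between the ordinates (unconditional), and counting gaps by measures.
-/

namespace Pool.Agent.U761.SZ

open Filter Topology MeasureTheory

noncomputable section

theorem pw_disj {S : Finset ℕ} (hS1 : ∀ m ∈ S, 1 ≤ m) :
    Set.PairwiseDisjoint (↑S : Set ℕ) (fun m => Set.Ico (gam m) (gam (m + 1))) := by
  intro m hm m' hm' hne
  rw [Function.onFun, Set.disjoint_left]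
  rintro t ⟨h1, h2⟩ ⟨h3, h4⟩
  have a1 : m ≤ NZ t := (gam_le_iff (hS1 m hm) t).1 h1
  have a2 : NZ t < m + 1 := (lt_gam_iff (by omega) _).1 h2
  have a3 : m' ≤ NZ t := (gam_le_iff (hS1 m' hm') t).1 h3
  have a4 : NZ t < m' + 1 := (lt_gam_iff (by omega) _).1 h4
  omega

theorem sum_gaps {a b : ℝ} (hab : a ≤ b) (S : Finset ℕ) (hS1 : ∀ m ∈ S, 1 ≤ m) (hSa : ∀ m ∈ S, a < gam m)
    (hSb : ∀ m ∈ S, gam (m + 1) ≤ b) : ∑ m ∈ S, (gam (m + 1) - gam m) ≤ b - a := by
  classical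
  have h1 : ∀ m ∈ S, gam (m + 1) - gam m = (volume (Set.Ico (gam m) (gam (m + 1)))).toReal := by
    intro m hm
    rw [Real.volume_Ico, ENNReal.toReal_ofReal]
    have := gam_mono (hS1 m hm) (Nat.le_succ m)
    linarith
  rw [Finset.sum_congr rfl h1, ← ENNReal.toReal_sum (fun m _ => by rw [Real.volume_Ico]; exact ENNReal.ofReal_ne_top),
    ← measure_biUnion_finset (pw_disj hS1) (fun m _ => measurableSet_Ico)]
  have h2 : volume (⋃ m ∈ S, Set.Ico (gam m) (gam (m + 1))) ≤ ENNReal.ofReal (b - a) := by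
    rw [← Real.volume_Ioc]
    refine measure_mono ?_
    intro t ht
    rw [Set.mem_iUnion₂] at ht
    obtain ⟨m, hm, ht1, ht2⟩ := ht
    exact ⟨lt_of_lt_of_le (hSa m hm) ht1, ht2.le.trans (hSb m hm)⟩
  calc (volume (⋃ m ∈ S, Set.Ico (gam m) (gam (m + 1)))).toReal ≤ (ENNReal.ofReal (b - a)).toReal :=
        ENNReal.toReal_mono ENNReal.ofReal_ne_top h2
    _ = b - a := ENNReal.toReal_ofReal (by linarith)

/-- **the second moment of the gaps** -/
theorem gap2 : ∃ C : ℝ, 0 < C ∧ ∀ᶠ T : ℝ in atTop, ∀ S : Finset ℕ, (∀ m ∈ S, ∃ t : ℝ, T < t ∧ t ≤ 2 * T ∧ NZ t = m) →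
    ∑ m ∈ S, (gam (m + 1) - gam m) ^ 2 ≤ C * (T / Real.log T) := by
  classical
  obtain ⟨H₁, T₀, hH₁, hT₀, hg⟩ := maxgap
  obtain ⟨C, hC, hz⟩ := zfree
  obtain ⟨T₁, hT₁⟩ := Filter.eventually_atTop.1 hz
  refine ⟨8 + 1152 * H₁ * C, by positivity, ?_⟩
  filter_upwards [eventually_ge_atTop (2 * (T₀ + H₁) + 16), eventually_ge_atTop (2 * T₁), Real.tendsto_log_atTop.eventually_ge_atTop 4]
    with T hT hT1 hL4 S hS
  obtain ⟨L, hL⟩ : ∃ L : ℝ, L = Real.log T := ⟨_, rfl⟩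
  rw [← hL] at hL4 ⊢
  have hT16 : 16 ≤ T := by linarith
  have hT0 : 0 < T := by linarith
  have hL0 : 0 < L := by linarith
  have hloc : ∀ m ∈ S, 1 ≤ m ∧ T / 2 < gam m ∧ gam (m + 1) ≤ 4 * T ∧ gam (m + 1) - gam m ≤ 2 * H₁ := by
    intro m hm
    obtain ⟨t, h1, h2, h3⟩ := hS m hm
    have h4 := gap_loc hH₁ hT₀ hg (t := t) (by linarith)
    rw [h3] at h4
    exact ⟨h4.1, by linarith [h4.2.1], by linarith [h4.2.2], by linarith [h4.2.1, h4.2.2]⟩
  -- the number of layers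
  obtain ⟨K, hK⟩ : ∃ K : ℕ, K = Nat.log 2 ⌊L⌋₊ := ⟨_, rfl⟩
  have hfl : ⌊L⌋₊ ≠ 0 := by
    have : 4 ≤ ⌊L⌋₊ := Nat.le_floor (by exact_mod_cast hL4)
    omega
  have hK1 : (2 : ℝ) ^ K ≤ L := by
    have h1 : 2 ^ K ≤ ⌊L⌋₊ := by rw [hK]; exact Nat.pow_log_le_self 2 hfl
    calc (2 : ℝ) ^ K = ((2 ^ K : ℕ) : ℝ) := by push_cast; rfl
      _ ≤ (⌊L⌋₊ : ℝ) := by exact_mod_cast h1
      _ ≤ L := Nat.floor_le hL0.le
  have hK2 : L ≤ 2 * (2 : ℝ) ^ K := by
    have h1 : ⌊L⌋₊ < 2 ^ (K + 1) := by rw [hK]; exact Nat.lt_pow_succ_log_self (by norm_num) _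
    have h2 : ⌊L⌋₊ + 1 ≤ 2 ^ (K + 1) := h1
    calc L ≤ (⌊L⌋₊ : ℝ) + 1 := (Nat.lt_floor_add_one L).le
      _ = ((⌊L⌋₊ + 1 : ℕ) : ℝ) := by push_cast; rfl
      _ ≤ ((2 ^ (K + 1) : ℕ) : ℝ) := by exact_mod_cast h2
      _ = 2 * (2 : ℝ) ^ K := by push_cast; ring
  have hKh : 1 / 2 ≤ 1 / L * 2 ^ K := by
    rw [one_div_mul_eq_div, le_div_iff₀ hL0]
    linarith
  -- the measure of the starting points of zero-free windows
  have hL2 : L / 2 ≤ Real.log (T / 2) := by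
    rw [Real.log_div hT0.ne' (by norm_num), ← hL]
    have := Real.log_two_lt_d9
    linarith
  have hLb : Real.log (2 * T) ≤ 2 * L := by
    rw [Real.log_mul (by norm_num) hT0.ne', ← hL]
    have := Real.log_two_lt_d9
    linarith
  have hvol : ∀ k ∈ Finset.range (K + 1), volume.real {t : ℝ | T / 2 < t ∧ t ≤ 4 * T ∧ Nz t (t + 1 / L * 2 ^ k) = 0} ≤
      24 * C * T * (((k : ℝ) + 2) / 4 ^ k) := by
    intro k hk
    rw [Finset.mem_range] at hk
    have h2k : (0 : ℝ) < 2 ^ k := by positivity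
    have h2k1 : (1 : ℝ) ≤ 2 ^ k := one_le_pow₀ (by norm_num)
    have hkK : (2 : ℝ) ^ k ≤ 2 ^ K := pow_le_pow_right₀ (by norm_num) (by omega)
    obtain ⟨h, hh⟩ : ∃ h : ℝ, h = 1 / L * 2 ^ k := ⟨_, rfl⟩
    rw [← hh]
    have hh0 : 0 < h := by rw [hh]; positivity
    have hh1 : h ≤ 1 := by
      rw [hh, one_div_mul_eq_div, div_le_one hL0]
      linarith
    have hhL : h * L = 2 ^ k := by
      rw [hh]
      field_simp
    have hone : ∀ T' : ℝ, T / 2 ≤ T' → T' ≤ 2 * T → volume.real {t : ℝ | T' < t ∧ t ≤ 2 * T' ∧ Nz t (t + h) = 0} ≤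
        8 * C * T * (((k : ℝ) + 2) / 4 ^ k) := by
      intro T' h1 h2
      have hT'0 : 0 < T' := by linarith
      refine (hT₁ T' (by linarith) h hh0 hh1).trans ?_
      have l1 : L / 2 ≤ Real.log T' := hL2.trans (Real.log_le_log (by linarith) h1)
      have l2 : Real.log T' ≤ 2 * L := (Real.log_le_log hT'0 h2).trans hLb
      have l3 : 2 ^ k / 2 ≤ h * Real.log T' := by
        have := mul_le_mul_of_nonneg_left l1 hh0.le
        linarith
      have l4 : h * Real.log T' ≤ 2 * 2 ^ k := by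
        have := mul_le_mul_of_nonneg_left l2 hh0.le
        linarith
      have l5 : Real.log (2 + h * Real.log T') ≤ (k : ℝ) + 2 := by
        have e1 : (2 : ℝ) + h * Real.log T' ≤ 2 ^ (k + 2) := by
          have e2 : (2 : ℝ) ^ (k + 2) = 4 * 2 ^ k := by ring
          rw [e2]
          linarith
        have e3 : Real.log (2 + h * Real.log T') ≤ Real.log (2 ^ (k + 2)) :=
          Real.log_le_log (by
            have : 0 ≤ h * Real.log T' := le_trans (by positivity) l3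
            linarith) e1
        rw [Real.log_pow] at e3
        push_cast at e3
        have e4 := Real.log_two_lt_d9
        nlinarith [Nat.cast_nonneg (α := ℝ) k]
      have l6 : (2 ^ k / 2 : ℝ) ^ 2 ≤ (h * Real.log T') ^ 2 := pow_le_pow_left₀ (by positivity) l3 2
      have l7 : Real.log (2 + h * Real.log T') / (h * Real.log T') ^ 2 ≤ ((k : ℝ) + 2) / (2 ^ k / 2) ^ 2 := by
        refine div_le_div₀ (by positivity) l5 (by positivity) l6
      have l8 : ((k : ℝ) + 2) / (2 ^ k / 2) ^ 2 = 4 * (((k : ℝ) + 2) / 4 ^ k) := by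
        have : (4 : ℝ) ^ k = 2 ^ k * 2 ^ k := by
          rw [← mul_pow]
          norm_num
        rw [this]
        field_simp
        norm_num
      rw [l8] at l7
      have l9 : 0 ≤ ((k : ℝ) + 2) / 4 ^ k := by positivity
      calc C * (T' * (Real.log (2 + h * Real.log T') / (h * Real.log T') ^ 2)) ≤ C * ((2 * T) * (4 * (((k : ℝ) + 2) / 4 ^ k))) := by
            refine mul_le_mul_of_nonneg_left ?_ hC.le
            refine mul_le_mul h2 l7 ?_ (by positivity)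
            refine div_nonneg (Real.log_nonneg ?_) (sq_nonneg _)
            have : 0 ≤ h * Real.log T' := le_trans (by positivity) l3
            linarith
        _ = _ := by ring
    have hsub : {t : ℝ | T / 2 < t ∧ t ≤ 4 * T ∧ Nz t (t + h) = 0} ⊆
        {t : ℝ | T / 2 < t ∧ t ≤ 2 * (T / 2) ∧ Nz t (t + h) = 0} ∪ ({t : ℝ | T < t ∧ t ≤ 2 * T ∧ Nz t (t + h) = 0} ∪
          {t : ℝ | 2 * T < t ∧ t ≤ 2 * (2 * T) ∧ Nz t (t + h) = 0}) := by
      rintro t ⟨h1, h2, h3⟩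
      rcases le_or_gt t T with h4 | h4
      · exact Or.inl ⟨h1, by linarith, h3⟩
      · rcases le_or_gt t (2 * T) with h5 | h5
        · exact Or.inr (Or.inl ⟨h4, h5, h3⟩)
        · exact Or.inr (Or.inr ⟨h5, by linarith, h3⟩)
    have hfin : ∀ a b : ℝ, volume {t : ℝ | a < t ∧ t ≤ b ∧ Nz t (t + h) = 0} ≠ ⊤ := by
      intro a b
      refine ne_of_lt (lt_of_le_of_lt (measure_mono (t := Set.Icc a b) ?_) (by simp))
      rintro t ⟨h1, h2, -⟩
      exact ⟨h1.le, h2⟩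
    have h1 := measureReal_mono (μ := volume) hsub (by
      rw [Ne, measure_union_eq_top_iff, measure_union_eq_top_iff]
      push Not
      exact ⟨hfin _ _, hfin _ _, hfin _ _⟩)
    refine h1.trans ((measureReal_union_le _ _).trans ((add_le_add le_rfl (measureReal_union_le _ _)).trans ?_))
    have b1 := hone (T / 2) le_rfl (by linarith)
    have b2 := hone T (by linarith) (by linarith)
    have b3 := hone (2 * T) (by linarith) le_rfl
    linarith
  -- the sum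
  have hlay : ∀ m ∈ S, (gam (m + 1) - gam m) ^ 2 ≤ 2 * (1 / L) * (gam (m + 1) - gam m) +
      ∑ k ∈ Finset.range (K + 1), 4 * H₁ * (1 / L * 2 ^ k) *
        (if 2 * (1 / L * 2 ^ k) < gam (m + 1) - gam m then gam (m + 1) - gam m else 0) := by
    intro m hm
    obtain ⟨h1, -, -, h4⟩ := hloc m hm
    have h5 := gam_mono h1 (Nat.le_succ m)
    exact layers (by linarith) (by positivity) hKh (by linarith) h4
  refine (Finset.sum_le_sum hlay).trans ?_
  rw [Finset.sum_add_distrib, ← Finset.mul_sum, Finset.sum_comm]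
  have hs1 : ∑ m ∈ S, (gam (m + 1) - gam m) ≤ 4 * T - T / 2 :=
    sum_gaps (by linarith) S (fun m hm => (hloc m hm).1) (fun m hm => (hloc m hm).2.1) (fun m hm => (hloc m hm).2.2.1)
  have hs2 : ∀ k ∈ Finset.range (K + 1), ∑ m ∈ S, 4 * H₁ * (1 / L * 2 ^ k) *
      (if 2 * (1 / L * 2 ^ k) < gam (m + 1) - gam m then gam (m + 1) - gam m else 0) ≤
      192 * H₁ * C * (T / L) * (((k : ℝ) + 2) / 2 ^ k) := by
    intro k hk
    rw [← Finset.mul_sum]
    have h1 := long_gaps (h := 1 / L * 2 ^ k) (a := T / 2) (b := 4 * T) (by positivity) S (fun m hm => (hloc m hm).1)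
      (fun m hm => (hloc m hm).2.1) (fun m hm => (hloc m hm).2.2.1) (by linarith)
    have h2 := hvol k hk
    calc 4 * H₁ * (1 / L * 2 ^ k) * (∑ m ∈ S, (if 2 * (1 / L * 2 ^ k) < gam (m + 1) - gam m then gam (m + 1) - gam m else 0))
        ≤ 4 * H₁ * (1 / L * 2 ^ k) * (2 * (24 * C * T * (((k : ℝ) + 2) / 4 ^ k))) :=
          mul_le_mul_of_nonneg_left (h1.trans (mul_le_mul_of_nonneg_left h2 (by norm_num))) (by positivity)
      _ = _ := by
          have : (4 : ℝ) ^ k = 2 ^ k * 2 ^ k := by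
            rw [← mul_pow]
            norm_num
          rw [this]
          field_simp
          ring
  have hs3 := Finset.sum_le_sum hs2
  rw [← Finset.mul_sum, sum_k2] at hs3
  have hs4 : (6 : ℝ) - (2 * ((K + 1 : ℕ) : ℝ) + 6) / 2 ^ (K + 1) ≤ 6 := by
    have : 0 ≤ (2 * ((K + 1 : ℕ) : ℝ) + 6) / 2 ^ (K + 1) := by positivity
    linarith
  have hs5 : 192 * H₁ * C * (T / L) * (6 - (2 * ((K + 1 : ℕ) : ℝ) + 6) / 2 ^ (K + 1)) ≤ 192 * H₁ * C * (T / L) * 6 :=
    mul_le_mul_of_nonneg_left hs4 (by positivity)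
  have hs6 : 2 * (1 / L) * ∑ m ∈ S, (gam (m + 1) - gam m) ≤ 8 * (T / L) := by
    calc 2 * (1 / L) * ∑ m ∈ S, (gam (m + 1) - gam m) ≤ 2 * (1 / L) * (4 * T - T / 2) := mul_le_mul_of_nonneg_left hs1 (by positivity)
      _ ≤ 2 * (1 / L) * (4 * T) := mul_le_mul_of_nonneg_left (by linarith) (by positivity)
      _ = _ := by ring
  calc _ ≤ 8 * (T / L) + 192 * H₁ * C * (T / L) * 6 := add_le_add hs6 (hs3.trans hs5)
    _ = _ := by ring

/-- counting gaps by the measure of the points in them -/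
theorem count_gap : ∃ C : ℝ, 0 < C ∧ ∀ᶠ T : ℝ in atTop, ∀ E : Set ℝ, (∀ t ∈ E, T < t ∧ t ≤ 2 * T) →
    volume.real E ^ 2 * Real.log T ≤ C * T * ((NZ '' E).ncard : ℝ) := by
  classical
  obtain ⟨H₁, T₀, hH₁, hT₀, hg⟩ := maxgap
  obtain ⟨C, hC, hz⟩ := gap2
  refine ⟨C, hC, ?_⟩
  filter_upwards [hz, eventually_ge_atTop (T₀ + H₁ + 16)] with T hz hT E hE
  have hT0 : 0 < T := by linarith
  have hL0 : 0 < Real.log T := Real.log_pos (by linarith)
  have hfin : (NZ '' E).Finite := by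
    refine (Set.finite_Icc (NZ T) (NZ (2 * T))).subset ?_
    rintro m ⟨t, ht, rfl⟩
    exact ⟨NZ_mono (hE t ht).1.le, NZ_mono (hE t ht).2⟩
  set S := hfin.toFinset with hS
  have hcard : (NZ '' E).ncard = S.card := Set.ncard_eq_toFinset_card _ hfin
  have hS1 : ∀ m ∈ S, ∃ t : ℝ, T < t ∧ t ≤ 2 * T ∧ NZ t = m := by
    intro m hm
    rw [hS, Set.Finite.mem_toFinset] at hm
    obtain ⟨t, ht, h1⟩ := hm
    exact ⟨t, (hE t ht).1, (hE t ht).2, h1⟩
  have h1 := hz S hS1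
  have hone : ∀ t ∈ E, 1 ≤ NZ t := fun t ht => (gap_loc hH₁ hT₀ hg (t := t) (by linarith [(hE t ht).1])).1
  have hSone : ∀ m ∈ S, 1 ≤ m := by
    intro m hm
    rw [hS, Set.Finite.mem_toFinset] at hm
    obtain ⟨t, ht, rfl⟩ := hm
    exact hone t ht
  have h2 : volume.real E ≤ ∑ m ∈ S, (gam (m + 1) - gam m) := by
    have h3 : E ⊆ ⋃ m ∈ S, Set.Ico (gam m) (gam (m + 1)) := by
      intro t ht
      rw [Set.mem_iUnion₂]
      refine ⟨NZ t, by rw [hS, Set.Finite.mem_toFinset]; exact ⟨t, ht, rfl⟩, ?_⟩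
      exact mem_gap (hone t ht)
    have h4 := (measure_mono (μ := volume) h3).trans (measure_biUnion_finset_le S _)
    have h5 : ∑ m ∈ S, volume (Set.Ico (gam m) (gam (m + 1))) ≠ ⊤ := by
      refine ENNReal.sum_ne_top.2 fun m _ => ?_
      rw [Real.volume_Ico]
      exact ENNReal.ofReal_ne_top
    have h6 := ENNReal.toReal_mono h5 h4
    rw [ENNReal.toReal_sum (fun m _ => by rw [Real.volume_Ico]; exact ENNReal.ofReal_ne_top)] at h6
    rw [measureReal_def]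
    refine h6.trans (le_of_eq (Finset.sum_congr rfl fun m hm => ?_))
    rw [Real.volume_Ico, ENNReal.toReal_ofReal]
    have := gam_mono (hSone m hm) (Nat.le_succ m)
    linarith
  have h3 : (∑ m ∈ S, (gam (m + 1) - gam m)) ^ 2 ≤ S.card * ∑ m ∈ S, (gam (m + 1) - gam m) ^ 2 := sq_sum_le_card_mul_sum_sq
  rw [hcard]
  have h4 : volume.real E ^ 2 ≤ (∑ m ∈ S, (gam (m + 1) - gam m)) ^ 2 := pow_le_pow_left₀ measureReal_nonneg h2 2
  have h5 : volume.real E ^ 2 ≤ S.card * (C * (T / Real.log T)) :=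
    h4.trans (h3.trans (mul_le_mul_of_nonneg_left h1 (Nat.cast_nonneg _)))
  calc volume.real E ^ 2 * Real.log T ≤ S.card * (C * (T / Real.log T)) * Real.log T := mul_le_mul_of_nonneg_right h5 hL0.le
    _ = C * T * (S.card : ℝ) := by field_simp

end

end Pool.Agent.U761.SZ
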