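import Pool.Agent.U761.SZ.WPR

set_option autoImplicit false

/-!
U761.SZ: large deviations of `log ζ(1/2 + i(t+h)) - log ζ(1/2 + it)`.
-/

namespace Pool.Agent.U761.SZ

open Filter Topology MeasureTheory Complex
open Pool.Agent.Q97.UM Pool.Agent.Q247.UM Pool.Agent.Q241.UM
open Pool.Agent.Q149.UM (Z3 Z3_nonneg)

noncomputable section

/-- the number of blocks and the logarithm -/
theorem logM {A : ℝ} (hA : 1 ≤ A) : ∃ c : ℝ, 0 < c ∧ ∀ y : ℝ, A ≤ y → ∀ M : ℕ, M = ⌊y / A⌋₊ → 1 ≤ M ∧ c * Real.log (2 + y) ≤ Real.log (M + 1) := by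
  have hl2 := Real.log_pos one_lt_two
  have hA0 : 0 < A := by linarith
  have hB : 0 < Real.log (2 + 2 * A ^ 2) := Real.log_pos (by nlinarith)
  refine ⟨min (1 / 2) (Real.log 2 / Real.log (2 + 2 * A ^ 2)), by positivity, fun y hy M hM => ?_⟩
  have hy0 : 0 < y := by linarith
  have h1 : (1 : ℝ) ≤ y / A := by rwa [le_div_iff₀ hA0, one_mul]
  have hM1 : 1 ≤ M := by rw [hM]; exact Nat.le_floor (by exact_mod_cast h1)
  have hM2 : y / A < M + 1 := by rw [hM]; exact Nat.lt_floor_add_one _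
  refine ⟨hM1, ?_⟩
  have hly : 0 < Real.log (2 + y) := Real.log_pos (by linarith)
  rcases le_total (2 * A ^ 2) y with hc | hc
  · have h2 : min (1 / 2) (Real.log 2 / Real.log (2 + 2 * A ^ 2)) * Real.log (2 + y) ≤ 1 / 2 * Real.log (2 + y) :=
      mul_le_mul_of_nonneg_right (min_le_left _ _) hly.le
    refine h2.trans ?_
    have h3 : 2 + y ≤ (y / A) ^ 2 := by
      rw [div_pow, le_div_iff₀ (by positivity)]
      have h4 : 2 + y ≤ 2 * y := by nlinarith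
      calc (2 + y) * A ^ 2 ≤ 2 * y * A ^ 2 := mul_le_mul_of_nonneg_right h4 (by positivity)
        _ = y * (2 * A ^ 2) := by ring
        _ ≤ y * y := mul_le_mul_of_nonneg_left hc hy0.le
        _ = y ^ 2 := by ring
    have h5 := Real.log_le_log (by linarith) h3
    rw [Real.log_pow] at h5
    push_cast at h5
    have h6 := Real.log_le_log (by positivity) hM2.le
    linarith
  · have h2 : min (1 / 2) (Real.log 2 / Real.log (2 + 2 * A ^ 2)) * Real.log (2 + y) ≤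
        Real.log 2 / Real.log (2 + 2 * A ^ 2) * Real.log (2 + y) :=
      mul_le_mul_of_nonneg_right (min_le_right _ _) hly.le
    refine h2.trans ?_
    have h3 : Real.log (2 + y) ≤ Real.log (2 + 2 * A ^ 2) := Real.log_le_log (by linarith) (by linarith)
    have h4 : Real.log 2 / Real.log (2 + 2 * A ^ 2) * Real.log (2 + y) ≤ Real.log 2 := by
      rw [div_mul_eq_mul_div, div_le_iff₀ hB]
      exact mul_le_mul_of_nonneg_left h3 hl2.le
    refine h4.trans (Real.log_le_log two_pos ?_)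
    have : (1 : ℝ) ≤ M := by exact_mod_cast hM1
    linarith

/-- large deviations of the difference of the complex logarithm of zeta at distance `h` -/
theorem ldw : ∃ c K C C₀ : ℝ, 0 < c ∧ 0 < K ∧ 0 < C ∧ 0 < C₀ ∧ ∀ᶠ T : ℝ in atTop, ∀ h : ℝ, C₀ / Real.log T ≤ h →
    h ≤ 1 / Real.log (Real.log T) → ∀ z : ℂ, ‖z‖ ≤ c * Real.sqrt (h * Real.log T) →
      T * Real.exp (-(C * (1 + ‖z‖ ^ 2 / Real.log (2 + h * Real.log T / (1 + ‖z‖ ^ 2))))) ≤
        (volume {t : ℝ | T < t ∧ t ≤ 2 * T ∧ ‖(Lz (t + h) - Lz t) - z‖ ^ 2 ≤ K * Real.log (2 + h * Real.log T)}).toReal := by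
  classical
  obtain ⟨θ₁, δ₀, hθ₁, hδ₀, hTHH⟩ := THH 2
  obtain ⟨δ, hδd⟩ : ∃ δ : ℝ, δ = min δ₀ (1 / 16) := ⟨_, rfl⟩
  have hδ : 0 < δ := by rw [hδd]; positivity
  have hδ1 : δ ≤ δ₀ := by rw [hδd]; exact min_le_left _ _
  have hδ2 : δ ≤ 1 / 16 := by rw [hδd]; exact min_le_right _ _
  obtain ⟨θ, hθd⟩ : ∃ θ : ℝ, θ = min θ₁ δ := ⟨_, rfl⟩
  have hθ : 0 < θ := by rw [hθd]; positivity
  have hθ1 : θ ≤ θ₁ := by rw [hθd]; exact min_le_left _ _
  have hθδ : θ ≤ δ := by rw [hθd]; exact min_le_right _ _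
  obtain ⟨C₁, hC₁, hTHH⟩ := hTHH δ hδ hδ1
  obtain ⟨Cv, hCv, hsv⟩ := sum_vh
  obtain ⟨h₀, hh₀, hh₀1, hPM⟩ := PM_sum
  obtain ⟨A, hAd⟩ : ∃ A : ℝ, A = 30000 / θ := ⟨_, rfl⟩
  have hA0 : 0 < A := by rw [hAd]; positivity
  have hA1 : 30000 ≤ A := by
    rw [hAd, le_div_iff₀ hθ]
    linarith
  obtain ⟨cM, hcM, hlogM⟩ := logM (by linarith : 1 ≤ A)
  have hZ := Z3_nonneg
  have hl2 := Real.log_pos one_lt_two
  have hl2' := Real.log_two_gt_d9
  -- the constants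
  obtain ⟨c, hcd⟩ : ∃ c : ℝ, c = Real.sqrt (1 / (2 * A)) := ⟨_, rfl⟩
  have hc0 : 0 < c := by rw [hcd]; positivity
  have hc2 : c ^ 2 = 1 / (2 * A) := by rw [hcd, Real.sq_sqrt (by positivity)]
  obtain ⟨E₀, hE₀⟩ : ∃ E₀ : ℝ, E₀ = 3 * (3 * (2 * C₁ + 2 * (8 / 3 * Z3) ^ 2) + 20 * Cv + 2) := ⟨_, rfl⟩
  have hE₀0 : 0 < E₀ := by rw [hE₀]; positivity
  refine ⟨c, 4 * (E₀ / Real.log 2 + E₀), 512 / cM + 4, 2 * A, hc0, by positivity, by positivity, by positivity, ?_⟩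
  filter_upwards [hTHH, growth2 δ hδ, (Real.tendsto_log_atTop.comp Real.tendsto_log_atTop).eventually_ge_atTop (1 / h₀)]
    with T hTHH hgr hh₀T h hhlo hhhi z hz
  obtain ⟨hT16, hX3, hll, hL3⟩ := hgr
  have hT0 : 0 < T := by linarith
  have hT1 : 1 ≤ T := by linarith
  obtain ⟨L, hL⟩ : ∃ L : ℝ, L = Real.log T := ⟨_, rfl⟩
  rw [← hL] at hhlo hhhi hz hll hL3 ⊢
  have hL0 : 0 < L := by linarith
  simp only [Function.comp] at hh₀T
  rw [← hL] at hh₀T
  have hll0 : 0 < Real.log L := by linarith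
  have hh0 : 0 < h := lt_of_lt_of_le (by positivity) hhlo
  have hh1 : h ≤ 1 := hhhi.trans (by rw [div_le_one hll0]; exact hll)
  have hhh₀ : h ≤ h₀ := by
    refine hhhi.trans ?_
    rw [div_le_iff₀ hll0]
    rw [div_le_iff₀ hh₀] at hh₀T
    linarith
  obtain ⟨H, hH⟩ : ∃ H : ℝ, H = h * L := ⟨_, rfl⟩
  rw [← hH] at hz ⊢
  have hHA : 2 * A ≤ H := by
    rw [hH]
    rwa [div_le_iff₀ hL0] at hhlo
  have hH0 : 0 < H := by linarith
  have hHL : H ≤ L := by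
    rw [hH]
    nlinarith
  obtain ⟨V, hV⟩ : ∃ V : ℝ, V = ‖z‖ := ⟨_, rfl⟩
  have hV0 : 0 ≤ V := by rw [hV]; exact norm_nonneg _
  rw [← hV] at hz ⊢
  have hV2 : V ^ 2 ≤ H / (2 * A) := by
    have h1 := pow_le_pow_left₀ hV0 hz 2
    rw [mul_pow, Real.sq_sqrt hH0.le, hc2] at h1
    calc V ^ 2 ≤ 1 / (2 * A) * H := h1
      _ = _ := by ring
  obtain ⟨y, hy⟩ : ∃ y : ℝ, y = H / (1 + V ^ 2) := ⟨_, rfl⟩
  rw [← hy]
  have hV1 : 0 < 1 + V ^ 2 := by positivity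
  have hAy : A ≤ y := by
    rw [hy, le_div_iff₀ hV1]
    have h1 : V ^ 2 * (2 * A) ≤ H := (le_div_iff₀ (by positivity : (0 : ℝ) < 2 * A)).1 hV2
    have h2 : A * (1 + V ^ 2) = A + (V ^ 2 * (2 * A)) / 2 := by ring
    rw [h2]
    linarith
  obtain ⟨M, hM⟩ : ∃ M : ℕ, M = ⌊y / A⌋₊ := ⟨_, rfl⟩
  obtain ⟨hM1, hMl⟩ := hlogM y hAy M hM
  have hMy : (M : ℝ) * (A * (1 + V ^ 2)) ≤ H := by
    have h1 : (M : ℝ) ≤ y / A := by
      rw [hM]
      exact Nat.floor_le (div_nonneg (hA0.le.trans hAy) hA0.le)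
    calc (M : ℝ) * (A * (1 + V ^ 2)) ≤ y / A * (A * (1 + V ^ 2)) := mul_le_mul_of_nonneg_right h1 (by positivity)
      _ = H := by
        rw [hy]
        field_simp
  have hly2 : 0 < Real.log (2 + y) := Real.log_pos (by linarith)
  -- the primes
  obtain ⟨P, hPd⟩ : ∃ P : Finset ℕ, P = PM h M := ⟨_, rfl⟩
  have hPp : ∀ p ∈ P, p.Prime := fun p hp => (PM_mem hh0 (by rwa [hPd] at hp)).1
  obtain ⟨G, hG⟩ : ∃ G : ℝ, G = ∑ p ∈ P, ‖vh h p‖ ^ 2 / (p : ℝ) := ⟨_, rfl⟩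
  have hGl : Real.log (M + 1) / 32 ≤ G := by
    rw [hG, hPd]
    exact hPM h hh0 hhh₀ M
  have hG50 : 1 / 50 ≤ G := by
    have h1 : Real.log 2 ≤ Real.log ((M : ℝ) + 1) := by
      refine Real.log_le_log two_pos ?_
      have : (1 : ℝ) ≤ M := by exact_mod_cast hM1
      linarith
    linarith
  have hG0 : 0 < G := by linarith
  have hGc : cM * Real.log (2 + y) / 32 ≤ G := by linarith
  -- the coefficients
  obtain ⟨s, hs⟩ : ∃ s : ℕ → ℂ, s = fun n => z * (starRingEnd ℂ) (vh h n) / (G : ℂ) := ⟨_, rfl⟩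
  have hsn : ∀ n, ‖s n‖ = V * ‖vh h n‖ / G := by
    intro n
    rw [hs]
    show ‖z * (starRingEnd ℂ) (vh h n) / (G : ℂ)‖ = _
    rw [norm_div, norm_mul, RCLike.norm_conj, norm_real, Real.norm_of_nonneg hG0.le, hV]
  have hlogp : ∀ p ∈ P, L ≤ (p : ℝ) := by
    intro p hp
    obtain ⟨q1, q2, -, -⟩ := PM_mem hh0 (by rwa [hPd] at hp : p ∈ PM h M)
    have hp0 : (0 : ℝ) < p := by exact_mod_cast q1.pos
    have h1 : Real.log L ≤ Real.log p := by
      have h2 : 1 / h ≤ Real.log p := by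
        rw [div_le_iff₀ hh0]
        linarith
      refine le_trans ?_ h2
      rw [le_div_iff₀ hh0]
      have := mul_le_mul_of_nonneg_left hhhi hll0.le
      rwa [mul_one_div_cancel hll0.ne'] at this
    exact (Real.log_le_log_iff hL0 hp0).1 h1
  have hs4 : ∀ p ∈ P, 4 * ‖s p‖ ^ 2 ≤ (p : ℝ) := by
    intro p hp
    refine le_trans ?_ (hlogp p hp)
    have hp1 : 1 ≤ p := (hPp p hp).one_lt.le
    have h1 : ‖s p‖ ≤ 100 * V := by
      rw [hsn, div_le_iff₀ hG0]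
      have h2 := vh_le2 h hp1
      calc V * ‖vh h p‖ ≤ V * 2 := mul_le_mul_of_nonneg_left h2 hV0
        _ = 100 * V * (1 / 50) := by ring
        _ ≤ 100 * V * G := mul_le_mul_of_nonneg_left hG50 (by positivity)
    have h2 : ‖s p‖ ^ 2 ≤ 10000 * V ^ 2 := by
      calc ‖s p‖ ^ 2 ≤ (100 * V) ^ 2 := pow_le_pow_left₀ (norm_nonneg _) h1 2
        _ = _ := by ring
    have h3 : V ^ 2 ≤ L / 60000 := by
      refine hV2.trans ?_
      rw [div_le_div_iff₀ (by positivity) (by norm_num)]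
      have : H * 60000 ≤ L * 60000 := by linarith
      have h4 : L * 60000 ≤ L * (2 * A) := mul_le_mul_of_nonneg_left (by linarith) hL0.le
      linarith
    linarith
  have hPp0 : ∀ p ∈ P, 0 < p := fun p hp => (hPp p hp).pos
  have hAA : AA (rho s) (vh h) P = z := by
    rw [AA_rho hPp0 hs4]
    have h1 : ∀ p ∈ P, vh h p * s p / (p : ℂ) = z / (G : ℂ) * ((‖vh h p‖ ^ 2 / (p : ℝ) : ℝ) : ℂ) := by
      intro p _
      rw [hs]
      show vh h p * (z * (starRingEnd ℂ) (vh h p) / (G : ℂ)) / (p : ℂ) = _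
      have h2 : vh h p * (starRingEnd ℂ) (vh h p) = ((‖vh h p‖ ^ 2 : ℝ) : ℂ) := by
        rw [Complex.mul_conj, Complex.normSq_eq_norm_sq]
      calc vh h p * (z * (starRingEnd ℂ) (vh h p) / (G : ℂ)) / (p : ℂ) = z / (G : ℂ) * (vh h p * (starRingEnd ℂ) (vh h p)) / (p : ℂ) := by ring
        _ = _ := by
          rw [h2]
          push_cast
          ring
    rw [Finset.sum_congr rfl h1, ← Finset.mul_sum, ← Complex.ofReal_sum, ← hG]
    have hGc' : (G : ℂ) ≠ 0 := by exact_mod_cast hG0.ne'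
    field_simp
  have hxw : ∑ p ∈ P, xw (rho s) p ≤ 4 * (V ^ 2 / G) := by
    calc ∑ p ∈ P, xw (rho s) p ≤ ∑ p ∈ P, 4 * (V / G) ^ 2 * (‖vh h p‖ ^ 2 / (p : ℝ)) := by
          refine Finset.sum_le_sum fun p _ => (xw_rho s p).trans (le_of_eq ?_)
          rw [hsn]
          ring
      _ = 4 * (V ^ 2 / G) := by
          rw [← Finset.mul_sum, ← hG]
          field_simp
  -- the truncation
  obtain ⟨K, hK⟩ : ∃ K : ℕ, K = ⌊40 * (V ^ 2 / G)⌋₊ + 1 := ⟨_, rfl⟩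
  have hK1 : 1 ≤ K := by rw [hK]; omega
  have hKge : 40 * (V ^ 2 / G) ≤ K := by
    rw [hK]
    push_cast
    exact (Nat.lt_floor_add_one _).le
  have hKle : (K : ℝ) ≤ 2000 * (1 + V ^ 2) := by
    have h1 : ((⌊40 * (V ^ 2 / G)⌋₊ : ℕ) : ℝ) ≤ 40 * (V ^ 2 / G) := Nat.floor_le (by positivity)
    have h2 : V ^ 2 / G ≤ 50 * V ^ 2 := by
      rw [div_le_iff₀ hG0]
      calc V ^ 2 = 50 * V ^ 2 * (1 / 50) := by ring
        _ ≤ 50 * V ^ 2 * G := mul_le_mul_of_nonneg_left hG50 (by positivity)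
    rw [hK]
    push_cast
    linarith
  have hK10 : 10 * ∑ p ∈ P, xw (rho s) p ≤ K := by linarith
  -- the length
  obtain ⟨N, hN⟩ : ∃ N : ℕ, N = ⌊T ^ θ⌋₊ := ⟨_, rfl⟩
  have hNT : (N : ℝ) ≤ T ^ θ := by rw [hN]; exact Nat.floor_le (by positivity)
  have hexpT : ∀ e : ℝ, Real.exp (e * L) = T ^ e := by
    intro e
    rw [hL, Real.rpow_def_of_pos hT0, mul_comm]
  have hprod : ∀ S ∈ P.powerset, S.card ≤ K → ∏ p ∈ S, p ≤ N := by
    intro S hS hc
    have hSP := Finset.mem_powerset.1 hS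
    rw [hN]
    refine Nat.le_floor ?_
    push_cast
    have hpi := Real.pi_lt_d2
    have hpi0 := Real.pi_pos
    have h1 : ∀ p ∈ S, (p : ℝ) ≤ Real.exp (2 * Real.pi * M / h) := by
      intro p hp
      obtain ⟨q1, -, q3, -⟩ := PM_mem hh0 (by rw [← hPd]; exact hSP hp : p ∈ PM h M)
      have hp0 : (0 : ℝ) < p := by exact_mod_cast q1.pos
      rw [← Real.exp_log hp0]
      refine Real.exp_le_exp.2 ?_
      rw [le_div_iff₀ hh0]
      linarith
    calc ∏ p ∈ S, (p : ℝ) ≤ ∏ _p ∈ S, Real.exp (2 * Real.pi * M / h) :=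
          Finset.prod_le_prod (fun p _ => Nat.cast_nonneg p) h1
      _ = Real.exp (2 * Real.pi * M / h) ^ S.card := by rw [Finset.prod_const]
      _ ≤ Real.exp (2 * Real.pi * M / h) ^ K := by
          refine pow_le_pow_right₀ (Real.one_le_exp (by positivity)) hc
      _ = Real.exp (K * (2 * Real.pi * M / h)) := by rw [← Real.exp_nat_mul]
      _ ≤ Real.exp (θ * L) := by
          refine Real.exp_le_exp.2 ?_
          have h2 : (K : ℝ) * (2 * Real.pi * M) ≤ θ * H := by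
            have h3 : (K : ℝ) * (2 * Real.pi * M) ≤ 2000 * (1 + V ^ 2) * (2 * 3.15 * M) := by
              refine mul_le_mul hKle ?_ (by positivity) (by positivity)
              exact mul_le_mul_of_nonneg_right (by linarith) (Nat.cast_nonneg _)
            have h4 : θ * A = 30000 := by rw [hAd]; field_simp
            have h5 : θ * ((M : ℝ) * (A * (1 + V ^ 2))) ≤ θ * H := mul_le_mul_of_nonneg_left hMy hθ.le
            have h6 : θ * ((M : ℝ) * (A * (1 + V ^ 2))) = 30000 * ((M : ℝ) * (1 + V ^ 2)) := by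
              calc θ * ((M : ℝ) * (A * (1 + V ^ 2))) = (θ * A) * ((M : ℝ) * (1 + V ^ 2)) := by ring
                _ = _ := by rw [h4]
            have h7 : 0 ≤ (M : ℝ) * (1 + V ^ 2) := by positivity
            have h8 : 2000 * (1 + V ^ 2) * (2 * 3.15 * M) = 12600 * ((M : ℝ) * (1 + V ^ 2)) := by ring
            rw [h8] at h3
            rw [h6] at h5
            linarith
          rw [← mul_div_assoc, div_le_iff₀ hh0]
          calc (K : ℝ) * (2 * Real.pi * M) ≤ θ * H := h2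
            _ = θ * L * h := by rw [hH]; ring
      _ = T ^ θ := hexpT θ
  have hN1 : 1 ≤ N := by
    have := hprod ∅ (Finset.empty_mem_powerset P) (by simp)
    simpa using this
  -- the resonator
  obtain ⟨r, hr⟩ : ∃ r : ℕ → ℂ, r = rg P K (rho s) := ⟨_, rfl⟩
  have hrN : ∀ n, r n ≠ 0 → 1 ≤ n ∧ n ≤ N := by
    intro n hn
    rw [hr] at hn
    obtain ⟨⟨h3, h4⟩, h5⟩ := rg_ne hn
    have h6 := hprod n.primeFactors (Finset.mem_powerset.2 h4) h5
    rw [Nat.prod_primeFactors_of_squarefree h3] at h6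
    exact ⟨Nat.one_le_iff_ne_zero.2 h3.ne_zero, h6⟩
  have hn1 : 1 ≤ N2 N r := by rw [hr]; exact one_le_N2g hN1
  obtain ⟨X, hX⟩ : ∃ X : ℕ, X = ⌊T ^ δ⌋₊ := ⟨_, rfl⟩
  rw [← hX] at hX3
  have hXle : (X : ℝ) ≤ T ^ δ := by rw [hX]; exact Nat.floor_le (by positivity)
  have hX1 : 1 ≤ X := by omega
  have hPX : ∀ p ∈ P, p ≤ X := by
    intro p hp
    have h1 : ∏ q ∈ ({p} : Finset ℕ), q ≤ N := hprod {p} (by
      rw [Finset.mem_powerset, Finset.singleton_subset_iff]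
      exact hp) (by rw [Finset.card_singleton]; exact hK1)
    rw [Finset.prod_singleton] at h1
    have h2 : (p : ℝ) ≤ T ^ δ := by
      calc (p : ℝ) ≤ N := by exact_mod_cast h1
        _ ≤ T ^ θ := hNT
        _ ≤ T ^ δ := Real.rpow_le_rpow_of_exponent_le hT1 hθδ
    rw [hX]
    exact Nat.le_floor h2
  have hXT : (X : ℝ) ≤ T := hXle.trans (by
    calc T ^ δ ≤ T ^ (1 : ℝ) := Real.rpow_le_rpow_of_exponent_le hT1 (by linarith)
      _ = T := Real.rpow_one T)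
  have hT4 : ∀ {M : ℕ} {e : ℝ}, (M : ℝ) ≤ T ^ e → e ≤ 1 / 4 → (M : ℝ) ≤ T ^ (1 / 4 : ℝ) := fun h1 h2 =>
    h1.trans (Real.rpow_le_rpow_of_exponent_le hT1 h2)
  have hXN : ((X * N : ℕ) : ℝ) ≤ T ^ (1 / 4 : ℝ) := by
    refine hT4 (e := δ + θ) ?_ (by linarith)
    push_cast
    rw [Real.rpow_add hT0]
    exact mul_le_mul hXle hNT (Nat.cast_nonneg _) (by positivity)
  have hX2N : ((X ^ 2 * N : ℕ) : ℝ) ≤ T ^ (1 / 4 : ℝ) := by
    refine hT4 (e := δ + δ + θ) ?_ (by linarith)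
    push_cast
    rw [Real.rpow_add hT0, Real.rpow_add hT0, sq]
    exact mul_le_mul (mul_le_mul hXle hXle (Nat.cast_nonneg _) (by positivity)) hNT (Nat.cast_nonneg _) (by positivity)
  have hNT4 : (N : ℝ) ≤ T ^ (1 / 4 : ℝ) := hT4 hNT (by linarith)
  have hNθ₁ : (N : ℝ) ≤ T ^ θ₁ := hNT.trans (Real.rpow_le_rpow_of_exponent_le hT1 hθ1)
  -- the two approximations
  obtain ⟨a1, a2⟩ := hTHH h (by rw [abs_of_pos hh0]; linarith) N hNθ₁ r
  obtain ⟨b1, b2⟩ := hTHH 0 (by rw [abs_zero]; linarith) N hNθ₁ r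
  rw [← hX] at a1 a2 b1 b2
  simp only [add_zero] at b1 b2
  have hMV : S_MVL := Pool.Agent.Q84.UM.t_MVL
  have I3 : ∫ t in T..(2 * T), ‖dp N r t‖ ^ 2 ≤ 2 * T * N2 N r := (hMV T hT16 N hNT4 r).2
  set F : ℝ → ℂ := fun t => Lz (t + h) - Lz t with hF
  have hFm : Measurable F := (Lz_meas.comp (measurable_id.add_const h)).sub Lz_meas
  set u : ℕ → ℂ := fun n => vh h n / 2 with hu
  have hu1 : ∀ n, ‖u n‖ ≤ 1 := by
    intro n
    simp only [hu]
    rw [norm_div, Complex.norm_ofNat, div_le_one (by norm_num)]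
    unfold vh
    refine (norm_sub_le _ _).trans ?_
    rw [norm_one]
    linarith [ph'_le h n]
  have hpt : ∀ t, ‖F t - dp X (pv X (vh h)) t - dp (X ^ 2) (sv X u) t‖ ^ 2 * ‖dp N r t‖ ^ 2 ≤
      3 * (‖Lz (t + h) - LE X (t + h)‖ ^ 2 * ‖dp N r t‖ ^ 2 + ‖Lz t - LE X t‖ ^ 2 * ‖dp N r t‖ ^ 2 + (8 / 3 * Z3) ^ 2 * ‖dp N r t‖ ^ 2) := by
    intro t
    have h1 := LE_sh X h t
    have h2 := LE_sh X 0 t
    rw [add_zero] at h2
    have e1 : dp X (pv X (vh h)) t = dp X (pv X (ph' h)) t - dp X (pv X (ph' 0)) t := by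
      unfold dp pv vh
      rw [← Finset.sum_sub_distrib]
      refine Finset.sum_congr rfl fun n _ => ?_
      rw [ph'_zero]
      ring
    have e2 : dp (X ^ 2) (sv X u) t = dp (X ^ 2) (sv X (fun n => ph' h n / 2)) t - dp (X ^ 2) (sv X (fun n => ph' 0 n / 2)) t := by
      unfold dp sv
      rw [← Finset.sum_sub_distrib]
      refine Finset.sum_congr rfl fun n _ => ?_
      show sqc X n * ((ph' h n - 1) / 2) * (n : ℂ) ^ (-(1 / 2 + t * I)) =
        sqc X n * (ph' h n / 2) * (n : ℂ) ^ (-(1 / 2 + t * I)) - sqc X n * (ph' 0 n / 2) * (n : ℂ) ^ (-(1 / 2 + t * I))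
      rw [ph'_zero]
      ring
    have h3 : ‖F t - dp X (pv X (vh h)) t - dp (X ^ 2) (sv X u) t‖ ≤ ‖Lz (t + h) - LE X (t + h)‖ + ‖Lz t - LE X t‖ + 8 / 3 * Z3 := by
      have e : F t - dp X (pv X (vh h)) t - dp (X ^ 2) (sv X u) t = (Lz (t + h) - LE X (t + h)) - (Lz t - LE X t) +
          ((LE X (t + h) - dp X (pv X (ph' h)) t - dp (X ^ 2) (sv X (fun n => ph' h n / 2)) t) -
          (LE X t - dp X (pv X (ph' 0)) t - dp (X ^ 2) (sv X (fun n => ph' 0 n / 2)) t)) := by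
        rw [e1, e2]
        simp only [hF]
        ring
      rw [e]
      refine (norm_add_le _ _).trans (add_le_add (norm_sub_le _ _) ((norm_sub_le _ _).trans ?_))
      linarith
    have h4 : ‖F t - dp X (pv X (vh h)) t - dp (X ^ 2) (sv X u) t‖ ^ 2 ≤
        3 * (‖Lz (t + h) - LE X (t + h)‖ ^ 2 + ‖Lz t - LE X t‖ ^ 2 + (8 / 3 * Z3) ^ 2) := by
      refine (pow_le_pow_left₀ (norm_nonneg _) h3 2).trans ?_
      generalize ‖Lz (t + h) - LE X (t + h)‖ = a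
      generalize ‖Lz t - LE X t‖ = b
      generalize 8 / 3 * Z3 = c
      nlinarith [sq_nonneg (a - b), sq_nonneg (a - c), sq_nonneg (b - c)]
    have h5 := mul_le_mul_of_nonneg_right h4 (sq_nonneg ‖dp N r t‖)
    refine h5.trans (le_of_eq ?_)
    ring
  have cB : Continuous fun t => ‖dp N r t‖ ^ 2 := (dp_cont N r).norm.pow 2
  have hint : IntervalIntegrable (fun t => 3 * (‖Lz (t + h) - LE X (t + h)‖ ^ 2 * ‖dp N r t‖ ^ 2 + ‖Lz t - LE X t‖ ^ 2 * ‖dp N r t‖ ^ 2 +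
      (8 / 3 * Z3) ^ 2 * ‖dp N r t‖ ^ 2)) volume T (2 * T) :=
    ((a1.add b1).add ((cB.const_mul _).intervalIntegrable _ _)).const_mul 3
  have hmeas : Measurable fun t => ‖F t - dp X (pv X (vh h)) t - dp (X ^ 2) (sv X u) t‖ ^ 2 * ‖dp N r t‖ ^ 2 :=
    (((((hFm.sub (dp_cont X _).measurable).sub (dp_cont _ _).measurable)).norm).pow_const 2).mul cB.measurable
  have hI : IntervalIntegrable (fun t => ‖F t - dp X (pv X (vh h)) t - dp (X ^ 2) (sv X u) t‖ ^ 2 * ‖dp N r t‖ ^ 2) volume T (2 * T) := by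
    refine hint.mono_fun' hmeas.aestronglyMeasurable (Eventually.of_forall fun t => ?_)
    show ‖‖F t - dp X (pv X (vh h)) t - dp (X ^ 2) (sv X u) t‖ ^ 2 * ‖dp N r t‖ ^ 2‖ ≤ _
    rw [Real.norm_of_nonneg (by positivity)]
    exact hpt t
  have hb : ∫ t in T..(2 * T), ‖F t - dp X (pv X (vh h)) t - dp (X ^ 2) (sv X u) t‖ ^ 2 * ‖dp N r t‖ ^ 2 ≤
      3 * (2 * C₁ + 2 * (8 / 3 * Z3) ^ 2) * (T * N2 N r) := by
    have h1 := intervalIntegral.integral_mono_on (by linarith) hI hint fun t _ => hpt t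
    refine h1.trans ?_
    rw [intervalIntegral.integral_const_mul, intervalIntegral.integral_add (a1.add b1) ((cB.const_mul _).intervalIntegrable _ _),
      intervalIntegral.integral_add a1 b1, intervalIntegral.integral_const_mul]
    have h2 : (8 / 3 * Z3) ^ 2 * ∫ t in T..(2 * T), ‖dp N r t‖ ^ 2 ≤ (8 / 3 * Z3) ^ 2 * (2 * T * N2 N r) :=
      mul_le_mul_of_nonneg_left I3 (by positivity)
    have e1 : 3 * (2 * C₁ + 2 * (8 / 3 * Z3) ^ 2) * (T * N2 N r) = 3 * (C₁ * T * N2 N r + C₁ * T * N2 N r + (8 / 3 * Z3) ^ 2 * (2 * T * N2 N r)) := by ring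
    rw [e1]
    linarith
  rw [hr] at hI hb
  obtain ⟨c1, c2⟩ := resG hT16 hX1 hXN hX2N hPp hPX hK1 hK10 hprod hu1 hFm hI hb
  rw [hAA, ← hr] at c1 c2
  -- the size of the variance
  have hVar : 3 * (3 * (2 * C₁ + 2 * (8 / 3 * Z3) ^ 2) + 20 * (∑ p ∈ (Finset.Icc 1 X).filter Nat.Prime, ‖vh h p‖ ^ 2 / (p : ℝ)) + 2) ≤
      (E₀ / Real.log 2 + E₀) * Real.log (2 + H) := by
    have h1 := hsv h hh0 hh1 X hX3
    have h2 : Real.log (2 + h * Real.log X) ≤ Real.log (2 + H) := by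
      refine Real.log_le_log (by
        have : 0 ≤ h * Real.log X := mul_nonneg hh0.le (Real.log_natCast_nonneg X)
        linarith) ?_
      rw [hH, hL]
      have : Real.log X ≤ Real.log T := Real.log_le_log (by exact_mod_cast (by omega : 0 < X)) hXT
      have := mul_le_mul_of_nonneg_left this hh0.le
      linarith
    have h3 : Real.log 2 ≤ Real.log (2 + H) := Real.log_le_log two_pos (by linarith)
    have h4 : ∑ p ∈ (Finset.Icc 1 X).filter Nat.Prime, ‖vh h p‖ ^ 2 / (p : ℝ) ≤ Cv * Real.log (2 + H) :=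
      h1.trans (mul_le_mul_of_nonneg_left h2 hCv.le)
    have h5 : E₀ ≤ E₀ / Real.log 2 * Real.log (2 + H) := by
      calc E₀ = E₀ / Real.log 2 * Real.log 2 := by field_simp
        _ ≤ _ := mul_le_mul_of_nonneg_left h3 (by positivity)
    have h6 : 60 * Cv * Real.log (2 + H) ≤ E₀ * Real.log (2 + H) := by
      refine mul_le_mul_of_nonneg_right ?_ (by linarith)
      rw [hE₀]
      have : 0 ≤ 3 * (3 * (2 * C₁ + 2 * (8 / 3 * Z3) ^ 2)) + 6 := by positivity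
      linarith
    have h7 : 3 * (3 * (2 * C₁ + 2 * (8 / 3 * Z3) ^ 2) + 2) ≤ E₀ := by
      rw [hE₀]
      have : 0 ≤ 60 * Cv := by positivity
      linarith
    have h8 : (E₀ / Real.log 2 + E₀) * Real.log (2 + H) = E₀ / Real.log 2 * Real.log (2 + H) + E₀ * Real.log (2 + H) := by ring
    rw [h8]
    linarith
  have hTn : 0 < T * N2 N r := by positivity
  have c3 : ∫ t in T..(2 * T), ‖F t - z‖ ^ 2 * ‖dp N r t‖ ^ 2 ≤ ((E₀ / Real.log 2 + E₀) * Real.log (2 + H)) * (T * N2 N r) :=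
    c2.trans (mul_le_mul_of_nonneg_right hVar hTn.le)
  have hlH : 0 < Real.log (2 + H) := Real.log_pos (by linarith)
  -- the fourth moment
  have hfour : N2 (N * N) (cv r r) ≤ Real.exp (16 * (V ^ 2 / G)) := by
    rw [hr]
    refine (N2_fourg hPp (N := N) fun n hn => ?_).trans (Real.exp_le_exp.2 (by linarith))
    rw [← hr] at hn
    exact (hrN n hn).2
  have hNT8 : (N : ℝ) ≤ T ^ (1 / 8 : ℝ) := hNT.trans (Real.rpow_le_rpow_of_exponent_le hT1 (by linarith))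
  have hfin := gm hT16 hNT8 hrN hn1 hfour (g := fun t => ‖F t - z‖ ^ 2) ((hFm.sub measurable_const).norm.pow_const 2)
    (fun t => sq_nonneg _) (B := (E₀ / Real.log 2 + E₀) * Real.log (2 + H)) (by positivity) c1 c3
  have hset : {t : ℝ | T < t ∧ t ≤ 2 * T ∧ ‖F t - z‖ ^ 2 ≤ 4 * ((E₀ / Real.log 2 + E₀) * Real.log (2 + H))} =
      {t : ℝ | T < t ∧ t ≤ 2 * T ∧ ‖(Lz (t + h) - Lz t) - z‖ ^ 2 ≤ 4 * (E₀ / Real.log 2 + E₀) * Real.log (2 + H)} := by
    ext t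
    simp only [hF, Set.mem_ofPred_eq]
    rw [mul_assoc]
  rw [hset] at hfin
  refine le_trans ?_ hfin
  have hexp32 : Real.exp (-(4 : ℝ)) ≤ 1 / 32 := by
    rw [Real.exp_neg, ← one_div]
    refine one_div_le_one_div_of_le (by norm_num) ?_
    have h1 := Real.exp_one_gt_d9
    have h2 : Real.exp 4 = Real.exp 1 ^ 4 := by rw [← Real.exp_nat_mul]; norm_num
    rw [h2]
    calc (32 : ℝ) ≤ 2.7 ^ 4 := by norm_num
      _ ≤ Real.exp 1 ^ 4 := pow_le_pow_left₀ (by norm_num) (by linarith) 4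
  have hQ : 16 * (V ^ 2 / G) ≤ 512 / cM * (V ^ 2 / Real.log (2 + y)) := by
    have h1 : V ^ 2 / G ≤ V ^ 2 / (cM * Real.log (2 + y) / 32) := div_le_div_of_nonneg_left (sq_nonneg _) (by positivity) hGc
    have h2 : V ^ 2 / (cM * Real.log (2 + y) / 32) = 32 / cM * (V ^ 2 / Real.log (2 + y)) := by
      field_simp
    rw [h2] at h1
    calc 16 * (V ^ 2 / G) ≤ 16 * (32 / cM * (V ^ 2 / Real.log (2 + y))) := by linarith
      _ = _ := by ring
  obtain ⟨w, hw⟩ : ∃ w : ℝ, w = V ^ 2 / Real.log (2 + y) := ⟨_, rfl⟩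
  rw [← hw] at hQ ⊢
  have hw0 : 0 ≤ w := by rw [hw]; positivity
  calc T * Real.exp (-((512 / cM + 4) * (1 + w))) ≤ T * (1 / 32 * Real.exp (-(16 * (V ^ 2 / G)))) := by
        refine mul_le_mul_of_nonneg_left ?_ hT0.le
        calc Real.exp (-((512 / cM + 4) * (1 + w))) ≤ Real.exp (-(4 : ℝ) + -(16 * (V ^ 2 / G))) := by
              refine Real.exp_le_exp.2 ?_
              have h1 : 0 ≤ 512 / cM := by positivity
              have h2 : 0 ≤ 4 * w := by positivity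
              have h3 : (512 / cM + 4) * (1 + w) = 512 / cM + 4 + 512 / cM * w + 4 * w := by ring
              rw [h3]
              linarith
          _ = Real.exp (-(4 : ℝ)) * Real.exp (-(16 * (V ^ 2 / G))) := Real.exp_add _ _
          _ ≤ _ := mul_le_mul_of_nonneg_right hexp32 (Real.exp_pos _).le
    _ = _ := by ring

end

end Pool.Agent.U761.SZ
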