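import Pool.Agent.U761.SZ.RGC
import Pool.Agent.U761.SZ.WLD

set_option autoImplicit false

/-!
U761.SZ: r-gaps between the ordinates of the zeros, unconditional.
-/

namespace Pool.Agent.U761.SZ

open Filter Topology MeasureTheory Complex

noncomputable section

/-- large deviations of the number of zeros in windows -/
theorem zdev : ∃ c K C C₀ : ℝ, 0 < c ∧ 0 < K ∧ 0 < C ∧ 0 < C₀ ∧ ∀ᶠ T : ℝ in atTop, ∀ h : ℝ, C₀ / Real.log T ≤ h →
    h ≤ 1 / Real.log (Real.log T) → ∀ y : ℝ, |y| ≤ c * Real.sqrt (h * Real.log T) →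
      T * Real.exp (-(C * (1 + y ^ 2 / Real.log (2 + h * Real.log T / (1 + y ^ 2))))) ≤
        volume.real {t : ℝ | T < t ∧ t ≤ 2 * T ∧ |Real.pi * (Nz t (t + h) : ℝ) - h / 2 * Real.log T - y| ≤
          K * Real.sqrt (Real.log (2 + h * Real.log T))} := by
  obtain ⟨c, K, C, C₀, hc, hK, hC, hC₀, h0⟩ := ldw
  obtain ⟨C₁, hC₁, hz⟩ := zcount
  refine ⟨c, Real.sqrt K + 2 * (C₁ + 1), C, C₀, hc, by positivity, hC, hC₀, ?_⟩
  filter_upwards [h0, (Real.tendsto_log_atTop.comp Real.tendsto_log_atTop).eventually_ge_atTop 1, eventually_ge_atTop 10]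
    with T a1 a2 a3 h hlo hhi y hy
  have a2 : 1 ≤ Real.log (Real.log T) := a2
  have hT0 : 0 < T := by linarith
  have hL0 : 0 < Real.log T := Real.log_pos (by linarith)
  have hh0 : 0 < h := lt_of_lt_of_le (by positivity) hlo
  have hh1 : h ≤ 1 := hhi.trans (by rw [div_le_one (by linarith)]; exact a2)
  have hyn : ‖((y : ℝ) : ℂ) * I‖ = |y| := by rw [norm_mul, norm_I, mul_one, norm_real, Real.norm_eq_abs]
  have h1 := a1 h hlo hhi ((y : ℂ) * I) (by rw [hyn]; exact hy)
  rw [hyn, sq_abs] at h1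
  refine h1.trans ?_
  rw [measureReal_def]
  refine ENNReal.toReal_mono ?_ ?_
  · refine ne_of_lt (lt_of_le_of_lt (measure_mono (t := Set.Icc T (2 * T)) ?_) (by simp))
    rintro t ⟨h1, h2, -⟩
    exact ⟨h1.le, h2⟩
  · refine measure_mono_ae ?_
    have g1 : ∀ᵐ t : ℝ, NoOrd t ∧ piS t = aS t := by
      filter_upwards [ae_piS, ae_not_ord] with t h1 h2
      exact ⟨h2.2, h1⟩
    have g2 := (measurePreserving_add_right (volume : Measure ℝ) h).quasiMeasurePreserving.ae g1
    filter_upwards [g1, g2] with t g1 g2 ht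
    obtain ⟨s1, s2, s3⟩ := ht
    refine ⟨s1, s2, ?_⟩
    have e1 := hz t (t + h) (by linarith) (by linarith) (by linarith) g1.1 g2.1
    have e2 : t + h - t = h := by ring
    rw [e2, g1.2, g2.2] at e1
    have hl1 : Real.log T ≤ Real.log t := Real.log_le_log hT0 s1.le
    have hl2 : Real.log t ≤ Real.log T + Real.log 2 := by
      rw [← Real.log_mul hT0.ne' (by norm_num)]
      refine Real.log_le_log (by linarith) ?_
      linarith
    have hl3 := Real.log_two_lt_d9
    have h3 : |h / 2 * (Real.log t - Real.log T)| ≤ h := by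
      rw [abs_of_nonneg (mul_nonneg (by linarith) (by linarith))]
      nlinarith
    have h4 : |aS (t + h) - aS t - y| ≤ Real.sqrt K * Real.sqrt (Real.log (2 + h * Real.log T)) := by
      have h5 : aS (t + h) - aS t - y = ((Lz (t + h) - Lz t) - (y : ℂ) * I).im := by
        rw [sub_im, sub_im]
        unfold Lz
        simp
      rw [h5]
      refine (Complex.abs_im_le_norm _).trans ?_
      rw [← Real.sqrt_mul hK.le]
      exact Real.le_sqrt_of_sq_le s3
    have hlog : 1 / 2 ≤ Real.log (2 + h * Real.log T) := by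
      have h2 := Real.log_two_gt_d9
      have h3 : Real.log 2 ≤ Real.log (2 + h * Real.log T) := Real.log_le_log (by norm_num) (by nlinarith)
      linarith
    have hsq : 1 / 2 ≤ Real.sqrt (Real.log (2 + h * Real.log T)) := by
      apply Real.le_sqrt_of_sq_le
      linarith
    have h6 : Real.pi * (Nz t (t + h) : ℝ) - h / 2 * Real.log T - y =
        (Real.pi * (Nz t (t + h) : ℝ) - h / 2 * Real.log t - (aS (t + h) - aS t)) + h / 2 * (Real.log t - Real.log T) +
          (aS (t + h) - aS t - y) := by ring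
    rw [h6]
    refine (abs_add_three _ _ _).trans ?_
    nlinarith

/-- concavity of the logarithm -/
theorem log_div_ge {x A : ℝ} (hx : 0 ≤ x) (hA : 1 ≤ A) : 1 / A * Real.log (2 + x) ≤ Real.log (2 + x / A) := by
  have hA0 : 0 < A := by linarith
  have m1 : (2 + x) ∈ Set.Ioi (0 : ℝ) := by
    show (0 : ℝ) < 2 + x
    linarith
  have m2 : (2 : ℝ) ∈ Set.Ioi (0 : ℝ) := by
    show (0 : ℝ) < 2
    norm_num
  have m3 : 0 ≤ 1 - 1 / A := by
    rw [sub_nonneg, div_le_one hA0]
    exact hA
  have m4 : 0 ≤ 1 / A := by positivity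
  have m5 : 1 / A + (1 - 1 / A) = 1 := by ring
  have h1 := strictConcaveOn_log_Ioi.concaveOn.2 m1 m2 m4 m3 m5
  simp only [smul_eq_mul] at h1
  have h2 : 1 / A * (2 + x) + (1 - 1 / A) * 2 = 2 + x / A := by
    field_simp
    ring
  rw [h2] at h1
  have h3 : 0 ≤ (1 - 1 / A) * Real.log 2 := by
    refine mul_nonneg ?_ (Real.log_nonneg (by norm_num))
    rw [sub_nonneg, div_le_one hA0]
    exact hA
  linarith

/-- comparison of the exponents -/
theorem phi_cmp {M : ℝ} (hM : 1 ≤ M) : ∃ C : ℝ, 0 < C ∧ ∀ R V Y : ℝ, 1 ≤ R → 0 ≤ V → Y ^ 2 ≤ M * (1 + V ^ 2 + Real.log (2 + R)) →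
    Y ^ 2 / Real.log (2 + R / (1 + Y ^ 2)) ≤ C * (1 + V ^ 2 / Real.log (2 + R / (1 + V ^ 2))) := by
  have hl2 := Real.log_pos one_lt_two
  have hl8 : 0 < Real.log (8 * M) := Real.log_pos (by linarith)
  obtain ⟨cM, hcM⟩ : ∃ cM : ℝ, cM = min (1 / 4) (Real.log 2 / (4 * Real.log (8 * M))) := ⟨_, rfl⟩
  have hcM0 : 0 < cM := by rw [hcM]; positivity
  refine ⟨3 * M / cM + 12 * M ^ 2, by positivity, fun R V Y hR hV hY => ?_⟩
  obtain ⟨l, hl⟩ : ∃ l : ℝ, l = Real.log (2 + R) := ⟨_, rfl⟩
  rw [← hl] at hY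
  have hl1 : 1 ≤ l := by
    rw [hl, Real.le_log_iff_exp_le (by linarith)]
    have := Real.exp_one_lt_d9
    linarith
  obtain ⟨W, hW⟩ : ∃ W : ℝ, W = M * (1 + V ^ 2 + l) := ⟨_, rfl⟩
  rw [← hW] at hY
  have hW0 : 0 < W := by rw [hW]; positivity
  have hden : ∀ z : ℝ, 0 ≤ z → 0 < Real.log (2 + R / (1 + z)) := by
    intro z hz
    refine Real.log_pos ?_
    have : 0 ≤ R / (1 + z) := by positivity
    linarith
  have hmono : Real.log (2 + R / (1 + W)) ≤ Real.log (2 + R / (1 + Y ^ 2)) := by
    refine Real.log_le_log (by positivity) ?_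
    have : R / (1 + W) ≤ R / (1 + Y ^ 2) := div_le_div_of_nonneg_left (by linarith) (by positivity) (by linarith)
    linarith
  have h1 : Y ^ 2 / Real.log (2 + R / (1 + Y ^ 2)) ≤ W / Real.log (2 + R / (1 + W)) :=
    div_le_div₀ hW0.le hY (hden W hW0.le) hmono
  refine h1.trans ?_
  have hphi : 0 ≤ V ^ 2 / Real.log (2 + R / (1 + V ^ 2)) := div_nonneg (sq_nonneg _) (hden _ (sq_nonneg _)).le
  rcases le_or_gt (V ^ 2) l with hc | hc
  · -- small deviations
    have hW1 : W ≤ 3 * M * l := by
      rw [hW]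
      nlinarith
    have h2 : cM * l ≤ Real.log (2 + R / (1 + W)) := by
      have h3 : 1 + W ≤ 4 * M * l := by nlinarith
      have h4 : (2 + R) / (4 * M * l) ≤ 2 + R / (1 + W) := by
        have h5 : R / (4 * M * l) ≤ R / (1 + W) := div_le_div_of_nonneg_left (by linarith) (by positivity) h3
        have h6 : 2 / (4 * M * l) ≤ 2 := by
          rw [div_le_iff₀ (by positivity)]
          nlinarith [mul_le_mul hM hl1 (by norm_num) (by linarith : (0 : ℝ) ≤ M)]
        rw [add_div]
        linarith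
      have h5 : l ≤ 2 * Real.sqrt (2 + R) := by
        have h6 : Real.log (Real.sqrt (2 + R)) ≤ Real.sqrt (2 + R) := by
          have := Real.log_le_sub_one_of_pos (Real.sqrt_pos.2 (by linarith : 0 < 2 + R))
          linarith
        rw [Real.log_sqrt (by linarith)] at h6
        rw [hl]
        linarith
      have h6 : Real.sqrt (2 + R) / (8 * M) ≤ (2 + R) / (4 * M * l) := by
        rw [div_le_div_iff₀ (by positivity) (by positivity)]
        have h7 : Real.sqrt (2 + R) * Real.sqrt (2 + R) = 2 + R := Real.mul_self_sqrt (by linarith)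
        have h8 : 0 < Real.sqrt (2 + R) := Real.sqrt_pos.2 (by linarith)
        calc Real.sqrt (2 + R) * (4 * M * l) ≤ Real.sqrt (2 + R) * (4 * M * (2 * Real.sqrt (2 + R))) :=
              mul_le_mul_of_nonneg_left (mul_le_mul_of_nonneg_left h5 (by positivity)) h8.le
          _ = 8 * M * (Real.sqrt (2 + R) * Real.sqrt (2 + R)) := by ring
          _ = (2 + R) * (8 * M) := by rw [h7]; ring
      have h7 : l / 2 - Real.log (8 * M) ≤ Real.log (2 + R / (1 + W)) := by
        have h8 : Real.log (Real.sqrt (2 + R) / (8 * M)) = l / 2 - Real.log (8 * M) := by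
          rw [Real.log_div (Real.sqrt_pos.2 (by linarith)).ne' (by positivity), Real.log_sqrt (by linarith), ← hl]
        rw [← h8]
        refine Real.log_le_log ?_ (h6.trans h4)
        have := Real.sqrt_pos.2 (by linarith : 0 < 2 + R)
        positivity
      have h8 : Real.log 2 ≤ Real.log (2 + R / (1 + W)) := by
        refine Real.log_le_log (by norm_num) ?_
        have : 0 ≤ R / (1 + W) := by positivity
        linarith
      rcases le_or_gt (4 * Real.log (8 * M)) l with h9 | h9
      · have : cM ≤ 1 / 4 := by rw [hcM]; exact min_le_left _ _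
        nlinarith
      · have h10 : cM ≤ Real.log 2 / (4 * Real.log (8 * M)) := by rw [hcM]; exact min_le_right _ _
        have h11 : cM * l ≤ Real.log 2 / (4 * Real.log (8 * M)) * (4 * Real.log (8 * M)) :=
          mul_le_mul h10 h9.le (by linarith) (by positivity)
        rw [div_mul_cancel₀ _ (by positivity)] at h11
        linarith
    have h3 : W / Real.log (2 + R / (1 + W)) ≤ 3 * M / cM := by
      rw [div_le_div_iff₀ (hden W hW0.le) hcM0]
      calc W * cM ≤ 3 * M * l * cM := mul_le_mul_of_nonneg_right hW1 hcM0.le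
        _ = 3 * M * (cM * l) := by ring
        _ ≤ _ := mul_le_mul_of_nonneg_left h2 (by positivity)
    have h4 : 0 ≤ 12 * M ^ 2 := by positivity
    have h5 : 0 ≤ 3 * M / cM := by positivity
    nlinarith [mul_nonneg (add_nonneg h5 h4) hphi]
  · have hV1 : 1 ≤ V ^ 2 := by linarith
    have hW1 : W ≤ 3 * M * V ^ 2 := by
      rw [hW]
      nlinarith
    have h3 : 1 + W ≤ 4 * M * (1 + V ^ 2) := by nlinarith
    have h2 : 1 / (4 * M) * Real.log (2 + R / (1 + V ^ 2)) ≤ Real.log (2 + R / (1 + W)) := by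
      have h4 := log_div_ge (x := R / (1 + V ^ 2)) (A := 4 * M) (by positivity) (by linarith)
      refine h4.trans (Real.log_le_log (by positivity) ?_)
      have h5 : R / (1 + V ^ 2) / (4 * M) ≤ R / (1 + W) := by
        rw [div_div]
        refine div_le_div_of_nonneg_left (by linarith) (by positivity) ?_
        linarith
      linarith
    have hd := hden (V ^ 2) (sq_nonneg V)
    have h4 : W / Real.log (2 + R / (1 + W)) ≤ 12 * M ^ 2 * (V ^ 2 / Real.log (2 + R / (1 + V ^ 2))) := by
      rw [← mul_div_assoc, div_le_div_iff₀ (hden W hW0.le) hd]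
      calc W * Real.log (2 + R / (1 + V ^ 2)) ≤ 3 * M * V ^ 2 * Real.log (2 + R / (1 + V ^ 2)) :=
            mul_le_mul_of_nonneg_right hW1 hd.le
        _ = 12 * M ^ 2 * V ^ 2 * (1 / (4 * M) * Real.log (2 + R / (1 + V ^ 2))) := by
            field_simp
            ring
        _ ≤ _ := mul_le_mul_of_nonneg_left h2 (by positivity)
    have h5 : 0 ≤ 3 * M / cM := by positivity
    have h6 : 0 ≤ 12 * M ^ 2 := by positivity
    nlinarith [mul_nonneg h5 hphi]

end

end Pool.Agent.U761.SZ
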