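import Pool.Agent.U761.SZ.RGD

set_option autoImplicit false

/-!
U761.SZ: r-gaps between the ordinates of the zeros, unconditional: the main theorem.
-/

namespace Pool.Agent.U761.SZ

open Filter Topology MeasureTheory Complex

noncomputable section

/-- counting, final form -/
theorem cnt : ∃ H₁ C : ℝ, 2 ≤ H₁ ∧ 0 < C ∧ ∀ᶠ T : ℝ in atTop, (∀ t : ℝ, T < t → 1 ≤ NZ t ∧ t - H₁ < gam (NZ t) ∧ gam (NZ t + 1) ≤ t + H₁) ∧
    ∀ x : ℝ, x ≤ Real.log T / 2 → ∀ E : Set ℝ, (∀ t ∈ E, T < t ∧ t ≤ 2 * T) →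
      T * Real.exp (-x) ≤ volume.real E →
        T * Real.log T * Real.exp (-(2 * x)) ≤ C * ((NZ '' {t | t ∈ E ∧ T + H₁ < t ∧ t ≤ 2 * T - H₁}).ncard : ℝ) := by
  obtain ⟨H₁, T₀, hH₁, hT₀, hg⟩ := maxgap
  obtain ⟨C, hC, hz⟩ := count_gap
  refine ⟨H₁, 4 * C, hH₁, by positivity, ?_⟩
  filter_upwards [hz, eventually_ge_atTop (T₀ + H₁ + 16), (tendsto_rpow_atTop (show (0 : ℝ) < 1 / 2 by norm_num)).eventually_ge_atTop (4 * H₁)]
    with T hz hT hTH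
  have hT0 : 0 < T := by linarith
  have hL0 : 0 < Real.log T := Real.log_pos (by linarith)
  refine ⟨fun t ht => gap_loc hH₁ hT₀ hg (by linarith), fun x hx E hE hvol => ?_⟩
  obtain ⟨E', hE'⟩ : ∃ E' : Set ℝ, E' = {t | t ∈ E ∧ T + H₁ < t ∧ t ≤ 2 * T - H₁} := ⟨_, rfl⟩
  rw [← hE']
  have h1 := hz E' (fun t ht => by
    rw [hE'] at ht
    exact hE t ht.1)
  have hexp : T ^ (1 / 2 : ℝ) ≤ T * Real.exp (-x) := by
    have e1 : T * Real.exp (-x) = Real.exp (Real.log T - x) := by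
      rw [sub_eq_add_neg, Real.exp_add, Real.exp_log hT0]
    rw [e1, Real.rpow_def_of_pos hT0]
    refine Real.exp_le_exp.2 ?_
    linarith
  have hvol' : T * Real.exp (-x) / 2 ≤ volume.real E' := by
    have hsub : E ⊆ E' ∪ (Set.Ioc T (T + H₁) ∪ Set.Ioc (2 * T - H₁) (2 * T)) := by
      intro t ht
      obtain ⟨a1, a2⟩ := hE t ht
      rcases le_or_gt t (T + H₁) with h3 | h3
      · exact Or.inr (Or.inl ⟨a1, h3⟩)
      · rcases le_or_gt t (2 * T - H₁) with h4 | h4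
        · left
          rw [hE']
          exact ⟨ht, h3, h4⟩
        · exact Or.inr (Or.inr ⟨h4, a2⟩)
    have hfin' : volume E' ≠ ⊤ := by
      refine ne_of_lt (lt_of_le_of_lt (measure_mono (t := Set.Icc T (2 * T)) ?_) (by simp))
      intro t ht
      rw [hE'] at ht
      exact ⟨(hE t ht.1).1.le, (hE t ht.1).2⟩
    have h2 := measureReal_mono (μ := volume) hsub (by
      rw [Ne, measure_union_eq_top_iff, measure_union_eq_top_iff]
      push Not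
      exact ⟨hfin', by simp, by simp⟩)
    have h3 := h2.trans ((measureReal_union_le _ _).trans (add_le_add le_rfl (measureReal_union_le _ _)))
    have e1 : volume.real (Set.Ioc T (T + H₁)) = H₁ := by
      rw [measureReal_def, Real.volume_Ioc, ENNReal.toReal_ofReal (by linarith)]
      ring
    have e2 : volume.real (Set.Ioc (2 * T - H₁) (2 * T)) = H₁ := by
      rw [measureReal_def, Real.volume_Ioc, ENNReal.toReal_ofReal (by linarith)]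
      ring
    rw [e1, e2] at h3
    linarith
  have h2 : (T * Real.exp (-x) / 2) ^ 2 ≤ volume.real E' ^ 2 := pow_le_pow_left₀ (by positivity) hvol' 2
  have h3 : (T * Real.exp (-x) / 2) ^ 2 * Real.log T ≤ C * T * ((NZ '' E').ncard : ℝ) :=
    (mul_le_mul_of_nonneg_right h2 hL0.le).trans h1
  have h4 : T * (T * Real.log T * Real.exp (-(2 * x))) ≤ T * (4 * C * ((NZ '' E').ncard : ℝ)) := by
    have e1 : Real.exp (-(2 * x)) = Real.exp (-x) ^ 2 := by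
      rw [← Real.exp_nat_mul]
      congr 1
      push_cast
      ring
    rw [e1]
    calc T * (T * Real.log T * Real.exp (-x) ^ 2) = 4 * ((T * Real.exp (-x) / 2) ^ 2 * Real.log T) := by ring
      _ ≤ 4 * (C * T * ((NZ '' E').ncard : ℝ)) := mul_le_mul_of_nonneg_left h3 (by norm_num)
      _ = _ := by ring
  exact le_of_mul_le_mul_left h4 hT0

/-- the set of the `n` with `T < γ_n ≤ 2T` is finite -/
theorem fin_n (T : ℝ) (P : ℕ → Prop) : {n : ℕ | 1 ≤ n ∧ T < gam n ∧ gam n ≤ 2 * T ∧ P n}.Finite := by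
  refine (Set.finite_Icc 1 (NZ (2 * T))).subset ?_
  rintro n ⟨h1, -, h3, -⟩
  exact ⟨h1, (gam_le_iff h1 _).1 h3⟩


/-- the threshold for `r` -/
theorem thr_r {c₁ K : ℝ} (hc₁ : 0 < c₁) (hK : 0 < K) (C₀ : ℝ) :
    ∃ R₀ : ℝ, ∀ R : ℝ, R₀ ≤ R → 1 ≤ R ∧ C₀ ≤ R ∧ Real.pi + 2 * K * Real.sqrt (Real.log (2 + R)) ≤ 9 / 10 * c₁ * Real.sqrt R := by
  have hpi4 := Real.pi_lt_d2
  have h1 : Tendsto (fun H : ℝ => Real.log (2 + H) / (2 + H)) atTop (𝓝 0) := by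
    have h2 := (Real.isLittleO_log_id_atTop.tendsto_div_nhds_zero).comp (tendsto_atTop_add_const_left atTop (2 : ℝ) tendsto_id)
    exact h2
  have h3 := h1.eventually_lt_const (show (0 : ℝ) < (c₁ / 5) ^ 2 / (3 * K ^ 2) by positivity)
  obtain ⟨a, ha⟩ := Filter.eventually_atTop.1 (h3.and ((eventually_ge_atTop 1).and ((eventually_ge_atTop C₀).and
    (eventually_ge_atTop ((10 / c₁) ^ 2)))))
  refine ⟨a, fun R hR => ?_⟩
  obtain ⟨b1, b2, b3, b4⟩ := ha R hR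
  refine ⟨b2, b3, ?_⟩
  rw [div_lt_iff₀ (by linarith)] at b1
  have e1 : K * Real.sqrt (Real.log (2 + R)) ≤ c₁ / 5 * Real.sqrt R := by
    have e1 : K * Real.sqrt (Real.log (2 + R)) = Real.sqrt (K ^ 2 * Real.log (2 + R)) := by
      rw [Real.sqrt_mul (by positivity), Real.sqrt_sq hK.le]
    have e2 : c₁ / 5 * Real.sqrt R = Real.sqrt ((c₁ / 5) ^ 2 * R) := by
      rw [Real.sqrt_mul (by positivity), Real.sqrt_sq (by positivity)]
    rw [e1, e2]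
    refine Real.sqrt_le_sqrt ?_
    calc K ^ 2 * Real.log (2 + R) ≤ K ^ 2 * ((c₁ / 5) ^ 2 / (3 * K ^ 2) * (2 + R)) :=
          mul_le_mul_of_nonneg_left b1.le (by positivity)
      _ = (c₁ / 5) ^ 2 * ((2 + R) / 3) := by field_simp
      _ ≤ (c₁ / 5) ^ 2 * R := by
        refine mul_le_mul_of_nonneg_left ?_ (by positivity)
        linarith
  have e2 : 10 / c₁ ≤ Real.sqrt R := Real.le_sqrt_of_sq_le b4
  have e3 : 10 ≤ c₁ * Real.sqrt R := by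
    rw [div_le_iff₀ hc₁] at e2
    linarith
  linarith

/-- `log (2 + H) ≤ 4 log (2 + R)` -/
theorem log_cmp4 {R H : ℝ} (hR1 : 1 ≤ R) (hH0 : 0 ≤ H) (hH2 : H ≤ 13 * R) : Real.log (2 + H) ≤ 4 * Real.log (2 + R) := by
  have h1 : Real.log (2 + H) ≤ Real.log ((2 + R) ^ 4) := by
    refine Real.log_le_log (by linarith) ?_
    have h2 : (3 : ℝ) ≤ 2 + R := by linarith
    have h3 : (2 + R) ^ 4 = (2 + R) ^ 3 * (2 + R) := by ring
    have h4 : (27 : ℝ) ≤ (2 + R) ^ 3 := by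
      calc (27 : ℝ) = 3 ^ 3 := by norm_num
        _ ≤ _ := pow_le_pow_left₀ (by norm_num) h2 3
    rw [h3]
    calc 2 + H ≤ 27 * (2 + R) := by linarith
      _ ≤ _ := mul_le_mul_of_nonneg_right h4 (by linarith)
  rwa [Real.log_pow] at h1

/-- `Y² ≪ 1 + V² + log (2 + R)` -/
theorem ysq_le {K V l s Y p : ℝ} (hs : s ^ 2 = l) (hY0 : 0 ≤ Y) (hp : p ^ 2 ≤ 10)
    (hY : Y ≤ p * (V + 1) + 2 * K * s) : Y ^ 2 ≤ (40 + 8 * K ^ 2) * (1 + V ^ 2 + l) := by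
  have h2 : Y ^ 2 ≤ (p * (V + 1) + 2 * K * s) ^ 2 := pow_le_pow_left₀ hY0 hY 2
  have h4 : (p * (V + 1) + 2 * K * s) ^ 2 ≤ 2 * (p * (V + 1)) ^ 2 + 2 * (2 * K * s) ^ 2 := by
    have := sq_nonneg (p * (V + 1) - 2 * K * s)
    linarith [this, show 2 * (p * (V + 1)) ^ 2 + 2 * (2 * K * s) ^ 2 - (p * (V + 1) + 2 * K * s) ^ 2 = (p * (V + 1) - 2 * K * s) ^ 2 by ring]
  have h5 : (2 * K * s) ^ 2 = 4 * K ^ 2 * l := by
    rw [mul_pow, hs]
    ring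
  have h6 : (p * (V + 1)) ^ 2 ≤ 10 * (2 * (1 + V ^ 2)) := by
    rw [mul_pow]
    refine mul_le_mul hp ?_ (sq_nonneg _) (by norm_num)
    have := sq_nonneg (V - 1)
    linarith [show 2 * (1 + V ^ 2) - (V + 1) ^ 2 = (V - 1) ^ 2 by ring]
  have h7 : 0 ≤ K ^ 2 * (1 + V ^ 2) := by positivity
  have h8 : 0 ≤ l := by rw [← hs]; positivity
  rw [h5] at h4
  calc Y ^ 2 ≤ 2 * (10 * (2 * (1 + V ^ 2))) + 2 * (4 * K ^ 2 * l) := by linarith
    _ ≤ (40 + 8 * K ^ 2) * (1 + V ^ 2 + l) := by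
      linarith [show (40 + 8 * K ^ 2) * (1 + V ^ 2 + l) - (2 * (10 * (2 * (1 + V ^ 2))) + 2 * (4 * K ^ 2 * l)) =
        40 * l + 8 * (K ^ 2 * (1 + V ^ 2)) by ring]

/-- the size of the deviation -/
theorem size_dev {c₁ K C₁ C₂ c : ℝ} (hc₁ : 0 < c₁) (hK : 0 < K) (hC₁ : 0 < C₁) (hc2 : c ≤ c₁ / 4)
    (hphi : ∀ R V Y : ℝ, 1 ≤ R → 0 ≤ V → Y ^ 2 ≤ (40 + 8 * K ^ 2) * (1 + V ^ 2 + Real.log (2 + R)) →
      Y ^ 2 / Real.log (2 + R / (1 + Y ^ 2)) ≤ C₂ * (1 + V ^ 2 / Real.log (2 + R / (1 + V ^ 2))))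
    {R V : ℝ} (hR1 : 1 ≤ R) (hRs : Real.pi + 2 * K * Real.sqrt (Real.log (2 + R)) ≤ 9 / 10 * c₁ * Real.sqrt R)
    (hV0 : 0 ≤ V) (hV : V ≤ c * Real.sqrt R) {H Y : ℝ} (hH1 : 3 * R ≤ H) (hH2 : H ≤ 13 * R)
    (hYd : Y = Real.pi * (V + 1) + K * Real.sqrt (Real.log (2 + H))) :
    0 ≤ Y ∧ Y ≤ c₁ * Real.sqrt H ∧ C₁ * (1 + Y ^ 2 / Real.log (2 + H / (1 + Y ^ 2))) ≤
      C₁ * (1 + C₂) * (1 + V ^ 2 / Real.log (2 + R / (1 + V ^ 2))) := by
  have hpi := Real.pi_pos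
  have hpi4 := Real.pi_lt_d2
  have hlog := log_cmp4 hR1 (by linarith) hH2
  have hlR : 0 ≤ Real.log (2 + R) := Real.log_nonneg (by linarith)
  have hsR2 : Real.sqrt R ^ 2 = R := Real.sq_sqrt (by linarith)
  have hsq : Real.sqrt (Real.log (2 + H)) ≤ 2 * Real.sqrt (Real.log (2 + R)) := by
    have h1 : Real.sqrt (Real.log (2 + H)) ≤ Real.sqrt (4 * Real.log (2 + R)) := Real.sqrt_le_sqrt hlog
    rw [Real.sqrt_mul (by norm_num), show (4 : ℝ) = 2 ^ 2 by norm_num, Real.sqrt_sq (by norm_num)] at h1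
    exact h1
  have hYle : Y ≤ Real.pi * (V + 1) + 2 * K * Real.sqrt (Real.log (2 + R)) := by
    rw [hYd]
    have := mul_le_mul_of_nonneg_left hsq hK.le
    linarith
  have hY0 : 0 ≤ Y := by rw [hYd]; positivity
  refine ⟨hY0, ?_, ?_⟩
  · have h1 : 17 / 10 * Real.sqrt R ≤ Real.sqrt H := by
      apply Real.le_sqrt_of_sq_le
      rw [mul_pow, hsR2]
      linarith
    have h2 : Real.pi * V ≤ 8 / 10 * c₁ * Real.sqrt R := by
      have h3 : V ≤ c₁ / 4 * Real.sqrt R := hV.trans (mul_le_mul_of_nonneg_right hc2 (Real.sqrt_nonneg _))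
      have h4 : 0 ≤ c₁ * Real.sqrt R := by positivity
      calc Real.pi * V ≤ Real.pi * (c₁ / 4 * Real.sqrt R) := mul_le_mul_of_nonneg_left h3 hpi.le
        _ = Real.pi / 4 * (c₁ * Real.sqrt R) := by ring
        _ ≤ 8 / 10 * (c₁ * Real.sqrt R) := mul_le_mul_of_nonneg_right (by linarith) h4
        _ = _ := by ring
    calc Y ≤ 17 / 10 * c₁ * Real.sqrt R := by linarith
      _ = c₁ * (17 / 10 * Real.sqrt R) := by ring
      _ ≤ _ := mul_le_mul_of_nonneg_left h1 hc₁.le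
  · have h1 : Y ^ 2 ≤ (40 + 8 * K ^ 2) * (1 + V ^ 2 + Real.log (2 + R)) := by
      refine ysq_le (Real.sq_sqrt hlR) hY0 ?_ hYle
      calc Real.pi ^ 2 ≤ 3.15 ^ 2 := pow_le_pow_left₀ hpi.le hpi4.le 2
        _ ≤ 10 := by norm_num
    have h2 := hphi R V Y hR1 hV0 h1
    have h3 : Y ^ 2 / Real.log (2 + H / (1 + Y ^ 2)) ≤ Y ^ 2 / Real.log (2 + R / (1 + Y ^ 2)) := by
      refine div_le_div_of_nonneg_left (sq_nonneg _) (Real.log_pos ?_) (Real.log_le_log (by positivity) ?_)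
      · have : 0 ≤ R / (1 + Y ^ 2) := by positivity
        linarith
      · have : R / (1 + Y ^ 2) ≤ H / (1 + Y ^ 2) := div_le_div_of_nonneg_right (by linarith) (by positivity)
        linarith
    have hφ0 : 0 ≤ V ^ 2 / Real.log (2 + R / (1 + V ^ 2)) := by
      refine div_nonneg (sq_nonneg _) (Real.log_nonneg ?_)
      have : 0 ≤ R / (1 + V ^ 2) := by positivity
      linarith
    obtain ⟨φ, hφ⟩ : ∃ φ : ℝ, φ = V ^ 2 / Real.log (2 + R / (1 + V ^ 2)) := ⟨_, rfl⟩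
    rw [← hφ] at h2 hφ0 ⊢
    have h4 : 1 + Y ^ 2 / Real.log (2 + H / (1 + Y ^ 2)) ≤ (1 + C₂) * (1 + φ) := by
      have := h3.trans h2
      linarith
    calc C₁ * (1 + Y ^ 2 / Real.log (2 + H / (1 + Y ^ 2))) ≤ C₁ * ((1 + C₂) * (1 + φ)) := mul_le_mul_of_nonneg_left h4 hC₁.le
      _ = _ := by ring

/-- the final constant -/
theorem fin_const {C₃ C₄ φ A Z : ℝ} (hC₄ : 0 < C₄) (hφ0 : 0 ≤ φ) (hA : 0 ≤ A)
    (hZ : A * Real.exp (-(2 * (C₃ * (1 + φ)))) ≤ C₄ * Z) : A * Real.exp (-((2 * C₃ + |Real.log C₄|) * (1 + φ))) ≤ Z := by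
  have h1 : Real.exp (-((2 * C₃ + |Real.log C₄|) * (1 + φ))) ≤ Real.exp (-(2 * (C₃ * (1 + φ)))) * Real.exp (-Real.log C₄) := by
    rw [← Real.exp_add]
    refine Real.exp_le_exp.2 ?_
    have h3 : Real.log C₄ ≤ |Real.log C₄| * (1 + φ) := by
      have h4 := le_abs_self (Real.log C₄)
      have h5 := mul_nonneg (abs_nonneg (Real.log C₄)) hφ0
      linarith
    linarith
  rw [Real.exp_neg (Real.log C₄), Real.exp_log hC₄] at h1
  calc A * Real.exp (-((2 * C₃ + |Real.log C₄|) * (1 + φ))) ≤ A * (Real.exp (-(2 * (C₃ * (1 + φ)))) * C₄⁻¹) := mul_le_mul_of_nonneg_left h1 hA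
    _ = (A * Real.exp (-(2 * (C₃ * (1 + φ))))) * C₄⁻¹ := by ring
    _ ≤ (C₄ * Z) * C₄⁻¹ := mul_le_mul_of_nonneg_right hZ (by positivity)
    _ = Z := by field_simp

/-- the bound for `x` -/
theorem x_le {C₃ φ L M : ℝ} (hC₃ : 0 < C₃) (hM : 0 < M) (hL0 : 0 < L) (hL : 4 * C₃ + 1 ≤ L) (hM2 : 4 * C₃ ≤ M) (hφ : φ ≤ L / M) :
    C₃ * (1 + φ) ≤ L / 2 := by
  have h1 : C₃ * (L / M) ≤ L / 4 := by
    rw [← mul_div_assoc, div_le_iff₀ hM]
    have := mul_le_mul_of_nonneg_right hM2 hL0.le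
    linarith
  have h4 : C₃ * φ ≤ C₃ * (L / M) := mul_le_mul_of_nonneg_left hφ hC₃.le
  linarith

/-- the length of the window -/
theorem win_le {h L M R : ℝ} (hL : 0 < L) (hM : 0 < M) (h1 : 7 * R ≤ L / M) (h2 : h * L ≤ 7 * R) : h ≤ 1 / M := by
  rw [le_div_iff₀ hM]
  rw [le_div_iff₀ hM] at h1
  have h3 : h * L * M ≤ 7 * R * M := mul_le_mul_of_nonneg_right h2 hM.le
  have h4 : h * M * L ≤ 1 * L := by linarith
  exact le_of_mul_le_mul_right h4 hL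

/-- inclusion for the large gaps -/
theorem sub_large {T H₁ h L R V Y D : ℝ} {r : ℕ} (hT : 16 ≤ T) (hh0 : 0 < h)
    (hloc : ∀ t : ℝ, T < t → 1 ≤ NZ t ∧ t - H₁ < gam (NZ t) ∧ gam (NZ t + 1) ≤ t + H₁) (hH₁ : 2 ≤ H₁)
    (hR : R = (r : ℝ)) (hhL : h * L = 2 * Real.pi * (R + V)) (hYd : Y = Real.pi * (V + 1) + D) :
    NZ '' {t | t ∈ {t : ℝ | T < t ∧ t ≤ 2 * T ∧ |Real.pi * (Nz t (t + h) : ℝ) - h / 2 * L - -Y| ≤ D} ∧ T + H₁ < t ∧ t ≤ 2 * T - H₁} ⊆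
        {n : ℕ | 1 ≤ n ∧ T < gam n ∧ gam n ≤ 2 * T ∧ h ≤ gam (n + r) - gam n} := by
  rintro n ⟨t, ⟨⟨t1, t2, t3⟩, t4, t5⟩, rfl⟩
  obtain ⟨l1, l2, l3⟩ := hloc t t1
  have l4 : gam (NZ t) ≤ t := (mem_gap l1).1
  refine ⟨l1, by linarith, by linarith, ?_⟩
  have h5 := (abs_le.1 t3).2
  have h6 : h / 2 * L = Real.pi * (R + V) := by
    calc h / 2 * L = h * L / 2 := by ring
      _ = _ := by rw [hhL]; ring
  rw [h6] at h5
  have h7 : Real.pi * (Nz t (t + h) : ℝ) ≤ Real.pi * (R - 1) := by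
    rw [hYd] at h5
    linarith
  have h8 : (Nz t (t + h) : ℝ) ≤ R - 1 := le_of_mul_le_mul_left h7 Real.pi_pos
  have h9 : Nz t (t + h) + 1 ≤ r := by
    have : ((Nz t (t + h) + 1 : ℕ) : ℝ) ≤ r := by
      push_cast
      linarith
    exact_mod_cast this
  have h10 : NZ (t + h) = NZ t + Nz t (t + h) := NZ_add (by linarith) (by linarith)
  have h11 : t + h < gam (NZ t + r) := (lt_gam_iff (by omega) _).2 (by omega)
  linarith

/-- inclusion for the small gaps -/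
theorem sub_small {T H₁ h L R V Y D : ℝ} {r : ℕ} (hT : 16 ≤ T) (hh0 : 0 < h)
    (hloc : ∀ t : ℝ, T < t → 1 ≤ NZ t ∧ t - H₁ < gam (NZ t) ∧ gam (NZ t + 1) ≤ t + H₁) (hH₁ : 2 ≤ H₁)
    (hR : R = (r : ℝ)) (hhL : h * L = 2 * Real.pi * (R - V)) (hYd : Y = Real.pi * (V + 1) + D) :
    (fun n => n + 1) '' (NZ '' {t | t ∈ {t : ℝ | T < t ∧ t ≤ 2 * T ∧ |Real.pi * (Nz t (t + h) : ℝ) - h / 2 * L - Y| ≤ D} ∧
        T + H₁ < t ∧ t ≤ 2 * T - H₁}) ⊆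
        {n : ℕ | 1 ≤ n ∧ T < gam n ∧ gam n ≤ 2 * T ∧ gam (n + r) - gam n ≤ h} := by
  rintro n ⟨m, ⟨t, ⟨⟨t1, t2, t3⟩, t4, t5⟩, rfl⟩, rfl⟩
  obtain ⟨l1, l2, l3⟩ := hloc t t1
  have l4 : t < gam (NZ t + 1) := (mem_gap l1).2
  refine ⟨Nat.le_add_left 1 _, by show T < gam (NZ t + 1); linarith, by show gam (NZ t + 1) ≤ 2 * T; linarith, ?_⟩
  have h5 := (abs_le.1 t3).1
  have h6 : h / 2 * L = Real.pi * (R - V) := by
    calc h / 2 * L = h * L / 2 := by ring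
      _ = _ := by rw [hhL]; ring
  rw [h6] at h5
  have h7 : Real.pi * (R + 1) ≤ Real.pi * (Nz t (t + h) : ℝ) := by
    rw [hYd] at h5
    linarith
  have h8 : R + 1 ≤ (Nz t (t + h) : ℝ) := le_of_mul_le_mul_left h7 Real.pi_pos
  have h9 : r + 1 ≤ Nz t (t + h) := by
    have : ((r + 1 : ℕ) : ℝ) ≤ Nz t (t + h) := by
      push_cast
      linarith
    exact_mod_cast this
  have h10 : NZ (t + h) = NZ t + Nz t (t + h) := NZ_add (by linarith) (by linarith)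
  have h11 : gam (NZ t + 1 + r) ≤ t + h := (gam_le_iff (by omega) _).2 (by omega)
  show gam (NZ t + 1 + r) - gam (NZ t + 1) ≤ h
  linarith

end

end Pool.Agent.U761.SZ
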