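import Pool.Agent.U761.SZ.RGE

set_option autoImplicit false

/-!
U761.SZ: r-gaps between the ordinates of the zeros, unconditional: the main theorem.
-/

namespace Pool.Agent.U761.SZ

open Filter Topology MeasureTheory Complex

noncomputable section

/-- `V² / log (2 + R / (1 + V²)) ≤ R` -/
theorem phi_le {R V : ℝ} (hR1 : 1 ≤ R) (hV2 : V ^ 2 ≤ R / 256) : 0 ≤ V ^ 2 / Real.log (2 + R / (1 + V ^ 2)) ∧
    V ^ 2 / Real.log (2 + R / (1 + V ^ 2)) ≤ R := by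
  have hl2 := Real.log_two_gt_d9
  have hden : Real.log 2 ≤ Real.log (2 + R / (1 + V ^ 2)) := by
    refine Real.log_le_log (by norm_num) ?_
    have : 0 ≤ R / (1 + V ^ 2) := by positivity
    linarith
  refine ⟨div_nonneg (sq_nonneg _) (by linarith), ?_⟩
  rw [div_le_iff₀ (by linarith)]
  have h1 : 1 / 2 ≤ Real.log (2 + R / (1 + V ^ 2)) := by linarith
  have h2 : R * (1 / 2) ≤ R * Real.log (2 + R / (1 + V ^ 2)) := mul_le_mul_of_nonneg_left h1 (by linarith)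
  linarith

/-- **r-gaps** -/
theorem rgaps : ∃ (c C : ℝ) (r₀ : ℕ), 0 < c ∧ 0 < C ∧ ∀ᶠ T : ℝ in atTop, ∀ r : ℕ, r₀ ≤ r →
    (r : ℝ) ≤ c * (Real.log T / Real.log (Real.log T)) → ∀ V : ℝ, 0 ≤ V → V ≤ c * Real.sqrt r →
      T * Real.log T * Real.exp (-(C * (1 + V ^ 2 / Real.log (2 + r / (1 + V ^ 2))))) ≤
        ({n : ℕ | 1 ≤ n ∧ T < gam n ∧ gam n ≤ 2 * T ∧ 2 * Real.pi / Real.log T * (r + V) ≤ gam (n + r) - gam n}.ncard : ℝ) ∧
      T * Real.log T * Real.exp (-(C * (1 + V ^ 2 / Real.log (2 + r / (1 + V ^ 2))))) ≤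
        ({n : ℕ | 1 ≤ n ∧ T < gam n ∧ gam n ≤ 2 * T ∧ gam (n + r) - gam n ≤ 2 * Real.pi / Real.log T * (r - V)}.ncard : ℝ) := by
  obtain ⟨c₁, K, C₁, C₀, hc₁, hK, hC₁, hC₀, hdev⟩ := zdev
  obtain ⟨C₂, hC₂, hphi⟩ := phi_cmp (M := 40 + 8 * K ^ 2) (by linarith [sq_nonneg K])
  obtain ⟨H₁, C₄, hH₁, hC₄, hcnt⟩ := cnt
  obtain ⟨C₃, hC₃⟩ : ∃ C₃ : ℝ, C₃ = C₁ * (1 + C₂) := ⟨_, rfl⟩
  have hC₃0 : 0 < C₃ := by rw [hC₃]; positivity
  obtain ⟨c, hcd⟩ : ∃ c : ℝ, c = min (c₁ / 4) (1 / 16) := ⟨_, rfl⟩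
  have hc0 : 0 < c := by rw [hcd]; positivity
  have hc2 : c ≤ c₁ / 4 := by rw [hcd]; exact min_le_left _ _
  have hc3 : c ≤ 1 / 16 := by rw [hcd]; exact min_le_right _ _
  clear hcd
  have hpi := Real.pi_pos
  have hpi3 := Real.pi_gt_three
  have hpi4 := Real.pi_lt_d2
  obtain ⟨R₀, hR₀⟩ := thr_r hc₁ hK C₀
  refine ⟨c, 2 * C₃ + |Real.log C₄|, ⌈R₀⌉₊, hc0, by positivity, ?_⟩
  filter_upwards [hdev, hcnt, Real.tendsto_log_atTop.eventually_ge_atTop (4 * C₃ + 1),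
    (Real.tendsto_log_atTop.comp Real.tendsto_log_atTop).eventually_ge_atTop (max 1 (4 * C₃)), eventually_ge_atTop 16]
    with T hdev hcnt hLC hll hT16 r hr hrT V hV0 hV
  have hll : max 1 (4 * C₃) ≤ Real.log (Real.log T) := hll
  obtain ⟨hloc, hcnt⟩ := hcnt
  have hT0 : 0 < T := by linarith
  obtain ⟨L, hL⟩ : ∃ L : ℝ, L = Real.log T := ⟨_, rfl⟩
  rw [← hL] at hdev hcnt hLC hll hrT ⊢
  have hL0 : 0 < L := by linarith
  have hll1 : 1 ≤ Real.log L := (le_max_left _ _).trans hll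
  have hll2 : 4 * C₃ ≤ Real.log L := (le_max_right _ _).trans hll
  obtain ⟨R, hR⟩ : ∃ R : ℝ, R = (r : ℝ) := ⟨_, rfl⟩
  rw [← hR] at hrT hV ⊢
  obtain ⟨hR1, hRC, hRs⟩ := hR₀ R (by rw [hR]; exact (Nat.le_ceil R₀).trans (by exact_mod_cast hr))
  have hsR0 := Real.sqrt_nonneg R
  have hsR2 : Real.sqrt R ^ 2 = R := Real.sq_sqrt (by linarith)
  have hsR : Real.sqrt R ≤ R := by
    rw [Real.sqrt_le_left (by linarith), sq]
    exact le_mul_of_one_le_left (by linarith) hR1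
  have hVR : V ≤ R / 16 := by
    have h1 : c * Real.sqrt R ≤ 1 / 16 * Real.sqrt R := mul_le_mul_of_nonneg_right hc3 hsR0
    linarith
  have hV2 : V ^ 2 ≤ R / 256 := by
    have h0 : V ≤ 1 / 16 * Real.sqrt R := hV.trans (mul_le_mul_of_nonneg_right hc3 hsR0)
    have h1 : V ^ 2 ≤ (1 / 16 * Real.sqrt R) ^ 2 := pow_le_pow_left₀ hV0 h0 2
    rw [mul_pow, hsR2] at h1
    linarith
  obtain ⟨hφ0, hφ1⟩ := phi_le hR1 hV2
  have hsize := fun (H Y : ℝ) (a1 : 3 * R ≤ H) (a2 : H ≤ 13 * R) (a3 : Y = Real.pi * (V + 1) + K * Real.sqrt (Real.log (2 + H))) =>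
    size_dev hc₁ hK hC₁ hc2 hphi hR1 hRs hV0 hV a1 a2 a3
  rw [← hC₃] at hsize
  obtain ⟨φ, hφ⟩ : ∃ φ : ℝ, φ = V ^ 2 / Real.log (2 + R / (1 + V ^ 2)) := ⟨_, rfl⟩
  rw [← hφ] at hφ0 hφ1 hsize ⊢
  clear hφ hphi hR₀ hRs hV
  have hLL0 : 0 ≤ L / Real.log L := by positivity
  have hRL : R ≤ L / Real.log L / 16 := by
    have h1 : c * (L / Real.log L) ≤ 1 / 16 * (L / Real.log L) := mul_le_mul_of_nonneg_right hc3 hLL0
    linarith
  obtain ⟨x, hx⟩ : ∃ x : ℝ, x = C₃ * (1 + φ) := ⟨_, rfl⟩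
  have hxL : x ≤ L / 2 := by
    rw [hx]
    exact x_le hC₃0 (by linarith) hL0 hLC hll2 (by linarith)
  have hfinal : ∀ Z : ℝ, T * L * Real.exp (-(2 * x)) ≤ C₄ * Z → T * L * Real.exp (-((2 * C₃ + |Real.log C₄|) * (1 + φ))) ≤ Z := by
    intro Z hZ
    rw [hx] at hZ
    exact fin_const hC₄ hφ0 (by positivity) hZ
  rw [← hx] at hsize
  clear hx
  have hpR : 3 * R ≤ Real.pi * R := mul_le_mul_of_nonneg_right hpi3.le (by linarith)
  have hpR2 : Real.pi * R ≤ 3.15 * R := mul_le_mul_of_nonneg_right hpi4.le (by linarith)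
  have hpV : Real.pi * V ≤ Real.pi * (R / 16) := mul_le_mul_of_nonneg_left hVR hpi.le
  have hpV0 : 0 ≤ Real.pi * V := mul_nonneg hpi.le hV0
  constructor
  · -- large r-gaps
    obtain ⟨h, hh⟩ : ∃ h : ℝ, h = 2 * Real.pi / L * (R + V) := ⟨_, rfl⟩
    have hhL : h * L = 2 * Real.pi * (R + V) := by rw [hh]; field_simp
    have hH1 : 3 * R ≤ h * L := by rw [hhL]; linarith
    have hH2 : h * L ≤ 7 * R := by rw [hhL]; linarith
    obtain ⟨Y, hYd⟩ : ∃ Y : ℝ, Y = Real.pi * (V + 1) + K * Real.sqrt (Real.log (2 + h * L)) := ⟨_, rfl⟩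
    obtain ⟨hY0, hY1, hY2⟩ := hsize (h * L) Y hH1 (by linarith) hYd
    have hh0 : 0 < h := by rw [hh]; positivity
    have hlo : C₀ / L ≤ h := by
      rw [div_le_iff₀ hL0]
      linarith
    have hhi : h ≤ 1 / Real.log L := win_le hL0 (by linarith) (by linarith) hH2
    have h1 := hdev h hlo hhi (-Y) (by rw [abs_neg, abs_of_nonneg hY0]; exact hY1)
    rw [neg_sq] at h1
    have h2 : T * Real.exp (-x) ≤ T * Real.exp (-(C₁ * (1 + Y ^ 2 / Real.log (2 + h * L / (1 + Y ^ 2))))) :=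
      mul_le_mul_of_nonneg_left (Real.exp_le_exp.2 (neg_le_neg hY2)) hT0.le
    have h3 := hcnt x hxL _ (fun t ht => ⟨ht.1, ht.2.1⟩) (h2.trans h1)
    refine hfinal _ (h3.trans (mul_le_mul_of_nonneg_left ?_ hC₄.le))
    have h4 := sub_large (D := K * Real.sqrt (Real.log (2 + h * L))) hT16 hh0 hloc hH₁ hR hhL hYd
    rw [← hh]
    exact_mod_cast Set.ncard_le_ncard h4 (fin_n T _)
  · -- small r-gaps
    obtain ⟨h, hh⟩ : ∃ h : ℝ, h = 2 * Real.pi / L * (R - V) := ⟨_, rfl⟩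
    have hhL : h * L = 2 * Real.pi * (R - V) := by rw [hh]; field_simp
    have hH1 : 3 * R ≤ h * L := by rw [hhL]; linarith
    have hH2 : h * L ≤ 7 * R := by rw [hhL]; linarith
    obtain ⟨Y, hYd⟩ : ∃ Y : ℝ, Y = Real.pi * (V + 1) + K * Real.sqrt (Real.log (2 + h * L)) := ⟨_, rfl⟩
    obtain ⟨hY0, hY1, hY2⟩ := hsize (h * L) Y hH1 (by linarith) hYd
    have hh0 : 0 < h := by
      rw [hh]
      have : 0 < R - V := by linarith
      positivity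
    have hlo : C₀ / L ≤ h := by
      rw [div_le_iff₀ hL0]
      linarith
    have hhi : h ≤ 1 / Real.log L := win_le hL0 (by linarith) (by linarith) hH2
    have h1 := hdev h hlo hhi Y (by rw [abs_of_nonneg hY0]; exact hY1)
    have h2 : T * Real.exp (-x) ≤ T * Real.exp (-(C₁ * (1 + Y ^ 2 / Real.log (2 + h * L / (1 + Y ^ 2))))) :=
      mul_le_mul_of_nonneg_left (Real.exp_le_exp.2 (neg_le_neg hY2)) hT0.le
    have h3 := hcnt x hxL _ (fun t ht => ⟨ht.1, ht.2.1⟩) (h2.trans h1)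
    refine hfinal _ (h3.trans (mul_le_mul_of_nonneg_left ?_ hC₄.le))
    rw [← Set.ncard_image_of_injective _ (add_left_injective 1)]
    have h4 := sub_small (D := K * Real.sqrt (Real.log (2 + h * L))) hT16 hh0 hloc hH₁ hR hhL hYd
    rw [← hh]
    exact_mod_cast Set.ncard_le_ncard h4 (fin_n T _)

end

end Pool.Agent.U761.SZ
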