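import Pool.Agent.U761.SZ.RGF

set_option autoImplicit false

/-!
U761.SZ: r-gaps between the ordinates of the zeros, unconditional, for every `r ≥ 1`.
-/

namespace Pool.Agent.U761.SZ

open Filter Topology MeasureTheory Complex

noncomputable section

/-- the number of zeros in a bounded window -/
theorem nz_log {M : ℝ} (hM : 0 < M) : ∃ C : ℝ, 0 < C ∧ ∀ᶠ T : ℝ in atTop, (Nz (2 * T - M) (2 * T) : ℝ) ≤ C * Real.log T := by
  obtain ⟨C, hC, hz⟩ := zcount2
  obtain ⟨C', hC', ha⟩ := aS_bd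
  refine ⟨(M + 2) + 4 * C' + C * (M + 2), by positivity, ?_⟩
  filter_upwards [eventually_ge_atTop (100 + M), Real.tendsto_log_atTop.eventually_ge_atTop 1] with T hT hL
  obtain ⟨u, u1, u2, u3, u4⟩ := ex_good (show 2 * T - M - 1 < 2 * T - M by linarith)
  obtain ⟨v, v1, v2, v3, v4⟩ := ex_good (show 2 * T < 2 * T + 1 by linarith)
  have h1 := hz u v (by linarith) (by linarith) (by linarith) u3 v3
  have h2 := ha u (by linarith) u3
  have h3 := ha v (by linarith) v3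
  rw [u4, v4] at h1
  have hT2 : 2 * T + 1 ≤ T ^ 2 := by nlinarith
  have hlog : ∀ x : ℝ, 0 < x → x ≤ 2 * T + 1 → Real.log x ≤ 2 * Real.log T := by
    intro x hx hx2
    have h5 : Real.log x ≤ Real.log (T ^ 2) := Real.log_le_log hx (hx2.trans hT2)
    rwa [Real.log_pow] at h5
  have h4 := hlog u (by linarith) (by linarith)
  have h5 := hlog v (by linarith) (by linarith)
  have h6 : (v - u) / 2 * Real.log u ≤ (M + 2) / 2 * (2 * Real.log T) :=
    mul_le_mul (by linarith) h4 (Real.log_nonneg (by linarith)) (by linarith)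
  have h7 : C' * Real.log u ≤ C' * (2 * Real.log T) := mul_le_mul_of_nonneg_left h4 hC'.le
  have h8 : C' * Real.log v ≤ C' * (2 * Real.log T) := mul_le_mul_of_nonneg_left h5 hC'.le
  have h9 : C * (v - u) ≤ C * (M + 2) * Real.log T := by
    calc C * (v - u) ≤ C * (M + 2) * 1 := by
          rw [mul_one]
          exact mul_le_mul_of_nonneg_left (by linarith) hC.le
      _ ≤ _ := mul_le_mul_of_nonneg_left hL (by positivity)
  have h10 := (abs_le.1 h1).2
  have h11 := neg_abs_le (aS u)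
  have h12 := le_abs_self (aS v)
  have h13 : (Nz (2 * T - M) (2 * T) : ℝ) ≤ (Nz u v : ℝ) := by exact_mod_cast Nz_mono u2.le (by linarith) v1.le
  have h14 : (Nz u v : ℝ) ≤ Real.pi * (Nz u v : ℝ) :=
    le_mul_of_one_le_left (Nat.cast_nonneg _) (by linarith [Real.pi_gt_three])
  linarith

/-- consecutive ordinates have bounded distance -/
theorem gap_max : ∃ H₁ T₀ : ℝ, 2 ≤ H₁ ∧ 10 ≤ T₀ ∧ ∀ n : ℕ, 1 ≤ n → T₀ ≤ gam n → ∀ j : ℕ, gam (n + j) ≤ gam n + H₁ * j := by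
  obtain ⟨H₁, T₀, hH₁, hT₀, hg⟩ := maxgap
  refine ⟨H₁, T₀, hH₁, hT₀, fun n hn hT j => ?_⟩
  induction j with
  | zero => simp
  | succ j ih =>
    have h1 : gam n ≤ gam (n + j) := gam_mono hn (by omega)
    have h2 := hg (gam (n + j)) (by linarith)
    have h3 : n + j ≤ NZ (gam (n + j)) := (gam_le_iff (by omega) _).1 le_rfl
    have h4 : gam (n + (j + 1)) ≤ gam (n + j) + H₁ := by
      rw [gam_le_iff (by omega), NZ_add (by linarith : 0 ≤ gam (n + j)) (by linarith : gam (n + j) ≤ gam (n + j) + H₁)]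
      omega
    push_cast
    linarith

/-- pigeon holes -/
theorem pigeon {T M : ℝ} (hTM : M ≤ 2 * T) (hM : 0 ≤ M) {k r : ℕ} (P Q : ℕ → Prop)
    (h : ∀ n : ℕ, 1 ≤ n → T < gam n → gam n ≤ 2 * T - M → P n → ∃ j < k, gam (n + j * r) ≤ 2 * T ∧ Q (n + j * r)) :
    {n : ℕ | 1 ≤ n ∧ T < gam n ∧ gam n ≤ 2 * T ∧ P n}.ncard ≤
      k * {n : ℕ | 1 ≤ n ∧ T < gam n ∧ gam n ≤ 2 * T ∧ Q n}.ncard + Nz (2 * T - M) (2 * T) := by
  classical
  have hA := fin_n T P
  have hB := fin_n T Q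
  rw [Set.ncard_eq_toFinset_card _ hA, Set.ncard_eq_toFinset_card _ hB]
  have hsub : hA.toFinset ⊆ ((Finset.range k).biUnion fun j => hB.toFinset.image fun m => m - j * r) ∪
      Finset.Ioc (NZ (2 * T - M)) (NZ (2 * T)) := by
    intro n hn
    rw [Set.Finite.mem_toFinset] at hn
    obtain ⟨n1, n2, n3, n4⟩ := hn
    rw [Finset.mem_union]
    rcases le_or_gt (gam n) (2 * T - M) with h1 | h1
    · left
      obtain ⟨j, hj, h2, h3⟩ := h n n1 n2 h1 n4
      rw [Finset.mem_biUnion]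
      refine ⟨j, Finset.mem_range.2 hj, ?_⟩
      rw [Finset.mem_image]
      refine ⟨n + j * r, ?_, by omega⟩
      rw [Set.Finite.mem_toFinset]
      exact ⟨by omega, lt_of_lt_of_le n2 (gam_mono n1 (by omega)), h2, h3⟩
    · right
      rw [Finset.mem_Ioc]
      exact ⟨(lt_gam_iff n1 _).1 h1, (gam_le_iff n1 _).1 n3⟩
  refine (Finset.card_le_card hsub).trans ((Finset.card_union_le _ _).trans (Nat.add_le_add ?_ ?_))
  · refine (Finset.card_biUnion_le_card_mul _ _ hB.toFinset.card fun j _ => Finset.card_image_le).trans ?_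
    rw [Finset.card_range]
  · rw [Nat.card_Ioc, NZ_add (by linarith : 0 ≤ 2 * T - M) (by linarith : 2 * T - M ≤ 2 * T)]
    omega

/-- telescoping sum of `r`-gaps -/
theorem tele (n r k : ℕ) : ∑ j ∈ Finset.range k, (gam (n + j * r + r) - gam (n + j * r)) = gam (n + k * r) - gam n := by
  induction k with
  | zero => simp
  | succ k ih =>
    rw [Finset.sum_range_succ, ih]
    have e : n + (k + 1) * r = n + k * r + r := by ring
    rw [e]
    ring

/-- the constants for small `r` -/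
theorem const_fin {T L a C C' : ℝ} {k A B E : ℕ} (hk : 1 ≤ k) (hT : 0 < T) (hL : 0 < L) (ha : 0 < a)
    (hA : T * L * a ≤ A) (hAB : A ≤ k * B + E) (hE : (E : ℝ) ≤ C * L) (hTC : 2 * C / a ≤ T)
    (hC' : |Real.log (a / (2 * k))| ≤ C') : T * L * Real.exp (-C') ≤ B := by
  have hk0 : (0 : ℝ) < k := by exact_mod_cast hk
  have hAB : (A : ℝ) ≤ k * B + E := by exact_mod_cast hAB
  have h1 : Real.exp (-C') ≤ a / (2 * k) := by
    have h2 : -C' ≤ Real.log (a / (2 * k)) := by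
      have := neg_abs_le (Real.log (a / (2 * k)))
      linarith
    calc Real.exp (-C') ≤ Real.exp (Real.log (a / (2 * k))) := Real.exp_le_exp.2 h2
      _ = _ := Real.exp_log (by positivity)
  have h2 : 2 * C ≤ T * a := by rwa [div_le_iff₀ ha] at hTC
  have h3 : 2 * C * L ≤ T * a * L := mul_le_mul_of_nonneg_right h2 hL.le
  have h4 : T * L * (a / 2) ≤ k * B := by linarith
  have h5 : T * L * (a / (2 * k)) ≤ B := by
    have e : T * L * (a / (2 * k)) = T * L * (a / 2) / k := by field_simp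
    rw [e, div_le_iff₀ hk0]
    linarith
  exact (mul_le_mul_of_nonneg_left h1 (by positivity)).trans h5

/-- `k r` with the maximal deviation -/
theorem dev_kr {c : ℝ} (hc : 0 < c) {k r : ℕ} (hk : 1 ≤ k) {V : ℝ} (hV : V ≤ c / k * Real.sqrt r) :
    V ≤ c * Real.sqrt ((k * r : ℕ) : ℝ) / k := by
  have hk0 : (1 : ℝ) ≤ k := by exact_mod_cast hk
  refine hV.trans ?_
  rw [Nat.cast_mul, Real.sqrt_mul (by positivity)]
  have h1 : 1 ≤ Real.sqrt k := Real.one_le_sqrt.2 hk0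
  have h2 : Real.sqrt r ≤ Real.sqrt k * Real.sqrt r := le_mul_of_one_le_left (Real.sqrt_nonneg _) h1
  calc c / k * Real.sqrt r ≤ c / k * (Real.sqrt k * Real.sqrt r) := mul_le_mul_of_nonneg_left h2 (by positivity)
    _ = _ := by ring

/-- the exponent at the maximal deviation -/
theorem exp_kr {c C : ℝ} (hC : 0 < C) {R k : ℝ} (hR0 : 0 ≤ R) (hR : R ≤ k ^ 2) :
    Real.exp (-(C * (1 + c ^ 2 * k ^ 2 / Real.log 2))) ≤
      Real.exp (-(C * (1 + (c * Real.sqrt R) ^ 2 / Real.log (2 + R / (1 + (c * Real.sqrt R) ^ 2))))) := by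
  have hl2 := Real.log_pos one_lt_two
  refine Real.exp_le_exp.2 (neg_le_neg (mul_le_mul_of_nonneg_left (add_le_add le_rfl ?_) hC.le))
  have h1 : (c * Real.sqrt R) ^ 2 ≤ c ^ 2 * k ^ 2 := by
    rw [mul_pow, Real.sq_sqrt hR0]
    exact mul_le_mul_of_nonneg_left hR (sq_nonneg _)
  refine div_le_div₀ (by positivity) h1 hl2 (Real.log_le_log (by norm_num) ?_)
  have : 0 ≤ R / (1 + (c * Real.sqrt R) ^ 2) := by positivity
  linarith

/-- the final constant -/
theorem const_mono {C C' φ A B : ℝ} (hφ : 0 ≤ φ) (hA : 0 ≤ A) (hC : 0 ≤ C') (h : A * Real.exp (-C') ≤ B) (hCC : C' ≤ C) :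
    A * Real.exp (-(C * (1 + φ))) ≤ B := by
  refine le_trans (mul_le_mul_of_nonneg_left (Real.exp_le_exp.2 ?_) hA) h
  have h1 : 0 ≤ C * φ := mul_nonneg (hC.trans hCC) hφ
  linarith

theorem phi_nonneg {R V : ℝ} (hR : 0 ≤ R) : 0 ≤ V ^ 2 / Real.log (2 + R / (1 + V ^ 2)) := by
  refine div_nonneg (sq_nonneg _) (Real.log_nonneg ?_)
  have : 0 ≤ R / (1 + V ^ 2) := by positivity
  linarith

theorem LL_tendsto : Tendsto (fun T : ℝ => Real.log T / Real.log (Real.log T)) atTop atTop := by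
  have h1 : Tendsto (fun x : ℝ => x / Real.log x) atTop atTop := by
    have h2 := Real.isLittleO_log_id_atTop.tendsto_div_nhds_zero
    have h3 : Tendsto (fun x : ℝ => (Real.log x / x)⁻¹) atTop atTop := by
      refine Tendsto.inv_tendsto_nhdsGT_zero ?_
      refine tendsto_nhdsWithin_iff.2 ⟨h2, ?_⟩
      filter_upwards [eventually_gt_atTop 1] with x hx
      exact div_pos (Real.log_pos hx) (by linarith)
    refine h3.congr fun x => ?_
    rw [inv_div]
  exact h1.comp Real.tendsto_log_atTop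

/-- the pigeon hole step for small gaps -/
theorem pig_small {T L V W : ℝ} {k r : ℕ} (hT : 10 ≤ T) (hL : 0 < L) (hk1 : 1 ≤ k) (hw1 : 2 * Real.pi / L * (((k * r : ℕ) : ℝ) - W) ≤ 1)
    (hVW : V ≤ W / k) :
    {n : ℕ | 1 ≤ n ∧ T < gam n ∧ gam n ≤ 2 * T ∧ gam (n + k * r) - gam n ≤ 2 * Real.pi / L * (((k * r : ℕ) : ℝ) - W)}.ncard ≤
      k * {n : ℕ | 1 ≤ n ∧ T < gam n ∧ gam n ≤ 2 * T ∧ gam (n + r) - gam n ≤ 2 * Real.pi / L * (r - V)}.ncard +
        Nz (2 * T - 1) (2 * T) := by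
  have hk0 : (0 : ℝ) < k := by exact_mod_cast hk1
  refine pigeon (r := r) (by linarith) (by norm_num) (fun n => gam (n + k * r) - gam n ≤ 2 * Real.pi / L * (((k * r : ℕ) : ℝ) - W)) _
    (fun n n1 _ n3 n4 => ?_)
  have h1 : ∑ j ∈ Finset.range k, (gam (n + j * r + r) - gam (n + j * r)) ≤
      ∑ _j ∈ Finset.range k, 2 * Real.pi / L * (((k * r : ℕ) : ℝ) - W) / k := by
    rw [tele, Finset.sum_const, Finset.card_range, nsmul_eq_mul, mul_div_cancel₀ _ hk0.ne']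
    exact n4
  obtain ⟨j, hj, h2⟩ := Finset.exists_le_of_sum_le (by simpa using (by omega : k ≠ 0)) h1
  refine ⟨j, Finset.mem_range.1 hj, ?_, h2.trans ?_⟩
  · have h3 : gam (n + j * r) ≤ gam (n + k * r) := by
      refine gam_mono (by omega) ?_
      have := Nat.mul_le_mul_right r (Finset.mem_range.1 hj).le
      omega
    linarith
  · have e : 2 * Real.pi / L * (((k * r : ℕ) : ℝ) - W) / k = 2 * Real.pi / L * (r - W / k) := by
      push_cast
      field_simp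
    rw [e]
    exact mul_le_mul_of_nonneg_left (by linarith) (by positivity)

/-- the pigeon hole step for large gaps -/
theorem pig_large {T L V W H₁ T₀ : ℝ} {k r : ℕ} (hT₀ : 10 ≤ T₀) (hH₁ : 2 ≤ H₁) (hT : T₀ + H₁ * (k : ℝ) ^ 2 ≤ T) (hL : 0 < L) (hk1 : 1 ≤ k)
    (hrk : r < k) (hg : ∀ n : ℕ, 1 ≤ n → T₀ ≤ gam n → ∀ j : ℕ, gam (n + j) ≤ gam n + H₁ * j) (hVW : V ≤ W / k) :
    {n : ℕ | 1 ≤ n ∧ T < gam n ∧ gam n ≤ 2 * T ∧ 2 * Real.pi / L * (((k * r : ℕ) : ℝ) + W) ≤ gam (n + k * r) - gam n}.ncard ≤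
      k * {n : ℕ | 1 ≤ n ∧ T < gam n ∧ gam n ≤ 2 * T ∧ 2 * Real.pi / L * (r + V) ≤ gam (n + r) - gam n}.ncard +
        Nz (2 * T - H₁ * (k : ℝ) ^ 2) (2 * T) := by
  have hk0 : (0 : ℝ) < k := by exact_mod_cast hk1
  have hHk : 0 ≤ H₁ * (k : ℝ) ^ 2 := by positivity
  refine pigeon (r := r) (by linarith) hHk (fun n => 2 * Real.pi / L * (((k * r : ℕ) : ℝ) + W) ≤ gam (n + k * r) - gam n) _
    (fun n n1 n2 n3 n4 => ?_)
  have h1 : ∑ _j ∈ Finset.range k, 2 * Real.pi / L * (((k * r : ℕ) : ℝ) + W) / k ≤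
      ∑ j ∈ Finset.range k, (gam (n + j * r + r) - gam (n + j * r)) := by
    rw [tele, Finset.sum_const, Finset.card_range, nsmul_eq_mul, mul_div_cancel₀ _ hk0.ne']
    exact n4
  obtain ⟨j, hj, h2⟩ := Finset.exists_le_of_sum_le (by simpa using (by omega : k ≠ 0)) h1
  have hj := Finset.mem_range.1 hj
  refine ⟨j, hj, ?_, le_trans ?_ h2⟩
  · have h3 := hg n n1 (by linarith) (j * r)
    have h4 : ((j * r : ℕ) : ℝ) ≤ (k : ℝ) ^ 2 := by
      have : j * r ≤ k ^ 2 := by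
        rw [sq]
        exact Nat.mul_le_mul hj.le hrk.le
      exact_mod_cast this
    have h5 := mul_le_mul_of_nonneg_left h4 (by linarith : (0 : ℝ) ≤ H₁)
    linarith
  · have e : 2 * Real.pi / L * (((k * r : ℕ) : ℝ) + W) / k = 2 * Real.pi / L * (r + W / k) := by
      push_cast
      field_simp
    rw [e]
    exact mul_le_mul_of_nonneg_left (by linarith) (by positivity)

/-- **r-gaps**, every `r ≥ 1` -/
theorem rgaps1 : ∃ c C : ℝ, 0 < c ∧ 0 < C ∧ ∀ᶠ T : ℝ in atTop, ∀ r : ℕ, 1 ≤ r →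
    (r : ℝ) ≤ c * (Real.log T / Real.log (Real.log T)) → ∀ V : ℝ, 0 ≤ V → V ≤ c * Real.sqrt r →
      T * Real.log T * Real.exp (-(C * (1 + V ^ 2 / Real.log (2 + r / (1 + V ^ 2))))) ≤
        ({n : ℕ | 1 ≤ n ∧ T < gam n ∧ gam n ≤ 2 * T ∧ 2 * Real.pi / Real.log T * (r + V) ≤ gam (n + r) - gam n}.ncard : ℝ) ∧
      T * Real.log T * Real.exp (-(C * (1 + V ^ 2 / Real.log (2 + r / (1 + V ^ 2))))) ≤
        ({n : ℕ | 1 ≤ n ∧ T < gam n ∧ gam n ≤ 2 * T ∧ gam (n + r) - gam n ≤ 2 * Real.pi / Real.log T * (r - V)}.ncard : ℝ) := by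
  obtain ⟨c, C, r₀, hc, hC, hmain⟩ := rgaps
  obtain ⟨H₁, T₀, hH₁, hT₀, hg⟩ := gap_max
  obtain ⟨k, hk⟩ : ∃ k : ℕ, k = max r₀ 1 := ⟨_, rfl⟩
  have hk1 : 1 ≤ k := by rw [hk]; exact le_max_right _ _
  have hkr : r₀ ≤ k := by rw [hk]; exact le_max_left _ _
  have hk0 : (1 : ℝ) ≤ k := by exact_mod_cast hk1
  obtain ⟨CE, hCE, hE⟩ := nz_log (M := 1) one_pos
  obtain ⟨CE', hCE', hE'⟩ := nz_log (M := H₁ * (k : ℝ) ^ 2) (by positivity)
  obtain ⟨a, ha⟩ : ∃ a : ℝ, a = Real.exp (-(C * (1 + c ^ 2 * (k : ℝ) ^ 2 / Real.log 2))) := ⟨_, rfl⟩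
  have ha0 : 0 < a := by rw [ha]; exact Real.exp_pos _
  have hck : c / k ≤ c := by
    rw [div_le_iff₀ (by linarith)]
    exact le_mul_of_one_le_right hc.le hk0
  refine ⟨c / k, C + |Real.log (a / (2 * k))|, by positivity, by positivity, ?_⟩
  filter_upwards [hmain, hE, hE', LL_tendsto.eventually_ge_atTop ((k : ℝ) ^ 2 / c), Real.tendsto_log_atTop.eventually_ge_atTop (8 * (k : ℝ) ^ 2 + 1),
    eventually_ge_atTop (max (T₀ + H₁ * (k : ℝ) ^ 2) (max (2 * CE / a) (2 * CE' / a)))] with T hmain hE hE' hLL hL hT r hr hrT V hV0 hV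
  have hTT : T₀ + H₁ * (k : ℝ) ^ 2 ≤ T := (le_max_left _ _).trans hT
  have hTa : 2 * CE / a ≤ T := ((le_max_left _ _).trans (le_max_right _ _)).trans hT
  have hTa' : 2 * CE' / a ≤ T := ((le_max_right _ _).trans (le_max_right _ _)).trans hT
  have hHk : 0 ≤ H₁ * (k : ℝ) ^ 2 := by positivity
  have hT10 : 10 ≤ T := by linarith
  have hT0 : 0 < T := by linarith
  have hk2 : 0 ≤ (k : ℝ) ^ 2 := sq_nonneg _
  have hL0 : 0 < Real.log T := by linarith
  have hLLnn : 0 ≤ Real.log T / Real.log (Real.log T) := le_trans (by positivity) hLL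
  have hsr := Real.sqrt_nonneg (r : ℝ)
  have hφ := phi_nonneg (V := V) (Nat.cast_nonneg r)
  obtain ⟨φ, hφd⟩ : ∃ φ : ℝ, φ = V ^ 2 / Real.log (2 + (r : ℝ) / (1 + V ^ 2)) := ⟨_, rfl⟩
  have hTL : 0 ≤ T * Real.log T := by positivity
  rcases Nat.lt_or_ge r k with hrk | hrk
  · -- small r
    have hkrr : r₀ ≤ k * r := hkr.trans (Nat.le_mul_of_pos_right _ hr)
    have hR2 : ((k * r : ℕ) : ℝ) ≤ (k : ℝ) ^ 2 := by
      rw [Nat.cast_mul, sq]
      exact mul_le_mul_of_nonneg_left (by exact_mod_cast hrk.le) (by linarith)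
    have hRT : ((k * r : ℕ) : ℝ) ≤ c * (Real.log T / Real.log (Real.log T)) := by
      refine hR2.trans ?_
      rw [div_le_iff₀ hc] at hLL
      linarith
    obtain ⟨h1, h1'⟩ := hmain (k * r) hkrr hRT (c * Real.sqrt ((k * r : ℕ) : ℝ)) (by positivity) le_rfl
    have hdev := dev_kr hc hk1 hV
    have h2 := exp_kr (c := c) hC (Nat.cast_nonneg (k * r)) hR2
    obtain ⟨W, hW⟩ : ∃ W : ℝ, W = c * Real.sqrt ((k * r : ℕ) : ℝ) := ⟨_, rfl⟩
    have hW0 : 0 ≤ W := by rw [hW]; positivity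
    rw [← hW] at h1 h1' h2 hdev
    rw [← ha] at h2
    have h3 := (mul_le_mul_of_nonneg_left h2 hTL).trans h1
    have h3' := (mul_le_mul_of_nonneg_left h2 hTL).trans h1'
    have hw1 : 2 * Real.pi / Real.log T * (((k * r : ℕ) : ℝ) - W) ≤ 1 := by
      have h4 : ((k * r : ℕ) : ℝ) - W ≤ (k : ℝ) ^ 2 := by linarith
      calc 2 * Real.pi / Real.log T * (((k * r : ℕ) : ℝ) - W) ≤ 2 * Real.pi / Real.log T * (k : ℝ) ^ 2 :=
            mul_le_mul_of_nonneg_left h4 (by positivity)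
        _ = (2 * Real.pi * (k : ℝ) ^ 2) / Real.log T := by ring
        _ ≤ 1 := by
          rw [div_le_one hL0]
          have h5 : 2 * Real.pi * (k : ℝ) ^ 2 ≤ 8 * (k : ℝ) ^ 2 := mul_le_mul_of_nonneg_right (by linarith [Real.pi_lt_four]) hk2
          linarith
    have hps := pig_small (r := r) hT10 hL0 hk1 hw1 hdev
    have hpl := pig_large (r := r) (V := V) (W := W) hT₀ hH₁ hTT hL0 hk1 hrk hg hdev
    constructor
    · have h4 := const_fin hk1 hT0 hL0 ha0 h3 hpl hE' hTa' le_rfl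
      exact const_mono hφ hTL (abs_nonneg _) h4 (by linarith)
    · have h4 := const_fin hk1 hT0 hL0 ha0 h3' hps hE hTa le_rfl
      exact const_mono hφ hTL (abs_nonneg _) h4 (by linarith)
  · have h1 := hmain r (hkr.trans hrk) (hrT.trans (mul_le_mul_of_nonneg_right hck hLLnn)) V hV0 (hV.trans (mul_le_mul_of_nonneg_right hck hsr))
    have h2 : T * Real.log T * Real.exp (-((C + |Real.log (a / (2 * k))|) * (1 + V ^ 2 / Real.log (2 + r / (1 + V ^ 2))))) ≤
        T * Real.log T * Real.exp (-(C * (1 + V ^ 2 / Real.log (2 + r / (1 + V ^ 2))))) := by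
      refine mul_le_mul_of_nonneg_left (Real.exp_le_exp.2 (neg_le_neg ?_)) hTL
      exact mul_le_mul_of_nonneg_right (by linarith [abs_nonneg (Real.log (a / (2 * k)))]) (by linarith)
    exact ⟨h2.trans h1.1, h2.trans h1.2⟩

end

end Pool.Agent.U761.SZ
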