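import Pool.Agent.U761.SZ.LDT
import Pool.Agent.Q97.UM.Wa

set_option autoImplicit false

/-!
U761.SZ: from means to sets of positive mass.
-/

namespace Pool.Agent.U761.SZ

open Filter Topology MeasureTheory Complex
open Pool.Agent.Q97.UM Pool.Agent.Q247.UM Pool.Agent.Q241.UM

noncomputable section

/-- windows with the right share -/
theorem share {f g V : ℝ → ℝ} (mf : Measurable f) (mg : Measurable g) {Bf Bg : ℝ} (bf : ∀ t, |f t| ≤ Bf) (bg : ∀ t, |g t| ≤ Bg)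
    (hV : Continuous V) (hV0 : ∀ t, 0 ≤ V t) (hfg : ∀ t, f t ≤ g t) (hg0 : ∀ t, 0 ≤ g t) {x y : ℝ} (hxy : x ≤ y)
    {h M A ε ε₁ v : ℝ} (h0 : 0 < h) (hM : 0 ≤ M) (hε : 0 < ε) (hε1 : ε ≤ 1) (hA1 : A ≤ 1) (hAε : ε ≤ A) (hε₁ : 0 ≤ ε₁) (hε₁1 : 8 * ε₁ ≤ ε)
    (hv : 8 * v ≤ ε ^ 3 * h ^ 2)
    (Hf : (A - ε₁) * h * M ≤ ∫ t in x..y, f t * V t) (Hg : ∫ t in x..y, g t * V t ≤ (1 + ε₁) * h * M)
    (Hv : ∫ t in x..y, (g t - h) ^ 2 * V t ≤ v * M) :
    ε / 4 * M ≤ ∫ t in {t : ℝ | (x < t ∧ t ≤ y) ∧ (A - ε) * g t ≤ f t ∧ |g t - h| ≤ ε * h}, V t := by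
  set G : Set ℝ := {t : ℝ | (x < t ∧ t ≤ y) ∧ (A - ε) * g t ≤ f t ∧ |g t - h| ≤ ε * h} with hG
  have mG : MeasurableSet G := by
    have h1 : MeasurableSet {t : ℝ | (A - ε) * g t ≤ f t} := measurableSet_le (mg.const_mul _) mf
    have h2 : MeasurableSet {t : ℝ | |g t - h| ≤ ε * h} := measurableSet_le ((mg.sub measurable_const).abs) measurable_const
    have e : G = Set.Ioc x y ∩ ({t : ℝ | (A - ε) * g t ≤ f t} ∩ {t : ℝ | |g t - h| ≤ ε * h}) := by
      ext t
      simp only [hG, Set.mem_setOf_eq, Set.mem_inter_iff, Set.mem_Ioc]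
    rw [e]
    exact measurableSet_Ioc.inter (h1.inter h2)
  have hGs : G ⊆ Set.Ioc x y := fun t ht => ⟨ht.1.1, ht.1.2⟩
  have iV : IntegrableOn V (Set.Ioc x y) := (hV.integrableOn_Icc (a := x) (b := y)).mono_set Set.Ioc_subset_Icc_self
  have key : ∀ {u : ℝ → ℝ}, Measurable u → (∃ B, ∀ t, |u t| ≤ B) → IntegrableOn (fun t => u t * V t) (Set.Ioc x y) := by
    intro u mu ⟨B, hB⟩
    refine Integrable.mono' (iV.const_mul B) (mu.mul hV.measurable).aestronglyMeasurable (Eventually.of_forall fun t => ?_)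
    rw [Real.norm_eq_abs, abs_mul, abs_of_nonneg (hV0 t)]
    exact mul_le_mul_of_nonneg_right (hB t) (hV0 t)
  have iF := key mf ⟨Bf, bf⟩
  have iG := key mg ⟨Bg, bg⟩
  have iq := key (u := fun t => (g t - h) ^ 2) ((mg.sub measurable_const).pow_const 2) ⟨(Bg + h) ^ 2, fun t => by
    rw [abs_of_nonneg (sq_nonneg _), ← sq_abs (g t - h)]
    refine pow_le_pow_left₀ (abs_nonneg _) ?_ 2
    refine (abs_sub _ _).trans ?_
    rw [abs_of_pos h0]
    linarith [bg t]⟩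
  have iI : IntegrableOn (fun t => G.indicator V t) (Set.Ioc x y) := iV.indicator mG
  rw [intervalIntegral.integral_of_le hxy] at Hf Hg Hv
  have hpt : ∀ t ∈ Set.Ioc x y, f t * V t ≤ (A - ε) * (g t * V t) + (1 + ε) * h * G.indicator V t + 2 / (ε ^ 2 * h) * ((g t - h) ^ 2 * V t) := by
    intro t ht
    by_cases hc : t ∈ G
    · rw [Set.indicator_of_mem hc]
      have h1 : f t ≤ (1 + ε) * h := by
        have := (abs_le.1 hc.2.2).2
        linarith [hfg t]
      have h2 := mul_le_mul_of_nonneg_right h1 (hV0 t)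
      have h3 : 0 ≤ (A - ε) * (g t * V t) := mul_nonneg (by linarith) (mul_nonneg (hg0 t) (hV0 t))
      have h4 : 0 ≤ 2 / (ε ^ 2 * h) * ((g t - h) ^ 2 * V t) := mul_nonneg (by positivity) (mul_nonneg (sq_nonneg _) (hV0 t))
      linarith
    · rw [Set.indicator_of_notMem hc, mul_zero, add_zero]
      by_cases h5 : (A - ε) * g t ≤ f t
      · have h6 : ε * h < |g t - h| := by
          by_contra hcon
          push Not at hcon
          exact hc ⟨⟨ht.1, ht.2⟩, h5, hcon⟩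
        have h7 : g t ≤ 2 / (ε ^ 2 * h) * (g t - h) ^ 2 := by
          have h8 : g t ≤ |g t - h| + h := by linarith [le_abs_self (g t - h)]
          have hb : 0 < ε * h := by positivity
          obtain ⟨a, ha⟩ : ∃ a : ℝ, a = |g t - h| := ⟨_, rfl⟩
          rw [← sq_abs (g t - h), ← ha]
          rw [← ha] at h6 h8
          have ha0 : 0 < a := hb.trans h6
          have h9 : a + h ≤ 2 / (ε ^ 2 * h) * a ^ 2 := by
            rw [div_mul_eq_mul_div, le_div_iff₀ (by positivity)]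
            have k1 : (ε * h) * a ≤ a * a := mul_le_mul_of_nonneg_right h6.le ha0.le
            have k2 : ε * ((ε * h) * a) ≤ 1 * (a * a) := mul_le_mul hε1 k1 (by positivity) (by norm_num)
            have k3 : (ε * h) * (ε * h) ≤ a * a := mul_le_mul h6.le h6.le hb.le ha0.le
            linarith [show (a + h) * (ε ^ 2 * h) = ε * ((ε * h) * a) + (ε * h) * (ε * h) by ring, show 2 * a ^ 2 = 2 * (a * a) by ring]
          linarith
        have h10 := mul_le_mul_of_nonneg_right ((hfg t).trans h7) (hV0 t)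
        have h3 : 0 ≤ (A - ε) * (g t * V t) := mul_nonneg (by linarith) (mul_nonneg (hg0 t) (hV0 t))
        linarith [show 2 / (ε ^ 2 * h) * ((g t - h) ^ 2 * V t) = 2 / (ε ^ 2 * h) * (g t - h) ^ 2 * V t by ring]
      · push Not at h5
        have h6 := mul_le_mul_of_nonneg_right h5.le (hV0 t)
        have h4 : 0 ≤ 2 / (ε ^ 2 * h) * ((g t - h) ^ 2 * V t) := mul_nonneg (by positivity) (mul_nonneg (sq_nonneg _) (hV0 t))
        linarith [show (A - ε) * g t * V t = (A - ε) * (g t * V t) by ring]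
  have i12 : IntegrableOn (fun t => (A - ε) * (g t * V t) + (1 + ε) * h * G.indicator V t) (Set.Ioc x y) :=
    (iG.const_mul (A - ε)).add (iI.const_mul ((1 + ε) * h))
  have i123 : IntegrableOn (fun t => (A - ε) * (g t * V t) + (1 + ε) * h * G.indicator V t + 2 / (ε ^ 2 * h) * ((g t - h) ^ 2 * V t)) (Set.Ioc x y) :=
    i12.add (iq.const_mul (2 / (ε ^ 2 * h)))
  have h1 := setIntegral_mono_on iF i123 measurableSet_Ioc hpt
  have h2 : ∫ t in Set.Ioc x y, ((A - ε) * (g t * V t) + (1 + ε) * h * G.indicator V t + 2 / (ε ^ 2 * h) * ((g t - h) ^ 2 * V t)) =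
      (A - ε) * (∫ t in Set.Ioc x y, g t * V t) + (1 + ε) * h * (∫ t in G, V t) + 2 / (ε ^ 2 * h) * ∫ t in Set.Ioc x y, (g t - h) ^ 2 * V t := by
    rw [integral_add i12 (iq.const_mul _), integral_add (iG.const_mul _) (iI.const_mul _), integral_const_mul, integral_const_mul, integral_const_mul, setIntegral_indicator mG, Set.inter_eq_self_of_subset_right hGs]
  have h3 : ∫ t in Set.Ioc x y, f t * V t ≤ (A - ε) * ((1 + ε₁) * h * M) + (1 + ε) * h * (∫ t in G, V t) + 2 / (ε ^ 2 * h) * (v * M) := by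
    refine h1.trans ?_
    have h4 : (A - ε) * (∫ t in Set.Ioc x y, g t * V t) ≤ (A - ε) * ((1 + ε₁) * h * M) := mul_le_mul_of_nonneg_left Hg (by linarith)
    have h5 : 2 / (ε ^ 2 * h) * (∫ t in Set.Ioc x y, (g t - h) ^ 2 * V t) ≤ 2 / (ε ^ 2 * h) * (v * M) :=
      mul_le_mul_of_nonneg_left Hv (by positivity)
    rw [h2]
    linarith
  obtain ⟨m, hm⟩ : ∃ m : ℝ, m = ∫ t in G, V t := ⟨_, rfl⟩
  rw [← hm] at h3 ⊢
  have h4 := Hf.trans h3
  have h5 : 2 / (ε ^ 2 * h) * (v * M) ≤ ε / 4 * (h * M) := by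
    rw [div_mul_eq_mul_div, div_le_iff₀ (by positivity)]
    have := mul_le_mul_of_nonneg_right hv hM
    linarith [show ε / 4 * (h * M) * (ε ^ 2 * h) = ε ^ 3 * h ^ 2 * M / 4 by ring]
  have h6 : (A - ε₁) * h * M - (A - ε) * ((1 + ε₁) * h * M) ≥ 3 / 4 * ε * (h * M) := by
    have e : (A - ε₁) * h * M - (A - ε) * ((1 + ε₁) * h * M) = (ε - ε₁ - (A - ε) * ε₁) * (h * M) := by ring
    rw [e]
    refine mul_le_mul_of_nonneg_right ?_ (by positivity)
    have : (A - ε) * ε₁ ≤ 1 * ε₁ := mul_le_mul_of_nonneg_right (by linarith) hε₁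
    linarith
  have h7 : ε / 2 * (h * M) ≤ (1 + ε) * h * m := by linarith
  have h8 : h * (ε / 2 * M) ≤ h * ((1 + ε) * m) := by linarith
  have h9 : ε / 2 * M ≤ (1 + ε) * m := le_of_mul_le_mul_left h8 h0
  have hm0 : 0 ≤ m := by rw [hm]; exact setIntegral_nonneg mG fun t _ => hV0 t
  have h10 : (1 + ε) * m ≤ 2 * m := mul_le_mul_of_nonneg_right (by linarith) hm0
  linarith

/-- the measure of a set with positive mass -/
theorem mass_meas {T : ℝ} (hT16 : 16 ≤ T) {N : ℕ} (hN : (N : ℝ) ≤ T ^ (1 / 8 : ℝ)) {r : ℕ → ℂ}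
    (hrN : ∀ n, r n ≠ 0 → 1 ≤ n ∧ n ≤ N) (hn1 : 1 ≤ N2 N r) {Q : ℝ} (hfour : N2 (N * N) (cv r r) ≤ Real.exp Q)
    {E : Set ℝ} (hEm : MeasurableSet E) (hEs : E ⊆ Set.Ioc T (2 * T)) {η : ℝ} (hη : 0 < η)
    (hm : η * (T * N2 N r) ≤ ∫ t in E, ‖dp N r t‖ ^ 2) : η ^ 2 / 2 * T * Real.exp (-Q) ≤ (volume E).toReal := by
  have hT0 : 0 < T := by linarith
  have hT1 : 1 ≤ T := by linarith
  have hNN : ((N * N : ℕ) : ℝ) ≤ T ^ (1 / 4 : ℝ) := by
    push_cast
    calc (N : ℝ) * N ≤ T ^ (1 / 8 : ℝ) * T ^ (1 / 8 : ℝ) := mul_le_mul hN hN (Nat.cast_nonneg _) (by positivity)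
      _ = T ^ (1 / 4 : ℝ) := by
          rw [← Real.rpow_add hT0]
          norm_num
  have hup := (Pool.Agent.Q84.UM.t_MVL T hT16 (N * N) hNN (cv r r)).2
  have hFc : Continuous fun t => ‖dp N r t‖ ^ 2 := (dp_cont N r).norm.pow 2
  have hcs := cs_set hFc (fun t => by positivity) (show T ≤ 2 * T by linarith) hEm hEs
  have h4 : ∫ t in T..(2 * T), (‖dp N r t‖ ^ 2) ^ 2 ≤ 2 * T * Real.exp Q := by
    have e1 : (fun t => (‖dp N r t‖ ^ 2) ^ 2) = fun t => ‖dp (N * N) (cv r r) t‖ ^ 2 := by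
      funext t
      rw [← Pool.Agent.Q84.UM.t_DPM.1 N N r r t (Pool.Agent.Q98.UM.supp_zero hrN) (Pool.Agent.Q98.UM.supp_zero hrN), norm_mul]
      ring
    rw [e1]
    exact hup.trans (mul_le_mul_of_nonneg_left hfour (by positivity))
  have hm0 : 0 ≤ (volume E).toReal := ENNReal.toReal_nonneg
  have h5 : (η * T) ^ 2 ≤ (volume E).toReal * (2 * T * Real.exp Q) := by
    have h6 : η * T ≤ η * (T * N2 N r) := by
      refine mul_le_mul_of_nonneg_left ?_ hη.le
      have := mul_le_mul_of_nonneg_left hn1 hT0.le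
      linarith
    exact (pow_le_pow_left₀ (by positivity) (h6.trans hm) 2).trans (hcs.trans (mul_le_mul_of_nonneg_left h4 hm0))
  have h6 : η ^ 2 / 2 * T ≤ (volume E).toReal * Real.exp Q := by
    have h7 : T * (η ^ 2 / 2 * T) ≤ T * ((volume E).toReal * Real.exp Q) := by
      linarith [show (η * T) ^ 2 = 2 * (T * (η ^ 2 / 2 * T)) by ring,
        show (volume E).toReal * (2 * T * Real.exp Q) = 2 * (T * ((volume E).toReal * Real.exp Q)) by ring]
    exact le_of_mul_le_mul_left h7 hT0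
  have h9 : η ^ 2 / 2 * T * Real.exp (-Q) ≤ (volume E).toReal * Real.exp Q * Real.exp (-Q) :=
    mul_le_mul_of_nonneg_right h6 (Real.exp_pos _).le
  rw [mul_assoc ((volume E).toReal), ← Real.exp_add, add_neg_cancel, Real.exp_zero, mul_one] at h9
  exact h9

end

end Pool.Agent.U761.SZ
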