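import Pool.Agent.U761.SZ.SHR
import Pool.Agent.U196.CL.Var
import Pool.Agent.Q97.UM.Base7
import Pool.Agent.W354.ZP.Num

set_option autoImplicit false

/-!
U761.SZ: windows with many simple critical zeros near every value of the logarithm of zeta.
-/

namespace Pool.Agent.U761.SZ

open Filter Topology MeasureTheory Complex
open Pool.Agent.Q97.UM Pool.Agent.Q247.UM Pool.Agent.Q241.UM

noncomputable section

theorem Niw_le_Nw (d T r t : ℝ) : Niw d T r t ≤ Nw T r t := by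
  classical
  unfold Niw Nw
  have h1 : ((ZT T).filter (fun s => s.re = 1 / 2 ∧ mz s = 1 ∧ |s.im - t| ≤ r ∧
      ∀ s' ∈ ZT T, |s'.im - t| ≤ r → s' ≠ s → d / Real.log T ≤ ‖s - s'‖)) ⊆ (ZT T).filter (fun s => |s.im - t| ≤ r) := by
    intro s hs
    rw [Finset.mem_filter] at hs ⊢
    exact ⟨hs.1, hs.2.2.2.1⟩
  calc (((ZT T).filter (fun s => s.re = 1 / 2 ∧ mz s = 1 ∧ |s.im - t| ≤ r ∧
      ∀ s' ∈ ZT T, |s'.im - t| ≤ r → s' ≠ s → d / Real.log T ≤ ‖s - s'‖)).card : ℝ) =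
        ∑ s ∈ (ZT T).filter (fun s => s.re = 1 / 2 ∧ mz s = 1 ∧ |s.im - t| ≤ r ∧
          ∀ s' ∈ ZT T, |s'.im - t| ≤ r → s' ≠ s → d / Real.log T ≤ ‖s - s'‖), (mz s : ℝ) := by
        rw [Finset.card_eq_sum_ones]
        push_cast
        refine Finset.sum_congr rfl fun s hs => ?_
        rw [(Finset.mem_filter.1 hs).2.2.1]
        norm_num
    _ ≤ ∑ s ∈ (ZT T).filter (fun s => |s.im - t| ≤ r), (mz s : ℝ) :=
        Finset.sum_le_sum_of_subset_of_nonneg h1 fun s _ _ => Nat.cast_nonneg _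
    _ = _ := Finset.sum_congr (by congr) fun _ _ => rfl

theorem Nw_nonneg (T r t : ℝ) : 0 ≤ Nw T r t := by
  classical
  unfold Nw
  exact Finset.sum_nonneg fun s _ => Nat.cast_nonneg _

theorem log_edge : ∀ᶠ T : ℝ in atTop, T + 2 * Real.log T ≤ 2 * T - 2 * Real.log T := by
  have h := Real.isLittleO_log_id_atTop.bound (show (0 : ℝ) < 1 / 4 by norm_num)
  filter_upwards [h, eventually_ge_atTop 1] with T h1 h2
  rw [Real.norm_of_nonneg (Real.log_nonneg h2), id, Real.norm_of_nonneg (by linarith)] at h1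
  linarith

/-- **Windows with many isolated simple critical zeros near every value of `log ζ`.** -/
theorem szl (ε : ℝ) (hε : 0 < ε) (hε1 : ε ≤ 1 / 2) : ∃ H₀ : ℝ, 1 ≤ H₀ ∧ ∀ H : ℝ, H₀ ≤ H → ∃ d c K C : ℝ, 0 < d ∧ d ≤ 1 ∧ 0 < c ∧ 0 < K ∧ 0 < C ∧
    ∀ᶠ T : ℝ in atTop, ∀ z : ℂ, ‖z‖ ≤ c * Real.sqrt (Real.log T / Real.log (Real.log T)) →
      T * Real.exp (-(C * (1 + ‖z‖ ^ 2 / Real.log (2 + Real.log T / ((1 + ‖z‖ ^ 2) * Real.log (Real.log T)))))) ≤
        (volume {t : ℝ | (T + 2 * Real.log T < t ∧ t ≤ 2 * T - 2 * Real.log T) ∧ ‖Lz t - z‖ ≤ K * Real.sqrt (Real.log (Real.log T)) ∧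
          (2 - H370.cMTinv - ε) * Nw T (H / Real.log T) t ≤ Niw d T (H / Real.log T) t ∧
          |Nw T (H / Real.log T) t - H / Real.pi| ≤ ε * (H / Real.pi)}).toReal := by
  have hpi := Real.pi_pos
  have hA1 : 2 - H370.cMTinv ≤ 1 := by linarith [H370.cMTinv_gt_one]
  have hA2 : ε ≤ 2 - H370.cMTinv := by
    have h : H370.cMTinv ≤ 1.3275 := Pool.Agent.W354.ZP.cMTinv_sharp
    linarith
  obtain ⟨ε₁, hε₁⟩ : ∃ ε₁ : ℝ, ε₁ = ε / 8 := ⟨_, rfl⟩
  have hε₁0 : 0 < ε₁ := by rw [hε₁]; positivity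
  obtain ⟨Ha, hHa1, hWI⟩ := b_WINI ε₁ hε₁0
  obtain ⟨Hb, hHb1, hW⟩ := b_WIN ε₁ hε₁0
  obtain ⟨Cv, hCv, hVar⟩ := Pool.Agent.U196.CL.variance
  obtain ⟨Hc, hHc⟩ : ∃ Hc : ℝ, Hc = 8 * (1 + 2 * Cv) * Real.pi ^ 2 / ε ^ 3 := ⟨_, rfl⟩
  refine ⟨max (max Ha Hb) Hc, hHa1.trans ((le_max_left _ _).trans (le_max_left _ _)), fun H hH => ?_⟩
  have hH1 : 1 ≤ H := (hHa1.trans ((le_max_left _ _).trans (le_max_left _ _))).trans hH
  obtain ⟨d, θa, hd, hd1, hθa, -, hWI⟩ := hWI H (((le_max_left _ _).trans (le_max_left _ _)).trans hH)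
  obtain ⟨θb, hθb, -, hW⟩ := hW H (((le_max_right _ _).trans (le_max_left _ _)).trans hH)
  obtain ⟨θc, hθc, -, hVar⟩ := hVar H hH1
  have hHc' : Hc ≤ H := (le_max_right _ _).trans hH
  obtain ⟨θ, c₀, hθ, hθm, hc₀, C₀, hC₀, htilt⟩ := tiltp (min θa (min θb θc)) (by positivity)
  obtain ⟨h, hh⟩ : ∃ h : ℝ, h = H / Real.pi := ⟨_, rfl⟩
  have hh0 : 0 < h := by rw [hh]; positivity
  obtain ⟨v, hv⟩ : ∃ v : ℝ, v = Real.log H / Real.pi ^ 2 + Cv * (1 + Real.sqrt (Real.log H)) := ⟨_, rfl⟩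
  have hvv : 8 * v ≤ ε ^ 3 * h ^ 2 := by
    have h1 : Real.log H ≤ H := by linarith [Real.log_le_sub_one_of_pos (show 0 < H by linarith)]
    have h0 : 0 ≤ Real.log H := Real.log_nonneg hH1
    have h2 : Real.sqrt (Real.log H) ≤ H := by
      refine Real.sqrt_le_iff.2 ⟨by linarith, ?_⟩
      nlinarith
    have h3 : Real.log H / Real.pi ^ 2 ≤ H := by
      refine (div_le_self h0 ?_).trans h1
      nlinarith [Real.pi_gt_three]
    have h4 : v ≤ (1 + 2 * Cv) * H := by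
      rw [hv]
      have : Cv * (1 + Real.sqrt (Real.log H)) ≤ Cv * (2 * H) := mul_le_mul_of_nonneg_left (by linarith) hCv.le
      linarith
    have h5 : 8 * (1 + 2 * Cv) * Real.pi ^ 2 ≤ H * ε ^ 3 := by
      rw [hHc, div_le_iff₀ (by positivity)] at hHc'
      exact hHc'
    have h6 : 8 * ((1 + 2 * Cv) * H) ≤ ε ^ 3 * h ^ 2 := by
      rw [hh, div_pow, ← mul_div_assoc, le_div_iff₀ (by positivity)]
      calc 8 * ((1 + 2 * Cv) * H) * Real.pi ^ 2 = (8 * (1 + 2 * Cv) * Real.pi ^ 2) * H := by ring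
        _ ≤ (H * ε ^ 3) * H := mul_le_mul_of_nonneg_right h5 (by linarith)
        _ = _ := by ring
    linarith
  obtain ⟨K, hKd⟩ : ∃ K : ℝ, K = Real.sqrt (8 * C₀ / ε) := ⟨_, rfl⟩
  have hK : 0 < K := by rw [hKd]; positivity
  have hK2 : K ^ 2 = 8 * C₀ / ε := by rw [hKd, Real.sq_sqrt (by positivity)]
  obtain ⟨η, hη⟩ : ∃ η : ℝ, η = ε / 8 := ⟨_, rfl⟩
  have hη0 : 0 < η := by rw [hη]; positivity
  -- the case of `‖z‖ ≥ 1`
  have main1 : ∀ᶠ T : ℝ in atTop, ∀ z : ℂ, 1 ≤ ‖z‖ → ‖z‖ ≤ c₀ * Real.sqrt (Real.log T / Real.log (Real.log T)) →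
      η ^ 2 / 2 * T * Real.exp (-(16 * (‖z‖ ^ 2 / Real.log (2 + Real.log T / ((1 + ‖z‖ ^ 2) * Real.log (Real.log T)))))) ≤
        (volume {t : ℝ | (T + 2 * Real.log T < t ∧ t ≤ 2 * T - 2 * Real.log T) ∧ ‖Lz t - z‖ ≤ K * Real.sqrt (Real.log (Real.log T)) ∧
          (2 - H370.cMTinv - ε) * Nw T (H / Real.log T) t ≤ Niw d T (H / Real.log T) t ∧
          |Nw T (H / Real.log T) t - H / Real.pi| ≤ ε * (H / Real.pi)}).toReal := by
    filter_upwards [htilt, hWI, hW, hVar, growth2 1 one_pos, log_edge] with T htl hWI hW hVar hgr hedge z hz1 hz2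
    obtain ⟨hT16, -, hll, hL3⟩ := hgr
    have hT0 : 0 < T := by linarith
    have hT1 : 1 ≤ T := by linarith
    obtain ⟨N, r, hN, hθ8, hrN, hn1, hI, hb, hfour⟩ := htl z hz1 hz2
    obtain ⟨ll, hlld⟩ : ∃ ll : ℝ, ll = Real.log (Real.log T) := ⟨_, rfl⟩
    rw [← hlld] at hb hfour hll ⊢
    have hll0 : 0 < ll := by linarith
    obtain ⟨M, hM⟩ : ∃ M : ℝ, M = T * N2 N r := ⟨_, rfl⟩
    have hM0 : 0 ≤ M := by rw [hM]; exact mul_nonneg hT0.le (by linarith)
    rw [← hM] at hb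
    have hN1 : 1 ≤ N := by
      by_contra hcon
      have hN0 : N = 0 := by omega
      have : N2 N r = 0 := by
        rw [hN0]
        unfold N2
        simp
      linarith
    have hNm : ∀ {x : ℝ}, min θa (min θb θc) ≤ x → (N : ℝ) ≤ T ^ x := fun hx =>
      hN.trans (Real.rpow_le_rpow_of_exponent_le hT1 (hθm.trans hx))
    have w1 := hWI N (hNm (min_le_left _ _)) r
    have w2 := (hW N (hNm ((min_le_right _ _).trans (min_le_left _ _))) r).2.2
    have w3 := hVar N hN1 (hNm ((min_le_right _ _).trans (min_le_right _ _))) r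
    rw [← hM, ← hh] at w1 w2 w3
    rw [← hh]
    have hN8 : (N : ℝ) ≤ T ^ (1 / 8 : ℝ) := hN.trans (Real.rpow_le_rpow_of_exponent_le hT1 hθ8)
    obtain ⟨mg, Bg, bg⟩ := Nw_meas T (H / Real.log T)
    obtain ⟨mf, Bf, bf⟩ := Pool.Agent.Q148.UM.Niw_meas d T (H / Real.log T)
    set V : ℝ → ℝ := fun t => ‖dp N r t‖ ^ 2 with hVd
    have hVc : Continuous V := (dp_cont N r).norm.pow 2
    have hV0 : ∀ t, 0 ≤ V t := fun t => by positivity
    have hshare := share mf mg bf bg hVc hV0 (fun t => Niw_le_Nw d T (H / Real.log T) t) (fun t => Nw_nonneg T (H / Real.log T) t)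
      hedge hh0 hM0 hε (by linarith) hA1 hA2 hε₁0.le (by rw [hε₁]; linarith) hvv (by linarith) (by
        have := (abs_le.1 w2).2
        linarith) (by
        have := (abs_le.1 w3).2
        rw [hv]
        linarith)
    set G : Set ℝ := {t : ℝ | (T + 2 * Real.log T < t ∧ t ≤ 2 * T - 2 * Real.log T) ∧
      (2 - H370.cMTinv - ε) * Nw T (H / Real.log T) t ≤ Niw d T (H / Real.log T) t ∧ |Nw T (H / Real.log T) t - h| ≤ ε * h} with hG
    set E : Set ℝ := {t : ℝ | (T + 2 * Real.log T < t ∧ t ≤ 2 * T - 2 * Real.log T) ∧ ‖Lz t - z‖ ≤ K * Real.sqrt ll ∧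
      (2 - H370.cMTinv - ε) * Nw T (H / Real.log T) t ≤ Niw d T (H / Real.log T) t ∧ |Nw T (H / Real.log T) t - h| ≤ ε * h} with hE
    have mc : MeasurableSet {t : ℝ | ‖Lz t - z‖ ≤ K * Real.sqrt ll} :=
      measurableSet_le (Lz_meas.sub measurable_const).norm measurable_const
    have mG : MeasurableSet G := by
      have h1 : MeasurableSet {t : ℝ | (2 - H370.cMTinv - ε) * Nw T (H / Real.log T) t ≤ Niw d T (H / Real.log T) t} :=
        measurableSet_le (mg.const_mul _) mf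
      have h2 : MeasurableSet {t : ℝ | |Nw T (H / Real.log T) t - h| ≤ ε * h} :=
        measurableSet_le ((mg.sub measurable_const).abs) measurable_const
      have e : G = Set.Ioc (T + 2 * Real.log T) (2 * T - 2 * Real.log T) ∩
          ({t : ℝ | (2 - H370.cMTinv - ε) * Nw T (H / Real.log T) t ≤ Niw d T (H / Real.log T) t} ∩
          {t : ℝ | |Nw T (H / Real.log T) t - h| ≤ ε * h}) := by
        ext t
        simp only [hG, Set.mem_setOf_eq, Set.mem_inter_iff, Set.mem_Ioc]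
      rw [e]
      exact measurableSet_Ioc.inter (h1.inter h2)
    have eE : E = G ∩ {t : ℝ | ‖Lz t - z‖ ≤ K * Real.sqrt ll} := by
      ext t
      simp only [hG, hE, Set.mem_setOf_eq, Set.mem_inter_iff]
      tauto
    have mE : MeasurableSet E := by rw [eE]; exact mG.inter mc
    have hL0 : 0 ≤ Real.log T := by linarith
    have hGs : G ⊆ Set.Ioc T (2 * T) := fun t ht => ⟨by linarith [ht.1.1], by linarith [ht.1.2]⟩
    have hEs : E ⊆ Set.Ioc T (2 * T) := by rw [eE]; exact Set.inter_subset_left.trans hGs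
    have hFi : IntegrableOn V (Set.Ioc T (2 * T)) :=
      (hVc.integrableOn_Icc (a := T) (b := 2 * T)).mono_set Set.Ioc_subset_Icc_self
    -- the mass of the points which are not close
    have hout : ∫ t in G \ {t : ℝ | ‖Lz t - z‖ ≤ K * Real.sqrt ll}, V t ≤ ε / 8 * M := by
      have hGi : IntegrableOn (fun t => ‖Lz t - z‖ ^ 2 * V t) (Set.Ioc T (2 * T)) :=
        (intervalIntegrable_iff_integrableOn_Ioc_of_le (by linarith)).1 hI
      have hks : 0 < K ^ 2 * ll := by positivity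
      have hsub : G \ {t : ℝ | ‖Lz t - z‖ ≤ K * Real.sqrt ll} ⊆ Set.Ioc T (2 * T) := Set.diff_subset.trans hGs
      have h1 : ∫ t in G \ {t : ℝ | ‖Lz t - z‖ ≤ K * Real.sqrt ll}, V t ≤
          ∫ t in G \ {t : ℝ | ‖Lz t - z‖ ≤ K * Real.sqrt ll}, (1 / (K ^ 2 * ll)) * (‖Lz t - z‖ ^ 2 * V t) := by
        refine setIntegral_mono_on (hFi.mono_set hsub) ((hGi.mono_set hsub).const_mul _) (mG.diff mc) fun t ht => ?_
        have h2 : K * Real.sqrt ll < ‖Lz t - z‖ := by
          by_contra hcon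
          push Not at hcon
          exact ht.2 hcon
        have h3 : K ^ 2 * ll ≤ ‖Lz t - z‖ ^ 2 := by
          have h4 := pow_le_pow_left₀ (by positivity) h2.le 2
          rwa [mul_pow, Real.sq_sqrt hll0.le] at h4
        have h6 : V t = 1 / (K ^ 2 * ll) * (K ^ 2 * ll * V t) := by field_simp
        calc V t = 1 / (K ^ 2 * ll) * (K ^ 2 * ll * V t) := h6
          _ ≤ 1 / (K ^ 2 * ll) * (‖Lz t - z‖ ^ 2 * V t) := by
              refine mul_le_mul_of_nonneg_left ?_ (by positivity)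
              exact mul_le_mul_of_nonneg_right h3 (hV0 t)
      refine h1.trans ?_
      rw [integral_const_mul]
      have h2 : ∫ t in G \ {t : ℝ | ‖Lz t - z‖ ≤ K * Real.sqrt ll}, ‖Lz t - z‖ ^ 2 * V t ≤ C₀ * ll * M := by
        refine le_trans ?_ hb
        rw [intervalIntegral.integral_of_le (by linarith)]
        exact setIntegral_mono_set hGi (Eventually.of_forall fun t => mul_nonneg (sq_nonneg _) (hV0 t))
          (Eventually.of_forall hsub)
      calc 1 / (K ^ 2 * ll) * ∫ t in G \ {t : ℝ | ‖Lz t - z‖ ≤ K * Real.sqrt ll}, ‖Lz t - z‖ ^ 2 * V t ≤ 1 / (K ^ 2 * ll) * (C₀ * ll * M) :=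
            mul_le_mul_of_nonneg_left h2 (by positivity)
        _ = ε / 8 * M := by
            rw [hK2]
            field_simp
    have hin : η * (T * N2 N r) ≤ ∫ t in E, V t := by
      have h1 := integral_inter_add_diff mc (hFi.mono_set hGs)
      rw [← eE] at h1
      rw [← hM, hη]
      linarith
    exact mass_meas hT16 hN8 hrN hn1 hfour mE hEs hη0 hin
  have hl2 : 0 < Real.log 2 := Real.log_pos one_lt_two
  have hηl : 0 ≤ -Real.log (η ^ 2 / 2) := by
    rw [neg_nonneg]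
    refine Real.log_nonpos (by positivity) ?_
    have : η ≤ 1 := by rw [hη]; linarith
    nlinarith
  refine ⟨d, c₀, K + 2, 16 / Real.log 2 + (-Real.log (η ^ 2 / 2)), hd, hd1, hc₀, by linarith, by positivity, ?_⟩
  have hTend : ∀ᶠ T : ℝ in atTop, 1 ≤ c₀ * Real.sqrt (Real.log T / Real.log (Real.log T)) := by
    have h1 : Tendsto (fun L : ℝ => L / Real.log L) atTop atTop := by
      have h1 : Tendsto (fun L : ℝ => Real.log L / L) atTop (𝓝[>] 0) := by
        refine tendsto_nhdsWithin_iff.2 ⟨?_, ?_⟩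
        · exact Real.isLittleO_log_id_atTop.tendsto_div_nhds_zero
        · filter_upwards [eventually_gt_atTop 1] with L hL
          exact div_pos (Real.log_pos hL) (by linarith)
      refine (tendsto_inv_nhdsGT_zero.comp h1).congr fun L => ?_
      simp
    have h2 : Tendsto (fun T : ℝ => c₀ * Real.sqrt (Real.log T / Real.log (Real.log T))) atTop atTop :=
      (Real.tendsto_sqrt_atTop.comp (h1.comp Real.tendsto_log_atTop)).const_mul_atTop hc₀
    exact h2.eventually_ge_atTop 1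
  filter_upwards [main1, growth2 1 one_pos, hTend] with T hm1 hgr hone z hz
  obtain ⟨hT16, -, hll, hL3⟩ := hgr
  have hT0 : 0 < T := by linarith
  obtain ⟨ll, hlld⟩ : ∃ ll : ℝ, ll = Real.log (Real.log T) := ⟨_, rfl⟩
  rw [← hlld] at hm1 hll hone hz ⊢
  have hll0 : 0 < ll := by linarith
  have hsq : 1 ≤ Real.sqrt ll := Real.one_le_sqrt.2 hll
  have hLpos : 0 < Real.log T := by linarith
  have hfin : ∀ S : Set ℝ, (∀ t ∈ S, T + 2 * Real.log T < t ∧ t ≤ 2 * T - 2 * Real.log T) → volume S ≠ ⊤ := fun S hS =>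
    ((measure_mono (t := Set.Ioc (T + 2 * Real.log T) (2 * T - 2 * Real.log T)) (fun t ht => ⟨(hS t ht).1, (hS t ht).2⟩)).trans_lt (by
      rw [Real.volume_Ioc]; exact ENNReal.ofReal_lt_top)).ne
  have hden : ∀ x : ℝ, 0 ≤ x → Real.log 2 ≤ Real.log (2 + Real.log T / ((1 + x) * ll)) := by
    intro x hx
    refine Real.log_le_log (by norm_num) ?_
    have : 0 ≤ Real.log T / ((1 + x) * ll) := by positivity
    linarith
  have hexp : ∀ w w' : ℝ, 0 ≤ w → 16 * w' ≤ 16 / Real.log 2 * (1 + w) →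
      T * Real.exp (-((16 / Real.log 2 + (-Real.log (η ^ 2 / 2))) * (1 + w))) ≤ η ^ 2 / 2 * T * Real.exp (-(16 * w')) := by
    intro w w' hw hw'
    have e : η ^ 2 / 2 = Real.exp (Real.log (η ^ 2 / 2)) := (Real.exp_log (by positivity)).symm
    calc T * Real.exp (-((16 / Real.log 2 + (-Real.log (η ^ 2 / 2))) * (1 + w))) ≤
          T * Real.exp (Real.log (η ^ 2 / 2) + -(16 * w')) := by
          refine mul_le_mul_of_nonneg_left (Real.exp_le_exp.2 ?_) hT0.le
          have h7 : 0 ≤ (-Real.log (η ^ 2 / 2)) * w := mul_nonneg hηl hw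
          linarith
      _ = T * (Real.exp (Real.log (η ^ 2 / 2)) * Real.exp (-(16 * w'))) := by rw [Real.exp_add]
      _ = η ^ 2 / 2 * T * Real.exp (-(16 * w')) := by rw [← e]; ring
  by_cases h1 : 1 ≤ ‖z‖
  · have h2 := hm1 z h1 hz
    set w := ‖z‖ ^ 2 / Real.log (2 + Real.log T / ((1 + ‖z‖ ^ 2) * ll)) with hw
    have hw0 : 0 ≤ w := by
      have := hden (‖z‖ ^ 2) (sq_nonneg _)
      rw [hw]
      exact div_nonneg (sq_nonneg _) (by linarith)
    refine le_trans (hexp w w hw0 ?_) (h2.trans ?_)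
    · have h16 : (16 : ℝ) ≤ 16 / Real.log 2 := by
        rw [le_div_iff₀ hl2]
        have := Real.log_two_lt_d9
        linarith
      have h3 : 16 * w ≤ 16 / Real.log 2 * w := mul_le_mul_of_nonneg_right h16 hw0
      have h8 : 0 ≤ 16 / Real.log 2 := by positivity
      linarith
    · refine ENNReal.toReal_mono (hfin _ fun t ht => ht.1) (measure_mono fun t ht => ⟨ht.1, ht.2.1.trans ?_, ht.2.2⟩)
      have : 0 ≤ 2 * Real.sqrt ll := by positivity
      linarith
  · push Not at h1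
    have h2 := hm1 1 (by simp) (by simpa using hone)
    rw [norm_one] at h2
    have h3' : (1 : ℝ) ^ 2 = 1 := one_pow 2
    rw [h3'] at h2
    have h3 := hden 1 zero_le_one
    have h4 : 1 / Real.log (2 + Real.log T / ((1 + 1) * ll)) ≤ 1 / Real.log 2 := one_div_le_one_div_of_le hl2 h3
    set w := ‖z‖ ^ 2 / Real.log (2 + Real.log T / ((1 + ‖z‖ ^ 2) * ll)) with hw
    have hw0 : 0 ≤ w := by
      have := hden (‖z‖ ^ 2) (sq_nonneg _)
      rw [hw]
      exact div_nonneg (sq_nonneg _) (by linarith)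
    refine le_trans (hexp w _ hw0 ?_) (h2.trans ?_)
    · have h8 : 0 ≤ 16 / Real.log 2 * w := by positivity
      calc 16 * (1 / Real.log (2 + Real.log T / ((1 + 1) * ll))) ≤ 16 * (1 / Real.log 2) := by linarith
        _ ≤ 16 / Real.log 2 * (1 + w) := by linarith [show 16 * (1 / Real.log 2) = 16 / Real.log 2 by ring]
    · refine ENNReal.toReal_mono (hfin _ fun t ht => ht.1) (measure_mono fun t ht => ⟨ht.1, ?_, ht.2.2⟩)
      have e : Lz t - z = (Lz t - 1) + (1 - z) := by ring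
      rw [e]
      refine (norm_add_le _ _).trans ?_
      have h5 : ‖(1 : ℂ) - z‖ ≤ 2 := by
        refine (norm_sub_le _ _).trans ?_
        rw [norm_one]
        linarith
      have h6 := ht.2.1
      linarith

end

end Pool.Agent.U761.SZ
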