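import Pool.Agent.U761.SZ.SZL
import Pool.Agent.U761.SZ.ZC2
import Pool.Agent.U196.UV.Gap

set_option autoImplicit false

/-!
U761.SZ: plain form of the theorem on the windows; the argument in the whole window.
-/

namespace Pool.Agent.U761.SZ

open Filter Topology MeasureTheory Complex
open Pool.Agent.Q97.UM

noncomputable section

/-- the nontrivial zeros with ordinate in `[t - r, t + r]` -/
def wz (t r : ℝ) : Set ℂ := {s : ℂ | riemannZeta s = 0 ∧ 0 < s.re ∧ s.re < 1 ∧ |s.im - t| ≤ r}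

theorem wz_eq {T t r : ℝ} (hT : 1 ≤ T) (h1 : T + 1 < t - r) (h2 : t + r ≤ 2 * T - 1) : wz t r =
    {s : ℂ | s ∈ ZT T ∧ |s.im - t| ≤ r} := by
  ext s
  unfold wz
  rw [Set.mem_setOf_eq, Set.mem_setOf_eq, Pool.Agent.U196.UV.mem_ZT hT]
  constructor
  · rintro ⟨a1, a2, a3, a4⟩
    have a5 := abs_le.1 a4
    exact ⟨⟨a1, a2, a3, by linarith [a5.1], by linarith [a5.2]⟩, a4⟩
  · rintro ⟨⟨a1, a2, a3, -, -⟩, a4⟩
    exact ⟨a1, a2, a3, a4⟩

theorem wz_fin {T t r : ℝ} (hT : 1 ≤ T) (h1 : T + 1 < t - r) (h2 : t + r ≤ 2 * T - 1) : (wz t r).Finite := by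
  rw [wz_eq hT h1 h2]
  exact (Finset.finite_toSet (ZT T)).subset fun s hs => hs.1

theorem all_eq {T t r : ℝ} (hT : 1 ≤ T) (h1 : T + 1 < t - r) (h2 : t + r ≤ 2 * T - 1) :
    ((∑ᶠ s ∈ wz t r, analyticOrderNatAt riemannZeta s : ℕ) : ℝ) = Nw T r t := by
  classical
  have h : wz t r = (((ZT T).filter (fun s => |s.im - t| ≤ r) : Finset ℂ) : Set ℂ) := by
    rw [wz_eq hT h1 h2]
    ext s
    rw [Finset.mem_coe, Finset.mem_filter]
    rfl
  unfold Nw
  rw [h, finsum_mem_coe_finset]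
  push_cast
  exact Finset.sum_congr (by congr) fun _ _ => rfl

theorem simple_eq {d T t r : ℝ} (hT : 1 ≤ T) (h1 : T + 1 < t - r) (h2 : t + r ≤ 2 * T - 1) :
    (({s : ℂ | s ∈ wz t r ∧ s.re = 1 / 2 ∧ analyticOrderNatAt riemannZeta s = 1 ∧
      ∀ s' ∈ wz t r, s' ≠ s → d / Real.log T ≤ ‖s - s'‖}.ncard : ℕ) : ℝ) = Niw d T r t := by
  classical
  have h : {s : ℂ | s ∈ wz t r ∧ s.re = 1 / 2 ∧ analyticOrderNatAt riemannZeta s = 1 ∧
      ∀ s' ∈ wz t r, s' ≠ s → d / Real.log T ≤ ‖s - s'‖} = (((ZT T).filter (fun s => s.re = 1 / 2 ∧ mz s = 1 ∧ |s.im - t| ≤ r ∧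
        ∀ s' ∈ ZT T, |s'.im - t| ≤ r → s' ≠ s → d / Real.log T ≤ ‖s - s'‖) : Finset ℂ) : Set ℂ) := by
    rw [wz_eq hT h1 h2]
    ext s
    rw [Finset.mem_coe, Finset.mem_filter]
    simp only [Set.mem_setOf_eq]
    constructor
    · rintro ⟨⟨a1, a2⟩, a3, a4, a5⟩
      exact ⟨a1, a3, a4, a2, fun s' b1 b2 b3 => a5 s' ⟨b1, b2⟩ b3⟩
    · rintro ⟨a1, a3, a4, a2, a5⟩
      exact ⟨⟨a1, a2⟩, a3, a4, fun s' b1 b3 => a5 s' b1.1 b1.2 b3⟩
  unfold Niw
  rw [h, Set.ncard_coe_finset]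

theorem Nz_le {T t r a b : ℝ} (hT : 1 ≤ T) (h1 : T + 1 < t - r) (h2 : t + r ≤ 2 * T - 1) (ha : t - r ≤ a) (hb : b ≤ t + r) :
    (Nz a b : ℝ) ≤ Nw T r t := by
  classical
  have h : {s : ℂ | riemannZeta s = 0 ∧ 0 < s.re ∧ s.re < 1 ∧ a < s.im ∧ s.im ≤ b} =
      (((ZT T).filter (fun s => a < s.im ∧ s.im ≤ b) : Finset ℂ) : Set ℂ) := by
    ext s
    rw [Finset.mem_coe, Finset.mem_filter, Pool.Agent.U196.UV.mem_ZT hT, Set.mem_setOf_eq]
    constructor
    · rintro ⟨a1, a2, a3, a4, a5⟩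
      exact ⟨⟨a1, a2, a3, by linarith, by linarith⟩, a4, a5⟩
    · rintro ⟨⟨a1, a2, a3, -, -⟩, a4, a5⟩
      exact ⟨a1, a2, a3, a4, a5⟩
  unfold Nz Nw
  rw [h, finsum_mem_coe_finset]
  push_cast
  refine Finset.sum_le_sum_of_subset_of_nonneg ?_ fun s _ _ => Nat.cast_nonneg _
  intro s hs
  rw [Finset.mem_filter] at hs ⊢
  refine ⟨hs.1, abs_le.2 ⟨by linarith [hs.2.1], by linarith [hs.2.2]⟩⟩

/-- the argument is constant up to a bounded error in the window -/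
theorem arg_win : ∃ C : ℝ, 0 < C ∧ ∀ T t u r : ℝ, 16 ≤ T → T + 1 < t - r → t + r ≤ 2 * T - 1 → r ≤ 1 → |u - t| ≤ r → NoOrd t → NoOrd u →
    |piS u - piS t| ≤ Real.pi * Nw T r t + r * Real.log (2 * T) + C * r := by
  obtain ⟨C, hC, hz⟩ := zcount
  refine ⟨C, hC, fun T t u r hT h1 h2 hr hu n1 n2 => ?_⟩
  have hr0 : 0 ≤ r := (abs_nonneg _).trans hu
  have hu' := abs_le.1 hu
  have hT1 : 1 ≤ T := by linarith
  have hpi := Real.pi_pos
  have hL : 0 ≤ Real.log (2 * T) := Real.log_nonneg (by linarith)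
  have hN0 := Nw_nonneg T r t
  rcases lt_trichotomy t u with h | h | h
  · have h3 := hz t u (by linarith) h (by linarith [hu'.2]) n1 n2
    have h4 := Nz_le hT1 h1 h2 (a := t) (b := u) (by linarith) (by linarith [hu'.2])
    have h5 := mul_le_mul_of_nonneg_left h4 hpi.le
    have h6 : (u - t) / 2 * Real.log t ≤ r * Real.log (2 * T) := by
      refine mul_le_mul (by linarith [hu'.2]) (Real.log_le_log (by linarith) (by linarith)) (Real.log_nonneg (by linarith)) hr0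
    have h7 : 0 ≤ (u - t) / 2 * Real.log t := mul_nonneg (by linarith) (Real.log_nonneg (by linarith))
    have h8 : C * (u - t) ≤ C * r := mul_le_mul_of_nonneg_left (by linarith [hu'.2]) hC.le
    have h9 : 0 ≤ Real.pi * (Nz t u : ℝ) := by positivity
    have h10 := abs_le.1 h3
    refine abs_le.2 ⟨by linarith [h10.2], by linarith [h10.1]⟩
  · rw [h, sub_self, abs_zero]
    rw [h] at hN0
    exact add_nonneg (add_nonneg (mul_nonneg hpi.le hN0) (mul_nonneg hr0 hL)) (mul_nonneg hC.le hr0)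
  · have h3 := hz u t (by linarith [hu'.1]) h (by linarith [hu'.1]) n2 n1
    have h4 := Nz_le hT1 h1 h2 (a := u) (b := t) (by linarith [hu'.1]) (by linarith)
    have h5 := mul_le_mul_of_nonneg_left h4 hpi.le
    have h6 : (t - u) / 2 * Real.log u ≤ r * Real.log (2 * T) := by
      refine mul_le_mul (by linarith [hu'.1]) (Real.log_le_log (by linarith [hu'.1]) (by linarith)) (Real.log_nonneg (by linarith [hu'.1])) hr0
    have h7 : 0 ≤ (t - u) / 2 * Real.log u := mul_nonneg (by linarith) (Real.log_nonneg (by linarith [hu'.1]))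
    have h8 : C * (t - u) ≤ C * r := mul_le_mul_of_nonneg_left (by linarith [hu'.1]) hC.le
    have h9 : 0 ≤ Real.pi * (Nz u t : ℝ) := by positivity
    have h10 := abs_le.1 h3
    refine abs_le.2 ⟨by linarith [h10.1], by linarith [h10.2]⟩

end

end Pool.Agent.U761.SZ
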