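import Pool.Agent.U761.SZ.CNV
import Pool.Agent.Q14.UM.EK

set_option autoImplicit false

/-!
U761.SZ: the coefficients of a truncated exponential of a polynomial over the primes.
-/

namespace Pool.Agent.U761.SZ

open Finset
open Pool.Agent.Q97.UM

noncomputable section

/-- the multiplicative function -/
def gq (q : ℕ → ℂ) (n : ℕ) : ℂ := ∏ p ∈ n.primeFactors, q p ^ (n.factorization p) / ((n.factorization p).factorial : ℂ)

theorem gq_sup {q : ℕ → ℂ} {n : ℕ} {s : Finset ℕ} (hs : n.primeFactors ⊆ s) :
    gq q n = ∏ p ∈ s, q p ^ (n.factorization p) / ((n.factorization p).factorial : ℂ) := by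
  unfold gq
  refine prod_subset hs fun p _ hp => ?_
  have : n.factorization p = 0 := by
    rw [← Finsupp.notMem_support_iff, Nat.support_factorization]
    exact hp
  rw [this]
  simp

theorem gq_mul {q : ℕ → ℂ} {p m : ℕ} (hp : p.Prime) (hm : m ≠ 0) :
    ((m.factorization p : ℂ) + 1) * gq q (p * m) = q p * gq q m := by
  classical
  have hs : (p * m).primeFactors = insert p m.primeFactors := by
    rw [Nat.primeFactors_mul hp.ne_zero hm, hp.primeFactors]
    rfl
  have h1 := gq_sup (q := q) (n := m) (s := insert p m.primeFactors) (subset_insert _ _)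
  have h2 : gq q (p * m) = ∏ l ∈ insert p m.primeFactors, q l ^ ((p * m).factorization l) / (((p * m).factorization l).factorial : ℂ) := by
    unfold gq
    rw [hs]
  have hf : ∀ l, (p * m).factorization l = (if l = p then 1 else 0) + m.factorization l := by
    intro l
    rw [Nat.factorization_mul hp.ne_zero hm, Finsupp.add_apply, hp.factorization, Finsupp.single_apply]
    congr 1
    by_cases h : l = p
    · rw [if_pos h, if_pos h.symm]
    · rw [if_neg h, if_neg (Ne.symm h)]
  rw [h1, h2, ← mul_prod_erase _ _ (mem_insert_self p _), ← mul_prod_erase _ (fun l => q l ^ (m.factorization l) / ((m.factorization l).factorial : ℂ)) (mem_insert_self p _)]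
  have h3 : ∏ l ∈ (insert p m.primeFactors).erase p, q l ^ ((p * m).factorization l) / (((p * m).factorization l).factorial : ℂ) =
      ∏ l ∈ (insert p m.primeFactors).erase p, q l ^ (m.factorization l) / ((m.factorization l).factorial : ℂ) := by
    refine prod_congr rfl fun l hl => ?_
    rw [hf l, if_neg (ne_of_mem_erase hl), zero_add]
  rw [h3, hf p, if_pos rfl, add_comm 1, Nat.factorial_succ, pow_succ]
  have h4 : ((m.factorization p).factorial : ℂ) ≠ 0 := Nat.cast_ne_zero.2 (Nat.factorial_ne_zero (m.factorization p))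
  have h5 : ((m.factorization p : ℂ) + 1) ≠ 0 := by exact_mod_cast Nat.succ_ne_zero (m.factorization p)
  push_cast
  field_simp

theorem cvp_eq {q : ℕ → ℂ} (hq : ∀ n, q n ≠ 0 → n.Prime) (r : ℕ) : ∀ n : ℕ,
    cvp q r n = if n ≠ 0 ∧ ArithmeticFunction.cardFactors n = r then (r.factorial : ℂ) * gq q n else 0 := by
  classical
  induction r with
  | zero =>
    intro n
    unfold cvp
    by_cases h : n = 1
    · rw [if_pos h, h]
      simp [gq]
    · rw [if_neg h, if_neg]
      rintro ⟨h1, h2⟩
      rw [ArithmeticFunction.cardFactors_eq_zero_iff_eq_zero_or_one] at h2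
      omega
  | succ r ih =>
    intro n
    by_cases hn : n = 0
    · rw [if_neg (by simp [hn]), hn]
      show cv q (cvp q r) 0 = 0
      unfold cv
      simp
    show cv q (cvp q r) n = _
    unfold cv
    rw [Nat.sum_divisorsAntidiagonal (f := fun a b => q a * cvp q r b)]
    have h1 : ∑ i ∈ n.divisors, q i * cvp q r (n / i) = ∑ p ∈ n.primeFactors, q p * cvp q r (n / p) := by
      symm
      refine sum_subset ?_ ?_
      · intro p hp
        rw [Nat.mem_divisors]
        exact ⟨Nat.dvd_of_mem_primeFactors hp, hn⟩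
      · intro d hd hd'
        rw [Nat.mem_divisors] at hd
        have : q d = 0 := by
          by_contra h0
          exact hd' (Nat.mem_primeFactors.2 ⟨hq d h0, hd.1, hn⟩)
        rw [this, zero_mul]
    rw [h1]
    have hΩ : ∀ p ∈ n.primeFactors, ArithmeticFunction.cardFactors (n / p) + 1 = ArithmeticFunction.cardFactors n := by
      intro p hp
      have hpp := Nat.prime_of_mem_primeFactors hp
      have hd := Nat.dvd_of_mem_primeFactors hp
      have hm0 : n / p ≠ 0 := (Nat.div_pos (Nat.le_of_dvd (Nat.pos_of_ne_zero hn) hd) hpp.pos).ne'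
      conv_rhs => rw [← Nat.mul_div_cancel' hd]
      rw [ArithmeticFunction.cardFactors_mul hpp.ne_zero hm0, ArithmeticFunction.cardFactors_apply_prime hpp]
      omega
    by_cases hr : ArithmeticFunction.cardFactors n = r + 1
    · rw [if_pos ⟨hn, hr⟩]
      have h2 : ∀ p ∈ n.primeFactors, q p * cvp q r (n / p) = (r.factorial : ℂ) * ((n.factorization p : ℂ) * gq q n) := by
        intro p hp
        have hpp := Nat.prime_of_mem_primeFactors hp
        have hd := Nat.dvd_of_mem_primeFactors hp
        have hm0 : n / p ≠ 0 := (Nat.div_pos (Nat.le_of_dvd (Nat.pos_of_ne_zero hn) hd) hpp.pos).ne'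
        have h3 := hΩ p hp
        rw [ih, if_pos ⟨hm0, by omega⟩]
        have h4 := gq_mul (q := q) hpp hm0
        rw [Nat.mul_div_cancel' hd] at h4
        have h5 : n.factorization p = (n / p).factorization p + 1 := by
          conv_lhs => rw [← Nat.mul_div_cancel' hd]
          rw [Nat.factorization_mul hpp.ne_zero hm0, Finsupp.add_apply, hpp.factorization_self]
          omega
        rw [h5]
        push_cast
        rw [h4]
        ring
      rw [sum_congr rfl h2, ← mul_sum, ← sum_mul]
      have h6 : (∑ p ∈ n.primeFactors, (n.factorization p : ℂ)) = (r : ℂ) + 1 := by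
        have h7 : ∑ p ∈ n.primeFactors, n.factorization p = r + 1 := by
          rw [← hr, ArithmeticFunction.cardFactors_eq_sum_factorization]
          rfl
        exact_mod_cast h7
      rw [h6, Nat.factorial_succ]
      push_cast
      ring
    · rw [if_neg (fun h => hr h.2)]
      refine sum_eq_zero fun p hp => ?_
      rw [ih, if_neg, mul_zero]
      rintro ⟨-, h3⟩
      have := hΩ p hp
      omega

theorem te_eq {q : ℕ → ℂ} (hq : ∀ n, q n ≠ 0 → n.Prime) (K n : ℕ) :
    te q K n = if n ≠ 0 ∧ ArithmeticFunction.cardFactors n ≤ K then gq q n else 0 := by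
  unfold te
  by_cases h : n ≠ 0 ∧ ArithmeticFunction.cardFactors n ≤ K
  · rw [if_pos h, sum_eq_single (ArithmeticFunction.cardFactors n)]
    · rw [cvp_eq hq, if_pos ⟨h.1, rfl⟩]
      have : ((ArithmeticFunction.cardFactors n).factorial : ℂ) ≠ 0 := Nat.cast_ne_zero.2 (Nat.factorial_ne_zero _)
      field_simp
    · intro r _ hr
      rw [cvp_eq hq, if_neg (fun h' => hr h'.2.symm), zero_div]
    · intro h'
      exact absurd (mem_range.2 (Nat.lt_succ_of_le h.2)) h'
  · rw [if_neg h]
    refine sum_eq_zero fun r hr => ?_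
    rw [cvp_eq hq, if_neg, zero_div]
    rintro ⟨h1, h2⟩
    rw [mem_range] at hr
    exact h ⟨h1, by omega⟩

/-- raising by a prime -/
theorem te_up {q : ℕ → ℂ} (hq : ∀ n, q n ≠ 0 → n.Prime) {K p m : ℕ} (hp : p.Prime) (hm : m ≠ 0) :
    (ArithmeticFunction.cardFactors m < K → ((m.factorization p : ℂ) + 1) * te q K (p * m) = q p * te q K m) ∧
    (K ≤ ArithmeticFunction.cardFactors m → te q K (p * m) = 0) := by
  have hΩ : ArithmeticFunction.cardFactors (p * m) = ArithmeticFunction.cardFactors m + 1 := by
    rw [ArithmeticFunction.cardFactors_mul hp.ne_zero hm, ArithmeticFunction.cardFactors_apply_prime hp]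
    omega
  constructor
  · intro h
    rw [te_eq hq, te_eq hq, if_pos ⟨mul_ne_zero hp.ne_zero hm, by omega⟩, if_pos ⟨hm, by omega⟩, gq_mul hp hm]
  · intro h
    rw [te_eq hq, if_neg]
    rintro ⟨-, h1⟩
    omega

theorem te_up_le {q : ℕ → ℂ} (hq : ∀ n, q n ≠ 0 → n.Prime) {K p m : ℕ} (hp : p.Prime) (hm : m ≠ 0) :
    ((m.factorization p : ℝ) + 1) * ‖te q K (p * m)‖ ≤ ‖q p‖ * ‖te q K m‖ := by
  rcases Nat.lt_or_ge (ArithmeticFunction.cardFactors m) K with h | h
  · have h1 := congrArg norm ((te_up hq (p := p) hp hm).1 h)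
    rw [norm_mul, norm_mul] at h1
    have h2 : ‖((m.factorization p : ℂ) + 1)‖ = (m.factorization p : ℝ) + 1 := by
      have : ((m.factorization p : ℂ) + 1) = ((m.factorization p + 1 : ℕ) : ℂ) := by push_cast; ring
      rw [this, Complex.norm_natCast]
      push_cast
      ring
    rw [h2] at h1
    exact h1.le
  · rw [(te_up hq (p := p) hp hm).2 h, norm_zero, mul_zero]
    positivity

/-- the deviation from an eigenvector -/
theorem te_dev {q : ℕ → ℂ} (hq : ∀ n, q n ≠ 0 → n.Prime) {K p m : ℕ} (hp : p.Prime) (hm : m ≠ 0) :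
    ‖te q K (p * m) - q p * te q K m‖ ≤ ‖q p‖ * (if p ∣ m ∨ ArithmeticFunction.cardFactors m = K then ‖te q K m‖ else 0) := by
  classical
  rcases Nat.lt_trichotomy (ArithmeticFunction.cardFactors m) K with h | h | h
  · have h1 := (te_up hq (p := p) hp hm).1 h
    by_cases hd : p ∣ m
    · rw [if_pos (Or.inl hd)]
      have hv : ((m.factorization p : ℝ) + 1) ≠ 0 := by positivity
      have hvc : ((m.factorization p : ℂ) + 1) ≠ 0 := by
        have : ((m.factorization p : ℂ) + 1) = (((m.factorization p : ℝ) + 1 : ℝ) : ℂ) := by push_cast; ring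
        rw [this]
        exact_mod_cast hv
      have h2 : te q K (p * m) - q p * te q K m = q p * te q K m * ((1 / ((m.factorization p : ℝ) + 1) - 1 : ℝ) : ℂ) := by
        have h3 : te q K (p * m) = q p * te q K m / ((m.factorization p : ℂ) + 1) := by
          rw [← h1]
          field_simp
        rw [h3]
        push_cast
        field_simp
        try ring
      rw [h2, norm_mul, norm_mul, Complex.norm_real, Real.norm_eq_abs]
      have h4 : |1 / ((m.factorization p : ℝ) + 1) - 1| ≤ 1 := by
        have h5 : 0 ≤ 1 / ((m.factorization p : ℝ) + 1) := by positivity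
        have h6 : 1 / ((m.factorization p : ℝ) + 1) ≤ 1 := by
          rw [div_le_one (by positivity)]
          have : (0 : ℝ) ≤ m.factorization p := Nat.cast_nonneg _
          linarith
        rw [abs_le]
        constructor <;> linarith
      exact mul_le_of_le_one_right (by positivity) h4
    · rw [if_neg (by push Not; exact ⟨hd, h.ne⟩), mul_zero]
      have h0 : m.factorization p = 0 := Nat.factorization_eq_zero_of_not_dvd hd
      rw [h0] at h1
      simp only [Nat.cast_zero, zero_add, one_mul] at h1
      rw [h1, sub_self, norm_zero]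
  · rw [if_pos (Or.inr h), (te_up hq (p := p) hp hm).2 h.ge, zero_sub, norm_neg, norm_mul]
  · have h1 : te q K m = 0 := by
      rw [te_eq hq, if_neg]
      rintro ⟨-, h2⟩
      omega
    rw [(te_up hq (p := p) hp hm).2 h.le, h1]
    simp

end

end Pool.Agent.U761.SZ
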