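import Pool.Agent.U761.SZ.TEK

set_option autoImplicit false

/-!
U761.SZ: concentration of sums over primes and over squares of primes under the square of a truncated exponential.
-/

namespace Pool.Agent.U761.SZ

open Finset
open Pool.Agent.Q97.UM

noncomputable section

theorem te_supp {q : ℕ → ℂ} {Y K : ℕ} (hY : 1 ≤ Y) (hqY : ∀ n, Y < n → q n = 0) (hq : ∀ n, q n ≠ 0 → n.Prime) :
    ∀ n, te q K n ≠ 0 → 1 ≤ n ∧ n ≤ Y ^ K := by
  intro n hn
  constructor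
  · have h1 := te_eq hq K n
    by_contra h
    have h0 : n = 0 := by omega
    rw [h1, if_neg (by simp [h0])] at hn
    exact hn rfl
  · by_contra h
    exact hn (Pool.Agent.Q14.UM.te_len q Y K hY hqY n (not_le.1 h))

/-- the mass of the multiples of a prime -/
theorem mult_mass {q : ℕ → ℂ} (hq : ∀ n, q n ≠ 0 → n.Prime) {K N p : ℕ} (hp : p.Prime) (hN : ∀ n, te q K n ≠ 0 → 1 ≤ n ∧ n ≤ N) :
    ∑ m ∈ Icc 1 N, (m.factorization p : ℝ) ^ 2 * ‖te q K m‖ ^ 2 / m ≤ ‖q p‖ ^ 2 / p * N2 N (te q K) := by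
  classical
  have hp0 : (0 : ℝ) < p := by exact_mod_cast hp.pos
  have h1 : ∑ m ∈ Icc 1 N, (m.factorization p : ℝ) ^ 2 * ‖te q K m‖ ^ 2 / m ≤
      ∑ m ∈ (Icc 1 N).image (fun m => p * m), (m.factorization p : ℝ) ^ 2 * ‖te q K m‖ ^ 2 / m := by
    rw [← sum_filter_add_sum_filter_not (Icc 1 N) (fun m => p ∣ m)]
    have e1 : ∑ m ∈ (Icc 1 N).filter (fun m => ¬ p ∣ m), (m.factorization p : ℝ) ^ 2 * ‖te q K m‖ ^ 2 / m = 0 := by
      refine sum_eq_zero fun m hm => ?_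
      rw [Nat.factorization_eq_zero_of_not_dvd (mem_filter.1 hm).2]
      simp
    rw [e1, add_zero]
    refine sum_le_sum_of_subset_of_nonneg ?_ fun m _ _ => by positivity
    intro m hm
    rw [mem_filter, mem_Icc] at hm
    rw [mem_image]
    refine ⟨m / p, ?_, Nat.mul_div_cancel' hm.2⟩
    rw [mem_Icc]
    exact ⟨Nat.div_pos (Nat.le_of_dvd hm.1.1 hm.2) hp.pos, (Nat.div_le_self _ _).trans hm.1.2⟩
  refine h1.trans ?_
  rw [sum_image (fun a _ b _ hab => Nat.eq_of_mul_eq_mul_left hp.pos hab)]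
  unfold N2
  rw [mul_sum]
  refine sum_le_sum fun m hm => ?_
  have hm1 := (mem_Icc.1 hm).1
  have hm0 : m ≠ 0 := by omega
  have hmr : (0 : ℝ) < m := by exact_mod_cast hm1
  have h2 := te_up_le hq (K := K) hp hm0
  have h3 : (((p * m).factorization p : ℕ) : ℝ) = (m.factorization p : ℝ) + 1 := by
    rw [Nat.factorization_mul hp.ne_zero hm0, Finsupp.add_apply, hp.factorization_self]
    push_cast
    ring
  rw [h3]
  have h4 : (((m.factorization p : ℝ) + 1) * ‖te q K (p * m)‖) ^ 2 ≤ (‖q p‖ * ‖te q K m‖) ^ 2 := pow_le_pow_left₀ (by positivity) h2 2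
  push_cast
  calc ((m.factorization p : ℝ) + 1) ^ 2 * ‖te q K (p * m)‖ ^ 2 / (p * m) = (((m.factorization p : ℝ) + 1) * ‖te q K (p * m)‖) ^ 2 / (p * m) := by
        rw [mul_pow]
    _ ≤ (‖q p‖ * ‖te q K m‖) ^ 2 / (p * m) := div_le_div_of_nonneg_right h4 (by positivity)
    _ = ‖q p‖ ^ 2 / p * (‖te q K m‖ ^ 2 / m) := by
      rw [mul_pow]
      field_simp

/-- the mass of the last layer -/
theorem last_layer {q : ℕ → ℂ} {P : Finset ℕ} (hq : ∀ n, q n ≠ 0 → n.Prime ∧ n ∈ P) (hP : ∀ p ∈ P, p.Prime) {K N : ℕ} (hK : 1 ≤ K)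
    (hN : ∀ n, te q K n ≠ 0 → 1 ≤ n ∧ n ≤ N) :
    ∑ m ∈ Icc 1 N, (if ArithmeticFunction.cardFactors m = K then ‖te q K m‖ ^ 2 / m else 0) ≤
      (∑ p ∈ P, ‖q p‖ ^ 2 / p) / K * N2 N (te q K) := by
  classical
  have hq' : ∀ n, q n ≠ 0 → n.Prime := fun n h => (hq n h).1
  have hK0 : (0 : ℝ) < K := by exact_mod_cast hK
  have h1 : ∀ m ∈ Icc 1 N, (if ArithmeticFunction.cardFactors m = K then ‖te q K m‖ ^ 2 / m else 0) ≤
      1 / (K : ℝ) * ∑ p ∈ P, (m.factorization p : ℝ) ^ 2 * ‖te q K m‖ ^ 2 / m := by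
    intro m hm
    have hm1 := (mem_Icc.1 hm).1
    have hm0 : m ≠ 0 := by omega
    have hnn : 0 ≤ 1 / (K : ℝ) * ∑ p ∈ P, (m.factorization p : ℝ) ^ 2 * ‖te q K m‖ ^ 2 / m := by
      refine mul_nonneg (by positivity) (sum_nonneg fun p _ => by positivity)
    by_cases h : ArithmeticFunction.cardFactors m = K
    · rw [if_pos h]
      by_cases he : te q K m = 0
      · rw [he]
        simp
      have hsub : m.primeFactors ⊆ P := by
        intro p hp
        have h2 : gq q m ≠ 0 := by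
          rw [te_eq hq'] at he
          by_contra h0
          rw [h0] at he
          simp at he
        unfold gq at h2
        have h3 := (prod_ne_zero_iff.1 h2) p hp
        have h4 : m.factorization p ≠ 0 := by
          rw [← Finsupp.mem_support_iff, Nat.support_factorization]
          exact hp
        have h5 : q p ≠ 0 := by
          intro h0
          apply h3
          rw [h0, zero_pow h4, zero_div]
        exact (hq p h5).2
      have h2 : (K : ℝ) ≤ ∑ p ∈ P, (m.factorization p : ℝ) ^ 2 := by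
        have h3 : ∑ p ∈ m.primeFactors, m.factorization p = K := by
          rw [← h, ArithmeticFunction.cardFactors_eq_sum_factorization]
          rfl
        have h4 : (K : ℝ) = ∑ p ∈ m.primeFactors, (m.factorization p : ℝ) := by
          rw [← h3]
          push_cast
          rfl
        rw [h4]
        refine le_trans (sum_le_sum fun p _ => ?_) (sum_le_sum_of_subset_of_nonneg hsub fun p _ _ => sq_nonneg _)
        have : (m.factorization p : ℝ) ≤ (m.factorization p : ℝ) ^ 2 := by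
          exact_mod_cast Nat.le_self_pow two_ne_zero _
        exact this
      have h5 : ∑ p ∈ P, (m.factorization p : ℝ) ^ 2 * ‖te q K m‖ ^ 2 / m = (∑ p ∈ P, (m.factorization p : ℝ) ^ 2) * (‖te q K m‖ ^ 2 / m) := by
        rw [sum_mul]
        exact sum_congr rfl fun p _ => by ring
      rw [h5]
      have h6 := mul_le_mul_of_nonneg_right h2 (by positivity : (0 : ℝ) ≤ ‖te q K m‖ ^ 2 / m)
      calc ‖te q K m‖ ^ 2 / m = 1 / (K : ℝ) * (K * (‖te q K m‖ ^ 2 / m)) := by field_simp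
        _ ≤ _ := mul_le_mul_of_nonneg_left h6 (by positivity)
    · rw [if_neg h]
      exact hnn
  refine (sum_le_sum h1).trans ?_
  rw [← mul_sum, sum_comm]
  have h2 : ∑ p ∈ P, ∑ m ∈ Icc 1 N, (m.factorization p : ℝ) ^ 2 * ‖te q K m‖ ^ 2 / m ≤ (∑ p ∈ P, ‖q p‖ ^ 2 / p) * N2 N (te q K) := by
    rw [sum_mul]
    exact sum_le_sum fun p hp => mult_mass hq' (hP p hp) hN
  calc 1 / (K : ℝ) * ∑ p ∈ P, ∑ m ∈ Icc 1 N, (m.factorization p : ℝ) ^ 2 * ‖te q K m‖ ^ 2 / m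
      ≤ 1 / (K : ℝ) * ((∑ p ∈ P, ‖q p‖ ^ 2 / p) * N2 N (te q K)) := mul_le_mul_of_nonneg_left h2 (by positivity)
    _ = _ := by ring

/-- the deviation from an eigenvector, mean square -/
theorem dev_mass {q : ℕ → ℂ} {P : Finset ℕ} (hq : ∀ n, q n ≠ 0 → n.Prime ∧ n ∈ P) (hP : ∀ p ∈ P, p.Prime) {K N p : ℕ} (hK : 1 ≤ K)
    (hp : p.Prime) (hN : ∀ n, te q K n ≠ 0 → 1 ≤ n ∧ n ≤ N) :
    ∑ m ∈ Icc 1 N, ‖te q K (p * m) - q p * te q K m‖ ^ 2 / m ≤
      ‖q p‖ ^ 2 * (‖q p‖ ^ 2 / p + (∑ p ∈ P, ‖q p‖ ^ 2 / p) / K) * N2 N (te q K) := by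
  classical
  have hq' : ∀ n, q n ≠ 0 → n.Prime := fun n h => (hq n h).1
  have h1 : ∀ m ∈ Icc 1 N, ‖te q K (p * m) - q p * te q K m‖ ^ 2 / m ≤
      ‖q p‖ ^ 2 * ((m.factorization p : ℝ) ^ 2 * ‖te q K m‖ ^ 2 / m + (if ArithmeticFunction.cardFactors m = K then ‖te q K m‖ ^ 2 / m else 0)) := by
    intro m hm
    have hm1 := (mem_Icc.1 hm).1
    have hm0 : m ≠ 0 := by omega
    have hmr : (0 : ℝ) < m := by exact_mod_cast hm1
    have h2 := te_dev hq' (K := K) hp hm0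
    have h3 := pow_le_pow_left₀ (norm_nonneg _) h2 2
    rw [mul_pow] at h3
    have h4 : (if p ∣ m ∨ ArithmeticFunction.cardFactors m = K then ‖te q K m‖ else 0) ^ 2 / (m : ℝ) ≤
        (m.factorization p : ℝ) ^ 2 * ‖te q K m‖ ^ 2 / m + (if ArithmeticFunction.cardFactors m = K then ‖te q K m‖ ^ 2 / m else 0) := by
      by_cases hK' : ArithmeticFunction.cardFactors m = K
      · rw [if_pos (Or.inr hK'), if_pos hK']
        have : 0 ≤ (m.factorization p : ℝ) ^ 2 * ‖te q K m‖ ^ 2 / m := by positivity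
        linarith
      · rw [if_neg hK', add_zero]
        by_cases hd : p ∣ m
        · rw [if_pos (Or.inl hd)]
          have h5 : (1 : ℝ) ≤ (m.factorization p : ℝ) ^ 2 := by
            have : 1 ≤ m.factorization p := hp.factorization_pos_of_dvd hm0 hd
            have h6 : (1 : ℝ) ≤ m.factorization p := by exact_mod_cast this
            calc (1 : ℝ) = 1 ^ 2 := by norm_num
              _ ≤ _ := pow_le_pow_left₀ (by norm_num) h6 2
          refine div_le_div_of_nonneg_right ?_ hmr.le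
          exact le_mul_of_one_le_left (by positivity) h5
        · rw [if_neg (by push Not; exact ⟨hd, hK'⟩)]
          have : 0 ≤ (m.factorization p : ℝ) ^ 2 * ‖te q K m‖ ^ 2 / m := by positivity
          simpa using this
    calc ‖te q K (p * m) - q p * te q K m‖ ^ 2 / m ≤ ‖q p‖ ^ 2 * (if p ∣ m ∨ ArithmeticFunction.cardFactors m = K then ‖te q K m‖ else 0) ^ 2 / m :=
          div_le_div_of_nonneg_right h3 hmr.le
      _ = ‖q p‖ ^ 2 * ((if p ∣ m ∨ ArithmeticFunction.cardFactors m = K then ‖te q K m‖ else 0) ^ 2 / m) := by ring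
      _ ≤ _ := mul_le_mul_of_nonneg_left h4 (by positivity)
  refine (sum_le_sum h1).trans ?_
  rw [← mul_sum, sum_add_distrib]
  have h2 := mult_mass hq' hp hN
  have h3 := last_layer hq hP hK hN
  calc ‖q p‖ ^ 2 * (∑ m ∈ Icc 1 N, (m.factorization p : ℝ) ^ 2 * ‖te q K m‖ ^ 2 / m +
        ∑ m ∈ Icc 1 N, (if ArithmeticFunction.cardFactors m = K then ‖te q K m‖ ^ 2 / m else 0))
      ≤ ‖q p‖ ^ 2 * (‖q p‖ ^ 2 / p * N2 N (te q K) + (∑ p ∈ P, ‖q p‖ ^ 2 / p) / K * N2 N (te q K)) :=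
        mul_le_mul_of_nonneg_left (add_le_add h2 h3) (by positivity)
    _ = _ := by ring

theorem sum_inv_sq_primes (X : ℕ) : ∑ p ∈ (Icc 1 X).filter Nat.Prime, (1 : ℝ) / (p : ℝ) ^ 2 ≤ 2 :=
  (sum_le_sum_of_subset_of_nonneg (filter_subset _ _) fun p _ _ => by positivity).trans (Pool.Agent.Q14.UM.sum_inv_sq X)

/-- **concentration of sums over primes** -/
theorem te_conc {q c : ℕ → ℂ} {P : Finset ℕ} {A V : ℝ} (hA : 1 ≤ A) (hq : ∀ n, q n ≠ 0 → n.Prime ∧ n ∈ P) (hP : ∀ p ∈ P, p.Prime)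
    (hqA : ∀ n, ‖q n‖ ≤ A) (hc : ∀ n, ‖c n‖ ≤ 1) {K N M X : ℕ} (hK : 1 ≤ K) (hX : 1 ≤ X) (hPX : ∀ p ∈ P, p ≤ X)
    (hN : ∀ n, te q K n ≠ 0 → 1 ≤ n ∧ n ≤ N) (hM : X * N ≤ M) (hV : ∑ p ∈ (Icc 1 X).filter Nat.Prime, (1 : ℝ) / p ≤ V) (hV1 : 1 ≤ V)
    (hKV : V ^ 2 ≤ K) :
    ∑ n ∈ Icc 1 M, ‖∑ p ∈ (Icc 1 X).filter Nat.Prime, c p * Ed (te q K) p n -
      (∑ p ∈ (Icc 1 X).filter Nat.Prime, c p * (starRingEnd ℂ) (q p) / p) * te q K n‖ ^ 2 * (1 / (n : ℝ)) ≤
      (1 + 3 * A ^ 4) * V * N2 N (te q K) := by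
  classical
  obtain ⟨D, hD⟩ : ∃ D : Finset ℕ, D = (Icc 1 X).filter Nat.Prime := ⟨_, rfl⟩
  rw [← hD] at hV ⊢
  have hDp : ∀ p ∈ D, p.Prime := fun p hp => by rw [hD] at hp; exact (mem_filter.1 hp).2
  have hDX : ∀ p ∈ D, p ≤ X := fun p hp => by rw [hD] at hp; exact (mem_Icc.1 (mem_filter.1 hp).1).2
  have hK0 : (0 : ℝ) < K := by exact_mod_cast hK
  obtain ⟨S, hS⟩ : ∃ S : ℝ, S = N2 N (te q K) := ⟨_, rfl⟩
  have hS0 : 0 ≤ S := by rw [hS]; exact Pool.Agent.Q97.UM.N2_nonneg _ _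
  have h1 := con_ineq (c := c) hN (fun p hp => (hDp p hp).one_lt.le) hDX hX
    (fun p hp p' hp' hne => (Nat.coprime_primes (hDp p hp) (hDp p' hp')).2 hne) hM (∑ p ∈ D, c p * (starRingEnd ℂ) (q p) / p)
  refine h1.trans ?_
  rw [← hS]
  have h2 : (∑ d ∈ D, ‖c d‖ ^ 2 / d) * S ≤ V * S := by
    refine mul_le_mul_of_nonneg_right (le_trans (sum_le_sum fun p _ => ?_) hV) hS0
    refine div_le_div_of_nonneg_right ?_ (Nat.cast_nonneg p)
    calc ‖c p‖ ^ 2 ≤ 1 ^ 2 := pow_le_pow_left₀ (norm_nonneg _) (hc p) 2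
      _ = 1 := by norm_num
  have h3 : ∑ m ∈ Icc 1 N, ‖∑ d ∈ D, ((starRingEnd ℂ) (c d) / d) * te q K (d * m) -
      (starRingEnd ℂ) (∑ p ∈ D, c p * (starRingEnd ℂ) (q p) / p) * te q K m‖ ^ 2 * (1 / (m : ℝ)) ≤ 3 * A ^ 4 * V * S := by
    have h4 : ∀ m ∈ Icc 1 N, ‖∑ d ∈ D, ((starRingEnd ℂ) (c d) / d) * te q K (d * m) -
        (starRingEnd ℂ) (∑ p ∈ D, c p * (starRingEnd ℂ) (q p) / p) * te q K m‖ ^ 2 * (1 / (m : ℝ)) ≤
        V * ∑ d ∈ D, 1 / (d : ℝ) * (‖te q K (d * m) - q d * te q K m‖ ^ 2 / m) := by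
      intro m hm
      have hmr : (0 : ℝ) ≤ 1 / (m : ℝ) := by positivity
      have e1 : ∑ d ∈ D, ((starRingEnd ℂ) (c d) / d) * te q K (d * m) -
          (starRingEnd ℂ) (∑ p ∈ D, c p * (starRingEnd ℂ) (q p) / p) * te q K m =
          ∑ d ∈ D, ((starRingEnd ℂ) (c d) / d) * (te q K (d * m) - q d * te q K m) := by
        rw [map_sum, sum_mul, ← sum_sub_distrib]
        refine sum_congr rfl fun d _ => ?_
        rw [map_div₀, map_mul, Complex.conj_conj, map_natCast]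
        ring
      rw [e1]
      have h5 : ‖∑ d ∈ D, ((starRingEnd ℂ) (c d) / d) * (te q K (d * m) - q d * te q K m)‖ ≤
          ∑ d ∈ D, (1 / Real.sqrt d) * (‖te q K (d * m) - q d * te q K m‖ / Real.sqrt d) := by
        refine (norm_sum_le _ _).trans (sum_le_sum fun d hd => ?_)
        have hd0 : (0 : ℝ) < d := by exact_mod_cast (hDp d hd).pos
        rw [norm_mul, norm_div, RCLike.norm_conj, Complex.norm_natCast]
        have h6 : ‖c d‖ / d ≤ 1 / d := div_le_div_of_nonneg_right (hc d) hd0.le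
        calc ‖c d‖ / d * ‖te q K (d * m) - q d * te q K m‖ ≤ 1 / d * ‖te q K (d * m) - q d * te q K m‖ :=
              mul_le_mul_of_nonneg_right h6 (norm_nonneg _)
          _ = _ := by
            rw [div_mul_div_comm, Real.mul_self_sqrt hd0.le]
            ring
      have h6 := pow_le_pow_left₀ (norm_nonneg _) h5 2
      have h7 := sum_mul_sq_le_sq_mul_sq D (fun d => 1 / Real.sqrt (d : ℝ)) (fun d => ‖te q K (d * m) - q d * te q K m‖ / Real.sqrt d)
      have h8 : ∑ d ∈ D, (1 / Real.sqrt (d : ℝ)) ^ 2 = ∑ d ∈ D, 1 / (d : ℝ) :=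
        sum_congr rfl fun d _ => by rw [div_pow, Real.sq_sqrt (Nat.cast_nonneg d), one_pow]
      have h9 : ∑ d ∈ D, (‖te q K (d * m) - q d * te q K m‖ / Real.sqrt d) ^ 2 = ∑ d ∈ D, 1 / (d : ℝ) * ‖te q K (d * m) - q d * te q K m‖ ^ 2 :=
        sum_congr rfl fun d _ => by rw [div_pow, Real.sq_sqrt (Nat.cast_nonneg d)]; ring
      rw [h8, h9] at h7
      have h10 : 0 ≤ ∑ d ∈ D, 1 / (d : ℝ) * ‖te q K (d * m) - q d * te q K m‖ ^ 2 := sum_nonneg fun d _ => by positivity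
      calc _ ≤ (V * ∑ d ∈ D, 1 / (d : ℝ) * ‖te q K (d * m) - q d * te q K m‖ ^ 2) * (1 / (m : ℝ)) :=
            mul_le_mul_of_nonneg_right (h6.trans (h7.trans (mul_le_mul_of_nonneg_right hV h10))) hmr
        _ = _ := by
          rw [mul_assoc, sum_mul]
          congr 1
          exact sum_congr rfl fun d _ => by ring
    refine (sum_le_sum h4).trans ?_
    rw [← mul_sum, sum_comm]
    have h5 : ∀ d ∈ D, ∑ m ∈ Icc 1 N, 1 / (d : ℝ) * (‖te q K (d * m) - q d * te q K m‖ ^ 2 / m) ≤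
        (A ^ 4 * (1 / (d : ℝ) ^ 2) + A ^ 4 * V / K * (1 / (d : ℝ))) * S := by
      intro d hd
      have hd0 : (0 : ℝ) < d := by exact_mod_cast (hDp d hd).pos
      rw [← mul_sum]
      have h6 := dev_mass hq hP hK (hDp d hd) hN
      rw [← hS] at h6
      have hq2 : ‖q d‖ ^ 2 ≤ A ^ 2 := pow_le_pow_left₀ (norm_nonneg _) (hqA d) 2
      have hxs : ∑ p ∈ P, ‖q p‖ ^ 2 / (p : ℝ) ≤ A ^ 2 * V := by
        calc ∑ p ∈ P, ‖q p‖ ^ 2 / (p : ℝ) ≤ ∑ p ∈ P, A ^ 2 * (1 / (p : ℝ)) := by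
              refine sum_le_sum fun p _ => ?_
              rw [mul_one_div]
              exact div_le_div_of_nonneg_right (pow_le_pow_left₀ (norm_nonneg _) (hqA p) 2) (Nat.cast_nonneg p)
          _ = A ^ 2 * ∑ p ∈ P, (1 / (p : ℝ)) := by rw [mul_sum]
          _ ≤ A ^ 2 * V := by
            refine mul_le_mul_of_nonneg_left (le_trans (sum_le_sum_of_subset_of_nonneg ?_ fun p _ _ => by positivity) hV) (by positivity)
            intro p hp
            rw [hD, mem_filter, mem_Icc]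
            exact ⟨⟨(hP p hp).one_lt.le, hPX p hp⟩, hP p hp⟩
      have hxs0 : 0 ≤ ∑ p ∈ P, ‖q p‖ ^ 2 / (p : ℝ) := sum_nonneg fun p _ => by positivity
      have h7 : ‖q d‖ ^ 2 * (‖q d‖ ^ 2 / d + (∑ p ∈ P, ‖q p‖ ^ 2 / p) / K) ≤ A ^ 2 * (A ^ 2 / d + A ^ 2 * V / K) := by
        refine mul_le_mul hq2 (add_le_add (div_le_div_of_nonneg_right hq2 hd0.le) (div_le_div_of_nonneg_right hxs hK0.le)) (by positivity) (by positivity)
      calc 1 / (d : ℝ) * ∑ m ∈ Icc 1 N, ‖te q K (d * m) - q d * te q K m‖ ^ 2 / m ≤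
            1 / (d : ℝ) * (A ^ 2 * (A ^ 2 / d + A ^ 2 * V / K) * S) :=
            mul_le_mul_of_nonneg_left (h6.trans (mul_le_mul_of_nonneg_right h7 hS0)) (by positivity)
        _ = _ := by
          field_simp
    have h6 : ∑ d ∈ D, ∑ m ∈ Icc 1 N, 1 / (d : ℝ) * (‖te q K (d * m) - q d * te q K m‖ ^ 2 / m) ≤
        (A ^ 4 * 2 + A ^ 4 * V / K * V) * S := by
      refine (sum_le_sum h5).trans ?_
      rw [← sum_mul]
      refine mul_le_mul_of_nonneg_right ?_ hS0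
      rw [sum_add_distrib, ← mul_sum, ← mul_sum]
      refine add_le_add (mul_le_mul_of_nonneg_left ?_ (by positivity)) (mul_le_mul_of_nonneg_left hV (by positivity))
      rw [hD]
      exact sum_inv_sq_primes X
    have h7 : A ^ 4 * V / K * V ≤ A ^ 4 := by
      rw [div_mul_eq_mul_div, div_le_iff₀ hK0]
      calc A ^ 4 * V * V = A ^ 4 * V ^ 2 := by ring
        _ ≤ A ^ 4 * K := mul_le_mul_of_nonneg_left hKV (by positivity)
    calc V * ∑ d ∈ D, ∑ m ∈ Icc 1 N, 1 / (d : ℝ) * (‖te q K (d * m) - q d * te q K m‖ ^ 2 / m) ≤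
          V * ((A ^ 4 * 2 + A ^ 4 * V / K * V) * S) := mul_le_mul_of_nonneg_left h6 (by linarith)
      _ ≤ V * ((A ^ 4 * 2 + A ^ 4) * S) := mul_le_mul_of_nonneg_left (mul_le_mul_of_nonneg_right (by linarith) hS0) (by linarith)
      _ = _ := by ring
  calc _ ≤ V * S + 3 * A ^ 4 * V * S := add_le_add h2 h3
    _ = _ := by ring

/-- the squares of the primes -/
theorem te_sqs {q c : ℕ → ℂ} {P : Finset ℕ} {A : ℝ} (hA : 1 ≤ A) (hq : ∀ n, q n ≠ 0 → n.Prime ∧ n ∈ P)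
    (hqA : ∀ n, ‖q n‖ ≤ A) (hc : ∀ n, ‖c n‖ ≤ 1) {K N M X : ℕ} (hX : 1 ≤ X)
    (hN : ∀ n, te q K n ≠ 0 → 1 ≤ n ∧ n ≤ N) (hM : X ^ 2 * N ≤ M) :
    ∑ n ∈ Icc 1 M, ‖∑ p ∈ (Icc 1 X).filter Nat.Prime, c p * Ed (te q K) (p ^ 2) n‖ ^ 2 * (1 / (n : ℝ)) ≤
      (2 + 4 * A ^ 4) * N2 N (te q K) := by
  classical
  have hq' : ∀ n, q n ≠ 0 → n.Prime := fun n h => (hq n h).1
  obtain ⟨D, hD⟩ : ∃ D : Finset ℕ, D = (Icc 1 X).filter Nat.Prime := ⟨_, rfl⟩
  rw [← hD]
  have hDp : ∀ p ∈ D, p.Prime := fun p hp => by rw [hD] at hp; exact (mem_filter.1 hp).2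
  have hDX : ∀ p ∈ D, p ≤ X := fun p hp => by rw [hD] at hp; exact (mem_Icc.1 (mem_filter.1 hp).1).2
  obtain ⟨S, hS⟩ : ∃ S : ℝ, S = N2 N (te q K) := ⟨_, rfl⟩
  have hS0 : 0 ≤ S := by rw [hS]; exact Pool.Agent.Q97.UM.N2_nonneg _ _
  have hinj : Set.InjOn (fun p : ℕ => p ^ 2) D := fun a _ b _ hab => Nat.pow_left_injective (by norm_num : (2 : ℕ) ≠ 0) hab
  have h1 := con_ineq (D := D.image fun p => p ^ 2) (c := fun d => c (Nat.sqrt d)) hN (X := X ^ 2)
    (fun d hd => by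
      obtain ⟨p, hp, rfl⟩ := mem_image.1 hd
      exact Nat.pos_of_ne_zero (pow_ne_zero 2 (hDp p hp).ne_zero))
    (fun d hd => by
      obtain ⟨p, hp, rfl⟩ := mem_image.1 hd
      exact Nat.pow_le_pow_left (hDX p hp) 2)
    (Nat.pos_of_ne_zero (pow_ne_zero 2 (by omega)))
    (fun d hd d' hd' hne => by
      obtain ⟨p, hp, rfl⟩ := mem_image.1 hd
      obtain ⟨p', hp', rfl⟩ := mem_image.1 hd'
      have : p ≠ p' := fun h => hne (by rw [h])
      exact Nat.Coprime.pow 2 2 ((Nat.coprime_primes (hDp p hp) (hDp p' hp')).2 this)) hM 0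
  rw [sum_image hinj] at h1
  simp only [sum_image hinj, zero_mul, sub_zero, map_zero] at h1
  have hsq : ∀ p : ℕ, Nat.sqrt (p ^ 2) = p := fun p => Nat.sqrt_eq' p
  simp only [hsq] at h1
  refine h1.trans ?_
  rw [← hS]
  have hsum : ∑ p ∈ D, (1 : ℝ) / (p : ℝ) ^ 2 ≤ 2 := by rw [hD]; exact sum_inv_sq_primes X
  have h2 : (∑ p ∈ D, ‖c p‖ ^ 2 / ((p ^ 2 : ℕ) : ℝ)) * S ≤ 2 * S := by
    refine mul_le_mul_of_nonneg_right (le_trans (sum_le_sum fun p _ => ?_) hsum) hS0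
    push_cast
    refine div_le_div_of_nonneg_right ?_ (by positivity)
    calc ‖c p‖ ^ 2 ≤ 1 ^ 2 := pow_le_pow_left₀ (norm_nonneg _) (hc p) 2
      _ = 1 := by norm_num
  have h3 : ∑ m ∈ Icc 1 N, ‖∑ p ∈ D, ((starRingEnd ℂ) (c p) / ((p ^ 2 : ℕ) : ℂ)) * te q K (p ^ 2 * m)‖ ^ 2 * (1 / (m : ℝ)) ≤ 4 * A ^ 4 * S := by
    rw [hS]
    unfold N2
    rw [mul_sum]
    refine sum_le_sum fun m hm => ?_
    have hm1 := (mem_Icc.1 hm).1
    have hm0 : m ≠ 0 := by omega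
    have h4 : ‖∑ p ∈ D, ((starRingEnd ℂ) (c p) / ((p ^ 2 : ℕ) : ℂ)) * te q K (p ^ 2 * m)‖ ≤ 2 * A ^ 2 * ‖te q K m‖ := by
      refine (norm_sum_le _ _).trans ?_
      calc ∑ p ∈ D, ‖((starRingEnd ℂ) (c p) / ((p ^ 2 : ℕ) : ℂ)) * te q K (p ^ 2 * m)‖ ≤
            ∑ p ∈ D, (1 / (p : ℝ) ^ 2) * (A ^ 2 * ‖te q K m‖) := by
            refine sum_le_sum fun p hp => ?_
            have hpp := hDp p hp
            have hp0 : (0 : ℝ) < p := by exact_mod_cast hpp.pos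
            rw [norm_mul, norm_div, RCLike.norm_conj]
            have e1 : ‖((p ^ 2 : ℕ) : ℂ)‖ = (p : ℝ) ^ 2 := by rw [Complex.norm_natCast]; push_cast; ring
            rw [e1]
            have h5 : ‖te q K (p ^ 2 * m)‖ ≤ A ^ 2 * ‖te q K m‖ := by
              have e2 : p ^ 2 * m = p * (p * m) := by ring
              rw [e2]
              have g1 := te_up_le hq' (K := K) hpp (mul_ne_zero hpp.ne_zero hm0)
              have g2 := te_up_le hq' (K := K) hpp hm0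
              have g3 : ‖te q K (p * (p * m))‖ ≤ (((p * m).factorization p : ℝ) + 1) * ‖te q K (p * (p * m))‖ := by
                refine le_mul_of_one_le_left (norm_nonneg _) ?_
                have : (0 : ℝ) ≤ ((p * m).factorization p : ℝ) := Nat.cast_nonneg _
                linarith
              have g4 : ‖te q K (p * m)‖ ≤ ((m.factorization p : ℝ) + 1) * ‖te q K (p * m)‖ := by
                refine le_mul_of_one_le_left (norm_nonneg _) ?_
                have : (0 : ℝ) ≤ (m.factorization p : ℝ) := Nat.cast_nonneg _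
                linarith
              have g5 : ‖te q K (p * m)‖ ≤ A * ‖te q K m‖ := (g4.trans g2).trans (mul_le_mul_of_nonneg_right (hqA p) (norm_nonneg _))
              calc ‖te q K (p * (p * m))‖ ≤ ‖q p‖ * ‖te q K (p * m)‖ := g3.trans g1
                _ ≤ A * (A * ‖te q K m‖) := mul_le_mul (hqA p) g5 (norm_nonneg _) (by linarith)
                _ = _ := by ring
            refine mul_le_mul (div_le_div_of_nonneg_right (hc p) (by positivity)) h5 (norm_nonneg _) (by positivity)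
        _ = (∑ p ∈ D, 1 / (p : ℝ) ^ 2) * (A ^ 2 * ‖te q K m‖) := by rw [sum_mul]
        _ ≤ 2 * (A ^ 2 * ‖te q K m‖) := mul_le_mul_of_nonneg_right hsum (by positivity)
        _ = _ := by ring
    have h5 := pow_le_pow_left₀ (norm_nonneg _) h4 2
    calc ‖∑ p ∈ D, ((starRingEnd ℂ) (c p) / ((p ^ 2 : ℕ) : ℂ)) * te q K (p ^ 2 * m)‖ ^ 2 * (1 / (m : ℝ)) ≤
          (2 * A ^ 2 * ‖te q K m‖) ^ 2 * (1 / (m : ℝ)) := mul_le_mul_of_nonneg_right h5 (by positivity)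
      _ = _ := by ring
  calc _ ≤ 2 * S + 4 * A ^ 4 * S := add_le_add h2 h3
    _ = _ := by ring

end

end Pool.Agent.U761.SZ
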