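import Pool.Agent.Q97.UM.Base8
import Pool.Agent.U761.SZ.DETS
import Pool.Agent.U761.SZ.EULC

set_option autoImplicit false

/-!
U761.SZ: Theorem P for the complex logarithm of zeta on the critical line (all moments relative to every Dirichlet polynomial).
-/

namespace Pool.Agent.U761.SZ

open Filter Topology MeasureTheory Complex
open Pool.Agent.Q97.UM Pool.Agent.Q247.UM

noncomputable section

theorem zeta_meas : Measurable riemannZeta := by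
  refine measurable_of_continuousOn_compl_singleton 1 ?_
  intro z hz
  exact (differentiableAt_riemannZeta hz).continuousAt.continuousWithinAt

theorem ld_meas : Measurable fun p : ℝ × ℝ => (deriv riemannZeta ⟨p.2, p.1⟩ / riemannZeta ⟨p.2, p.1⟩).im := by
  have h1 : Measurable fun p : ℝ × ℝ => (⟨p.2, p.1⟩ : ℂ) := by
    have : (fun p : ℝ × ℝ => (⟨p.2, p.1⟩ : ℂ)) = fun p : ℝ × ℝ => (p.2 : ℂ) + p.1 * I := by
      funext p
      apply Complex.ext <;> simp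
    rw [this]
    fun_prop
  exact Complex.measurable_im.comp (((measurable_deriv riemannZeta).comp h1).div (zeta_meas.comp h1))

theorem AI_meas : Measurable AI := by
  have h1 : StronglyMeasurable (Function.uncurry fun (v x : ℝ) => (deriv riemannZeta ⟨x, v⟩ / riemannZeta ⟨x, v⟩).im) :=
    ld_meas.stronglyMeasurable
  have h2 := h1.integral_prod_right (ν := (volume : Measure ℝ).restrict (Set.Ioc (1 / 2) (3 / 2)))
  have e : AI = fun v => ∫ x in Set.Ioc (1 / 2 : ℝ) (3 / 2), (deriv riemannZeta ⟨x, v⟩ / riemannZeta ⟨x, v⟩).im := by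
    funext v
    unfold AI
    rw [intervalIntegral.integral_of_le (by norm_num)]
  rw [e]
  exact h2.measurable

theorem aS_meas : Measurable aS := by
  have : aS = fun y => (ell ⟨3 / 2, y⟩).im - AI y := funext aS_eq
  rw [this]
  exact (continuous_im.comp ell_cont).measurable.sub AI_meas

/-- the complex logarithm of `ζ(1/2 + it)` -/
def Lz (t : ℝ) : ℂ := ⟨Real.log ‖zt t‖, aS t⟩

theorem Lz_meas : Measurable Lz := by
  have h1 : Measurable (fun t => Real.log ‖zt t‖) := Real.measurable_log.comp Pool.Agent.Q247.UM.zt_cont.norm.measurable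
  have : Lz = fun t => ((Real.log ‖zt t‖ : ℝ) : ℂ) + ((aS t : ℝ) : ℂ) * I := by
    funext t
    apply Complex.ext <;> simp [Lz]
  rw [this]
  exact (measurable_ofReal.comp h1).add ((measurable_ofReal.comp aS_meas).mul_const _)

theorem LE_cont (X : ℕ) : Continuous (LE X) := by
  unfold LE
  refine Continuous.neg (continuous_finsetSum _ fun p hp => ?_)
  have hp' := (Finset.mem_filter.1 hp).2
  have h1 : Continuous (fun t : ℝ => (1 : ℂ) - (p : ℂ) ^ (-(1 / 2 + t * I))) :=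
    continuous_const.sub (cpow_cont hp'.one_lt.le)
  refine Continuous.clog h1 fun t => ?_
  have h2 : ‖(p : ℂ) ^ (-(1 / 2 + t * I))‖ < 1 := by
    have h3 : ‖(p : ℂ) ^ (-(1 / 2 + t * I))‖ = (p : ℝ) ^ (-(1 / 2 : ℝ)) := by
      rw [Complex.norm_natCast_cpow_of_pos hp'.pos]
      congr 1
      simp
    rw [h3]
    apply Real.rpow_lt_one_of_one_lt_of_neg
    · exact_mod_cast hp'.one_lt
    · norm_num
  rw [mem_slitPlane_iff]
  left
  rw [sub_re, one_re]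
  have := (abs_le.1 (Complex.abs_re_le_norm ((p : ℂ) ^ (-(1 / 2 + t * I))))).2
  linarith

lemma ae_ord {T : ℝ} (hT : 16 ≤ T) : ∀ᵐ t : ℝ, T / 2 ≤ t → t ≤ 4 * T → zt t ≠ 0 ∧ ∀ ρ ∈ ZD T, t ≠ ρ.im := by
  filter_upwards [ae_zt hT, ord_ae T] with t h1 h2 h3 h4
  exact ⟨h1 h3 h4, h2⟩

/-- the pointwise inequality -/
lemma cpoint {ψ₁ : ℝ → ℝ} {δ T CD CA CE t : ℝ} (hT : 0 < T) (hD2 : 2 ≤ δ * Real.log T)
    (hCE : ∀ D t : ℝ, 2 ≤ D → ‖LE ⌊Real.exp D⌋₊ t - PC ψ₁ D t - dp ⌊Real.exp D⌋₊ (alp ψ₁ D ⌊Real.exp D⌋₊) t‖ ≤ CE)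
    (hSL : 0 ≤ SL T t)
    (h1 : Real.log ‖zt t‖ ≤ PP ψ₁ (δ * Real.log T) t + CD * (1 + SS δ T t))
    (h2 : PP ψ₁ (δ * Real.log T) t - CD * (1 + SS δ T t) - SL T t ≤ Real.log ‖zt t‖)
    (h3 : |aS t - (PC ψ₁ (δ * Real.log T) t).im| ≤ CA * (1 + SS δ T t)) :
    ‖Lz t - LE ⌊T ^ δ⌋₊ t‖ ≤ (CD + CA + CE) + (CD + CA) * SS δ T t + SL T t +
      ‖dp ⌊T ^ δ⌋₊ (alp ψ₁ (δ * Real.log T) ⌊T ^ δ⌋₊) t‖ := by
  have hexp : Real.exp (δ * Real.log T) = T ^ δ := by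
    rw [Real.rpow_def_of_pos hT, mul_comm]
  have h4 := hCE (δ * Real.log T) t hD2
  rw [hexp] at h4
  set X := ⌊T ^ δ⌋₊
  set A := dp X (alp ψ₁ (δ * Real.log T) X) t
  set Q := PC ψ₁ (δ * Real.log T) t with hQ
  have h5 : ‖Lz t - Q‖ ≤ (CD * (1 + SS δ T t) + SL T t) + CA * (1 + SS δ T t) := by
    refine (Complex.norm_le_abs_re_add_abs_im _).trans (add_le_add ?_ ?_)
    · rw [sub_re]
      show |Real.log ‖zt t‖ - Q.re| ≤ _
      rw [hQ, PC_re, abs_le]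
      constructor
      · linarith
      · linarith
    · rw [sub_im]
      exact h3
  have e : Lz t - LE X t = (Lz t - Q) + -(LE X t - Q - A) + -A := by ring
  rw [e]
  refine (norm_add_le _ _).trans ?_
  rw [norm_neg]
  refine (add_le_add_left (norm_add_le _ _) _).trans ?_
  rw [norm_neg]
  linarith

/-- Theorem P for the complex logarithm -/
theorem THS : ∀ m : ℕ, ∃ θ δ₀ : ℝ, 0 < θ ∧ 0 < δ₀ ∧ ∀ δ : ℝ, 0 < δ → δ ≤ δ₀ → ∃ C : ℝ, 0 ≤ C ∧ ∀ᶠ T : ℝ in atTop,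
    ∀ N : ℕ, (N : ℝ) ≤ T ^ θ → ∀ b : ℕ → ℂ,
    IntervalIntegrable (fun t => ‖Lz t - LE ⌊T ^ δ⌋₊ t‖ ^ m * ‖dp N b t‖ ^ 2) volume (T / 2) (4 * T) ∧
    ∫ t in (T / 2)..(4 * T), ‖Lz t - LE ⌊T ^ δ⌋₊ t‖ ^ m * ‖dp N b t‖ ^ 2 ≤ C * T * N2 N b := by
  intro m
  have hKB : S_KB := Pool.Agent.Q177.UM.t_KB
  have hDP : S_DETP := b_DETP
  have hST : S_STM := b_STM
  have hSN : S_SNG := b_SNG
  have hPM : S_PMM := b_PMM
  have hMV : S_MVL := Pool.Agent.Q84.UM.t_MVL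
  obtain ⟨ψ₁, k₀, hK⟩ := b_KER
  obtain ⟨θ₀, c, C₀, hθ0, hθ1, hc, hC0, hT⟩ := b_TAIL
  obtain ⟨-, -, -, ⟨CL, hCL0, hCL⟩, -⟩ := hKB ψ₁ k₀ hK
  obtain ⟨CE, hCE0, hCE⟩ := eulc hKB hK
  have hm0 : (0 : ℝ) ≤ m := Nat.cast_nonneg m
  refine ⟨min (θ₀ / 2) (1 / 16), min (min (c / (16 * (m + 1))) (1 / (16 * (m + 1)))) (1 / 8),
    by positivity, by positivity, fun δ hδ hδ0 => ?_⟩
  have d1 : δ ≤ c / (16 * (m + 1)) := hδ0.trans ((min_le_left _ _).trans (min_le_left _ _))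
  have d2 : δ ≤ 1 / (16 * (m + 1)) := hδ0.trans ((min_le_left _ _).trans (min_le_right _ _))
  have d3 : δ ≤ 1 / 8 := hδ0.trans (min_le_right _ _)
  have d1' : 16 * δ * (m + 1) ≤ c := by
    rw [le_div_iff₀ (by positivity)] at d1
    linarith
  have d2' : ((m : ℝ) + 1) * δ ≤ 1 / 16 := by
    rw [le_div_iff₀ (by positivity)] at d2
    linarith
  set θ := min (θ₀ / 2) (1 / 16) with hθ
  have hθpos : 0 < θ := by positivity
  have hθle : θ ≤ θ₀ / 2 := min_le_left _ _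
  have hθle2 : θ ≤ 1 / 16 := min_le_right _ _
  obtain ⟨CD, hCD0, hCD⟩ := hDP ψ₁ k₀ hK δ hδ d3
  obtain ⟨CA, hCA0, hCA⟩ := dets hKB ψ₁ k₀ hK δ hδ d3
  obtain ⟨CS, hCS0, hCS⟩ := hST θ₀ c C₀ hθ0 hθ1 hc hC0 hT m δ hδ d1'
  have hSSB : SSB θ δ m CS := by
    filter_upwards [hCS, eventually_ge_atTop 1] with T h h1 N hN b
    exact h N (hN.trans (Real.rpow_le_rpow_of_exponent_le h1 hθle)) b
  obtain ⟨CP, hCP0, hCP⟩ := hPM m CL δ (δ / 2) hCL0 (by positivity) (by linarith) d2'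
  -- the singular sum
  obtain ⟨CG, hCG0, hCG⟩ : ∃ C' : ℝ, 0 ≤ C' ∧ ∀ᶠ T : ℝ in atTop, ∀ N : ℕ, (N : ℝ) ≤ T ^ θ →
      ∀ b : ℕ → ℂ, IntervalIntegrable (fun t => SL T t ^ m * ‖dp N b t‖ ^ 2) volume (T / 2) (4 * T) ∧
      ∫ t in (T / 2)..(4 * T), SL T t ^ m * ‖dp N b t‖ ^ 2 ≤ C' * T * N2 N b := by
    rcases Nat.eq_zero_or_pos m with h0 | h0
    · refine ⟨7, by norm_num, ?_⟩
      filter_upwards [big_T δ hδ] with T hB N hN b
      subst h0
      simp only [pow_zero, one_mul]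
      refine ⟨((dp_cont N b).norm.pow 2).intervalIntegrable _ _, ?_⟩
      refine mvl4 hMV hB.1 N ?_ b
      refine hN.trans (le_trans ?_ hB.2.2.2.1)
      exact Real.rpow_le_rpow_of_exponent_le (by linarith [hB.1]) hθle2
    · exact hSN θ δ m CS hθpos (by linarith) hδ h0 hCS0 hSSB
  set C1 := CD + CA + CE with hC1
  refine ⟨4 ^ m * ((C1 ^ m + 1) * 7 + (CD + CA) ^ m * CS + CG + CP), by positivity, ?_⟩
  filter_upwards [hCD, hCA, hSSB, hCP, hCG, big_T δ hδ] with T tD tA tS tP tG tB N hN b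
  obtain ⟨B1, B2, B3, B4, B5⟩ := tB
  have hT0 : 0 < T := by linarith
  have hN16 : (N : ℝ) ≤ T ^ (1 / 16 : ℝ) :=
    hN.trans (Real.rpow_le_rpow_of_exponent_le (by linarith) hθle2)
  set X := ⌊T ^ δ⌋₊ with hX
  set α := alp ψ₁ (δ * Real.log T) X with hα
  have hXle : (X : ℝ) ≤ T ^ δ := Nat.floor_le (by positivity)
  have hlogX : Real.log X ≤ δ * Real.log T := by
    have h1 := Real.log_le_log (by exact_mod_cast (by omega : 0 < X)) hXle
    rwa [Real.log_rpow hT0] at h1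
  have iP := tP N X hN16 B2 hXle b α (fun n hn => alp_ne hn)
    (fun n => alp_le hK.one hCL0 hCL B3 hlogX n)
  obtain ⟨gI, iG⟩ := tG N hN b
  have iS := tS N hN b
  have iM := mvl4 hMV B1 N (hN16.trans B4) b
  have hN2 := Pool.Agent.Q247.UM.N2_nonneg N b
  -- continuity
  have cB : Continuous (fun t => ‖dp N b t‖ ^ 2) := (dp_cont N b).norm.pow 2
  have cS : Continuous (fun t => SS δ T t ^ m * ‖dp N b t‖ ^ 2) :=
    ((SS_cont δ T (by linarith)).pow m).mul cB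
  have cP : Continuous (fun t => ‖dp X α t‖ ^ (2 * m) * ‖dp N b t‖ ^ 2) :=
    ((dp_cont X α).norm.pow (2 * m)).mul cB
  have nn : ∀ t, 0 ≤ ‖dp N b t‖ ^ 2 := fun t => by positivity
  have hle : T / 2 ≤ 4 * T := by linarith
  -- the bound
  have hpt : ∀ t, T / 2 ≤ t → t ≤ 4 * T → zt t ≠ 0 → (∀ ρ ∈ ZD T, t ≠ ρ.im) →
      ‖Lz t - LE X t‖ ^ m * ‖dp N b t‖ ^ 2 ≤
      4 ^ m * ((C1 ^ m + 1) * ‖dp N b t‖ ^ 2 + (CD + CA) ^ m * (SS δ T t ^ m * ‖dp N b t‖ ^ 2) +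
        SL T t ^ m * ‖dp N b t‖ ^ 2 + ‖dp X α t‖ ^ (2 * m) * ‖dp N b t‖ ^ 2) := by
    intro t ht1 ht2 hz hne
    obtain ⟨q1, q2⟩ := tD t (by linarith) (by linarith) hz
    have q3 := tA t (by linarith) (by linarith) hne
    have hS0 := SS_nonneg δ T t
    have hL0 := SL_nonneg T t
    have hd0 := norm_nonneg (dp X α t)
    have habs := cpoint (t := t) hT0 B5 hCE hL0 q1 q2 q3
    have h5 : ‖Lz t - LE X t‖ ^ m ≤
        4 ^ m * (C1 ^ m + ((CD + CA) * SS δ T t) ^ m + SL T t ^ m + ‖dp X α t‖ ^ m) :=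
      (pow_le_pow_left₀ (norm_nonneg _) habs m).trans
        (pow4 m (by positivity) (by positivity) hL0 hd0)
    have h6 := pow_two_m m hd0
    have h7 : ‖Lz t - LE X t‖ ^ m ≤
        4 ^ m * ((C1 ^ m + 1) + (CD + CA) ^ m * SS δ T t ^ m + SL T t ^ m + ‖dp X α t‖ ^ (2 * m)) := by
      refine h5.trans (mul_le_mul_of_nonneg_left ?_ (by positivity))
      rw [mul_pow]
      linarith
    calc ‖Lz t - LE X t‖ ^ m * ‖dp N b t‖ ^ 2
        ≤ (4 ^ m * ((C1 ^ m + 1) + (CD + CA) ^ m * SS δ T t ^ m + SL T t ^ m +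
            ‖dp X α t‖ ^ (2 * m))) * ‖dp N b t‖ ^ 2 := mul_le_mul_of_nonneg_right h7 (nn t)
      _ = _ := by ring
  have iiB : IntervalIntegrable (fun t => (C1 ^ m + 1) * ‖dp N b t‖ ^ 2) volume (T / 2) (4 * T) :=
    (cB.const_mul _).intervalIntegrable _ _
  have iiS : IntervalIntegrable (fun t => (CD + CA) ^ m * (SS δ T t ^ m * ‖dp N b t‖ ^ 2)) volume
      (T / 2) (4 * T) := (cS.const_mul _).intervalIntegrable _ _
  have iiP : IntervalIntegrable (fun t => ‖dp X α t‖ ^ (2 * m) * ‖dp N b t‖ ^ 2) volume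
      (T / 2) (4 * T) := cP.intervalIntegrable _ _
  have iiA := (((iiB.add iiS).add gI).add iiP).const_mul (4 ^ m)
  have hmeas : Measurable (fun t => ‖Lz t - LE X t‖ ^ m * ‖dp N b t‖ ^ 2) :=
    (((Lz_meas.sub (LE_cont X).measurable).norm).pow_const m).mul cB.measurable
  have hae := ae_ord (by linarith : 16 ≤ T)
  have hI : IntervalIntegrable (fun t => ‖Lz t - LE X t‖ ^ m * ‖dp N b t‖ ^ 2) volume
      (T / 2) (4 * T) := by
    refine iiA.mono_fun' hmeas.aestronglyMeasurable ?_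
    rw [Set.uIoc_of_le hle]
    refine (ae_restrict_iff' measurableSet_Ioc).2 ?_
    filter_upwards [hae] with t ht hmem
    rw [Real.norm_of_nonneg (by positivity)]
    exact hpt t hmem.1.le hmem.2 (ht hmem.1.le hmem.2).1 (ht hmem.1.le hmem.2).2
  refine ⟨hI, ?_⟩
  have hmono := intervalIntegral.integral_mono_ae_restrict (μ := volume) hle hI iiA (by
    refine (ae_restrict_iff' measurableSet_Icc).2 ?_
    filter_upwards [hae] with t ht hmem
    exact hpt t hmem.1 hmem.2 (ht hmem.1 hmem.2).1 (ht hmem.1 hmem.2).2)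
  refine hmono.trans ?_
  have e1 : (∫ t in (T / 2)..(4 * T), 4 ^ m * ((C1 ^ m + 1) * ‖dp N b t‖ ^ 2 +
      (CD + CA) ^ m * (SS δ T t ^ m * ‖dp N b t‖ ^ 2) + SL T t ^ m * ‖dp N b t‖ ^ 2 +
      ‖dp X α t‖ ^ (2 * m) * ‖dp N b t‖ ^ 2)) =
      4 ^ m * ((C1 ^ m + 1) * (∫ t in (T / 2)..(4 * T), ‖dp N b t‖ ^ 2) +
        (CD + CA) ^ m * (∫ t in (T / 2)..(4 * T), SS δ T t ^ m * ‖dp N b t‖ ^ 2) +
        (∫ t in (T / 2)..(4 * T), SL T t ^ m * ‖dp N b t‖ ^ 2) +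
        ∫ t in (T / 2)..(4 * T), ‖dp X α t‖ ^ (2 * m) * ‖dp N b t‖ ^ 2) := by
    rw [intervalIntegral.integral_const_mul, intervalIntegral.integral_add ((iiB.add iiS).add gI) iiP,
      intervalIntegral.integral_add (iiB.add iiS) gI, intervalIntegral.integral_add iiB iiS,
      intervalIntegral.integral_const_mul, intervalIntegral.integral_const_mul]
  rw [e1]
  have hS2 : ∫ t in (T / 2)..(4 * T), SS δ T t ^ m * ‖dp N b t‖ ^ 2 ≤ CS * T * N2 N b := by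
    refine le_trans ?_ iS
    refine intervalIntegral.integral_mono_interval (by linarith) hle (by linarith) ?_
      (cS.intervalIntegrable _ _)
    exact Eventually.of_forall fun t => mul_nonneg (pow_nonneg (SS_nonneg δ T t) m) (nn t)
  have h4m : (0 : ℝ) < 4 ^ m := by positivity
  calc 4 ^ m * ((C1 ^ m + 1) * (∫ t in (T / 2)..(4 * T), ‖dp N b t‖ ^ 2) +
        (CD + CA) ^ m * (∫ t in (T / 2)..(4 * T), SS δ T t ^ m * ‖dp N b t‖ ^ 2) +
        (∫ t in (T / 2)..(4 * T), SL T t ^ m * ‖dp N b t‖ ^ 2) +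
        ∫ t in (T / 2)..(4 * T), ‖dp X α t‖ ^ (2 * m) * ‖dp N b t‖ ^ 2)
      ≤ 4 ^ m * ((C1 ^ m + 1) * (7 * T * N2 N b) + (CD + CA) ^ m * (CS * T * N2 N b) +
        CG * T * N2 N b + CP * T * N2 N b) := by
        gcongr
    _ = 4 ^ m * ((C1 ^ m + 1) * 7 + (CD + CA) ^ m * CS + CG + CP) * T * N2 N b := by ring

end

end Pool.Agent.U761.SZ
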