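import Pool.Agent.U761.SZ.LD
import Pool.Agent.U196.UM.Mass3

set_option autoImplicit false

/-!
U761.SZ: all moments of the complex logarithm of zeta relative to every Dirichlet polynomial (adapted from U196/UM/Mass3.lean).
-/

namespace Pool.Agent.U761.SZ

open Filter Topology MeasureTheory Complex
open Pool.Agent.Q97.UM Pool.Agent.Q247.UM Pool.Agent.Q241.UM
open Pool.Agent.Q98.UM (dp_prc)
open Pool.Agent.Q149.UM (zp norm_zp_le norm_zp_cube sum_le_Z3 Z3 Z3_nonneg)
open Pool.Agent.U196.UM (big mert four_pow N2_le tr tr_supp dp_tr N2_tr)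

noncomputable section

/-- the logarithm of the Euler product and the prime sum differ by at most `log log T + C` -/
theorem le_prc : ∃ C : ℝ, 0 ≤ C ∧ ∀ δ : ℝ, 0 < δ → δ ≤ 1 → ∀ᶠ T : ℝ in atTop, ∀ t : ℝ,
    ‖LE ⌊T ^ δ⌋₊ t - dp ⌊T ^ δ⌋₊ (prc ⌊T ^ δ⌋₊) t‖ ≤ Real.log (Real.log T) + C := by
  obtain ⟨C₃, hC₃, h⟩ := mert
  refine ⟨4 / 3 * Z3 + C₃, by have := Z3_nonneg; positivity, fun δ hδ hδ1 => ?_⟩
  filter_upwards [(tendsto_rpow_atTop hδ).eventually_ge_atTop 4, eventually_ge_atTop 16,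
    (Real.tendsto_log_atTop.comp Real.tendsto_log_atTop).eventually_ge_atTop 0] with T h1 h2 h0 t
  simp only [Function.comp] at h0
  have hX3 : 3 ≤ ⌊T ^ δ⌋₊ := Nat.le_floor (by norm_num; linarith)
  set X := ⌊T ^ δ⌋₊ with hXd
  have hX : (X : ℝ) ≤ T := (Nat.floor_le (by positivity)).trans (by
    calc T ^ δ ≤ T ^ (1 : ℝ) := Real.rpow_le_rpow_of_exponent_le (by linarith) hδ1
      _ = T := Real.rpow_one T)
  have hX3' : (3:ℝ) ≤ X := by exact_mod_cast hX3
  have h4 : Real.log (Real.log X) ≤ Real.log (Real.log T) := by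
    have hl : 0 < Real.log (X : ℝ) := Real.log_pos (by linarith)
    exact Real.log_le_log hl (Real.log_le_log (by linarith) hX)
  set Q : Finset ℕ := (Finset.Icc 1 X).filter Nat.Prime with hQ
  have e1 : LE X t = ∑ p ∈ Q, (-Complex.log (1 - zp p t)) := by
    unfold LE zp
    rw [Finset.sum_neg_distrib]
  have e2 : dp X (prc X) t = ∑ p ∈ Q, zp p t := by
    rw [dp_prc]
    rfl
  rw [e1, e2, ← Finset.sum_sub_distrib]
  refine (norm_sum_le _ _).trans ?_
  have h5 : ∀ p ∈ Q, ‖-Complex.log (1 - zp p t) - zp p t‖ ≤ 1 / (p : ℝ) + 4 / 3 * ‖zp p t‖ ^ 3 := by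
    intro p hp
    have hp' := (Finset.mem_filter.1 hp).2
    have h5 := loc_factor_c (zp p t) (norm_zp_le p t hp'.two_le)
    have h6 : ‖zp p t‖ ^ 2 = 1 / (p : ℝ) := by
      unfold zp
      have hp0 : (0 : ℝ) < p := by exact_mod_cast hp'.pos
      rw [Complex.norm_natCast_cpow_of_pos hp'.pos, ← Real.rpow_natCast, ← Real.rpow_mul hp0.le]
      have : (-(1 / 2 + (t : ℂ) * I)).re * ((2 : ℕ) : ℝ) = -1 := by simp
      rw [this, Real.rpow_neg_one, one_div]
    have h7 : -Complex.log (1 - zp p t) - zp p t = (-Complex.log (1 - zp p t) - zp p t - zp p t ^ 2 / 2) + zp p t ^ 2 / 2 := by ring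
    rw [h7]
    refine (norm_add_le _ _).trans ?_
    have h8 : ‖zp p t ^ 2 / 2‖ ≤ 1 / (p : ℝ) := by
      rw [norm_div, norm_pow, h6]
      simp only [Complex.norm_ofNat]
      have : (0 : ℝ) ≤ 1 / p := by positivity
      linarith
    linarith
  refine (Finset.sum_le_sum h5).trans ?_
  rw [Finset.sum_add_distrib, ← Finset.mul_sum]
  have h6 : ∑ p ∈ Q, ‖zp p t‖ ^ 3 ≤ Z3 := by
    have := sum_le_Z3 Q
    refine le_trans (le_of_eq ?_) this
    refine Finset.sum_congr rfl fun p hp => ?_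
    have hp' := (Finset.mem_filter.1 hp).2
    exact norm_zp_cube p t hp'.pos
  have h7 := (abs_le.1 (h X hX3)).2
  rw [← hQ] at h7
  linarith

/-- all even moments of the complex `log ζ` relative to every Dirichlet polynomial -/
theorem upperL (m : ℕ) : ∃ θ C : ℝ, 0 < θ ∧ 0 < C ∧ ∀ᶠ T : ℝ in atTop, ∀ N : ℕ, (N : ℝ) ≤ T ^ θ → ∀ b : ℕ → ℂ,
    IntervalIntegrable (fun t => ‖Lz t‖ ^ (2 * (m + 1)) * ‖dp N b t‖ ^ 2) volume T (2 * T) ∧
    ∫ t in T..(2 * T), ‖Lz t‖ ^ (2 * (m + 1)) * ‖dp N b t‖ ^ 2 ≤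
      C * (Real.log T / Real.log (Real.log T)) ^ (m + 1) * ∫ t in T..(2 * T), ‖dp N b t‖ ^ 2 := by
  obtain ⟨θ₁, δ₀, hθ₁, hδ₀, hTHP⟩ := THS (2 * (m + 1))
  have hm : (0:ℝ) ≤ m := Nat.cast_nonneg m
  set δ : ℝ := min δ₀ (1 / (16 * (m + 1))) with hδd
  have hδ : 0 < δ := by positivity
  have hδ1 : (m + 1) * δ ≤ 1 / 16 := by
    have : δ ≤ 1 / (16 * (m + 1)) := min_le_right _ _
    calc (m + 1) * δ ≤ (m + 1) * (1 / (16 * (m + 1))) := mul_le_mul_of_nonneg_left this (by positivity)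
      _ = 1 / 16 := by field_simp
  have hδ2 : δ ≤ 1 := by nlinarith
  obtain ⟨C₁, hC₁, hT1⟩ := hTHP δ hδ (min_le_left _ _)
  obtain ⟨C₂, hC₂, hT2⟩ := big m hδ hδ1
  obtain ⟨C₃, hC₃, hEP⟩ := le_prc
  refine ⟨min θ₁ (1 / 16), 4 ^ (2 * m + 1) * (2 * C₁ + 2 * C₂ + 2), by positivity, by positivity, ?_⟩
  filter_upwards [hT1, hT2, hEP δ hδ hδ2, Pool.Agent.U196.UM.growth2 C₃, eventually_ge_atTop 16] with T h1 h2 h3 h4 hT16 N hNT b
  obtain ⟨F, G, hFc, hGc, hFG, hG, hF⟩ := h2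
  obtain ⟨hr1, hr2, hr3⟩ := h4
  set R := Real.sqrt (Real.log T / Real.log (Real.log T)) with hR
  set q := Real.log T / Real.log (Real.log T) with hq
  have hR2 : R ^ 2 = q := Real.sq_sqrt (by linarith)
  have hR0 : 0 ≤ R := Real.sqrt_nonneg _
  have hT0 : 0 < T := by linarith
  have hTT : T ≤ 2 * T := by linarith
  set X := ⌊T ^ δ⌋₊ with hX
  have hN1 : (N : ℝ) ≤ T ^ θ₁ := hNT.trans (Real.rpow_le_rpow_of_exponent_le (by linarith) (min_le_left _ _))
  have hN16 : (N : ℝ) ≤ T ^ (1 / 16 : ℝ) := hNT.trans (Real.rpow_le_rpow_of_exponent_le (by linarith) (min_le_right _ _))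
  have hN4 : (N : ℝ) ≤ T ^ (1 / 4 : ℝ) := hN16.trans (Real.rpow_le_rpow_of_exponent_le (by linarith) (by norm_num))
  obtain ⟨hI, hI2⟩ := h1 N hN1 b
  have hBc : Continuous (dp N b) := (Pool.Agent.Q84.UM.t_DPM.2.2 _ _ 0).2
  set B2 : ℝ → ℝ := fun t => ‖dp N b t‖ ^ 2 with hB2
  have hB2c : Continuous B2 := by rw [hB2]; fun_prop
  set e : ℕ := 2 * m + 1 with he
  have hee : 2 * (m + 1) = e + 1 := by rw [he]; ring
  -- the majorant
  set g1 : ℝ → ℝ := fun t => ‖Lz t - LE X t‖ ^ (2 * (m + 1)) * B2 t with hg1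
  set g2 : ℝ → ℝ := fun t => ‖F t‖ ^ (2 * (m + 1)) * B2 t with hg2
  have hg1i : IntervalIntegrable g1 volume T (2 * T) := by
    refine hI.mono_set ?_
    rw [Set.uIcc_of_le hTT, Set.uIcc_of_le (by linarith)]
    exact Set.Icc_subset_Icc (by linarith) (by linarith)
  have hg2c : Continuous g2 := by rw [hg2]; fun_prop
  have hpt : ∀ t, ‖Lz t‖ ^ (2 * (m + 1)) * B2 t ≤
      4 ^ e * (g1 t + R ^ (2 * (m + 1)) * B2 t + g2 t + R ^ (2 * (m + 1)) * B2 t) := by
    intro t
    have ha : ‖Lz t‖ ≤ ‖Lz t - LE X t‖ + R + ‖F t‖ + R := by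
      have b1 := (h3 t).trans hr1
      have b2 : ‖dp X (prc X) t‖ ≤ ‖F t‖ + R := by
        rw [hFG t]
        refine (norm_add_le _ _).trans ?_
        have := (hG t).trans hr2
        linarith
      have b3 : Lz t = (Lz t - LE X t) + (LE X t - dp X (prc X) t) + dp X (prc X) t := by ring
      rw [b3]
      refine (norm_add_le _ _).trans ?_
      have b4 := norm_add_le (Lz t - LE X t) (LE X t - dp X (prc X) t)
      have b5 : ‖Lz t - LE X t + (LE X t - dp X (prc X) t) + dp X (prc X) t - LE X t‖ = ‖Lz t - LE X t‖ := by congr 1; ring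
      linarith
    have hb := pow_le_pow_left₀ (norm_nonneg _) ha (e + 1)
    have hc := four_pow (norm_nonneg (Lz t - LE X t)) hR0 (norm_nonneg (F t)) hR0 e
    rw [hee]
    calc ‖Lz t‖ ^ (e + 1) * B2 t ≤ (4 ^ e * (‖Lz t - LE X t‖ ^ (e + 1) + R ^ (e + 1) +
          ‖F t‖ ^ (e + 1) + R ^ (e + 1))) * B2 t := mul_le_mul_of_nonneg_right (hb.trans hc) (by positivity)
      _ = _ := by rw [hg1, hg2]; simp only [hee]; ring
  have hmaj : IntervalIntegrable (fun t => 4 ^ e * (g1 t + R ^ (2 * (m + 1)) * B2 t + g2 t + R ^ (2 * (m + 1)) * B2 t))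
      volume T (2 * T) := by
    refine IntervalIntegrable.const_mul ?_ _
    refine ((hg1i.add ?_).add (hg2c.intervalIntegrable _ _)).add ?_
    · exact (continuous_const.mul hB2c).intervalIntegrable _ _
    · exact (continuous_const.mul hB2c).intervalIntegrable _ _
  have hmeas : Measurable fun t => ‖Lz t‖ ^ (2 * (m + 1)) * B2 t := by
    exact (Lz_meas.norm.pow_const _).mul hB2c.measurable
  have hint : IntervalIntegrable (fun t => ‖Lz t‖ ^ (2 * (m + 1)) * B2 t) volume T (2 * T) := by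
    refine hmaj.mono_fun hmeas.aestronglyMeasurable (Filter.Eventually.of_forall fun t => ?_)
    have h0 : 0 ≤ ‖Lz t‖ ^ (2 * (m + 1)) * B2 t := by rw [hB2]; positivity
    beta_reduce
    rw [Real.norm_of_nonneg h0, Real.norm_of_nonneg (h0.trans (hpt t))]
    exact hpt t
  refine ⟨hint, ?_⟩
  set S : ℝ := ∫ t in T..(2 * T), B2 t with hS
  have hS0 : 0 ≤ S := intervalIntegral.integral_nonneg hTT fun t _ => by rw [hB2]; positivity
  have hTN : T * N2 N b ≤ 2 * S := N2_le hT16 hN4 b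
  have hq1 : 1 ≤ q ^ (m + 1) := one_le_pow₀ hr3
  have i1 : ∫ t in T..(2 * T), g1 t ≤ 2 * C₁ * q ^ (m + 1) * S := by
    have j1 : ∫ t in T..(2 * T), g1 t ≤ ∫ t in (T / 2)..(4 * T), g1 t := by
      refine intervalIntegral.integral_mono_interval (by linarith) hTT (by linarith) ?_ hI
      exact Filter.Eventually.of_forall fun t => by rw [hg1, hB2]; simp only [Pi.zero_apply]; positivity
    have j2 : C₁ * T * N2 N b ≤ C₁ * (2 * S) := by
      rw [mul_assoc]; exact mul_le_mul_of_nonneg_left hTN hC₁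
    have j3 : C₁ * (2 * S) ≤ 2 * C₁ * q ^ (m + 1) * S := by
      have : 0 ≤ 2 * C₁ * S := by positivity
      nlinarith
    exact j1.trans (hI2.trans (j2.trans j3))
  have i2 : ∫ t in T..(2 * T), g2 t ≤ 2 * C₂ * q ^ (m + 1) * S := by
    rcases Nat.eq_zero_or_pos N with hN0 | hN0
    · have : ∀ t, g2 t = 0 := by
        intro t
        rw [hg2, hB2]; simp only; rw [hN0]; unfold dp; simp
      simp only [this, intervalIntegral.integral_zero]
      positivity
    · have j1 := hF N hN0 hN16 (tr N b) (tr_supp N b)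
      rw [N2_tr] at j1
      have j2 : ∫ t in T..(2 * T), g2 t = ∫ t in T..(2 * T), ‖F t‖ ^ (2 * (m + 1)) * ‖dp N (tr N b) t‖ ^ 2 := by
        congr 1; funext t; rw [dp_tr]
      rw [j2]
      refine j1.trans ?_
      have : C₂ * T * q ^ (m + 1) * N2 N b = C₂ * q ^ (m + 1) * (T * N2 N b) := by ring
      rw [this]
      calc C₂ * q ^ (m + 1) * (T * N2 N b) ≤ C₂ * q ^ (m + 1) * (2 * S) :=
            mul_le_mul_of_nonneg_left hTN (by positivity)
        _ = _ := by ring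
  have hRq : R ^ (2 * (m + 1)) = q ^ (m + 1) := by rw [pow_mul, hR2]
  calc ∫ t in T..(2 * T), ‖Lz t‖ ^ (2 * (m + 1)) * B2 t
      ≤ ∫ t in T..(2 * T), 4 ^ e * (g1 t + R ^ (2 * (m + 1)) * B2 t + g2 t + R ^ (2 * (m + 1)) * B2 t) :=
        intervalIntegral.integral_mono_on hTT hint hmaj fun t _ => hpt t
    _ = 4 ^ e * ((∫ t in T..(2 * T), g1 t) + R ^ (2 * (m + 1)) * S + (∫ t in T..(2 * T), g2 t) + R ^ (2 * (m + 1)) * S) := by
        rw [intervalIntegral.integral_const_mul, intervalIntegral.integral_add, intervalIntegral.integral_add,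
          intervalIntegral.integral_add, intervalIntegral.integral_const_mul]
        · exact hg1i
        · exact (continuous_const.mul hB2c).intervalIntegrable _ _
        · exact hg1i.add ((continuous_const.mul hB2c).intervalIntegrable _ _)
        · exact hg2c.intervalIntegrable _ _
        · exact (hg1i.add ((continuous_const.mul hB2c).intervalIntegrable _ _)).add (hg2c.intervalIntegrable _ _)
        · exact (continuous_const.mul hB2c).intervalIntegrable _ _
    _ ≤ 4 ^ e * (2 * C₁ * q ^ (m + 1) * S + q ^ (m + 1) * S + 2 * C₂ * q ^ (m + 1) * S + q ^ (m + 1) * S) := by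
        rw [hRq]
        refine mul_le_mul_of_nonneg_left ?_ (by positivity)
        linarith
    _ = _ := by ring

end

end Pool.Agent.U761.SZ
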