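import Pool.Agent.U761.SZ.RG

set_option autoImplicit false

/-!
U761.SZ: primes for the differences `log ζ(1/2 + i(t+h)) - log ζ(1/2 + it)`.
-/

namespace Pool.Agent.U761.SZ

open Finset

noncomputable section

/-- the coefficients of the difference -/
def vh (h : ℝ) (n : ℕ) : ℂ := ph' h n - 1

theorem vh_sq (h : ℝ) {p : ℕ} (hp : 1 ≤ p) : ‖vh h p‖ ^ 2 = 4 * Real.sin (h * Real.log p / 2) ^ 2 := by
  have hp0 : (p : ℂ) ≠ 0 := by exact_mod_cast (by omega : p ≠ 0)
  have e : ph' h p = Complex.exp (Complex.I * ((-(h * Real.log p) : ℝ) : ℂ)) := by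
    unfold ph'
    rw [Complex.cpow_def_of_ne_zero hp0, ← Complex.natCast_log]
    congr 1
    push_cast
    ring
  unfold vh
  rw [e, Complex.norm_exp_I_mul_ofReal_sub_one, norm_mul, mul_pow]
  have h1 : -(h * Real.log p) / 2 = -(h * Real.log p / 2) := by ring
  rw [h1, Real.sin_neg, norm_neg]
  simp only [Real.norm_eq_abs, sq_abs]
  norm_num

theorem vh_le2 (h : ℝ) {p : ℕ} (hp : 1 ≤ p) : ‖vh h p‖ ≤ 2 := by
  unfold vh
  refine (norm_sub_le _ _).trans ?_
  rw [norm_one]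
  linarith [ph'_le h p]

theorem vh_le_log {h : ℝ} (hh : 0 ≤ h) {p : ℕ} (hp : 1 ≤ p) : ‖vh h p‖ ≤ h * Real.log p := by
  have h1 := vh_sq h hp
  have hl : 0 ≤ Real.log (p : ℝ) := Real.log_natCast_nonneg p
  have h2 : Real.sin (h * Real.log p / 2) ^ 2 ≤ (h * Real.log p / 2) ^ 2 := by
    rw [← sq_abs (Real.sin _), ← sq_abs (h * Real.log p / 2)]
    exact pow_le_pow_left₀ (abs_nonneg _) Real.abs_sin_le_abs 2
  have h3 : ‖vh h p‖ ^ 2 ≤ (h * Real.log p) ^ 2 := by
    rw [h1]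
    calc 4 * Real.sin (h * Real.log p / 2) ^ 2 ≤ 4 * (h * Real.log p / 2) ^ 2 := by linarith
      _ = _ := by ring
  exact le_of_sq_le_sq h3 (by positivity)

/-- the sum of `min(1, h log p) / p` -/
theorem sum_min : ∃ C : ℝ, 0 < C ∧ ∀ h : ℝ, 0 < h → h ≤ 1 → ∀ X : ℕ, 3 ≤ X →
    ∑ p ∈ (Icc 1 X).filter Nat.Prime, min 1 (h * Real.log p) / (p : ℝ) ≤ C + Real.log (2 + h * Real.log X) := by
  obtain ⟨C₁, hC₁⟩ := Pool.Agent.Erdos456.Mert.mertens_log
  obtain ⟨C₂, hC₂⟩ := Pool.Agent.Erdos456.Mert.mertens_inv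
  have hC10 : 0 ≤ C₁ := (abs_nonneg _).trans (hC₁ 1 le_rfl)
  have hC20 : 0 ≤ C₂ := (abs_nonneg _).trans (hC₂ 3 le_rfl)
  refine ⟨2 + C₁ + 2 * C₂, by positivity, fun h hh hh1 X hX => ?_⟩
  have hX3 : (3 : ℝ) ≤ X := by exact_mod_cast hX
  have hlX : 0 < Real.log X := Real.log_pos (by linarith)
  have hlog2 : 0 ≤ Real.log (2 + h * Real.log X) := Real.log_nonneg (by
    have : 0 ≤ h * Real.log X := by positivity
    linarith)
  have small : ∀ Z : ℕ, 1 ≤ Z → ∑ p ∈ (Icc 1 Z).filter Nat.Prime, min 1 (h * Real.log p) / (p : ℝ) ≤ h * Real.log Z + C₁ := by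
    intro Z hZ
    have h1 : ∑ p ∈ (Icc 1 Z).filter Nat.Prime, min 1 (h * Real.log p) / (p : ℝ) ≤
        ∑ p ∈ (Icc 1 Z).filter Nat.Prime, h * (Real.log p / p) := by
      refine Finset.sum_le_sum fun p _ => ?_
      rw [← mul_div_assoc]
      exact div_le_div_of_nonneg_right (min_le_right _ _) (Nat.cast_nonneg _)
    rw [← mul_sum] at h1
    have h2 := (abs_le.1 (hC₁ Z hZ)).2
    have h3 : h * ∑ p ∈ (Icc 1 Z).filter Nat.Prime, Real.log p / (p : ℝ) ≤ h * (Real.log Z + C₁) :=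
      mul_le_mul_of_nonneg_left (by linarith) hh.le
    have h4 : h * C₁ ≤ C₁ := by nlinarith
    linarith
  rcases le_or_gt (h * Real.log X) 1 with hc | hc
  · have := small X (by omega)
    linarith
  · -- cut at `Y`
    set Y := ⌊Real.exp (1 / h)⌋₊ with hY
    have h1h : 1 ≤ 1 / h := by rw [le_div_iff₀ hh]; linarith
    have hexp : Real.exp 1 ≤ Real.exp (1 / h) := Real.exp_le_exp.2 h1h
    have he := Real.exp_one_gt_d9
    have hYle : (Y : ℝ) ≤ Real.exp (1 / h) := Nat.floor_le (Real.exp_pos _).le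
    have hYge : Real.exp (1 / h) < Y + 1 := Nat.lt_floor_add_one _
    have hY2 : 2 ≤ Y := by
      rw [hY]
      exact Nat.le_floor (by push_cast; linarith)
    have hYX : Y ≤ X := by
      have h2 : Real.exp (1 / h) < X := by
        rw [← Real.exp_log (by linarith : (0 : ℝ) < X)]
        refine Real.exp_lt_exp.2 ?_
        rw [div_lt_iff₀ hh]
        linarith
      have : (Y : ℝ) < X := hYle.trans_lt h2
      exact_mod_cast this.le
    have hlY : Real.log Y ≤ 1 / h := by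
      have := Real.log_le_log (by exact_mod_cast (by omega : 0 < Y)) hYle
      rwa [Real.log_exp] at this
    have hlY2 : 1 / (2 * h) ≤ Real.log Y := by
      have h2 : Real.exp (1 / h) ≤ (Y : ℝ) ^ 2 := by
        have : (2 : ℝ) ≤ Y := by exact_mod_cast hY2
        nlinarith
      have h3 := Real.log_le_log (Real.exp_pos _) h2
      rw [Real.log_exp, Real.log_pow] at h3
      push_cast at h3
      have : 1 / (2 * h) = (1 / h) / 2 := by field_simp
      rw [this]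
      linarith
    have hlY0 : 0 < Real.log Y := lt_of_lt_of_le (by positivity) hlY2
    have hsplit : ∑ p ∈ (Icc 1 X).filter Nat.Prime, min 1 (h * Real.log p) / (p : ℝ) ≤
        ∑ p ∈ (Icc 1 Y).filter Nat.Prime, min 1 (h * Real.log p) / (p : ℝ) +
        (∑ p ∈ (Icc 1 X).filter Nat.Prime, (1 : ℝ) / p - ∑ p ∈ (Icc 1 Y).filter Nat.Prime, (1 : ℝ) / p) := by
      have hsub : (Icc 1 Y).filter Nat.Prime ⊆ (Icc 1 X).filter Nat.Prime :=
        Finset.filter_subset_filter _ (Finset.Icc_subset_Icc_right hYX)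
      rw [← Finset.sum_sdiff hsub, ← Finset.sum_sdiff (f := fun p : ℕ => (1 : ℝ) / p) hsub]
      have h2 : ∑ p ∈ (Icc 1 X).filter Nat.Prime \ (Icc 1 Y).filter Nat.Prime, min 1 (h * Real.log p) / (p : ℝ) ≤
          ∑ p ∈ (Icc 1 X).filter Nat.Prime \ (Icc 1 Y).filter Nat.Prime, (1 : ℝ) / p := by
        refine Finset.sum_le_sum fun p _ => ?_
        exact div_le_div_of_nonneg_right (min_le_left _ _) (Nat.cast_nonneg _)
      linarith
    have hs := small Y (by omega)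
    have hhY : h * Real.log Y ≤ 1 := by
      have := mul_le_mul_of_nonneg_left hlY hh.le
      rwa [mul_one_div_cancel hh.ne'] at this
    have hX' := (abs_le.1 (hC₂ X hX)).2
    -- the lower bound at `Y`
    have hY' : Real.log (Real.log Y) - C₂ ≤ ∑ p ∈ (Icc 1 Y).filter Nat.Prime, (1 : ℝ) / p := by
      rcases Nat.lt_or_ge Y 3 with h3 | h3
      · have hY2' : Y = 2 := by omega
        have h4 : Real.log (Real.log (Y : ℝ)) ≤ 0 := by
          rw [hY2']
          refine Real.log_nonpos (Real.log_nonneg (by norm_num)) ?_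
          have := Real.log_two_lt_d9
          push_cast
          linarith
        have h5 : (0 : ℝ) ≤ ∑ p ∈ (Icc 1 Y).filter Nat.Prime, (1 : ℝ) / p := Finset.sum_nonneg fun p _ => by positivity
        linarith
      · have := (abs_le.1 (hC₂ Y h3)).1
        linarith
    have hll : Real.log (Real.log X) - Real.log (Real.log Y) ≤ Real.log (2 + h * Real.log X) + 1 := by
      rw [← Real.log_div hlX.ne' hlY0.ne']
      have h2 : Real.log X / Real.log Y ≤ 2 * (2 + h * Real.log X) := by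
        rw [div_le_iff₀ hlY0]
        have h3 : Real.log X = (2 * (h * Real.log X)) * (1 / (2 * h)) := by field_simp
        have h4 : (2 * (h * Real.log X)) * (1 / (2 * h)) ≤ (2 * (h * Real.log X)) * Real.log Y :=
          mul_le_mul_of_nonneg_left hlY2 (by positivity)
        have h5 : (2 * (h * Real.log X)) * Real.log Y ≤ 2 * (2 + h * Real.log X) * Real.log Y :=
          mul_le_mul_of_nonneg_right (by linarith) hlY0.le
        linarith
      have h3 : 0 < 2 + h * Real.log X := by positivity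
      refine (Real.log_le_log (by positivity) h2).trans ?_
      rw [Real.log_mul two_ne_zero h3.ne']
      have := Real.log_two_lt_d9
      linarith
    linarith

/-- the sum of `|v|² / p` -/
theorem sum_vh : ∃ C : ℝ, 0 < C ∧ ∀ h : ℝ, 0 < h → h ≤ 1 → ∀ X : ℕ, 3 ≤ X →
    ∑ p ∈ (Icc 1 X).filter Nat.Prime, ‖vh h p‖ ^ 2 / (p : ℝ) ≤ C * Real.log (2 + h * Real.log X) := by
  obtain ⟨C, hC, hs⟩ := sum_min
  have hl2 := Real.log_pos one_lt_two
  refine ⟨4 * (C / Real.log 2 + 1), by positivity, fun h hh hh1 X hX => ?_⟩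
  have h1 := hs h hh hh1 X hX
  have h2 : ∑ p ∈ (Icc 1 X).filter Nat.Prime, ‖vh h p‖ ^ 2 / (p : ℝ) ≤
      ∑ p ∈ (Icc 1 X).filter Nat.Prime, 4 * (min 1 (h * Real.log p) / (p : ℝ)) := by
    refine Finset.sum_le_sum fun p hp => ?_
    have hp1 : 1 ≤ p := (mem_Icc.1 (mem_filter.1 hp).1).1
    rw [← mul_div_assoc]
    refine div_le_div_of_nonneg_right ?_ (Nat.cast_nonneg _)
    have a1 := vh_le2 h hp1
    have a2 := vh_le_log hh.le hp1
    have a0 := norm_nonneg (vh h p)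
    rcases le_total 1 (h * Real.log p) with h3 | h3
    · rw [min_eq_left h3]
      nlinarith
    · rw [min_eq_right h3]
      have hlp : 0 ≤ h * Real.log p := mul_nonneg hh.le (Real.log_natCast_nonneg p)
      nlinarith
  rw [← mul_sum] at h2
  have hlX : 0 ≤ h * Real.log X := mul_nonneg hh.le (Real.log_natCast_nonneg X)
  have h3 : Real.log 2 ≤ Real.log (2 + h * Real.log X) := Real.log_le_log (by norm_num) (by linarith)
  have h4 : C ≤ C / Real.log 2 * Real.log (2 + h * Real.log X) := by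
    calc C = C / Real.log 2 * Real.log 2 := by field_simp
      _ ≤ _ := mul_le_mul_of_nonneg_left h3 (by positivity)
  calc _ ≤ _ := h2
    _ ≤ 4 * (C + Real.log (2 + h * Real.log X)) := by linarith
    _ ≤ _ := by
      have : 4 * (C / Real.log 2 + 1) * Real.log (2 + h * Real.log X) =
        4 * (C / Real.log 2 * Real.log (2 + h * Real.log X) + Real.log (2 + h * Real.log X)) := by ring
      rw [this]
      linarith

/-- a block of primes -/
def Bk (h : ℝ) (k : ℕ) : Finset ℕ := (Icc 1 ⌊Real.exp ((2 * Real.pi * k + 2) / h)⌋₊).filter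
  (fun p => p.Prime ∧ ⌊Real.exp ((2 * Real.pi * k + 1) / h)⌋₊ < p)

theorem Bk_mem {h : ℝ} (hh : 0 < h) {k p : ℕ} (hp : p ∈ Bk h k) : p.Prime ∧ 2 * Real.pi * k + 1 < h * Real.log p ∧
    h * Real.log p ≤ 2 * Real.pi * k + 2 := by
  unfold Bk at hp
  rw [mem_filter, mem_Icc] at hp
  obtain ⟨⟨h1, h2⟩, h3, h4⟩ := hp
  have hp0 : (0 : ℝ) < p := by exact_mod_cast h3.pos
  have h5 : Real.exp ((2 * Real.pi * k + 1) / h) < p := (Nat.floor_lt (Real.exp_pos _).le).1 h4
  have h6 : (p : ℝ) ≤ Real.exp ((2 * Real.pi * k + 2) / h) := (Nat.le_floor_iff (Real.exp_pos _).le).1 h2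
  refine ⟨h3, ?_, ?_⟩
  · have := Real.log_lt_log (Real.exp_pos _) h5
    rw [Real.log_exp, div_lt_iff₀ hh] at this
    linarith
  · have := Real.log_le_log hp0 h6
    rw [Real.log_exp, le_div_iff₀ hh] at this
    linarith

theorem Bk_v {h : ℝ} (hh : 0 < h) {k p : ℕ} (hp : p ∈ Bk h k) : 1 / 2 ≤ ‖vh h p‖ ^ 2 := by
  obtain ⟨h1, h2, h3⟩ := Bk_mem hh hp
  rw [vh_sq h h1.one_lt.le]
  have e : h * Real.log p / 2 = (h * Real.log p / 2 - k * Real.pi) + k * Real.pi := by ring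
  rw [e, Real.sin_add_nat_mul_pi, mul_pow]
  have h4 : ((-1 : ℝ) ^ k) ^ 2 = 1 := by rw [← pow_mul, mul_comm, pow_mul]; norm_num
  rw [h4, one_mul]
  set y := h * Real.log p / 2 - k * Real.pi with hy
  have hy1 : 1 / 2 ≤ y := by rw [hy]; linarith
  have hy2 : y ≤ 1 := by rw [hy]; linarith
  have h5 : 3 / 8 ≤ Real.sin y := by
    have h6 := Real.sin_gt_sub_cube (by linarith : 0 < y)
    have h7 : y ^ 3 ≤ y := by
      have : y ^ 2 ≤ 1 := by nlinarith
      calc y ^ 3 = y ^ 2 * y := by ring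
        _ ≤ 1 * y := mul_le_mul_of_nonneg_right this (by linarith)
        _ = y := one_mul y
    linarith
  nlinarith

/-- the reciprocals of the primes in one block -/
theorem Bk_sum : ∃ h₀ : ℝ, 0 < h₀ ∧ h₀ ≤ 1 ∧ ∀ h : ℝ, 0 < h → h ≤ h₀ → ∀ k : ℕ,
    1 / (2 * (2 * Real.pi * k + 2)) ≤ ∑ p ∈ Bk h k, (1 : ℝ) / p := by
  obtain ⟨C₁, hC₁⟩ := Pool.Agent.Erdos456.Mert.mertens_log
  have hC10 : 0 ≤ C₁ := (abs_nonneg _).trans (hC₁ 1 le_rfl)
  have hl2 := Real.log_pos one_lt_two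
  refine ⟨min 1 (1 / (2 * (Real.log 2 + 2 * C₁))), by positivity, min_le_left _ _, fun h hh hh0 k => ?_⟩
  have hh1 : h ≤ 1 := hh0.trans (min_le_left _ _)
  have hh2 : h * (Real.log 2 + 2 * C₁) ≤ 1 / 2 := by
    have := hh0.trans (min_le_right _ _)
    rw [le_div_iff₀ (by positivity)] at this
    linarith
  have hpi := Real.pi_pos
  have hk : (0 : ℝ) ≤ 2 * Real.pi * k := by positivity
  set a := (2 * Real.pi * k + 1) / h with ha
  set b := (2 * Real.pi * k + 2) / h with hb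
  have ha1 : 1 ≤ a := by rw [ha, le_div_iff₀ hh]; linarith
  have hba : b - a = 1 / h := by rw [ha, hb]; ring
  have hab : a ≤ b := by
    have : 0 < 1 / h := by positivity
    linarith
  have he := Real.exp_one_gt_d9
  have hea : Real.exp 1 ≤ Real.exp a := Real.exp_le_exp.2 ha1
  have heb : Real.exp a ≤ Real.exp b := Real.exp_le_exp.2 hab
  set y1 := ⌊Real.exp a⌋₊ with hy1
  set y2 := ⌊Real.exp b⌋₊ with hy2
  have hy1le : (y1 : ℝ) ≤ Real.exp a := Nat.floor_le (Real.exp_pos _).le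
  have hy2ge : Real.exp b < y2 + 1 := Nat.lt_floor_add_one _
  have hy11 : 1 ≤ y1 := Nat.le_floor (by push_cast; linarith)
  have hy21 : 1 ≤ y2 := Nat.le_floor (by push_cast; linarith)
  have hy12 : y1 ≤ y2 := Nat.floor_le_floor heb
  have h1 := (abs_le.1 (hC₁ y1 hy11)).2
  have h2 := (abs_le.1 (hC₁ y2 hy21)).1
  have hl1 : Real.log y1 ≤ a := by
    have := Real.log_le_log (by exact_mod_cast hy11) hy1le
    rwa [Real.log_exp] at this
  have hl2' : b - Real.log 2 ≤ Real.log y2 := by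
    have h3 : Real.exp b ≤ 2 * y2 := by
      have : (1 : ℝ) ≤ y2 := by exact_mod_cast hy21
      linarith
    have h4 := Real.log_le_log (Real.exp_pos _) h3
    rw [Real.log_exp, Real.log_mul two_ne_zero (by
      have : (1 : ℝ) ≤ y2 := by exact_mod_cast hy21
      linarith)] at h4
    linarith
  have hdiff : ∑ p ∈ Bk h k, Real.log p / (p : ℝ) = ∑ p ∈ (Icc 1 y2).filter Nat.Prime, Real.log p / (p : ℝ) -
      ∑ p ∈ (Icc 1 y1).filter Nat.Prime, Real.log p / (p : ℝ) := by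
    have h3 : (Icc 1 y2).filter Nat.Prime = Bk h k ∪ (Icc 1 y1).filter Nat.Prime := by
      ext p
      unfold Bk
      rw [← ha, ← hb, ← hy1, ← hy2]
      simp only [mem_filter, mem_union, mem_Icc]
      constructor
      · rintro ⟨⟨h3, h4⟩, h5⟩
        rcases lt_or_ge y1 p with h6 | h6
        · exact Or.inl ⟨⟨h3, h4⟩, h5, h6⟩
        · exact Or.inr ⟨⟨h3, h6⟩, h5⟩
      · rintro (⟨⟨h3, h4⟩, h5, h6⟩ | ⟨⟨h3, h4⟩, h5⟩)
        · exact ⟨⟨h3, h4⟩, h5⟩
        · exact ⟨⟨h3, h4.trans hy12⟩, h5⟩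
    have h4 : Disjoint (Bk h k) ((Icc 1 y1).filter Nat.Prime) := by
      rw [Finset.disjoint_left]
      intro p hp hp'
      unfold Bk at hp
      rw [← ha, ← hb, ← hy1, ← hy2] at hp
      simp only [mem_filter, mem_Icc] at hp hp'
      omega
    rw [h3, Finset.sum_union h4]
    ring
  have h3 : 1 / h - Real.log 2 - 2 * C₁ ≤ ∑ p ∈ Bk h k, Real.log p / (p : ℝ) := by
    rw [hdiff]
    linarith
  have hc : 0 < 2 * Real.pi * k + 2 := by linarith
  have h4 : (h / (2 * Real.pi * k + 2)) * ∑ p ∈ Bk h k, Real.log p / (p : ℝ) ≤ ∑ p ∈ Bk h k, (1 : ℝ) / p := by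
    rw [mul_sum]
    refine Finset.sum_le_sum fun p hp => ?_
    obtain ⟨q1, -, q3⟩ := Bk_mem hh hp
    have hp0 : (0 : ℝ) < p := by exact_mod_cast q1.pos
    rw [← mul_div_assoc]
    refine div_le_div_of_nonneg_right ?_ hp0.le
    rw [div_mul_eq_mul_div, div_le_one hc]
    exact q3
  refine le_trans ?_ h4
  have h5 : (h / (2 * Real.pi * k + 2)) * (1 / h - Real.log 2 - 2 * C₁) ≤ (h / (2 * Real.pi * k + 2)) * ∑ p ∈ Bk h k, Real.log p / (p : ℝ) :=
    mul_le_mul_of_nonneg_left h3 (by positivity)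
  refine le_trans ?_ h5
  have h6 : (h / (2 * Real.pi * k + 2)) * (1 / h - Real.log 2 - 2 * C₁) = (1 - h * (Real.log 2 + 2 * C₁)) / (2 * Real.pi * k + 2) := by
    field_simp
    ring
  rw [h6]
  have h7 : 1 / (2 * (2 * Real.pi * k + 2)) = (1 / 2) / (2 * Real.pi * k + 2) := by field_simp
  rw [h7]
  exact div_le_div_of_nonneg_right (by linarith) hc.le

/-- the union of the first `M` blocks -/
def PM (h : ℝ) (M : ℕ) : Finset ℕ := (Finset.range M).biUnion (Bk h)

theorem PM_mem {h : ℝ} (hh : 0 < h) {M p : ℕ} (hp : p ∈ PM h M) : p.Prime ∧ 1 < h * Real.log p ∧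
    h * Real.log p ≤ 2 * Real.pi * M ∧ 1 / 2 ≤ ‖vh h p‖ ^ 2 := by
  unfold PM at hp
  rw [mem_biUnion] at hp
  obtain ⟨k, hk, hp⟩ := hp
  rw [mem_range] at hk
  obtain ⟨h1, h2, h3⟩ := Bk_mem hh hp
  have hpi := Real.pi_gt_three
  have hk0 : (0 : ℝ) ≤ k := Nat.cast_nonneg k
  have hkM : (k : ℝ) + 1 ≤ M := by exact_mod_cast hk
  refine ⟨h1, ?_, ?_, Bk_v hh hp⟩
  · have : 0 ≤ 2 * Real.pi * k := by positivity
    linarith
  · have : 2 * Real.pi * (k + 1) ≤ 2 * Real.pi * M := mul_le_mul_of_nonneg_left hkM (by positivity)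
    linarith

/-- the sum over the union -/
theorem PM_sum : ∃ h₀ : ℝ, 0 < h₀ ∧ h₀ ≤ 1 ∧ ∀ h : ℝ, 0 < h → h ≤ h₀ → ∀ M : ℕ,
    Real.log (M + 1) / 32 ≤ ∑ p ∈ PM h M, ‖vh h p‖ ^ 2 / (p : ℝ) := by
  obtain ⟨h₀, hh₀, hh₀1, hB⟩ := Bk_sum
  refine ⟨h₀, hh₀, hh₀1, fun h hh hhh M => ?_⟩
  have hpi := Real.pi_lt_d2
  have hpi0 := Real.pi_pos
  have h1 : ∑ p ∈ PM h M, (1 : ℝ) / p = ∑ k ∈ Finset.range M, ∑ p ∈ Bk h k, (1 : ℝ) / p := by
    unfold PM
    refine Finset.sum_biUnion ?_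
    intro i _ j _ hij
    rw [Function.onFun, Finset.disjoint_left]
    intro p hp hp'
    obtain ⟨-, a1, a2⟩ := Bk_mem hh hp
    obtain ⟨-, b1, b2⟩ := Bk_mem hh hp'
    have hpi3 := Real.pi_gt_three
    rcases lt_or_gt_of_ne hij with h3 | h3
    · have : (i : ℝ) + 1 ≤ j := by exact_mod_cast h3
      have : 2 * Real.pi * (i + 1) ≤ 2 * Real.pi * j := mul_le_mul_of_nonneg_left this (by positivity)
      linarith
    · have : (j : ℝ) + 1 ≤ i := by exact_mod_cast h3
      have : 2 * Real.pi * (j + 1) ≤ 2 * Real.pi * i := mul_le_mul_of_nonneg_left this (by positivity)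
      linarith
  have h2 : (1 / 2 : ℝ) * ∑ p ∈ PM h M, (1 : ℝ) / p ≤ ∑ p ∈ PM h M, ‖vh h p‖ ^ 2 / (p : ℝ) := by
    rw [mul_sum]
    refine Finset.sum_le_sum fun p hp => ?_
    rw [mul_one_div]
    exact div_le_div_of_nonneg_right (PM_mem hh hp).2.2.2 (Nat.cast_nonneg _)
  refine le_trans ?_ h2
  rw [h1]
  have h3 : ∀ k ∈ Finset.range M, (1 : ℝ) / 16 * (((k : ℝ) + 1)⁻¹) ≤ ∑ p ∈ Bk h k, (1 : ℝ) / p := by
    intro k _
    refine le_trans ?_ (hB h hh hhh k)
    have hk0 : (0 : ℝ) ≤ k := Nat.cast_nonneg k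
    rw [← one_div, div_mul_div_comm, one_mul]
    refine one_div_le_one_div_of_le (by positivity) ?_
    have : 2 * Real.pi * k ≤ 7 * k := by nlinarith
    linarith
  have h4 : (1 : ℝ) / 16 * Real.log (M + 1) ≤ ∑ k ∈ Finset.range M, ∑ p ∈ Bk h k, (1 : ℝ) / p := by
    refine le_trans ?_ (Finset.sum_le_sum h3)
    rw [← mul_sum]
    refine mul_le_mul_of_nonneg_left ?_ (by norm_num)
    have h5 := log_add_one_le_harmonic M
    have h6 : ((harmonic M : ℚ) : ℝ) = ∑ k ∈ Finset.range M, ((k : ℝ) + 1)⁻¹ := by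
      unfold harmonic
      push_cast
      rfl
    rw [h6] at h5
    exact_mod_cast h5
  linarith

end

end Pool.Agent.U761.SZ
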